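import Mathlib

/-! Graph isomorphism: the definitions for the group lemmas. -/

set_option autoImplicit false
set_option linter.unusedSectionVars false

namespace Pool.Agent.P.MP_f1a348_lc.GX

open Equiv

/-- all cycles of length three on `P` lie in `H` -/
def Alt3 {κ : Type} [DecidableEq κ] (H : Subgroup (Perm κ)) (P : Finset κ) : Prop :=
  ∀ a ∈ P, ∀ b ∈ P, ∀ c ∈ P, a ≠ b → a ≠ c → b ≠ c → swap a b * swap a c ∈ H

/-- the even permutations that move only points of `T` -/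
def altOn {κ : Type} [Fintype κ] [DecidableEq κ] (T : Finset κ) : Subgroup (Perm κ) where
  carrier := {π | Perm.sign π = 1 ∧ ∀ x, x ∉ T → π x = x}
  mul_mem' := fun {a b} ha hb => ⟨by rw [map_mul, ha.1, hb.1, mul_one], fun x hx => by
    rw [Perm.mul_apply, hb.2 x hx, ha.2 x hx]⟩
  one_mem' := ⟨map_one _, fun _ _ => rfl⟩
  inv_mem' := fun {a} ha => ⟨by rw [map_inv, ha.1, inv_one], fun x hx => by
    rw [Perm.inv_eq_iff_eq, ha.2 x hx]⟩

theorem mem_altOn {κ : Type} [Fintype κ] [DecidableEq κ] {T : Finset κ} {π : Perm κ} :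
    π ∈ altOn T ↔ Perm.sign π = 1 ∧ ∀ x, x ∉ T → π x = x := Iff.rfl

/-- `H` maps `O` into itself -/
def InvF {G Ω : Type} [Group G] [MulAction G Ω] (H : Subgroup G) (O : Finset Ω) : Prop :=
  ∀ g ∈ H, ∀ x ∈ O, g • x ∈ O

/-- `H` induces on `O` all cycles of length three -/
def Giant {G Ω : Type} [Group G] [MulAction G Ω] [DecidableEq Ω] (H : Subgroup G)
    (O : Finset Ω) : Prop :=
  ∀ a ∈ O, ∀ b ∈ O, ∀ c ∈ O, a ≠ b → a ≠ c → b ≠ c →
    ∃ g ∈ H, ∀ x ∈ O, g • x = (swap a b * swap a c) x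

/-- `H` is transitive on the injective `k`-tuples of points of `O` -/
def MTr {G Ω : Type} [Group G] [MulAction G Ω] (H : Subgroup G) (O : Finset Ω) (k : ℕ) : Prop :=
  ∀ a b : Fin k → Ω, Function.Injective a → Function.Injective b → (∀ i, a i ∈ O) →
    (∀ i, b i ∈ O) → ∃ g ∈ H, ∀ i, g • a i = b i

end Pool.Agent.P.MP_f1a348_lc.GX
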