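import Pool.Agent.P.MP_f1a348_lc.TO.DDefs
import Pool.Agent.P.MP_f1a348_lc.TO.GDefs

/-! Graph isomorphism: the specification of the test and the final statement. -/

set_option autoImplicit false
set_option linter.unusedSectionVars false

namespace Pool.Agent.P.MP_f1a348_lc.GX

open Pool.Agent.Lib.Helper47 Pool.Agent.P.MP_f1a348_lc.GI Pool.Agent.P.MP_f1a348_lc.TO

/-- the budget `p.1`, the level `p.2` and two edge lists on `0, ..., n - 1` -/
structure GPre (p : Par) (n : ℕ) (E F : List (ℕ × ℕ)) : Prop where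
  se : E.Sublist (prodL (List.range n) (List.range n))
  sf : F.Sublist (prodL (List.range n) (List.range n))
  sz : size ((List.range n, E, List.range n, F) : Q) ≤ 16 * (n + 2) ^ 3
  lev : 4 ≤ p.2.length
  big : (n + 2) ^ (p.2.length + 8) ≤ p.1.length

/-- a sound test that answers at level `lv n` with a budget `n ^ O(lv n)` -/
structure GSpec (lv : ℕ → ℕ) (mn : Par × Q → Option Bool) : Prop where
  pt : PT mn
  sound : ∀ p n E F b, GPre p n E F → mn (p, List.range n, E, List.range n, F) = some b →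
    (b = true ↔ ∃ φ, DIso φ (List.range n) E (List.range n) F)
  halts : ∃ c : ℕ, ∀ p n E F, GPre p n E F → p.2.length = lv n →
    (n + 2) ^ (c * (lv n + 1)) ≤ p.1.length → mn (p, List.range n, E, List.range n, F) ≠ none

/-- the level `c log n loglog n` -/
def lvl (c n : ℕ) : ℕ := c * (Nat.log 2 n + 1) * (Nat.log 2 (Nat.log 2 n + 1) + 1) + 4

/-- graph isomorphism within `T C n` steps -/
def GIin (T : ℝ → ℕ → ℝ) : Prop :=
  ∃ (tm : Turing.FinTM2) (e₀ : tm.Γ tm.k₀ ≃ Bool) (e₁ : tm.Γ tm.k₁ ≃ Bool),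
    (∀ k, Finite (tm.Γ k)) ∧ ∃ C : ℝ, ∀ (n : ℕ) (G H : SimpleGraph (Fin n)),
      ∃ (t : ℕ) (b : Bool), (t : ℝ) ≤ T C n ∧
        Nonempty (Turing.TM2OutputsInTime tm ((adjBits G ++ adjBits H).map e₀.symm)
          (Option.some ([b].map e₁.symm)) t) ∧
        (b = true ↔ Nonempty (G ≃g H))

/-- graph isomorphism in time `2 ^ O(log² n loglog n)` -/
def FINAL : Prop :=
  GIin fun C n => 2 ^ (C * Real.logb 2 (n + 2) ^ 2 * Real.logb 2 (Real.logb 2 (n + 4)))

end Pool.Agent.P.MP_f1a348_lc.GX
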