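import Pool.Agent.P.MP_f1a348_lc.GX.DefsS

/-! Graph isomorphism: the data of the design lemma. -/

set_option autoImplicit false
set_option linter.unusedSectionVars false

namespace Pool.Agent.P.MP_f1a348_lc.GX

open Equiv Finset
open scoped Classical

variable {Y : Type} [DecidableEq Y]

/-- `C` is `d`-transitive and `R` is an invariant proper relation of arity `d + 1` on it -/
structure Sy.Typ (Γ : Sy Y) (C : Finset Y) (d : ℕ) (R : (Fin d → Y) → Y → Prop) (m : ℕ) :
    Prop where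
  inv1 : Γ.Inv1 C
  tr : Γ.Tr C d
  one : 1 ≤ m
  half : 2 * m + d ≤ C.card
  sup : ∀ p u, R p u → Function.Injective p ∧ (∀ i, p i ∈ C) ∧ u ∈ C ∧ ∀ i, p i ≠ u
  inv : ∀ (A : Finset Y) (f : Perm Y) (p : Fin d → Y) (u : Y), Γ.L A f → (∀ i, p i ∈ A) →
    u ∈ A → R p u → R (f ∘ p) (f u)
  card : ∀ p : Fin d → Y, Function.Injective p → (∀ i, p i ∈ C) → (C.filter (R p)).card = m

end Pool.Agent.P.MP_f1a348_lc.GX
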