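import Pool.Agent.P.MP_f1a348_lc.GX.LibFrm

/-! Graph isomorphism: the frames in which each answer is the coset of the next call. -/

set_option autoImplicit false
set_option linter.unusedSectionVars false

namespace Pool.Agent.P.MP_f1a348_lc.GX

open Pool.Agent.Lib.Helper47 Pool.Agent.P.MP_f1a348_lc.GI Pool.Agent.P.MP_f1a348_lc.TO

variable {C F X T G Ω₀ : Type} [Group G] [DecidableEq G] [MulAction G Ω₀] [DecidableEq Ω₀]

/-- The state is the current coset; the answer to an item is translated, gets the extra generators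
and is the new coset. An empty coset stays empty. -/
def chnP (sp : C → List Unit) (base : C → List Ω₀) (st0 : C → X → Option (Option (G × List G)))
    (its : C → X → List T) (fr : T → Bool) (mk : C → X → T → G × List G → G × F)
    (ext : C → X → List G) :
    Part C F X T (Option (Option (G × List G))) (Option (G × List G)) where
  todo := its
  ini := st0
  call c x t s := (s.bind id).map (fun a => (fr t, (mk c x t a).2))
  upd c x t s r := (s.bind id).bind (fun a =>
    r.map (fun b => addG (sp c) (base c) (ext c x) (lmul (mk c x t a).1 b)))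
  fin _ _ s := s

variable {sp : C → List Unit} {base : C → List Ω₀} {st0 : C → X → Option (Option (G × List G))}
  {its : C → X → List T} {fr : T → Bool} {mk : C → X → T → G × List G → G × F}
  {ext : C → X → List G} {c : C} {x : X}

theorem chnP_snd {Pre : F → Prop} {Post : F → Option (G × List G) → Prop}
    {R : Option (G × List G) → Prop} (I : List T → Option (G × List G) → Prop)
    (h0 : ∀ a, st0 c x = some a → I [] a)
    (h1 : ∀ u t v, its c x = u ++ t :: v → I u none → I (u ++ [t]) none)
    (h2 : ∀ u t v a, its c x = u ++ t :: v → I u (some a) → Pre (mk c x t a).2 ∧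
      ∀ b, Post (mk c x t a).2 b →
        I (u ++ [t]) (addG (sp c) (base c) (ext c x) (lmul (mk c x t a).1 b)))
    (h3 : ∀ a, I (its c x) a → R a) :
    (chnP sp base st0 its fr mk ext).Snd c Pre Post x R := by
  refine ⟨fun u s => ∀ a, s = some a → I u a, h0, fun u t v s a1 a2 a3 a e => ?_,
    fun u t v s b g a1 a2 a3 => ?_, fun s a a1 a2 => h3 a (a1 a a2)⟩
  · subst e
    cases a with
    | none => exact h1 u t v a1 (a2 _ rfl)
    | some a => cases a3
  · obtain ⟨a, b1, b2⟩ := Option.map_eq_some_iff.1 a3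
    obtain ⟨a', rfl, b3⟩ := Option.bind_eq_some_iff.1 b1
    obtain rfl : a' = some a := b3
    obtain rfl : (mk c x t a).2 = g := (Prod.mk.inj b2).2
    obtain ⟨c1, c2⟩ := h2 u t v a a1 (a2 _ rfl)
    refine ⟨c1, fun r hr a' e => ?_⟩
    obtain ⟨b', rfl, rfl⟩ := Option.map_eq_some_iff.1 e
    exact c2 b' (hr b' rfl)

variable [Enc C] [Enc F] [Enc X] [Enc T] [Enc G] [Enc Ω₀]

theorem chnP_loc {B : ℕ} {e1 e2 : F → Option (Option (G × List G))}
    (J : List T → Option (G × List G) → Prop) (hB : ∀ u a, J u a → size a + 2 ≤ B)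
    (h0 : ∃ a, st0 c x = some a ∧ J [] a)
    (h1 : ∀ u t v, its c x = u ++ t :: v → J u none → J (u ++ [t]) none)
    (h2 : ∀ u t v a, its c x = u ++ t :: v → J u (some a) →
      ∃ b, ansOf e1 e2 (u.any fr) (fr t, (mk c x t a).2) = some b ∧
        J (u ++ [t]) (addG (sp c) (base c) (ext c x) (lmul (mk c x t a).1 b))) :
    (chnP sp base st0 its fr mk ext).Loc c B e1 e2 x (· ≠ none) := by
  obtain ⟨a0, i1, i2⟩ := h0
  refine ⟨fun u b s => ∃ a, s = some a ∧ J u a ∧ (a ≠ none → b = u.any fr),
    ⟨?_, a0, i1, i2, fun _ => rfl⟩, fun u t v b s a1 a2 a3 => ?_,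
    fun u t v b s f g r a1 a2 a3 a4 => ?_, fun b s a1 => ?_⟩
  · change size (st0 c x) ≤ B
    rw [i1]; simpa using hB _ _ i2
  · obtain ⟨a, rfl, b1, -⟩ := a2
    cases a with
    | none => exact ⟨none, rfl, h1 u t v a1 b1, fun e => absurd rfl e⟩
    | some a => cases a3
  · obtain ⟨a, rfl, b1, b2⟩ := a2
    cases a with
    | none => cases a3
    | some a =>
      obtain ⟨rfl, rfl⟩ := Prod.mk.inj (Option.some.inj a3)
      obtain rfl := b2 (by simp)
      obtain ⟨b', c1, c2⟩ := h2 u t v a a1 b1
      obtain rfl : r = some b' := a4.trans c1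
      exact ⟨by simpa [chnP] using hB _ _ c2, _, rfl, c2, fun _ => by simp⟩
  · obtain ⟨a, rfl, -⟩ := a1
    simp [chnP]

variable [PG G] [PA G Ω₀]

theorem chnP_poly (h0 : PT sp) (h1 : PT base) (h2 : PT (fun p : C × X => st0 p.1 p.2))
    (h3 : PT (fun p : C × X => its p.1 p.2)) (h4 : PT fr)
    (h5 : PT (fun p : C × X × T × G × List G => mk p.1 p.2.1 p.2.2.1 p.2.2.2))
    (h6 : PT (fun p : C × X => ext p.1 p.2)) : (chnP sp base st0 its fr mk ext).Poly := by
  refine ⟨h3, h2, ?_, ?_, ?_⟩
  · refine PT.optMap (by fun_prop) (PT.prodMk (by fun_prop) (PT.snd ?_))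
    exact h5.comp (g := fun p : (C × X × T × Option (Option (G × List G))) × G × List G =>
      (p.1.1, p.1.2.1, p.1.2.2.1, p.2)) (by fun_prop)
  · refine PT.optBind (by fun_prop) (PT.optMap (by fun_prop)
      (pt_addG (by fun_prop) (by fun_prop) ?_ (pt_lmul (PT.fst ?_) (by fun_prop))))
    · exact h6.comp (g := fun p : ((C × X × T × Option (Option (G × List G)) ×
        Option (Option (G × List G))) × G × List G) × Option (G × List G) =>
        (p.1.1.1, p.1.1.2.1)) (by fun_prop)
    · exact h5.comp (g := fun p : ((C × X × T × Option (Option (G × List G)) ×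
        Option (Option (G × List G))) × G × List G) × Option (G × List G) =>
        (p.1.1.1, p.1.1.2.1, p.1.1.2.2.1, p.1.2)) (by fun_prop)
  · unfold chnP; fun_prop

omit [Enc C] [Enc F] [Enc X] [Enc T] [Enc G] [Enc Ω₀] [PG G] [PA G Ω₀] in
/-- the members of a coset with extra generators -/
theorem mem_addG {pad : List Unit} {bs : List Ω₀} {W : Subgroup G} (hf : Faith pad bs W)
    {K S : List G} (hK : gen K ≤ W) (hS : gen S ≤ W) {σ g : G} :
    g ∈ cs (addG pad bs K (some (σ, S))) ↔ σ⁻¹ * g ∈ gen K ⊔ gen S := by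
  change g ∈ cs (some (σ, _)) ↔ _
  rw [mem_cs, hf.gen_sims (by rw [gen_append]; exact sup_le hK hS), gen_append]

end Pool.Agent.P.MP_f1a348_lc.GX
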