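import Pool.Agent.P.MP_f1a348_lc.GX.DefsS

/-! Graph isomorphism: views of the states, flags and their potential, the rules of the game. -/

set_option autoImplicit false
set_option linter.unusedSectionVars false

namespace Pool.Agent.P.MP_f1a348_lc.GX

open Equiv Finset MulAction
open scoped Classical

/-- the number of binary digits -/
def bl (x : ℕ) : ℕ := x.bits.length

/-- the parameters -/
structure Pm where
  /-- all sets have at most `2 ^ lam` points -/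
  lam : ℕ
  /-- the bound for levels -/
  N1 : ℕ
  /-- the level of the systems -/
  M : ℕ
  /-- the length of the tuples whose orbits get labels -/
  mm : ℕ

namespace Pm
variable (P : Pm)
/-- the bound for supports -/
def s : ℕ := 4 * P.lam + 6
/-- the length of the test tuples -/
def t : ℕ := 100 * (P.lam + 1) + 3
/-- the degree of transitivity -/
def tau : ℕ := P.t + P.s
/-- the price of a generic move -/
def g : ℕ := 16 * (P.lam + 1)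
/-- the price of a call of the local certificates -/
def cst (o : ℕ) : ℕ := P.g + 4 * P.t * bl o
/-- the threshold of the step -/
def t0 : ℕ := 4 * P.tau + 2 ^ 64
/-- the parameter of the potential -/
noncomputable def LL : ℝ := lg (P.lam + 2)
/-- the number of bits for one unit of potential -/
def unit : ℕ := 2 ^ 70 * (P.lam + 1)
/-- the conditions on the parameters -/
structure Ok : Prop where
  m1 : 2 * P.tau + 4 ≤ P.M
  m2 : P.mm + 6 ≤ P.M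
  m3 : 2 ≤ P.mm
  n1 : P.N1 ≤ 2 ^ P.lam
end Pm

/-- `Γ'` refines the image of `Γ` under `e` on pairs -/
structure Sy.RefE {Y : Type} [DecidableEq Y] (Γ Γ' : Sy Y) (e : Y → Y) : Prop where
  inj : Set.InjOn e Γ.D
  mem : ∀ a ∈ Γ.D, e a ∈ Γ'.D
  ref : ∀ a ∈ Γ.D, ∀ b ∈ Γ.D, ∀ a' b', Γ'.E2 (e a) (e b) a' b' →
    ∃ a0 b0, a' = e a0 ∧ b' = e b0 ∧ Γ.E2 a b a0 b0

variable {G Y : Type} [Group G] [MulAction G Y] [DecidableEq Y]

/-- the orbit inside `D` -/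
noncomputable def orb (H : Subgroup G) (D : Finset Y) (z : Y) : Finset Y :=
  D.filter (fun y => ∃ h ∈ H, h • z = y)

/-- the pointwise stabiliser -/
def fixF (G : Type) [Group G] [MulAction G Y] (A : Finset Y) : Subgroup G :=
  ⨅ p ∈ A, stabilizer G p

theorem mem_fixF {A : Finset Y} {h : G} : h ∈ fixF G A ↔ ∀ p ∈ A, h • p = p := by
  simp [fixF, Subgroup.mem_iInf]

/-- the system of the orbits of `H` -/
noncomputable def sys1 (M : ℕ) (H : Subgroup G) (D : Finset Y) : Sy Y where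
  D := D.filter (fun x => ∀ h ∈ H, h • x ∈ D)
  M := M
  L A f := A ⊆ D.filter (fun x => ∀ h ∈ H, h • x ∈ D) ∧ ∃ h ∈ H, ∀ x ∈ A, f x = h • x
  sub := fun ⟨h1, h, h2, h3⟩ x hx => ⟨h1 hx, by
    have := (mem_filter.1 (h1 hx)).2
    rw [h3 x hx]
    exact mem_filter.2 ⟨this h h2, fun k hk => mul_smul k h x ▸ this _ (H.mul_mem hk h2)⟩⟩
  loc := fun ⟨h1, h, h2, h3⟩ hB e => ⟨hB.trans h1, h, h2, fun x hx => by
    rw [e x hx, h3 x (hB hx)]⟩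
  one := fun h => ⟨h, 1, H.one_mem, fun _ _ => by simp⟩
  inv := fun {A f} ⟨h1, h, h2, h3⟩ => ⟨fun x hx => by
      obtain ⟨y, hy, rfl⟩ := mem_image.1 hx
      have := (mem_filter.1 (h1 hy)).2
      rw [h3 y hy]
      exact mem_filter.2 ⟨this h h2, fun k hk => mul_smul k h y ▸ this _ (H.mul_mem hk h2)⟩,
    h⁻¹, H.inv_mem h2, fun x hx => by
      obtain ⟨y, hy, rfl⟩ := mem_image.1 hx
      rw [eq_inv_smul_iff, ← h3 _ (by simpa using hy)]; simp⟩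
  mul := fun {A f f'} ⟨h1, h, h2, h3⟩ ⟨_, k, k2, k3⟩ => ⟨h1, k * h, H.mul_mem k2 h2, fun x hx => by
    rw [Perm.mul_apply, k3 _ (mem_image_of_mem _ hx), h3 x hx, mul_smul]⟩
  ext := fun {A f} ⟨h1, h, h2, h3⟩ _ => ⟨toPerm h, fun w => by
      simp only [mem_filter, toPerm_apply]
      refine ⟨fun a => ⟨a.2 h h2, fun k hk => mul_smul k h w ▸ a.2 _ (H.mul_mem hk h2)⟩,
        fun a => ⟨by simpa using a.2 _ (H.inv_mem h2), fun k hk => ?_⟩⟩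
      simpa [mul_smul] using a.2 _ (H.mul_mem hk (H.inv_mem h2)),
    fun w hw => ⟨toPerm h, fun x hx => (h3 x hx).symm, rfl, insert_subset hw h1, h, h2,
      fun _ _ => rfl⟩⟩

/-- fixing `z` in addition to `w` destroys no large giant action -/
def AlgPt (m : ℕ) (H : Subgroup G) (w z : Y) : Prop :=
  ∀ F ≤ H, ∀ Q : Finset Y, m ≤ Q.card → InvF F Q → Giant (F ⊓ stabilizer G w) Q →
    Giant (F ⊓ stabilizer G w ⊓ stabilizer G z) Q

/-- the levels of the list `k` have potential at most `Φ` -/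
def Ch (P : Pm) (D : Finset Y) (Γ : Sy Y) : Subgroup G → List Y → ℝ → Prop
  | _, [], Φ => 0 ≤ Φ
  | H, z :: k, Φ => z ∈ D ∧ (orb H D z).card ≤ P.N1 ∧ ∃ n1 n2 : ℝ,
      (sys1 P.M H D).Good P.N1 (orb H D z) n1 ∧ Γ.Good P.N1 (orb H D z ∩ Γ.cls z) n2 ∧
      Ch P D Γ (H ⊓ stabilizer G z) k (Φ - (HH P.LL (orb H D z).card + n1 + n2))

/-- a view: the group, the points it acts on, the active points, the system of the structure -/
structure Vw (G Y : Type) [Group G] [DecidableEq Y] where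
  H : Subgroup G
  D : Finset Y
  X : Finset Y
  Γ : Sy Y

namespace Vw
variable (P : Pm) (v v' : Vw G Y)

structure Ok : Prop where
  fin : Finite v.H
  inv : InvF v.H v.D
  xd : v.X ⊆ v.D
  dd : v.D ⊆ v.Γ.D
  lev : v.Γ.M = P.M
  card : v.Γ.D.card ≤ 2 ^ P.lam

/-- a later view -/
structure Mono : Prop where
  h : v'.H ≤ v.H
  d : v.D ⊆ v'.D
  x : v'.X ⊆ v.X
  dd : v.Γ.D ⊆ v'.Γ.D
  l : ∀ A ⊆ v.Γ.D, ∀ f, v'.Γ.L A f → v.Γ.L A f

/-- a later view in which the structure is moved by an element of the group and renamed -/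
def Emb : Prop :=
  v'.H ≤ v.H ∧ v'.D = v.D ∧ ∃ α ∈ v.H, ∃ e : Y → Y, v.Γ.RefE v'.Γ e ∧
    (∀ z ∈ v.Γ.D, e z ∈ v.D → e z = α⁻¹ • z) ∧
    ∀ w ∈ v'.X, α • w ∈ v.X ∧ ∀ z ∈ v.D, AlgPt P.tau v.H (α • w) z → e z = α⁻¹ • z

/-- the orbit -/
noncomputable def o (z : Y) : Finset Y := orb v.H v.D z

/-- the system of the orbits -/
noncomputable def Γ1 : Sy Y := sys1 P.M v.H v.D

/-- the orbits of the group on short tuples are labelled -/
def OL : Prop :=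
  ∀ A ⊆ v.D, A.card ≤ P.mm → ∀ f, v.Γ.L A f → ∃ h ∈ v.H, ∀ x ∈ A, f x = h • x

/-- the list `k` determines `w` and is algebraic over it -/
def Det (w : Y) (k : List Y) : Prop :=
  v.H ⊓ fixF G k.toFinset ≤ stabilizer G w ∧ ∀ z ∈ k, AlgPt P.tau v.H w z

/-- the point `w` has potential at most `Φ` -/
def Pt (w : Y) (Φ : ℝ) : Prop := ∃ k, Ch P v.D v.Γ v.H k Φ ∧ v.Det P w k

/-- the point `w` has a flag with head `u` whose tail has potential at most `Φ` -/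
def Tl (w u : Y) (Φ : ℝ) : Prop :=
  ∃ k, Ch P v.D v.Γ (v.H ⊓ stabilizer G u) k Φ ∧ v.Det P w (u :: k)

/-- `O` is an orbit -/
def IsO (O : Finset Y) : Prop := O.Nonempty ∧ O ⊆ v.D ∧ ∀ u ∈ O, v.o u = O

/-- new points `b x` for the points of `C`, permuted by the group, linked in the structure -/
structure Nw (C : Finset Y) (b : Y → Y) : Prop where
  mem : ∀ x ∈ C, b x ∈ v.D
  eqv : ∀ h ∈ v.H, ∀ x ∈ C, h • x ∈ C ∧ b (h • x) = h • b x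
  inv : v.Γ.Inv2 (fun x y => x ∈ C ∧ y = b x)

/-- all active points have flags with heads in the orbit `A` -/
structure Hd (A : Finset Y) (n1 n2 Φ' Φ : ℝ) : Prop where
  o : v.IsO A
  n : A.card ≤ P.N1
  g1 : (v.Γ1 P).Good P.N1 A n1
  tl : ∀ w ∈ v.X, ∃ u ∈ A, v.Tl P w u Φ' ∧ v.Γ.Good P.N1 (A ∩ v.Γ.cls u) n2
  sum : Φ' + HH P.LL A.card + n1 + n2 ≤ Φ
end Vw

/-- the rules; `W φ v` says that the fuel `φ` suffices for the view `v` -/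
structure Rules (P : Pm) (W : ℕ → Vw G Y → Prop) : Prop where
  leaf : ∀ φ (v : Vw G Y), v.Ok P → InvF v.H v.X → W φ v
  uni : ∀ φ (v : Vw G Y), v.Ok P → P.g ≤ φ →
    (∀ v' : Vw G Y, v'.Ok P → v.Mono v' → v'.OL P → (∀ w ∈ v'.X, ∀ w' ∈ v'.X, v'.Γ.E1 w w') →
      W (φ - P.g) v') → W φ v
  pin1 : ∀ φ (v : Vw G Y) p (Q : Finset Y), v.Ok P → p ∈ v.D → Q ⊆ v.o p →
    P.g + 2 * Q.card * bl (v.o p).card ≤ φ →
    (∀ v' : Vw G Y, v'.Ok P → v.Mono v' → v'.H ≤ fixF G Q →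
      W (φ - (P.g + 2 * Q.card * bl (v.o p).card)) v') → W φ v
  pin2 : ∀ φ (v : Vw G Y) p (Q : Finset Y), v.Ok P → p ∈ v.Γ.D → Q ⊆ v.Γ.cls p →
    P.g + 2 * Q.card * bl (v.Γ.cls p).card ≤ φ →
    (∀ v' : Vw G Y, v'.Ok P → v.Mono v' → v'.H = v.H → v'.D = v.D →
      (∀ x ∈ Q, ∀ y, v'.Γ.E1 x y → y = x) →
      W (φ - (P.g + 2 * Q.card * bl (v.Γ.cls p).card)) v') → W φ v
  quo1 : ∀ φ (v : Vw G Y) (C : Finset Y) (prs : List (Y × Y)), v.Ok P → v.IsO C →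
    C.card ≤ P.N1 → (∀ q ∈ prs, q.1 ∈ C ∧ q.2 ∈ C) → P.g * (2 * prs.length + 1) ≤ φ →
    (∀ (v' : Vw G Y) (b : Y → Y), v'.Ok P → v.Mono v' → v'.H = v.H → v'.Nw C b →
      (∀ x ∈ C, ∀ y ∈ C, b x = b y ↔ Relation.EqvGen ((v.Γ1 P).Rel C prs) x y) →
      W (φ - P.g * (2 * prs.length + 1)) v') → W φ v
  quo2 : ∀ φ (v : Vw G Y) (C : Finset Y) (prs : List (Y × Y)), v.Ok P → v.Γ.Cls C →
    C.card ≤ P.N1 → (∀ q ∈ prs, q.1 ∈ C ∧ q.2 ∈ C) → P.g * (2 * prs.length + 1) ≤ φ →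
    (∀ (v' : Vw G Y) (b : Y → Y), v'.Ok P → v.Mono v' → v'.H = v.H → v'.D = v.D →
      v.Γ.Blk v'.Γ C prs b → W (φ - P.g * (2 * prs.length + 1)) v') → W φ v
  red0 : ∀ φ (v : Vw G Y) (O : Finset Y), v.Ok P → v.IsO O → Giant v.H O → P.g ≤ φ →
    (∀ v' : Vw G Y, v'.Ok P → v.Mono v' → (∀ h ∈ v'.H, ∀ u ∈ O, v.Γ.E1 u (h • u)) →
      W (φ - P.g) v') → W φ v
  redE : ∀ φ (v : Vw G Y) (O A : Finset Y) z z', v.Ok P → v.IsO O → Giant v.H O →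
    O.card ≤ P.N1 → v.Γ.Cls A → A ⊆ O → z ∈ A → z' ∈ A → P.g * 3 ≤ φ →
    (∀ (v' : Vw G Y) (b : Y → Y), v'.Ok P → v.Mono v' →
      (∀ h ∈ v'.H, ∀ u ∈ O, v.Γ.E1 u (h • u)) → v'.Nw A b →
      (∀ x ∈ A, ∀ y ∈ A, b x = b y ↔ Relation.EqvGen (v.Γ.Rel A [(z, z')]) x y) →
      W (φ - P.g * 3) v') → W φ v
  redJ : ∀ φ (v : Vw G Y) (O C : Finset Y) z0 y0 e, v.Ok P → v.IsO O → Giant v.H O →
    v.Γ.Cls O → v.Γ.John O C z0 y0 e → 1 ≤ e → e < C.card → C.card ≤ P.N1 → P.g * 3 ≤ φ →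
    (∀ (v' : Vw G Y) (b : Y → Y), v'.Ok P → v.Mono v' → (∀ y ∈ C, b y ∈ v'.D) →
      (∀ h ∈ v'.H, ∀ y ∈ C, ∃ y' ∈ C, h • b y = b y') →
      (∀ h ∈ v'.H, ∀ y ∈ C, ∀ y' ∈ C, h • b y = b y' → ∀ x ∈ O,
        v.Γ.E2 z0 y0 x y ↔ v.Γ.E2 z0 y0 (h • x) y') →
      W (φ - P.g * 3) v') → W φ v
  giant : ∀ φ (v : Vw G Y) (O : Finset Y) w0 u0, v.Ok P → v.IsO O → Giant v.H O → w0 ∈ v.D →
    u0 ∈ O → (∀ w ∈ v.X, ∃ u ∈ O, v.Γ.E2 w0 u0 w u) →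
    (∀ w ∈ v.X, ∀ u ∈ O, v.Γ.E2 w0 u0 w u → AlgPt P.tau v.H w u) →
    P.g * 2 + P.cst O.card ≤ φ →
    (∀ v' : Vw G Y, v'.Ok P → v.Mono v' →
      (∀ w ∈ v'.X, ∃ u ∈ O, v.Γ.E2 w0 u0 w u ∧ 4 * (v'.o u).card ≤ 3 * O.card) →
      W (φ - P.g * 2) v') →
    (∀ (v' : Vw G Y) (O' : Finset Y), v'.Ok P → v.Mono v' → O' ⊆ O → v'.IsO O' →
      (∀ w ∈ v'.X, ∃ u ∈ O', v.Γ.E2 w0 u0 w u) →
      (O'.card < 4 * P.tau ∨ (4 * P.tau ≤ O'.card ∧ Giant v'.H O' ∧ v'.Γ.Cls O' ∧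
        ¬ v'.Γ.Tr O' P.tau)) → W (φ - P.g * 2) v') →
    (∀ (v' : Vw G Y) (o : ℕ), v'.Ok P → v.Emb P v' → 4 * P.tau ≤ o → o ≤ O.card →
      (∀ w ∈ v'.X, (v'.o w).card * (o - P.t + 1) ≤ (v.o w).card * P.s) →
      W (φ - P.g * 2 - P.cst o) v') → W φ v

/-- the fuel suffices for all views of potential below `n` -/
def IH (P : Pm) (W : ℕ → Vw G Y → Prop) (n : ℕ) : Prop :=
  ∀ (φ : ℕ) (v : Vw G Y) (Φ : ℝ), v.Ok P → Φ < n → Φ + 2 ≤ P.mm → P.unit * (Φ + 1) ≤ φ →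
    (∀ w ∈ v.X, v.Pt P w Φ) → W φ v

/-- the budget at the start of a step -/
structure Bud (P : Pm) (n φ : ℕ) (Φ : ℝ) : Prop where
  lt : Φ < n + 1
  mm : Φ + 2 ≤ P.mm
  fuel : P.unit * (Φ + 1) ≤ φ

end Pool.Agent.P.MP_f1a348_lc.GX
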