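import Pool.Agent.P.MP_f1a348_lc.GX.LibFull
import Pool.Agent.P.MP_f1a348_lc.GX.LibRen

/-! Graph isomorphism: the pieces and the renamed structures in the full case. -/

set_option autoImplicit false
set_option linter.unusedSectionVars false

namespace Pool.Agent.P.MP_f1a348_lc.GX

open Pool.Agent.Lib.Helper47 Pool.Agent.P.MP_f1a348_lc.GI Pool.Agent.P.MP_f1a348_lc.TO
open Equiv MulAction
open scoped Classical

variable {G Ω₀ Ω : Type} [Group G] [DecidableEq G] [MulAction G Ω₀] [DecidableEq Ω₀]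
  [MulAction G Ω] [DecidableEq Ω]

/-- the points whose support lies in `S` -/
def dS (pad : List Unit) (base : List Ω₀) (F : List G) (O D S : List Ω) : List Ω :=
  D.filter (fun p => (supL pad base F O p).all (fun a => S.contains a))

/-- move the points that land in `Q`, give new names to the others -/
def renE (Q : List Ω) (β : G) (tag : Ω → Ω) (z : Ω) : Ω :=
  bif Q.contains (β • z) then β • z else tag z

/-- the structure that is linked to the group on `Q` only -/
def fulS (D Q : List Ω) (β : G) (tag : Ω → Ω) (m : ℕ) (A : Sx Ω) : Sx Ω :=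
  renS (renE Q β tag) (D.filter (fun p => !Q.contains p)) m A

/-- representatives for the ways to move the points with support in `S` -/
def repS (pad : List Unit) (base : List Ω₀) (F : List G) (O D S : List Ω) : List G :=
  meetR pad base (stabL pad base F (dS pad base F O D S)) O F

/-- what the programs need to know about the lists -/
structure Lst (pad : List Unit) (base : List Ω₀) (H : Subgroup G) (O D : List Ω) : Prop where
  fa : Faith pad base H
  io : InvL H O
  id : InvL H D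
  no : O.Nodup
  lo : O.length ≤ pad.length
  ld : D.length ≤ pad.length

variable {pad : List Unit} {base : List Ω₀} {H : Subgroup G} {O D : List Ω}

theorem Lst.mono (h : Lst pad base H O D) {K : Subgroup G} (e : K ≤ H) : Lst pad base K O D :=
  ⟨h.fa.mono e, h.io.mono e, h.id.mono e, h.no, h.lo, h.ld⟩

theorem invF_of (h : InvL H O) : InvF H O.toFinset := fun g hg x hx =>
  List.mem_toFinset.2 (h g hg x (List.mem_toFinset.1 hx))

theorem dS_sublist (pad : List Unit) (base : List Ω₀) (F : List G) (O D S : List Ω) :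
    (dS pad base F O D S).Sublist D := List.filter_sublist

theorem Lst.mem_supL {F : List G} (h : Lst pad base (gen F) O D) {p a : Ω} (hp : p ∈ D) :
    a ∈ supL pad base F O p ↔ a ∈ supp (gen F) O.toFinset p :=
  GX.mem_supL h.fa h.io h.no h.lo (InvL.idx' h.id h.ld hp)

theorem Lst.mem_dS {F : List G} (h : Lst pad base (gen F) O D) {S : List Ω} {p : Ω} :
    p ∈ dS pad base F O D S ↔ p ∈ D ∧ supp (gen F) O.toFinset p ⊆ S.toFinset := by
  rw [dS, List.mem_filter]
  refine and_congr_right fun hp => ?_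
  simp only [List.all_eq_true, List.contains_iff_mem]
  exact ⟨fun e a ha => List.mem_toFinset.2 (e a ((h.mem_supL hp).2 ha)),
    fun e a ha => List.mem_toFinset.1 (e ((h.mem_supL hp).1 ha))⟩

theorem Lst.self_dS {F : List G} (h : Lst pad base (gen F) O D) {p : Ω} (hp : p ∈ D) :
    p ∈ dS pad base F O D (supL pad base F O p) :=
  h.mem_dS.2 ⟨hp, fun _ ha => List.mem_toFinset.2 ((h.mem_supL hp).2 ha)⟩

/-- the pieces correspond to each other -/
theorem Lst.dS_conj (h : Lst pad base H O D) {F F' : List G} (h1 : gen F ≤ H) (h2 : gen F' ≤ H)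
    {g ρ : G} (hg : g ∈ H) (hc : ∀ u, u ∈ gen F ↔ g * u * g⁻¹ ∈ gen F')
    (e : ∀ x ∈ O, g • x = ρ • x) (S : List Ω) (p : Ω) :
    p ∈ dS pad base F O D S ↔ g • p ∈ dS pad base F' O D (S.map (ρ • ·)) := by
  rw [(h.mono h1).mem_dS, (h.mono h2).mem_dS, h.id.iff hg]
  have k := fun a => supp_conj (O := O.toFinset) (O' := O.toFinset) hc
    (fun x => by simpa using (h.io.iff hg).symm) p a
  refine and_congr_right fun _ => ⟨fun q a ha => ?_, fun q a ha => ?_⟩
  · have h3 : g⁻¹ • a ∈ supp (gen F) O.toFinset p := (k _).2 (by simpa using ha)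
    refine List.mem_toFinset.2 (List.mem_map.2 ⟨_, List.mem_toFinset.1 (q h3), ?_⟩)
    rw [← e _ (List.mem_toFinset.1 (supp_sub h3)), smul_inv_smul]
  · obtain ⟨b, hb, r⟩ := List.mem_map.1 (List.mem_toFinset.1 (q ((k a).1 ha)))
    rw [e a (List.mem_toFinset.1 (supp_sub ha))] at r
    exact List.mem_toFinset.2 (MulAction.injective ρ r ▸ hb)

/-- the kernel keeps the pieces -/
theorem Lst.dS_ker {F : List G} (h : Lst pad base (gen F) O D) {k : G} (hk : k ∈ gen F)
    (e : ∀ x ∈ O, k • x = x) (S : List Ω) (p : Ω) :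
    p ∈ dS pad base F O D S ↔ k • p ∈ dS pad base F O D S := by
  simpa using h.dS_conj le_rfl le_rfl (ρ := 1) hk (fun u => by
    rw [(gen F).mul_mem_cancel_right (inv_mem hk), (gen F).mul_mem_cancel_left hk])
    (by simpa using e) S p

theorem Lst.gen_stab {F : List G} (h : Lst pad base (gen F) O D) (S : List Ω) :
    gen (stabL pad base F (dS pad base F O D S)) = gen F ⊓ fixS (dS pad base F O D S) :=
  gen_stabL h.fa fun _ hp => InvL.idx' h.id h.ld ((dS_sublist _ _ _ _ _ _).subset hp)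

theorem Lst.repS_mem {F : List G} (h : Lst pad base (gen F) O D) {S : List Ω} {r : G}
    (hr : r ∈ repS pad base F O D S) : r ∈ gen F :=
  meetR_mem (h.fa.mono (stabL_le _ _ _ _).1) (h.io.mono (stabL_le _ _ _ _).1) h.lo hr

/-- on a piece every element acts like a representative, up to the kernel -/
theorem Lst.repS_cover {F : List G} (h : Lst pad base (gen F) O D) {S : List Ω}
    (hl : (repS pad base F O D S).length ≤ pad.length) {f : G} (hf : f ∈ gen F) :
    ∃ r ∈ repS pad base F O D S, ∃ k ∈ gen F, (∀ x ∈ O, k • x = x) ∧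
      ∀ p ∈ dS pad base F O D S, f • k • p = r • p := by
  obtain ⟨r, hr, j, hj, e⟩ := meetR_cover (h.fa.mono (stabL_le _ _ _ _).1)
    (h.io.mono (stabL_le _ _ _ _).1) h.lo hl hf
  rw [h.gen_stab] at hj
  refine ⟨r, hr, f⁻¹ * r * j, mul_mem (mul_mem (inv_mem hf) (h.repS_mem hr)) hj.1,
    fun x hx => by rw [mul_smul, mul_smul, e x hx, inv_smul_smul], fun p hp => ?_⟩
  rw [mul_smul, mul_smul, smul_inv_smul, mem_fixS.1 hj.2 p hp]

/-- the number of representatives -/
theorem Lst.repS_length {F : List G} [Finite (gen F)] (h : Lst pad base (gen F) O D) {L : ℕ}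
    (hG : Giant (gen F) O.toFinset) (hc : D.toFinset.card ≤ 2 ^ L) {S : List Ω}
    (hS : ∀ x ∈ S, x ∈ O) (c : 100 * (L + 1) + S.toFinset.card ≤ O.toFinset.card) :
    (repS pad base F O D S).length ≤ 2 * O.toFinset.card ^ S.toFinset.card := by
  refine meetR_length (h.fa.mono (stabL_le _ _ _ _).1) (h.io.mono (stabL_le _ _ _ _).1) h.lo
    (idx_of_giOn (invF_of h.io) (fun x hx => List.mem_toFinset.2 (hS x (List.mem_toFinset.1 hx)))
      (supp_fix (invF_of h.io) hG c (invF_of h.id) hc) ?_)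
  rintro g - ⟨j, hj, e⟩
  refine ⟨j, ?_, fun x hx => (e x (List.mem_toFinset.2 hx)).symm⟩
  rw [h.gen_stab]
  refine ⟨hj.1, mem_fixS.2 fun p hp => mem_fixF.1 hj.2 p ?_⟩
  obtain ⟨p1, p2⟩ := h.mem_dS.1 hp
  exact Finset.mem_filter.2 ⟨List.mem_toFinset.2 p1, p2⟩

/-- two representatives for the parity -/
theorem Lst.par_length {F T : List G} (h : Lst pad base (gen T) O D) (e : gen F ≤ gen T)
    (hG : Giant (gen F) O.toFinset) : (meetR pad base F O T).length ≤ 2 :=
  meetR_length (h.fa.mono e) (h.io.mono e) h.lo (idx_of_giant _ h.io hG)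

/-! ### the renamed structure -/

/-- new names -/
structure Tag (tag : Ω → Ω) (U D : List Ω) : Prop where
  inj : ∀ x ∈ U, ∀ y ∈ U, tag x = tag y → x = y
  new : ∀ x ∈ U, tag x ∉ D

variable {Q Q' : List Ω} {β : G} {tag tag' : Ω → Ω} {m : ℕ} {A B : Sx Ω}

theorem renE_pos {z : Ω} (h : β • z ∈ Q) : renE Q β tag z = β • z := by simp [renE, h]

theorem renE_neg {z : Ω} (h : β • z ∉ Q) : renE Q β tag z = tag z := by simp [renE, h]

theorem renE_mem {U : List Ω} (ht : Tag tag U D) {z : Ω} (hz : z ∈ U) (h : renE Q β tag z ∈ D) :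
    β • z ∈ Q := by
  by_contra e
  exact ht.new z hz (by rwa [renE_neg e] at h)

theorem renE_inj {U : List Ω} (ht : Tag tag U D) (hQ : ∀ x ∈ Q, x ∈ D) :
    ∀ x ∈ U, ∀ y ∈ U, renE Q β tag x = renE Q β tag y → x = y := fun x hx y hy e => by
  by_cases h1 : β • x ∈ Q
  · have h2 : β • y ∈ Q := renE_mem ht hy (e ▸ (renE_pos h1).symm ▸ hQ _ h1)
    rw [renE_pos h1, renE_pos h2] at e
    exact MulAction.injective β e
  · have h2 : β • y ∉ Q := fun h2 => h1 (renE_mem ht hx (e ▸ (renE_pos h2).symm ▸ hQ _ h2))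
    rw [renE_neg h1, renE_neg h2] at e
    exact ht.inj x hx y hy e

theorem mem_fulS {x : Ω} : x ∈ (fulS D Q β tag m A).1 ↔
    (∃ z ∈ A.1, renE Q β tag z = x) ∨ (x ∈ D ∧ x ∉ Q) := by
  simp [fulS, renS]

theorem fulS_sub (h : ∀ x ∈ Q, β⁻¹ • x ∈ A.1) {x : Ω} (hx : x ∈ D) :
    x ∈ (fulS D Q β tag m A).1 := by
  by_cases e : x ∈ Q
  · exact mem_fulS.2 (Or.inl ⟨_, h x e, by rw [renE_pos (by simpa using e), smul_inv_smul]⟩)
  · exact mem_fulS.2 (Or.inr ⟨hx, e⟩)

theorem fulS_nodup (ht : Tag tag A.1 D) (hQ : ∀ x ∈ Q, x ∈ D) (h1 : A.1.Nodup) (h2 : D.Nodup) :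
    (fulS D Q β tag m A).1.Nodup := by
  refine List.Nodup.append (h1.map_on (renE_inj ht hQ)) (h2.filter _) fun x hx hx' => ?_
  obtain ⟨z, hz, rfl⟩ := List.mem_map.1 hx
  obtain ⟨a, b⟩ := List.mem_filter.1 hx'
  have := renE_mem ht hz a
  simp [renE_pos this, this] at b

theorem fulS_length : (fulS D Q β tag m A).1.length ≤ A.1.length + D.length ∧
    (fulS D Q β tag m A).2.length = A.2.length + A.1.length := by
  have := List.length_filter_le (fun p => !Q.contains p) D
  simp only [fulS, renS, List.length_append, List.length_map, and_true]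
  omega

theorem Lab.fulS (h : Lab m A) : Lab (m + 1) (fulS D Q β tag m A) := by
  refine ⟨fun e he => ?_, fun e he x hx => List.mem_append_left _ ?_⟩
  · rcases mem_renS.1 he with ⟨l, a, -⟩ | ⟨a, -⟩
    · exact (h.lt _ a).trans (Nat.lt_succ_self _)
    · omega
  · rcases mem_renS.1 he with ⟨l, a, b⟩ | ⟨-, y, a, b⟩
    · obtain ⟨y, hy, rfl⟩ := List.mem_map.1 (b ▸ hx : x ∈ l.map _)
      exact List.mem_map_of_mem (h.sup _ a y hy)
    · rw [b, List.mem_singleton] at hx
      exact hx ▸ List.mem_map_of_mem a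

theorem fulS_refE {M : ℕ} (ht : Tag tag A.1 D) (hQ : ∀ x ∈ Q, x ∈ D) (h : Lab m A) (hM : 1 ≤ M) :
    (wsys M A).RefE (wsys M (fulS D Q β tag m A)) (renE Q β tag) :=
  renS_refE (renE_inj ht hQ) (fun r hr => ⟨h.lt r hr, h.sup r hr⟩) hM

/-- an element that agrees on `Q` with an isomorphism after a shift agrees with an isomorphism of
the renamed structures -/
theorem fulS_iso {ψ : Ω → Ω} {β' g : G} (h : SIso A B ψ) (hA : Lab m A) (hB : Lab m B)
    (ht : Tag tag A.1 D) (ht' : Tag tag' B.1 D) (hQ : ∀ x ∈ Q, x ∈ D) (hQ' : ∀ x ∈ Q', x ∈ D)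
    (hU : ∀ x ∈ Q, β⁻¹ • x ∈ A.1) (hD : ∀ x, x ∈ D ↔ g • x ∈ D) (h1 : ∀ x, x ∈ Q ↔ g • x ∈ Q')
    (h2 : ∀ x ∈ Q, g • x = β' • ψ (β⁻¹ • x)) :
    ∃ χ, SIso (fulS D Q β tag m A) (fulS D Q' β' tag' m B) χ ∧ ∀ p ∈ D, χ p = g • p := by
  let χ : Ω → Ω := fun y => if y ∈ D then g • y else
    if e : ∃ x ∈ A.1, tag x = y then tag' (ψ e.choose) else y
  have c1 : ∀ p ∈ D, χ p = g • p := fun p hp => if_pos hp
  refine ⟨χ, h.renS (renE_inj ht hQ) (renE_inj ht' hQ') hA.sup hB.sup (fun y hy x hx e => ?_)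
    (fun x hx => ?_) ⟨fun x hx => ?_, fun x hx y hy e => ?_, fun y hy => ?_⟩, c1⟩
  · obtain ⟨a, b⟩ := List.mem_filter.1 hy
    have := renE_mem ht' hx (e ▸ a)
    rw [← e, renE_pos this] at b
    simp [this] at b
  · by_cases e : β • x ∈ Q
    · have e2 := h2 _ e
      rw [inv_smul_smul] at e2
      rw [renE_pos e, c1 _ (hQ _ e), renE_pos (e2 ▸ (h1 _).1 e), e2]
    · have e1 : β' • ψ x ∉ Q' := fun e1 => by
        have e2 : g⁻¹ • β' • ψ x ∈ Q := (h1 _).2 (by simpa using e1)
        have e3 := h2 _ e2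
        rw [smul_inv_smul] at e3
        have e4 := h.bij.injOn hx (hU _ e2) (MulAction.injective β' e3)
        exact e (by rw [e4, smul_inv_smul]; exact e2)
      have e2 : ∃ y ∈ A.1, tag y = tag x := ⟨x, hx, rfl⟩
      rw [renE_neg e, renE_neg e1]
      simp only [χ, if_neg (ht.new x hx), dif_pos e2]
      rw [ht.inj _ e2.choose_spec.1 _ hx e2.choose_spec.2]
  · obtain ⟨a, b⟩ := List.mem_filter.1 hx
    rw [c1 x a]
    exact List.mem_filter.2 ⟨(hD x).1 a, by simpa [← h1] using b⟩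
  · rw [c1 x (List.mem_filter.1 hx).1, c1 y (List.mem_filter.1 hy).1] at e
    exact MulAction.injective g e
  · obtain ⟨a, b⟩ := List.mem_filter.1 hy
    have a' : g⁻¹ • y ∈ D := (hD _).2 (by simpa using a)
    exact ⟨g⁻¹ • y, List.mem_filter.2 ⟨a', by simpa [h1] using b⟩, by rw [c1 _ a', smul_inv_smul]⟩

section time
variable {α : Type} [Enc α] [Enc G] [Enc Ω₀] [Enc Ω] [PG G] [PA G Ω₀] [PA G Ω]

@[fun_prop] theorem pt_dS {pad : α → List Unit} {base : α → List Ω₀} {F : α → List G}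
    {O D S : α → List Ω} (h1 : PT pad) (h2 : PT base) (h3 : PT F) (h4 : PT O) (h5 : PT D)
    (h6 : PT S) : PT (fun a => dS (pad a) (base a) (F a) (O a) (D a) (S a)) := by
  unfold dS; fun_prop

@[fun_prop] theorem pt_repS {pad : α → List Unit} {base : α → List Ω₀} {F : α → List G}
    {O D S : α → List Ω} (h1 : PT pad) (h2 : PT base) (h3 : PT F) (h4 : PT O) (h5 : PT D)
    (h6 : PT S) : PT (fun a => repS (pad a) (base a) (F a) (O a) (D a) (S a)) := by
  unfold repS; fun_prop

theorem pt_fulS {D Q : α → List Ω} {β : α → G} {tag : α → Ω → Ω} {m : α → ℕ} {A : α → Sx Ω}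
    (h1 : PT D) (h2 : PT Q) (h3 : PT β) (h4 : PT (fun x : α × Ω => tag x.1 x.2)) (h5 : PT m)
    (h6 : PT A) : PT (fun a => fulS (D a) (Q a) (β a) (tag a) (m a) (A a)) := by
  have e : PT (fun x : α × Ω => renE (Q x.1) (β x.1) (tag x.1) x.2) := by
    unfold renE
    exact PT.cond (by fun_prop) (by fun_prop) h4
  have e2 : PT (fun x : (α × ℕ × List Ω) × Ω => renE (Q x.1.1) (β x.1.1) (tag x.1.1) x.2) :=
    e.comp (g := fun x : (α × ℕ × List Ω) × Ω => (x.1.1, x.2)) (by fun_prop)
  unfold fulS renS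
  refine PT.prodMk (PT.append (PT.map e (by fun_prop)) (by fun_prop))
    (PT.append (PT.map (PT.prodMk (by fun_prop) (PT.map e2 (by fun_prop))) (by fun_prop))
      (PT.map (PT.prodMk (by fun_prop) (PT.cons e (PT.const _))) (by fun_prop)))
end time

end Pool.Agent.P.MP_f1a348_lc.GX
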