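import Pool.Agent.P.MP_f1a348_lc.GX.LibSub
import Pool.Agent.P.MP_f1a348_lc.GX.LibFul2
import Pool.Agent.P.MP_f1a348_lc.GX.LibChn

/-! Graph isomorphism: the frames of the full case. -/

set_option autoImplicit false
set_option linter.unusedSectionVars false

namespace Pool.Agent.P.MP_f1a348_lc.GX

open Pool.Agent.Lib.Helper47 Pool.Agent.P.MP_f1a348_lc.GI Pool.Agent.P.MP_f1a348_lc.TO

/-- the state, the giant orbit, the groups of the certificates on both sides -/
abbrev FD : Type := Sta × List Tm × List U × List U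
/-- in addition the action on the orbit -/
abbrev FC : Type := FD × U
/-- in addition a support and the current coset -/
abbrev FR : Type := FC × List Tm × U × List U
/-- the frames, their items and their states -/
abbrev XF : Type := FD ⊕ FC ⊕ FR
abbrev TF (F : Type) : Type := (U × Bool × F) ⊕ Tm ⊕ (U × Bool × F)
abbrev SF : Type := Option Ans ⊕ Option Ans ⊕ Option Ans

/-- the first frame -/
def fEnt (d : FD) : XF := .inl d

/-- new names for the vertices of `A` -/
def tg (k : ℕ) (A : Sx Tm) (z : Tm) : Tm := Tm.atm (k + A.1.idxOf z)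

/-- the state that is linked to the structures on `Q` and `Q'` only -/
noncomputable def Sta.ful (s : Sta) (c : U × List U) (Q Q' : List Tm) (r : U) : Sta :=
  (c, s.D, s.X.filter (fun x => Q.contains x), s.Y.filter (fun x => Q'.contains x),
    (fulS s.D Q r⁻¹ (tg s.ctr s.A) s.ctr s.A, fulS s.D Q' (1 : U) (tg s.ctr s.B) s.ctr s.B),
    s.ctr + s.A.1.length + s.B.1.length + 1)

namespace Cx
variable (cx : Cx)
/-- the support of a point of the first side -/
noncomputable def fS (d : FD) (w : Tm) : List Tm := supL cx.pad cx.base d.2.2.1 d.2.1 w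
/-- the piece of the first side -/
noncomputable def fQ (d : FD) (S : List Tm) : List Tm := dS cx.pad cx.base d.2.2.1 d.2.1 d.1.D S
/-- the piece of the second side -/
noncomputable def fQ' (d : FC) (S : List Tm) : List Tm :=
  dS cx.pad cx.base d.1.2.2.2 d.1.2.1 d.1.1.D (S.map (fun x => d.2 • x))
/-- the kernel -/
noncomputable def fK (d : FD) : List U := stabL cx.pad cx.base d.2.2.1 d.2.1
/-- representatives for the parity -/
noncomputable def fP (d : FD) : List U := meetR cx.pad cx.base d.2.2.1 d.2.1 d.1.S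
/-- representatives for a piece -/
noncomputable def fR (d : FD) (S : List Tm) : List U :=
  repS cx.pad cx.base d.2.2.1 d.2.1 d.1.D S
/-- the pieces cover the second side -/
noncomputable def fCov (d : FC) : Bool :=
  d.1.1.Y.all (fun y => d.1.1.X.any (fun w => (cx.fQ' d (cx.fS d.1 w)).contains y))
end Cx

variable {F : Type}

/-- join over the parity -/
noncomputable def parP (i : FC → F) : Part Cx F FD (U × Bool × F) (Option Ans) Ans :=
  joinP Cx.pad Cx.base (fun cx d => bif Nat.ble (cx.fP d).length cx.pad.length then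
    some ((cx.fP d).map (fun ρ => (1, false, i (d, ρ)))) else none) (fun _ d => d.2.2.1)

/-- chain over the supports -/
noncomputable def supP (i : FR → F) : Part Cx F FC Tm (Option Ans) Ans :=
  chnP Cx.pad Cx.base (fun cx d => some (bif cx.fCov d then
    some (d.2, stabL cx.pad cx.base d.1.1.S d.1.2.1) else none)) (fun _ d => d.1.1.X)
    (fun _ => false) (fun cx d w a => (1, i (d, cx.fS d.1 w, a))) (fun cx d => cx.fK d.1)

/-- join over the representatives -/
noncomputable def repP (i : Sta → F) : Part Cx F FR (U × Bool × F) (Option Ans) Ans :=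
  joinP Cx.pad Cx.base (fun cx x => bif Nat.ble (cx.fR x.1.1 x.2.1).length cx.pad.length then
    some ((cx.fR x.1.1 x.2.1).map (fun r =>
      (1, false, i (x.1.1.1.ful x.2.2 (cx.fQ x.1.1 x.2.1) (cx.fQ' x.1 x.2.1) r)))) else none)
    (fun cx x => cx.fK x.1.1)

/-- the frames of the full case -/
noncomputable def fullP (iS : Sta → F) (iF : XF → F) : Part Cx F XF (TF F) SF Ans :=
  (parP fun x => iF (.inr (.inl x))).sum ((supP fun x => iF (.inr (.inr x))).sum (repP iS))

/-- the input of the full case -/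
structure FOk (cx : Cx) (d : FD) : Prop where
  wf : cx.WF d.1
  one : d.1.σ = 1
  nd : d.2.1.Nodup
  od : ∀ x ∈ d.2.1, x ∈ d.1.D
  inv : InvL (gen d.1.S) d.2.1
  fx : gen d.2.2.1 ≤ gen d.1.S
  fy : gen d.2.2.2 ≤ gen d.1.S
  lx : d.2.2.1.length ≤ cx.pd
  ly : d.2.2.2.length ≤ cx.pd
  keep : InvL (gen d.2.2.1) d.1.X
  conj : ∀ n ∈ d.1.Tgt, ∀ g, g ∈ gen d.2.2.1 ↔ n * g * n⁻¹ ∈ gen d.2.2.2

/-- the needed elements, up to the group of the certificates, with the given action -/
def FNeed (d : FC) : Set U :=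
  {h | (∃ n ∈ d.1.1.Tgt, ∃ f ∈ gen d.1.2.2.1, h = n * f) ∧ ∀ x ∈ d.1.2.1, h • x = d.2 • x}

/-- a coset in the group that contains the kernel -/
def FCo (cx : Cx) (d : FD) (a : U × List U) : Prop :=
  a.1 ∈ gen d.1.S ∧ gen a.2 ≤ gen d.1.S ∧ a.2.length ≤ cx.pd ∧ gen (cx.fK d) ≤ gen a.2

/-- the preconditions -/
def FPre (cx : Cx) : XF → Prop := Sum.elim (FOk cx) (Sum.elim
  (fun d => FOk cx d.1 ∧ d.2 ∈ gen d.1.1.S) (fun x => FOk cx x.1.1 ∧ FCo cx x.1.1 x.2.2))

/-- the postconditions -/
def FPost (cx : Cx) : XF → Ans → Prop := Sum.elim (fun d => cx.Post d.1) (Sum.elim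
  (fun d a => FNeed d ⊆ cs a ∧ cs a ⊆ d.1.1.Sol ∧ ∀ p ∈ a, p.2.length ≤ cx.pd)
  (fun x a => FNeed x.1 ∩ cs (some x.2.2) ⊆ cs a ∧
    cs a ⊆ (x.1.1.1.ful x.2.2 (cx.fQ x.1.1 x.2.1) (cx.fQ' x.1 x.2.1) 1).Sol ∧
    ∀ p ∈ a, p.2.length ≤ cx.pd))

end Pool.Agent.P.MP_f1a348_lc.GX
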