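import Pool.Agent.P.MP_f1a348_lc.GX.LibFrm

/-! Graph isomorphism: the frames that collect answers and end with one more call. -/

set_option autoImplicit false
set_option linter.unusedSectionVars false

namespace Pool.Agent.P.MP_f1a348_lc.GX

open Pool.Agent.Lib.Helper47

variable {C F X T A : Type}

/-- All items are called and must succeed; the last call depends on the answers and gives the
answer of the frame. -/
def colP (items : C → X → List T) (mk : C → X → T → F) (nxt : C → X → List (T × A) → Bool × F) :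
    Part C F X (Option T) (Option (List (T × A)) × Option A) A where
  todo c x := (items c x).map some ++ [none]
  ini _ _ := (some [], none)
  call c x t s := s.1.map (fun acc => t.elim (nxt c x acc) (fun y => (false, mk c x y)))
  upd _ _ t s r := t.elim (none, r)
    (fun y => (s.1.bind (fun acc => r.map (fun a => acc ++ [(y, a)])), none))
  fin _ _ s := s.2

variable {items : C → X → List T} {mk : C → X → T → F} {nxt : C → X → List (T × A) → Bool × F}
  {c : C} {x : X}

theorem colP_split {l : List T} {u v : List (Option T)} {t : Option T}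
    (h : l.map some ++ [none] = u ++ t :: v) :
    (t = none ∧ u = l.map some) ∨ ∃ y u0 v0, t = some y ∧ u = u0.map some ∧ l = u0 ++ y :: v0 := by
  induction l generalizing u with
  | nil =>
    cases u with
    | nil => exact Or.inl ⟨(List.cons.inj h).1.symm, rfl⟩
    | cons z u => simp at h
  | cons y l ih =>
    cases u with
    | nil => exact Or.inr ⟨y, [], l, (List.cons.inj h).1.symm, rfl, rfl⟩
    | cons z u =>
      obtain ⟨e1, e2⟩ := List.cons.inj h
      rcases ih e2 with ⟨h1, h2⟩ | ⟨y', u0, v0, h1, h2, h3⟩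
      · exact Or.inl ⟨h1, by rw [h2, ← e1]; rfl⟩
      · exact Or.inr ⟨y', y :: u0, v0, h1, by rw [h2, ← e1]; rfl, by rw [h3]; rfl⟩

theorem colP_snd {Pre : F → Prop} {Post : F → A → Prop} {R : A → Prop}
    (h1 : ∀ y ∈ items c x, Pre (mk c x y))
    (h2 : ∀ acc : List (T × A), acc.map Prod.fst = items c x →
      (∀ p ∈ acc, Post (mk c x p.1) p.2) →
      Pre (nxt c x acc).2 ∧ ∀ a, Post (nxt c x acc).2 a → R a) :
    (colP items mk nxt).Snd c Pre Post x R := by
  refine ⟨fun u s => (∀ acc, s.1 = some acc → u = (acc.map Prod.fst).map some ∧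
    ∀ p ∈ acc, Post (mk c x p.1) p.2) ∧ ∀ a, s.2 = some a → R a, ⟨fun acc e => ?_, fun a e => ?_⟩,
    fun u t v s _ a2 a3 => ⟨fun acc e => ?_, a2.2⟩, fun u t v s b g a1 a2 a3 => ?_,
    fun s a a1 a2 => a1.2 a a2⟩
  · obtain rfl : [] = acc := Option.some.inj e
    simp
  · cases e
  · simp [colP, e] at a3
  · obtain ⟨acc, b1, b2⟩ := Option.map_eq_some_iff.1 a3
    obtain ⟨b3, b4⟩ := a2.1 acc b1
    rcases colP_split a1 with ⟨rfl, e⟩ | ⟨y, u0, v0, rfl, e1, e2⟩
    · obtain ⟨c1, c2⟩ := h2 acc
        (List.map_injective_iff.2 (Option.some_injective _) (b3.symm.trans e)) b4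
      obtain rfl : g = (nxt c x acc).2 := by rw [show nxt c x acc = _ from b2]
      exact ⟨c1, fun r hr => ⟨fun _ e => (by cases e), fun a e => c2 a (hr a e)⟩⟩
    · obtain rfl : g = mk c x y := (Prod.mk.inj b2).2.symm
      refine ⟨h1 y (by simp [e2]), fun r hr => ⟨fun acc' e => ?_, fun a e => by cases e⟩⟩
      change s.1.bind _ = _ at e
      rw [b1] at e
      obtain ⟨a, rfl, rfl⟩ := Option.map_eq_some_iff.1 e
      refine ⟨by simp [b3], fun p hp => ?_⟩
      rcases List.mem_append.1 hp with hp | hp
      · exact b4 p hp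
      · rw [List.mem_singleton.1 hp]
        exact hr a rfl

variable [Enc C] [Enc F] [Enc X] [Enc T] [Enc A]

theorem colP_loc {B B1 : ℕ} {e1 e2 : F → Option A}
    (hB : size (items c x) + ((items c x).length + 1) * (B1 + 2) + 8 ≤ B)
    (h1 : ∀ y ∈ items c x, ∃ a, e2 (mk c x y) = some a ∧ size a ≤ B1)
    (h2 : ∀ acc : List (T × A), acc.map Prod.fst = items c x →
      (∀ p ∈ acc, e2 (mk c x p.1) = some p.2) →
      ∃ a, ansOf e1 e2 false (nxt c x acc) = some a ∧ size a ≤ B1) :
    (colP items mk nxt).Loc c B e1 e2 x (· ≠ none) := by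
  have sz : ∀ acc : List (T × A), (∀ p ∈ acc, size p.2 ≤ B1) →
      size acc ≤ size (acc.map Prod.fst) + acc.length * (B1 + 2) := by
    intro acc h
    induction acc with
    | nil => simp
    | cons p acc ih =>
      have := ih fun q hq => h q (List.mem_cons_of_mem _ hq)
      have := h p List.mem_cons_self
      simp only [List.map_cons, size_cons, List.length_cons, size_prod p, Nat.add_mul]
      omega
  refine ⟨fun u b s => (b = false ∧ s.2 = none ∧ ∃ acc, s.1 = some acc ∧
    u = (acc.map Prod.fst).map some ∧ ∀ p ∈ acc, e2 (mk c x p.1) = some p.2 ∧ size p.2 ≤ B1) ∨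
    (s.1 = none ∧ s.2 ≠ none), ⟨?_, Or.inl ⟨rfl, rfl, [], rfl, rfl, by simp⟩⟩,
    fun u t v b s _ a2 a3 => ?_, fun u t v b s fr g r a1 a2 a3 a4 => ?_, fun b s a1 => ?_⟩
  · simp [colP]
    omega
  · rcases a2 with ⟨_, _, acc, e, _⟩ | a2
    · simp [colP, e] at a3
    · exact Or.inr a2
  · rcases a2 with ⟨rfl, _, acc, b1, b3, b4⟩ | a2
    swap
    · simp [colP, a2.1] at a3
    have b2 : t.elim (nxt c x acc) (fun y => (false, mk c x y)) = (fr, g) := by
      simpa [colP, b1] using a3
    rcases colP_split a1 with ⟨rfl, e⟩ | ⟨y, u0, v0, rfl, f1, f2⟩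
    · obtain ⟨a, c1, c2⟩ := h2 acc
        (List.map_injective_iff.2 (Option.some_injective _) (b3.symm.trans e))
        (fun p hp => (b4 p hp).1)
      rw [show nxt c x acc = _ from b2] at c1
      obtain rfl : r = some a := a4.trans c1
      refine ⟨?_, Or.inr ⟨rfl, by simp [colP]⟩⟩
      simp [colP, Nat.add_mul] at hB ⊢
      omega
    · obtain ⟨rfl, rfl⟩ := Prod.mk.inj b2
      obtain ⟨a, c1, c2⟩ := h1 y (by simp [f2])
      obtain rfl : r = some a := a4.trans c1
      have k : ∀ p ∈ acc ++ [(y, a)], e2 (mk c x p.1) = some p.2 ∧ size p.2 ≤ B1 := fun p hp => by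
        rcases List.mem_append.1 hp with hp | hp
        · exact b4 p hp
        · rw [List.mem_singleton.1 hp]
          exact ⟨c1, c2⟩
      have e : (colP items mk nxt).upd c x (some y) s (some a) = (some (acc ++ [(y, a)]), none) := by
        simp [colP, b1]
      rw [e]
      refine ⟨?_, Or.inl ⟨rfl, rfl, _, rfl, by simp [b3], k⟩⟩
      have e0 : acc.map Prod.fst = u0 :=
        List.map_injective_iff.2 (Option.some_injective _) (b3.symm.trans f1)
      have s1 := sz _ fun p hp => (k p hp).2
      have s2 : ((acc ++ [(y, a)]).map Prod.fst).Sublist (items c x) := by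
        rw [f2, List.map_append, e0]
        simp
      have s3 := size_sublist s2
      have s4 := Nat.mul_le_mul_right (B1 + 2) s2.length_le
      rw [List.length_map] at s4
      simp only [size_prod, size_some, size_none, Nat.add_mul] at hB s1 s4 ⊢
      omega
  · rcases a1 with ⟨_, _, acc, _, e, _⟩ | a1
    · have : (none : Option T) ∈ (acc.map Prod.fst).map some := by
        rw [← e]
        simp [colP]
      simp at this
    · exact a1.2

theorem colP_poly (h0 : PT (fun p : C × X => items p.1 p.2))
    (h1 : PT (fun p : C × X × T => mk p.1 p.2.1 p.2.2))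
    (h2 : PT (fun p : C × X × List (T × A) => nxt p.1 p.2.1 p.2.2)) :
    (colP items mk nxt).Poly := by
  refine ⟨?_, ?_, ?_, ?_, ?_⟩
  · unfold colP; fun_prop
  · unfold colP; fun_prop
  · refine PT.optMap (by fun_prop) (PT.optElim (by fun_prop) ?_ ?_)
    · exact h2.comp (g := fun p : (C × X × Option T × Option (List (T × A)) × Option A) ×
        List (T × A) => (p.1.1, p.1.2.1, p.2)) (by fun_prop)
    · exact PT.prodMk (PT.const _) (h1.comp
        (g := fun p : ((C × X × Option T × Option (List (T × A)) × Option A) × List (T × A)) × T =>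
          (p.1.1.1, p.1.1.2.1, p.2)) (by fun_prop))
  · unfold colP; fun_prop
  · unfold colP; fun_prop

end Pool.Agent.P.MP_f1a348_lc.GX
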