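import Pool.Agent.P.MP_f1a348_lc.GX.Base

/-! Step ALTE. -/

set_option autoImplicit false
set_option linter.unusedSectionVars false

namespace Pool.Agent.P.MP_f1a348_lc.GX

open Equiv
variable {κ : Type} [Fintype κ] [DecidableEq κ]

namespace ALTEx

theorem three {σ : Perm κ} (h : σ.IsThreeCycle) :
    ∃ a b c : κ, a ≠ b ∧ a ≠ c ∧ b ≠ c ∧ σ = swap a b * swap a c := by
  obtain ⟨a, b, c, ab, ac, bc, -⟩ := Finset.card_eq_three.1 h.card_support
  have h2 := Perm.isThreeCycle_swap_mul_swap_same ab ac bc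
  obtain ⟨π, hπ⟩ := isConj_iff.1 (Perm.isConj_iff_cycleType_eq.2 (h2.cycleType.trans
    h.cycleType.symm))
  refine ⟨π a, π b, π c, π.injective.ne ab, π.injective.ne ac, π.injective.ne bc, ?_⟩
  rw [← hπ, swap_apply_apply, swap_apply_apply]
  group

theorem univ_le {H : Subgroup (Perm κ)} (h : Alt3 H Finset.univ) : alternatingGroup κ ≤ H := by
  rw [← Perm.closure_three_cycles_eq_alternating, Subgroup.closure_le]
  intro σ hσ
  obtain ⟨a, b, c, ab, ac, bc, rfl⟩ := three hσ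
  exact h a (Finset.mem_univ _) b (Finset.mem_univ _) c (Finset.mem_univ _) ab ac bc

theorem altOn_eq (T : Finset κ) :
    altOn T = (alternatingGroup {x // x ∈ T}).map Perm.ofSubtype := by
  have key : ∀ (i j : Fintype {x // x ∈ T}) (σ : Perm {x // x ∈ T}),
      @Perm.sign _ _ i σ = @Perm.sign _ _ j σ := fun i j σ => by rw [Subsingleton.elim i j]
  ext π
  constructor
  · rintro ⟨h1, h2⟩
    have h3 : ∀ x, π x ≠ x → x ∈ T := fun x hx => by
      by_contra h
      exact hx (h2 x h)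
    have h4 : ∀ x, π x ∈ T ↔ x ∈ T := fun x => by
      by_cases hx : π x = x
      · rw [hx]
      · exact iff_of_true (h3 _ fun e => hx (π.injective e)) (h3 x hx)
    refine ⟨π.subtypePerm h4, ?_, Perm.ofSubtype_subtypePerm h4 h3⟩
    rw [SetLike.mem_coe, Perm.mem_alternatingGroup, ← h1]
    exact (key _ _ _).trans (Perm.sign_subtypePerm π h4 h3)
  · rintro ⟨τ, h1, rfl⟩
    refine ⟨?_, fun x hx => Perm.ofSubtype_apply_of_not_mem τ hx⟩
    rw [SetLike.mem_coe, Perm.mem_alternatingGroup] at h1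
    rw [← h1]
    exact (Perm.sign_ofSubtype τ).trans (key _ _ _)

end ALTEx

theorem altOn_le {H : Subgroup (Perm κ)} {P : Finset κ} (h : Alt3 H P) : altOn P ≤ H := by
  rw [ALTEx.altOn_eq, Subgroup.map_le_iff_le_comap]
  refine ALTEx.univ_le fun a _ b _ c _ ab ac bc => ?_
  rw [Subgroup.mem_comap, map_mul, Perm.ofSubtype_swap_eq, Perm.ofSubtype_swap_eq]
  exact h a a.2 b b.2 c c.2 (Subtype.coe_injective.ne ab) (Subtype.coe_injective.ne ac)
    (Subtype.coe_injective.ne bc)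

theorem alt3_altOn (P : Finset κ) : Alt3 (altOn P) P := by
  intro a ha b hb c hc ab ac _
  refine ⟨by rw [map_mul, Perm.sign_swap ab, Perm.sign_swap ac]; simp, fun x hx => ?_⟩
  have h : ∀ y ∈ P, x ≠ y := fun y hy e => hx (e ▸ hy)
  rw [Perm.mul_apply, swap_apply_of_ne_of_ne (h a ha) (h c hc),
    swap_apply_of_ne_of_ne (h a ha) (h b hb)]

theorem alt3_univ {H : Subgroup (Perm κ)} : Alt3 H Finset.univ ↔ alternatingGroup κ ≤ H :=
  ⟨ALTEx.univ_le, fun h _ _ _ _ _ _ ab ac bc =>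
    h (Perm.isThreeCycle_swap_mul_swap_same ab ac bc).mem_alternatingGroup⟩

theorem altOn_equiv (T : Finset κ) : Nonempty (altOn T ≃* alternatingGroup {x // x ∈ T}) :=
  ⟨(MulEquiv.subgroupCongr (ALTEx.altOn_eq T)).trans
    (Subgroup.equivMapOfInjective _ _ Perm.ofSubtype_injective).symm⟩

theorem alt_le_of_three {H : Subgroup (Perm κ)} (c : 5 ≤ Fintype.card κ)
    (hn : ∀ π ∈ alternatingGroup κ, ∀ σ ∈ H, π * σ * π⁻¹ ∈ H) {σ : Perm κ} (hσ : σ ∈ H)
    (h3 : σ.IsThreeCycle) : alternatingGroup κ ≤ H := by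
  rw [← Perm.closure_three_cycles_eq_alternating, Subgroup.closure_le]
  intro τ hτ
  have h4 : Perm.IsThreeCycle τ := hτ
  obtain ⟨π, hπ⟩ := isConj_iff.1 (alternatingGroup.isThreeCycle_isConj (by simpa using c)
    (σ := ⟨σ, h3.mem_alternatingGroup⟩) (τ := ⟨τ, h4.mem_alternatingGroup⟩) h3 h4)
  have h5 : (π : Perm κ) * σ * (π : Perm κ)⁻¹ = τ := congrArg Subtype.val hπ
  exact h5 ▸ hn π π.2 σ hσ

end Pool.Agent.P.MP_f1a348_lc.GX
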