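import Pool.Agent.P.MP_f1a348_lc.GX.Base

/-! Step COMM. -/

set_option autoImplicit false
set_option linter.unusedSectionVars false

namespace Pool.Agent.P.MP_f1a348_lc.GX

open Equiv
variable {κ : Type} [Fintype κ] [DecidableEq κ]

namespace COMMx

theorem card_comm {G Ω : Type} [Group G] [MulAction G Ω] [DecidableEq Ω] (D : Finset Ω)
    (hD : InvF (⊤ : Subgroup G) D) (g b : G) :
    (D.filter (fun x => (g * b * g⁻¹ * b⁻¹) • x ≠ x)).card ≤
      3 * (D.filter (fun x => g • x ≠ x ∧ b • x ≠ x)).card := by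
  set C := D.filter (fun x => g • x ≠ x ∧ b • x ≠ x) with hC
  have hsub : D.filter (fun x => (g * b * g⁻¹ * b⁻¹) • x ≠ x) ⊆
      C ∪ C.image (fun x => g • x) ∪ C.image (fun x => b • x) := by
    intro x hx
    rw [Finset.mem_filter] at hx
    obtain ⟨hxD, hx⟩ := hx
    by_contra hn
    simp only [Finset.mem_union, Finset.mem_image, not_or, not_exists, not_and] at hn
    obtain ⟨⟨h1, h2⟩, h3⟩ := hn
    have h2' : g⁻¹ • x ∉ C := fun h => h2 _ h (smul_inv_smul g x)
    have h3' : b⁻¹ • x ∉ C := fun h => h3 _ h (smul_inv_smul b x)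
    rw [hC, Finset.mem_filter] at h1 h2' h3'
    have hg1 : g⁻¹ • x ∈ D := hD _ (Subgroup.mem_top _) _ hxD
    have hb1 : b⁻¹ • x ∈ D := hD _ (Subgroup.mem_top _) _ hxD
    apply hx
    simp only [mul_smul]
    by_cases eg : g • x = x
    · have eg' : g⁻¹ • x = x := by rw [inv_smul_eq_iff, eg]
      by_cases eb : b • x = x
      · have eb' : b⁻¹ • x = x := by rw [inv_smul_eq_iff, eb]
        rw [eb', eg', eb, eg]
      · have : g • (b⁻¹ • x) = b⁻¹ • x := by
          by_contra h
          refine h3' ⟨hb1, h, ?_⟩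
          rw [smul_inv_smul]
          intro h'
          apply eb
          conv_lhs => rw [h']
          rw [smul_inv_smul]
        have t : g⁻¹ • (b⁻¹ • x) = b⁻¹ • x := by rw [inv_smul_eq_iff, this]
        rw [t, smul_inv_smul, eg]
    · have eb : b • x = x := by
        by_contra h
        exact h1 ⟨hxD, eg, h⟩
      have eb' : b⁻¹ • x = x := by rw [inv_smul_eq_iff, eb]
      have : b • (g⁻¹ • x) = g⁻¹ • x := by
        by_contra h
        refine h2' ⟨hg1, ?_, h⟩
        rw [smul_inv_smul]
        intro h'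
        apply eg
        conv_lhs => rw [h']
        rw [smul_inv_smul]
      rw [eb', this, smul_inv_smul]
  have h1 := Finset.card_le_card hsub
  have h2 := Finset.card_union_le (C ∪ C.image (fun x => g • x)) (C.image (fun x => b • x))
  have h3 := Finset.card_union_le C (C.image (fun x => g • x))
  have h4 : (C.image (fun x => g • x)).card ≤ C.card := Finset.card_image_le
  have h5 : (C.image (fun x => b • x)).card ≤ C.card := Finset.card_image_le
  omega

theorem card_conj {G Ω : Type} [Group G] [MulAction G Ω] [DecidableEq Ω] (D : Finset Ω)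
    (hD : InvF (⊤ : Subgroup G) D) (g h : G) :
    (D.filter (fun x => (h * g * h⁻¹) • x ≠ x)).card ≤ (D.filter (fun x => g • x ≠ x)).card := by
  refine Finset.card_le_card_of_injOn (fun x => h⁻¹ • x) ?_ ?_
  · intro x hx
    simp only [Finset.coe_filter, Set.mem_ofPred_eq] at hx ⊢
    refine ⟨hD _ (Subgroup.mem_top _) _ hx.1, fun e => hx.2 ?_⟩
    rw [mul_smul, mul_smul, e, smul_inv_smul]
  · intro x _ y _ e
    exact MulAction.injective _ e

theorem fibre {G Ω : Type} [Group G] [MulAction G Ω] [DecidableEq Ω] (K : Subgroup G)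
    [Fintype K] (D : Finset Ω) (hD : InvF (⊤ : Subgroup G) D)
    (ht : ∀ x ∈ D, ∀ y ∈ D, ∃ k ∈ K, k • x = y) {x y : Ω} (hx : x ∈ D) (hy : y ∈ D) :
    (Finset.univ.filter (fun k : K => (k : G) • x = y)).card * D.card = Fintype.card K := by
  classical
  have key : ∀ z ∈ D, (Finset.univ.filter (fun k : K => (k : G) • x = z)).card =
      (Finset.univ.filter (fun k : K => (k : G) • x = y)).card := by
    intro z hz
    obtain ⟨k0, hk0, e⟩ := ht z hz y hy
    refine Finset.card_bij (fun k _ => (⟨k0, hk0⟩ : K) * k) ?_ ?_ ?_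
    · intro k hk
      simp only [Finset.mem_filter, Finset.mem_univ, true_and] at hk ⊢
      rw [Subgroup.coe_mul, mul_smul, hk, e]
    · intro a _ b _ h
      exact mul_left_cancel h
    · intro k hk
      refine ⟨(⟨k0, hk0⟩ : K)⁻¹ * k, ?_, by simp⟩
      simp only [Finset.mem_filter, Finset.mem_univ, true_and] at hk ⊢
      rw [Subgroup.coe_mul, mul_smul, hk, Subgroup.coe_inv, inv_smul_eq_iff, e]
  have h := Finset.card_eq_sum_card_fiberwise (s := (Finset.univ : Finset K)) (t := D)
    (f := fun k : K => (k : G) • x) (fun k _ => hD _ (Subgroup.mem_top _) _ hx)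
  rw [Finset.card_univ] at h
  rw [h, Finset.sum_congr rfl key, Finset.sum_const, smul_eq_mul, mul_comm]

theorem average {G Ω : Type} [Group G] [Finite G] [MulAction G Ω] [DecidableEq Ω]
    (K : Subgroup G) (D : Finset Ω) (hD : InvF (⊤ : Subgroup G) D)
    (ht : ∀ x ∈ D, ∀ y ∈ D, ∃ k ∈ K, k • x = y) (A B : Finset Ω) (hA : A ⊆ D) (hB : B ⊆ D) :
    ∃ k ∈ K, (A.filter (fun x => k • x ∈ B)).card * D.card ≤ A.card * B.card := by
  classical
  have : Fintype K := Fintype.ofFinite K
  have hs : ∑ k : K, (A.filter (fun x => (k : G) • x ∈ B)).card * D.card =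
      ∑ _k : K, A.card * B.card := by
    rw [← Finset.sum_mul]
    have h1 : ∑ k : K, (A.filter (fun x => (k : G) • x ∈ B)).card =
        ∑ x ∈ A, ∑ y ∈ B, (Finset.univ.filter (fun k : K => (k : G) • x = y)).card := by
      simp only [Finset.card_filter]
      rw [Finset.sum_comm]
      refine Finset.sum_congr rfl fun x _ => ?_
      rw [Finset.sum_comm]
      refine Finset.sum_congr rfl fun k _ => ?_
      rw [Finset.sum_ite_eq]
    rw [h1, Finset.sum_mul]
    have h2 : ∀ x ∈ A, (∑ y ∈ B, (Finset.univ.filter (fun k : K => (k : G) • x = y)).card) *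
        D.card = B.card * Fintype.card K := by
      intro x hx
      rw [Finset.sum_mul, Finset.sum_congr rfl
        (fun y hy => fibre K D hD ht (hA hx) (hB hy)), Finset.sum_const, smul_eq_mul]
    rw [Finset.sum_congr rfl h2, Finset.sum_const, Finset.sum_const, smul_eq_mul, smul_eq_mul,
      Finset.card_univ]
    ring
  obtain ⟨k, -, hk⟩ := Finset.exists_le_of_sum_le (s := (Finset.univ : Finset K))
    Finset.univ_nonempty hs.le
  exact ⟨k, k.2, hk⟩

theorem partner (c : 5 ≤ Fintype.card κ) {σ : Perm κ} (h3 : σ.IsThreeCycle) :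
    ∃ τ : Perm κ, τ.IsThreeCycle ∧ (σ * τ * σ⁻¹ * τ⁻¹).IsThreeCycle := by
  have hc := h3.card_support
  obtain ⟨a, ha⟩ : σ.support.Nonempty := Finset.card_pos.1 (by omega)
  have hcc : 1 < (σ.supportᶜ).card := by rw [Finset.card_compl, hc]; omega
  obtain ⟨d, hd, e, he, hde⟩ := Finset.one_lt_card.1 hcc
  rw [Finset.mem_compl] at hd he
  have ha1 : σ a ∈ σ.support := Perm.apply_mem_support.2 ha
  have n1 : σ a ≠ a := Perm.mem_support.1 ha
  have ad : a ≠ d := fun h => hd (h ▸ ha)
  have ae : a ≠ e := fun h => he (h ▸ ha)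
  have bd : σ a ≠ d := fun h => hd (h ▸ ha1)
  have be : σ a ≠ e := fun h => he (h ▸ ha1)
  have fd : σ d = d := Perm.notMem_support.1 hd
  have fe : σ e = e := Perm.notMem_support.1 he
  refine ⟨swap a d * swap a e, Perm.isThreeCycle_swap_mul_swap_same ad ae hde, ?_⟩
  have e1 : σ * (swap a d * swap a e) * σ⁻¹ = swap (σ a) d * swap (σ a) e := by
    have h1 := Equiv.swap_apply_apply σ a d
    have h2 := Equiv.swap_apply_apply σ a e
    rw [fd] at h1
    rw [fe] at h2
    rw [h1, h2]
    group
  have e2 : swap (σ a) d * swap (σ a) e * (swap a d * swap a e)⁻¹ =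
      swap a e * swap a (σ a) := by
    generalize σ a = b at n1 bd be
    rw [mul_inv_rev, swap_inv, swap_inv]
    ext x
    simp only [Perm.mul_apply, swap_apply_def]
    split_ifs <;> simp_all
  rw [e1, e2]
  exact Perm.isThreeCycle_swap_mul_swap_same ae n1.symm be.symm

theorem step {G Ω : Type} [Group G] [Finite G] [MulAction G Ω] [DecidableEq Ω]
    (φ : G →* Perm κ) (c : 5 ≤ Fintype.card κ) (hr : alternatingGroup κ ≤ φ.range)
    (D : Finset Ω) (hD : InvF (⊤ : Subgroup G) D)
    (ht : ∀ x ∈ D, ∀ y ∈ D, ∃ k ∈ φ.ker, k • x = y)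
    {g : G} (h3 : (φ g).IsThreeCycle) :
    ∃ g' : G, (φ g').IsThreeCycle ∧ (D.filter (fun x => g' • x ≠ x)).card * D.card ≤
      3 * ((D.filter (fun x => g • x ≠ x)).card * (D.filter (fun x => g • x ≠ x)).card) := by
  obtain ⟨τ, hτ, hc⟩ := partner c h3
  have hconj := alternatingGroup.isThreeCycle_isConj (α := κ)
    (by rw [Nat.card_eq_fintype_card]; exact c)
    (σ := ⟨φ g, h3.mem_alternatingGroup⟩) (τ := ⟨τ, hτ.mem_alternatingGroup⟩) h3 hτ
  obtain ⟨π, hπ⟩ := isConj_iff.1 hconj
  obtain ⟨h, hh⟩ := hr π.2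
  have hb : φ (h * g * h⁻¹) = τ := by
    have := congrArg Subtype.val hπ
    simpa [hh] using this
  have hcard := card_conj D hD g h
  generalize h * g * h⁻¹ = b at hb hcard
  obtain ⟨k, hk, hav⟩ := average φ.ker D hD ht (D.filter (fun x => g • x ≠ x))
    (D.filter (fun x => b • x ≠ x)) (Finset.filter_subset _ _) (Finset.filter_subset _ _)
  have hk1 : φ k = 1 := hk
  have hb' : φ (k⁻¹ * b * k) = τ := by simp [hk1, hb]
  refine ⟨g * (k⁻¹ * b * k) * g⁻¹ * (k⁻¹ * b * k)⁻¹, ?_, ?_⟩
  · rw [map_mul, map_mul, map_mul, map_inv, map_inv, hb']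
    exact hc
  · have h1 := card_comm D hD g (k⁻¹ * b * k)
    have h2 : (D.filter (fun x => g • x ≠ x ∧ (k⁻¹ * b * k) • x ≠ x)).card ≤
        ((D.filter (fun x => g • x ≠ x)).filter
          (fun x => k • x ∈ D.filter (fun x => b • x ≠ x))).card := by
      refine Finset.card_le_card fun x hx => ?_
      simp only [Finset.mem_filter] at hx ⊢
      refine ⟨⟨hx.1, hx.2.1⟩, hD _ (Subgroup.mem_top _) _ hx.1, fun e => hx.2.2 ?_⟩
      rw [mul_smul, mul_smul, e, inv_smul_smul]
    calc _ ≤ (3 * ((D.filter (fun x => g • x ≠ x)).filter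
          (fun x => k • x ∈ D.filter (fun x => b • x ≠ x))).card) * D.card :=
          Nat.mul_le_mul_right _ (by omega)
      _ ≤ 3 * ((D.filter (fun x => g • x ≠ x)).card * (D.filter (fun x => b • x ≠ x)).card) := by
          rw [mul_assoc]; exact Nat.mul_le_mul_left _ hav
      _ ≤ _ := Nat.mul_le_mul_left _ (Nat.mul_le_mul_left _ hcard)

end COMMx

/- Take g over a cycle of length three with the least number m of moved points in D. Suppose m > 0. A conjugate b of g (by an element over an even permutation) lies over a cycle that meets the first one in exactly one point. Average over k in the kernel: some k b k⁻¹ has at most m * m / card D moved points in common with g (the kernel is transitive on D). The commutator of g and k b k⁻¹ lies over a cycle of length three and moves at most 3 times the number of common moved points. So m ≤ 3 m m / card D. -/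
theorem comm_trick {G Ω : Type} [Group G] [Finite G] [MulAction G Ω] [DecidableEq Ω]
    (φ : G →* Perm κ) (c : 5 ≤ Fintype.card κ) (hr : alternatingGroup κ ≤ φ.range)
    (D : Finset Ω) (hD : InvF (⊤ : Subgroup G) D)
    (ht : ∀ x ∈ D, ∀ y ∈ D, ∃ k ∈ φ.ker, k • x = y)
    {g : G} (h3 : (φ g).IsThreeCycle) (hg : 3 * (D.filter (fun x => g • x ≠ x)).card < D.card) :
    ∃ g' : G, (φ g').IsThreeCycle ∧ ∀ x ∈ D, g' • x = x := by
  generalize hm : (D.filter (fun x => g • x ≠ x)).card = m at hg
  induction m using Nat.strong_induction_on generalizing g with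
  | _ m ih =>
    rcases Nat.eq_zero_or_pos m with h0 | h0
    · refine ⟨g, h3, fun x hx => ?_⟩
      by_contra h
      have : x ∈ D.filter (fun x => g • x ≠ x) := Finset.mem_filter.2 ⟨hx, h⟩
      rw [Finset.card_eq_zero.1 (hm.trans h0)] at this
      exact absurd this (Finset.notMem_empty x)
    · obtain ⟨g', h3', hle⟩ := COMMx.step φ c hr D hD ht h3
      rw [hm] at hle
      have hlt : (D.filter (fun x => g' • x ≠ x)).card < m := by
        by_contra h
        have h1 : m * D.card ≤ (D.filter (fun x => g' • x ≠ x)).card * D.card :=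
          Nat.mul_le_mul_right _ (by omega)
        have h2 : m * (3 * m) < m * D.card := Nat.mul_lt_mul_of_pos_left hg h0
        nlinarith
      exact ih _ hlt h3' rfl (by omega)

end Pool.Agent.P.MP_f1a348_lc.GX
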