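import Pool.Agent.P.MP_f1a348_lc.GX.Base

/-! Step ALTU. -/

set_option autoImplicit false
set_option linter.unusedSectionVars false

namespace Pool.Agent.P.MP_f1a348_lc.GX

open Equiv
variable {κ : Type} [Fintype κ] [DecidableEq κ]

/- Two permutations whose supports meet in exactly one point x have a commutator that is a cycle of length three on x, g x or its inverse image, h x or its inverse image. -/
theorem comm_three {g h : Perm κ} {x : κ} (hg : g x ≠ x) (hh : h x ≠ x)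
    (hx : ∀ y, y ≠ x → g y = y ∨ h y = y) :
    ∃ a b, a ≠ x ∧ b ≠ x ∧ a ≠ b ∧ g a ≠ a ∧ h b ≠ b ∧ g * h * g⁻¹ * h⁻¹ = swap x a * swap x b ∨
      a ≠ x ∧ b ≠ x ∧ a ≠ b ∧ g a ≠ a ∧ h b ≠ b ∧ g * h * g⁻¹ * h⁻¹ = swap x b * swap x a := by
  have ha : g (g x) ≠ g x := fun e => hg (g.injective e)
  have hb : h (h x) ≠ h x := fun e => hh (h.injective e)
  have h1 : h (g x) = g x := (hx _ hg).resolve_left ha
  have h2 : g (h x) = h x := (hx _ hh).resolve_right hb
  have hab : g x ≠ h x := fun e => ha (by rw [e, h2])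
  have gi : ∀ y, g y = y → g⁻¹ y = y := fun y e => by rw [Perm.inv_eq_iff_eq, e]
  have hi : ∀ y, h y = y → h⁻¹ y = y := fun y e => by rw [Perm.inv_eq_iff_eq, e]
  have gm : ∀ y, y ≠ g x → g y ≠ y → h (g⁻¹ y) = g⁻¹ y := fun y e1 e2 => by
    refine (hx _ fun e => e1 ?_).resolve_left fun e => e2 ?_
    · rw [← e]; simp
    · have e3 : y = g⁻¹ y := by simpa using e
      rw [e3]; exact e
  have hm : ∀ y, y ≠ h x → h y ≠ y → g (h⁻¹ y) = h⁻¹ y := fun y e1 e2 => by
    refine (hx _ fun e => e1 ?_).resolve_right fun e => e2 ?_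
    · rw [← e]; simp
    · have e3 : y = h⁻¹ y := by simpa using e
      rw [e3]; exact e
  refine ⟨g x, h x, Or.inr ⟨hg, hh, hab, ha, hb, ?_⟩⟩
  ext y
  simp only [Perm.mul_apply]
  by_cases y1 : y = x
  · subst y1
    rw [swap_apply_left, swap_apply_of_ne_of_ne hg hab, gi _ (hm y hh.symm hh)]
    simp
  by_cases y2 : y = g x
  · subst y2
    rw [swap_apply_right, swap_apply_left, hi _ h1]
    simp [h2]
  by_cases y3 : y = h x
  · subst y3
    rw [swap_apply_of_ne_of_ne hh hab.symm, swap_apply_right]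
    have e : h⁻¹ (h x) = x := by simp
    rw [e, gm x hg.symm hg]
    simp
  rw [swap_apply_of_ne_of_ne y1 y2, swap_apply_of_ne_of_ne y1 y3]
  by_cases y4 : h y = y
  · rw [hi y y4]
    by_cases y5 : g y = y
    · rw [gi y y5, y4, y5]
    · rw [gm y y2 y5]
      simp
  · rw [gi _ (hm y y3 y4)]
    have e : h (h⁻¹ y) = y := by simp
    rw [e]
    exact (hx y y1).resolve_right y4

namespace ALTUx

theorem two {P : Finset κ} (c : 3 ≤ P.card) {p : κ} (hp : p ∈ P) :
    ∃ a ∈ P, ∃ b ∈ P, a ≠ p ∧ b ≠ p ∧ a ≠ b := by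
  have h1 : 1 < (P.erase p).card := by
    rw [Finset.card_erase_of_mem hp]
    omega
  obtain ⟨a, ha, b, hb, hab⟩ := Finset.one_lt_card.1 h1
  exact ⟨a, Finset.mem_of_mem_erase ha, b, Finset.mem_of_mem_erase hb,
    Finset.ne_of_mem_erase ha, Finset.ne_of_mem_erase hb, hab⟩

theorem fix {P : Finset κ} {p a b y : κ} (hp : p ∈ P) (ha : a ∈ P) (hb : b ∈ P) (hy : y ∉ P) :
    (swap p a * swap p b) y = y := by
  have e : ∀ z ∈ P, y ≠ z := fun z hz e => hy (e ▸ hz)
  rw [Perm.mul_apply, swap_apply_of_ne_of_ne (e p hp) (e b hb),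
    swap_apply_of_ne_of_ne (e p hp) (e a ha)]

theorem move {p a b : κ} (hb : b ≠ p) (hab : a ≠ b) : (swap p a * swap p b) p ≠ p := by
  rw [Perm.mul_apply, swap_apply_left, swap_apply_of_ne_of_ne hb hab.symm]
  exact hb

theorem ins {H : Subgroup (Perm κ)} {P : Finset κ} (h : Alt3 H P) {p u v : κ} (hp : p ∈ P)
    (hu : u ∈ P) (hv : v ∈ P) (h1 : u ≠ p) (h2 : v ≠ p) : swap p u * swap p v ∈ H := by
  by_cases e : u = v
  · rw [e, swap_mul_self]
    exact H.one_mem
  · exact h p hp u hu v hv h1.symm h2.symm e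

theorem sym {H : Subgroup (Perm κ)} {p u v : κ} (h : swap p u * swap p v ∈ H) :
    swap p v * swap p u ∈ H := by
  simpa using H.inv_mem h

theorem tra {H : Subgroup (Perm κ)} {p u v w : κ} (h : swap p u * swap p v ∈ H)
    (h' : swap p v * swap p w ∈ H) : swap p u * swap p w ∈ H := by
  have e := H.mul_mem h h'
  rwa [mul_assoc, swap_mul_self_mul] at e

theorem of_star {H : Subgroup (Perm κ)} {U : Finset κ} {p : κ}
    (h : ∀ u ∈ U, ∀ v ∈ U, u ≠ p → v ≠ p → swap p u * swap p v ∈ H) : Alt3 H U := by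
  intro a ha b hb c hc hab hac hbc
  have e : ∀ x y : κ, x ≠ p → y ≠ p → x ≠ y → swap x y = swap p x * swap p y * swap p x := by
    intro x y h1 h2 h3
    have e1 := swap_apply_apply (swap p x) p y
    rw [swap_apply_left, swap_apply_of_ne_of_ne h2 h3.symm, swap_inv] at e1
    exact e1
  by_cases h1 : a = p
  · subst h1
    exact h b hb c hc hab.symm hac.symm
  by_cases h2 : b = p
  · subst h2
    rw [e a c h1 hbc.symm hac, swap_comm a b, mul_assoc, swap_mul_self_mul]
    exact h c hc a ha hbc.symm h1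
  by_cases h3 : c = p
  · subst h3
    rw [e a b h1 h2 hab, swap_comm a c, mul_assoc, swap_mul_self, mul_one]
    exact h a ha b hb h1 h2
  rw [e a b h1 h2 hab, e a c h1 h3 hac, mul_assoc, mul_assoc (swap p a) (swap p c),
    swap_mul_self_mul]
  exact H.mul_mem (h a ha b hb h1 h2) (h c hc a ha h3 h1)

end ALTUx

/- Let p be common. All swaps inside P lie in one coset of H, all swaps inside P' in one coset; one cycle (p a b), a in P, b in P', links them (commutator of two cycles of length three that meet in p only, or directly if the sets share two points). swap a b for a in P, b in P' is a conjugate of swap p b by an element of H. -/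
theorem alt3_union {H : Subgroup (Perm κ)} {P P' : Finset κ} (h : Alt3 H P) (h' : Alt3 H P')
    (c : 3 ≤ P.card) (c' : 3 ≤ P'.card) (e : ¬ Disjoint P P') : Alt3 H (P ∪ P') := by
  obtain ⟨p, hp, hp'⟩ := Finset.not_disjoint_iff.1 e
  have link : ∃ a ∈ P, ∃ b ∈ P', a ≠ p ∧ b ≠ p ∧ swap p a * swap p b ∈ H := by
    by_cases hq : ∃ q, q ∈ P ∧ q ∈ P' ∧ q ≠ p
    · obtain ⟨q, q1, q2, q3⟩ := hq
      exact ⟨q, q1, q, q2, q3, q3, ALTUx.ins h hp q1 q1 q3 q3⟩
    obtain ⟨a1, ha1, a2, ha2, a3, a4, a5⟩ := ALTUx.two c hp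
    obtain ⟨b1, hb1, b2, hb2, b3, b4, b5⟩ := ALTUx.two c' hp'
    have g1 := ALTUx.ins h hp ha1 ha2 a3 a4
    have g2 := ALTUx.ins h' hp' hb1 hb2 b3 b4
    have g3 := H.mul_mem (H.mul_mem (H.mul_mem g1 g2) (H.inv_mem g1)) (H.inv_mem g2)
    have m1 : ∀ a, (swap p a1 * swap p a2) a ≠ a → a ∈ P := fun a k => by
      by_contra k'
      exact k (ALTUx.fix hp ha1 ha2 k')
    have m2 : ∀ b, (swap p b1 * swap p b2) b ≠ b → b ∈ P' := fun b k => by
      by_contra k'
      exact k (ALTUx.fix hp' hb1 hb2 k')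
    obtain ⟨a, b, ⟨k1, k2, -, k4, k5, k6⟩ | ⟨k1, k2, -, k4, k5, k6⟩⟩ :=
      comm_three (ALTUx.move a4 a5) (ALTUx.move b4 b5) (fun y hy => by
        by_contra k
        rw [not_or] at k
        exact hq ⟨y, m1 y k.1, m2 y k.2, hy⟩)
    · exact ⟨a, m1 a k4, b, m2 b k5, k1, k2, k6 ▸ g3⟩
    · exact ⟨a, m1 a k4, b, m2 b k5, k1, k2, ALTUx.sym (k6 ▸ g3)⟩
  obtain ⟨a, ha, b, hb, a1, b1, hab⟩ := link
  have star : ∀ u ∈ P ∪ P', u ≠ p → swap p u * swap p a ∈ H := fun u hu h1 => by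
    rcases Finset.mem_union.1 hu with hu | hu
    · exact ALTUx.ins h hp hu ha h1 a1
    · exact ALTUx.tra (ALTUx.ins h' hp' hu hb h1 b1) (ALTUx.sym hab)
  exact ALTUx.of_star (p := p) fun u hu v hv h1 h2 =>
    ALTUx.tra (star u hu h1) (ALTUx.sym (star v hv h2))

end Pool.Agent.P.MP_f1a348_lc.GX
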