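import Pool.Agent.P.MP_f1a348_lc.GX.Base
import Pool.Agent.P.MP_f1a348_lc.GX.TALTU

/-! Step BOCH. -/

set_option autoImplicit false
set_option linter.unusedSectionVars false

namespace Pool.Agent.P.MP_f1a348_lc.GX

open Equiv
variable {κ : Type} [Fintype κ] [DecidableEq κ]

namespace BOCHx

theorem two_pow_le (n : ℕ) : 2 ^ n ≤ (n + 1).factorial := by
  induction n with
  | zero => simp
  | succ n ih =>
    rw [Nat.factorial_succ (n + 1), pow_succ, mul_comm]
    exact Nat.mul_le_mul (by omega) ih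

theorem fact_le {H : Subgroup (Perm κ)} {B : Finset κ}
    (hB : ∀ g ∈ H, (∀ y, y ∉ B → g y = y) → g = 1) : B.card.factorial ≤ H.index := by
  have hinj : Function.Injective (fun σ : Perm {x // x ∈ B} =>
      (QuotientGroup.mk (Perm.ofSubtype σ) : Perm κ ⧸ H)) := by
    intro σ τ h
    have h1 : (Perm.ofSubtype σ)⁻¹ * Perm.ofSubtype τ ∈ H := QuotientGroup.eq.1 h
    rw [← map_inv, ← map_mul] at h1
    have h2 := hB _ h1 (fun y hy => Perm.ofSubtype_apply_of_not_mem _ hy)
    rw [map_mul, map_inv, inv_mul_eq_one] at h2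
    exact Perm.ofSubtype_injective h2
  have h3 := Nat.card_le_card_of_injective _ hinj
  rw [Nat.card_eq_fintype_card, Fintype.card_perm, Fintype.card_coe] at h3
  exact h3

theorem card_le {H : Subgroup (Perm κ)} {L : ℕ} (hi : H.index ≤ 2 ^ L) {B : Finset κ}
    (hB : ∀ g ∈ H, (∀ y, y ∉ B → g y = y) → g = 1) : B.card ≤ L + 1 := by
  have h := (fact_le hB).trans hi
  rcases hn : B.card with _ | n
  · omega
  · rw [hn] at h
    have := (Nat.pow_le_pow_iff_right (by norm_num : 1 < 2)).1 ((two_pow_le n).trans h)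
    omega

end BOCHx

/- Bochert. Take B inside Z of largest size such that only 1 in H moves only points of B. The permutations of B lie in different cosets, so (card B)! is at most the index and card B is at most L + 1. Z minus B is larger than B, so some g in H, g not 1, moves only points of Z minus B; let g move x. Some h in H, h not 1, moves only points of insert x B, and it moves x. Apply comm_three. -/
theorem bochert {H : Subgroup (Perm κ)} {L : ℕ} (hi : H.index ≤ 2 ^ L) {Z : Finset κ}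
    (hZ : 2 * L + 3 ≤ Z.card) :
    ∃ a ∈ Z, ∃ b ∈ Z, ∃ c ∈ Z, a ≠ b ∧ a ≠ c ∧ b ≠ c ∧ swap a b * swap a c ∈ H := by
  classical
  obtain ⟨B, hB, hmax⟩ := Finset.exists_max_image
    (Z.powerset.filter (fun B => ∀ g ∈ H, (∀ y, y ∉ B → g y = y) → g = 1)) Finset.card
    ⟨∅, by
      rw [Finset.mem_filter]
      exact ⟨Finset.empty_mem_powerset _, fun g _ h => Equiv.ext fun y => h y (by simp)⟩⟩
  rw [Finset.mem_filter, Finset.mem_powerset] at hB
  have hc := BOCHx.card_le hi hB.2
  have big : ∀ C : Finset κ, C ⊆ Z → B.card < C.card →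
      ∃ g ∈ H, (∀ y, y ∉ C → g y = y) ∧ g ≠ 1 := by
    intro C hC hlt
    by_contra hn
    have := hmax C (by
      rw [Finset.mem_filter, Finset.mem_powerset]
      refine ⟨hC, fun g hg h => ?_⟩
      by_contra h1
      exact hn ⟨g, hg, h, h1⟩)
    omega
  obtain ⟨g, hg, hg1, hg2⟩ := big (Z \ B) Finset.sdiff_subset (by
    rw [Finset.card_sdiff_of_subset hB.1]; omega)
  obtain ⟨x, hx⟩ : ∃ x, g x ≠ x := by
    by_contra hn
    exact hg2 (Equiv.ext fun y => by_contra fun h => hn ⟨y, h⟩)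
  have gZ : ∀ y, g y ≠ y → y ∈ Z \ B := fun y hy => by_contra fun h => hy (hg1 y h)
  have hxZ := Finset.mem_sdiff.1 (gZ x hx)
  have hsub : insert x B ⊆ Z := Finset.insert_subset hxZ.1 hB.1
  obtain ⟨h, hh, hh1, hh2⟩ := big (insert x B) hsub (by
    rw [Finset.card_insert_of_notMem hxZ.2]; omega)
  have hZ' : ∀ y, h y ≠ y → y ∈ insert x B := fun y hy => by_contra fun k => hy (hh1 y k)
  have hhx : h x ≠ x := by
    intro e
    refine hh2 (hB.2 h hh fun y hy => ?_)
    by_cases hyx : y = x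
    · rw [hyx, e]
    · exact hh1 y (by simp [hyx, hy])
  have hcm : g * h * g⁻¹ * h⁻¹ ∈ H :=
    H.mul_mem (H.mul_mem (H.mul_mem hg hh) (H.inv_mem hg)) (H.inv_mem hh)
  obtain ⟨a, b, k⟩ := comm_three hx hhx (fun y hy => by
    by_cases hyB : y ∈ B
    · exact Or.inl (hg1 y (by simp [hyB]))
    · exact Or.inr (hh1 y (by simp [hy, hyB])))
  rcases k with ⟨k1, k2, k3, k4, k5, k6⟩ | ⟨k1, k2, k3, k4, k5, k6⟩
  · exact ⟨x, hxZ.1, a, (Finset.mem_sdiff.1 (gZ a k4)).1, b, hsub (hZ' b k5), k1.symm, k2.symm,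
      k3, k6 ▸ hcm⟩
  · exact ⟨x, hxZ.1, b, hsub (hZ' b k5), a, (Finset.mem_sdiff.1 (gZ a k4)).1, k2.symm, k1.symm,
      k3.symm, k6 ▸ hcm⟩

end Pool.Agent.P.MP_f1a348_lc.GX
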