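import Pool.Agent.P.MP_f1a348_lc.GX.Base
import Pool.Agent.P.MP_f1a348_lc.GX.TALTU
import Pool.Agent.P.MP_f1a348_lc.GX.TBOCH

/-! Step JL. -/

set_option autoImplicit false
set_option linter.unusedSectionVars false

namespace Pool.Agent.P.MP_f1a348_lc.GX

open Equiv
variable {κ : Type} [Fintype κ] [DecidableEq κ]

namespace JLx

/-- two points lie in a common alternating set -/
def rel (H : Subgroup (Perm κ)) (a b : κ) : Prop :=
  a = b ∨ ∃ P : Finset κ, Alt3 H P ∧ 3 ≤ P.card ∧ a ∈ P ∧ b ∈ P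

variable {H : Subgroup (Perm κ)}

theorem rel_symm {a b : κ} (h : rel H a b) : rel H b a :=
  h.imp Eq.symm fun ⟨P, h1, h2, h3, h4⟩ => ⟨P, h1, h2, h4, h3⟩

theorem rel_trans {a b c : κ} (h : rel H a b) (h' : rel H b c) : rel H a c := by
  rcases h with rfl | ⟨P, h1, h2, h3, h4⟩
  · exact h'
  rcases h' with rfl | ⟨Q, k1, k2, k3, k4⟩
  · exact Or.inr ⟨P, h1, h2, h3, h4⟩
  exact Or.inr ⟨P ∪ Q, alt3_union h1 k1 h2 k2 (Finset.not_disjoint_iff.2 ⟨b, h4, k3⟩),
    h2.trans (Finset.card_le_card Finset.subset_union_left), Finset.mem_union_left _ h3,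
    Finset.mem_union_right _ k4⟩

theorem rel_map {a b : κ} {g : Perm κ} (hg : g ∈ H) (h : rel H a b) : rel H (g a) (g b) := by
  rcases h with rfl | ⟨P, h1, h2, h3, h4⟩
  · exact Or.inl rfl
  refine Or.inr ⟨P.image g, ?_, by rwa [Finset.card_image_of_injective _ g.injective],
    Finset.mem_image_of_mem _ h3, Finset.mem_image_of_mem _ h4⟩
  intro x hx y hy z hz e1 e2 e3
  obtain ⟨x, kx, rfl⟩ := Finset.mem_image.1 hx
  obtain ⟨y, ky, rfl⟩ := Finset.mem_image.1 hy
  obtain ⟨z, kz, rfl⟩ := Finset.mem_image.1 hz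
  have := H.mul_mem (H.mul_mem hg (h1 x kx y ky z kz (fun e => e1 (e ▸ rfl))
    (fun e => e2 (e ▸ rfl)) fun e => e3 (e ▸ rfl))) (H.inv_mem hg)
  rw [swap_apply_apply, swap_apply_apply]
  simpa only [mul_assoc, inv_mul_cancel_left] using this

theorem rot {a b c : κ} (h3 : b ≠ c) (h2 : a ≠ c) (h : swap a b * swap a c ∈ H) :
    swap b c * swap b a ∈ H := by
  have e : swap b c * swap b a = swap a b * swap a c := by
    rw [← swap_mul_swap_mul_swap (x := c) (y := a) (z := b) h2.symm h3.symm, swap_comm b a,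
      swap_comm c a, mul_assoc, swap_mul_self, mul_one]
  rwa [e]

theorem flip {a b c : κ} (h : swap a b * swap a c ∈ H) : swap a c * swap a b ∈ H := by
  simpa using H.inv_mem h

theorem rel_of_mem {a b c : κ} (h1 : a ≠ b) (h2 : a ≠ c) (h3 : b ≠ c)
    (h : swap a b * swap a c ∈ H) : rel H a b := by
  refine Or.inr ⟨{a, b, c}, ?_, by
    rw [Finset.card_eq_three.2 ⟨a, b, c, h1, h2, h3, rfl⟩], by simp, by simp⟩
  have k1 := rot h3 h2 h
  have k2 := rot h2.symm h1.symm k1
  intro x hx y hy z hz e1 e2 e3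
  simp only [Finset.mem_insert, Finset.mem_singleton] at hx hy hz
  rcases hx with rfl | rfl | rfl <;> rcases hy with rfl | rfl | rfl <;>
    rcases hz with rfl | rfl | rfl <;>
    first | contradiction | assumption | exact flip h | exact flip k1 | exact flip k2

theorem grow (R : Finset κ) (m : ℕ) :
    (∃ U : Finset κ, U.card + 2 ≤ 2 * m ∧ ∀ a ∉ R ∪ U, ∀ b ∉ R ∪ U, rel H a b) ∨
    ∃ (U : Finset κ) (X : Finset (Perm κ)), U.card ≤ 2 * m ∧ (∀ x ∈ R, x ∉ U) ∧ X.card = 2 ^ m ∧
      (∀ g ∈ X, ∀ x ∉ U, g x = x) ∧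
      ∀ g ∈ X, ∀ g' ∈ X, g ≠ g' → ∃ x, ¬ rel H x (g⁻¹ (g' x)) := by
  induction m with
  | zero => exact Or.inr ⟨∅, {1}, by simp⟩
  | succ m ih =>
    rcases ih with ⟨U, h1, h2⟩ | ⟨U, X, h1, h2, h3, h4, h5⟩
    · exact Or.inl ⟨U, by omega, h2⟩
    by_cases h : ∀ a ∉ R ∪ U, ∀ b ∉ R ∪ U, rel H a b
    · exact Or.inl ⟨U, by omega, h⟩
    push Not at h
    obtain ⟨a, ha, b, hb, hab⟩ := h
    rw [Finset.mem_union, not_or] at ha hb
    have hne : a ≠ b := fun e => hab (Or.inl e)
    have h6 : ∀ g ∈ X, ∀ x ∉ U, g⁻¹ x = x := fun g hg x hx => by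
      rw [Perm.inv_eq_iff_eq, h4 g hg x hx]
    have h7 : ∀ x ∈ U, swap a b x = x := fun x hx =>
      swap_apply_of_ne_of_ne (fun e => ha.2 (e ▸ hx)) fun e => hb.2 (e ▸ hx)
    refine Or.inr ⟨insert a (insert b U), X ∪ X.image (· * swap a b), ?_, fun x hx => ?_, ?_,
      fun g hg x hx => ?_, fun g hg g' hg' hgg => ?_⟩
    · have := Finset.card_insert_le a (insert b U)
      have := Finset.card_insert_le b U
      omega
    · simp only [Finset.mem_insert, not_or]
      exact ⟨fun e => ha.1 (e ▸ hx), fun e => hb.1 (e ▸ hx), h2 x hx⟩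
    · rw [Finset.card_union_of_disjoint, Finset.card_image_of_injective _ (mul_left_injective _),
        h3, pow_succ, mul_two]
      refine Finset.disjoint_left.2 fun g hg hg' => ?_
      obtain ⟨g', k, rfl⟩ := Finset.mem_image.1 hg'
      have := h4 _ hg a ha.2
      rw [Perm.mul_apply, swap_apply_left, h4 _ k b hb.2] at this
      exact hne this.symm
    · simp only [Finset.mem_insert, not_or] at hx
      rcases Finset.mem_union.1 hg with hg | hg
      · exact h4 g hg x hx.2.2
      · obtain ⟨g, k, rfl⟩ := Finset.mem_image.1 hg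
        rw [Perm.mul_apply, swap_apply_of_ne_of_ne hx.1 hx.2.1, h4 g k x hx.2.2]
    · rcases Finset.mem_union.1 hg with hg | hg <;> rcases Finset.mem_union.1 hg' with hg' | hg'
      · exact h5 g hg g' hg' hgg
      · obtain ⟨g', k, rfl⟩ := Finset.mem_image.1 hg'
        exact ⟨a, by rwa [Perm.mul_apply, swap_apply_left, h4 _ k b hb.2, h6 _ hg b hb.2]⟩
      · obtain ⟨g, k, rfl⟩ := Finset.mem_image.1 hg
        exact ⟨a, by rwa [h4 _ hg' a ha.2, mul_inv_rev, Perm.mul_apply, h6 _ k a ha.2, swap_inv,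
          swap_apply_left]⟩
      · obtain ⟨g, k, rfl⟩ := Finset.mem_image.1 hg
        obtain ⟨g', k', rfl⟩ := Finset.mem_image.1 hg'
        obtain ⟨x, hx⟩ := h5 g k g' k' fun e => hgg (by rw [e])
        have hxU : x ∈ U := by_contra fun z =>
          hx (by rw [h4 _ k' x z, h6 _ k x z]; exact Or.inl rfl)
        have hyU : g⁻¹ (g' x) ∈ U := by_contra fun z => by
          have e1 : g' x = g⁻¹ (g' x) := by simpa using h4 _ k _ z
          have e2 := h4 _ k' _ z
          rw [← e1] at e2 z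
          exact z ((g'.injective e2).symm ▸ hxU)
        exact ⟨x, by rwa [Perm.mul_apply, h7 x hxU, mul_inv_rev, Perm.mul_apply, swap_inv,
          h7 _ hyU]⟩

end JLx

open JLx in
/- a ~ b iff a = b or a, b lie in a set P with Alt3 H P and 3 ≤ card P (an equivalence by alt3_union; each class K has Alt3 H K; H permutes the classes by conjugation). A set R of representatives carries no cycle of H, so card R ≤ 2 L + 2 by bochert. Take a maximal family M of disjoint pairs of inequivalent points outside R. The products of subsets of the swaps of M lie in different cosets (a nonempty product fixes the representative of the class of a but moves a out of it), so card M ≤ L. The points outside R and M are pairwise equivalent. -/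
theorem jl {H : Subgroup (Perm κ)} {L : ℕ} (hi : H.index ≤ 2 ^ L) :
    ∃ S : Finset κ, S.card ≤ 4 * L + 2 ∧ Alt3 H Sᶜ := by
  let s : Setoid κ := ⟨rel H, fun _ => Or.inl rfl, rel_symm, rel_trans⟩
  let R : Finset κ := Finset.univ.image fun a => (Quotient.mk s a).out
  have hR : R.card ≤ 2 * L + 2 := by
    by_contra h
    obtain ⟨a, ha, b, hb, c, -, h1, h2, h3, h4⟩ := bochert hi (Z := R) (by omega)
    obtain ⟨a, -, rfl⟩ := Finset.mem_image.1 ha
    obtain ⟨b, -, rfl⟩ := Finset.mem_image.1 hb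
    exact h1 (congrArg Quotient.out ((Quotient.out_equiv_out (s := s)).1 (rel_of_mem h1 h2 h3 h4)))
  rcases grow (H := H) R (L + 1) with ⟨U, h1, h2⟩ | ⟨U, X, -, h2, h3, h4, h5⟩
  · refine ⟨R ∪ U, (Finset.card_union_le _ _).trans (by omega), fun a ha b hb c hc e1 e2 e3 => ?_⟩
    rw [Finset.mem_compl] at ha hb hc
    obtain ⟨P, a1, a2, a3, a4⟩ := (h2 a ha b hb).resolve_left e1
    obtain ⟨Q, b1, b2, b3, b4⟩ := (h2 a ha c hc).resolve_left e2
    exact alt3_union a1 b1 a2 b2 (Finset.not_disjoint_iff.2 ⟨a, a3, b3⟩) a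
      (Finset.mem_union_left _ a3) b (Finset.mem_union_left _ a4) c (Finset.mem_union_right _ b4)
      e1 e2 e3
  · exfalso
    classical
    have h6 : X.card ≤ (Finset.univ : Finset (Perm κ ⧸ H)).card :=
      Finset.card_le_card_of_injOn (fun g => (g : Perm κ ⧸ H)) (fun _ _ => by simp)
        fun g hg g' hg' e => by_contra fun hne => by
          obtain ⟨x, hx⟩ := h5 g hg g' hg' hne
          have r : rel H (Quotient.mk s x).out x := Quotient.mk_out (s := s) x
          have u := h2 _ (Finset.mem_image_of_mem _ (Finset.mem_univ x))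
          have := rel_map (QuotientGroup.eq.1 e) r
          rw [Perm.mul_apply, h4 _ hg' _ u, (Perm.inv_eq_iff_eq.2 (h4 _ hg _ u).symm)] at this
          exact hx (rel_trans (rel_symm r) this)
    rw [Finset.card_univ, ← Nat.card_eq_fintype_card, h3, pow_succ] at h6
    have := Nat.two_pow_pos L
    rw [Subgroup.index] at hi
    omega

end Pool.Agent.P.MP_f1a348_lc.GX
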