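import Pool.Agent.P.MP_f1a348_lc.GX.Base

/-! Step ABP. -/

set_option autoImplicit false
set_option linter.unusedSectionVars false

namespace Pool.Agent.P.MP_f1a348_lc.GX

open Equiv
variable {κ : Type} [Fintype κ] [DecidableEq κ]

namespace ABPx

/-- the action on the quotient by an invariant subgroup -/
def quotAct {R V : Type} [Group R] [CommGroup V] (ρ : R →* MulAut V) (N : Subgroup V)
    (hN : ∀ g : R, N.map (ρ g : V →* V) = N) : R →* MulAut (V ⧸ N) where
  toFun g := QuotientGroup.congr N N (ρ g) (hN g)
  map_one' := by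
    ext x
    obtain ⟨y, rfl⟩ := QuotientGroup.mk_surjective x
    rw [QuotientGroup.congr_mk]
    simp
  map_mul' a b := by
    ext x
    obtain ⟨y, rfl⟩ := QuotientGroup.mk_surjective x
    rw [MulAut.mul_apply, QuotientGroup.congr_mk, QuotientGroup.congr_mk,
      QuotientGroup.congr_mk]
    simp

theorem quotAct_mk {R V : Type} [Group R] [CommGroup V] (ρ : R →* MulAut V) (N : Subgroup V)
    (hN : ∀ g : R, N.map (ρ g : V →* V) = N) (g : R) (x : V) :
    quotAct ρ N hN g (x : V ⧸ N) = ((ρ g x : V) : V ⧸ N) :=
  QuotientGroup.congr_mk N N (ρ g) (hN g) x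

theorem aux {R : Type} [CommGroup R] [Finite R] {p r : ℕ} (hpr : Nat.Coprime p r)
    (hR : ∀ g : R, g ^ r = 1) (n : ℕ) :
    ∀ (V : Type) [CommGroup V] [Finite V], Nat.card V = n → (∀ v : V, v ^ p = 1) →
      ∀ ρ : R →* MulAut V, ρ.ker.index ≤ Nat.card V := by
  induction n using Nat.strong_induction_on with
  | _ n ih =>
    intro V _ _ hn hV ρ
    by_cases hs : Subsingleton V
    · have : ρ.ker = ⊤ := by
        rw [eq_top_iff]
        intro g _
        rw [MonoidHom.mem_ker]
        ext x
        exact Subsingleton.elim _ _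
      rw [this, Subgroup.index_top]
      exact Nat.card_pos
    · rw [not_subsingleton_iff_nontrivial] at hs
      obtain ⟨v, hv⟩ := exists_ne (1 : V)
      let _ : MulAction R V := MulAction.compHom V ρ
      have hsm : ∀ (g : R) (x : V), g • x = ρ g x := fun _ _ => rfl
      set N : Subgroup V := Subgroup.closure (MulAction.orbit R v) with hNdef
      have hN : ∀ g : R, N.map (ρ g : V →* V) = N := by
        intro g
        rw [hNdef, MonoidHom.map_closure]
        congr 1
        exact MulAction.smul_orbit g v
      have hvN : v ∈ N := Subgroup.subset_closure (MulAction.mem_orbit_self v)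
      have hcard : Nat.card V = Nat.card (V ⧸ N) * Nat.card N :=
        Subgroup.card_eq_card_quotient_mul_card_subgroup N
      have hN1 : 1 < Nat.card N := by
        rw [Finite.one_lt_card_iff_nontrivial]
        exact ⟨⟨⟨v, hvN⟩, 1, fun h => hv (congrArg Subtype.val h)⟩⟩
      have hQ : 0 < Nat.card (V ⧸ N) := Nat.card_pos
      have hlt : Nat.card (V ⧸ N) < n := by
        rw [← hn, hcard]
        exact lt_mul_of_one_lt_right hQ hN1
      have hVq : ∀ x : V ⧸ N, x ^ p = 1 := by
        intro x
        obtain ⟨y, rfl⟩ := QuotientGroup.mk_surjective x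
        rw [← QuotientGroup.mk_pow, hV, QuotientGroup.mk_one]
      have h1 := ih _ hlt (V ⧸ N) rfl hVq (quotAct ρ N hN)
      have h2 : (MulAction.stabilizer R v).index ≤ Nat.card N := by
        rw [MulAction.index_stabilizer]
        exact Set.ncard_le_ncard (t := (N : Set V)) Subgroup.subset_closure (Set.toFinite _)
      have h3 : (quotAct ρ N hN).ker ⊓ MulAction.stabilizer R v ≤ ρ.ker := by
        rintro g ⟨hg1, hg2⟩
        have hg2' : ρ g v = v := hg2
        have hfix : ∀ w ∈ N, ρ g w = w := by
          intro w hw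
          induction hw using Subgroup.closure_induction with
          | mem x hx =>
            obtain ⟨h, rfl⟩ := hx
            change ρ g (ρ h v) = ρ h v
            rw [← MulAut.mul_apply, ← map_mul, mul_comm, map_mul, MulAut.mul_apply, hg2']
          | one => exact map_one _
          | mul x y _ _ hx hy => rw [map_mul, hx, hy]
          | inv x _ hx => rw [map_inv, hx]
        have hp : ρ g ^ p = 1 := by
          ext x
          have hq : ((ρ g x : V) : V ⧸ N) = (x : V ⧸ N) := by
            rw [← quotAct_mk ρ N hN g x, MonoidHom.mem_ker.1 hg1]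
            rfl
          have hw : x⁻¹ * ρ g x ∈ N := QuotientGroup.eq.1 hq.symm
          have hk : ∀ k : ℕ, (ρ g ^ k) x = x * (x⁻¹ * ρ g x) ^ k := by
            intro k
            induction k with
            | zero => simp
            | succ k ihk =>
              rw [pow_succ', MulAut.mul_apply, ihk, map_mul, map_pow, hfix _ hw, pow_succ',
                ← mul_assoc, mul_inv_cancel_left]
          rw [hk, hV, mul_one]
          rfl
        have hr : ρ g ^ r = 1 := by rw [← map_pow, hR, map_one]
        rw [MonoidHom.mem_ker, ← orderOf_eq_one_iff]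
        exact Nat.eq_one_of_dvd_coprimes hpr (orderOf_dvd_of_pow_eq_one hp)
          (orderOf_dvd_of_pow_eq_one hr)
      calc ρ.ker.index ≤ ((quotAct ρ N hN).ker ⊓ MulAction.stabilizer R v).index :=
            Subgroup.index_antitone h3
        _ ≤ (quotAct ρ N hN).ker.index * (MulAction.stabilizer R v).index :=
            Subgroup.index_inf_le
        _ ≤ Nat.card (V ⧸ N) * Nat.card N := Nat.mul_le_mul h1 h2
        _ = Nat.card V := hcard.symm

/-- translations of the blocks -/
def shift (r m : ℕ) : Multiplicative (Fin m → ZMod r) →* Perm (Fin m × ZMod r) where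
  toFun a :=
    { toFun := fun x => (x.1, x.2 + a.toAdd x.1)
      invFun := fun x => (x.1, x.2 - a.toAdd x.1)
      left_inv := fun x => by simp
      right_inv := fun x => by simp }
  map_one' := by
    ext x <;> simp
  map_mul' a b := by
    ext x
    · simp
    · simp [add_left_comm, add_comm]

theorem shift_inj (r m : ℕ) : Function.Injective (shift r m) := by
  intro a b h
  have h1 : ∀ i, a.toAdd i = b.toAdd i := by
    intro i
    have h2 := congrArg (fun π : Perm (Fin m × ZMod r) => (π (i, 0)).2) h
    simpa [shift] using h2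
  exact Multiplicative.toAdd.injective (funext h1)

end ABPx

theorem abel_coprime {R V : Type} [CommGroup R] [Finite R] [CommGroup V] [Finite V] {p r : ℕ}
    (hpr : Nat.Coprime p r) (hV : ∀ v : V, v ^ p = 1) (hR : ∀ g : R, g ^ r = 1)
    (ρ : R →* MulAut V) : ρ.ker.index ≤ Nat.card V :=
  ABPx.aux hpr hR _ V rfl hV ρ

theorem exists_abel {r m : ℕ} (hr : r = 3 ∨ r = 5) (c : r * m ≤ Fintype.card κ) :
    ∃ R : Subgroup (Perm κ), R ≤ alternatingGroup κ ∧ Nat.card R = r ^ m ∧
      (∀ a ∈ R, ∀ b ∈ R, a * b = b * a) ∧ ∀ a ∈ R, a ^ r = 1 := by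
  have hr0 : r ≠ 0 := by omega
  have hodd : Odd r := by rcases hr with rfl | rfl <;> decide
  have : NeZero r := ⟨hr0⟩
  have hc : Fintype.card (Fin m × ZMod r) ≤ Fintype.card κ := by
    rw [Fintype.card_prod, Fintype.card_fin, ZMod.card, mul_comm]
    exact c
  obtain ⟨ι⟩ := Function.Embedding.nonempty_of_card_le hc
  set ψ : Multiplicative (Fin m → ZMod r) →* Perm κ :=
    (Perm.viaEmbeddingHom ι).comp (ABPx.shift r m) with hψ
  have hinj : Function.Injective ψ :=
    (Perm.viaEmbeddingHom_injective ι).comp (ABPx.shift_inj r m)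
  have hpow : ∀ a ∈ ψ.range, a ^ r = 1 := by
    rintro _ ⟨x, rfl⟩
    have hx : x ^ r = 1 := by
      apply Multiplicative.toAdd.injective
      funext i
      simp
    rw [← map_pow, hx, map_one]
  refine ⟨ψ.range, ?_, ?_, ?_, hpow⟩
  · intro a ha
    rw [Perm.mem_alternatingGroup]
    have h1 : Perm.sign a ^ r = 1 := by rw [← map_pow, hpow a ha, map_one]
    rcases Int.units_eq_one_or (Perm.sign a) with h | h
    · exact h
    · rw [h, hodd.neg_one_pow] at h1
      exact absurd h1 (by decide)
  · rw [← Nat.card_congr (MonoidHom.ofInjective hinj).toEquiv,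
      Nat.card_congr (Multiplicative.toAdd (α := Fin m → ZMod r)), Nat.card_fun, Nat.card_zmod,
      Nat.card_eq_fintype_card, Fintype.card_fin]
  · rintro _ ⟨x, rfl⟩ _ ⟨y, rfl⟩
    rw [← map_mul, ← map_mul, mul_comm]

end Pool.Agent.P.MP_f1a348_lc.GX
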