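import Pool.Agent.P.MP_f1a348_lc.GX.Base
import Pool.Agent.P.MP_f1a348_lc.GX.TABP

/-! Step NILD. -/

set_option autoImplicit false
set_option linter.unusedSectionVars false

namespace Pool.Agent.P.MP_f1a348_lc.GX

open Equiv
variable {κ : Type} [Fintype κ] [DecidableEq κ]

namespace NILDx

/-- the elements of `N` that commute with `N` and have `p`-th power one -/
def Om {P : Type} [Group P] (N : Subgroup P) (p : ℕ) : Subgroup P where
  carrier := {x | x ∈ N ∧ (∀ y ∈ N, Commute x y) ∧ x ^ p = 1}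
  mul_mem' := fun {a b} ha hb => ⟨N.mul_mem ha.1 hb.1,
    fun y hy => (ha.2.1 y hy).mul_left (hb.2.1 y hy), by
      rw [(ha.2.1 b hb.1).mul_pow, ha.2.2, hb.2.2, mul_one]⟩
  one_mem' := ⟨N.one_mem, fun y _ => Commute.one_left y, one_pow p⟩
  inv_mem' := fun {a} ha => ⟨N.inv_mem ha.1, fun y hy => (ha.2.1 y hy).inv_left, by
    rw [inv_pow, ha.2.2, inv_one]⟩

theorem mem_Om {P : Type} [Group P] {N : Subgroup P} {p : ℕ} {x : P} :
    x ∈ Om N p ↔ x ∈ N ∧ (∀ y ∈ N, Commute x y) ∧ x ^ p = 1 := Iff.rfl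

theorem Om_normal {P : Type} [Group P] (N : Subgroup P) [hN : N.Normal] (p : ℕ) :
    (Om N p).Normal := by
  refine ⟨fun x hx g => ⟨hN.conj_mem x hx.1 g, fun y hy => ?_, ?_⟩⟩
  · have h := hx.2.1 (g⁻¹ * y * g) (hN.conj_mem' y hy g)
    have h' : x * (g⁻¹ * y * g) = (g⁻¹ * y * g) * x := h
    show g * x * g⁻¹ * y = y * (g * x * g⁻¹)
    calc g * x * g⁻¹ * y = g * (x * (g⁻¹ * y * g)) * g⁻¹ := by group
      _ = g * ((g⁻¹ * y * g) * x) * g⁻¹ := by rw [h']
      _ = y * (g * x * g⁻¹) := by group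
  · rw [conj_pow, hx.2.2]; group

theorem exists_Om {P : Type} [Group P] [Finite P] (N : Subgroup P) (hn : Group.IsNilpotent N)
    (h : N ≠ ⊥) : ∃ p : ℕ, p.Prime ∧ Om N p ≠ ⊥ := by
  have : Nontrivial N := (Subgroup.nontrivial_iff_ne_bot N).2 h
  have hc : Subgroup.center N ≠ ⊥ := Group.IsNilpotent.center_ne_bot N
  obtain ⟨⟨z, hz⟩, hz1⟩ := (Subgroup.ne_bot_iff_exists_ne_one).1 hc
  have hz1' : z ≠ 1 := fun e => hz1 (Subtype.ext e)
  have ho : orderOf z ≠ 1 := by rwa [Ne, orderOf_eq_one_iff]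
  have hpos : 0 < orderOf z := orderOf_pos z
  obtain ⟨p, hp, m, hm⟩ := Nat.exists_prime_and_dvd ho
  refine ⟨p, hp, ?_⟩
  have hm0 : m ≠ 0 := by rintro rfl; rw [mul_zero] at hm; omega
  have hlt : m < orderOf z := by
    rw [hm]; have := hp.two_le; nlinarith [Nat.pos_of_ne_zero hm0]
  have hne : z ^ m ≠ 1 := pow_ne_one_of_lt_orderOf hm0 hlt
  intro hb
  have hmem : ((z ^ m : N) : P) ∈ Om N p := by
    refine ⟨(z ^ m).2, fun y hy => ?_, ?_⟩
    · have h1 : z ^ m ∈ Subgroup.center N := Subgroup.pow_mem _ hz m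
      have h2 := (Subgroup.mem_center_iff.1 h1) ⟨y, hy⟩
      exact (congrArg Subtype.val h2).symm
    · have : (z ^ m) ^ p = 1 := by
        rw [← pow_mul, mul_comm, ← hm, pow_orderOf_eq_one]
      exact congrArg Subtype.val this
  rw [hb, Subgroup.mem_bot] at hmem
  exact hne (Subtype.ext hmem)

theorem central {P : Type} [Group P] [Finite P] (ψ : P →* alternatingGroup κ)
    (hψ : Function.Surjective ψ) {L : ℕ} (c : 5 * (L + 1) ≤ Fintype.card κ) {p : ℕ}
    (hp : p.Prime) (hV : Nat.card (Om ψ.ker p) ≤ 2 ^ L) :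
    ∀ v ∈ Om ψ.ker p, ∀ g : P, Commute g v := by
  have := Om_normal ψ.ker p
  have c5 : 5 ≤ Nat.card κ := by rw [Nat.card_eq_fintype_card]; omega
  have := alternatingGroup.isSimpleGroup c5
  obtain ⟨r, hr, hpr⟩ : ∃ r : ℕ, (r = 3 ∨ r = 5) ∧ Nat.Coprime p r := by
    by_cases h3 : p = 3
    · exact ⟨5, Or.inr rfl, by rw [h3]; norm_num⟩
    · exact ⟨3, Or.inl rfl, (Nat.coprime_primes hp Nat.prime_three).2 h3⟩
  obtain ⟨R, hRA, hRc, hRm, hRr⟩ := exists_abel (κ := κ) (m := L + 1) hr (by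
    rcases hr with rfl | rfl <;> omega)
  let f : P →* MulAut (Om ψ.ker p) := MulAut.conjNormal
  have hf : ψ.ker ≤ f.ker := by
    intro x hx
    rw [MonoidHom.mem_ker]
    ext v
    have h := v.2.2.1 x hx
    have h' : (v : P) * x = x * v := h
    simp only [f, MulAut.conjNormal_apply, MulAut.one_apply]
    rw [← h']; group
  let ρ0 : alternatingGroup κ →* MulAut (Om ψ.ker p) := ψ.liftOfSurjective hψ ⟨f, hf⟩
  have hρ0 : ∀ x, ρ0 (ψ x) = f x := fun x =>
    ψ.liftOfRightInverse_comp_apply _ _ ⟨f, hf⟩ x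
  let : CommGroup R :=
    { (inferInstance : Group R) with
      mul_comm := fun a b => Subtype.ext (hRm a a.2 b b.2) }
  let : CommGroup (Om ψ.ker p) :=
    { (inferInstance : Group (Om ψ.ker p)) with
      mul_comm := fun a b => Subtype.ext (a.2.2.1 b b.2.1) }
  let ρ : R →* MulAut (Om ψ.ker p) := ρ0.comp (Subgroup.inclusion hRA)
  have hidx : ρ.ker.index ≤ Nat.card (Om ψ.ker p) :=
    abel_coprime hpr (fun v => Subtype.ext v.2.2.2) (fun g => Subtype.ext (hRr g g.2)) ρ
  have hne : ρ.ker ≠ ⊥ := by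
    intro e
    rw [e, Subgroup.index_bot, hRc] at hidx
    have h1 : 2 ^ (L + 1) ≤ r ^ (L + 1) :=
      Nat.pow_le_pow_left (by rcases hr with rfl | rfl <;> omega) _
    have h2 : 2 ^ L < 2 ^ (L + 1) := Nat.pow_lt_pow_right (by norm_num) (by omega)
    omega
  have hne0 : ρ0.ker ≠ ⊥ := by
    intro e
    apply hne
    rw [eq_bot_iff]
    intro x hx
    have h1 : Subgroup.inclusion hRA x ∈ ρ0.ker := hx
    rw [e, Subgroup.mem_bot] at h1
    rw [Subgroup.mem_bot]
    exact Subgroup.inclusion_injective hRA (h1.trans (map_one _).symm)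
  have htop : ρ0.ker = ⊤ :=
    (IsSimpleGroup.eq_bot_or_eq_top_of_normal ρ0.ker inferInstance).resolve_left hne0
  intro v hv g
  have h1 : ρ0 (ψ g) = 1 := by
    have : ψ g ∈ ρ0.ker := by rw [htop]; trivial
    exact this
  rw [hρ0] at h1
  have h2 : ((f g ⟨v, hv⟩ : Om ψ.ker p) : P) = v := by rw [h1]; rfl
  have h3 : g * v * g⁻¹ = v := h2
  show g * v = v * g
  calc g * v = g * v * g⁻¹ * g := by group
    _ = v * g := by rw [h3]

theorem step {P : Type} [Group P] [Finite P] (ψ : P →* alternatingGroup κ)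
    (hn : Group.IsNilpotent ψ.ker) {L : ℕ} (c : 5 * (L + 1) ≤ Fintype.card κ) (J : Subgroup P)
    (hJ : J.map ψ = ⊤) (hi : J.index ≤ 2 ^ L) (hD : ψ.ker ⊓ J.normalCore = ⊥)
    (ih : ∀ J' : Subgroup P, J < J' → J'.normalCore.map ψ = ⊤) : J.normalCore.map ψ = ⊤ := by
  have hsup : J ⊔ ψ.ker = ⊤ := by
    rw [← Subgroup.comap_map_eq, hJ, Subgroup.comap_top]
  by_cases hN : ψ.ker = ⊥
  · rw [hN, sup_bot_eq] at hsup
    subst hsup
    rw [Subgroup.normalCore_eq_self]
    exact hJ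
  obtain ⟨p, hp, hV⟩ := exists_Om ψ.ker hn hN
  have hVn := Om_normal ψ.ker p
  have hψ : Function.Surjective ψ := by
    intro a
    have : a ∈ J.map ψ := by rw [hJ]; trivial
    obtain ⟨x, -, hx⟩ := this
    exact ⟨x, hx⟩
  have hVJn : (Om ψ.ker p ⊓ J).Normal := by
    refine ⟨fun x hx g => ⟨hVn.conj_mem x hx.1 g, ?_⟩⟩
    have hg : g ∈ J ⊔ ψ.ker := by rw [hsup]; trivial
    obtain ⟨j, hj, n, hn', rfl⟩ := Subgroup.mem_sup_of_normal_right.1 hg
    have h' : x * n = n * x := hx.1.2.1 n hn'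
    have : j * n * x * (j * n)⁻¹ = j * x * j⁻¹ := by
      calc j * n * x * (j * n)⁻¹ = j * (n * x) * n⁻¹ * j⁻¹ := by group
        _ = j * (x * n) * n⁻¹ * j⁻¹ := by rw [h']
        _ = j * x * j⁻¹ := by group
    rw [this]
    exact J.mul_mem (J.mul_mem hj hx.2) (J.inv_mem hj)
  have hVJ : Om ψ.ker p ⊓ J = ⊥ := by
    rw [eq_bot_iff, ← hD]
    exact le_inf (fun x hx => hx.1.1) (Subgroup.normal_le_normalCore.2 inf_le_right)
  have hcard : Nat.card (Om ψ.ker p) ≤ J.index := by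
    refine Nat.card_le_card_of_injective (fun v : Om ψ.ker p => ((v : P) : P ⧸ J)) ?_
    intro a b hab
    have h1 : (a : P)⁻¹ * b ∈ J := QuotientGroup.eq.1 hab
    have h2 : (a : P)⁻¹ * b ∈ Om ψ.ker p ⊓ J :=
      ⟨Subgroup.mul_mem _ (Subgroup.inv_mem _ a.2) b.2, h1⟩
    rw [hVJ, Subgroup.mem_bot] at h2
    exact Subtype.ext (inv_mul_eq_one.1 h2)
  have hcen := central ψ hψ c hp (hcard.trans hi)
  have hlt : J < J ⊔ Om ψ.ker p := by
    refine lt_of_le_of_ne le_sup_left fun e => hV ?_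
    rw [← hVJ]
    exact (inf_eq_left.2 (le_sup_right.trans e.ge)).symm
  have hC := ih _ hlt
  have hle : ⁅(J ⊔ Om ψ.ker p).normalCore, (J ⊔ Om ψ.ker p).normalCore⁆ ≤ J.normalCore := by
    rw [Subgroup.normal_le_normalCore, Subgroup.commutator_le]
    intro g hg h hh
    obtain ⟨j, hj, v, hv, rfl⟩ :=
      Subgroup.mem_sup_of_normal_right.1 (Subgroup.normalCore_le _ hg)
    obtain ⟨j', hj', v', hv', rfl⟩ :=
      Subgroup.mem_sup_of_normal_right.1 (Subgroup.normalCore_le _ hh)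
    rw [commutatorElement_def]
    have e : j * v * (j' * v') * (j * v)⁻¹ * (j' * v')⁻¹ = j * j' * j⁻¹ * j'⁻¹ := by
      have a1 : j' * v' * v⁻¹ = v⁻¹ * (j' * v') := (hcen v hv (j' * v')).inv_right
      have a2 : j⁻¹ * v' = v' * j⁻¹ := hcen v' hv' j⁻¹
      calc j * v * (j' * v') * (j * v)⁻¹ * (j' * v')⁻¹
          = j * v * (j' * v' * v⁻¹) * j⁻¹ * (j' * v')⁻¹ := by group
        _ = j * v * (v⁻¹ * (j' * v')) * j⁻¹ * (j' * v')⁻¹ := by rw [a1]
        _ = j * j' * (v' * j⁻¹) * (j' * v')⁻¹ := by group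
        _ = j * j' * (j⁻¹ * v') * (j' * v')⁻¹ := by rw [a2]
        _ = j * j' * j⁻¹ * j'⁻¹ := by group
    rw [e]
    exact J.mul_mem (J.mul_mem (J.mul_mem hj hj') (J.inv_mem hj)) (J.inv_mem hj')
  have c5 : 5 ≤ Nat.card κ := by rw [Nat.card_eq_fintype_card]; omega
  rw [eq_top_iff]
  refine le_trans ?_ (Subgroup.map_mono hle)
  rw [Subgroup.map_commutator, hC]
  exact (commutator_alternatingGroup_eq_top c5).ge

theorem main {L : ℕ} (c : 5 * (L + 1) ≤ Fintype.card κ) (n : ℕ) :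
    ∀ (P : Type) [Group P] [Finite P] (ψ : P →* alternatingGroup κ),
      Group.IsNilpotent ψ.ker → ∀ J : Subgroup P, J.index = n → J.map ψ = ⊤ → J.index ≤ 2 ^ L →
      J.normalCore.map ψ = ⊤ := by
  induction n using Nat.strong_induction_on with
  | _ n ih =>
    intro P _ _ ψ hn J hJn hJ hi
    let D : Subgroup P := ψ.ker ⊓ J.normalCore
    have : D.Normal := inferInstance
    let π : P →* P ⧸ D := QuotientGroup.mk' D
    have hπ : Function.Surjective π := QuotientGroup.mk'_surjective D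
    have hπk : π.ker = D := QuotientGroup.ker_mk' D
    let ψ' : P ⧸ D →* alternatingGroup κ := QuotientGroup.lift D ψ (fun x hx => hx.1)
    have hψ' : ∀ x, ψ' (π x) = ψ x := fun x => rfl
    have hDJ : π.ker ≤ J := by
      rw [hπk]; exact inf_le_right.trans J.normalCore_le
    have hn' : Group.IsNilpotent ψ'.ker := by
      let f : ψ.ker →* ψ'.ker := (π.comp ψ.ker.subtype).codRestrict ψ'.ker (fun x => x.2)
      refine Group.nilpotent_of_surjective f ?_
      rintro ⟨y, hy⟩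
      obtain ⟨x, rfl⟩ := hπ y
      exact ⟨⟨x, hy⟩, rfl⟩
    have hidx : (J.map π).index = J.index := Subgroup.index_map_eq J hπ hDJ
    have hJ' : (J.map π).map ψ' = ⊤ := by
      rw [Subgroup.map_map]
      exact hJ
    have hcore : (J.map π).normalCore.comap π ≤ J.normalCore := by
      rw [Subgroup.normal_le_normalCore]
      refine (Subgroup.comap_mono (Subgroup.normalCore_le _)).trans ?_
      rw [Subgroup.comap_map_eq]
      exact sup_le le_rfl hDJ
    have hD : ψ'.ker ⊓ (J.map π).normalCore = ⊥ := by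
      rw [eq_bot_iff]
      intro y hy
      obtain ⟨x, rfl⟩ := hπ y
      have : x ∈ π.ker := by
        rw [hπk]
        exact ⟨hy.1, hcore hy.2⟩
      exact this
    have key := step ψ' hn' c (J.map π) hJ' (hidx ▸ hi) hD (fun J' hlt => by
      have h1 : J'.index < n := by
        rw [← hJn, ← hidx]; exact Subgroup.index_strictAnti hlt
      refine ih _ h1 _ ψ' hn' J' rfl ?_ (by omega)
      rw [eq_top_iff, ← hJ']
      exact Subgroup.map_mono hlt.le)
    rw [eq_top_iff]
    intro a _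
    have : a ∈ (J.map π).normalCore.map ψ' := by rw [key]; trivial
    obtain ⟨y, hy, rfl⟩ := this
    obtain ⟨x, rfl⟩ := hπ y
    exact ⟨x, hcore hy, rfl⟩

end NILDx

/- Strong induction on the index of J. N = ker ψ, C = normalCore J. If N ≤ C then J = top. Else choose a prime p and V normal in P, N ⊓ C < V ≤ N, with commutators [V, N] in C and p-th powers in C (elements of order dividing p of the centre of the nontrivial nilpotent group N / (N ⊓ C)). V ⊓ J ≤ C (the product of V ⊓ J and C is normalised by N and by J), so card (V / (V ⊓ C)) ≤ index J. P acts on V / (V ⊓ C) by conjugation through ψ. By abel_coprime and exists_abel (r = 3, or r = 5 if p = 3; r ^ (L + 1) > 2 ^ L) a nontrivial even permutation acts trivially, by simplicity all do: [V, P] ≤ C. J' = J ⊔ V is larger than J, so the core C' of J' maps onto the alternating group. For g, h in C' the commutator lies in every conjugate of J (each acts on a V-orbit of P / J as an element of V),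 so [C', C'] ≤ C, and the alternating group is perfect. -/
theorem nil_core {P : Type} [Group P] [Finite P] (ψ : P →* alternatingGroup κ)
    (hn : Group.IsNilpotent ψ.ker) {L : ℕ} (c : 5 * (L + 1) ≤ Fintype.card κ) (J : Subgroup P)
    (hJ : J.map ψ = ⊤) (hi : J.index ≤ 2 ^ L) : J.normalCore.map ψ = ⊤ :=
  NILDx.main c _ P ψ hn J rfl hJ hi

end Pool.Agent.P.MP_f1a348_lc.GX
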