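import Pool.Agent.P.MP_f1a348_lc.GX.Base
import Pool.Agent.P.MP_f1a348_lc.GX.TALTE
import Pool.Agent.P.MP_f1a348_lc.GX.TJL
import Pool.Agent.P.MP_f1a348_lc.GX.TCOMM
import Pool.Agent.P.MP_f1a348_lc.GX.TNILD

/-! Step UORB. -/

set_option autoImplicit false
set_option linter.unusedSectionVars false

namespace Pool.Agent.P.MP_f1a348_lc.GX

open Equiv
variable {κ : Type} [Fintype κ] [DecidableEq κ]

namespace UORBx

theorem nil_inj {A B : Type} [Group A] [Group B] (h : Group.IsNilpotent B) (f : A →* B)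
    (hf : Function.Injective f) : Group.IsNilpotent A :=
  (Group.isNilpotent_congr (MonoidHom.ofInjective hf)).mpr inferInstance

theorem exists_min {G H : Type} [Group G] [Finite G] [Group H] (φ : G →* H) :
    ∃ M : Subgroup G, (φ.comp M.subtype).range = φ.range ∧
      Group.IsNilpotent (φ.comp M.subtype).ker := by
  obtain ⟨M, hM⟩ := exists_minimal_of_wellFoundedLT (fun M : Subgroup G => M.map φ = φ.range)
    ⟨⊤, (MonoidHom.range_eq_map φ).symm⟩
  have h0 : (φ.comp M.subtype).range = φ.range := by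
    rw [MonoidHom.range_comp, Subgroup.range_subtype]; exact hM.1
  refine ⟨M, h0, ?_⟩
  have hle : (φ.comp M.subtype).ker ≤ frattini M := by
    simp only [frattini, Order.radical, le_iInf_iff]
    intro K hK
    by_contra hn
    have h1 : K ⊔ (φ.comp M.subtype).ker = ⊤ := hK.2 _ (left_lt_sup.mpr hn)
    have h2 : (K.map M.subtype).map φ = φ.range := by
      have h4 := congrArg (Subgroup.map (φ.comp M.subtype)) h1
      rw [Subgroup.map_sup, Subgroup.map_ker_self, sup_bot_eq, ← MonoidHom.range_eq_map] at h4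
      rw [Subgroup.map_map, h4, h0]
    have h3 : M ≤ K.map M.subtype := hM.2 h2 (Subgroup.map_subtype_le K)
    apply hK.1
    rw [eq_top_iff]
    intro x _
    obtain ⟨y, hy, e⟩ := h3 x.2
    have h5 : y = x := Subtype.ext e
    exact h5 ▸ hy
  exact nil_inj frattini_nilpotent (Subgroup.inclusion hle) (Subgroup.inclusion_injective hle)

noncomputable def th {M : Type} [Group M] (ψ : M →* Perm κ) (T : Finset κ) :
    (altOn T).comap ψ →* alternatingGroup {x // x ∈ T} :=
  (altOn_equiv T).some.toMonoidHom.comp (ψ.subgroupComap (altOn T))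

theorem th_top {M : Type} [Group M] (ψ : M →* Perm κ) (T : Finset κ)
    (C : Subgroup ((altOn T).comap ψ)) :
    C.map (th ψ T) = ⊤ ↔ ∀ π ∈ altOn T, ∃ g ∈ C, ψ g.1 = π := by
  constructor
  · intro h π hπ
    have h1 : (altOn_equiv T).some ⟨π, hπ⟩ ∈ C.map (th ψ T) := h ▸ Subgroup.mem_top _
    obtain ⟨g, hg, e⟩ := h1
    refine ⟨g, hg, ?_⟩
    have h2 : ψ.subgroupComap (altOn T) g = ⟨π, hπ⟩ := (altOn_equiv T).some.injective e
    exact congrArg Subtype.val h2
  · intro h
    rw [eq_top_iff]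
    intro a _
    obtain ⟨⟨π, hπ⟩, rfl⟩ := (altOn_equiv T).some.surjective a
    obtain ⟨g, hg, e⟩ := h π hπ
    refine ⟨g, hg, ?_⟩
    have h2 : ψ.subgroupComap (altOn T) g = ⟨π, hπ⟩ := Subtype.ext e
    exact congrArg (altOn_equiv T).some h2

theorem th_ker {M : Type} [Group M] (ψ : M →* Perm κ) (T : Finset κ)
    (g : (altOn T).comap ψ) (hg : g ∈ (th ψ T).ker) : g.1 ∈ ψ.ker := by
  have h1 : (altOn_equiv T).some (ψ.subgroupComap (altOn T) g) = 1 := hg
  have h2 : ψ.subgroupComap (altOn T) g = 1 := (MulEquiv.map_eq_one_iff _).mp h1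
  exact congrArg Subtype.val h2

theorem th_nil {M : Type} [Group M] (ψ : M →* Perm κ) (T : Finset κ)
    (h : Group.IsNilpotent ψ.ker) : Group.IsNilpotent (th ψ T).ker := by
  refine nil_inj h ((((altOn T).comap ψ).subtype.comp (th ψ T).ker.subtype).codRestrict ψ.ker
    fun g => th_ker ψ T g.1 g.2) ?_
  intro a b e
  have e' : (a.1.1 : M) = b.1.1 := congrArg (fun z : ψ.ker => (z : M)) e
  exact Subtype.ext (Subtype.ext e')

theorem idx {P Ω : Type} [Group P] [MulAction P Ω] (D : Finset Ω)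
    (hD : ∀ g : P, ∀ x ∈ D, g • x ∈ D) {y : Ω} (hy : y ∈ D) :
    (MulAction.stabilizer P y).index ≤ D.card := by
  rw [MulAction.index_stabilizer, ← Set.ncard_coe_finset]
  refine Set.ncard_le_ncard ?_ D.finite_toSet
  rintro _ ⟨g, rfl⟩
  exact hD g y hy

theorem core {M Ω : Type} [Group M] [Finite M] [MulAction M Ω] (ψ : M →* Perm κ) {L : ℕ}
    (c : 100 * (L + 1) ≤ Fintype.card κ) (hr : ψ.range = alternatingGroup κ)
    (hn : Group.IsNilpotent ψ.ker) (D : Finset Ω) (hD : ∀ g : M, ∀ x ∈ D, g • x ∈ D)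
    (hc : D.card ≤ 2 ^ L) {y : Ω} (hy : y ∈ D) :
    ∃ S : Finset κ, S.card ≤ 4 * L + 6 ∧ ∀ π ∈ altOn Sᶜ, ∃ g : M, ψ g = π ∧
      ∀ p : M, ψ p ∈ altOn Sᶜ → (p * g * p⁻¹) • y = y := by
  have : Nontrivial κ := Fintype.one_lt_card_iff_nontrivial.mp (by omega)
  have h1 : ((MulAction.stabilizer M y).map ψ).index ≤ 2 ^ (L + 1) := by
    rw [Subgroup.index_map, hr, alternatingGroup.index_eq_two, pow_succ]
    refine Nat.mul_le_mul_right 2 ?_
    exact (Subgroup.index_antitone le_sup_left).trans ((idx D hD hy).trans hc)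
  obtain ⟨S, hS, h3⟩ := jl h1
  have h4 := altOn_le h3
  refine ⟨S, by omega, ?_⟩
  have hT : 5 * (L + 1) ≤ Fintype.card {x // x ∈ Sᶜ} := by
    rw [Fintype.card_coe, Finset.card_compl]; omega
  have hJ : (MulAction.stabilizer ((altOn Sᶜ).comap ψ) y).map (th ψ Sᶜ) = ⊤ := by
    rw [th_top]
    intro π hπ
    obtain ⟨g, hg, e⟩ := h4 hπ
    exact ⟨⟨g, by rw [Subgroup.mem_comap, e]; exact hπ⟩, hg, e⟩
  have hi : (MulAction.stabilizer ((altOn Sᶜ).comap ψ) y).index ≤ 2 ^ L :=
    (idx D (fun g x hx => hD g.1 x hx) hy).trans hc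
  have h5 := (th_top ψ Sᶜ _).mp (nil_core (th ψ Sᶜ) (th_nil ψ Sᶜ hn) hT _ hJ hi)
  intro π hπ
  obtain ⟨g, hg, e⟩ := h5 π hπ
  exact ⟨g.1, e, fun p hp => hg ⟨p, hp⟩⟩

theorem inter {Q B ι : Type} [Group Q] [Group B] (θ : Q →* B) (hB : commutator B = ⊤)
    (h0 : (⊤ : Subgroup Q).map θ = ⊤) (C : ι → Subgroup Q) (hN : ∀ i, (C i).Normal)
    (s : Finset ι) (hs : ∀ i ∈ s, (C i).map θ = ⊤) :
    ∃ E : Subgroup Q, E.Normal ∧ E.map θ = ⊤ ∧ ∀ i ∈ s, E ≤ C i := by
  classical
  induction s using Finset.induction_on with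
  | empty => exact ⟨⊤, inferInstance, h0, by simp⟩
  | insert a s _ ih =>
    obtain ⟨E, hE, h1, h2⟩ := ih fun i hi => hs i (Finset.mem_insert_of_mem hi)
    have := hN a
    refine ⟨⁅E, C a⁆, inferInstance, ?_, ?_⟩
    · rw [Subgroup.map_commutator, h1, hs a (Finset.mem_insert_self a s)]
      exact hB
    · intro i hi
      rcases Finset.mem_insert.mp hi with rfl | hi
      · exact (Subgroup.commutator_le_inf _ _).trans inf_le_right
      · exact ((Subgroup.commutator_le_inf _ _).trans inf_le_left).trans (h2 i hi)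

theorem pick {Ω : Type} (D : Finset Ω) (hD : D.Nonempty) (S : Ω → Finset κ) {b : ℕ}
    (hS : ∀ y ∈ D, (S y).card ≤ b) (c : (3 * b + 1) * 5 ≤ Fintype.card κ) :
    ∃ F : Finset κ, F.card = 5 ∧ 3 * (D.filter fun y => ¬ Disjoint F (S y)).card < D.card := by
  classical
  obtain ⟨e⟩ : Nonempty (Fin (3 * b + 1) × Fin 5 ↪ κ) :=
    Function.Embedding.nonempty_of_card_le (by simpa using c)
  let F : Fin (3 * b + 1) → Finset κ := fun i => Finset.univ.image fun j : Fin 5 => e (i, j)
  have hF : ∀ i, (F i).card = 5 := fun i => by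
    rw [Finset.card_image_of_injective _ fun j k h => (Prod.mk.inj (e.injective h)).2]
    simp
  have h1 : ∀ y ∈ D, (Finset.univ.filter fun i => ¬ Disjoint (F i) (S y)).card ≤ b := by
    intro y hy
    refine le_trans ?_ (hS y hy)
    have h2 : ∀ i, ¬ Disjoint (F i) (S y) → ∃ j, e (i, j) ∈ S y := by
      intro i hi
      obtain ⟨x, hx, hx'⟩ := Finset.not_disjoint_iff.mp hi
      obtain ⟨j, _, rfl⟩ := Finset.mem_image.mp hx
      exact ⟨j, hx'⟩
    choose! j hj using h2
    refine Finset.card_le_card_of_injOn (fun i => e (i, j i)) ?_ ?_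
    · intro i hi
      exact hj i (Finset.mem_filter.mp hi).2
    · intro i _ k _ h
      exact (Prod.mk.inj (e.injective h)).1
  by_contra hcon
  have h3 : ∀ i, D.card ≤ 3 * (D.filter fun y => ¬ Disjoint (F i) (S y)).card := fun i =>
    not_lt.mp fun h => hcon ⟨F i, hF i, h⟩
  have h4 : ∑ i, (D.filter fun y => ¬ Disjoint (F i) (S y)).card =
      ∑ y ∈ D, (Finset.univ.filter fun i => ¬ Disjoint (F i) (S y)).card := by
    simp only [Finset.card_filter]
    exact Finset.sum_comm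
  have h5 : ∑ y ∈ D, (Finset.univ.filter fun i => ¬ Disjoint (F i) (S y)).card ≤ D.card * b := by
    simpa using Finset.sum_le_card_nsmul D _ b h1
  have h6 : (3 * b + 1) * D.card ≤ 3 * ∑ i, (D.filter fun y => ¬ Disjoint (F i) (S y)).card := by
    rw [Finset.mul_sum]
    simpa using Finset.sum_le_sum fun i (_ : i ∈ Finset.univ) => h3 i
  have h7 := hD.card_pos
  rw [h4] at h6
  nlinarith

theorem three (F : Finset κ) (h : 3 ≤ F.card) : ∃ π ∈ altOn F, π.IsThreeCycle := by
  obtain ⟨a, b, c, ha, hb, hc, ab, ac, bc⟩ := Finset.two_lt_card_iff.mp h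
  exact ⟨_, alt3_altOn F a ha b hb c hc ab ac bc, Perm.isThreeCycle_swap_mul_swap_same ab ac bc⟩

theorem altOn_mono {F T : Finset κ} (h : F ⊆ T) : altOn F ≤ altOn T :=
  fun _ hπ => ⟨hπ.1, fun x hx => hπ.2 x fun hx' => hx (h hx')⟩

theorem few {M Ω : Type} [Group M] [Finite M] [MulAction M Ω] [DecidableEq Ω]
    (ψ : M →* Perm κ) {L : ℕ}
    (c : 100 * (L + 1) ≤ Fintype.card κ) (hr : ψ.range = alternatingGroup κ)
    (hn : Group.IsNilpotent ψ.ker) (D : Finset Ω) (hD : ∀ g : M, ∀ x ∈ D, g • x ∈ D)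
    (hc : D.card ≤ 2 ^ L) (h0 : D.Nonempty) :
    ∃ g : M, (ψ g).IsThreeCycle ∧ 3 * (D.filter fun x => g • x ≠ x).card < D.card := by
  have h1 := fun y (hy : y ∈ D) => core ψ c hr hn D hD hc hy
  choose! S hS hg using h1
  obtain ⟨F, hF, hb⟩ := pick D h0 S hS (by omega)
  have hB : commutator (alternatingGroup {x // x ∈ F}) = ⊤ :=
    commutator_alternatingGroup_eq_top (by simp [hF])
  have ht : (⊤ : Subgroup ((altOn F).comap ψ)).map (th ψ F) = ⊤ := by
    rw [th_top]
    intro π hπ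
    have h2 : π ∈ ψ.range := by rw [hr]; exact hπ.1
    obtain ⟨g, e⟩ := h2
    exact ⟨⟨g, by rw [Subgroup.mem_comap, e]; exact hπ⟩, Subgroup.mem_top _, e⟩
  obtain ⟨E, -, hE, hle⟩ := inter (th ψ F) hB ht
    (fun y : Ω => (MulAction.stabilizer ((altOn F).comap ψ) y).normalCore)
    (fun _ => inferInstance) (D.filter fun y => Disjoint F (S y)) (by
      intro y hy
      obtain ⟨hy, hd⟩ := Finset.mem_filter.mp hy
      have h2 : altOn F ≤ altOn (S y)ᶜ := altOn_mono fun x hx =>
        Finset.mem_compl.mpr (Finset.disjoint_left.mp hd hx)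
      rw [th_top]
      intro π hπ
      obtain ⟨g, e, h3⟩ := hg y hy π (h2 hπ)
      exact ⟨⟨g, by rw [Subgroup.mem_comap, e]; exact hπ⟩, fun p => h3 p.1 (h2 p.2), e⟩)
  obtain ⟨π, hπ, h3⟩ := three F (by omega)
  obtain ⟨g, hgE, e⟩ := (th_top ψ F E).mp hE π hπ
  refine ⟨g.1, e ▸ h3, lt_of_le_of_lt (Nat.mul_le_mul_left 3 (Finset.card_le_card ?_)) hb⟩
  intro y hy
  obtain ⟨hy, hm⟩ := Finset.mem_filter.mp hy
  refine Finset.mem_filter.mpr ⟨hy, fun hd => hm ?_⟩
  exact Subgroup.normalCore_le _ (hle y (Finset.mem_filter.mpr ⟨hy, hd⟩) hgE)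

end UORBx

/- Take a minimal subgroup M of G with image the alternating group; N = M ⊓ ker lies in the Frattini subgroup of M (frattini_nongenerating or maximal subgroups), so it is nilpotent (frattini_nilpotent). For y in D the image of the stabiliser M_y has index at most 2 ^ (L + 1) in Perm κ, jl gives S y with at most 4 L + 6 points and altOn (S y)ᶜ inside that image. nil_core for P = M ⊓ preimage of altOn (S y)ᶜ and J = P_y: the core of J maps onto altOn (S y)ᶜ. Cut κ into more than 3 (4 L + 6) disjoint sets F of 5 points; one F meets S y for less than a third of the y. In Q = M ⊓ preimage of altOn F each good y gives a normal subgroup (the core in Q of Q_y) that maps onto altOn F; the intersection of normal subgroups that map onto a perfect group maps onto it (commutators). This gives g over a cycle of length three that fixes all good y. Finish with comm_trick. -/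
theorem unaff_orbit {G Ω : Type} [Group G] [Finite G] [MulAction G Ω] [DecidableEq Ω]
    (φ : G →* Perm κ) {L : ℕ} (c : 100 * (L + 1) ≤ Fintype.card κ)
    (hr : φ.range = alternatingGroup κ) (D : Finset Ω) (hD : InvF (⊤ : Subgroup G) D)
    (hc : D.card ≤ 2 ^ L) (ht : ∀ x ∈ D, ∀ y ∈ D, ∃ k ∈ φ.ker, k • x = y) :
    ∃ g : G, (φ g).IsThreeCycle ∧ ∀ x ∈ D, g • x = x := by
  rcases D.eq_empty_or_nonempty with rfl | h0
  · obtain ⟨π, hπ, h3⟩ := UORBx.three (Finset.univ : Finset κ) (by rw [Finset.card_univ]; omega)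
    have h2 : π ∈ φ.range := by rw [hr]; exact hπ.1
    obtain ⟨g, e⟩ := h2
    exact ⟨g, e ▸ h3, by simp⟩
  obtain ⟨M, hM, hn⟩ := UORBx.exists_min φ
  obtain ⟨g, h3, hg⟩ := UORBx.few (φ.comp M.subtype) c (hM.trans hr) hn D
    (fun g x hx => hD g.1 (Subgroup.mem_top _) x hx) hc h0
  exact comm_trick φ (by omega) hr.ge D hD ht (g := g.1) h3 hg

end Pool.Agent.P.MP_f1a348_lc.GX
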