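import Pool.Agent.P.MP_f1a348_lc.GX.Base
import Pool.Agent.P.MP_f1a348_lc.GX.TALTE
import Pool.Agent.P.MP_f1a348_lc.GX.TUORB

/-! Step UNAF. -/

set_option autoImplicit false
set_option linter.unusedSectionVars false

namespace Pool.Agent.P.MP_f1a348_lc.GX

open Equiv
variable {κ : Type} [Fintype κ] [DecidableEq κ]

namespace UNAFx

/-- the pointwise stabiliser of a finite set -/
def fx (H : Type) {Ω : Type} [Group H] [MulAction H Ω] (D : Finset Ω) : Subgroup H where
  carrier := {g | ∀ x ∈ D, g • x = x}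
  mul_mem' := fun {a b} ha hb x hx => by rw [mul_smul, hb x hx, ha x hx]
  one_mem' := fun x _ => one_smul _ x
  inv_mem' := fun {a} ha x hx => by rw [inv_smul_eq_iff, ha x hx]

theorem fx_normal {H Ω : Type} [Group H] [MulAction H Ω] {D : Finset Ω}
    (hD : InvF (⊤ : Subgroup H) D) : (fx H D).Normal :=
  ⟨fun n hn g x hx => by
    rw [mul_smul, mul_smul, hn _ (hD g⁻¹ trivial x hx), smul_inv_smul]⟩

theorem inf_full {H : Type} [Group H] (φ : H →* Perm κ) (c : 5 ≤ Fintype.card κ)
    (A B : Subgroup H) [A.Normal] [B.Normal] (hA : alternatingGroup κ ≤ A.map φ)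
    (hB : alternatingGroup κ ≤ B.map φ) : alternatingGroup κ ≤ (A ⊓ B).map φ := by
  refine le_trans ?_ (Subgroup.map_mono (Subgroup.commutator_le_inf A B))
  have h := commutator_alternatingGroup_eq_self (α := κ) (by simpa using c)
  rw [Subgroup.map_commutator]
  exact h.symm.le.trans (Subgroup.commutator_mono hA hB)

theorem core {H Ω : Type} [Group H] [Finite H] [MulAction H Ω] [DecidableEq Ω]
    (φ : H →* Perm κ) {L : ℕ} (c : 100 * (L + 1) ≤ Fintype.card κ)
    (hr : φ.range = alternatingGroup κ) (W : Finset Ω) (hW : InvF (⊤ : Subgroup H) W)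
    (hc : W.card ≤ 2 ^ L)
    (hu : ∀ w ∈ W, ∀ g : H, ∃ s : H, φ s = φ g ∧ s • w = w) :
    alternatingGroup κ ≤ (fx H W).map φ := by
  classical
  have c5 : 5 ≤ Fintype.card κ := by omega
  have one : ∀ w ∈ W, ∃ K : Subgroup H, K.Normal ∧ alternatingGroup κ ≤ K.map φ ∧
      ∀ g ∈ K, g • w = w := by
    intro w hw
    have hD : InvF (⊤ : Subgroup H) (W.filter fun y => ∃ g : H, g • w = y) := by
      intro g _ x hx
      obtain ⟨h1, k, hk⟩ := Finset.mem_filter.1 hx
      exact Finset.mem_filter.2 ⟨hW g trivial x h1, g * k, by rw [mul_smul, hk]⟩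
    obtain ⟨g, h3, hg⟩ := unaff_orbit φ c hr _ hD ((Finset.card_filter_le _ _).trans hc) (by
      intro x hx y hy
      obtain ⟨h1, k, hk⟩ := Finset.mem_filter.1 hx
      obtain ⟨-, k', hk'⟩ := Finset.mem_filter.1 hy
      obtain ⟨s, hs, hsx⟩ := hu x h1 (k' * k⁻¹)
      refine ⟨k' * k⁻¹ * s⁻¹, ?_, ?_⟩
      · rw [MonoidHom.mem_ker, map_mul, map_inv, hs, mul_inv_cancel]
      · rw [mul_smul, inv_smul_eq_iff.2 hsx.symm, ← hk, mul_smul, inv_smul_smul, hk'])
    refine ⟨fx H _, fx_normal hD, ?_, fun k hk => hk w (Finset.mem_filter.2 ⟨hw, 1, one_smul _ _⟩)⟩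
    refine alt_le_of_three c5 ?_ ⟨g, hg, rfl⟩ h3
    rintro π hπ _ ⟨k, hk, rfl⟩
    rw [← hr] at hπ
    obtain ⟨p, rfl⟩ := hπ
    exact ⟨p * k * p⁻¹, (fx_normal hD).conj_mem k hk p, by rw [map_mul, map_mul, map_inv]⟩
  have all : ∀ S : Finset Ω, S ⊆ W → ∃ K : Subgroup H, K.Normal ∧ alternatingGroup κ ≤ K.map φ ∧
      ∀ g ∈ K, ∀ w ∈ S, g • w = w := by
    intro S
    induction S using Finset.induction_on with
    | empty =>
      intro _
      exact ⟨⊤, inferInstance, by rw [← MonoidHom.range_eq_map, hr], by simp⟩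
    | insert a S _ ih =>
      intro h
      obtain ⟨A, hA, hA2, hA3⟩ := one a (h (Finset.mem_insert_self _ _))
      obtain ⟨B, hB, hB2, hB3⟩ := ih ((Finset.subset_insert _ _).trans h)
      refine ⟨A ⊓ B, inferInstance, inf_full φ c5 A B hA2 hB2, fun g hg w hw => ?_⟩
      rcases Finset.mem_insert.1 hw with rfl | hw
      · exact hA3 g hg.1
      · exact hB3 g hg.2 w hw
  obtain ⟨K, -, h2, h3⟩ := all W subset_rfl
  exact h2.trans (Subgroup.map_mono fun g hg => h3 g hg)

end UNAFx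

/- Pass to G0, the preimage of the alternating group. For w in W the kernel is transitive on the G0-orbit D of w (the stabiliser maps onto the alternating group). The pointwise stabiliser of D is normal in G0, its image contains a cycle of length three (unaff_orbit), so everything (alt_le_of_three). Intersect over the orbits: two normal subgroups with full image have a commutator subgroup with full image. -/
theorem unaff {G Ω : Type} [Group G] [Finite G] [MulAction G Ω] [DecidableEq Ω]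
    (φ : G →* Perm κ) {L : ℕ} (c : 100 * (L + 1) ≤ Fintype.card κ)
    (hr : alternatingGroup κ ≤ φ.range) (W : Finset Ω) (hW : InvF (⊤ : Subgroup G) W)
    (hc : W.card ≤ 2 ^ L)
    (hu : ∀ w ∈ W, ∀ π ∈ alternatingGroup κ, ∃ g : G, φ g = π ∧ g • w = w) :
    ∀ π ∈ alternatingGroup κ, ∃ g : G, φ g = π ∧ ∀ w ∈ W, g • w = w := by
  intro π hπ
  have h := UNAFx.core (φ.comp ((alternatingGroup κ).comap φ).subtype) c (by
      apply le_antisymm
      · rintro _ ⟨g, rfl⟩
        exact g.2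
      · intro σ hσ
        obtain ⟨g, rfl⟩ := hr hσ
        exact ⟨⟨g, hσ⟩, rfl⟩) W (fun g _ x hx => hW g.1 trivial x hx) hc (by
      intro w hw g
      obtain ⟨s, hs, hsw⟩ := hu w hw (φ g.1) g.2
      exact ⟨⟨s, by rw [Subgroup.mem_comap, hs]; exact g.2⟩, hs, hsw⟩) hπ
  obtain ⟨g, hg, rfl⟩ := h
  exact ⟨g.1, rfl, hg⟩

end Pool.Agent.P.MP_f1a348_lc.GX
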