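import Pool.Agent.P.MP_f1a348_lc.GX.Base
import Pool.Agent.P.MP_f1a348_lc.GX.TALTE
import Pool.Agent.P.MP_f1a348_lc.GX.TUNAF

/-! Step UNAT. -/

set_option autoImplicit false
set_option linter.unusedSectionVars false

namespace Pool.Agent.P.MP_f1a348_lc.GX

open Equiv
variable {κ : Type} [Fintype κ] [DecidableEq κ]

namespace UNATx

variable {G Ω : Type} [Group G] [MulAction G Ω] [DecidableEq Ω]

theorem val_three {O : Finset Ω} (a b c x : {x // x ∈ O}) :
    ((swap a b * swap a c) x).1 = (swap a.1 b.1 * swap a.1 c.1) x.1 := by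
  rw [Perm.mul_apply, Perm.mul_apply, Subtype.val_injective.map_swap,
    Subtype.val_injective.map_swap]

/-- the permutations of `O` induced by `H` -/
def ind (H : Subgroup G) (O : Finset Ω) : Subgroup (Perm {x // x ∈ O}) where
  carrier := {π | ∃ g ∈ H, ∀ x : {x // x ∈ O}, g • x.1 = (π x).1}
  mul_mem' := fun ⟨g, hg, e⟩ ⟨g', hg', e'⟩ =>
    ⟨g * g', H.mul_mem hg hg', fun x => by rw [mul_smul, e', e, Perm.mul_apply]⟩
  one_mem' := ⟨1, H.one_mem, fun x => one_smul _ _⟩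
  inv_mem' := fun {π} ⟨g, hg, e⟩ =>
    ⟨g⁻¹, H.inv_mem hg, fun x => by rw [inv_smul_eq_iff, e, Perm.coe_inv, apply_symm_apply]⟩

theorem even {H : Subgroup G} {O : Finset Ω} (h : Giant H O) (π : Perm {x // x ∈ O})
    (hπ : π ∈ alternatingGroup _) : ∃ g ∈ H, ∀ x : {x // x ∈ O}, g • x.1 = (π x).1 :=
  (alt3_univ (H := ind H O)).1 (fun a _ b _ c _ h1 h2 h3 => by
    obtain ⟨g, hg, e⟩ := h a.1 a.2 b.1 b.2 c.1 c.2 (Subtype.val_injective.ne h1)
      (Subtype.val_injective.ne h2) (Subtype.val_injective.ne h3)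
    exact ⟨g, hg, fun x => by rw [e x.1 x.2, val_three]⟩) hπ

/-- the action on an invariant set -/
def act (B : Subgroup G) (T : Finset Ω) (hT : InvF B T) : B →* Perm {x // x ∈ T} :=
  MonoidHom.toHomPerm
    { toFun := fun g x => ⟨g.1 • x.1, hT _ g.2 _ x.2⟩
      map_one' := funext fun _ => Subtype.ext (one_smul _ _)
      map_mul' := fun _ _ => funext fun _ => Subtype.ext (mul_smul _ _ _) }

end UNATx

open UNATx in
/- unaff for the action of the finite group B on T (κ = the subtype of T, φ = the induced permutation). -/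
theorem unaff_set {G Ω : Type} [Group G] [MulAction G Ω] [DecidableEq Ω] (B : Subgroup G)
    [Finite B] {L : ℕ} (T W : Finset Ω) (c : 100 * (L + 1) ≤ T.card) (hT : InvF B T)
    (hW : InvF B W) (hc : W.card ≤ 2 ^ L) (hr : Giant B T)
    (hu : ∀ w ∈ W, Giant (B ⊓ MulAction.stabilizer G w) T) :
    Giant (B ⊓ ⨅ w ∈ W, MulAction.stabilizer G w) T := by
  intro a ha b hb d hd h1 h2 h3
  obtain ⟨g, e, hg⟩ := unaff (act B T hT) (L := L) (by simpa using c)
    (fun π hπ => by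
      obtain ⟨g, hg, e⟩ := even hr π hπ
      exact ⟨⟨g, hg⟩, Equiv.ext fun x => Subtype.ext (e x)⟩) W (fun g _ => hW g.1 g.2) hc
    (fun w hw π hπ => by
      obtain ⟨g, hg, e⟩ := even (hu w hw) π hπ
      exact ⟨⟨g, hg.1⟩, Equiv.ext fun x => Subtype.ext (e x), hg.2⟩)
    (swap ⟨a, ha⟩ ⟨b, hb⟩ * swap ⟨a, ha⟩ ⟨d, hd⟩)
    (Perm.mem_alternatingGroup.2 (by
      rw [map_mul, Perm.sign_swap (by simpa using h1), Perm.sign_swap (by simpa using h2)]
      simp))
  refine ⟨g.1, Subgroup.mem_inf.2 ⟨g.2, ?_⟩, fun x hx => ?_⟩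
  · simp only [Subgroup.mem_iInf, MulAction.mem_stabilizer_iff]
    exact hg
  · rw [← val_three ⟨a, ha⟩ ⟨b, hb⟩ ⟨d, hd⟩ ⟨x, hx⟩, ← e]
    rfl

/- Every even permutation of O is induced. -/
theorem Giant.even {G Ω : Type} [Group G] [MulAction G Ω] [DecidableEq Ω] {H : Subgroup G}
    {O : Finset Ω} (hO : InvF H O) (h : Giant H O) (π : Perm {x // x ∈ O})
    (hπ : Perm.sign π = 1) : ∃ g ∈ H, ∀ x : {x // x ∈ O}, g • x.1 = (π x).1 := by
  exact UNATx.even h π hπ

end Pool.Agent.P.MP_f1a348_lc.GX
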