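import Pool.Agent.P.MP_f1a348_lc.GX.LibGrp
import Pool.Agent.P.MP_f1a348_lc.GX.TUNAT

/-! Graph isomorphism: bijections that keep keys, and bijections induced by an incidence. -/

set_option autoImplicit false
set_option linter.unusedSectionVars false

namespace Pool.Agent.P.MP_f1a348_lc.GX

open Pool.Agent.Lib.Helper47 Pool.Agent.P.MP_f1a348_lc.GI Pool.Agent.P.MP_f1a348_lc.TO

variable {Ω κ μ : Type} [DecidableEq Ω] [DecidableEq κ] [DecidableEq μ]

/-! ### keys -/

/-- the partner of `a` -/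
def mtch (A B : List Ω) (ka kb : Ω → κ) (a : Ω) : Ω :=
  (B.filter fun b => kb b == ka a).getD ((A.filter fun b => ka b == ka a).idxOf a) a

/-- a bijection from `A` to `B` that keeps the keys, if there is one -/
def matchBy (A B : List Ω) (ka kb : Ω → κ) : FP Ω := FP.ofList (A.map fun a => (a, mtch A B ka kb a))

/-- the transpositions of points with the same key -/
def swaps (A : List Ω) (k : Ω → κ) : List (FP Ω) :=
  A.flatMap fun a => (A.filter fun b => k b == k a).map fun b => FP.swap a b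

/-- `f` maps `A` into `B` and keeps the keys -/
def KeyMap (A B : List Ω) (ka kb : Ω → κ) (f : Ω → Ω) : Prop := ∀ a ∈ A, f a ∈ B ∧ kb (f a) = ka a

theorem filter_le_of_keyMap {A B : List Ω} {ka kb : Ω → κ} (hA : A.Nodup) {f : Ω → Ω}
    (hf : ∀ a ∈ A, ∀ b ∈ A, f a = f b → a = b) (h : KeyMap A B ka kb f) (k : κ) :
    (A.filter fun b => ka b == k).length ≤ (B.filter fun b => kb b == k).length := by
  rw [← List.length_map f]
  refine List.Subperm.length_le (List.subperm_of_subset ?_ fun y hy => ?_)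
  · exact (hA.filter _).map_on fun a ha b hb =>
      hf a (List.mem_filter.1 ha).1 b (List.mem_filter.1 hb).1
  · obtain ⟨a, ha, rfl⟩ := List.mem_map.1 hy
    obtain ⟨h1, h2⟩ := List.mem_filter.1 ha
    exact List.mem_filter.2 ⟨(h a h1).1, by rw [(h a h1).2]; exact h2⟩

theorem keyMap_matchBy {A B : List Ω} {ka kb : Ω → κ} (hB : B.Nodup)
    (h : ∀ k, (A.filter fun b => ka b == k).length ≤ (B.filter fun b => kb b == k).length) :
    KeyMap A B ka kb (matchBy A B ka kb).app := by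
  have h1 : ∀ a ∈ A, ∃ hi : (A.filter fun b => ka b == ka a).idxOf a <
      (B.filter fun b => kb b == ka a).length, mtch A B ka kb a =
        (B.filter fun b => kb b == ka a)[(A.filter fun b => ka b == ka a).idxOf a] := fun a ha => by
    have hi := lt_of_lt_of_le (List.idxOf_lt_length_of_mem
      (List.mem_filter.2 ⟨ha, by simp⟩ : a ∈ A.filter fun b => ka b == ka a)) (h (ka a))
    exact ⟨hi, List.getD_eq_getElem _ _ hi⟩
  have h2 : KeyMap A B ka kb (mtch A B ka kb) := fun a ha => by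
    obtain ⟨hi, e⟩ := h1 a ha
    have := List.mem_filter.1 (e ▸ List.getElem_mem hi)
    exact ⟨this.1, by simpa using this.2⟩
  intro a ha
  rw [matchBy, FP.ofList_map (fun x hx y hy e => ?_) ha]
  · exact h2 a ha
  have k1 : ka x = ka y := by rw [← (h2 x hx).2, e, (h2 y hy).2]
  obtain ⟨i1, e1⟩ := h1 x hx
  obtain ⟨i2, e2⟩ := h1 y hy
  rw [e1, e2] at e
  simp only [k1] at e i1
  have := ((hB.filter _).getElem_inj_iff).1 e
  exact (List.idxOf_inj (List.mem_filter.2 ⟨hx, by simp [k1]⟩)).1 this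

theorem keyMap_matchBy' {A B : List Ω} {ka kb : Ω → κ} (hA : A.Nodup) (hB : B.Nodup) {f : Ω → Ω}
    (hf : ∀ a ∈ A, ∀ b ∈ A, f a = f b → a = b) (h : KeyMap A B ka kb f) :
    KeyMap A B ka kb (matchBy A B ka kb).app := keyMap_matchBy hB (filter_le_of_keyMap hA hf h)

theorem matchBy_fix {A B : List Ω} {ka kb : Ω → κ} {x : Ω} (h1 : x ∉ A) (h2 : x ∉ B) :
    (matchBy A B ka kb).app x = x := by
  refine FP.ofList_fix fun p hp => ?_
  obtain ⟨a, ha, rfl⟩ := List.mem_map.1 hp
  refine ⟨fun e => h1 (e ▸ ha), fun e => ?_⟩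
  simp only [mtch, List.getD_eq_getElem?_getD] at e
  cases h : (B.filter fun b => kb b == ka a)[(A.filter fun b => ka b == ka a).idxOf a]? with
  | none => rw [h] at e; exact h1 (e ▸ ha)
  | some b => rw [h] at e; exact h2 (e ▸ (List.mem_filter.1 (List.mem_of_getElem? h)).1)

/-- an injective map of `A` into a list that is not longer is onto -/
theorem onto_of_le {A B : List Ω} (hA : A.Nodup) (hl : B.length ≤ A.length) {f : Ω → Ω}
    (hf : ∀ a ∈ A, ∀ b ∈ A, f a = f b → a = b) (h : ∀ a ∈ A, f a ∈ B) {b : Ω} (hb : b ∈ B) :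
    ∃ a ∈ A, f a = b := by
  have h1 : (A.map f).Subperm B := List.subperm_of_subset (hA.map_on hf) fun y hy => by
    obtain ⟨a, ha, rfl⟩ := List.mem_map.1 hy
    exact h a ha
  exact List.mem_map.1 ((h1.perm_of_length_le (by simpa using hl)).mem_iff.2 hb)

/-- the permutations that keep `A` and the keys on it -/
def keyGrp (A : List Ω) (k : Ω → κ) : Subgroup (FP Ω) where
  carrier := {π | (∀ a, π.app a ∈ A ↔ a ∈ A) ∧ ∀ a ∈ A, k (π.app a) = k a}
  one_mem' := ⟨fun _ => Iff.rfl, fun _ _ => rfl⟩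
  mul_mem' := fun {π ρ} h h' => ⟨fun a => by rw [FP.app_mul, h.1, h'.1], fun a ha => by
    rw [FP.app_mul, h.2 _ ((h'.1 a).2 ha), h'.2 a ha]⟩
  inv_mem' := fun {π} h => ⟨fun a => by rw [← h.1, FP.app_app_inv], fun a ha => by
    rw [← h.2 _ (by rw [← h.1, FP.app_app_inv]; exact ha), FP.app_app_inv]⟩

theorem mem_swaps {A : List Ω} {k : Ω → κ} {π : FP Ω} :
    π ∈ swaps A k ↔ ∃ a ∈ A, ∃ b ∈ A, k b = k a ∧ π = FP.swap a b := by
  simp only [swaps, List.mem_flatMap, List.mem_map, List.mem_filter, beq_iff_eq]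
  exact ⟨fun ⟨a, h1, b, ⟨h2, h3⟩, h4⟩ => ⟨a, h1, b, h2, h3, h4.symm⟩,
    fun ⟨a, h1, b, h2, h3, h4⟩ => ⟨a, h1, b, ⟨h2, h3⟩, h4.symm⟩⟩

theorem swaps_le (A : List Ω) (k : Ω → κ) : gen (swaps A k) ≤ keyGrp A k := gen_le.2 fun π hπ => by
  obtain ⟨a, h1, b, h2, h3, rfl⟩ := mem_swaps.1 hπ
  refine ⟨fun x => ?_, fun x _ => ?_⟩ <;> rw [FP.app_swap, Equiv.swap_apply_def] <;>
    split_ifs <;> simp_all

theorem KeyMap.of_keyGrp {A : List Ω} {k : Ω → κ} {π : FP Ω} (h : π ∈ keyGrp A k) :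
    KeyMap A A k k π.app := fun a ha => ⟨(h.1 a).2 ha, h.2 a ha⟩

/-- every injective map of `A` that keeps the keys is a product of transpositions -/
theorem exists_swaps {A : List Ω} {k : Ω → κ} {f : Ω → Ω}
    (hf : ∀ a ∈ A, ∀ b ∈ A, f a = f b → a = b) (h : KeyMap A A k k f) :
    ∃ π ∈ gen (swaps A k), ∀ a ∈ A, π.app a = f a := by
  refine ⟨FP.ofList (A.map fun a => (a, f a)), ?_, fun a ha => FP.ofList_map hf ha⟩
  suffices ∀ l : List Ω, (∀ a ∈ l, a ∈ A) →
      FP.ofList (l.map fun a => (a, f a)) ∈ gen (swaps A k) from this A fun _ h => h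
  intro l
  induction l using List.reverseRecOn with
  | nil => exact fun _ => one_mem _
  | append_singleton l a ih =>
    intro hl
    have i1 := ih fun b hb => hl b (by simp [hb])
    have ha := hl a (by simp)
    have i2 := KeyMap.of_keyGrp (swaps_le A k i1) a ha
    rw [List.map_append, FP.ofList, List.foldl_append]
    exact mul_mem (mem_gen (mem_swaps.2 ⟨_, i2.1, _, (h a ha).1, (h a ha).2.trans i2.2.symm, rfl⟩)) i1

/-- the bijections from `A` to `B` that keep the keys -/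
def keyC (A B : List Ω) (ka kb : Ω → κ) : FP Ω × List (FP Ω) := (matchBy A B ka kb, swaps A ka)

theorem keyC_complete {A B : List Ω} {ka kb : Ω → κ} (hA : A.Nodup) (hB : B.Nodup)
    (hl : B.length ≤ A.length) {f : Ω → Ω} (hf : ∀ a ∈ A, ∀ b ∈ A, f a = f b → a = b)
    (h : KeyMap A B ka kb f) : ∃ π ∈ cs (some (keyC A B ka kb)), ∀ a ∈ A, π • a = f a := by
  have h1 := keyMap_matchBy' hA hB hf h
  have h2 : KeyMap A A ka ka fun a => (matchBy A B ka kb)⁻¹.app (f a) := fun a ha => by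
    obtain ⟨a', c1, c2⟩ := onto_of_le hA hl (fun _ _ _ _ e => (matchBy A B ka kb).app_injective e)
      (fun a ha => (h1 a ha).1) (h a ha).1
    simp only [← c2, FP.app_inv_app]
    exact ⟨c1, by rw [← (h1 a' c1).2, c2, (h a ha).2]⟩
  obtain ⟨π, c1, c2⟩ := exists_swaps (fun a ha b hb e => hf a ha b hb (FP.app_injective _ e)) h2
  exact ⟨matchBy A B ka kb * π, mem_cs.2 (by simpa using c1), fun a ha => by
    rw [FP.smul_def, FP.app_mul, c2 a ha, FP.app_app_inv]⟩

/-! ### incidences -/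

variable [Enc κ]

/-- the image of the neighbourhood of `a` under `ψ` -/
noncomputable def nbK (ψ : FP κ) (n : Ω → List κ) (a : Ω) : List κ := srt ((n a).map ψ.app).toFinset

/-- `f` maps `A` to `B` and the neighbourhoods by `ψ` -/
def Ind (A B : List Ω) (na nb : Ω → List κ) (ψ : κ → κ) (f : Ω → Ω) : Prop :=
  ∀ a ∈ A, f a ∈ B ∧ (nb (f a)).toFinset = (na a).toFinset.image ψ

theorem ind_iff {A B : List Ω} {na nb : Ω → List κ} {ψ : FP κ} {f : Ω → Ω} :
    KeyMap A B (nbK ψ na) (nbK 1 nb) f ↔ Ind A B na nb ψ.app f := by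
  refine forall₂_congr fun a _ => and_congr_right fun _ => ?_
  have e : ∀ s t : Finset κ, srt s = srt t ↔ s = t := fun s t =>
    ⟨fun h => Finset.ext fun x => by rw [← mem_srt, h, mem_srt], fun h => h ▸ rfl⟩
  unfold nbK
  rw [e, FP.app_one', List.map_id]
  refine Eq.congr_right ?_
  ext x
  simp

/-- generators of the permutations of `A` induced by permutations of `C` that keep colours -/
noncomputable def incT (A : List Ω) (n : Ω → List κ) (C : List κ) (c : κ → μ) : List (FP Ω) :=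
  swaps A (nbK 1 n) ++ (swaps C c).map fun ψ => matchBy A A (nbK ψ n) (nbK 1 n)

/-- the bijections from `A` to `B` induced by bijections from `C` to `D` that keep colours -/
noncomputable def incC (A B : List Ω) (na nb : Ω → List κ) (C D : List κ) (c d : κ → μ) :
    FP Ω × List (FP Ω) :=
  (matchBy A B (nbK (matchBy C D c d) na) (nbK 1 nb), incT A na C c)

/-- every transposition of two points of `C` of the same colour is induced on `A` -/
def Sym (A : List Ω) (n : Ω → List κ) (C : List κ) (c : κ → μ) : Prop :=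
  ∀ v ∈ C, ∀ w ∈ C, c w = c v → ∃ f : Ω → Ω, (∀ a ∈ A, ∀ b ∈ A, f a = f b → a = b) ∧
    Ind A A n n (Equiv.swap v w) f

/-- the permutations of `A` induced by the elements of `V` -/
def indGrp (A : List Ω) (n : Ω → List κ) (V : Subgroup (FP κ)) : Subgroup (FP Ω) where
  carrier := {π | (∀ a, π.app a ∈ A ↔ a ∈ A) ∧ ∃ ψ ∈ V, Ind A A n n ψ.app π.app}
  one_mem' := ⟨fun _ => Iff.rfl, 1, one_mem _, fun a ha => ⟨ha, by simp [FP.app_one']⟩⟩
  mul_mem' := fun {π ρ} ⟨h1, ψ, h2, h3⟩ ⟨k1, χ, k2, k3⟩ =>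
    ⟨fun a => by rw [FP.app_mul, h1, k1], ψ * χ, mul_mem h2 k2, fun a ha => by
      have c1 := k3 a ha
      have c2 := h3 _ c1.1
      refine ⟨c2.1, ?_⟩
      rw [FP.app_mul, c2.2, c1.2, Finset.image_image]
      rfl⟩
  inv_mem' := fun {π} ⟨h1, ψ, h2, h3⟩ =>
    ⟨fun a => by rw [← h1, FP.app_app_inv], ψ⁻¹, inv_mem h2, fun a ha => by
      have c0 : π⁻¹.app a ∈ A := by rw [← h1, FP.app_app_inv]; exact ha
      have c1 := (h3 _ c0).2
      rw [FP.app_app_inv] at c1
      refine ⟨c0, ?_⟩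
      rw [c1, Finset.image_image]
      ext x
      simp⟩

theorem app_mem_iff {A : List Ω} (hA : A.Nodup) {π : FP Ω} (h : ∀ a ∈ A, π.app a ∈ A) (a : Ω) :
    π.app a ∈ A ↔ a ∈ A := ⟨fun e => by
  obtain ⟨b, c1, c2⟩ := onto_of_le hA le_rfl (fun _ _ _ _ e => π.app_injective e) h e
  exact π.app_injective c2 ▸ c1, h a⟩

theorem Sym.ind {A : List Ω} {n : Ω → List κ} {C : List κ} {c : κ → μ} (hA : A.Nodup)
    (h : Sym A n C c) {ψ : FP κ} (hψ : ψ ∈ swaps C c) :
    Ind A A n n ψ.app (matchBy A A (nbK ψ n) (nbK 1 n)).app := by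
  obtain ⟨v, h1, w, h2, h3, rfl⟩ := mem_swaps.1 hψ
  obtain ⟨f, f1, f2⟩ := h v h1 w h2 h3
  exact ind_iff.1 (keyMap_matchBy' hA hA f1 (ind_iff.2 f2))

/-- soundness: the generators are induced by permutations of `C` that keep the colours -/
theorem incT_le {A : List Ω} {n : Ω → List κ} {C : List κ} {c : κ → μ} (hA : A.Nodup)
    (h : Sym A n C c) : gen (incT A n C c) ≤ indGrp A n (keyGrp C c) := gen_le.2 fun π hπ => by
  rcases List.mem_append.1 hπ with hπ | hπ
  · have := swaps_le _ _ (mem_gen hπ)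
    exact ⟨this.1, 1, one_mem _, ind_iff.1 (KeyMap.of_keyGrp this)⟩
  · obtain ⟨ψ, h1, rfl⟩ := List.mem_map.1 hπ
    have := h.ind hA h1
    exact ⟨app_mem_iff hA fun a ha => (this a ha).1, ψ, swaps_le _ _ (mem_gen h1), this⟩

theorem incT_inv {A : List Ω} {n : Ω → List κ} {C : List κ} {c : κ → μ} (hA : A.Nodup)
    (h : Sym A n C c) : InvL (gen (incT A n C c)) A := fun _ hu a ha =>
  ((incT_le hA h hu).1 a).2 ha

theorem Sym.lift {A : List Ω} {n : Ω → List κ} {C : List κ} {c : κ → μ} (hA : A.Nodup)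
    (h : Sym A n C c) {ψ : FP κ} (hψ : ψ ∈ gen (swaps C c)) :
    ∃ ρ ∈ gen (incT A n C c), Ind A A n n ψ.app ρ.app := by
  induction hψ using Subgroup.closure_induction with
  | mem x hx => exact ⟨_, mem_gen (List.mem_append_right _ (List.mem_map_of_mem hx)), h.ind hA hx⟩
  | one => exact ⟨1, one_mem _, fun a ha => ⟨ha, by simp [FP.app_one']⟩⟩
  | mul x y _ _ i1 i2 =>
    obtain ⟨ρ, a1, a2⟩ := i1
    obtain ⟨τ, b1, b2⟩ := i2
    refine ⟨ρ * τ, mul_mem a1 b1, fun a ha => ?_⟩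
    have c1 := b2 a ha
    have c2 := a2 _ c1.1
    refine ⟨c2.1, ?_⟩
    rw [FP.app_mul, c2.2, c1.2, Finset.image_image]
    rfl
  | inv x _ i =>
    obtain ⟨ρ, a1, a2⟩ := i
    refine ⟨ρ⁻¹, inv_mem a1, fun a ha => ?_⟩
    have c0 : ρ⁻¹.app a ∈ A := incT_inv hA h _ (inv_mem a1) a ha
    have c1 := (a2 _ c0).2
    rw [FP.app_app_inv] at c1
    refine ⟨c0, ?_⟩
    rw [c1, Finset.image_image]
    ext x
    simp

/-- completeness -/
theorem incC_complete {A B : List Ω} {na nb : Ω → List κ} {C D : List κ} {c d : κ → μ}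
    (hA : A.Nodup) (hB : B.Nodup) (hC : C.Nodup) (hD : D.Nodup) (l1 : B.length ≤ A.length)
    (l2 : D.length ≤ C.length) (hn : ∀ a ∈ A, ∀ v ∈ na a, v ∈ C) (h : Sym A na C c)
    {ψ : κ → κ} (hψ : ∀ a ∈ C, ∀ b ∈ C, ψ a = ψ b → a = b) (k1 : KeyMap C D c d ψ) {f : Ω → Ω}
    (hf : ∀ a ∈ A, ∀ b ∈ A, f a = f b → a = b) (k2 : Ind A B na nb ψ f) :
    ∃ π ∈ cs (some (incC A B na nb C D c d)), ∀ a ∈ A, π • a = f a := by
  obtain ⟨χ, a1, a2⟩ := keyC_complete hC hD l2 hψ k1
  have a3 : (matchBy C D c d)⁻¹ * χ ∈ gen (swaps C c) := mem_cs.1 a1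
  obtain ⟨ρ, b1, b2⟩ := h.lift hA a3
  have c0 : ∀ a ∈ A, ρ⁻¹.app a ∈ A := fun a ha => incT_inv hA h _ (inv_mem b1) a ha
  have c1 : Ind A B na nb (matchBy C D c d).app fun a => f (ρ⁻¹.app a) := fun a ha => by
    have d1 := k2 _ (c0 a ha)
    have d2 := (b2 _ (c0 a ha)).2
    rw [FP.app_app_inv] at d2
    refine ⟨d1.1, ?_⟩
    rw [d1.2, d2, Finset.image_image]
    refine Finset.image_congr fun v hv => ?_
    have := a2 v (hn _ (c0 a ha) v (by simpa using hv))
    simp only [Function.comp, FP.app_mul, FP.app_app_inv]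
    exact this.symm
  obtain ⟨π, e1, e2⟩ := keyC_complete hA hB l1 (fun a ha b hb e =>
    FP.app_injective _ (hf _ (c0 a ha) _ (c0 b hb) e)) (ind_iff.2 c1)
  have e3 := mem_cs.1 e1
  have e4 : swaps A (nbK (matchBy C D c d) na) = swaps A (nbK 1 na) := by
    have e : ∀ s t : Finset κ, srt s = srt t ↔ s = t := fun s t =>
      ⟨fun h => Finset.ext fun x => by rw [← mem_srt, h, mem_srt], fun h => h ▸ rfl⟩
    unfold swaps
    refine congrArg (fun g => A.flatMap g) (funext fun a => congrArg _ (List.filter_congr fun b _ => ?_))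
    have e' : ∀ (χ : FP κ) x, ((na x).map χ.app).toFinset = (na x).toFinset.image χ.app :=
      fun χ x => by ext y; simp
    rw [Bool.eq_iff_iff]
    simp only [beq_iff_eq]
    unfold nbK
    rw [e, e, e', e', e', e', (Finset.image_injective (FP.app_injective _)).eq_iff,
      (Finset.image_injective (FP.app_injective _)).eq_iff]
  refine ⟨π * ρ, mem_cs.2 ?_, fun a ha => ?_⟩
  · rw [← mul_assoc]
    exact mul_mem (gen_mono (fun y hy => List.mem_append_left _ (e4 ▸ hy)) e3) b1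
  · rw [mul_smul, e2 _ (incT_inv hA h _ b1 a ha), FP.smul_def, FP.app_inv_app]

/-! ### the index of the image of a giant -/

section idx
variable {G G' : Type} [Group G] [MulAction G Ω] [Group G'] [MulAction G' Ω]

theorem idx_of_giant {K : Subgroup G} {K' : Subgroup G'} {O : List Ω} (hO : InvL K O)
    (hO' : InvL K' O) (h : Giant K O.toFinset) : Idx (indBy K O hO : Subgroup G') K' 2 := by
  classical
  let φ : ∀ u : G', u ∈ K' → Equiv.Perm {x // x ∈ O.toFinset} := fun u hu =>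
    Equiv.Perm.subtypePerm (MulAction.toPerm u) fun x => by
      simpa using hO'.iff hu
  have := idx_of_map (V := (indBy K O hO : Subgroup G')) (K := K')
    (fun u => if hu : u ∈ K' then Equiv.Perm.sign (φ u hu) else 1) Finset.univ
    (fun _ _ => Finset.mem_univ _) (fun u hu v hv e => by
      simp only [dif_pos hu, dif_pos hv] at e
      obtain ⟨g, g1, g2⟩ := Giant.even (fun g hg x hx => by simpa using hO g hg x (by simpa using hx))
        h ((φ u hu)⁻¹ * φ v hv) (by rw [map_mul, map_inv, e, inv_mul_cancel])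
      refine ⟨g, g1, fun x hx => ?_⟩
      rw [g2 ⟨x, by simpa using hx⟩, mul_smul, eq_inv_smul_iff]
      have : φ u hu (((φ u hu)⁻¹ * φ v hv) ⟨x, by simpa using hx⟩) = φ v hv ⟨x, by simpa using hx⟩ := by
        simp
      exact congrArg Subtype.val this)
  simpa using this

end idx

/-! ### running time -/

section time
variable [Enc Ω] [Enc μ] {α : Type} [Enc α]

@[fun_prop] theorem pt_matchBy {A B : α → List Ω} {ka kb : α → Ω → μ} (h1 : PT A) (h2 : PT B)
    (h3 : PT fun p : α × Ω => ka p.1 p.2) (h4 : PT fun p : α × Ω => kb p.1 p.2) :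
    PT fun a => matchBy (A a) (B a) (ka a) (kb a) := by
  unfold matchBy mtch; fun_prop

@[fun_prop] theorem pt_swaps {A : α → List Ω} {k : α → Ω → μ} (h1 : PT A)
    (h3 : PT fun p : α × Ω => k p.1 p.2) : PT fun a => swaps (A a) (k a) := by
  unfold swaps; fun_prop

@[fun_prop] theorem pt_keyC {A B : α → List Ω} {ka kb : α → Ω → μ} (h1 : PT A) (h2 : PT B)
    (h3 : PT fun p : α × Ω => ka p.1 p.2) (h4 : PT fun p : α × Ω => kb p.1 p.2) :
    PT fun a => keyC (A a) (B a) (ka a) (kb a) := by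
  unfold keyC; fun_prop

@[fun_prop] theorem pt_srtL {l : α → List κ} (h : PT l) : PT fun a => srt (l a).toFinset :=
  pt_srt.comp h

@[fun_prop] theorem pt_nbK {ψ : α → FP κ} {n : α → Ω → List κ} {x : α → Ω} (h1 : PT ψ)
    (h2 : PT fun p : α × Ω => n p.1 p.2) (h3 : PT x) : PT fun a => nbK (ψ a) (n a) (x a) := by
  have : PT fun a => n a (x a) := h2.comp (g := fun a => (a, x a)) (by fun_prop)
  unfold nbK; fun_prop

@[fun_prop] theorem pt_incT {A : α → List Ω} {n : α → Ω → List κ} {C : α → List κ} {c : α → κ → μ}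
    (h1 : PT A) (h2 : PT fun p : α × Ω => n p.1 p.2) (h3 : PT C)
    (h4 : PT fun p : α × κ => c p.1 p.2) : PT fun a => incT (A a) (n a) (C a) (c a) := by
  unfold incT; fun_prop

@[fun_prop] theorem pt_incC {A B : α → List Ω} {na nb : α → Ω → List κ} {C D : α → List κ}
    {c d : α → κ → μ} (h1 : PT A) (h1' : PT B) (h2 : PT fun p : α × Ω => na p.1 p.2)
    (h2' : PT fun p : α × Ω => nb p.1 p.2) (h3 : PT C) (h3' : PT D)
    (h4 : PT fun p : α × κ => c p.1 p.2) (h4' : PT fun p : α × κ => d p.1 p.2) :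
    PT fun a => incC (A a) (B a) (na a) (nb a) (C a) (D a) (c a) (d a) := by
  unfold incC; fun_prop

end time

end Pool.Agent.P.MP_f1a348_lc.GX
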