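import Pool.Agent.P.MP_f1a348_lc.GX.DefsS

/-! Step SYS. -/

set_option autoImplicit false
set_option linter.unusedSectionVars false

namespace Pool.Agent.P.MP_f1a348_lc.GX

open Equiv Finset
open scoped Classical
variable {Y : Type} [DecidableEq Y] {Γ Γ' : Sy Y}

theorem Sy.E1.refl {a : Y} (h : a ∈ Γ.D) : Γ.E1 a a := by
  exact ⟨1, Γ.one (by simpa using h), rfl⟩

theorem Sy.E1.symm {a b : Y} (h : Γ.E1 a b) : Γ.E1 b a := by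
  obtain ⟨f, h1, rfl⟩ := h
  exact ⟨f⁻¹, by simpa using Γ.inv h1, by simp⟩

theorem Sy.E1.trans {a b c : Y} (h : Γ.E1 a b) (h' : Γ.E1 b c) : Γ.E1 a c := by
  obtain ⟨f, h1, rfl⟩ := h
  obtain ⟨g, h2, rfl⟩ := h'
  exact ⟨g * f, Γ.mul h1 (by simpa using h2), rfl⟩

theorem Sy.E1.mem {a b : Y} (h : Γ.E1 a b) : a ∈ Γ.D ∧ b ∈ Γ.D := by
  obtain ⟨f, h1, rfl⟩ := h
  exact Γ.sub h1 a (mem_singleton_self a)

theorem Sy.E2.refl {a b : Y} (h : a ∈ Γ.D) (h' : b ∈ Γ.D) : Γ.E2 a b a b := by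
  exact ⟨1, Γ.one (by simp [insert_subset_iff, h, h']), rfl, rfl⟩

theorem Sy.E2.symm {a b a' b' : Y} (h : Γ.E2 a b a' b') : Γ.E2 a' b' a b := by
  obtain ⟨f, h1, rfl, rfl⟩ := h
  exact ⟨f⁻¹, by simpa using Γ.inv h1, by simp, by simp⟩

theorem Sy.E2.trans {a b a' b' a'' b'' : Y} (h : Γ.E2 a b a' b') (h' : Γ.E2 a' b' a'' b'') :
    Γ.E2 a b a'' b'' := by
  obtain ⟨f, h1, rfl, rfl⟩ := h
  obtain ⟨g, h2, rfl, rfl⟩ := h'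
  exact ⟨g * f, Γ.mul h1 (by simpa using h2), rfl, rfl⟩

theorem Sy.E2.swap {a b a' b' : Y} (h : Γ.E2 a b a' b') : Γ.E2 b a b' a' := by
  obtain ⟨f, h1, rfl, rfl⟩ := h
  exact ⟨f, by rwa [pair_comm], rfl, rfl⟩

theorem Sy.E2.fst {a b a' b' : Y} (h : Γ.E2 a b a' b') : Γ.E1 a a' := by
  obtain ⟨f, h1, rfl, rfl⟩ := h
  exact ⟨f, Γ.loc h1 (by simp) fun _ _ => rfl, rfl⟩

theorem Sy.E2.snd {a b a' b' : Y} (h : Γ.E2 a b a' b') : Γ.E1 b b' := by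
  exact h.swap.fst

theorem Sy.E2.eq_iff {a b a' b' : Y} (h : Γ.E2 a b a' b') : a = b ↔ a' = b' := by
  obtain ⟨f, -, rfl, rfl⟩ := h
  exact f.injective.eq_iff.symm

theorem Sy.e2_diag {a b : Y} : Γ.E2 a a b b ↔ Γ.E1 a b := by
  refine ⟨fun h => h.fst, fun ⟨f, h1, h2⟩ => ⟨f, by simpa using h1, h2, h2⟩⟩

theorem Sy.e1_of_L {A : Finset Y} {f : Perm Y} (h : Γ.L A f) {a : Y} (ha : a ∈ A) : Γ.E1 a (f a) := by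
  exact ⟨f, Γ.loc h (by simpa using ha) fun _ _ => rfl, rfl⟩

theorem Sy.e2_of_L {A : Finset Y} {f : Perm Y} (h : Γ.L A f) {a b : Y} (ha : a ∈ A) (hb : b ∈ A) :
    Γ.E2 a b (f a) (f b) := by
  exact ⟨f, Γ.loc h (by simp [insert_subset_iff, ha, hb]) fun _ _ => rfl, rfl, rfl⟩

theorem Sy.E1.ext2 (hM : 2 ≤ Γ.M) {a a' b : Y} (h : Γ.E1 a a') (hb : b ∈ Γ.D) :
    ∃ b', Γ.E2 a b a' b' := by
  obtain ⟨f, h1, rfl⟩ := h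
  obtain ⟨β, -, b2⟩ := Γ.ext h1 (by rw [card_singleton]; omega)
  obtain ⟨g, g1, -, g3⟩ := b2 b hb
  exact ⟨g b, g1 a (mem_singleton_self a) ▸ Sy.e2_of_L g3 (by simp) (by simp)⟩

theorem Sy.E2.ext3 (hM : 3 ≤ Γ.M) {a b a' b' c : Y} (h : Γ.E2 a b a' b') (hc : c ∈ Γ.D) :
    ∃ c', Γ.E2 a c a' c' ∧ Γ.E2 b c b' c' ∧ Γ.E2 c a c' a' ∧ Γ.E2 c b c' b' := by
  obtain ⟨f, h1, rfl, rfl⟩ := h
  obtain ⟨β, -, b2⟩ := Γ.ext h1 (by have := card_le_two (a := a) (b := b); omega)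
  obtain ⟨g, g1, -, g3⟩ := b2 c hc
  have e1 : Γ.E2 a c (f a) (g c) := g1 a (by simp) ▸ Sy.e2_of_L g3 (by simp) (by simp)
  have e2 : Γ.E2 b c (f b) (g c) := g1 b (by simp) ▸ Sy.e2_of_L g3 (by simp) (by simp)
  exact ⟨g c, e1, e2, e1.swap, e2.swap⟩

/- extension to a finite set -/
theorem Sy.ext_set {A B : Finset Y} {f : Perm Y} (h : Γ.L A f) (hB : B ⊆ Γ.D)
    (hc : (A ∪ B).card ≤ Γ.M) : ∃ g : Perm Y, (∀ x ∈ A, g x = f x) ∧ Γ.L (A ∪ B) g := by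
  induction B using Finset.induction_on with
  | empty => exact ⟨f, fun _ _ => rfl, by simpa using h⟩
  | insert w B _ ih =>
    rw [union_insert] at hc ⊢
    obtain ⟨g, g1, g2⟩ := ih ((subset_insert _ _).trans hB)
      ((card_le_card (subset_insert _ _)).trans hc)
    by_cases hw : w ∈ A ∪ B
    · exact ⟨g, g1, by rwa [insert_eq_of_mem hw]⟩
    · rw [card_insert_of_notMem hw] at hc
      obtain ⟨β, -, b2⟩ := Γ.ext g2 (by omega)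
      obtain ⟨g', k1, -, k3⟩ := b2 w (hB (mem_insert_self _ _))
      exact ⟨g', fun x hx => (k1 x (mem_union_left _ hx)).trans (g1 x hx), k3⟩

/- counting along the bijection of ext -/
theorem Sy.card_eq {A : Finset Y} {f : Perm Y} (h : Γ.L A f) (hc : A.card < Γ.M)
    (p q : Y → Prop)
    (e : ∀ w ∈ Γ.D, ∀ g : Perm Y, (∀ x ∈ A, g x = f x) → Γ.L (insert w A) g → (p w ↔ q (g w))) :
    (Γ.D.filter p).card = (Γ.D.filter q).card := by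
  obtain ⟨β, b1, b2⟩ := Γ.ext h hc
  refine card_bijective β β.bijective fun w => ?_
  rw [mem_filter, mem_filter, ← b1]
  refine and_congr_right fun hw => ?_
  obtain ⟨g, g1, g2, g3⟩ := b2 w hw
  rw [← g2]
  exact e w hw g g1 g3

theorem Sy.Inv2.card_eq (hM : 2 ≤ Γ.M) {R : Y → Y → Prop} (h : Γ.Inv2 R) {a a' : Y}
    (e : Γ.E1 a a') : (Γ.D.filter (R a)).card = (Γ.D.filter (R a')).card := by
  obtain ⟨f, h1, rfl⟩ := e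
  refine Sy.card_eq h1 (by rw [card_singleton]; omega) _ _ fun w _ g g1 g2 => ?_
  have e : Γ.E2 a w (f a) (g w) :=
    g1 a (mem_singleton_self a) ▸ Sy.e2_of_L g2 (by simp) (by simp)
  exact ⟨h.2 _ _ _ _ e, h.2 _ _ _ _ e.symm⟩

theorem Sy.inv2_E2 (a b : Y) : Γ.Inv2 (Γ.E2 a b) := by
  exact ⟨fun _ _ h => ⟨h.fst.mem.2, h.snd.mem.2⟩, fun _ _ _ _ e h => h.trans e⟩

theorem Sy.Inv2.flip {R : Y → Y → Prop} (h : Γ.Inv2 R) : Γ.Inv2 (fun a b => R b a) := by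
  exact ⟨fun a b k => (h.1 b a k).symm, fun _ _ _ _ e k => h.2 _ _ _ _ e.swap k⟩

theorem Sy.Inv2.iff {R : Y → Y → Prop} (h : Γ.Inv2 R) {a b a' b' : Y} (e : Γ.E2 a b a' b') :
    R a b ↔ R a' b' := by
  exact ⟨h.2 _ _ _ _ e, h.2 _ _ _ _ e.symm⟩

theorem Sy.Inv1.iff {Z : Finset Y} (h : Γ.Inv1 Z) {a b : Y} (e : Γ.E1 a b) : a ∈ Z ↔ b ∈ Z := by
  exact ⟨h.2 _ _ e, h.2 _ _ e.symm⟩

theorem Sy.Inv2.comp (hM : 3 ≤ Γ.M) {R S : Y → Y → Prop} (h : Γ.Inv2 R) (h' : Γ.Inv2 S) :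
    Γ.Inv2 (fun a c => ∃ b, R a b ∧ S b c) := by
  refine ⟨fun a c ⟨b, k, k'⟩ => ⟨(h.1 _ _ k).1, (h'.1 _ _ k').2⟩, fun a c a' c' e ⟨b, k, k'⟩ => ?_⟩
  obtain ⟨b', e1, -, -, e4⟩ := e.ext3 hM (h.1 _ _ k).2
  exact ⟨b', h.2 _ _ _ _ e1 k, h'.2 _ _ _ _ e4 k'⟩

theorem Sy.Inv2.restrict {R : Y → Y → Prop} (h : Γ.Inv2 R) {A B : Finset Y} (hA : Γ.Inv1 A)
    (hB : Γ.Inv1 B) : Γ.Inv2 (fun a b => a ∈ A ∧ b ∈ B ∧ R a b) := by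
  exact ⟨fun a b k => h.1 a b k.2.2, fun _ _ _ _ e k =>
    ⟨hA.2 _ _ e.fst k.1, hB.2 _ _ e.snd k.2.1, h.2 _ _ _ _ e k.2.2⟩⟩

theorem Sy.inv2_eq {A : Finset Y} (hA : Γ.Inv1 A) : Γ.Inv2 (fun a b => a ∈ A ∧ b = a) := by
  exact ⟨fun a b k => ⟨hA.1 k.1, k.2 ▸ hA.1 k.1⟩, fun _ _ _ _ e k =>
    ⟨hA.2 _ _ e.fst k.1, (e.eq_iff.1 k.2.symm).symm⟩⟩

theorem Sy.Inv2.range (hM : 2 ≤ Γ.M) {R : Y → Y → Prop} (h : Γ.Inv2 R) :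
    Γ.Inv1 (Γ.D.filter (fun b => ∃ a, R a b)) := by
  refine ⟨filter_subset _ _, fun b b' e hb => ?_⟩
  obtain ⟨-, a, k⟩ := mem_filter.1 hb
  obtain ⟨a', e'⟩ := e.ext2 hM (h.1 _ _ k).1
  exact mem_filter.2 ⟨e.mem.2, a', h.2 _ _ _ _ e'.swap k⟩

theorem Sy.mem_cls {a b : Y} : b ∈ Γ.cls a ↔ Γ.E1 a b := by
  exact ⟨fun h => (mem_filter.1 h).2, fun h => mem_filter.2 ⟨h.mem.2, h⟩⟩

theorem Sy.cls_cls {a : Y} (h : a ∈ Γ.D) : Γ.Cls (Γ.cls a) := by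
  exact ⟨⟨a, Sy.mem_cls.2 (Sy.E1.refl h)⟩, ⟨filter_subset _ _, fun _ _ e k =>
    Sy.mem_cls.2 ((Sy.mem_cls.1 k).trans e)⟩, fun _ k _ k' =>
    (Sy.mem_cls.1 k).symm.trans (Sy.mem_cls.1 k')⟩

theorem Sy.Cls.eq_cls {A : Finset Y} (h : Γ.Cls A) {a : Y} (ha : a ∈ A) : A = Γ.cls a := by
  ext b
  rw [Sy.mem_cls]
  exact ⟨h.2.2 a ha b, fun e => h.2.1.2 _ _ e ha⟩

theorem Sy.Inv1.cls_sub {Z : Finset Y} (h : Γ.Inv1 Z) {a : Y} (ha : a ∈ Z) : Γ.cls a ⊆ Z := by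
  exact fun b hb => h.2 _ _ (Sy.mem_cls.1 hb) ha

theorem Sy.Cls.tr1 {A : Finset Y} (h : Γ.Cls A) : Γ.Tr A 1 := by
  intro u v _ _ hu hv
  obtain ⟨f, h1, h2⟩ := h.2.2 _ (hu 0) _ (hv 0)
  refine ⟨f, Γ.loc h1 (fun x hx => ?_) fun _ _ => rfl, fun i => by rwa [Subsingleton.elim i 0]⟩
  obtain ⟨i, -, rfl⟩ := mem_image.1 hx
  rw [Subsingleton.elim i 0]
  exact mem_singleton_self _

theorem Sy.Ref.refl : Γ.Ref Γ := by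
  exact ⟨Subset.refl _, fun _ _ _ _ _ _ e => e⟩

theorem Sy.Ref.trans {Γ'' : Sy Y} (h : Γ.Ref Γ') (h' : Γ'.Ref Γ'') : Γ.Ref Γ'' := by
  exact ⟨h.1.trans h'.1, fun a ha b hb _ _ e =>
    h.2 a ha b hb _ _ (h'.2 a (h.1 ha) b (h.1 hb) _ _ e)⟩

theorem Sy.Ref.e1 (h : Γ.Ref Γ') {a b : Y} (ha : a ∈ Γ.D) (e : Γ'.E1 a b) : Γ.E1 a b := by
  exact Sy.e2_diag.1 (h.2 a ha a ha _ _ (Sy.e2_diag.2 e))

theorem Sy.Ref.inv1 (h : Γ.Ref Γ') {Z : Finset Y} (hZ : Γ.Inv1 Z) : Γ'.Inv1 Z := by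
  exact ⟨hZ.1.trans h.1, fun a b e ha => hZ.2 a b (h.e1 (hZ.1 ha) e) ha⟩

theorem Sy.Ref.inv2 (h : Γ.Ref Γ') {R : Y → Y → Prop} (hR : Γ.Inv2 R) : Γ'.Inv2 R := by
  exact ⟨fun a b k => ⟨h.1 (hR.1 a b k).1, h.1 (hR.1 a b k).2⟩, fun a b _ _ e k =>
    hR.2 _ _ _ _ (h.2 a (hR.1 a b k).1 b (hR.1 a b k).2 _ _ e) k⟩

theorem Sy.ref_pin (P : Finset Y) : Γ.Ref (Γ.pin P) := by
  refine ⟨Subset.refl _, fun a _ b _ a' b' ⟨f, ⟨g, g1, _, g3⟩, e1, e2⟩ => ?_⟩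
  exact ⟨f, Γ.loc g3 subset_union_left fun x hx => (g1 x hx).symm, e1, e2⟩

theorem Sy.pin_fix {P A : Finset Y} {f : Perm Y} (h : (Γ.pin P).L A f) {p : Y} (hp : p ∈ P)
    (hA : p ∈ A) : f p = p := by
  obtain ⟨g, g1, g2, g3⟩ := h
  rw [← g1 p hA]
  exact g2 p (mem_inter.2 ⟨hp, (Γ.sub g3 p (mem_union_left _ hA)).1⟩)

/- a pinned point can be added to a pair -/
theorem Sy.pin_e2 {P : Finset Y} {a b a' b' p : Y} (h : (Γ.pin P).E2 a b a' b') (hp : p ∈ P)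
    (hD : p ∈ Γ.D) : Γ.E2 a p a' p ∧ Γ.E2 b p b' p := by
  obtain ⟨f, ⟨g, g1, g2, g3⟩, rfl, rfl⟩ := h
  have hp' : p ∈ P ∩ Γ.D := mem_inter.2 ⟨hp, hD⟩
  have e1 := Sy.e2_of_L g3 (a := a) (by simp) (mem_union_right _ hp')
  have e2 := Sy.e2_of_L g3 (a := b) (by simp) (mem_union_right _ hp')
  rw [g2 p hp', g1 _ (by simp)] at e1 e2
  exact ⟨e1, e2⟩

/- if Γ' refines Γ on all subsets of D and the points of P are singleton classes of Γ', it refines the pinned system -/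
theorem Sy.ref_pin_of {P : Finset Y} (hD : Γ.D ⊆ Γ'.D)
    (h : ∀ A ⊆ Γ.D, ∀ f, Γ'.L A f → Γ.L A f) (hP : P ⊆ Γ.D)
    (hs : ∀ p ∈ P, ∀ q, Γ'.E1 p q → q = p) (hM : P.card + 2 ≤ Γ'.M) : (Γ.pin P).Ref Γ' := by
  refine ⟨hD, fun a ha b hb a' b' ⟨f, h1, e1, e2⟩ => ?_⟩
  obtain ⟨g, g1, g2⟩ := Sy.ext_set h1 (hP.trans hD) (by
    have := card_union_le {a, b} P
    have := card_le_two (a := a) (b := b)
    omega)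
  refine ⟨f, ⟨g, g1, fun p hp => hs p (mem_inter.1 hp).1 _
    (Sy.e1_of_L g2 (mem_union_right _ (mem_inter.1 hp).1)), ?_⟩, e1, e2⟩
  rw [inter_eq_left.2 hP]
  exact h _ (union_subset (insert_subset ha (singleton_subset_iff.2 hb)) hP) g g2

theorem Sy.e2_single (hM : 2 ≤ Γ.M) {a a' p : Y} (h : Γ.E1 a a') (hp : p ∈ Γ.D)
    (hs : ∀ q, Γ.E1 p q → q = p) : Γ.E2 a p a' p := by
  obtain ⟨q, e⟩ := h.ext2 hM hp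
  exact hs q e.snd ▸ e

end Pool.Agent.P.MP_f1a348_lc.GX
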