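import Pool.Agent.P.MP_f1a348_lc.GX.DefsS
import Pool.Agent.P.MP_f1a348_lc.GX.TSYS

/-! Step GOOD. -/

set_option autoImplicit false
set_option linter.unusedSectionVars false

namespace Pool.Agent.P.MP_f1a348_lc.GX

open Equiv Finset
open scoped Classical
variable {Y : Type} [DecidableEq Y] {Γ Γ' : Sy Y}

theorem lg_nonneg (n : ℕ) : 0 ≤ lg n := by
  rcases Nat.eq_zero_or_pos n with rfl | h
  · simp [lg]
  · exact Real.logb_nonneg one_lt_two (by exact_mod_cast h)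

theorem lg_mono {m n : ℕ} (h : m ≤ n) : lg m ≤ lg n := by
  rcases Nat.eq_zero_or_pos m with rfl | h0
  · have := lg_nonneg n
    simpa [lg] using this
  · exact Real.logb_le_logb_of_le one_lt_two (by exact_mod_cast h0) (by exact_mod_cast h)

theorem lg_mul_le (m n : ℕ) : lg (m * n) ≤ lg m + lg n := by
  rcases Nat.eq_zero_or_pos m with rfl | hm
  · have := lg_nonneg n
    simpa [lg] using this
  rcases Nat.eq_zero_or_pos n with rfl | hn
  · have := lg_nonneg m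
    simpa [lg] using this
  unfold lg
  rw [Nat.cast_mul, Real.logb_mul (by exact_mod_cast hm.ne') (by exact_mod_cast hn.ne')]

theorem lg_mul {m n : ℕ} (hm : 0 < m) (hn : 0 < n) : lg (m * n) = lg m + lg n := by
  unfold lg
  rw [Nat.cast_mul, Real.logb_mul (by exact_mod_cast hm.ne') (by exact_mod_cast hn.ne')]

theorem Sy.Gr.mono {O : Finset Y} {X : Y → Y → Prop} {β : ℕ} (h : Γ.Gr O X β) (hO : O ⊆ Γ.D)
    (e : Γ.Ref Γ') : Γ'.Gr O X β := by
  refine ⟨e.inv2 h.inv, h.symm, h.sup, h.val, fun a ha S hS hc => h.comp a ha S ?_ hc⟩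
  intro x hx
  exact Sy.mem_cls.2 (e.e1 (hO ha) (Sy.mem_cls.1 (hS hx)))

theorem Sy.gr_empty {O : Finset Y} (hO : Γ.Inv1 O) {β : ℕ} (h : O.card ≤ β) :
    Γ.Gr O (fun _ _ => False) β := by
  refine ⟨⟨fun _ _ h => h.elim, fun _ _ _ _ _ h => h⟩, fun _ _ h => h, fun _ _ h => h.elim,
    fun a => by simp, fun a ha S hS _ => ?_⟩
  exact (card_le_card (hS.trans (hO.cls_sub ha))).trans h

theorem Sy.Rec.mono {F F' : Finset Y} {b β u : ℕ} {gr : Bool} (h : Γ.Rec F b β u gr)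
    (hF : F' ⊆ F) (e : Γ.Ref Γ') : Γ'.Rec F' b β u gr := by
  obtain ⟨mem, ρ, X, O, r⟩ := h
  refine ⟨mem, ρ, X, O, e.inv2 r.imem, e.inv2 r.irho, e.inv1 r.iO, r.cO, r.gra.mono r.iO.1 e,
    r.plain, fun z hz => r.ne z (hF hz), fun z hz => le_trans (card_le_card ?_) (r.le z (hF hz)),
    fun z hz z' hz' => r.disj z (hF hz) z' (hF hz'), fun z hz z' hz' => r.sep z (hF hz) z' (hF hz')⟩
  intro y hy
  have h2 := (mem_filter.1 hy).2
  exact mem_filter.2 ⟨(r.imem.1 z y h2).2, h2⟩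

theorem Sy.Good.mono {N1 : ℕ} {F F' : Finset Y} {ν ν' : ℝ} (h : Γ.Good N1 F ν) (hF : F' ⊆ F)
    (e : Γ.Ref Γ') (hν : ν ≤ ν') : Γ'.Good N1 F' ν' := by
  rcases h with h | ⟨b, β, u, gr, h1, h2, h3⟩
  · left
    have := lg_mono (card_le_card hF)
    linarith
  · exact Or.inr ⟨b, β, u, gr, h1, h2.mono hF e, h3.trans hν⟩

theorem Sy.Good.nonneg {N1 : ℕ} {F : Finset Y} {ν : ℝ} (h : Γ.Good N1 F ν) : 0 ≤ ν := by
  rcases h with h | ⟨b, β, u, gr, -, -, h3⟩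
  · have := lg_nonneg F.card
    linarith
  · have h1 := lg_nonneg b
    have h2 := lg_nonneg β
    have h4 := lg_nonneg u
    have h5 : (0 : ℝ) ≤ if gr then 2 else 0 := by split_ifs <;> norm_num
    unfold mu at h3
    linarith

/- a direct record: mem is the equality on A -/
theorem Sy.rec_direct {A O : Finset Y} {ρ X : Y → Y → Prop} {β u : ℕ} {gr : Bool}
    (hA : Γ.Inv1 A) (hρ : Γ.Inv2 ρ) (hO : Γ.Inv1 O) (hc : O.card ≤ u) (hX : Γ.Gr O X β)
    (hp : gr = false → u ≤ β) (hs : Sy.Sep A O ρ) : Γ.Rec A 1 β u gr := by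
  refine ⟨fun a b => a ∈ A ∧ b = a, ρ, X, O, Sy.inv2_eq hA, hρ, hO, hc, hX, hp,
    fun z hz => ⟨z, hz, rfl⟩, fun z _ => ?_, fun z _ z' _ y h h' => h.2.symm.trans h'.2,
    fun z hz z' hz' y y' h h' hne => ?_⟩
  · refine card_le_one.2 fun a ha b hb => ?_
    simp only [mem_filter] at ha hb
    rw [ha.2.2, hb.2.2]
  · rw [h.2, h'.2] at hne ⊢
    exact hs z hz z' hz' hne

/- the quotient inherits the record: mem' B y iff mem x y for some x in A with bl x = B -/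
theorem Sy.Good.quot {N1 f : ℕ} {A : Finset Y} {ν : ℝ} (h : Γ.Good N1 A ν) (e : Γ.Ref Γ')
    (hM : 3 ≤ Γ'.M) {bl : Y → Y} (hb : Γ'.Inv2 (fun x y => x ∈ A ∧ y = bl x))
    (hf : ∀ y, (A.filter (fun x => bl x = y)).card ≤ f) : Γ'.Good N1 (A.image bl) (ν + 2 * lg f) := by
  have hf0 := lg_nonneg f
  rcases h with h | ⟨b, β, u, gr, h1, h2, h3⟩
  · left
    have := lg_mono (card_image_le (s := A) (f := bl))
    linarith
  · obtain ⟨mem, ρ, X, O, r⟩ := h2.mono (Subset.refl _) e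
    refine Or.inr ⟨f * b, β, u, gr, h1,
      ⟨fun B y => ∃ x, (x ∈ A ∧ B = bl x) ∧ mem x y, ρ, X, O, hb.flip.comp hM r.imem, r.irho, r.iO,
        r.cO, r.gra, r.plain, fun z hz => ?_, fun z _ => ?_, ?_, ?_⟩, ?_⟩
    · obtain ⟨x, hx, rfl⟩ := mem_image.1 hz
      obtain ⟨y, hy⟩ := r.ne x hx
      exact ⟨y, x, ⟨hx, rfl⟩, hy⟩
    · refine le_trans (card_le_card (t := (A.filter (fun x => bl x = z)).biUnion
        fun x => Γ'.D.filter (mem x)) ?_) ?_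
      · intro y hy
        obtain ⟨hD, x, ⟨hx, hz⟩, hm⟩ := mem_filter.1 hy
        exact mem_biUnion.2 ⟨x, mem_filter.2 ⟨hx, hz.symm⟩, mem_filter.2 ⟨hD, hm⟩⟩
      · refine (card_biUnion_le_card_mul _ _ b fun x hx => r.le x (mem_filter.1 hx).1).trans ?_
        exact Nat.mul_le_mul_right b (hf z)
    · rintro z - z' - y ⟨x, ⟨hx, rfl⟩, hm⟩ ⟨x', ⟨hx', rfl⟩, hm'⟩
      rw [r.disj x hx x' hx' y hm hm']
    · rintro z - z' - y y' ⟨x, ⟨hx, -⟩, hm⟩ ⟨x', ⟨hx', -⟩, hm'⟩ hne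
      exact r.sep x hx x' hx' y y' hm hm' hne
    · have := lg_mul_le f b
      unfold mu at h3 ⊢
      linarith

end Pool.Agent.P.MP_f1a348_lc.GX
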