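import Pool.Agent.P.MP_f1a348_lc.GX.DefsS
import Pool.Agent.P.MP_f1a348_lc.GX.TGOOD

/-! Step HH. -/

set_option autoImplicit false
set_option linter.unusedSectionVars false

namespace Pool.Agent.P.MP_f1a348_lc.GX

open Equiv Finset
open scoped Classical
variable {Y : Type} [DecidableEq Y] {Γ Γ' : Sy Y}

namespace HHx

lemma lg0 (q : ℕ) : 0 ≤ lg q := by
  rcases Nat.eq_zero_or_pos q with rfl | h
  · simp [lg]
  · exact Real.logb_nonneg one_lt_two (by exact_mod_cast h)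

lemma lb_le {x y : ℝ} (hx : 0 < x) (h : x ≤ y) : Real.logb 2 x ≤ Real.logb 2 y :=
  Real.logb_le_logb_of_le one_lt_two hx h

lemma lg_le {q q' : ℕ} (h1 : 1 ≤ q') (h2 : q' ≤ q) : lg q' ≤ lg q :=
  lb_le (by exact_mod_cast h1) (by exact_mod_cast h2)

lemma lg1 {q : ℕ} (h : 2 ≤ q) : 1 ≤ lg q := by
  have := lg_le (q' := 2) one_le_two h
  rwa [lg, Nat.cast_ofNat, Real.logb_self_eq_one one_lt_two] at this

lemma lb_ge {x : ℝ} {k : ℕ} (hx : 0 < x) (h : 2 ≤ x ^ k) : 1 ≤ k * Real.logb 2 x := by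
  have := lb_le two_pos h
  rwa [Real.logb_self_eq_one one_lt_two, Real.logb_pow] at this

lemma lb_lin {t : ℝ} (h : 1 ≤ t) : Real.logb 2 t ≤ 3 / 2 * (t - 1) := by
  have h1 := Real.log_le_sub_one_of_pos (lt_of_lt_of_le one_pos h)
  have h2 := Real.log_two_gt_d9
  rw [Real.logb, div_le_iff₀ (by linarith)]
  nlinarith

lemma phi_mono {LL x y : ℝ} (h : 0 ≤ LL) (hx : 0 ≤ x) (hxy : x ≤ y) :
    x * (LL / 8 + Real.logb 2 (1 + x)) ≤ y * (LL / 8 + Real.logb 2 (1 + y)) := by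
  have h1 := lb_le (x := 1 + x) (y := 1 + y) (by linarith) (by linarith)
  have h2 : 0 ≤ Real.logb 2 (1 + x) := Real.logb_nonneg one_lt_two (by linarith)
  exact mul_le_mul hxy (by linarith) (by linarith) (by linarith)

lemma split {x y : ℝ} (hx : 1 ≤ x) (hxy : x ≤ y) :
    x * Real.logb 2 (1 + x) + y * Real.logb 2 (1 + y) + x / 2 ≤
      (x + y) * Real.logb 2 (1 + (x + y)) := by
  have h1 := lb_le (x := 1 + y) (y := 1 + (x + y)) (by linarith) (by linarith)
  have h2 := lb_le (x := 3 / 2 * (1 + x)) (y := 1 + (x + y)) (by linarith) (by linarith)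
  rw [Real.logb_mul (by norm_num) (by linarith)] at h2
  have h3 := lb_ge (x := 3 / 2) (k := 2) (by norm_num) (by norm_num)
  push_cast at h3
  nlinarith

lemma pow_le_choose {r : ℝ} (hr : 1 ≤ r) (e : ℕ) :
    ∀ c : ℕ, r * e ≤ c → r ^ e ≤ c.choose e := by
  induction e with
  | zero => simp
  | succ e ih =>
    intro c hc
    have he : (0 : ℝ) ≤ e := e.cast_nonneg
    push_cast at hc
    obtain ⟨c, rfl⟩ : ∃ c', c = c' + 1 := by
      refine Nat.exists_eq_succ_of_ne_zero ?_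
      rintro rfl
      simp only [Nat.cast_zero] at hc
      nlinarith
    push_cast at hc
    have h1 := ih c (by linarith)
    have h2 : ((c : ℝ) + 1) * c.choose e = (c + 1).choose (e + 1) * (e + 1) := by
      exact_mod_cast Nat.add_one_mul_choose_eq c e
    have h3 : r ^ (e + 1) * (e + 1) ≤ (c + 1).choose (e + 1) * ((e : ℝ) + 1) := by
      rw [← h2, pow_succ, mul_assoc, mul_comm]
      exact mul_le_mul hc h1 (by positivity) (by positivity)
    exact le_of_mul_le_mul_right h3 (by positivity)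

lemma john {LL x e : ℝ} (hL : LL ≤ x) (hx : 64 ≤ x) (he : 0 < e) (h1 : 1 ≤ Real.logb 2 e)
    (h2 : 2 * Real.logb 2 e ≤ x) :
    x * (LL / 8 + Real.logb 2 (1 + x)) + x / 8 ≤
      (x - Real.logb 2 e) * (LL / 8 + Real.logb 2 (1 + e * (x - Real.logb 2 e))) := by
  set ε := Real.logb 2 e
  have h3 : 0 < x - ε := by linarith
  have h4 := lb_le (x := e * (x - ε)) (y := 1 + e * (x - ε)) (by positivity) (by linarith)
  rw [Real.logb_mul he.ne' h3.ne'] at h4
  have h5 := lb_le (x := x - ε) (y := 64 * (x / 64)) h3 (by linarith)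
  rw [Real.logb_mul (by norm_num) (by linarith), show (64 : ℝ) = 2 ^ 6 by norm_num,
    Real.logb_pow, Real.logb_self_eq_one one_lt_two] at h5
  have h6 := lb_lin (t := x / 2 ^ 6) (by linarith)
  have h7 : Real.logb 2 (x - ε) ≤ x / 8 := by push_cast at h5; linarith
  have h8 := lb_lin (t := (1 + x) / (x - ε)) (by rw [le_div_iff₀ h3]; linarith)
  rw [Real.logb_div (by linarith) h3.ne'] at h8
  have h9 : x * ((1 + x) / (x - ε) - 1) ≤ 4 * ε := by
    rw [div_sub_one h3.ne', ← mul_div_assoc, div_le_iff₀ h3]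
    nlinarith
  have h10 : x * (Real.logb 2 (1 + x) - Real.logb 2 (x - ε)) ≤ 6 * ε := by
    have := mul_le_mul_of_nonneg_left h8 (by linarith : 0 ≤ x)
    linarith
  have h11 := mul_le_mul_of_nonneg_left h4 h3.le
  have h12 := mul_le_mul_of_nonneg_left h7 (by linarith : 0 ≤ ε)
  have h13 := mul_le_mul_of_nonneg_left hL (by linarith : 0 ≤ ε)
  have h14 := mul_le_mul_of_nonneg_left h2 (by linarith : 0 ≤ ε)
  have h15 := mul_le_mul_of_nonneg_left hx (by linarith : 0 ≤ ε)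
  have h16 := mul_le_mul_of_nonneg_left h1 (by linarith : 0 ≤ x)
  nlinarith

end HHx

open HHx

theorem HH_one (LL : ℝ) : HH LL 1 = 0 := by
  simp [HH, lg]

theorem HH_nonneg {LL : ℝ} (h : 0 ≤ LL) (q : ℕ) : 0 ≤ HH LL q := by
  have h1 := lg0 q
  have h2 : 0 ≤ Real.logb 2 (1 + lg q) := Real.logb_nonneg one_lt_two (by linarith)
  unfold HH
  positivity

/- with x = lg q, x' = lg q': x log(1+x) - x' log(1+x') ≥ (x - x') log(1+x), and x = 0 or x ≥ 1 -/
theorem HH_drop {LL : ℝ} (h : 0 ≤ LL) {q q' : ℕ} (h1 : 1 ≤ q') (h2 : q' ≤ q) :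
    HH LL q' + 2 ^ 19 * (LL / 8 + 1) * (lg q - lg q') ≤ HH LL q := by
  have h3 := lg_le h1 h2
  have h4 := lg0 q'
  have h5 := lb_le (x := 1 + lg q') (y := 1 + lg q) (by linarith) (by linarith)
  rcases h2.eq_or_lt with rfl | h6
  · simp
  have h7 := lb_le (x := 2) (y := 1 + lg q) two_pos (by linarith [lg1 (q := q) (by omega)])
  rw [Real.logb_self_eq_one one_lt_two] at h7
  unfold HH
  nlinarith [mul_le_mul_of_nonneg_left h5 h4, mul_le_mul_of_nonneg_left h7 (sub_nonneg.2 h3)]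

theorem HH_mono {LL : ℝ} (h : 0 ≤ LL) {q q' : ℕ} (h2 : q' ≤ q) : HH LL q' ≤ HH LL q := by
  rcases Nat.eq_zero_or_pos q' with rfl | h1
  · simpa [HH, lg] using HH_nonneg h q
  · exact mul_le_mul_of_nonneg_left (phi_mono h (lg0 _) (lg_le h1 h2)) (by positivity)

theorem HH_34 {LL : ℝ} (h : 0 ≤ LL) {q q' : ℕ} (h1 : 1 ≤ q') (h2 : 4 * q' ≤ 3 * q) :
    HH LL q' + 2 ≤ HH LL q := by
  have h3 := HH_drop h h1 (by omega : q' ≤ q)
  have h4 : (0 : ℝ) < q' := by exact_mod_cast h1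
  have h5 := lb_le (x := 4 / 3 * q') (y := q) (by positivity) (by
    have : (4 : ℝ) * q' ≤ 3 * q := by exact_mod_cast h2
    linarith)
  rw [Real.logb_mul (by norm_num) h4.ne'] at h5
  have h6 := lb_ge (x := 4 / 3) (k := 3) (by norm_num) (by norm_num)
  push_cast at h6
  have h7 : 1 / 3 ≤ lg q - lg q' := by unfold lg; linarith
  nlinarith

/- for 1 ≤ x ≤ y: (x+y) log(1+x+y) - x log(1+x) - y log(1+y) ≥ x log((1+2x)/(1+x)) ≥ x log(3/2) -/
theorem HH_split {LL : ℝ} (h : 0 ≤ LL) {a q f : ℕ} (hq : 2 ≤ q) (hf : 2 ≤ f) (ha : q * f ≤ a) :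
    HH LL q + HH LL f + 25000 * min (lg q) (lg f) ≤ HH LL a := by
  have h1 := lg1 hq
  have h2 := lg1 hf
  have h3 := lg_le (Nat.mul_pos (by omega) (by omega)) ha
  rw [lg, Nat.cast_mul, Real.logb_mul (by positivity) (by positivity)] at h3
  have h4 := phi_mono h (x := lg q + lg f) (by linarith) h3
  unfold HH
  rcases le_total (lg q) (lg f) with e | e
  · rw [min_eq_left e]
    nlinarith [split h1 e]
  · rw [min_eq_right e]
    have := split h2 e
    rw [add_comm (lg f) (lg q)] at this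
    nlinarith

/- x = lg c ≥ 64, ε = lg e ≤ x / 2, lg a ≥ e (x - ε) since choose c e ≥ (c / e) ^ e. (x - ε) log(1 + e (x - ε)) - x log(1 + x) ≥ ε (x / 2 - log x - 1.45) - 1.45 ≥ ε x / 4; the linear part loses e ε LL / 8 ≤ e ε x / 8. -/
theorem HH_john {LL : ℝ} (h : 0 ≤ LL) {a c e : ℕ} (he : 2 ≤ e) (hc : e ^ 2 ≤ c)
    (h64 : 2 ^ 64 ≤ c) (hL : LL ≤ lg c) (ha : c.choose e ≤ a) :
    e * (HH LL c + 2 * (12289 * lg c)) + 1 ≤ HH LL a := by
  have he0 : (0 : ℝ) < e := by positivity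
  have he2 : (2 : ℝ) ≤ e := by exact_mod_cast he
  have hc0 : (0 : ℝ) < c := by exact_mod_cast lt_of_lt_of_le (by positivity) h64
  have hc' : (e : ℝ) ^ 2 ≤ c := by exact_mod_cast hc
  have h1 : 64 ≤ lg c := by
    have := lb_le (x := 2 ^ 64) (y := c) (by positivity) (by exact_mod_cast h64)
    rw [Real.logb_pow, Real.logb_self_eq_one one_lt_two] at this
    simpa [lg] using this
  have h2 : 2 * Real.logb 2 e ≤ lg c := by
    have := lb_le (by positivity) hc'
    rw [Real.logb_pow] at this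
    simpa [lg] using this
  have h3 : 1 ≤ Real.logb 2 e := lg1 he
  have h4 := pow_le_choose (r := c / e) (by rw [le_div_iff₀ he0]; nlinarith) e c
    (by rw [div_mul_cancel₀ _ he0.ne'])
  have h5 := lb_le (by positivity) (h4.trans (by exact_mod_cast ha : (c.choose e : ℝ) ≤ a))
  rw [Real.logb_pow, Real.logb_div hc0.ne' he0.ne'] at h5
  have h6 := phi_mono h (x := e * (lg c - Real.logb 2 e)) (y := lg a)
    (mul_nonneg he0.le (by linarith)) h5
  have h7 := mul_le_mul_of_nonneg_left (john hL h1 he0 h3 h2) he0.le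
  have h8 := mul_le_mul he2 h1 (by norm_num) he0.le
  unfold HH
  nlinarith

end Pool.Agent.P.MP_f1a348_lc.GX
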