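import Pool.Agent.P.MP_f1a348_lc.GX.DefsV
import Pool.Agent.P.MP_f1a348_lc.GX.TGOOD
import Pool.Agent.P.MP_f1a348_lc.GX.THH

/-! Step VARI. -/

set_option autoImplicit false
set_option linter.unusedSectionVars false

namespace Pool.Agent.P.MP_f1a348_lc.GX

open Equiv Finset MulAction
open scoped Classical
variable {G Y : Type} [Group G] [MulAction G Y] [DecidableEq Y] {P : Pm} {H H' K K' : Subgroup G}
  {D D' : Finset Y} {Γ Γ' : Sy Y} {v v' : Vw G Y} {W : ℕ → Vw G Y → Prop}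

namespace VARIx

lemma bl_eq (x : ℕ) : bl x = Nat.size x := Nat.size_eq_bits_len x

lemma lg_two_pow (k : ℕ) : lg (2 ^ k) = k := by
  unfold lg
  rw [Nat.cast_pow, Nat.cast_ofNat, Real.logb_pow, Real.logb_self_eq_one one_lt_two, mul_one]

lemma LL0 (P : Pm) : 0 ≤ P.LL := lg_nonneg _

lemma lb1 {a : ℕ} (h : 2 ≤ a) : 1 ≤ Real.logb 2 (1 + lg a) := by
  have h1 := HHx.lg1 h
  have h7 := HHx.lb_le (x := 2) (y := 1 + lg a) two_pos (by linarith)
  rwa [Real.logb_self_eq_one one_lt_two] at h7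

lemma HH_ge (P : Pm) (a : ℕ) : lg a * Real.logb 2 (1 + lg a) ≤ HH P.LL a := by
  have h1 := lg_nonneg a
  have h2 : 0 ≤ Real.logb 2 (1 + lg a) := Real.logb_nonneg one_lt_two (by linarith)
  have h3 := LL0 P
  have h4 := mul_nonneg h1 h2
  have h5 := mul_nonneg h1 h3
  unfold HH
  nlinarith

lemma lg_le_HH (P : Pm) {a : ℕ} (h : 2 ≤ a) : lg a ≤ HH P.LL a := by
  have h1 := HH_ge P a
  have h2 := mul_le_mul_of_nonneg_left (lb1 h) (lg_nonneg a)
  linarith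

lemma unit_eq (P : Pm) : (P.unit : ℝ) = 2 ^ 70 * ((P.lam : ℝ) + 1) := by
  unfold Pm.unit; push_cast; ring

lemma c_le {P : Pm} {c : ℕ} (hc : c ≤ 8 * P.g) : (c : ℝ) ≤ 128 * ((P.lam : ℝ) + 1) := by
  have : c ≤ 128 * (P.lam + 1) := by unfold Pm.g at hc; omega
  exact_mod_cast this

end VARIx

open VARIx

theorem lt_two_pow_bl (x : ℕ) : x < 2 ^ bl x := by
  rw [bl_eq]; exact Nat.lt_size_self x

theorem bl_le_lg (x : ℕ) : (bl x : ℝ) ≤ lg x + 1 := by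
  rw [bl_eq]
  rcases h : Nat.size x with _ | k
  · have := lg_nonneg x
    push_cast; linarith
  · have h1 : 2 ^ k ≤ x := Nat.lt_size.1 (by omega)
    have h2 := lg_mono h1
    rw [lg_two_pow] at h2
    push_cast; linarith

theorem bl_mono {x y : ℕ} (h : x ≤ y) : bl x ≤ bl y := by
  rw [bl_eq, bl_eq]; exact Nat.size_le_size h

theorem bl_le {x L : ℕ} (h : x ≤ 2 ^ L) : bl x ≤ L + 1 := by
  rw [bl_eq]
  refine Nat.size_le.2 (lt_of_le_of_lt h ?_)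
  exact Nat.pow_lt_pow_right one_lt_two (Nat.lt_succ_self L)

theorem Pm.g_le : 100 * P.g ≤ P.unit := by
  unfold Pm.g Pm.unit; omega

theorem one_le_HH {a : ℕ} (h : 2 ≤ a) : 1 ≤ HH P.LL a :=
  (HHx.lg1 h).trans (lg_le_HH P h)

theorem ari_pin {c d x y : ℕ} (hc : c ≤ 8 * P.g) (hd : d ≤ P.tau) (hy : y ≤ 2 * d)
    (hx : x ≤ 2 ^ P.lam) :
    ((c + 2 * y * bl x : ℕ) : ℝ) ≤ P.unit * (1 + min (d : ℝ) (lg x)) := by
  have h1 := c_le hc
  have h2 : (y : ℝ) ≤ 2 * d := by exact_mod_cast hy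
  have h3 : (bl x : ℝ) ≤ P.lam + 1 := by exact_mod_cast bl_le hx
  have h4 := bl_le_lg x
  have h5 : (d : ℝ) ≤ 109 * ((P.lam : ℝ) + 1) := by
    have : d ≤ 109 * (P.lam + 1) := by unfold Pm.tau Pm.t Pm.s at hd; omega
    exact_mod_cast this
  have h6 : (0 : ℝ) ≤ P.lam := Nat.cast_nonneg _
  have h7 : (0 : ℝ) ≤ d := Nat.cast_nonneg _
  have h8 : (0 : ℝ) ≤ bl x := Nat.cast_nonneg _
  have h9 := lg_nonneg x
  rw [unit_eq]
  push_cast
  rcases le_total (d : ℝ) (lg x) with e | e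
  · rw [min_eq_left e]
    have := mul_le_mul h2 h3 h8 (by linarith)
    have := mul_nonneg h7 (by linarith : (0 : ℝ) ≤ P.lam + 1)
    nlinarith
  · rw [min_eq_right e]
    have := mul_le_mul (h2.trans (by linarith : 2 * (d : ℝ) ≤ 218 * ((P.lam : ℝ) + 1))) h4 h8
      (by linarith)
    have := mul_nonneg h9 (by linarith : (0 : ℝ) ≤ P.lam + 1)
    nlinarith

theorem ari_quo {c r : ℕ} (hc : c ≤ 8 * P.g) :
    ((c + P.g * (2 * r + 1) : ℕ) : ℝ) ≤ P.unit * (1 + (r : ℝ)) := by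
  have h1 := c_le hc
  have h6 : (0 : ℝ) ≤ P.lam := Nat.cast_nonneg _
  have h7 : (0 : ℝ) ≤ r := Nat.cast_nonneg _
  have := mul_nonneg h7 (by linarith : (0 : ℝ) ≤ P.lam + 1)
  rw [unit_eq]
  unfold Pm.g
  push_cast
  nlinarith

theorem ari_kill {c x a : ℕ} (hc : c ≤ 8 * P.g) (h2 : 2 ≤ a) (ha : a ≤ 2 ^ P.lam) (hx : x ≤ a)
    (h : x ≤ P.t0 ∨ (x : ℝ) ≤ lg a ^ 2) : ((c + 2 * x * bl x : ℕ) : ℝ) ≤ P.unit * HH P.LL a := by
  have h1 := c_le hc
  have h3 := HHx.lg1 h2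
  have h4 := bl_le_lg x
  have h5 := lg_mono hx
  have h6 : (0 : ℝ) ≤ P.lam := Nat.cast_nonneg _
  have h8 : (0 : ℝ) ≤ bl x := Nat.cast_nonneg _
  have h9 := lg_le_HH P h2
  have h10 : (0 : ℝ) ≤ P.lam + 1 := by linarith
  rw [unit_eq]
  push_cast
  rcases h with h | h
  · have k1 : (x : ℝ) ≤ 2 ^ 65 * ((P.lam : ℝ) + 1) := by
      have : x ≤ 2 ^ 65 * (P.lam + 1) := by unfold Pm.t0 Pm.tau Pm.t Pm.s at h; omega
      exact_mod_cast this
    have k2 := mul_le_mul k1 (by linarith : (bl x : ℝ) ≤ 2 * HH P.LL a) h8 (by positivity)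
    have k3 := mul_le_mul_of_nonneg_left (h3.trans h9) h10
    nlinarith
  · have k0 : lg a ≤ P.lam := by
      have := lg_mono ha
      rwa [lg_two_pow] at this
    have k1 : (x : ℝ) ≤ ((P.lam : ℝ) + 1) * lg a := by nlinarith
    have k2 := lb1 h2
    have k3 : lg x ≤ 2 * Real.logb 2 (1 + lg a) := by
      rcases Nat.eq_zero_or_pos x with rfl | hp
      · simp only [lg, Nat.cast_zero, Real.logb_zero] at k2 ⊢
        linarith
      · have := HHx.lb_le (x := x) (y := (1 + lg a) ^ 2) (by exact_mod_cast hp) (by nlinarith)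
        rw [Real.logb_pow] at this
        exact_mod_cast this
    have k4 := mul_le_mul k1 (by linarith : (bl x : ℝ) ≤ 3 * Real.logb 2 (1 + lg a)) h8
      (by positivity)
    have k5 := mul_le_mul_of_nonneg_left (HH_ge P a) h10
    have k6 := mul_le_mul_of_nonneg_left (h3.trans h9) h10
    nlinarith

theorem ari_cst {c a : ℕ} (hc : c ≤ 8 * P.g) (h2 : 2 ≤ a) :
    ((c + P.cst a : ℕ) : ℝ) ≤ P.unit * HH P.LL a := by
  have h1 := c_le hc
  have h3 := HHx.lg1 h2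
  have h4 := bl_le_lg a
  have h6 : (0 : ℝ) ≤ P.lam := Nat.cast_nonneg _
  have h8 : (0 : ℝ) ≤ bl a := Nat.cast_nonneg _
  have h9 := lg_le_HH P h2
  have h10 : (0 : ℝ) ≤ P.lam + 1 := by linarith
  have k2 := mul_le_mul (by linarith : 100 * ((P.lam : ℝ) + 1) + 3 ≤ 103 * ((P.lam : ℝ) + 1))
    (by linarith : (bl a : ℝ) ≤ 2 * HH P.LL a) h8 (by positivity)
  have k3 := mul_le_mul_of_nonneg_left (h3.trans h9) h10
  rw [unit_eq]
  unfold Pm.cst Pm.g Pm.t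
  push_cast
  nlinarith

theorem ari_lc {c o : ℕ} (hc : c ≤ 8 * P.g) (ho : 4 * P.tau ≤ o) :
    1 ≤ 2 ^ 19 * (P.LL / 8 + 1) * (lg (o - P.t + 1) - lg P.s) ∧
      ((c + P.cst o : ℕ) : ℝ) ≤ P.unit * (2 ^ 19 * (P.LL / 8 + 1) * (lg (o - P.t + 1) - lg P.s)) := by
  have h1 := c_le hc
  have h2 : lg 2 = 1 := by simpa using lg_two_pow 1
  have h4 : lg 4 = 2 := by simpa using lg_two_pow 2
  have h3 := LL0 P
  have a1 : lg P.s + 1 ≤ lg (o - P.t + 1) := by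
    have := lg_mono (m := 2 * P.s) (n := o - P.t + 1) (by unfold Pm.tau Pm.t Pm.s at *; omega)
    rw [lg_mul two_pos (by unfold Pm.s; omega)] at this
    linarith
  have a2 : lg o ≤ 1 + lg (o - P.t + 1) := by
    have := lg_mono (m := o) (n := 2 * (o - P.t + 1)) (by unfold Pm.tau at *; omega)
    rw [lg_mul two_pos (by omega)] at this
    linarith
  have a3 : lg P.s ≤ 2 + P.LL := by
    have := lg_mono (m := P.s) (n := 4 * (P.lam + 2)) (by unfold Pm.s; omega)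
    rw [lg_mul (by norm_num) (by omega)] at this
    unfold Pm.LL
    linarith
  have a4 := bl_le_lg o
  set δ := lg (o - P.t + 1) - lg P.s with hδ
  have a5 : 1 ≤ δ := by linarith
  have a6 : (bl o : ℝ) ≤ 4 + δ + P.LL := by linarith
  have a7 : P.LL / 8 + δ ≤ (P.LL / 8 + 1) * δ := by nlinarith
  have h6 : (0 : ℝ) ≤ P.lam := Nat.cast_nonneg _
  have h8 : (0 : ℝ) ≤ bl o := Nat.cast_nonneg _
  have h10 : (0 : ℝ) ≤ P.lam + 1 := by linarith
  set Z := (P.LL / 8 + 1) * δ with hZ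
  have e : 2 ^ 19 * (P.LL / 8 + 1) * δ = 2 ^ 19 * Z := by rw [hZ]; ring
  rw [e]
  have a8 : 1 ≤ Z := by linarith
  refine ⟨by linarith, ?_⟩
  have k2 := mul_le_mul (by linarith : 100 * ((P.lam : ℝ) + 1) + 3 ≤ 103 * ((P.lam : ℝ) + 1))
    (by linarith : (bl o : ℝ) ≤ 12 * Z) h8 (by positivity)
  have k3 := mul_le_mul_of_nonneg_left a8 h10
  rw [unit_eq]
  unfold Pm.cst Pm.g Pm.t
  push_cast
  nlinarith

/- HH_john; 2 ^ e ≤ choose c e -/
theorem ari_john {a c e : ℕ} (he : 2 ≤ e) (hc : e ^ 2 ≤ c) (h0 : P.t0 ≤ c)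
    (ha : c.choose e ≤ a) (hl : a ≤ 2 ^ P.lam) :
    e < P.tau ∧ e < c ∧ e * (HH P.LL c + 2 * (12289 * lg c)) + 1 ≤ HH P.LL a := by
  have h1 : 2 * e ≤ c := by nlinarith
  have h2 := HHx.pow_le_choose (r := 2) one_le_two e c (by exact_mod_cast h1)
  have h3 : 2 ^ e ≤ c.choose e := by exact_mod_cast h2
  have h4 : e ≤ P.lam := (Nat.pow_le_pow_iff_right one_lt_two).1 (h3.trans (ha.trans hl))
  refine ⟨by unfold Pm.tau Pm.t Pm.s; omega, by omega, HH_john (LL0 P) he hc ?_ ?_ ha⟩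
  · unfold Pm.t0 at h0; omega
  · exact lg_mono (by unfold Pm.t0 Pm.tau Pm.t Pm.s at h0; omega)

theorem Bud.cost {n φ c : ℕ} {Φ γ : ℝ} (h : Bud P n φ Φ) (h1 : γ ≤ Φ + 1)
    (h2 : (c : ℝ) ≤ P.unit * γ) : c ≤ φ := by
  have h3 := mul_le_mul_of_nonneg_left h1 (Nat.cast_nonneg (α := ℝ) P.unit)
  exact_mod_cast h2.trans (h3.trans h.fuel)

/- if X is empty use the potential -1 or Rules.leaf; here no rule is needed: IH with Φ - γ -/
theorem IH.use {n φ c : ℕ} {Φ γ : ℝ} (ih : IH P W n) (h : Bud P n φ Φ) (h1 : 1 ≤ γ)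
    (h2 : (c : ℝ) ≤ P.unit * γ) (h3 : c ≤ φ) (a : v.Ok P) (hp : ∀ w ∈ v.X, v.Pt P w (Φ - γ)) :
    W (φ - c) v := by
  refine ih (φ - c) v (Φ - γ) a (by linarith [h.lt]) (by linarith [h.mm]) ?_ hp
  rw [Nat.cast_sub h3]
  have := h.fuel
  linarith

end Pool.Agent.P.MP_f1a348_lc.GX
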