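import Pool.Agent.P.MP_f1a348_lc.GX.DefsV
import Pool.Agent.P.MP_f1a348_lc.GX.TSYS
import Pool.Agent.P.MP_f1a348_lc.GX.TGOOD

/-! Step VORB. -/

set_option autoImplicit false
set_option linter.unusedSectionVars false

namespace Pool.Agent.P.MP_f1a348_lc.GX

open Equiv Finset MulAction
open scoped Classical
variable {G Y : Type} [Group G] [MulAction G Y] [DecidableEq Y] {P : Pm} {H H' K K' : Subgroup G}
  {D D' : Finset Y} {Γ Γ' : Sy Y} {v v' : Vw G Y} {W : ℕ → Vw G Y → Prop}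

theorem mem_orb {z y : Y} : y ∈ orb H D z ↔ y ∈ D ∧ ∃ h ∈ H, h • z = y := by
  unfold orb
  exact mem_filter

theorem self_mem_orb {z : Y} (hz : z ∈ D) : z ∈ orb H D z := by
  exact mem_orb.2 ⟨hz, 1, H.one_mem, one_smul _ _⟩

theorem InvF.mono {O : Finset Y} (h : InvF H O) (e : H' ≤ H) : InvF H' O := by
  exact fun g hg x hx => h g (e hg) x hx

theorem InvF.iff {O : Finset Y} (h : InvF H O) {g : G} (hg : g ∈ H) {x : Y} : g • x ∈ O ↔ x ∈ O := by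
  refine ⟨fun k => ?_, h g hg x⟩
  simpa using h g⁻¹ (H.inv_mem hg) _ k

theorem Giant.mono {O : Finset Y} (h : Giant H O) (e : H ≤ H') : Giant H' O := by
  intro a ha b hb c hc h1 h2 h3
  obtain ⟨g, hg, k⟩ := h a ha b hb c hc h1 h2 h3
  exact ⟨g, e hg, k⟩

theorem orb_inv (hI : InvF H D) (z : Y) : InvF H (orb H D z) := by
  intro g hg x hx
  obtain ⟨h1, h, h2, rfl⟩ := mem_orb.1 hx
  exact mem_orb.2 ⟨hI g hg _ h1, g * h, H.mul_mem hg h2, mul_smul _ _ _⟩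

theorem orb_smul {h : G} (hh : h ∈ H) (z : Y) : orb H D (h • z) = orb H D z := by
  ext y
  simp only [mem_orb]
  refine and_congr_right fun _ => ⟨fun ⟨k, k1, k2⟩ => ⟨k * h, H.mul_mem k1 hh, ?_⟩,
    fun ⟨k, k1, k2⟩ => ⟨k * h⁻¹, H.mul_mem k1 (H.inv_mem hh), ?_⟩⟩
  · rw [mul_smul, k2]
  · rw [mul_smul, inv_smul_smul, k2]

theorem orb_eq_of_mem {z y : Y} (h : y ∈ orb H D z) : orb H D y = orb H D z := by
  obtain ⟨-, k, k1, rfl⟩ := mem_orb.1 h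
  exact orb_smul k1 z

theorem orb_mono (hI : InvF H D) (e : H' ≤ H) {z : Y} (hz : z ∈ D) : orb H' D' z ⊆ orb H D z := by
  intro y hy
  obtain ⟨-, k, k1, rfl⟩ := mem_orb.1 hy
  exact mem_orb.2 ⟨hI k (e k1) z hz, k, e k1, rfl⟩

theorem orb_sub {O : Finset Y} (hO : InvF H O) {z : Y} (hz : z ∈ O) : orb H D z ⊆ O := by
  intro y hy
  obtain ⟨-, k, k1, rfl⟩ := mem_orb.1 hy
  exact hO k k1 z hz

theorem card_orb (hI : InvF H D) {z : Y} (hz : z ∈ D) :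
    (orb H D z).card = (stabilizer G z).relIndex H := by
  have e1 : (stabilizer G z).subgroupOf H = stabilizer H z := by
    ext g
    simp [Subgroup.mem_subgroupOf, Subgroup.smul_def]
  have e2 : orbit H z = ((orb H D z : Finset Y) : Set Y) := by
    ext y
    rw [mem_coe, mem_orb, mem_orbit_iff]
    refine ⟨fun ⟨g, hg⟩ => ⟨?_, g, g.2, hg⟩, fun ⟨_, g, g1, g2⟩ => ⟨⟨g, g1⟩, g2⟩⟩
    rw [← hg]
    exact hI g g.2 z hz
  rw [Subgroup.relIndex, e1, index_stabilizer, e2, Set.ncard_coe_finset]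

theorem sys1_D (M : ℕ) (hI : InvF H D) : (sys1 M H D).D = D := by
  exact filter_true_of_mem fun x hx h hh => hI h hh x hx

theorem sys1_L (M : ℕ) (hI : InvF H D) {A : Finset Y} {f : Perm Y} :
    (sys1 M H D).L A f ↔ A ⊆ D ∧ ∃ h ∈ H, ∀ x ∈ A, f x = h • x := by
  have e : D.filter (fun x => ∀ h ∈ H, h • x ∈ D) = D := sys1_D M hI
  show A ⊆ D.filter (fun x => ∀ h ∈ H, h • x ∈ D) ∧ _ ↔ _
  rw [e]

theorem sys1_E1 (M : ℕ) (hI : InvF H D) {a b : Y} :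
    (sys1 M H D).E1 a b ↔ a ∈ D ∧ ∃ h ∈ H, h • a = b := by
  unfold Sy.E1
  simp only [sys1_L M hI, singleton_subset_iff, mem_singleton, forall_eq]
  refine ⟨fun ⟨f, ⟨h1, h, h2, h3⟩, h4⟩ => ⟨h1, h, h2, h3 ▸ h4⟩,
    fun ⟨h1, h, h2, h3⟩ => ⟨toPerm h, ⟨h1, h, h2, rfl⟩, h3⟩⟩

theorem sys1_E2 (M : ℕ) (hI : InvF H D) {a b a' b' : Y} :
    (sys1 M H D).E2 a b a' b' ↔ a ∈ D ∧ b ∈ D ∧ ∃ h ∈ H, h • a = a' ∧ h • b = b' := by
  unfold Sy.E2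
  simp only [sys1_L M hI, insert_subset_iff, singleton_subset_iff, mem_insert, mem_singleton,
    forall_eq_or_imp, forall_eq]
  refine ⟨fun ⟨f, ⟨h1, h, h2, h3, h3'⟩, h4, h5⟩ => ⟨h1.1, h1.2, h, h2, h3 ▸ h4, h3' ▸ h5⟩,
    fun ⟨h1, h1', h, h2, h3, h4⟩ => ⟨toPerm h, ⟨⟨h1, h1'⟩, h, h2, rfl, rfl⟩, h3, h4⟩⟩

theorem sys1_cls (M : ℕ) (hI : InvF H D) {z : Y} (hz : z ∈ D) : (sys1 M H D).cls z = orb H D z := by
  ext y
  rw [Sy.mem_cls, sys1_E1 M hI, mem_orb]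
  exact ⟨fun ⟨_, h, h1, h2⟩ => ⟨h2 ▸ hI h h1 z hz, h, h1, h2⟩, fun ⟨_, k⟩ => ⟨hz, k⟩⟩

theorem sys1_ref (M M' : ℕ) (hI : InvF H D) (hI' : InvF H' D') (e : H' ≤ H) (d : D ⊆ D') :
    (sys1 M H D).Ref (sys1 M' H' D') := by
  refine ⟨by rwa [sys1_D M hI, sys1_D M' hI'], fun a ha b hb a' b' k => ?_⟩
  rw [sys1_D M hI] at ha hb
  obtain ⟨-, -, h, h1, h2⟩ := (sys1_E2 M' hI').1 k
  exact (sys1_E2 M hI).2 ⟨ha, hb, h, e h1, h2⟩

theorem sys1_pin (M M' : ℕ) (hI : InvF H D) (hI' : InvF H' D') (e : H' ≤ H) (d : D ⊆ D')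
    {Q : Finset Y} (hQ : H' ≤ fixF G Q) : ((sys1 M H D).pin Q).Ref (sys1 M' H' D') := by
  have eD : ((sys1 M H D).pin Q).D = D := sys1_D M hI
  refine ⟨by rwa [eD, sys1_D M' hI'], fun a ha b hb a' b' k => ?_⟩
  rw [eD] at ha hb
  obtain ⟨-, -, h, h1, h2, h3⟩ := (sys1_E2 M' hI').1 k
  refine ⟨toPerm h, ⟨toPerm h, fun _ _ => rfl, fun p hp => ?_, ?_⟩, h2, h3⟩
  · exact mem_fixF.1 (hQ h1) p (mem_inter.1 hp).1
  · refine (sys1_L M hI).2 ⟨union_subset ?_ ?_, h, e h1, fun _ _ => rfl⟩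
    · simp [insert_subset_iff, ha, hb]
    · rw [sys1_D M hI]
      exact inter_subset_right

theorem sys1_mtr (M : ℕ) (hI : InvF H D) {C : Finset Y} {d : ℕ} (h : (sys1 M H D).Tr C d) :
    MTr H C d := by
  intro a b ha hb a1 b1
  obtain ⟨f, f1, f2⟩ := h a b ha hb a1 b1
  obtain ⟨-, g, g1, g2⟩ := (sys1_L M hI).1 f1
  exact ⟨g, g1, fun i => by rw [← g2 _ (mem_image_of_mem _ (mem_univ i)), f2]⟩

theorem sys1_inv2 (M : ℕ) (hI : InvF H D) {R : Y → Y → Prop} (h1 : ∀ a b, R a b → a ∈ D ∧ b ∈ D)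
    (h2 : ∀ h ∈ H, ∀ a b, R a b → R (h • a) (h • b)) : (sys1 M H D).Inv2 R := by
  refine ⟨fun a b k => by rw [sys1_D M hI]; exact h1 a b k, fun a b a' b' e k => ?_⟩
  obtain ⟨-, -, h, e1, rfl, rfl⟩ := (sys1_E2 M hI).1 e
  exact h2 h e1 a b k

theorem Vw.Ok.cls_iff (h : v.Ok P) {A : Finset Y} : (v.Γ1 P).Cls A ↔ v.IsO A := by
  have eD : (v.Γ1 P).D = v.D := sys1_D P.M h.inv
  constructor
  · intro k
    have hA : A ⊆ v.D := eD ▸ k.2.1.1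
    refine ⟨k.1, hA, fun u hu => ?_⟩
    rw [k.eq_cls hu]
    exact (sys1_cls P.M h.inv (hA hu)).symm
  · rintro ⟨⟨u, hu⟩, h1, h2⟩
    rw [← h2 u hu]
    have e : (v.Γ1 P).cls u = v.o u := sys1_cls P.M h.inv (h1 hu)
    rw [← e]
    exact Sy.cls_cls (eD ▸ h1 hu)

theorem Vw.Ok.isO (h : v.Ok P) {z : Y} (hz : z ∈ v.D) : v.IsO (v.o z) := by
  exact ⟨⟨z, self_mem_orb hz⟩, fun y hy => (mem_orb.1 hy).1, fun u hu => orb_eq_of_mem hu⟩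

theorem Vw.IsO.inv (h : v.Ok P) {A : Finset Y} (hA : v.IsO A) : InvF v.H A := by
  obtain ⟨⟨u, hu⟩, -, h2⟩ := hA
  rw [← h2 u hu]
  exact orb_inv h.inv u

theorem Vw.Ok.card_le (h : v.Ok P) {A : Finset Y} (hA : A ⊆ v.Γ.D) : A.card ≤ 2 ^ P.lam := by
  exact (card_le_card hA).trans h.card

theorem Vw.Mono.refl : v.Mono v := by
  exact ⟨le_rfl, Subset.refl _, Subset.refl _, Subset.refl _, fun _ _ _ k => k⟩

theorem Vw.Mono.trans {v'' : Vw G Y} (h : v.Mono v') (h' : v'.Mono v'') : v.Mono v'' := by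
  exact ⟨h'.h.trans h.h, h.d.trans h'.d, h'.x.trans h.x, h.dd.trans h'.dd,
    fun A hA f k => h.l A hA f (h'.l A (hA.trans h.dd) f k)⟩

theorem Vw.Mono.ref (h : v.Mono v') : v.Γ.Ref v'.Γ := by
  refine ⟨h.dd, fun a ha b hb a' b' ⟨f, f1, f2⟩ => ⟨f, h.l _ ?_ f f1, f2⟩⟩
  simp [insert_subset_iff, ha, hb]

theorem Vw.Mono.ref1 (h : v.Mono v') (a : v.Ok P) (a' : v'.Ok P) : (v.Γ1 P).Ref (v'.Γ1 P) := by
  exact sys1_ref P.M P.M a.inv a'.inv h.h h.d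

theorem Vw.Mono.emb (h : v.Mono v') (d : v'.D = v.D) : v.Emb P v' := by
  refine ⟨h.h, d, 1, v.H.one_mem, id, ⟨fun _ _ _ _ k => k, fun a ha => h.dd ha,
    fun a ha b hb a' b' k => ⟨a', b', rfl, rfl, h.ref.2 a ha b hb a' b' k⟩⟩,
    fun z _ _ => by simp, fun w hw => ⟨by simpa using h.x hw, fun z _ _ => by simp⟩⟩

theorem Vw.Nw.inv1 (a : v.Ok P) {C : Finset Y} (hC : C ⊆ v.D) {b : Y → Y} (h : v.Nw C b) :
    (v.Γ1 P).Inv2 (fun x y => x ∈ C ∧ y = b x) := by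
  refine sys1_inv2 P.M a.inv (fun x y k => ⟨hC k.1, k.2 ▸ h.mem x k.1⟩) fun g hg x y k => ?_
  obtain ⟨k1, rfl⟩ := k
  exact ⟨(h.eqv g hg x k1).1, (h.eqv g hg x k1).2.symm⟩

end Pool.Agent.P.MP_f1a348_lc.GX
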