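import Pool.Agent.P.MP_f1a348_lc.GX.DefsP
import Pool.Agent.P.MP_f1a348_lc.GX.LibInc
import Pool.Agent.P.MP_f1a348_lc.GX.LibF
import Pool.Agent.P.MP_f1a348_lc.GX.TVORB
import Pool.Agent.P.MP_f1a348_lc.GX.TVARI

/-! Step PNUM. -/

set_option autoImplicit false
set_option linter.unusedSectionVars false

namespace Pool.Agent.P.MP_f1a348_lc.GX

open Pool.Agent.Lib.Helper47 Pool.Agent.P.MP_f1a348_lc.GI Pool.Agent.P.MP_f1a348_lc.TO
variable {cx : Cx} {s s' s'' : Sta}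

theorem symN_finite (n : ℕ) : Finite (SymN n) := by
  have lt : ∀ g : SymN n, ∀ a, a < n → g.1.app a < n := fun g a ha => by
    by_contra e
    have := g.1.app_injective (g.2 _ (not_lt.1 e))
    omega
  exact Finite.of_injective (fun (g : SymN n) (i : Fin n) => (⟨g.1.app i, lt g i i.2⟩ : Fin n))
    fun g h e => Subtype.ext (FP.ext fun a => by
      rcases lt_or_ge a n with c | c
      · exact congrArg Fin.val (congrFun e ⟨a, c⟩)
      · rw [g.2 a c, h.2 a c])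

theorem SymN.lt {n a : ℕ} {g : U} (hg : g ∈ SymN n) : g.app a < n ↔ a < n := by
  refine ⟨fun e => ?_, fun ha => ?_⟩
  · by_contra c
    rw [hg a (not_lt.1 c)] at e
    exact c e
  · by_contra e
    have := g.app_injective (hg _ (not_lt.1 e))
    omega

theorem SymN.ab {n : ℕ} {g : U} (hg : g ∈ SymN n) {t : Tm} : Tm.AB n (g • t) ↔ Tm.AB n t := by
  refine ⟨fun h => ?_, fun h => h.smul fun _ => (SymN.lt hg).2⟩
  simpa using h.smul (g := g⁻¹) fun _ => (SymN.lt (inv_mem hg)).2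

theorem SymN.atm {n i : ℕ} {g : U} (hg : g ∈ SymN n) (hi : n ≤ i) : g • Tm.atm i = Tm.atm i := by
  rw [Tm.smul_at, hg i hi]

theorem PNUMx.b1_sq : cx.b1 * cx.b1 ≤ 2 ^ cx.lam := by
  rw [Cx.b1, ← pow_add]
  exact Nat.pow_le_pow_right two_pos (by omega)

theorem PNUMx.eight (h : cx.Ok) : 8 ≤ cx.uM.length := by
  have h1 : 2 * cx.P.tau + 4 ≤ cx.uM.length := h.p.m1
  simp only [Pm.tau, Pm.t, Pm.s] at h1
  omega

theorem PNUMx.lam_le (h : cx.Ok) : 2 ^ cx.lam ≤ cx.pad.length :=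
  (Nat.pow_le_pow_right two_pos
    (Nat.le_mul_of_pos_right _ (by have := PNUMx.eight h; omega))).trans h.pd

/- n * n <= 2 ^ lam <= pd -/
theorem Cx.Ok.faith (h : cx.Ok) : Faith cx.pad cx.base (SymN cx.n) := by
  rw [h.base]
  refine ⟨cx.n, fun u hu e => FP.ext fun a => ?_, fun b hb => ⟨Finset.range cx.n, by simp,
    fun u hu => Finset.mem_range.2 ((SymN.lt hu).2 (List.mem_range.1 hb))⟩, ?_⟩
  · rcases lt_or_ge a cx.n with c | c
    exacts [e a (List.mem_range.2 c), hu a c]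
  · rw [List.length_range]
    exact (Nat.mul_le_mul h.nb h.nb).trans (PNUMx.b1_sq.trans (PNUMx.lam_le h))

theorem Cx.Ok.pow (h : cx.Ok) {a k : ℕ} (ha : a ≤ 2 ^ cx.lam) (hk : k ≤ cx.uM.length) :
    a ^ k ≤ cx.pd := by
  calc a ^ k ≤ (2 ^ cx.lam) ^ k := Nat.pow_le_pow_left ha k
    _ = 2 ^ (cx.lam * k) := (pow_mul _ _ _).symm
    _ ≤ 2 ^ (cx.lam * cx.uM.length) := Nat.pow_le_pow_right two_pos (Nat.mul_le_mul_left _ hk)
    _ ≤ cx.pd := h.pd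

theorem Cx.Ok.nums (h : cx.Ok) : 2 ^ (8 * cx.lam) ≤ cx.pd ∧ 2 ^ 512 ≤ cx.pd ∧
    cx.b1 * cx.b1 ≤ 2 ^ cx.lam ∧ 2 ^ 32 ≤ cx.b1 ∧ cx.n ≤ 2 ^ cx.lam ∧ 8 ≤ cx.uM.length ∧
    cx.um.length ≤ cx.uM.length ∧ cx.uM.length ≤ cx.pd := by
  have h1 := PNUMx.eight h
  have h2 := h.lam
  have h3 : 2 ^ (8 * cx.lam) ≤ cx.pd :=
    (Nat.pow_le_pow_right two_pos (by rw [mul_comm]; exact Nat.mul_le_mul_left _ h1)).trans h.pd
  have h4 : 2 ^ 32 ≤ cx.b1 := Nat.pow_le_pow_right two_pos (by omega)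
  have h5 : cx.um.length + 6 ≤ cx.uM.length := h.p.m2
  refine ⟨h3, (Nat.pow_le_pow_right two_pos (by omega)).trans h3, PNUMx.b1_sq, h4, h.p.n1, h1,
    by omega, ?_⟩
  exact Nat.lt_two_pow_self.le.trans ((Nat.pow_le_pow_right two_pos
    (Nat.le_mul_of_pos_left _ (by omega))).trans h.pd)

theorem bl_pow (a k : ℕ) : bl (a ^ k) ≤ k * bl a + 1 := by
  refine bl_le ?_
  rw [mul_comm, pow_mul]
  exact Nat.pow_le_pow_left (lt_two_pow_bl a).le k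

theorem bl_mul (a b : ℕ) : bl (a * b) ≤ bl a + bl b := by
  have : a * b < 2 ^ (bl a + bl b) := by
    rw [pow_add]
    exact Nat.mul_lt_mul'' (lt_two_pow_bl a) (lt_two_pow_bl b)
  rw [bl, Nat.size_eq_bits_len]
  exact Nat.size_le.2 this

theorem mem_dd {l : List Tm} {x : Tm} : x ∈ dd l ↔ x ∈ l := by
  exact Tm.mem_els_st

theorem nodup_dd (l : List Tm) : (dd l).Nodup := by
  exact Tm.nodup_els _

theorem length_dd (l : List Tm) : (dd l).length ≤ l.length := by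
  exact (Tm.els_st_subperm l).length_le

theorem Cx.WF0.le (h : cx.WF0 s) : gen s.S ≤ SymN cx.n := by
  exact gen_le.2 h.hS

theorem Cx.WF0.cs_le (h : cx.WF0 s) {g : U} (hg : g ∈ cs (some s.c)) : g ∈ SymN cx.n := by
  have h1 : s.σ⁻¹ * g ∈ gen s.S := mem_cs.1 hg
  simpa using mul_mem h.hσ (h.le h1)

theorem Cx.WF0.faith (hc : cx.Ok) (h : cx.WF0 s) : Faith cx.pad cx.base (gen s.S) := by
  exact hc.faith.mono h.le

theorem Cx.WF0.dA (h : cx.WF0 s) {x : Tm} (hx : x ∈ s.D) : x ∈ s.A.1 := by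
  simpa using h.a.real x hx

/- every element of the coset maps the real points to vertices of the second side -/
theorem Cx.WF0.dB (h : cx.WF0 s) {g : U} (hg : g ∈ cs (some s.c)) {x : Tm} (hx : x ∈ s.D) :
    g • x ∈ s.B.1 ∧ s.σ⁻¹ • g • x ∈ s.D := by
  have h1 : s.σ⁻¹ • g • x ∈ s.D := by
    rw [← mul_smul]
    exact h.inv _ (mem_cs.1 hg) x hx
  exact ⟨by simpa using h.b.real _ h1, h1⟩

theorem Cx.WF0.abv (h : cx.WF0 s) {x : Tm} (hx : x ∈ s.A.1 ∨ x ∈ s.B.1) : Tm.AB s.ctr x := by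
  rcases hx with hx | hx
  · rcases h.a.kind x hx with e | ⟨i, -, e, rfl⟩
    · exact (h.ab x (by simpa using e)).mono h.ctr
    · exact Tm.ab_at.2 e
  · rcases h.b.kind x hx with e | ⟨i, -, e, rfl⟩
    · exact ((SymN.ab (inv_mem h.hσ)).1 (h.ab _ e)).mono h.ctr
    · exact Tm.ab_at.2 e

/- a vertex made from numbers below n is a real point -/
theorem Cx.WF0.real_of (h : cx.WF0 s) {x : Tm} (hx : Tm.AB cx.n x) :
    (x ∈ s.A.1 → x ∈ s.D) ∧ (s.σ • x ∈ s.B.1 → x ∈ s.D) := by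
  refine ⟨fun e => ?_, fun e => ?_⟩
  · rcases h.a.kind x e with e1 | ⟨i, e1, -, rfl⟩
    · simpa using e1
    · exact absurd (Tm.ab_at.1 hx) (not_lt.2 e1)
  · rcases h.b.kind _ e with e | ⟨i, e, -, e'⟩
    · simpa using e
    · have := (SymN.ab h.hσ).2 hx
      rw [e'] at this
      exact absurd (Tm.ab_at.1 this) (not_lt.2 e)

theorem Cx.WF.dlen (h : cx.WF s) : s.D.length ≤ 2 ^ cx.lam ∧ s.X.length ≤ s.D.length ∧
    s.Y.length ≤ s.D.length := by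
  refine ⟨(List.subperm_of_subset h.nd fun x hx => h.dA hx).length_le.trans h.ca,
    (List.subperm_of_subset h.nx h.xd).length_le, ?_⟩
  have := (List.subperm_of_subset (h.ny.map (MulAction.injective s.σ⁻¹)) (l₂ := s.D)
    fun x hx => by
      obtain ⟨y, hy, rfl⟩ := List.mem_map.1 hx
      exact h.yd y hy).length_le
  rwa [List.length_map] at this

theorem Cx.WF.idx (hc : cx.Ok) (h : cx.WF s) {K : Subgroup U} (hK : K ≤ gen s.S) {p : Tm}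
    (hp : p ∈ s.D) : Idx (fixS [p]) K cx.pad.length := by
  exact (h.inv.idx hp).mono hK (h.dlen.1.trans (PNUMx.lam_le hc))

theorem Cx.WF.view_ok (h : cx.WF s) : (cx.view s).Ok cx.P := by
  have := symN_finite cx.n
  exact ⟨Finite.of_injective _ (Subgroup.inclusion_injective h.le),
    fun g hg x hx => List.mem_toFinset.2 (h.inv g hg x (List.mem_toFinset.1 hx)),
    fun x hx => List.mem_toFinset.2 (h.xd x (List.mem_toFinset.1 hx)),
    fun x hx => List.mem_toFinset.2 (h.dA (List.mem_toFinset.1 hx)), rfl,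
    (List.toFinset_card_le _).trans h.ca⟩

theorem Cx.WF.wl (hc : cx.Ok) (h : cx.WF s) : WL.Ok cx.par s.q := by
  exact WL.ok_of h.a.nd h.b.nd (hc.pow h.ca le_rfl) (hc.pow h.cb le_rfl)

/- the solutions form a coset of this group -/
theorem Sta.sol_coset (s : Sta) : ∃ A : Subgroup U, A ≤ gen s.S ∧
    (∀ h, h ∈ A ↔ h ∈ gen s.S ∧ Maps h s.X s.X) ∧
    (∀ g ∈ s.Sol, ∀ g' ∈ s.Sol, g⁻¹ * g' ∈ A) ∧ ∀ g ∈ s.Sol, ∀ u ∈ A, g * u ∈ s.Sol := by
  refine ⟨⟨⟨⟨{h | h ∈ gen s.S ∧ Maps h s.X s.X}, fun {a b} ha hb => ⟨mul_mem ha.1 hb.1, fun x => by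
      rw [mul_smul, ← ha.2, ← hb.2]⟩⟩, one_mem _, fun x => by rw [one_smul]⟩,
    fun {a} ha => ⟨inv_mem ha.1, fun x => by rw [ha.2 (a⁻¹ • x), smul_inv_smul]⟩⟩,
    fun _ h => h.1, fun _ => Iff.rfl, fun g hg g' hg' => ⟨?_, fun x => ?_⟩,
    fun g hg u hu => ⟨?_, fun x => ?_⟩⟩
  · have h1 : s.σ⁻¹ * g ∈ gen s.S := mem_cs.1 hg.1
    have h2 : s.σ⁻¹ * g' ∈ gen s.S := mem_cs.1 hg'.1
    simpa [mul_assoc] using mul_mem (inv_mem h1) h2
  · rw [hg.2 ((g⁻¹ * g') • x), mul_smul, smul_inv_smul, hg'.2]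
  · exact mem_cs.2 (by rw [← mul_assoc]; exact mul_mem (mem_cs.1 hg.1) hu.1)
  · rw [mul_smul, ← hg.2, ← hu.2]

theorem Sta.tgt_sol (s : Sta) : s.Tgt ⊆ s.Sol := by
  exact fun _ ⟨_, h⟩ => h.sol

theorem Cx.Post.sym {a : Ans} (h : cx.WF0 s) (ha : cx.Post s a) : ∀ p ∈ a,
    p.1 ∈ cs (some s.c) ∧ gen p.2 ≤ gen s.S ∧ p.1 ∈ SymN cx.n ∧ gen p.2 ≤ SymN cx.n ∧
      p.2.length ≤ cx.pd ∧ ∀ h ∈ gen p.2, Maps h s.X s.X := by
  rintro ⟨τ, T⟩ hp
  obtain rfl : a = some (τ, T) := hp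
  obtain ⟨A, a1, a2, a3, -⟩ := s.sol_coset
  have h1 := ha.hi (self_mem_cs τ T)
  have h2 : gen T ≤ A := le_of_cs (τ := τ) fun g hg => a3 _ h1 _ (ha.hi hg)
  exact ⟨h1.1, h2.trans a1, h.cs_le h1.1, (h2.trans a1).trans h.le, ha.len _ rfl,
    fun u hu => ((a2 u).1 (h2 hu)).2⟩

end Pool.Agent.P.MP_f1a348_lc.GX
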