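import Pool.Agent.P.MP_f1a348_lc.GX.DefsP
import Pool.Agent.P.MP_f1a348_lc.GX.LibInc
import Pool.Agent.P.MP_f1a348_lc.GX.LibF
import Pool.Agent.P.MP_f1a348_lc.GX.TPNUM

/-! Step PCOL. -/

set_option autoImplicit false
set_option linter.unusedSectionVars false

namespace Pool.Agent.P.MP_f1a348_lc.GX

open Pool.Agent.Lib.Helper47 Pool.Agent.P.MP_f1a348_lc.GI Pool.Agent.P.MP_f1a348_lc.TO
variable {cx : Cx} {s s' s'' : Sta}

namespace PCOLx

theorem dpad (hc : cx.Ok) (h : cx.WF s) : s.D.length ≤ cx.pad.length := by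
  have h8 := hc.nums.2.2.2.2.2.1
  have := hc.pow h.dlen.1 (k := 1) (by omega)
  rwa [pow_one] at this

/-- keep the points without a neighbour outside `N` -/
def stp (C : List Tm) (R : List (Tm × Tm)) (N : List Tm) : List Tm :=
  N.filter (fun y => C.all (fun z => N.contains z || !(R.contains (y, z) || R.contains (z, y))))

/-- the points that are not reached -/
def far (C : List Tm) (R : List (Tm × Tm)) (x : Tm) : List Tm :=
  (stp C R)^[C.length] (C.filter (fun y => !(y == x)))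

theorem mem_stp {C N : List Tm} {R : List (Tm × Tm)} {y : Tm} : y ∈ stp C R N ↔
    y ∈ N ∧ ∀ z ∈ C, z ∈ N ∨ ((y, z) ∉ R ∧ (z, y) ∉ R) := by
  simp [stp]

theorem iter_sub (C : List Tm) (R : List (Tm × Tm)) (x : Tm) (n : ℕ) :
    ((stp C R)^[n] (C.filter (fun y => !(y == x)))).Sublist (C.filter (fun y => !(y == x))) := by
  induction n with
  | zero => exact List.Sublist.refl _
  | succ n ih =>
    rw [Function.iterate_succ_apply']
    exact List.filter_sublist.trans ih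

theorem iter_inv (C : List Tm) (R : List (Tm × Tm)) (x : Tm) (n : ℕ) : ∀ y ∈ C,
    y ∉ (stp C R)^[n] (C.filter (fun y => !(y == x))) →
      Relation.EqvGen (fun a b => a ∈ C ∧ b ∈ C ∧ (a, b) ∈ R) x y := by
  induction n with
  | zero =>
    intro y hy a
    obtain rfl : y = x := by simpa [hy] using a
    exact .refl _
  | succ n ih =>
    intro y hy a
    rw [Function.iterate_succ_apply', mem_stp] at a
    by_contra b
    refine a ⟨by_contra fun c => b (ih y hy c), fun z hz => by_contra fun c => b ?_⟩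
    rw [not_or] at c
    refine .trans _ _ _ (ih z hz c.1) ?_
    by_cases d : (y, z) ∈ R
    · exact .symm _ _ (.rel _ _ ⟨hy, hz, d⟩)
    · exact .rel _ _ ⟨hz, hy, by_contra fun e => c.2 ⟨d, e⟩⟩

theorem far_eqv (C : List Tm) (R : List (Tm × Tm)) (x : Tm) {a b : Tm}
    (h : Relation.EqvGen (fun a b => a ∈ C ∧ b ∈ C ∧ (a, b) ∈ R) a b) :
    (a ∈ C ∧ a ∉ far C R x) ↔ (b ∈ C ∧ b ∉ far C R x) := by
  have hf : stp C R (far C R x) = far C R x :=
    TO.WL.fix_iter (stp C R) (fun _ => List.filter_sublist) _ _ (List.length_filter_le _ _)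
  induction h with
  | rel a b e =>
    refine ⟨fun u => ⟨e.2.1, fun v => ?_⟩, fun u => ⟨e.1, fun v => ?_⟩⟩
    · exact ((mem_stp.1 (hf.symm ▸ v)).2 a e.1).elim u.2 fun w => w.2 e.2.2
    · exact ((mem_stp.1 (hf.symm ▸ v)).2 b e.2.1).elim u.2 fun w => w.1 e.2.2
  | refl => rfl
  | symm _ _ _ ih => exact ih.symm
  | trans _ _ _ _ _ i1 i2 => exact i1.trans i2

theorem pt_far : PT (fun z : List Tm × List (Tm × Tm) × Tm => far z.1 z.2.1 z.2.2) := by
  have h : PT (fun z : List Tm × List (Tm × Tm) × Tm => z.1) := by fun_prop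
  exact PT.iterate_inv (f := fun z : List Tm × List (Tm × Tm) × Tm => stp z.1 z.2.1)
    (by unfold stp; fun_prop) h (by fun_prop) (fun a N => N.Sublist a.1)
    (fun _ => List.filter_sublist) (fun _ _ e => List.filter_sublist.trans e) _ h.size_le
    (fun _ _ e => size_sublist e)

end PCOLx

theorem Cx.mem_cl {b : Bool} {p x : Tm} : x ∈ cx.cl s b p ↔
    x ∈ (WL.sd s.q b).1 ∧ cx.col s b [x] = cx.col s false [p] := by
  simp only [Cx.cl, List.mem_filter, beq_iff_eq]

theorem Cx.cl_sub (b : Bool) (p : Tm) : (cx.cl s b p).Sublist (WL.sd s.q b).1 := by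
  exact List.filter_sublist

theorem Cx.WF.col_L (hc : cx.Ok) (h : cx.WF s) {l l' : List Tm} (hl : ∀ x ∈ l, x ∈ s.A.1)
    (hl' : ∀ x ∈ l', x ∈ s.A.1) (h1 : l.length = l'.length) (h2 : 1 ≤ l.length)
    (h3 : l.length ≤ cx.uM.length) : cx.col s false l = cx.col s false l' ↔
      ∃ f, (cx.view s).Γ.L l.toFinset f ∧ l.map f = l' := by
  exact wsys_cls (p := cx.par) (h.wl hc) false hl hl' h1 h2 h3

theorem Cx.WF.col_E1 (hc : cx.Ok) (h : cx.WF s) {a b : Tm} (ha : a ∈ s.A.1) (hb : b ∈ s.A.1) :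
    cx.col s false [a] = cx.col s false [b] ↔ (cx.view s).Γ.E1 a b := by
  have h8 := hc.nums.2.2.2.2.2.1
  rw [h.col_L hc (l := [a]) (l' := [b]) (by simpa using ha) (by simpa using hb) rfl le_rfl
    (by rw [List.length_singleton]; omega)]
  simp [Sy.E1]

theorem Cx.WF.col_E2 (hc : cx.Ok) (h : cx.WF s) {a b a' b' : Tm} (ha : a ∈ s.A.1)
    (hb : b ∈ s.A.1) (ha' : a' ∈ s.A.1) (hb' : b' ∈ s.A.1) :
    cx.col s false [a, b] = cx.col s false [a', b'] ↔ (cx.view s).Γ.E2 a b a' b' := by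
  have h8 := hc.nums.2.2.2.2.2.1
  rw [h.col_L hc (l := [a, b]) (l' := [a', b']) (by simpa using ⟨ha, hb⟩)
    (by simpa using ⟨ha', hb'⟩) rfl (by simp)
    (by simp only [List.length_cons, List.length_nil]; omega)]
  simp [Sy.E2]

theorem Cx.WF.col_iso (hc : cx.Ok) (h : cx.WF s) {f : Tm → Tm} (hf : SIso s.A s.B f)
    {l : List Tm} (hl : ∀ x ∈ l, x ∈ s.A.1) (h1 : l ≠ []) :
    cx.col s true (l.map f) = cx.col s false l := by
  exact (WL.cls_iso (h.wl hc) (b := false) (c := true) f hf.bij hf.rel l hl h1).symm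

theorem Cx.WF.cl_view (hc : cx.Ok) (h : cx.WF s) {p : Tm} (hp : p ∈ s.A.1) :
    (cx.cl s false p).toFinset = (cx.view s).Γ.cls p ∧
      (cx.cl s false p).length = ((cx.view s).Γ.cls p).card := by
  classical
  have e : (cx.cl s false p).toFinset = (cx.view s).Γ.cls p := by
    ext x
    simp only [List.mem_toFinset, Cx.mem_cl, Sy.cls, Finset.mem_filter]
    refine and_congr List.mem_toFinset.symm Iff.rfl |>.trans (and_congr_right fun hx => ?_)
    rw [eq_comm]
    exact h.col_E1 hc hp (List.mem_toFinset.1 hx)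
  exact ⟨e, by rw [← e, List.toFinset_card_of_nodup (h.a.nd.sublist (Cx.cl_sub false p))]⟩

theorem Cx.WF.cl_iso (hc : cx.Ok) (h : cx.WF s) {f : Tm → Tm} (hf : SIso s.A s.B f) (p : Tm) :
    Set.BijOn f {x | x ∈ cx.cl s false p} {x | x ∈ cx.cl s true p} ∧
      (cx.cl s true p).length = (cx.cl s false p).length := by
  have k : ∀ x ∈ s.A.1, cx.col s true [f x] = cx.col s false [x] := fun x hx =>
    h.col_iso hc hf (l := [x]) (by simpa using hx) (by simp)
  have b : Set.BijOn f {x | x ∈ cx.cl s false p} {x | x ∈ cx.cl s true p} := by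
    refine ⟨fun x hx => ?_, hf.bij.injOn.mono fun x hx => (Cx.mem_cl.1 hx).1, fun y hy => ?_⟩
    · obtain ⟨h1, h2⟩ := Cx.mem_cl.1 hx
      exact Cx.mem_cl.2 ⟨hf.bij.mapsTo h1, (k x h1).trans h2⟩
    · obtain ⟨h1, h2⟩ := Cx.mem_cl.1 hy
      obtain ⟨x, hx, rfl⟩ := hf.bij.surjOn h1
      exact ⟨x, Cx.mem_cl.2 ⟨hx, (k x hx).symm.trans h2⟩, rfl⟩
  refine ⟨b, ?_⟩
  rw [← List.toFinset_card_of_nodup (h.a.nd.sublist (Cx.cl_sub false p)),
    ← List.toFinset_card_of_nodup (h.b.nd.sublist (Cx.cl_sub true p))]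
  refine (Set.BijOn.finsetCard_eq f ?_).symm
  simpa only [List.coe_toFinset] using b

theorem Cx.col_le (b : Bool) (l : List Tm) : cx.col s b l ≤ 2 * cx.pd + 2 := by
  exact WL.cls_le_pad cx.par s.q b l

theorem Cx.WF.mem_ob (hc : cx.Ok) (h : cx.WF s) {p x : Tm} (hp : p ∈ s.D) :
    x ∈ cx.ob s p ↔ ∃ u ∈ gen s.S, u • p = x := by
  exact mem_orbL h.inv (PCOLx.dpad hc h) hp

theorem Cx.WF.ob_view (hc : cx.Ok) (h : cx.WF s) {p : Tm} (hp : p ∈ s.D) :
    (cx.ob s p).Sublist s.D ∧ (cx.ob s p).Nodup ∧ InvL (gen s.S) (cx.ob s p) ∧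
      (cx.ob s p).toFinset = (cx.view s).o p ∧ (cx.ob s p).length = ((cx.view s).o p).card ∧
      (cx.view s).IsO (cx.ob s p).toFinset := by
  have e : (cx.ob s p).toFinset = (cx.view s).o p := by
    ext x
    simp only [List.mem_toFinset, h.mem_ob hc hp, Vw.o, orb, Finset.mem_filter]
    refine ⟨fun ⟨u, hu, e⟩ => ⟨List.mem_toFinset.2 (e ▸ h.inv u hu p hp), u, hu, e⟩, fun a => a.2⟩
  have hs : (cx.ob s p).Sublist s.D := orbL_sublist _ _ _ _
  refine ⟨hs, h.nd.sublist hs, orbL_inv h.inv (PCOLx.dpad hc h) hp, e,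
    by rw [← e, List.toFinset_card_of_nodup (h.nd.sublist hs)],
    ⟨p, List.mem_toFinset.2 ((h.mem_ob hc hp).2 ⟨1, one_mem _, one_smul _ _⟩)⟩,
    fun x hx => List.mem_toFinset.2 (hs.subset (List.mem_toFinset.1 hx)), fun u hu => ?_⟩
  obtain ⟨g, hg, rfl⟩ := (h.mem_ob hc hp).1 (List.mem_toFinset.1 hu)
  rw [e]
  ext x
  simp only [Vw.o, orb, Finset.mem_filter]
  refine and_congr_right fun _ => ⟨fun ⟨k, hk, a⟩ => ⟨k * g, mul_mem hk hg, ?_⟩,
    fun ⟨k, hk, a⟩ => ⟨k * g⁻¹, mul_mem hk (inv_mem hg), ?_⟩⟩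
  · rw [mul_smul, a]
  · rw [mul_smul, inv_smul_smul, a]

/- the connected components of the graph with the edges R inside C (iterate a closure step) -/
theorem exists_cmp : ∃ cmp : List Tm × List (Tm × Tm) × Tm → List Tm, PT cmp ∧
    ∀ C R x, (cmp (C, R, x)).Sublist C ∧ (x ∈ C → ∀ y, y ∈ cmp (C, R, x) ↔
      Relation.EqvGen (fun a b => a ∈ C ∧ b ∈ C ∧ (a, b) ∈ R) x y) := by
  refine ⟨fun z => z.1.filter (fun y => !(PCOLx.far z.1 z.2.1 z.2.2).contains y), ?_,
    fun C R x => ⟨List.filter_sublist, fun hx y => ?_⟩⟩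
  · have := PCOLx.pt_far
    fun_prop
  · simp only [List.mem_filter, Bool.not_eq_true', List.contains_eq_mem, decide_eq_false_iff_not]
    refine ⟨fun a => PCOLx.iter_inv C R x _ y a.1 a.2, fun a => ?_⟩
    refine (PCOLx.far_eqv C R x a).1 ⟨hx, fun b => ?_⟩
    simpa using (PCOLx.iter_sub C R x _).subset b

/- the test for the completeness of an enumeration of tuples -/
theorem exists_powB : ∃ pw : ℕ × List Unit × List Unit → Bool, PT pw ∧
    ∀ a k pad, pw (a, k, pad) = true ↔ a ^ k.length ≤ pad.length := by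
  refine ⟨fun z => Nat.ble (z.1 ^ z.2.1.length) z.2.2.length, ?_, fun a k pad => Nat.ble_eq ▸ Iff.rfl⟩
  have h : PT (fun z : ℕ × List Unit × List Unit => z.2.1) := by fun_prop
  exact PT.ble (PT.pow (by fun_prop) (PT.length h)
    (h.size_le.mono fun a => (length_lt_size _).le)) (by fun_prop)

end Pool.Agent.P.MP_f1a348_lc.GX
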