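import Pool.Agent.P.MP_f1a348_lc.GX.LibWS
import Pool.Agent.P.MP_f1a348_lc.GX.TSYS

/-! Graph isomorphism: components, and the reading of labels and colours in the system of a
structure. -/

set_option autoImplicit false
set_option linter.unusedSectionVars false

namespace Pool.Agent.P.MP_f1a348_lc.GX

open Pool.Agent.Lib.Helper47 Pool.Agent.P.MP_f1a348_lc.GI Pool.Agent.P.MP_f1a348_lc.TO Equiv

variable {α : Type} [DecidableEq α]

/-! ### components -/

/-- one round of the search of a component -/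
def cpStep (V : List α) (r : α → α → Bool) (S : List α) : List α :=
  V.filter fun y => S.contains y || S.any fun x => r x y || r y x

/-- the component of `x` in the graph `r` on `V` -/
def cpt (V : List α) (r : α → α → Bool) (x : α) : List α :=
  (cpStep V r)^[V.length] (V.filter fun y => y == x)

namespace Cpt
variable {V : List α} {r : α → α → Bool} {x : α}

theorem mem_step {S : List α} {y : α} :
    y ∈ cpStep V r S ↔ y ∈ V ∧ (y ∈ S ∨ ∃ z ∈ S, r z y = true ∨ r y z = true) := by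
  simp [cpStep]

/-- the rounds -/
def rd (V : List α) (r : α → α → Bool) (x : α) (i : ℕ) : List α :=
  (cpStep V r)^[i] (V.filter fun y => y == x)

theorem rd_succ (i : ℕ) : rd V r x (i + 1) = cpStep V r (rd V r x i) :=
  Function.iterate_succ_apply' _ _ _

theorem mem_zero {y : α} : y ∈ rd V r x 0 ↔ y ∈ V ∧ y = x := by simp [rd]

theorem sub (i : ℕ) : (rd V r x i).Sublist V := by
  cases i with
  | zero => exact List.filter_sublist
  | succ i => rw [rd_succ]; exact List.filter_sublist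

theorem sound (i : ℕ) : ∀ y ∈ rd V r x i, x ∈ V ∧
    Relation.EqvGen (fun a b => a ∈ V ∧ b ∈ V ∧ r a b = true) x y := by
  induction i with
  | zero =>
    intro y hy
    obtain ⟨h, rfl⟩ := mem_zero.1 hy
    exact ⟨h, .refl _⟩
  | succ i ih =>
    intro y hy
    rw [rd_succ, mem_step] at hy
    obtain ⟨h, h1 | ⟨z, h1, h2 | h2⟩⟩ := hy
    · exact ih y h1
    · exact ⟨(ih z h1).1, (ih z h1).2.trans _ _ _ (.rel _ _ ⟨(sub i).subset h1, h, h2⟩)⟩
    · exact ⟨(ih z h1).1, (ih z h1).2.trans _ _ _ (.symm _ _ (.rel _ _ ⟨h, (sub i).subset h1, h2⟩))⟩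

theorem up (i : ℕ) : ∀ y ∈ rd V r x i, y ∈ rd V r x (i + 1) := fun y hy => by
  rw [rd_succ, mem_step]
  exact ⟨(sub i).subset hy, Or.inl hy⟩

theorem self (hx : x ∈ V) (i : ℕ) : x ∈ rd V r x i := by
  induction i with
  | zero => exact mem_zero.2 ⟨hx, rfl⟩
  | succ i ih => exact up i x ih

theorem grow (hx : x ∈ V) (i : ℕ) : (∀ y ∈ rd V r x (i + 1), y ∈ rd V r x i) ∨
    i + 1 ≤ (rd V r x i).toFinset.card := by
  induction i with
  | zero => exact Or.inr (Finset.card_pos.2 ⟨x, List.mem_toFinset.2 (self hx 0)⟩)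
  | succ i ih =>
    by_cases hc : ∀ y ∈ rd V r x (i + 1), y ∈ rd V r x i
    · refine Or.inl fun y hy => ?_
      rw [rd_succ, mem_step] at hy
      obtain ⟨h, h1 | ⟨z, h1, h2⟩⟩ := hy
      · exact h1
      · rw [rd_succ, mem_step]
        exact ⟨h, Or.inr ⟨z, hc z h1, h2⟩⟩
    · refine Or.inr ?_
      have h1 := ih.resolve_left hc
      have h2 : (rd V r x i).toFinset ⊂ (rd V r x (i + 1)).toFinset :=
        ⟨fun y hy => List.mem_toFinset.2 (up i y (List.mem_toFinset.1 hy)),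
          fun h => hc fun y hy => List.mem_toFinset.1 (h (List.mem_toFinset.2 hy))⟩
      have := Finset.card_lt_card h2
      omega

theorem closed (hx : x ∈ V) : ∀ y ∈ rd V r x (V.length + 1), y ∈ rd V r x V.length := by
  refine (grow hx V.length).resolve_right fun h => ?_
  have h1 : (rd V r x V.length).toFinset ⊆ V.toFinset := fun y hy =>
    List.mem_toFinset.2 ((sub _).subset (List.mem_toFinset.1 hy))
  have h2 := Finset.card_le_card h1
  have h3 := List.toFinset_card_le V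
  omega
end Cpt

theorem cpt_sublist (V : List α) (r : α → α → Bool) (x : α) : (cpt V r x).Sublist V := Cpt.sub _

theorem mem_cpt {V : List α} {r : α → α → Bool} {x y : α} (hx : x ∈ V) :
    y ∈ cpt V r x ↔ Relation.EqvGen (fun a b => a ∈ V ∧ b ∈ V ∧ r a b = true) x y := by
  refine ⟨fun h => (Cpt.sound _ y h).2, fun h => ?_⟩
  have key : ∀ a b, Relation.EqvGen (fun a b => a ∈ V ∧ b ∈ V ∧ r a b = true) a b →
      (a ∈ cpt V r x ↔ b ∈ cpt V r x) := by
    intro a b h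
    induction h with
    | rel a b h =>
      refine ⟨fun e => Cpt.closed hx _ ?_, fun e => Cpt.closed hx _ ?_⟩ <;>
        rw [Cpt.rd_succ, Cpt.mem_step]
      · exact ⟨h.2.1, Or.inr ⟨a, e, Or.inl h.2.2⟩⟩
      · exact ⟨h.1, Or.inr ⟨b, e, Or.inr h.2.2⟩⟩
    | refl => rfl
    | symm _ _ _ i => exact i.symm
    | trans _ _ _ _ _ i j => exact i.trans j
  exact (key x y h).1 (Cpt.self hx _)

theorem self_mem_cpt {V : List α} {r : α → α → Bool} {x : α} (hx : x ∈ V) : x ∈ cpt V r x :=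
  Cpt.self hx _

/-- maps that keep the edges keep the connections -/
theorem eqvGen_map {β : Type} {R : α → α → Prop} {S : β → β → Prop} (f : α → β)
    (h : ∀ a b, R a b → S (f a) (f b)) {x y : α} (e : Relation.EqvGen R x y) :
    Relation.EqvGen S (f x) (f y) := by
  induction e with
  | rel a b e => exact .rel _ _ (h a b e)
  | refl => exact .refl _
  | symm _ _ _ i => exact .symm _ _ i
  | trans _ _ _ _ _ i j => exact .trans _ _ _ i j

/-- an isomorphism of graphs maps components onto components -/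
theorem cpt_map {β : Type} [DecidableEq β] {V : List α} {V' : List β} {r : α → α → Bool}
    {r' : β → β → Bool} {f : α → β} (hb : Set.BijOn f {x | x ∈ V} {x | x ∈ V'})
    (h : ∀ a ∈ V, ∀ b ∈ V, r a b = r' (f a) (f b)) {x : α} (hx : x ∈ V) (y' : β) :
    y' ∈ cpt V' r' (f x) ↔ ∃ y ∈ cpt V r x, f y = y' := by
  have : Nonempty α := ⟨x⟩
  rw [mem_cpt (hb.mapsTo hx)]
  constructor
  · intro e
    have hi := hb.invOn_invFunOn
    have hm := hb.surjOn.mapsTo_invFunOn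
    have := eqvGen_map (S := fun a b => a ∈ V ∧ b ∈ V ∧ r a b = true)
      (Function.invFunOn f {x | x ∈ V}) (fun a b e => ⟨hm e.1, hm e.2.1, by
        rw [h _ (hm e.1) _ (hm e.2.1), hi.2 e.1, hi.2 e.2.1]; exact e.2.2⟩) e
    rw [hi.1 hx] at this
    exact ⟨_, (mem_cpt hx).2 this,
      hi.2 ((cpt_sublist _ _ _).subset ((mem_cpt (hb.mapsTo hx)).2 e))⟩
  · rintro ⟨y, hy, rfl⟩
    exact eqvGen_map f (fun a b e => ⟨hb.mapsTo e.1, hb.mapsTo e.2.1, h a e.1 b e.2.1 ▸ e.2.2⟩)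
      ((mem_cpt hx).1 hy)

section time
variable [Enc α] {ι : Type} [Enc ι]

@[fun_prop] theorem pt_cpStep {V S : ι → List α} {r : ι → α → α → Bool} (h1 : PT V)
    (h2 : PT (fun x : ι × α × α => r x.1 x.2.1 x.2.2)) (h3 : PT S) :
    PT (fun a => cpStep (V a) (r a) (S a)) := by
  have e1 : PT (fun x : (ι × α) × α => r x.1.1 x.2 x.1.2) :=
    h2.comp (g := fun x : (ι × α) × α => (x.1.1, x.2, x.1.2)) (by fun_prop)
  have e2 : PT (fun x : (ι × α) × α => r x.1.1 x.1.2 x.2) :=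
    h2.comp (g := fun x : (ι × α) × α => (x.1.1, x.1.2, x.2)) (by fun_prop)
  unfold cpStep
  exact PT.filter (PT.or (by fun_prop) (PT.any (PT.or e1 e2) (by fun_prop))) h1

@[fun_prop] theorem pt_cpt {V : ι → List α} {r : ι → α → α → Bool} {x : ι → α} (h1 : PT V)
    (h2 : PT (fun x : ι × α × α => r x.1 x.2.1 x.2.2)) (h3 : PT x) :
    PT (fun a => cpt (V a) (r a) (x a)) :=
  PT.iterate_inv (f := fun a S => cpStep (V a) (r a) S)
    (pt_cpStep (by fun_prop)
      (h2.comp (g := fun x : (ι × List α) × α × α => (x.1.1, x.2)) (by fun_prop)) (by fun_prop))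
    h1 (by fun_prop) (fun a S => S.Sublist (V a)) (fun _ => List.filter_sublist)
    (fun _ _ _ => List.filter_sublist) _ h1.size_le (fun _ _ h => size_sublist h)
end time

/-! ### labels and colours -/

variable {M : ℕ} {X : Sx α}

/-- a unary label is kept -/
theorem wsys_e1 (hM : 1 ≤ M) {a b : α} (h : (wsys M X).E1 a b) (c : ℕ) :
    (c, [a]) ∈ X.2 ↔ (c, [b]) ∈ X.2 := by
  obtain ⟨f, h, rfl⟩ := h
  exact wsys_rel h c (by simp) (by simpa using hM)

/-- a binary label is kept -/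
theorem wsys_e2 (hM : 2 ≤ M) {a b a' b' : α} (h : (wsys M X).E2 a b a' b') (c : ℕ) :
    (c, [a, b]) ∈ X.2 ↔ (c, [a', b']) ∈ X.2 := by
  obtain ⟨f, h, rfl, rfl⟩ := h
  exact wsys_rel h c (by simp) ((List.toFinset_card_le _).trans hM)

theorem wsys_inv1 (hM : 1 ≤ M) {Z : Finset α} (c : ℕ) (h1 : ∀ x ∈ Z, x ∈ X.1)
    (h2 : ∀ x, (c, [x]) ∈ X.2 ↔ x ∈ Z) : (wsys M X).Inv1 Z :=
  ⟨fun x hx => List.mem_toFinset.2 (h1 x hx), fun a b e ha =>
    (h2 b).1 ((wsys_e1 hM e c).1 ((h2 a).2 ha))⟩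

theorem wsys_inv2 (hM : 2 ≤ M) {R : α → α → Prop} (c : ℕ) (h1 : ∀ a b, R a b → a ∈ X.1 ∧ b ∈ X.1)
    (h2 : ∀ a b, (c, [a, b]) ∈ X.2 ↔ R a b) : (wsys M X).Inv2 R :=
  ⟨fun a b e => by simpa [wsys_D] using h1 a b e, fun a b a' b' e h =>
    (h2 a' b').1 ((wsys_e2 hM e c).1 ((h2 a b).2 h))⟩

theorem cls_e1 {p : Par} {q : Sx α × Sx α} (h : WL.Ok p q) (s : Bool) (hM : 1 ≤ p.2.length)
    {a b : α} (ha : a ∈ (WL.sd q s).1) (hb : b ∈ (WL.sd q s).1) :
    WL.cls p q s [a] = WL.cls p q s [b] ↔ (wsys p.2.length (WL.sd q s)).E1 a b := by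
  rw [wsys_cls h s (l := [a]) (l' := [b]) (by simpa using ha) (by simpa using hb) rfl le_rfl hM]
  simp [Sy.E1]

theorem cls_e2 {p : Par} {q : Sx α × Sx α} (h : WL.Ok p q) (s : Bool) (hM : 2 ≤ p.2.length)
    {a b a' b' : α} (ha : a ∈ (WL.sd q s).1) (hb : b ∈ (WL.sd q s).1) (ha' : a' ∈ (WL.sd q s).1)
    (hb' : b' ∈ (WL.sd q s).1) :
    WL.cls p q s [a, b] = WL.cls p q s [a', b'] ↔
      (wsys p.2.length (WL.sd q s)).E2 a b a' b' := by
  rw [wsys_cls h s (l := [a, b]) (l' := [a', b']) (by simp [ha, hb]) (by simp [ha', hb']) rfl (by simp) hM]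
  simp [Sy.E2]

theorem cls_et {p : Par} {q : Sx α × Sx α} (h : WL.Ok p q) (s : Bool) {d : ℕ} (h1 : 1 ≤ d)
    (hM : d ≤ p.2.length) {u v : Fin d → α} (hu : ∀ i, u i ∈ (WL.sd q s).1)
    (hv : ∀ i, v i ∈ (WL.sd q s).1) :
    WL.cls p q s (List.ofFn u) = WL.cls p q s (List.ofFn v) ↔
      (wsys p.2.length (WL.sd q s)).ET u v := by
  rw [wsys_cls h s (by simpa [List.mem_ofFn] using hu) (by simpa [List.mem_ofFn] using hv)
    (by simp) (by simpa using h1) (by simpa using hM)]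
  have e : (List.ofFn u).toFinset = Finset.univ.image u := by ext x; simp [List.mem_ofFn]
  simp only [Sy.ET, e, List.map_ofFn, List.ofFn_inj, funext_iff, Function.comp]

/-- an isomorphism of structures -/
structure SIso (A B : Sx α) (ψ : α → α) : Prop where
  bij : Set.BijOn ψ {x | x ∈ A.1} {x | x ∈ B.1}
  rel : ∀ n (l : List α), (∀ x ∈ l, x ∈ A.1) → ((n, l) ∈ A.2 ↔ (n, l.map ψ) ∈ B.2)

theorem SIso.cls {p : Par} {A B : Sx α} {ψ : α → α} (h : SIso A B ψ) (ok : WL.Ok p (A, B))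
    {l : List α} (hl : ∀ x ∈ l, x ∈ A.1) (h1 : l ≠ []) :
    WL.cls p (A, B) false l = WL.cls p (A, B) true (l.map ψ) :=
  WL.cls_iso ok (b := false) (c := true) ψ h.bij h.rel l hl h1

/-! ### extensions -/

/-- all labels are below `n` and all labelled lists consist of vertices -/
structure Lab (n : ℕ) (A : Sx α) : Prop where
  lt : ∀ e ∈ A.2, e.1 < n
  sup : ∀ e ∈ A.2, ∀ x ∈ e.2, x ∈ A.1

/-- add the vertices `V`, mark the old vertices by `n`, add the labelled lists `R` -/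
def xt (n : ℕ) (A : Sx α) (V : List α) (R : List (ℕ × List α)) : Sx α :=
  (A.1 ++ V, A.2 ++ (A.1.map (fun x => (n, [x])) ++ R.map (fun e => (n + 1 + e.1, e.2))))

section xt
variable {n : ℕ} {A B : Sx α} {V V' : List α} {R R' : List (ℕ × List α)}

theorem mem_xt {c : ℕ} {l : List α} : (c, l) ∈ (xt n A V R).2 ↔
    (c, l) ∈ A.2 ∨ (c = n ∧ ∃ x ∈ A.1, l = [x]) ∨ ∃ d, c = n + 1 + d ∧ (d, l) ∈ R := by
  simp only [xt, List.mem_append, List.mem_map, Prod.mk.injEq]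
  refine or_congr_right (or_congr ⟨fun ⟨x, h1, h2, h3⟩ => ⟨h2.symm, x, h1, h3.symm⟩,
    fun ⟨h1, x, h2, h3⟩ => ⟨x, h2, h1.symm, h3.symm⟩⟩
    ⟨fun ⟨e, h1, h2, h3⟩ => ⟨e.1, h2.symm, h3 ▸ h1⟩, fun ⟨d, h1, h2⟩ => ⟨_, h2, h1.symm, rfl⟩⟩)

theorem xt_old (h : ∀ e ∈ A.2, e.1 < n) (c : ℕ) (l : List α) :
    (c, l) ∈ A.2 ↔ c < n ∧ (c, l) ∈ (xt n A V R).2 := by
  rw [mem_xt]
  refine ⟨fun e => ⟨h _ e, Or.inl e⟩, fun ⟨h1, h2⟩ => ?_⟩
  rcases h2 with h2 | ⟨h2, -⟩ | ⟨d, h2, -⟩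
  · exact h2
  · omega
  · omega

theorem xt_mark (h : ∀ e ∈ A.2, e.1 < n) (y : α) : (n, [y]) ∈ (xt n A V R).2 ↔ y ∈ A.1 := by
  rw [mem_xt]
  refine ⟨fun e => ?_, fun e => Or.inr (Or.inl ⟨rfl, y, e, rfl⟩)⟩
  rcases e with e | ⟨-, x, h1, h2⟩ | ⟨d, h2, -⟩
  · exact absurd (h _ e) (lt_irrefl _)
  · obtain rfl : y = x := by simpa using h2
    exact h1
  · omega

theorem xt_new (h : ∀ e ∈ A.2, e.1 < n) (d : ℕ) (l : List α) :
    (n + 1 + d, l) ∈ (xt n A V R).2 ↔ (d, l) ∈ R := by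
  rw [mem_xt]
  refine ⟨fun e => ?_, fun e => Or.inr (Or.inr ⟨d, rfl, e⟩)⟩
  rcases e with e | ⟨h1, -⟩ | ⟨d', h1, h2⟩
  · have := h _ e
    simp only at this
    omega
  · omega
  · obtain rfl : d = d' := by omega
    exact h2

/-- the extension refines the structure -/
theorem xt_L (h : ∀ e ∈ A.2, e.1 < n) (hM : 1 ≤ M) {Z : Finset α} (hZ : ∀ x ∈ Z, x ∈ A.1)
    {f : Perm α} (e : (wsys M (xt n A V R)).L Z f) : (wsys M A).L Z f :=
  wsys_mark (fun _ hx => List.mem_append_left _ hx) n (xt_old h) n (fun y _ => xt_mark h y) hM hZ e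

theorem Lab.xt (h : Lab n A) {k : ℕ} (h1 : ∀ e ∈ R, e.1 < k)
    (h2 : ∀ e ∈ R, ∀ x ∈ e.2, x ∈ A.1 ∨ x ∈ V) : Lab (n + 1 + k) (xt n A V R) := by
  refine ⟨fun e he => ?_, fun e he x hx => ?_⟩
  · rcases mem_xt.1 he with h3 | ⟨h3, -⟩ | ⟨d, h3, h4⟩
    · have := h.lt _ h3
      simp only at this
      omega
    · omega
    · have := h1 _ h4
      simp only at this
      omega
  · refine List.mem_append.2 ?_
    rcases mem_xt.1 he with h3 | ⟨-, y, h3, h4⟩ | ⟨d, -, h4⟩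
    · exact Or.inl (h.sup _ h3 x hx)
    · rw [h4, List.mem_singleton] at hx
      exact Or.inl (hx ▸ h3)
    · exact h2 _ h4 x hx

theorem Lab.mono (h : Lab n A) {k : ℕ} (e : n ≤ k) : Lab k A :=
  ⟨fun x hx => (h.lt x hx).trans_le e, h.sup⟩

/-- an isomorphism extends to the extensions -/
theorem SIso.xt {ψ ψ' : α → α} (h : SIso A B ψ) (hA : Lab n A) (hB : Lab n B)
    (d2 : ∀ x ∈ V', x ∉ B.1) (e : ∀ x ∈ A.1, ψ' x = ψ x)
    (hV : Set.BijOn ψ' {x | x ∈ V} {x | x ∈ V'})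
    (hR : ∀ d (l : List α), (∀ x ∈ l, x ∈ A.1 ∨ x ∈ V) → ((d, l) ∈ R ↔ (d, l.map ψ') ∈ R')) :
    SIso (xt n A V R) (xt n B V' R') ψ' := by
  have b1 : Set.BijOn ψ' {x | x ∈ A.1} {x | x ∈ B.1} := h.bij.congr fun x hx => (e x hx).symm
  have b2 : ∀ x, x ∈ A.1 ∨ x ∈ V → ψ' x ∈ B.1 → x ∈ A.1 := fun x hx h1 =>
    hx.elim id fun h2 => absurd h1 (d2 _ (hV.mapsTo h2))
  refine ⟨?_, fun c l hl => ?_⟩
  · have : Set.BijOn ψ' ({x | x ∈ A.1} ∪ {x | x ∈ V}) ({x | x ∈ B.1} ∪ {x | x ∈ V'}) := by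
      refine b1.union hV fun x hx y hy e => ?_
      rcases hx with hx | hx <;> rcases hy with hy | hy
      · exact b1.injOn hx hy e
      · exact absurd (e ▸ b1.mapsTo hx) (d2 _ (hV.mapsTo hy))
      · exact absurd (e ▸ b1.mapsTo hy : ψ' x ∈ B.1) (d2 _ (hV.mapsTo hx))
      · exact hV.injOn hx hy e
    convert this using 1 <;> ext x <;> simp [GX.xt]
  · have hl' : ∀ x ∈ l, x ∈ A.1 ∨ x ∈ V := fun x hx => List.mem_append.1 (hl x hx)
    rw [mem_xt, mem_xt]
    refine or_congr ⟨fun h1 => ?_, fun h1 => ?_⟩ (or_congr (and_congr_right fun _ => ?_)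
      (exists_congr fun d => and_congr_right fun _ => hR d l hl'))
    · have h2 := hA.sup _ h1
      rw [List.map_congr_left fun x hx => e x (h2 x hx)]
      exact (h.rel c l h2).1 h1
    · have h2 : ∀ x ∈ l, x ∈ A.1 := fun x hx =>
        b2 x (hl' x hx) (hB.sup _ h1 _ (List.mem_map_of_mem hx))
      rw [List.map_congr_left fun x hx => e x (h2 x hx)] at h1
      exact (h.rel c l h2).2 h1
    · constructor
      · rintro ⟨x, h1, rfl⟩
        exact ⟨_, b1.mapsTo h1, rfl⟩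
      · rintro ⟨y, h1, h2⟩
        obtain ⟨x, rfl, rfl⟩ : ∃ x, l = [x] ∧ ψ' x = y := by simpa [List.map_eq_singleton_iff] using h2
        exact ⟨x, b2 x (hl' x (by simp)) h1, rfl⟩

@[fun_prop] theorem pt_xt [Enc α] {ι : Type} [Enc ι] {n : ι → ℕ} {A : ι → Sx α} {V : ι → List α}
    {R : ι → List (ℕ × List α)} (h1 : PT n) (h2 : PT A) (h3 : PT V) (h4 : PT R) :
    PT fun a => xt (n a) (A a) (V a) (R a) := by unfold xt; fun_prop

end xt

end Pool.Agent.P.MP_f1a348_lc.GX
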