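import Pool.Agent.P.MP_f1a348_lc.GX.LibPart
import Pool.Agent.P.MP_f1a348_lc.TO.EGrp

/-! Graph isomorphism: the frames that try options and the frames that join cosets. -/

set_option autoImplicit false
set_option linter.unusedSectionVars false

namespace Pool.Agent.P.MP_f1a348_lc.GX

open Pool.Agent.Lib.Helper47 Pool.Agent.P.MP_f1a348_lc.GI Pool.Agent.P.MP_f1a348_lc.TO

/-- the answer to the item `p` after the items `u` have been called -/
def ansOf {F A : Type} (e1 e2 : F → Option A) (used : Bool) (p : Bool × F) : Option A :=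
  bif p.1 && !used then e1 p.2 else e2 p.2

section options
variable {C F X A : Type}

/-- a direct answer, or the first option that succeeds -/
def tryP (pre : C → X → Option A) (opts : C → X → List (Bool × F)) :
    Part C F X (Bool × F) (Option A) A where
  todo := opts
  ini := pre
  call _ _ t s := bif s.isSome then none else some t
  upd _ _ _ _ r := r
  fin _ _ s := s

variable {pre : C → X → Option A} {opts : C → X → List (Bool × F)} {c : C} {x : X}

theorem tryP_snd {Pre : F → Prop} {Post : F → A → Prop} {R : A → Prop}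
    (h0 : ∀ a, pre c x = some a → R a)
    (h1 : pre c x = none → ∀ p ∈ opts c x, Pre p.2 ∧ ∀ a, Post p.2 a → R a) :
    (tryP pre opts).Snd c Pre Post x R := by
  refine ⟨fun _ s => (∀ a, s = some a → R a) ∧ (s = none → pre c x = none),
    ⟨h0, id⟩, fun _ _ _ _ _ h _ => h, fun u t v s b g a1 a2 a3 => ?_, fun s a h e => h.1 a e⟩
  cases s with
  | some a => cases a3
  | none =>
    obtain rfl : t = (b, g) := Option.some.inj a3
    obtain ⟨c1, c2⟩ := h1 (a2.2 rfl) (b, g) (by rw [show opts c x = _ from a1]; simp)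
    exact ⟨c1, fun r hr => ⟨fun a e => c2 a (hr a e), fun _ => a2.2 rfl⟩⟩

variable [Enc C] [Enc F] [Enc X] [Enc A]

theorem tryP_loc {B : ℕ} {e1 e2 : F → Option A} (hB : size (pre c x) ≤ B)
    (hs : pre c x = none → ∀ p ∈ opts c x, size (e1 p.2) ≤ B ∧ size (e2 p.2) ≤ B)
    (h : pre c x = none → ∃ u p v, opts c x = u ++ p :: v ∧
      ansOf e1 e2 (u.any Prod.fst) p ≠ none) :
    (tryP pre opts).Loc c B e1 e2 x (· ≠ none) := by
  refine ⟨fun u b s => s ≠ none ∨ (pre c x = none ∧ b = u.any Prod.fst ∧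
    ∀ u0 p v0, u = u0 ++ p :: v0 → ansOf e1 e2 (u0.any Prod.fst) p = none),
    ⟨hB, ?_⟩, fun u t v b s a1 a2 a3 => ?_, fun u t v b s fr g r a1 a2 a3 a4 => ?_,
    fun b s a1 => ?_⟩
  · by_cases e : pre c x = none
    · exact Or.inr ⟨e, rfl, fun u0 p v0 h => by simp at h⟩
    · exact Or.inl e
  · cases s with
    | none => cases a3
    | some a => exact Or.inl (by simp)
  · cases s with
    | some a => cases a3
    | none =>
      obtain rfl : t = (fr, g) := Option.some.inj a3
      obtain ⟨b1, b2, b3⟩ := a2.resolve_left (by simp)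
      have b4 := hs b1 (fr, g) (by rw [show opts c x = _ from a1]; simp)
      refine ⟨?_, ?_⟩
      · change size r ≤ B
        rw [a4]
        cases (fr && !b)
        · exact b4.2
        · exact b4.1
      · by_cases e : r = none
        · refine Or.inr ⟨b1, by simp [b2], fun u0 p v0 h0 => ?_⟩
          rcases List.eq_nil_or_concat v0 with rfl | ⟨v1, q, rfl⟩
          · obtain ⟨rfl, h5⟩ := List.append_inj' h0 rfl
            obtain rfl := (List.cons.inj h5).1
            rw [ansOf, ← b2, ← a4, e]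
          · rw [List.concat_eq_append, ← List.cons_append, ← List.append_assoc] at h0
            exact b3 u0 p v1 (List.append_inj' h0 rfl).1
        · exact Or.inl e
  · rcases a1 with a1 | ⟨b1, _, b3⟩
    · exact a1
    · obtain ⟨u, p, v, h1, h2⟩ := h b1
      exact absurd (b3 u p v h1) h2

/-- an option that is not free and succeeds -/
theorem tryP_loc_paid {B : ℕ} {e1 e2 : F → Option A} (hB : size (pre c x) ≤ B)
    (hs : pre c x = none → ∀ p ∈ opts c x, size (e1 p.2) ≤ B ∧ size (e2 p.2) ≤ B)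
    (h : pre c x = none → ∃ g, (false, g) ∈ opts c x ∧ e2 g ≠ none) :
    (tryP pre opts).Loc c B e1 e2 x (· ≠ none) :=
  tryP_loc hB hs fun e => by
    obtain ⟨g, h1, h2⟩ := h e
    obtain ⟨u, v, h3⟩ := List.append_of_mem h1
    exact ⟨u, _, v, h3, h2⟩

theorem tryP_poly (h0 : PT (fun p : C × X => pre p.1 p.2)) (h1 : PT (fun p : C × X => opts p.1 p.2)) :
    (tryP pre opts).Poly :=
  ⟨h1, h0, by unfold tryP; fun_prop, by unfold tryP; fun_prop, by unfold tryP; fun_prop⟩
end options

section join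
variable {C F X G Ω₀ : Type} [Group G] [DecidableEq G] [MulAction G Ω₀] [DecidableEq Ω₀]

/-- translate a coset from the left -/
def lmul (τ : G) (a : Option (G × List G)) : Option (G × List G) := a.map (fun p => (τ * p.1, p.2))

theorem mem_lmul {τ g : G} {a : Option (G × List G)} : g ∈ cs (lmul τ a) ↔ τ⁻¹ * g ∈ cs a := by
  rcases a with _ | ⟨σ, S⟩
  · simp [lmul]
  · simp [lmul, mem_cs, mul_assoc]

/-- add generators to a coset -/
def addG (sp : List Unit) (base : List Ω₀) (K : List G) (a : Option (G × List G)) :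
    Option (G × List G) := a.map (fun p => (p.1, sims sp base (K ++ p.2)))

/-- All branches must succeed; the answer is the coset generated by the translated answers and the
extra generators. No list of branches means failure. -/
def joinP (sp : C → List Unit) (base : C → List Ω₀) (brs : C → X → Option (List (G × Bool × F)))
    (ext : C → X → List G) :
    Part C F X (G × Bool × F) (Option (Option (G × List G))) (Option (G × List G)) where
  todo c x := (brs c x).getD []
  ini c x := (brs c x).map (fun _ => none)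
  call _ _ t s := s.map (fun _ => t.2)
  upd c _ t s r := s.bind (fun a => r.map (fun b => join (sp c) (base c) a (lmul t.1 b)))
  fin c x s := s.map (addG (sp c) (base c) (ext c x))

variable {sp : C → List Unit} {base : C → List Ω₀} {brs : C → X → Option (List (G × Bool × F))}
  {ext : C → X → List G} {c : C} {x : X}

/-- `I` is the set of the solutions, `N` the set of the needed elements -/
theorem joinP_snd {Pre : F → Prop} {Post : F → Option (G × List G) → Prop}
    {R : Option (G × List G) → Prop} {A : Subgroup G} {I N : Set G}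
    (hf : Faith (sp c) (base c) A) (h1 : ∀ g ∈ I, ∀ g' ∈ I, g⁻¹ * g' ∈ A)
    (h2 : ∀ g ∈ I, ∀ u ∈ A, g * u ∈ I)
    (hR : ∀ a, N ⊆ cs a → cs a ⊆ I → (∀ p ∈ a, p.2.length ≤ (sp c).length) → R a)
    (h : ∀ L, brs c x = some L → gen (ext c x) ≤ A ∧
      (∀ t ∈ L, Pre t.2.2 ∧ ∀ a, Post t.2.2 a → ∀ g ∈ cs a, t.1 * g ∈ I) ∧
      ∀ g ∈ N, ∃ t ∈ L, ∃ k ∈ gen (ext c x), ∀ a, Post t.2.2 a → t.1⁻¹ * g * k ∈ cs a) :
    (joinP sp base brs ext).Snd c Pre Post x R := by
  refine ⟨fun u s => ∀ a, s = some a → ∃ L, brs c x = some L ∧ cs a ⊆ I ∧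
    ∀ t ∈ u, ∃ b, Post t.2.2 b ∧ cs (lmul t.1 b) ⊆ cs a, fun a e => ?_,
    fun u t v s _ _ a3 a e => ?_, fun u t v s b g a1 a2 a3 => ?_, fun s a a1 a2 => ?_⟩
  · obtain ⟨L, b1, b2⟩ := Option.map_eq_some_iff.1 e
    exact ⟨L, b1, by simp [← b2], by simp⟩
  · rw [e] at a3; cases a3
  · obtain ⟨a, rfl, b2⟩ := Option.map_eq_some_iff.1 a3
    obtain ⟨L, b3, b4, b5⟩ := a2 a rfl
    have ht : t ∈ L := by
      have : (brs c x).getD [] = u ++ t :: v := a1
      rw [b3] at this
      rw [show L = _ from this]; simp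
    obtain rfl : g = t.2.2 := by rw [b2]
    obtain ⟨c1, c2⟩ := (h L b3).2.1 t ht
    refine ⟨c1, fun r hr a' e => ?_⟩
    obtain ⟨b', rfl, rfl⟩ := Option.map_eq_some_iff.1 e
    have d1 := hr b' rfl
    obtain ⟨d2, d3⟩ := join_spec hf h1 h2 b4 (d := lmul t.1 b') (fun g hg => by
      simpa using c2 b' d1 _ (mem_lmul.1 hg))
    refine ⟨L, b3, d3, fun t' ht' => ?_⟩
    rcases List.mem_append.1 ht' with ht' | ht'
    · obtain ⟨b0, e1, e2⟩ := b5 t' ht'
      exact ⟨b0, e1, fun g hg => d2 (Or.inl (e2 hg))⟩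
    · rw [List.mem_singleton.1 ht']
      exact ⟨b', d1, fun g hg => d2 (Or.inr hg)⟩
  · obtain ⟨a0, rfl, rfl⟩ := Option.map_eq_some_iff.1 a2
    obtain ⟨L, b3, b4, b5⟩ := a1 a0 rfl
    obtain ⟨c1, _, c3⟩ := h L b3
    have hL : (joinP sp base brs ext).todo c x = L := by
      change (brs c x).getD [] = L
      rw [b3]; rfl
    rw [hL] at b5
    rcases a0 with _ | ⟨σ, S⟩
    · refine hR _ (fun g hg => ?_) (by simp [addG]) (by simp [addG])
      obtain ⟨t, ht, k, _, hk⟩ := c3 g hg
      obtain ⟨b, e1, e2⟩ := b5 t ht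
      have := e2 (a := g * k) (mem_lmul.2 (by simpa [mul_assoc] using hk b e1))
      simp at this
    · have d0 := b4 (self_mem_cs σ S)
      have d1 : gen (ext c x ++ S) ≤ A := by
        rw [gen_append]
        exact sup_le c1 (le_of_cs fun g hg => h1 _ d0 _ (b4 hg))
      refine hR _ (fun g hg => ?_) (fun g hg => ?_) (fun p hp => ?_)
      · obtain ⟨t, ht, k, hk0, hk⟩ := c3 g hg
        obtain ⟨b, e1, e2⟩ := b5 t ht
        have d2 := mem_cs.1 (e2 (a := g * k) (mem_lmul.2 (by simpa [mul_assoc] using hk b e1)))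
        change g ∈ cs (some (σ, _))
        rw [mem_cs, hf.gen_sims d1, gen_append]
        have := mul_mem (Subgroup.mem_sup_right (S := gen (ext c x)) d2)
          (inv_mem (Subgroup.mem_sup_left (T := gen S) hk0))
        simpa [mul_assoc] using this
      · change g ∈ cs (some (σ, _)) at hg
        rw [mem_cs, hf.gen_sims d1] at hg
        simpa using h2 _ d0 _ (d1 hg)
      · obtain rfl : (σ, sims (sp c) (base c) (ext c x ++ S)) = p := Option.some.inj hp
        exact sims_length _ _ _

variable [Enc C] [Enc F] [Enc X] [Enc G] [Enc Ω₀]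

/-- `W` contains all elements that occur; short cosets in `W` have size at most `B` -/
theorem joinP_loc {B n : ℕ} {e1 e2 : F → Option (Option (G × List G))} {W : Subgroup G}
    {L : List (G × Bool × F)} (hL : brs c x = some L) (hn : (sp c).length ≤ n)
    (hB : ∀ a : Option (G × List G), (∀ p ∈ a, p.1 ∈ W ∧ gen p.2 ≤ W ∧ p.2.length ≤ n) →
      size a + 2 ≤ B)
    (h : ∀ u t v, L = u ++ t :: v → t.1 ∈ W ∧
      ∃ a, ansOf e1 e2 (u.any (fun y => y.2.1)) t.2 = some a ∧
        ∀ p ∈ a, p.1 ∈ W ∧ gen p.2 ≤ W ∧ p.2.length ≤ n) :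
    (joinP sp base brs ext).Loc c B e1 e2 x (· ≠ none) := by
  have hT : (joinP sp base brs ext).todo c x = L := by
    change (brs c x).getD [] = L
    rw [hL]; rfl
  have hI : (joinP sp base brs ext).ini c x = some none := by
    change (brs c x).map _ = _
    rw [hL]; rfl
  refine ⟨fun u b s => b = u.any (fun y => y.2.1) ∧ ∃ a, s = some a ∧
    ∀ p ∈ a, p.1 ∈ W ∧ gen p.2 ≤ W ∧ p.2.length ≤ n, ⟨?_, rfl, none, hI, by simp⟩,
    fun u t v b s _ a2 a3 => ?_, fun u t v b s fr g r a1 a2 a3 a4 => ?_, fun b s a1 => ?_⟩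
  · rw [hI]; simpa using hB none (by simp)
  · obtain ⟨_, a, rfl, _⟩ := a2
    cases a3
  · obtain ⟨rfl, a, rfl, b2⟩ := a2
    have e : t.2 = (fr, g) := Option.some.inj a3
    obtain ⟨c0, a', c1, c2⟩ := h u t v (hT ▸ a1)
    rw [e] at c1
    obtain rfl : r = some a' := a4.trans c1
    have key : ∀ p ∈ join (sp c) (base c) a (lmul t.1 a'),
        p.1 ∈ W ∧ gen p.2 ≤ W ∧ p.2.length ≤ n := by
      rcases a' with _ | ⟨σ', S'⟩
      · rcases a with _ | ⟨σ, S⟩
        · simp [join, lmul]
        · simpa [join, lmul] using b2 _ rfl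
      · obtain ⟨d1, d2, d3⟩ := c2 _ rfl
        rcases a with _ | ⟨σ, S⟩
        · rintro p ⟨rfl⟩
          exact ⟨mul_mem c0 d1, d2, d3⟩
        · obtain ⟨f1, f2, _⟩ := b2 _ rfl
          rintro p ⟨rfl⟩
          refine ⟨f1, gen_le.2 fun y hy => ?_, (sims_length _ _ _).trans hn⟩
          refine (gen_le.2 fun z hz => ?_ : gen _ ≤ W) (sims_mem hy)
          rcases List.mem_cons.1 hz with rfl | hz
          · exact mul_mem (inv_mem f1) (mul_mem c0 d1)
          · exact (List.mem_append.1 hz).elim (fun h => f2 (mem_gen h)) (fun h => d2 (mem_gen h))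
    exact ⟨by simpa [joinP] using hB _ key, by simp [e], _, rfl, key⟩
  · obtain ⟨_, a, rfl, _⟩ := a1
    simp [joinP]

variable [PG G] [PA G Ω₀]

@[fun_prop] theorem pt_lmul {α : Type} [Enc α] {τ : α → G} {a : α → Option (G × List G)}
    (h1 : PT τ) (h2 : PT a) : PT (fun p => lmul (τ p) (a p)) := by unfold lmul; fun_prop

@[fun_prop] theorem pt_addG {α : Type} [Enc α] {sp : α → List Unit} {base : α → List Ω₀}
    {K : α → List G} {a : α → Option (G × List G)} (h0 : PT sp) (h1 : PT base) (h2 : PT K)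
    (h3 : PT a) : PT (fun p => addG (sp p) (base p) (K p) (a p)) := by unfold addG; fun_prop

theorem joinP_poly (h0 : PT sp) (h1 : PT base) (h2 : PT (fun p : C × X => brs p.1 p.2))
    (h3 : PT (fun p : C × X => ext p.1 p.2)) : (joinP sp base brs ext).Poly := by
  refine ⟨?_, ?_, ?_, ?_, ?_⟩
  · unfold joinP; fun_prop
  · unfold joinP; fun_prop
  · unfold joinP; fun_prop
  · unfold joinP; fun_prop
  · have := h3.comp (g := fun p : (C × X × Option (Option (G × List G))) × Option (G × List G) =>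
      (p.1.1, p.1.2.1)) (by fun_prop)
    exact PT.optMap (by fun_prop) (pt_addG (by fun_prop) (by fun_prop) this (by fun_prop))
end join

end Pool.Agent.P.MP_f1a348_lc.GX
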