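import Pool.Agent.P.MP_f1a348_lc.TO.EGrp
import Pool.Agent.P.MP_f1a348_lc.GX.Base

/-! Graph isomorphism: transporters, stabilisers, the giant test and reductions of a giant. -/

set_option autoImplicit false
set_option linter.unusedSectionVars false

namespace Pool.Agent.P.MP_f1a348_lc.GX

open Pool.Agent.Lib.Helper47 Pool.Agent.P.MP_f1a348_lc.GI Pool.Agent.P.MP_f1a348_lc.TO

variable {G G' Ω₀ Ω : Type} [Group G] [DecidableEq G] [MulAction G Ω₀] [DecidableEq Ω₀]
  [MulAction G Ω] [DecidableEq Ω] [Group G'] [DecidableEq G'] [MulAction G' Ω]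

/-! ### programs -/

/-- the elements of the coset `c` that carry each first entry of `l` to the second -/
def trL (pad : List Unit) (base : List Ω₀) (c : G × List G) (l : List (Ω × Ω)) :
    Option (G × List G) :=
  tower (fun (t : Ω × Ω) (g : G) => g • t.1 == t.1) (fun t g => g • t.1 == t.2) pad base l c.1 c.2

/-- the pointwise stabiliser of the list `P` -/
def stabL (pad : List Unit) (base : List Ω₀) (S : List G) (P : List Ω) : List G :=
  ((trL pad base (1, S) (P.map fun p => (p, p))).map Prod.snd).getD []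

/-- a transposition -/
def sw (a b x : Ω) : Ω := if x = a then b else if x = b then a else x

/-- the test for `Giant` -/
def giantB (pad : List Unit) (base : List Ω₀) (S : List G) (O : List Ω) : Bool :=
  O.all fun a => O.all fun b => O.all fun c => a == b || a == c || b == c ||
    (trL pad base (1, S) (O.map fun x => (x, sw a b (sw a c x)))).isSome

/-- the elements of the coset `c` that act on `O` like `π` -/
def liftO (pad : List Unit) (base : List Ω₀) (c : G × List G) (O : List Ω) (π : G') :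
    Option (G × List G) := trL pad base c (O.map fun x => (x, π • x))

/-- representatives for the elements of `⟨T⟩` modulo those induced by `⟨S⟩` on `O` -/
def meetR (pad : List Unit) (base : List Ω₀) (S : List G) (O : List Ω) (T : List G') : List G' :=
  bfs pad (fun π => (liftO pad base (1, S) O π).isSome) T

/-- generators for the elements of `⟨S⟩` that act on `O` like an element of `⟨T⟩` -/
def meetG (pad : List Unit) (base : List Ω₀) (S : List G) (O : List Ω) (T : List G') : List G :=
  sims pad base (stabL pad base S O ++ (schTriples (meetR pad base S O T) T).filterMap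
    fun π => (liftO pad base (1, S) O π).map Prod.fst)

/-- the elements of the coset `c` that act on `O` like an element of the coset `d` -/
def meet (pad : List Unit) (base : List Ω₀) (c : G × List G) (O : List Ω) (d : G' × List G') :
    Option (G × List G) :=
  (((meetR pad base c.2 O d.2).filterMap
    fun r => (liftO pad base c O (d.1 * r)).map Prod.fst).head?).map
    fun g => (g, meetG pad base c.2 O d.2)

/-! ### specifications -/

theorem trL_nil (pad : List Unit) (base : List Ω₀) (c : G × List G) :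
    trL pad base c ([] : List (Ω × Ω)) = some c := rfl

theorem trL_aux {pad : List Unit} {base : List Ω₀} {W : Subgroup G} (hf : Faith pad base W)
    (l : List (Ω × Ω)) (hl : ∀ t ∈ l, Idx (fixS [t.1]) W pad.length) :
    ∀ st : Option (G × List G), (∀ c ∈ st, gen c.2 ≤ W) →
      let r := l.foldl (towerStep (fun (t : Ω × Ω) (g : G) => g • t.1 == t.1)
        (fun t g => g • t.1 == t.2) pad base) st
      cs r = {g | g ∈ cs st ∧ ∀ t ∈ l, g • t.1 = t.2} ∧
        ∀ c' ∈ r, ∃ c ∈ st, gen c'.2 = gen c.2 ⊓ fixS (l.map Prod.fst) ∧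
          c'.2.length ≤ max pad.length c.2.length := by
  induction l with
  | nil =>
    intro st _
    refine ⟨by simp, fun c' h => ⟨c', h, ?_, le_max_right _ _⟩⟩
    ext g
    simp [mem_fixS]
  | cons t l ih =>
    intro st hst
    have ih := ih (fun s hs => hl s (List.mem_cons_of_mem _ hs))
    rcases st with _ | ⟨σ, S⟩
    · exact ih none (by simp) |>.imp (fun h => by
        rw [List.foldl_cons]
        refine Eq.trans h ?_
        ext g
        simp) (fun h c' h' => by
        obtain ⟨c, h1, -⟩ := h c' h'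
        cases h1)
    have hS : gen S ≤ W := hst (σ, S) rfl
    have e : ∀ u ∈ gen S, (fun g : G => g • t.1 == t.1) u = true ↔
        u ∈ (fixS [t.1] : Subgroup G) := fun u _ => by
      simp only [beq_iff_eq, mem_fixS, List.mem_singleton, forall_eq]
    have hi0 : Idx (fixS [t.1] : Subgroup G) W pad.length := hl t List.mem_cons_self
    have hi1 : Idx (fixS [t.1] : Subgroup G) (gen S) pad.length := hi0.mono hS le_rfl
    have hb := bfs_length (m := fun g : G => g • t.1 == t.1) pad e hi1
    have hc := bfs_cover (m := fun g : G => g • t.1 == t.1) e hb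
    have hg := gen_subG (m := fun g : G => g • t.1 == t.1) (hf.mono hS) e hb
    rw [List.foldl_cons]
    cases hfind : ((bfs pad (fun g : G => g • t.1 == t.1) S).map (fun r => σ * r)).find?
        (fun g => g • t.1 == t.2) with
    | none =>
      have e1 : towerStep (fun (t : Ω × Ω) (g : G) => g • t.1 == t.1) (fun t g => g • t.1 == t.2)
          pad base (some (σ, S)) t = none := by simp only [towerStep, Option.bind_some, hfind]; rfl
      rw [e1]
      obtain ⟨i1, i2⟩ := ih none (by simp)
      refine ⟨?_, fun c' h => ?_⟩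
      · rw [i1]
        ext g
        simp only [cs_none, Set.mem_ofPred_eq, Set.mem_empty_iff_false, false_and, false_iff]
        rintro ⟨h1, h2⟩
        obtain ⟨r, hr, h3⟩ := hc.2 _ (mem_cs.1 h1)
        have h4 := mem_fixS.1 h3.2 t.1 (by simp)
        refine List.find?_eq_none.1 hfind (σ * r) (List.mem_map_of_mem hr) ?_
        rw [mul_smul, mul_smul, inv_smul_eq_iff, inv_smul_eq_iff, h2 t List.mem_cons_self] at h4
        simp [mul_smul, h4]
      · obtain ⟨c, h, -⟩ := i2 c' h
        cases h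
    | some g =>
      have e1 : towerStep (fun (t : Ω × Ω) (g : G) => g • t.1 == t.1) (fun t g => g • t.1 == t.2)
          pad base (some (σ, S)) t = some (g, subG pad base (fun g : G => g • t.1 == t.1) S) := by
        simp only [towerStep, Option.bind_some, hfind]; rfl
      rw [e1]
      obtain ⟨r, hr, rfl⟩ := List.mem_map.1 (List.mem_of_find?_eq_some hfind)
      have h0 : (σ * r) • t.1 = t.2 := by simpa using List.find?_some hfind
      have hr' : r ∈ gen S := (bfs_spec (m := fun g : G => g • t.1 == t.1) pad e).2.1 r hr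
      obtain ⟨i1, i2⟩ := ih (some (σ * r, subG pad base (fun g : G => g • t.1 == t.1) S))
        (by rintro c ⟨rfl⟩; exact (subG_le _ _ _ _).trans hS)
      refine ⟨?_, fun c' h => ?_⟩
      · rw [i1]
        ext u
        simp only [Set.mem_ofPred_eq, mem_cs, hg, Subgroup.mem_inf, mem_fixS, List.mem_singleton,
          forall_eq, List.forall_mem_cons]
        have a1 : (σ * r)⁻¹ * u ∈ gen S ↔ σ⁻¹ * u ∈ gen S := by
          rw [mul_inv_rev, mul_assoc]
          exact Subgroup.mul_mem_cancel_left _ (inv_mem hr')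
        rw [a1, mul_smul, inv_smul_eq_iff, h0, and_assoc]
      · obtain ⟨c, h, j1, j2⟩ := i2 c' h
        cases h
        refine ⟨(σ, S), rfl, ?_, j2.trans ?_⟩
        · rw [j1, hg]
          ext u
          simp [mem_fixS, and_assoc]
        · exact max_le (le_max_left _ _) ((sims_length _ _ _).trans (le_max_left _ _))

section spec
variable {pad : List Unit} {base : List Ω₀}

theorem trL_cs {c : G × List G} (hf : Faith pad base (gen c.2)) {l : List (Ω × Ω)}
    (hl : ∀ t ∈ l, Idx (fixS [t.1]) (gen c.2) pad.length) :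
    cs (trL pad base c l) = {g | g ∈ cs (some c) ∧ ∀ t ∈ l, g • t.1 = t.2} :=
  (trL_aux hf l hl (some c) (by rintro _ ⟨rfl⟩; exact le_rfl)).1

theorem trL_gen {c c' : G × List G} (hf : Faith pad base (gen c.2)) {l : List (Ω × Ω)}
    (hl : ∀ t ∈ l, Idx (fixS [t.1]) (gen c.2) pad.length) (h : trL pad base c l = some c') :
    gen c'.2 = gen c.2 ⊓ fixS (l.map Prod.fst) := by
  obtain ⟨d, h1, h2, -⟩ := (trL_aux hf l hl (some c) (by rintro _ ⟨rfl⟩; exact le_rfl)).2 c' h
  cases h1
  exact h2

/-- without any hypothesis: the result lies in every subgroup that holds the input -/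
theorem trL_inv {c c' : G × List G} {l : List (Ω × Ω)} {W : Subgroup G} {n : ℕ}
    (hn : pad.length ≤ n) (h0 : c.1 ∈ W ∧ (∀ x ∈ c.2, x ∈ W) ∧ c.2.length ≤ n)
    (h : trL pad base c l = some c') : c'.1 ∈ W ∧ (∀ x ∈ c'.2, x ∈ W) ∧ c'.2.length ≤ n := by
  have key : ∀ (l : List (Ω × Ω)) (st : Option (G × List G)),
      (∀ s ∈ st, s.1 ∈ W ∧ (∀ x ∈ s.2, x ∈ W) ∧ s.2.length ≤ n) →
      ∀ s ∈ l.foldl (towerStep (fun (t : Ω × Ω) (g : G) => g • t.1 == t.1)
        (fun t g => g • t.1 == t.2) pad base) st,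
        s.1 ∈ W ∧ (∀ x ∈ s.2, x ∈ W) ∧ s.2.length ≤ n := by
    intro l
    induction l with
    | nil => exact fun st h => h
    | cons t l ih => exact fun st h => ih _ (towerStep_inv hn h)
  exact key l (some c) (by rintro _ ⟨rfl⟩; exact h0) c' h

theorem cs_nonempty {r : Option (G × List G)} : r.isSome = true ↔ (cs r).Nonempty := by
  rcases r with _ | ⟨σ, S⟩
  · simp
  · exact ⟨fun _ => ⟨σ, self_mem_cs σ S⟩, fun _ => rfl⟩

theorem trL_isSome {c : G × List G} (hf : Faith pad base (gen c.2)) {l : List (Ω × Ω)}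
    (hl : ∀ t ∈ l, Idx (fixS [t.1]) (gen c.2) pad.length) :
    (trL pad base c l).isSome = true ↔ ∃ g ∈ cs (some c), ∀ t ∈ l, g • t.1 = t.2 := by
  rw [cs_nonempty, trL_cs hf hl]; rfl

theorem InvL.idx' {K : Subgroup G} {D : List Ω} (h : InvL K D) (hp : D.length ≤ pad.length) {a : Ω}
    (ha : a ∈ D) : Idx (fixS [a]) K pad.length := (h.idx ha).mono le_rfl hp

theorem gen_stabL {S : List G} (hf : Faith pad base (gen S)) {P : List Ω}
    (hP : ∀ p ∈ P, Idx (fixS [p]) (gen S) pad.length) :
    gen (stabL pad base S P) = gen S ⊓ fixS P := by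
  have hl : ∀ t ∈ P.map (fun p => (p, p)), Idx (fixS [t.1]) (gen ((1 : G), S).2) pad.length := by
    simpa using hP
  unfold stabL
  cases h : trL pad base ((1 : G), S) (P.map fun p => (p, p)) with
  | none =>
    have := (trL_isSome (c := ((1 : G), S)) hf hl).2 ⟨1, self_mem_cs _ _, by simp⟩
    rw [h] at this
    cases this
  | some c' =>
    have := trL_gen (c := ((1 : G), S)) hf hl h
    simpa [List.map_map, Function.comp_def] using this

theorem stabL_le (pad : List Unit) (base : List Ω₀) (S : List G) (P : List Ω) :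
    gen (stabL pad base S P) ≤ gen S ∧
      (stabL pad base S P).length ≤ max pad.length S.length := by
  unfold stabL
  cases h : trL pad base ((1 : G), S) (P.map fun p => (p, p)) with
  | none => simp [gen]
  | some c' =>
    have := trL_inv (W := gen S) (le_max_left _ S.length)
      ⟨one_mem _, fun x hx => mem_gen hx, le_max_right _ _⟩ h
    exact ⟨gen_le.2 this.2.1, this.2.2⟩

theorem sw_eq (a b x : Ω) : sw a b x = Equiv.swap a b x := by
  rw [Equiv.swap_apply_def]; rfl

theorem giantB_iff {S : List G} (hf : Faith pad base (gen S)) {O : List Ω}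
    (hO : ∀ p ∈ O, Idx (fixS [p]) (gen S) pad.length) :
    giantB pad base S O = true ↔ Giant (gen S) O.toFinset := by
  have key : ∀ f : Ω → Ω, (trL pad base ((1 : G), S) (O.map fun x => (x, f x))).isSome = true ↔
      ∃ g ∈ gen S, ∀ x ∈ O, g • x = f x := fun f => by
    rw [trL_isSome (c := ((1 : G), S)) hf (by simpa using hO)]
    simp [mem_cs]
  simp only [giantB, List.all_eq_true, Bool.or_eq_true, beq_iff_eq, key, Giant, List.mem_toFinset,
    sw_eq, Equiv.Perm.mul_apply]
  refine forall₂_congr fun a _ => forall₂_congr fun b _ => forall₂_congr fun c _ => ?_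
  tauto

theorem liftO_cs {c : G × List G} (hf : Faith pad base (gen c.2)) {O : List Ω}
    (hO : ∀ p ∈ O, Idx (fixS [p]) (gen c.2) pad.length) (π : G') :
    cs (liftO pad base c O π) = {g | g ∈ cs (some c) ∧ ∀ x ∈ O, g • x = π • x} := by
  rw [liftO, trL_cs hf (by simpa using hO)]
  simp

/-- the elements of `G'` that act on `O` like an element of `K` -/
def indBy (K : Subgroup G) (O : List Ω) (h : InvL K O) : Subgroup G' where
  carrier := {π | ∃ g ∈ K, ∀ x ∈ O, g • x = π • x}
  one_mem' := ⟨1, one_mem _, by simp⟩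
  mul_mem' := fun {π ρ} ⟨g, a1, a2⟩ ⟨u, b1, b2⟩ => ⟨g * u, mul_mem a1 b1, fun x hx => by
    rw [mul_smul, mul_smul, a2 _ (h u b1 x hx), b2 x hx]⟩
  inv_mem' := fun {π} ⟨g, a1, a2⟩ => ⟨g⁻¹, inv_mem a1, fun x hx => by
    rw [eq_inv_smul_iff, ← a2 _ (h _ (inv_mem a1) x hx), smul_inv_smul]⟩

theorem mem_indBy {K : Subgroup G} {O : List Ω} {h : InvL K O} {π : G'} :
    π ∈ (indBy K O h : Subgroup G') ↔ ∃ g ∈ K, ∀ x ∈ O, g • x = π • x := Iff.rfl

theorem meetR_test {S : List G} (hf : Faith pad base (gen S)) {O : List Ω} (hO : InvL (gen S) O)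
    (hp : O.length ≤ pad.length) (π : G') :
    (liftO pad base ((1 : G), S) O π).isSome = true ↔ π ∈ (indBy (gen S) O hO : Subgroup G') := by
  rw [cs_nonempty, liftO_cs (c := ((1 : G), S)) hf (fun p hp' => InvL.idx' hO hp hp')]
  simp [Set.Nonempty, mem_cs, mem_indBy]

theorem meetG_le (pad : List Unit) (base : List Ω₀) (S : List G) (O : List Ω) (T : List G') :
    gen (meetG pad base S O T) ≤ gen S ∧ (meetG pad base S O T).length ≤ pad.length := by
  refine ⟨gen_le.2 fun x hx => ?_, sims_length _ _ _⟩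
  refine (gen_le.2 fun y hy => ?_ : gen _ ≤ gen S) (sims_mem hx)
  rcases List.mem_append.1 hy with hy | hy
  · exact (stabL_le pad base S O).1 (mem_gen hy)
  · obtain ⟨π, -, h⟩ := List.mem_filterMap.1 hy
    obtain ⟨c', h', rfl⟩ := Option.map_eq_some_iff.1 h
    exact (trL_inv (W := gen S) (c := (1, S)) (le_max_left _ S.length)
      ⟨one_mem _, fun x hx => mem_gen hx, le_max_right _ _⟩ h').1

theorem mem_meetG {S : List G} (hf : Faith pad base (gen S)) {O : List Ω} (hO : InvL (gen S) O)
    (hp : O.length ≤ pad.length) {T : List G'}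
    (hi : Idx (indBy (gen S) O hO) (gen T) pad.length) {g : G} :
    g ∈ gen (meetG pad base S O T) ↔ g ∈ gen S ∧ ∃ π ∈ gen T, ∀ x ∈ O, g • x = π • x := by
  have e : ∀ π ∈ gen T, (liftO pad base ((1 : G), S) O π).isSome = true ↔
      π ∈ (indBy (gen S) O hO : Subgroup G') := fun π _ => meetR_test hf hO hp π
  have hc := (bfs_cover e (bfs_length pad e hi)).1
  have hI : ∀ p ∈ O, Idx (fixS [p]) (gen S) pad.length := fun p hp' => InvL.idx' hO hp hp'
  have hst := gen_stabL hf hI
  set L := stabL pad base S O ++ (schTriples (meetR pad base S O T) T).filterMap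
    fun π => (liftO pad base ((1 : G), S) O π).map Prod.fst with hL
  have a0 : ∀ π c', liftO pad base ((1 : G), S) O π = some c' →
      c'.1 ∈ gen S ∧ ∀ x ∈ O, c'.1 • x = (π : G') • x := fun π c' h => by
    have := self_mem_cs c'.1 c'.2
    rw [← h, liftO_cs (c := ((1 : G), S)) hf hI] at this
    simpa [mem_cs] using this
  have a1 : ∀ y ∈ L, y ∈ gen S ∧ ∃ π ∈ gen T, ∀ x ∈ O, y • x = π • x := fun y hy => by
    rcases List.mem_append.1 hy with hy | hy
    · have := hst ▸ mem_gen hy
      exact ⟨this.1, 1, one_mem _, fun x hx => by rw [one_smul, mem_fixS.1 this.2 x hx]⟩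
    · obtain ⟨π, h1, h⟩ := List.mem_filterMap.1 hy
      obtain ⟨c', h', rfl⟩ := Option.map_eq_some_iff.1 h
      have : π ∈ gen T ⊓ indBy (gen S) O hO :=
        hc ▸ mem_gen (List.mem_filter.2 ⟨h1, by rw [h']; rfl⟩)
      exact ⟨(a0 π c' h').1, π, this.1, (a0 π c' h').2⟩
  have a2 : gen L ≤ gen S := gen_le.2 fun y hy => (a1 y hy).1
  rw [meetG, ← hL, hf.gen_sims a2]
  constructor
  · intro hg
    refine ⟨a2 hg, ?_⟩
    induction hg using Subgroup.closure_induction with
    | mem x hx => exact (a1 x hx).2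
    | one => exact ⟨1, one_mem _, by simp⟩
    | mul x y _ hy i1 i2 =>
      obtain ⟨π, b1, b2⟩ := i1
      obtain ⟨ρ, c1, c2⟩ := i2
      exact ⟨π * ρ, mul_mem b1 c1, fun z hz => by
        rw [mul_smul, mul_smul, b2 _ (hO y (a2 hy) z hz), c2 z hz]⟩
    | inv x hx i =>
      obtain ⟨π, b1, b2⟩ := i
      exact ⟨π⁻¹, inv_mem b1, fun z hz => by
        rw [eq_inv_smul_iff, ← b2 _ (hO _ (inv_mem (a2 hx)) z hz), smul_inv_smul]⟩
  · rintro ⟨h1, π, h2, h3⟩
    have b0 : π ∈ gen T ⊓ indBy (gen S) O hO := ⟨h2, g, h1, h3⟩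
    rw [← hc] at b0
    have b1 : π ∈ (indBy (gen L) O (hO.mono a2) : Subgroup G') := by
      refine (gen_le.2 fun ρ hρ => ?_ : gen _ ≤ _) b0
      obtain ⟨c1, c2⟩ := List.mem_filter.1 hρ
      obtain ⟨c', c3⟩ := Option.isSome_iff_exists.1 c2
      exact ⟨c'.1, mem_gen (List.mem_append_right _ (List.mem_filterMap.2 ⟨ρ, c1, by rw [c3]; rfl⟩)),
        (a0 ρ c' c3).2⟩
    obtain ⟨u, c1, c2⟩ := b1
    have c3 : u⁻¹ * g ∈ gen (stabL pad base S O) := by
      rw [hst]
      exact ⟨(gen S).mul_mem ((gen S).inv_mem (a2 c1)) h1, mem_fixS.2 fun x hx => by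
        rw [mul_smul, inv_smul_eq_iff, h3 x hx, c2 x hx]⟩
    simpa using mul_mem c1 (gen_mono (fun y hy => List.mem_append_left _ hy) c3)

theorem meet_cs {c : G × List G} (hf : Faith pad base (gen c.2)) {O : List Ω}
    (hO : InvL (gen c.2) O) (hp : O.length ≤ pad.length) {d : G' × List G'}
    (hi : Idx (indBy (gen c.2) O hO) (gen d.2) pad.length) :
    cs (meet pad base c O d) =
      {g | g ∈ cs (some c) ∧ ∃ π ∈ cs (some d), ∀ x ∈ O, g • x = π • x} := by
  obtain ⟨σ, S⟩ := c
  obtain ⟨τ, T⟩ := d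
  have e : ∀ π ∈ gen T, (liftO pad base ((1 : G), S) O π).isSome = true ↔
      π ∈ (indBy (gen S) O hO : Subgroup G') := fun π _ => meetR_test hf hO hp π
  have hc := (bfs_cover e (bfs_length pad e hi)).2
  have hI : ∀ p ∈ O, Idx (fixS [p]) (gen S) pad.length := fun p hp' => InvL.idx' hO hp hp'
  unfold meet
  cases h : ((meetR pad base S O T).filterMap
      fun r => (liftO pad base (σ, S) O (τ * r)).map Prod.fst).head? with
  | none =>
    ext g
    simp only [Option.map_none, cs_none, Set.mem_empty_iff_false, Set.mem_ofPred_eq, false_iff,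
      mem_cs]
    rintro ⟨h1, π, h2, h3⟩
    obtain ⟨r, hr, h4, u, h5, h6⟩ := hc _ h2
    have h7 : g * u⁻¹ ∈ cs (liftO pad base (σ, S) O (τ * r)) := by
      rw [liftO_cs (c := (σ, S)) hf hI]
      refine ⟨mem_cs.2 (by rw [← mul_assoc]; exact mul_mem h1 (inv_mem h5)), fun x hx => ?_⟩
      have h8 := hO _ (inv_mem h5) x hx
      have h9 := h6 _ h8
      rw [smul_inv_smul, mul_smul, mul_smul, eq_inv_smul_iff, eq_inv_smul_iff] at h9
      rw [mul_smul, h3 _ h8, ← h9, mul_smul]
    obtain ⟨c', c1⟩ := Option.isSome_iff_exists.1 (cs_nonempty.2 ⟨_, h7⟩)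
    have : c'.1 ∈ (meetR pad base S O T).filterMap
        fun r => (liftO pad base (σ, S) O (τ * r)).map Prod.fst :=
      List.mem_filterMap.2 ⟨r, hr, by rw [c1]; rfl⟩
    rw [List.head?_eq_none_iff.1 h] at this
    cases this
  | some g0 =>
    obtain ⟨r, hr, c0⟩ := List.mem_filterMap.1 (List.mem_of_mem_head? h)
    obtain ⟨c', c1, rfl⟩ := Option.map_eq_some_iff.1 c0
    have c2 := self_mem_cs c'.1 c'.2
    rw [← c1, liftO_cs (c := (σ, S)) hf hI] at c2
    obtain ⟨c3, c4⟩ := c2
    rw [mem_cs] at c3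
    have hr' : r ∈ gen T := (bfs_spec pad e).2.1 r hr
    ext g
    simp only [Option.map_some, mem_cs, mem_meetG hf hO hp hi, Set.mem_ofPred_eq]
    constructor
    · rintro ⟨h1, π, h2, h3⟩
      refine ⟨by simpa [mul_assoc] using mul_mem c3 h1, τ * r * π,
        by simpa [mul_assoc] using mul_mem hr' h2, fun x hx => ?_⟩
      have h4 := h3 x hx
      have h5 := hO _ h1 x hx
      rw [mul_smul (τ * r), ← h4, ← c4 _ h5, mul_smul, smul_inv_smul]
    · rintro ⟨h1, π, h2, h3⟩
      have h4 : c'.1⁻¹ * g ∈ gen S := by simpa [mul_assoc] using mul_mem (inv_mem c3) h1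
      refine ⟨h4, (τ * r)⁻¹ * π, by simpa [mul_assoc] using mul_mem (inv_mem hr') h2,
        fun x hx => ?_⟩
      rw [mul_smul (τ * r)⁻¹, eq_inv_smul_iff, ← c4 _ (hO _ h4 x hx), mul_smul, smul_inv_smul,
        h3 x hx]

theorem meet_inv {c c' : G × List G} {O : List Ω} {d : G' × List G'} {W : Subgroup G}
    (h0 : c.1 ∈ W ∧ ∀ x ∈ c.2, x ∈ W) (h : meet pad base c O d = some c') :
    c'.1 ∈ W ∧ gen c'.2 ≤ gen c.2 ∧ c'.2.length ≤ pad.length := by
  obtain ⟨g, h1, rfl⟩ := Option.map_eq_some_iff.1 h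
  obtain ⟨r, -, c0⟩ := List.mem_filterMap.1 (List.mem_of_mem_head? h1)
  obtain ⟨c'', c1, rfl⟩ := Option.map_eq_some_iff.1 c0
  exact ⟨(trL_inv (le_max_left _ c.2.length) ⟨h0.1, h0.2, le_max_right _ _⟩ c1).1,
    meetG_le _ _ _ _ _⟩

end spec

/-! ### running time -/

section time
variable [Enc G] [Enc G'] [Enc Ω₀] [Enc Ω] [PG G] [PG G'] [PA G Ω₀] [PA G Ω] [PA G' Ω]
  {α : Type} [Enc α]

@[fun_prop] theorem pt_trL {pad : α → List Unit} {base : α → List Ω₀} {c : α → G × List G}
    {l : α → List (Ω × Ω)} (h1 : PT pad) (h2 : PT base) (h3 : PT c) (h4 : PT l) :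
    PT (fun a => trL (pad a) (base a) (c a) (l a)) :=
  pt_tower (mem := fun _ (t : Ω × Ω) (g : G) => g • t.1 == t.1)
    (pass := fun _ t g => g • t.1 == t.2) (by fun_prop) (by fun_prop) h1 h2 h4 (by fun_prop)
    (by fun_prop)

@[fun_prop] theorem pt_stabL {pad : α → List Unit} {base : α → List Ω₀} {S : α → List G}
    {P : α → List Ω} (h1 : PT pad) (h2 : PT base) (h3 : PT S) (h4 : PT P) :
    PT (fun a => stabL (pad a) (base a) (S a) (P a)) := by
  unfold stabL; fun_prop

@[fun_prop] theorem pt_sw {f g h : α → Ω} (h1 : PT f) (h2 : PT g) (h3 : PT h) :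
    PT (fun a => sw (f a) (g a) (h a)) := by
  have : PT (fun a => if h a == f a then g a else if h a == g a then f a else h a) := by fun_prop
  exact this.of_eq fun a => by simp [sw]

@[fun_prop] theorem pt_giantB {pad : α → List Unit} {base : α → List Ω₀} {S : α → List G}
    {O : α → List Ω} (h1 : PT pad) (h2 : PT base) (h3 : PT S) (h4 : PT O) :
    PT (fun a => giantB (pad a) (base a) (S a) (O a)) := by
  unfold giantB; fun_prop

@[fun_prop] theorem pt_liftO {pad : α → List Unit} {base : α → List Ω₀} {c : α → G × List G}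
    {O : α → List Ω} {π : α → G'} (h1 : PT pad) (h2 : PT base) (h3 : PT c) (h4 : PT O)
    (h5 : PT π) : PT (fun a => liftO (pad a) (base a) (c a) (O a) (π a)) := by
  unfold liftO; fun_prop

@[fun_prop] theorem pt_meetR {pad : α → List Unit} {base : α → List Ω₀} {S : α → List G}
    {O : α → List Ω} {T : α → List G'} (h1 : PT pad) (h2 : PT base) (h3 : PT S) (h4 : PT O)
    (h5 : PT T) : PT (fun a => meetR (pad a) (base a) (S a) (O a) (T a)) :=
  pt_bfs h1 (by fun_prop) h5

@[fun_prop] theorem pt_meetG {pad : α → List Unit} {base : α → List Ω₀} {S : α → List G}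
    {O : α → List Ω} {T : α → List G'} (h1 : PT pad) (h2 : PT base) (h3 : PT S) (h4 : PT O)
    (h5 : PT T) : PT (fun a => meetG (pad a) (base a) (S a) (O a) (T a)) := by
  have := pt_schTriples (pt_meetR h1 h2 h3 h4 h5) h5
  unfold meetG; fun_prop

@[fun_prop] theorem pt_meet {pad : α → List Unit} {base : α → List Ω₀} {c : α → G × List G}
    {O : α → List Ω} {d : α → G' × List G'} (h1 : PT pad) (h2 : PT base) (h3 : PT c) (h4 : PT O)
    (h5 : PT d) : PT (fun a => meet (pad a) (base a) (c a) (O a) (d a)) := by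
  unfold meet; fun_prop

end time

end Pool.Agent.P.MP_f1a348_lc.GX
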