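import Pool.Agent.P.MP_f1a348_lc.GI.FDefs

/-! Graph isomorphism: hereditarily finite sets over the atoms `ℕ`, in normal form. -/

set_option autoImplicit false
set_option linter.unusedSectionVars false

namespace Pool.Agent.P.MP_f1a348_lc.GX

open Pool.Agent.Lib.Helper47 Pool.Agent.P.MP_f1a348_lc.GI

/-- normal forms: a tagged number, or a tagged strictly sorted list of normal forms -/
inductive NF : T → Prop
  | atom (n : ℕ) : NF (.cons .nil (Enc.toT n))
  | set (l : List T) (h : ∀ x, x ∈ l → NF x) (hs : l.Pairwise (fun a b => keyN a < keyN b)) :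
      NF (.cons (.cons .nil .nil) (lT l))

/-- hereditarily finite sets over the atoms `ℕ` -/
def Tm : Type := {t : T // NF t}

namespace Tm

/-- the tree -/
def val (t : Tm) : T := Subtype.val t
theorem nf (t : Tm) : NF t.val := Subtype.property t
theorem val_inj : Function.Injective val := Subtype.val_injective

instance : DecidableEq Tm := inferInstanceAs (DecidableEq {t : T // NF t})
instance : Enc Tm := ⟨val, val_inj⟩

/-- the members of a list code -/
def unl : T → List T
  | .nil => []
  | .cons a b => a :: unl b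

theorem unl_lT (l : List T) : unl (lT l) = l := by
  induction l with
  | nil => rfl
  | cons x l ih => simp [lT, unl, ih]

theorem lT_unl (t : T) : lT (unl t) = t := by
  induction t with
  | nil => rfl
  | cons a b _ ih => simp [lT, unl, ih]

theorem toT_list (l : List T) : Enc.toT l = lT l := by
  change lT (l.map id) = lT l
  rw [List.map_id]

/-- an atom -/
def atm (n : ℕ) : Tm := ⟨_, NF.atom n⟩

/-- the set with the listed members -/
def st (l : List Tm) : Tm :=
  ⟨_, NF.set (srt (l.map val).toFinset) (fun x hx => by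
    obtain ⟨y, _, rfl⟩ := List.mem_map.1 (List.mem_toFinset.1 (mem_srt.1 hx))
    exact y.nf) (srt_lt _)⟩

instance : Inhabited Tm := ⟨st []⟩

/-- the test for atoms -/
def isAt (t : Tm) : Bool := t.val.fst == T.nil

/-- the trees of the members -/
def elsT (t : Tm) : List T := bif t.isAt then [] else unl t.val.snd

theorem nf_elsT (t : Tm) : ∀ x ∈ t.elsT, NF x := by
  obtain ⟨t, ht⟩ := t
  cases ht with
  | atom n => intro x hx; simp [elsT, isAt, val, T.fst] at hx
  | set l h hs =>
    intro x hx
    simp only [elsT, isAt, val, T.fst, T.snd, unl_lT] at hx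
    exact h x hx

/-- the members (none for an atom) -/
def els (t : Tm) : List Tm := t.elsT.attachWith NF t.nf_elsT

theorem map_val_els (t : Tm) : t.els.map val = t.elsT := List.attachWith_map_subtype_val _

/-- the number of an atom -/
noncomputable def atv (t : Tm) : ℕ := bif t.isAt then Function.invFun Enc.toT t.val.snd else 0

@[simp] theorem isAt_at (n : ℕ) : (atm n).isAt = true := rfl
@[simp] theorem isAt_st (l : List Tm) : (st l).isAt = false := rfl
@[simp] theorem atv_at (n : ℕ) : (atm n).atv = n :=
  Function.leftInverse_invFun (f := (Enc.toT : ℕ → T)) Enc.inj n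
@[simp] theorem atv_st (l : List Tm) : (st l).atv = 0 := rfl
@[simp] theorem els_at (n : ℕ) : (atm n).els = [] := rfl

theorem elsT_st (l : List Tm) : (st l).elsT = srt (l.map val).toFinset := unl_lT _

@[simp] theorem mem_els_st {l : List Tm} {x : Tm} : x ∈ (st l).els ↔ x ∈ l := by
  rw [← List.mem_map_of_injective val_inj, map_val_els, elsT_st, mem_srt, List.mem_toFinset,
    List.mem_map_of_injective val_inj]

theorem at_injective : Function.Injective atm := fun m n h => by
  rw [← atv_at m, h, atv_at]

@[simp] theorem at_inj {m n : ℕ} : atm m = atm n ↔ m = n := at_injective.eq_iff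

@[simp] theorem at_ne_st (n : ℕ) (l : List Tm) : atm n ≠ st l := fun h => by
  have := congrArg isAt h
  simp at this

@[simp] theorem st_ne_at (n : ℕ) (l : List Tm) : st l ≠ atm n := (at_ne_st n l).symm

theorem st_eq_iff {l l' : List Tm} : st l = st l' ↔ ∀ x, x ∈ l ↔ x ∈ l' := by
  refine ⟨fun h x => by rw [← mem_els_st, h, mem_els_st], fun h => val_inj ?_⟩
  have : (l.map val).toFinset = (l'.map val).toFinset := by
    ext x
    simp only [List.mem_toFinset, List.mem_map, h]
  change T.cons _ (lT (srt _)) = T.cons _ (lT (srt _))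
  rw [this]

/-- every term is an atom or a set of smaller terms -/
@[elab_as_elim] theorem ind {P : Tm → Prop} (h1 : ∀ n, P (atm n))
    (h2 : ∀ l : List Tm, (∀ x ∈ l, P x) → P (st l)) (t : Tm) : P t := by
  obtain ⟨t, ht⟩ := t
  induction ht with
  | atom n => exact h1 n
  | set l h hs ih =>
    have e : (⟨_, NF.set l h hs⟩ : Tm) = st (l.attachWith NF h) := by
      refine val_inj ?_
      change T.cons _ (lT l) = T.cons _ (lT (srt ((l.attachWith NF h).map Subtype.val).toFinset))
      rw [List.attachWith_map_subtype_val, ← eq_srt hs (fun _ => List.mem_toFinset.symm)]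
    rw [e]
    refine h2 _ (fun x hx => ?_)
    obtain ⟨x, hx'⟩ := x
    exact ih x ((List.mem_attachWith _ _).1 hx)

theorem cases (t : Tm) : (∃ n, t = atm n) ∨ ∃ l, t = st l :=
  ind (fun n => Or.inl ⟨n, rfl⟩) (fun l _ => Or.inr ⟨l, rfl⟩) t

theorem at_atv {t : Tm} (h : t.isAt = true) : atm t.atv = t := by
  rcases t.cases with ⟨n, rfl⟩ | ⟨l, rfl⟩
  · simp
  · simp at h

theorem st_els {t : Tm} (h : t.isAt = false) : st t.els = t := by
  rcases t.cases with ⟨n, rfl⟩ | ⟨l, rfl⟩
  · simp at h
  · exact st_eq_iff.2 fun _ => mem_els_st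

theorem nodup_els (t : Tm) : t.els.Nodup := by
  refine List.Nodup.of_map val ?_
  rw [map_val_els]
  rcases t.cases with ⟨n, rfl⟩ | ⟨l, rfl⟩
  · exact List.nodup_nil
  · rw [elsT_st]; exact Finset.sort_nodup _ _

theorem els_st_subperm (l : List Tm) : (st l).els.Subperm l :=
  (nodup_els _).subperm fun _ => mem_els_st.1

theorem els_st_perm {l : List Tm} (h : l.Nodup) : (st l).els.Perm l :=
  (List.perm_ext_iff_of_nodup (nodup_els _) h).2 fun _ => mem_els_st

/-- two sets with the same members are equal -/
theorem ext_els {s t : Tm} (hs : s.isAt = false) (ht : t.isAt = false)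
    (h : ∀ x, x ∈ s.els ↔ x ∈ t.els) : s = t := by
  rw [← st_els hs, ← st_els ht]; exact st_eq_iff.2 h

/-! ### sizes -/

theorem toT_els (t : Tm) : Enc.toT t.els = lT t.elsT := by
  rw [← map_val_els]; rfl

theorem size_at (n : ℕ) : size (atm n) = size n + 2 := by
  change (T.cons .nil (Enc.toT n)).size = (Enc.toT n).size + 2
  simp; omega

theorem size_st (l : List Tm) : size (st l) = size (st l).els + 4 := by
  change (T.cons (.cons .nil .nil) (lT (srt (l.map val).toFinset))).size =
    (Enc.toT (st l).els).size + 4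
  rw [toT_els, elsT_st]
  simp; omega

theorem size_els (t : Tm) : size t.els ≤ size t := by
  rcases t.cases with ⟨n, rfl⟩ | ⟨l, rfl⟩
  · simp [size_at]
  · rw [size_st]; omega

theorem size_lt {t x : Tm} (h : x ∈ t.els) : size x < size t :=
  (size_lt_of_mem h).trans_le t.size_els

theorem size_list {β : Type} [Enc β] (l : List β) :
    size l = (l.map (fun x => size x + 1)).sum + 1 := by
  induction l with
  | nil => rfl
  | cons x l ih => simp only [size_cons, List.map_cons, List.sum_cons]; omega

theorem sum_els_le (l : List Tm) (f : Tm → ℕ) : ((st l).els.map f).sum ≤ (l.map f).sum := by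
  obtain ⟨m, h1, h2⟩ := els_st_subperm l
  rw [← (h1.map f).sum_eq]
  exact (h2.map f).sum_le_sum (fun _ _ => Nat.zero_le _)

theorem size_st_le (l : List Tm) : size (st l) ≤ size l + 4 := by
  have := sum_els_le l (fun x => size x + 1)
  rw [size_st, size_list, size_list l]; omega

/-! ### polynomial time -/

section pt
variable {α β : Type} [Enc α] [Enc β]

theorem pt_val {f : α → Tm} (hf : PT f) : PT (fun a => (f a).val) := hf.cast fun _ => rfl

theorem pt_fstT {f : α → T} (hf : PT f) : PT (fun a => (f a).fst) := R.trans hf (R.of_sub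
  (R.fst (e := (id : T → T))) (fun a => ⟨f a, rfl, rfl⟩))

theorem pt_sndT {f : α → T} (hf : PT f) : PT (fun a => (f a).snd) := R.trans hf (R.of_sub
  (R.snd (e := (id : T → T))) (fun a => ⟨f a, rfl, rfl⟩))

@[fun_prop] theorem pt_at {f : α → ℕ} (hf : PT f) : PT (fun a => atm (f a)) :=
  (PT.prodMk (PT.const false) hf).cast fun _ => rfl

@[fun_prop] theorem pt_st {l : α → List Tm} (hl : PT l) : PT (fun a => st (l a)) := by
  have h1 : PT (fun a => (l a).map val) := hl.cast fun a => by
    rw [toT_list]; rfl
  refine (PT.prodMk (PT.const true) (pt_srt.comp h1)).cast fun a => ?_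
  rw [toT_pair, toT_list]; rfl

@[fun_prop] theorem pt_isAt {f : α → Tm} (hf : PT f) : PT (fun a => (f a).isAt) :=
  PT.beq (pt_fstT (pt_val hf)) (PT.const _)

@[fun_prop] theorem pt_els {f : α → Tm} (hf : PT f) : PT (fun a => (f a).els) := by
  refine (PT.cond (pt_isAt hf) (PT.const T.nil) (pt_sndT (pt_val hf))).cast fun a => ?_
  rw [toT_els, elsT]
  cases (f a).isAt
  · exact (lT_unl _).symm
  · rfl

@[fun_prop] theorem pt_atv {f : α → Tm} (hf : PT f) : PT (fun a => (f a).atv) := by
  refine (PT.cond (pt_isAt hf) (pt_sndT (pt_val hf)) (PT.const T.nil)).cast fun a => ?_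
  rcases (f a).cases with ⟨n, h⟩ | ⟨l, h⟩
  · rw [h, atv_at]; rfl
  · rw [h, atv_st]; rfl

/-- the terms at depth `k` -/
def lv (t : Tm) (k : ℕ) : List Tm := (fun l : List Tm => l.flatMap els)^[k] [t]

theorem lv_succ (t : Tm) (k : ℕ) : t.lv (k + 1) = (t.lv k).flatMap els :=
  Function.iterate_succ_apply' _ _ _

theorem lv_size (t : Tm) (k : ℕ) : size (t.lv k) ≤ size t + 2 ∧ ∀ x ∈ t.lv k, size x + k ≤ size t := by
  induction k with
  | zero => simp [lv]
  | succ k ih =>
    rw [lv_succ]
    refine ⟨(size_flat _ _ size_els).trans ih.1, fun x hx => ?_⟩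
    obtain ⟨y, hy, hx⟩ := List.mem_flatMap.1 hx
    have := ih.2 y hy
    have := size_lt hx
    omega

/-- recursion on terms runs in polynomial time when the values are short -/
theorem pt_rec {F : α → Tm → β} {step : α → Tm → List (Tm × β) → β} {t : α → Tm}
    (hF : ∀ a s, F a s = step a s (s.els.map (fun x => (x, F a x))))
    (hs : PT (fun p : α × Tm × List (Tm × β) => step p.1 p.2.1 p.2.2)) (ht : PT t)
    (B : α → ℕ) (hB : PS B) (hsz : ∀ a s, size s ≤ size (t a) → size (F a s) ≤ B a) :
    PT (fun a => F a (t a)) := by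
  let u : α → List Bool := fun a => (Enc.toT (t a)).enc
  have hu : PT u := PT.comp PT.code ht
  have hul : ∀ a, (u a).length = size (t a) := fun _ => rfl
  have hlv : PT (fun p : α × ℕ => (t p.1).lv ((u p.1).drop (p.2 + 1)).length) := by
    refine PT.iterate (f := fun (_ : α × ℕ) (l : List Tm) => l.flatMap els) (by fun_prop)
      (by fun_prop) (by fun_prop) (fun p => size (t p.1) + 2) ?_ (fun p i _ => (lv_size _ i).1)
    have : PT (fun p : α × ℕ => t p.1) := by fun_prop
    exact this.size_le.add (PB.const 2)
  let f : α → List (Tm × β) → ℕ → List (Tm × β) := fun a τ i =>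
    ((t a).lv ((u a).drop (i + 1)).length).map (fun s =>
      (s, step a s (s.els.filterMap (fun x => τ.find? (fun p => p.1 == x)))))
  have hf : PT (fun p : α × List (Tm × β) × ℕ => f p.1 p.2.1 p.2.2) := by
    refine PT.map (g := fun (p : α × List (Tm × β) × ℕ) (s : Tm) =>
      (s, step p.1 s (s.els.filterMap (fun x => p.2.1.find? (fun q => q.1 == x))))) ?_
      (hlv.comp (g := fun p : α × List (Tm × β) × ℕ => (p.1, p.2.2)) (by fun_prop))
    refine PT.prodMk (by fun_prop) ?_
    exact hs.comp (g := fun q : (α × List (Tm × β) × ℕ) × Tm =>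
      (q.1.1, q.2, q.2.els.filterMap (fun x => q.1.2.1.find? (fun r => r.1 == x)))) (by fun_prop)
  have key : ∀ a i, i ≤ size (t a) → (List.range i).foldl (f a) [] =
      ((t a).lv (size (t a) - i)).map (fun s => (s, F a s)) := by
    intro a i
    induction i with
    | zero =>
      intro _
      cases e : (t a).lv (size (t a) - 0) with
      | nil => rfl
      | cons x l =>
        have h1 := (lv_size (t a) (size (t a) - 0)).2 x (by rw [e]; simp)
        have h2 := size_pos x
        omega
    | succ i ih =>
      intro hi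
      rw [List.range_succ, List.foldl_append, ih (by omega), List.foldl_cons, List.foldl_nil]
      simp only [f, List.length_drop, hul]
      refine List.map_congr_left fun s hs => ?_
      rw [hF a s]
      congr 2
      rw [← List.filterMap_eq_map]
      refine List.filterMap_congr fun x hx => ?_
      have hx' : x ∈ (t a).lv (size (t a) - i) := by
        rw [show size (t a) - i = size (t a) - (i + 1) + 1 by omega, lv_succ]
        exact List.mem_flatMap.2 ⟨s, hs, hx⟩
      cases e : List.find? (fun p : Tm × β => p.1 == x)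
          (((t a).lv (size (t a) - i)).map (fun s => (s, F a s))) with
      | none =>
        rw [List.find?_eq_none] at e
        exact absurd (by simp) (e (x, F a x) (List.mem_map_of_mem hx'))
      | some p =>
        have h1 : p.1 = x := by simpa using List.find?_some e
        obtain ⟨y, _, rfl⟩ := List.mem_map.1 (List.mem_of_find?_eq_some e)
        obtain rfl : y = x := h1
        rw [List.filterMap_eq_map, e]
        rfl
  have h1 := ht.size_le
  have main := PT.foldl hf (PT.rangeLength hu) (PT.const [])
    (fun a => (size (t a) + 2) * (size (t a) + B a + 2) + 1)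
    (((h1.add (PB.const 2)).mul ((h1.add hB).add (PB.const 2))).add (PB.const 1))
    (fun a w hw => by
      have hw1 : w.length ≤ size (t a) := by simpa [hul] using hw.length_le
      have hw2 : w = List.range w.length := by
        rw [List.prefix_iff_eq_take.1 hw, List.take_range]
        simp
      rw [hw2, key a _ hw1]
      have h2 := lv_size (t a) (size (t a) - w.length)
      refine (size_list_le (B := size (t a) + B a + 1) (fun p hp => ?_)).trans ?_
      · obtain ⟨y, hy, rfl⟩ := List.mem_map.1 hp
        have := h2.2 y hy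
        have := hsz a y (by omega)
        rw [size_pair]; omega
      · have := length_lt_size ((t a).lv (size (t a) - w.length))
        rw [List.length_map]
        nlinarith [h2.1])
  have m2 : PT (fun a => ((t a, F a (t a)), ())) := main.cast fun a => by
    rw [hul, key a _ le_rfl, Nat.sub_self]; rfl
  exact PT.snd (PT.fst m2)

end pt

/-! ### recursion -/

/-- recursion over the members -/
noncomputable def fold {β : Type} (f : ℕ → β) (h : List β → β) (t : Tm) : β :=
  bif t.isAt then f t.atv else h (t.els.attach.map (fun x => fold f h x.1))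
termination_by size t
decreasing_by exact size_lt x.2

theorem fold_eq {β : Type} (f : ℕ → β) (h : List β → β) (t : Tm) :
    fold f h t = bif t.isAt then f t.atv else h (t.els.map (fold f h)) := by
  rw [fold, List.attach_map_val]

@[simp] theorem fold_at {β : Type} (f : ℕ → β) (h : List β → β) (n : ℕ) :
    fold f h (atm n) = f n := by rw [fold_eq]; simp

theorem fold_st {β : Type} (f : ℕ → β) (h : List β → β) (l : List Tm) :
    fold f h (st l) = h ((st l).els.map (fold f h)) := by rw [fold_eq]; simp

theorem pt_fold {α β : Type} [Enc α] [Enc β] {f : α → ℕ → β} {h : α → List β → β} {t : α → Tm}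
    (hf : PT (fun p : α × ℕ => f p.1 p.2)) (hh : PT (fun p : α × List β => h p.1 p.2)) (ht : PT t)
    (B : α → ℕ) (hB : PS B) (hsz : ∀ a s, size s ≤ size (t a) → size (fold (f a) (h a) s) ≤ B a) :
    PT (fun a => fold (f a) (h a) (t a)) := by
  refine pt_rec (F := fun a => fold (f a) (h a))
    (step := fun a s τ => bif s.isAt then f a s.atv else h a (τ.map Prod.snd))
    (fun a s => by rw [fold_eq, List.map_map]; rfl) ?_ ht B hB hsz
  exact PT.cond (by fun_prop)
    (hf.comp (g := fun p : α × Tm × List (Tm × β) => (p.1, p.2.1.atv)) (by fun_prop))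
    (hh.comp (g := fun p : α × Tm × List (Tm × β) => (p.1, p.2.2.map Prod.snd)) (by fun_prop))

/-! ### renaming the atoms -/

/-- apply a map to all atoms -/
noncomputable def ren (φ : ℕ → ℕ) : Tm → Tm := fold (fun n => atm (φ n)) st

@[simp] theorem ren_at (φ : ℕ → ℕ) (n : ℕ) : ren φ (atm n) = atm (φ n) := fold_at _ _ _

theorem ren_st (φ : ℕ → ℕ) (l : List Tm) : ren φ (st l) = st (l.map (ren φ)) := by
  rw [ren, fold_st]
  exact st_eq_iff.2 fun x => by simp only [List.mem_map, mem_els_st]

theorem ren_id (t : Tm) : ren id t = t := by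
  induction t using ind with
  | h1 n => simp
  | h2 l ih => rw [ren_st, List.map_congr_left (g := id) ih, List.map_id]

theorem ren_comp (φ ψ : ℕ → ℕ) (t : Tm) : ren (φ ∘ ψ) t = ren φ (ren ψ t) := by
  induction t using ind with
  | h1 n => simp
  | h2 l ih => rw [ren_st, ren_st, ren_st, List.map_map, List.map_congr_left ih]; rfl

noncomputable instance : MulAction (FP ℕ) Tm where
  smul g t := ren g.app t
  one_smul := ren_id
  mul_smul g h := ren_comp g.app h.app

theorem smul_def (g : FP ℕ) (t : Tm) : g • t = ren g.app t := rfl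

@[simp] theorem smul_at (g : FP ℕ) (n : ℕ) : g • atm n = atm (g.app n) := ren_at _ _

theorem smul_st (g : FP ℕ) (l : List Tm) : g • st l = st (l.map (fun x => g • x)) := ren_st _ _

@[simp] theorem isAt_smul (g : FP ℕ) (t : Tm) : (g • t).isAt = t.isAt := by
  rcases t.cases with ⟨n, rfl⟩ | ⟨l, rfl⟩
  · simp
  · simp [smul_st]

theorem mem_els_smul {g : FP ℕ} {t x : Tm} : x ∈ (g • t).els ↔ ∃ y ∈ t.els, g • y = x := by
  rcases t.cases with ⟨n, rfl⟩ | ⟨l, rfl⟩
  · simp
  · simp [smul_st]

@[simp] theorem smul_mem_els {g : FP ℕ} {t x : Tm} : g • x ∈ (g • t).els ↔ x ∈ t.els := by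
  simp [mem_els_smul]

theorem els_smul_perm (g : FP ℕ) (t : Tm) : (g • t).els.Perm (t.els.map (fun x => g • x)) :=
  (List.perm_ext_iff_of_nodup (nodup_els _) ((nodup_els _).map (MulAction.injective g))).2
    fun x => by simp [mem_els_smul]

@[simp] theorem length_els_smul (g : FP ℕ) (t : Tm) : (g • t).els.length = t.els.length := by
  simpa using (els_smul_perm g t).length_eq

/-! ### weight and atoms -/

/-- the number of nodes -/
noncomputable def wt : Tm → ℕ := fold (fun _ => 1) (fun l => 1 + l.sum)

@[simp] theorem wt_at (n : ℕ) : wt (atm n) = 1 := fold_at _ _ _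

theorem wt_eq (t : Tm) : wt t = 1 + (t.els.map wt).sum := by
  rcases t.cases with ⟨n, rfl⟩ | ⟨l, rfl⟩
  · simp
  · exact fold_st _ _ _

theorem wt_pos (t : Tm) : 0 < wt t := by rw [wt_eq]; omega

theorem wt_st_le (l : List Tm) : wt (st l) ≤ 1 + (l.map wt).sum := by
  rw [wt_eq]; exact Nat.add_le_add_left (sum_els_le l wt) 1

theorem wt_st_le' {l : List Tm} {B : ℕ} (h : ∀ x ∈ l, wt x ≤ B) : wt (st l) ≤ 1 + l.length * B := by
  refine (wt_st_le l).trans (Nat.add_le_add_left ?_ 1)
  have := List.sum_le_card_nsmul (l.map wt) B (fun x hx => by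
    obtain ⟨y, hy, rfl⟩ := List.mem_map.1 hx
    exact h y hy)
  simpa using this

theorem wt_lt {t x : Tm} (h : x ∈ t.els) : wt x < wt t := by
  have := List.single_le_sum (l := t.els.map wt) (fun _ _ => Nat.zero_le _) _
    (List.mem_map_of_mem h)
  rw [wt_eq t]; omega

theorem length_els_lt (t : Tm) : t.els.length < wt t := by
  have := List.length_le_sum_of_one_le (t.els.map wt) (fun x hx => by
    obtain ⟨y, _, rfl⟩ := List.mem_map.1 hx
    exact y.wt_pos)
  rw [List.length_map] at this
  rw [wt_eq t]; omega

@[simp] theorem wt_smul (g : FP ℕ) (t : Tm) : wt (g • t) = wt t := by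
  induction t using ind with
  | h1 n => simp
  | h2 l ih =>
    rw [wt_eq, wt_eq (st l), ((els_smul_perm g _).map wt).sum_eq, List.map_map]
    congr 2
    exact List.map_congr_left fun x hx => ih x (mem_els_st.1 hx)

theorem wt_le_size (t : Tm) : wt t ≤ size t := by
  induction t using ind with
  | h1 n => simp [size_at]
  | h2 l ih =>
    have := List.sum_le_sum (l := (st l).els) (f := wt) (g := fun x => size x + 1)
      (fun x hx => (ih x (mem_els_st.1 hx)).trans (Nat.le_succ _))
    rw [wt_eq, size_st, size_list]; omega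

/-- the atoms that occur in a term -/
noncomputable def atoms : Tm → List ℕ := fold (fun n => [n]) List.flatten

@[simp] theorem atoms_at (n : ℕ) : atoms (atm n) = [n] := fold_at _ _ _

theorem atoms_st (l : List Tm) : atoms (st l) = (st l).els.flatMap atoms := fold_st _ _ _

theorem mem_atoms_st {l : List Tm} {n : ℕ} : n ∈ atoms (st l) ↔ ∃ x ∈ l, n ∈ atoms x := by
  simp [atoms_st]

theorem atoms_els {t x : Tm} (h : x ∈ t.els) {n : ℕ} (hn : n ∈ atoms x) : n ∈ atoms t := by
  rcases t.cases with ⟨m, rfl⟩ | ⟨l, rfl⟩
  · simp at h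
  · exact mem_atoms_st.2 ⟨x, mem_els_st.1 h, hn⟩

theorem mem_atoms_ren {φ : ℕ → ℕ} {t : Tm} {n : ℕ} :
    n ∈ atoms (ren φ t) ↔ ∃ m ∈ atoms t, φ m = n := by
  induction t using ind with
  | h1 m => simp [eq_comm]
  | h2 l ih =>
    simp only [ren_st, mem_atoms_st, List.mem_map]
    constructor
    · rintro ⟨_, ⟨x, hx, rfl⟩, h⟩
      obtain ⟨m, hm, e⟩ := (ih x hx).1 h
      exact ⟨m, ⟨x, hx, hm⟩, e⟩
    · rintro ⟨m, ⟨x, hx, hm⟩, e⟩
      exact ⟨_, ⟨x, hx, rfl⟩, (ih x hx).2 ⟨m, hm, e⟩⟩

theorem mem_atoms_smul {g : FP ℕ} {t : Tm} {n : ℕ} :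
    n ∈ atoms (g • t) ↔ ∃ m ∈ atoms t, g.app m = n := mem_atoms_ren

/-- the image depends only on the values at the atoms of the term -/
theorem ren_congr {φ ψ : ℕ → ℕ} {t : Tm} (h : ∀ n ∈ atoms t, φ n = ψ n) : ren φ t = ren ψ t := by
  induction t using ind with
  | h1 n => simp [h n (by simp)]
  | h2 l ih =>
    rw [ren_st, ren_st, List.map_congr_left fun x hx =>
      ih x hx fun n hn => h n (mem_atoms_st.2 ⟨x, hx, hn⟩)]

theorem smul_congr {g h : FP ℕ} {t : Tm} (e : ∀ n ∈ atoms t, g.app n = h.app n) : g • t = h • t :=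
  ren_congr e

theorem smul_fix {g : FP ℕ} {t : Tm} (e : ∀ n ∈ atoms t, g.app n = n) : g • t = t :=
  (ren_congr (ψ := id) e).trans (ren_id t)

theorem size_atoms (t : Tm) : size (atoms t) ≤ size t := by
  induction t using ind with
  | h1 n => simp [size_at]
  | h2 l ih =>
    have : ∀ m : List Tm, (∀ x ∈ m, x ∈ l) → size (m.flatMap atoms) ≤ size m := by
      intro m
      induction m with
      | nil => simp
      | cons b m ihm =>
        intro hm
        have := size_append (atoms b) (m.flatMap atoms)
        have := ih b (hm b (by simp))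
        have := ihm (fun x hx => hm x (by simp [hx]))
        simp only [List.flatMap_cons, size_cons]; omega
    rw [atoms_st]
    exact (this _ fun _ => mem_els_st.1).trans (size_els _)

theorem size_atom_lt {t : Tm} {n : ℕ} (h : n ∈ atoms t) : size n < size t :=
  (size_lt_of_mem h).trans_le t.size_atoms

theorem size_le_wt {t : Tm} {A : ℕ} (h : ∀ n ∈ atoms t, size n ≤ A) :
    size t + 1 ≤ wt t * (A + 6) := by
  induction t using ind with
  | h1 n =>
    have := h n (by simp)
    simp only [size_at, wt_at]; omega
  | h2 l ih =>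
    have h1 := List.sum_le_sum (l := (st l).els) (f := fun x => size x + 1)
      (g := fun x => wt x * (A + 6)) (fun x hx =>
        ih x (mem_els_st.1 hx) fun n hn => h n (atoms_els hx hn))
    rw [List.sum_map_mul_right] at h1
    rw [wt_eq, size_st, size_list]
    nlinarith

/-- all atoms are below `M` -/
def AB (M : ℕ) (t : Tm) : Prop := ∀ n ∈ atoms t, n < M

@[simp] theorem ab_at {M n : ℕ} : AB M (atm n) ↔ n < M := by simp [AB]

theorem ab_st {M : ℕ} {l : List Tm} : AB M (st l) ↔ ∀ x ∈ l, AB M x :=
  ⟨fun h x hx n hn => h n (mem_atoms_st.2 ⟨x, hx, hn⟩), fun h n hn => by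
    obtain ⟨x, hx, hn⟩ := mem_atoms_st.1 hn
    exact h x hx n hn⟩

theorem AB.els {M : ℕ} {t x : Tm} (h : AB M t) (hx : x ∈ t.els) : AB M x :=
  fun n hn => h n (atoms_els hx hn)

theorem AB.mono {M N : ℕ} {t : Tm} (h : AB M t) (hN : M ≤ N) : AB N t :=
  fun n hn => (h n hn).trans_le hN

theorem AB.smul {M : ℕ} {t : Tm} (h : AB M t) {g : FP ℕ} (hg : ∀ n, n < M → g.app n < M) :
    AB M (g • t) := fun n hn => by
  obtain ⟨m, hm, rfl⟩ := mem_atoms_smul.1 hn
  exact hg m (h m hm)

theorem AB.size_le {M : ℕ} {t : Tm} (h : AB M t) : size t ≤ 6 * wt t * (M + 1) := by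
  have h1 := size_le_wt (t := t) (A := 4 * M) (fun n hn => by
    have := size_nat_le n
    have := h n hn
    omega)
  nlinarith

theorem AB.size_list_le {M : ℕ} {l : List Tm} (h : ∀ x ∈ l, AB M x) :
    size l ≤ 1 + 7 * (l.map wt).sum * (M + 1) := by
  induction l with
  | nil => simp
  | cons x l ih =>
    have h1 := (h x (by simp)).size_le
    have h2 := ih fun y hy => h y (by simp [hy])
    have h3 := x.wt_pos
    simp only [size_cons, List.map_cons, List.sum_cons]
    nlinarith

section pt2
variable {α : Type} [Enc α]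

@[fun_prop] theorem pt_wt {t : α → Tm} (ht : PT t) : PT (fun a => wt (t a)) :=
  pt_fold (f := fun _ _ => 1) (h := fun _ l => 1 + l.sum) (by fun_prop) (by fun_prop) ht
    (fun a => 4 * size (t a) + 1) (((PB.const 4).mul ht.size_le).add (PB.const 1))
    (fun a s hs => by
      have h1 := size_nat_le (wt s)
      have h2 := wt_le_size s
      change size (wt s) ≤ _
      omega)

@[fun_prop] theorem pt_atoms {t : α → Tm} (ht : PT t) : PT (fun a => atoms (t a)) :=
  pt_fold (f := fun _ n => [n]) (h := fun _ l => l.flatten) (by fun_prop) (by fun_prop) ht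
    (fun a => size (t a)) ht.size_le (fun _ s hs => (size_atoms s).trans hs)

theorem pt_ren {φ : α → ℕ → ℕ} {t : α → Tm} (hφ : PT (fun p : α × ℕ => φ p.1 p.2)) (ht : PT t) :
    PT (fun a => ren (φ a) (t a)) := by
  obtain ⟨p, hp⟩ := hφ.size_le
  have h1 := ht.size_le
  refine pt_fold (f := fun a n => atm (φ a n)) (h := fun _ l => st l) (pt_at hφ) (by fun_prop) ht
    (fun a => size (t a) * (p.eval (size a + size (t a) + 1) + 6))
    (h1.mul ((((PB.self.add h1).add (PB.const 1)).eval p).add (PB.const 6))) (fun a s hs => ?_)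
  change size (ren (φ a) s) ≤ _
  have h2 := size_le_wt (t := ren (φ a) s) (A := p.eval (size a + size (t a) + 1)) (fun n hn => by
    obtain ⟨m, hm, rfl⟩ := mem_atoms_ren.1 hn
    have := size_atom_lt hm
    exact (hp (a, m)).trans (eval_mono p (by rw [size_pair]; omega)))
  have h3 : ∀ s : Tm, wt (ren (φ a) s) ≤ wt s := by
    intro s
    induction s using ind with
    | h1 n => simp
    | h2 l ih =>
      rw [← st_els (isAt_st l), ren_st, st_els (isAt_st l), wt_eq (st l)]
      refine (wt_st_le _).trans (Nat.add_le_add_left ?_ 1)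
      rw [List.map_map]
      exact List.sum_le_sum fun x hx => ih x (mem_els_st.1 hx)
  have h4 := (h3 s).trans ((wt_le_size s).trans hs)
  have h5 := Nat.mul_le_mul_right (p.eval (size a + size (t a) + 1) + 6) h4
  omega

instance : PA (FP ℕ) Tm :=
  ⟨pt_ren (φ := fun p : FP ℕ × Tm => p.1.app) (by fun_prop) (by fun_prop)⟩
end pt2

/-! ### numerals, pairs and tuples -/

/-- terms without atoms that stand for numbers -/
def num : ℕ → Tm
  | 0 => st []
  | k + 1 => st [num k]

theorem num_injective : Function.Injective num := by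
  intro m
  induction m with
  | zero =>
    intro n h
    cases n with
    | zero => rfl
    | succ n => simpa using (st_eq_iff.1 h (num n)).2 (by simp)
  | succ m ih =>
    intro n h
    cases n with
    | zero => simpa using (st_eq_iff.1 h (num m)).1 (by simp)
    | succ n => rw [ih (by simpa using (st_eq_iff.1 h (num m)).1 (by simp))]

@[simp] theorem smul_num (g : FP ℕ) (k : ℕ) : g • num k = num k := by
  induction k with
  | zero => exact smul_st g []
  | succ k ih => rw [num, smul_st, List.map_singleton, ih]

theorem wt_num (k : ℕ) : wt (num k) ≤ k + 1 := by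
  induction k with
  | zero => simpa [num] using wt_st_le []
  | succ k ih =>
    have := wt_st_le [num k]
    simp only [List.map_singleton, List.sum_singleton] at this
    rw [num]; omega

theorem ab_num (M k : ℕ) : AB M (num k) := by
  induction k with
  | zero => exact ab_st.2 (by simp)
  | succ k ih => exact ab_st.2 (by simpa using ih)

@[fun_prop] theorem pt_num {α β : Type} [Enc α] [Enc β] {l : α → List β} (hl : PT l) :
    PT (fun a => num (l a).length) := by
  have e : ∀ k, (fun t => st [t])^[k] (st []) = num k := by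
    intro k
    induction k with
    | zero => rfl
    | succ k ih => rw [Function.iterate_succ_apply', ih, num]
  refine (PT.iterate (f := fun (_ : α) (t : Tm) => st [t]) (by fun_prop) hl (PT.const (st []))
    (fun a => 6 * (size (l a) + 1)) ((PB.const 6).mul (hl.size_le.add (PB.const 1)))
    (fun a i hi => ?_)).of_eq (fun a => e _)
  have h1 := (ab_num 0 i).size_le
  have h2 := wt_num i
  have h3 := length_lt_size (l a)
  rw [e]; omega

/-- the member of a set with one member -/
def un1 (t : Tm) : Tm := t.els.headD t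

theorem els_single (a : Tm) : (st [a]).els = [a] :=
  List.perm_singleton.1 (els_st_perm (List.nodup_singleton a))

@[simp] theorem un1_single (a : Tm) : un1 (st [a]) = a := by simp [un1, els_single]

@[simp] theorem els_empty : (st []).els = [] := List.perm_nil.1 (els_st_perm List.nodup_nil)

theorem single_ne_empty (a : Tm) : st [a] ≠ st [] := fun h => by
  simpa using (st_eq_iff.1 h a).1 (by simp)

/-- ordered pairs -/
def pr (a b : Tm) : Tm := st [st [a], st [st [b], st []]]

/-- a member with `k` members -/
def pick (k : ℕ) (t : Tm) : Tm := (t.els.find? (fun x => x.els.length == k)).getD t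

theorem pick_eq {k : ℕ} {t x : Tm} (hx : x ∈ t.els) (hk : x.els.length = k)
    (hu : ∀ y ∈ t.els, y.els.length = k → y = x) : pick k t = x := by
  unfold pick
  cases e : t.els.find? (fun x => x.els.length == k) with
  | none =>
    rw [List.find?_eq_none] at e
    exact absurd (by simpa using hk) (e x hx)
  | some y => exact hu y (List.mem_of_find?_eq_some e) (by simpa using List.find?_some e)

/-- the first entry of a pair -/
def p1 (t : Tm) : Tm := un1 (pick 1 t)
/-- the second entry of a pair -/
def p2 (t : Tm) : Tm := un1 (pick 1 (pick 2 t))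

theorem len_two (b : Tm) : (st [st [b], st []]).els.length = 2 :=
  (els_st_perm (by simp [single_ne_empty])).length_eq

@[simp] theorem p1_pr (a b : Tm) : p1 (pr a b) = a := by
  rw [p1, pick_eq (x := st [a]) (by simp [pr]) (by simp [els_single]), un1_single]
  intro y hy h
  rcases (by simpa [pr] using hy : y = st [a] ∨ y = st [st [b], st []]) with rfl | rfl
  · rfl
  · rw [len_two] at h; omega

@[simp] theorem p2_pr (a b : Tm) : p2 (pr a b) = b := by
  have h2 : pick 2 (pr a b) = st [st [b], st []] := by
    refine pick_eq (by simp [pr]) (len_two b) fun y hy h => ?_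
    rcases (by simpa [pr] using hy : y = st [a] ∨ y = st [st [b], st []]) with rfl | rfl
    · simp [els_single] at h
    · rfl
  rw [p2, h2, pick_eq (x := st [b]) (by simp) (by simp [els_single]), un1_single]
  intro y hy h
  rcases (by simpa using hy : y = st [b] ∨ y = st []) with rfl | rfl
  · rfl
  · simp at h

@[simp] theorem pr_inj {a b c d : Tm} : pr a b = pr c d ↔ a = c ∧ b = d :=
  ⟨fun h => ⟨by rw [← p1_pr a b, h, p1_pr], by rw [← p2_pr a b, h, p2_pr]⟩,
    fun h => by rw [h.1, h.2]⟩

@[simp] theorem smul_pr (g : FP ℕ) (a b : Tm) : g • pr a b = pr (g • a) (g • b) := by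
  simp [pr, smul_st]

@[simp] theorem isAt_pr (a b : Tm) : (pr a b).isAt = false := rfl

theorem pr_ne_empty (a b : Tm) : pr a b ≠ st [] := fun h => by
  simpa using (st_eq_iff.1 h (st [a])).1 (by simp)

theorem wt_pr (a b : Tm) : wt (pr a b) ≤ wt a + wt b + 5 := by
  have h1 := wt_st_le [st [a], st [st [b], st []]]
  have h2 := wt_st_le [a]
  have h3 := wt_st_le [st [b], st []]
  have h4 := wt_st_le [b]
  have h5 := wt_st_le []
  simp only [List.map_cons, List.map_nil, List.sum_cons, List.sum_nil] at h1 h2 h3 h4 h5
  rw [pr]; omega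

theorem ab_pr {M : ℕ} {a b : Tm} : AB M (pr a b) ↔ AB M a ∧ AB M b := by
  simp [pr, ab_st]

theorem mem_atoms_pr {a b : Tm} {n : ℕ} : n ∈ atoms (pr a b) ↔ n ∈ atoms a ∨ n ∈ atoms b := by
  simp [pr, mem_atoms_st]

/-- tuples -/
def tup (l : List Tm) : Tm := l.foldr pr (st [])

@[simp] theorem tup_nil : tup [] = st [] := rfl
@[simp] theorem tup_cons (a : Tm) (l : List Tm) : tup (a :: l) = pr a (tup l) := rfl

theorem tup_injective : Function.Injective tup := by
  intro l
  induction l with
  | nil =>
    intro m h
    cases m with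
    | nil => rfl
    | cons b m => exact absurd h.symm (pr_ne_empty _ _)
  | cons a l ih =>
    intro m h
    cases m with
    | nil => exact absurd h (pr_ne_empty _ _)
    | cons b m =>
      obtain ⟨h1, h2⟩ := pr_inj.1 h
      rw [h1, ih h2]

theorem smul_tup (g : FP ℕ) (l : List Tm) : g • tup l = tup (l.map (fun x => g • x)) := by
  induction l with
  | nil => exact smul_st g []
  | cons a l ih => simp [ih]

theorem wt_tup (l : List Tm) : wt (tup l) ≤ 1 + (l.map (fun x => wt x + 5)).sum := by
  induction l with
  | nil => simpa using wt_st_le []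
  | cons a l ih =>
    have := wt_pr a (tup l)
    simp only [tup_cons, List.map_cons, List.sum_cons]; omega

theorem ab_tup {M : ℕ} {l : List Tm} : AB M (tup l) ↔ ∀ x ∈ l, AB M x := by
  induction l with
  | nil => simp [ab_st]
  | cons a l ih => simp [ab_pr, ih]

theorem size_pr (a b : Tm) : size (pr a b) ≤ size a + size b + 40 := by
  have h1 := size_st_le [st [a], st [st [b], st []]]
  have h2 := size_st_le [a]
  have h3 := size_st_le [st [b], st []]
  have h4 := size_st_le [b]
  have h5 := size_st_le []
  simp only [size_cons, size_nil] at h1 h2 h3 h4 h5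
  rw [pr]; omega

section pt3
variable {α : Type} [Enc α]

@[fun_prop] theorem pt_un1 {f : α → Tm} (hf : PT f) : PT (fun a => un1 (f a)) := by
  unfold un1; fun_prop

@[fun_prop] theorem pt_pick {k : α → ℕ} {f : α → Tm} (hk : PT k) (hf : PT f) :
    PT (fun a => pick (k a) (f a)) := by unfold pick; fun_prop

@[fun_prop] theorem pt_p1 {f : α → Tm} (hf : PT f) : PT (fun a => p1 (f a)) := by
  unfold p1; fun_prop

@[fun_prop] theorem pt_p2 {f : α → Tm} (hf : PT f) : PT (fun a => p2 (f a)) := by
  unfold p2; fun_prop

@[fun_prop] theorem pt_pr {f g : α → Tm} (hf : PT f) (hg : PT g) :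
    PT (fun a => pr (f a) (g a)) := by unfold pr; fun_prop

@[fun_prop] theorem pt_tup {l : α → List Tm} (hl : PT l) : PT (fun a => tup (l a)) := by
  have h := PT.foldl_add (f := fun (_ : α) (t x : Tm) => pr x t) (by fun_prop) (PT.reverse hl)
    (PT.const (st [])) (fun a => size (l a) + 40) (hl.size_le.add (PB.const 40))
    (fun a t x hx => by
      have := size_pr x t
      have := size_lt_of_mem (List.mem_reverse.1 hx)
      omega)
  exact h.of_eq fun a => by rw [List.foldl_reverse]; rfl
end pt3

end Tm

end Pool.Agent.P.MP_f1a348_lc.GX
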