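import Pool.Agent.P.MP_f1a348_lc.GX.Base

/-! Graph isomorphism: systems of local automorphisms, records, the outcomes of one step. -/

set_option autoImplicit false
set_option linter.unusedSectionVars false

namespace Pool.Agent.P.MP_f1a348_lc.GX

open Equiv Finset
open scoped Classical

/-- A system of local automorphisms of level `M` on the finite set `D`. -/
structure Sy (Y : Type) [DecidableEq Y] where
  D : Finset Y
  M : ℕ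
  L : Finset Y → Perm Y → Prop
  sub : ∀ {A : Finset Y} {f : Perm Y}, L A f → ∀ x ∈ A, x ∈ D ∧ f x ∈ D
  loc : ∀ {A B : Finset Y} {f g : Perm Y}, L A f → B ⊆ A → (∀ x ∈ B, g x = f x) → L B g
  one : ∀ {A : Finset Y}, A ⊆ D → L A 1
  inv : ∀ {A : Finset Y} {f : Perm Y}, L A f → L (A.image f) f⁻¹
  mul : ∀ {A : Finset Y} {f g : Perm Y}, L A f → L (A.image f) g → L A (g * f)
  ext : ∀ {A : Finset Y} {f : Perm Y}, L A f → A.card < M →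
    ∃ β : Perm Y, (∀ w, w ∈ D ↔ β w ∈ D) ∧ ∀ w ∈ D, ∃ g : Perm Y,
      (∀ x ∈ A, g x = f x) ∧ g w = β w ∧ L (insert w A) g

/-- binary logarithm of a natural number -/
noncomputable def lg (n : ℕ) : ℝ := Real.logb 2 n

/-- the potential of a level with `q` points; `LL` is a parameter -/
noncomputable def HH (LL : ℝ) (q : ℕ) : ℝ := 2 ^ 19 * (lg q * (LL / 8 + Real.logb 2 (1 + lg q)))

/-- the measure of a record -/
noncomputable def mu (b β u : ℕ) (gr : Bool) : ℝ :=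
  2 * lg b + 12288 * lg β + lg u + (if gr then 2 else 0)

namespace Sy

variable {Y : Type} [DecidableEq Y] (Γ : Sy Y)

/-- same type of points -/
def E1 (a b : Y) : Prop := ∃ f : Perm Y, Γ.L {a} f ∧ f a = b

/-- same type of pairs -/
def E2 (a b a' b' : Y) : Prop := ∃ f : Perm Y, Γ.L {a, b} f ∧ f a = a' ∧ f b = b'

/-- same type of families -/
def ET {ι : Type} [Fintype ι] (u v : ι → Y) : Prop :=
  ∃ f : Perm Y, Γ.L (univ.image u) f ∧ ∀ i, f (u i) = v i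

/-- an invariant set -/
def Inv1 (Z : Finset Y) : Prop := Z ⊆ Γ.D ∧ ∀ a b, Γ.E1 a b → a ∈ Z → b ∈ Z

/-- an invariant relation -/
def Inv2 (R : Y → Y → Prop) : Prop :=
  (∀ a b, R a b → a ∈ Γ.D ∧ b ∈ Γ.D) ∧ ∀ a b a' b', Γ.E2 a b a' b' → R a b → R a' b'

/-- a class of points -/
def Cls (A : Finset Y) : Prop := A.Nonempty ∧ Γ.Inv1 A ∧ ∀ a ∈ A, ∀ b ∈ A, Γ.E1 a b

/-- the class of a point -/
noncomputable def cls (a : Y) : Finset Y := Γ.D.filter (Γ.E1 a)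

/-- all injective `d`-tuples in `C` have the same type -/
def Tr (C : Finset Y) (d : ℕ) : Prop :=
  ∀ u v : Fin d → Y, Function.Injective u → Function.Injective v → (∀ i, u i ∈ C) →
    (∀ i, v i ∈ C) → Γ.ET u v

/-- `Γ'` refines `Γ` on pairs -/
def Ref (Γ' : Sy Y) : Prop :=
  Γ.D ⊆ Γ'.D ∧ ∀ a ∈ Γ.D, ∀ b ∈ Γ.D, ∀ a' b', Γ'.E2 a b a' b' → Γ.E2 a b a' b'

/-- the system over the pins `P` -/
def pin (P : Finset Y) : Sy Y where
  D := Γ.D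
  M := Γ.M - P.card
  L A f := ∃ g : Perm Y, (∀ x ∈ A, g x = f x) ∧ (∀ p ∈ P ∩ Γ.D, g p = p) ∧ Γ.L (A ∪ P ∩ Γ.D) g
  sub := fun ⟨_, h1, _, h3⟩ x hx => h1 x hx ▸ Γ.sub h3 x (mem_union_left _ hx)
  loc := fun ⟨g, h1, h2, h3⟩ hB e => ⟨g, fun x hx => by rw [h1 x (hB hx), e x hx], h2,
    Γ.loc h3 (union_subset_union_left hB) fun _ _ => rfl⟩
  one := fun h => ⟨1, fun _ _ => rfl, fun _ _ => rfl,
    Γ.one (union_subset h inter_subset_right)⟩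
  inv := fun {A f} ⟨g, h1, h2, h3⟩ => ⟨g⁻¹, fun x hx => by
      obtain ⟨y, hy, rfl⟩ := mem_image.1 hx
      rw [Perm.inv_eq_iff_eq, h1 _ (by simpa using hy)]; simp,
    fun p hp => by rw [Perm.inv_eq_iff_eq, h2 p hp],
    Γ.loc (Γ.inv h3) (fun x hx => by
      rcases mem_union.1 hx with hx | hx
      · obtain ⟨y, hy, rfl⟩ := mem_image.1 hx
        exact mem_image.2 ⟨y, mem_union_left _ hy, h1 y hy⟩
      · exact mem_image.2 ⟨x, mem_union_right _ hx, h2 x hx⟩) fun _ _ => rfl⟩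
  mul := fun {A f f'} ⟨g, h1, h2, h3⟩ ⟨g', k1, k2, k3⟩ => ⟨g' * g, fun x hx => by
      rw [Perm.mul_apply, h1 x hx, k1 _ (mem_image_of_mem _ hx), Perm.mul_apply],
    fun p hp => by rw [Perm.mul_apply, h2 p hp, k2 p hp],
    Γ.mul h3 (Γ.loc k3 (fun x hx => by
      obtain ⟨y, hy, rfl⟩ := mem_image.1 hx
      rcases mem_union.1 hy with hy | hy
      · exact mem_union_left _ (mem_image.2 ⟨y, hy, (h1 y hy).symm⟩)
      · rw [h2 y hy]; exact mem_union_right _ hy) fun _ _ => rfl)⟩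
  ext := fun {A f} ⟨g, h1, h2, h3⟩ hc => by
    have h4 : (A ∪ P ∩ Γ.D).card < Γ.M := by
      have := card_union_le A (P ∩ Γ.D)
      have := card_le_card (inter_subset_left (s₁ := P) (s₂ := Γ.D))
      omega
    obtain ⟨β, b1, b2⟩ := Γ.ext h3 h4
    refine ⟨β, b1, fun w hw => ?_⟩
    obtain ⟨g', c1, c2, c3⟩ := b2 w hw
    exact ⟨g', fun x hx => by rw [c1 x (mem_union_left _ hx), h1 x hx], c2, g',
      fun _ _ => rfl, fun p hp => by rw [c1 p (mem_union_right _ hp), h2 p hp],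
      by rwa [insert_union]⟩

/-- the pairs inside `C` of the type of a listed pair -/
def Rel (C : Finset Y) (prs : List (Y × Y)) (u v : Y) : Prop :=
  u ∈ C ∧ v ∈ C ∧ ∃ p ∈ prs, Γ.E2 p.1 p.2 u v

/-- the pairs of one type do not connect `A` -/
def Equi (A : Finset Y) : Prop :=
  ∃ z ∈ A, ∃ z' ∈ A, z ≠ z' ∧ ∃ x ∈ A, ∃ y ∈ A, ¬ Relation.EqvGen (Γ.Rel A [(z, z')]) x y

/-- an invariant graph on `O` with small valency; each class meets few components -/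
structure Gr (O : Finset Y) (X : Y → Y → Prop) (β : ℕ) : Prop where
  inv : Γ.Inv2 X
  symm : ∀ a b, X a b → X b a
  sup : ∀ a b, X a b → a ∈ O ∧ b ∈ O
  val : ∀ a, (O.filter (X a)).card ≤ β
  comp : ∀ a ∈ O, ∀ S ⊆ Γ.cls a,
    (∀ x ∈ S, ∀ y ∈ S, x ≠ y → ¬ Relation.EqvGen X x y) → S.card ≤ β

/-- the data of a record for the set `F` -/
structure RecD (F : Finset Y) (b β u : ℕ) (gr : Bool) (mem ρ X : Y → Y → Prop) (O : Finset Y) :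
    Prop where
  imem : Γ.Inv2 mem
  irho : Γ.Inv2 ρ
  iO : Γ.Inv1 O
  cO : O.card ≤ u
  gra : Γ.Gr O X β
  plain : gr = false → u ≤ β
  ne : ∀ z ∈ F, ∃ y, mem z y
  le : ∀ z ∈ F, (Γ.D.filter (mem z)).card ≤ b
  disj : ∀ z ∈ F, ∀ z' ∈ F, ∀ y, mem z y → mem z' y → z = z'
  sep : ∀ z ∈ F, ∀ z' ∈ F, ∀ y y', mem z y → mem z' y' → y ≠ y' → ∃ v ∈ O, ¬ (ρ y v ↔ ρ y' v)

/-- a record -/
def Rec (F : Finset Y) (b β u : ℕ) (gr : Bool) : Prop :=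
  ∃ mem ρ X O, Γ.RecD F b β u gr mem ρ X O

/-- the set `F` has measure at most `ν` -/
def Good (N1 : ℕ) (F : Finset Y) (ν : ℝ) : Prop :=
  12289 * lg F.card ≤ ν ∨ ∃ b β u gr, u ≤ N1 ∧ Γ.Rec F b β u gr ∧ mu b β u gr ≤ ν

/-- `ρ` separates the points of `A` by points of `O` -/
def Sep (A O : Finset Y) (ρ : Y → Y → Prop) : Prop :=
  ∀ z ∈ A, ∀ z' ∈ A, z ≠ z' → ∃ v ∈ O, ¬ (ρ z v ↔ ρ z' v)

/-- `N` collects the pairs that are not of the dominant type -/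
structure Dom (A O : Finset Y) (N : Y → Y → Prop) : Prop where
  inv : Γ.Inv2 N
  sup : ∀ z v, N z v → z ∈ A ∧ v ∈ O
  few : ∀ v, 4 * (A.filter (fun z => N z v)).card < A.card
  dom : ∀ z ∈ A, ∀ z' ∈ A, ∀ v ∈ O, ∀ v', Γ.E1 v v' → ¬ N z v → ¬ N z' v' → Γ.E2 z v z' v'
  ne : ∃ z v, N z v

/-- `bl` names in `Γ'` the components of the listed types on `C` -/
structure Blk (Γ' : Sy Y) (C : Finset Y) (prs : List (Y × Y)) (bl : Y → Y) : Prop where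
  ref : Γ.Ref Γ'
  lev : 3 ≤ Γ'.M
  eq : ∀ x ∈ C, ∀ y ∈ C, bl x = bl y ↔ Relation.EqvGen (Γ.Rel C prs) x y
  inv : Γ'.Inv2 (fun x y => x ∈ C ∧ y = bl x)

/-- pins: afterwards each class inside `A` has lost potential or is large and not connected -/
def OPin (LL : ℝ) (N1 τ : ℕ) (A : Finset Y) (ν : ℝ) : Prop :=
  ∃ (C P : Finset Y) (d : ℕ), Γ.Cls C ∧ P ⊆ C ∧ P.card ≤ 2 * d ∧ 1 ≤ d ∧ d ≤ τ ∧
    ∀ Γ' : Sy Y, (Γ.pin P).Ref Γ' → 3 ≤ Γ'.M → ∀ A' ⊆ A, Γ'.Cls A' →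
      (∃ ν', Γ'.Good N1 A' ν' ∧
        HH LL A'.card + ν' + 1 + min (d : ℝ) (lg C.card) ≤ HH LL A.card + ν) ∨
      (d = 1 ∧ 3 * A.card < 4 * A'.card ∧ Γ'.Equi A')

/-- a quotient gives a better record -/
def OQuo (N1 : ℕ) (A : Finset Y) (ν : ℝ) : Prop :=
  ∃ (C : Finset Y) (prs : List (Y × Y)), Γ.Cls C ∧ C.card ≤ N1 ∧ (∀ p ∈ prs, p.1 ∈ C ∧ p.2 ∈ C) ∧
    ∀ (Γ' : Sy Y) (bl : Y → Y), Γ.Blk Γ' C prs bl → Γ'.Good N1 A (ν - 1 - prs.length)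

/-- a small class determines the points of `A` -/
def OKill (t0 : ℕ) (A : Finset Y) : Prop :=
  ∃ C : Finset Y, Γ.Cls C ∧ C.card ≤ A.card ∧ (C.card ≤ t0 ∨ (C.card : ℝ) ≤ lg A.card ^ 2) ∧
    ∀ z ∈ A, ∀ z' ∈ A, (∀ v ∈ C, Γ.E2 z v z' v) → z = z'

/-- the points of `A` are the subsets with `e` points of the class `C` -/
structure John (A C : Finset Y) (z0 v0 : Y) (e : ℕ) : Prop where
  cls : Γ.Cls C
  hz : z0 ∈ A
  hv : v0 ∈ C
  card : ∀ z ∈ A, (C.filter (Γ.E2 z0 v0 z)).card = e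
  inj : ∀ z ∈ A, ∀ z' ∈ A, C.filter (Γ.E2 z0 v0 z) = C.filter (Γ.E2 z0 v0 z') → z = z'
  surj : ∀ T ⊆ C, T.card = e → ∃ z ∈ A, C.filter (Γ.E2 z0 v0 z) = T

/-- a Johnson scheme -/
def OJohn (t0 : ℕ) (A : Finset Y) : Prop :=
  ∃ (C : Finset Y) (z0 v0 : Y) (e : ℕ), Γ.John A C z0 v0 e ∧ 2 ≤ e ∧ e ^ 2 ≤ C.card ∧
    t0 ≤ C.card ∧ C.card ≤ A.card

/-- the outcomes of one step -/
def Out (LL : ℝ) (N1 τ t0 : ℕ) (A : Finset Y) (ν : ℝ) : Prop :=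
  Γ.Good N1 A (ν - 1) ∨ Γ.OPin LL N1 τ A ν ∨ Γ.OQuo N1 A ν ∨ Γ.Equi A ∨ Γ.OKill t0 A ∨
    Γ.OJohn t0 A ∨ (t0 ≤ A.card ∧ Γ.Tr A τ)

end Sy

end Pool.Agent.P.MP_f1a348_lc.GX
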