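import Pool.Agent.P.MP_f1a348_lc.GX.LibWL
import Pool.Agent.P.MP_f1a348_lc.GX.DefsS

/-! Graph isomorphism: the system of local automorphisms of a structure. -/

set_option autoImplicit false
set_option linter.unusedSectionVars false

namespace Pool.Agent.P.MP_f1a348_lc.GX

open Equiv Function
open Pool.Agent.P.MP_f1a348_lc.TO (Par)

namespace WL

section sim
variable {α β γ : Type} {k k' : ℕ} {r : ℕ → List α → Prop} {s : ℕ → List β → Prop}
  {t : ℕ → List γ → Prop}

/-- fewer pebbles -/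
theorem Sim.lower (hk : k ≤ k') {u : Fin k' → α} {v : Fin k' → β} (h : Sim r s u v)
    (σ : Fin k → Fin k') : Sim r s (u ∘ σ) (v ∘ σ) := by
  refine ⟨fun u' v' => ∃ (u : Fin k' → α) (v : Fin k' → β) (σ : Fin k → Fin k'),
    Sim r s u v ∧ u' = u ∘ σ ∧ v' = v ∘ σ, ?_, u, v, σ, h, rfl, rfl⟩
  rintro _ _ ⟨u, v, σ, h, rfl, rfl⟩
  refine ⟨⟨fun i j => h.at.1 (σ i) (σ j), fun c l => ?_⟩, fun j => ?_⟩
  · rw [← List.map_map, ← List.map_map]
    exact h.at.2 c _
  have hc : ((Finset.univ.erase j).image σ).card < (Finset.univ : Finset (Fin k')).card :=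
    (Finset.card_image_le.trans_lt (Finset.card_erase_lt_of_mem (Finset.mem_univ j))).trans_le
      (by simpa using hk)
  obtain ⟨i, -, hi⟩ := Finset.exists_mem_notMem_of_card_lt_card hc
  have hσ : ∀ x, x ≠ j → σ x ≠ i := fun x hx e =>
    hi (Finset.mem_image.2 ⟨x, by simpa using hx, e⟩)
  have key : ∀ {δ : Type} (u : Fin k' → δ) (w : δ),
      update (u ∘ σ) j w = update u i w ∘ update σ j i := fun u w => by
    funext x
    by_cases hx : x = j
    · subst hx; simp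
    · simp [hx, hσ x hx]
  obtain ⟨e, he⟩ := h.step i
  exact ⟨e, fun w => ⟨_, _, update σ j i, he w, key u w, key v _⟩⟩

/-- restriction to a union of classes of points and to some of the labels -/
theorem Sim.restrict' (ι : γ → α) (hι : Injective ι) (P : ℕ → Prop)
    (ht : ∀ c l, t c l ↔ P c ∧ r c (l.map ι))
    (hc : ∀ x y : α, (∀ c, r c [x] ↔ r c [y]) → x ∈ Set.range ι → y ∈ Set.range ι)
    {u v : Fin k → γ} (h : Sim r r (ι ∘ u) (ι ∘ v)) : Sim t t u v := by
  refine ⟨fun u v => Sim r r (ι ∘ u) (ι ∘ v), fun u v h => ⟨⟨fun i j => ?_, fun c l => ?_⟩,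
    fun i => ?_⟩, h⟩
  · have := h.at.1 i j
    simpa only [comp_apply, hι.eq_iff] using this
  · rw [ht, ht, List.map_map, List.map_map]; exact and_congr_right fun _ => h.at.2 c l
  · obtain ⟨e, he⟩ := h.step i
    have h1 : ∀ w, w ∈ Set.range ι ↔ e w ∈ Set.range ι := fun w => by
      have := fun c => (he w).at.2 c [i]
      simp only [List.map_cons, List.map_nil, update_self] at this
      exact ⟨hc _ _ this, hc _ _ fun c => (this c).symm⟩
    let e' : γ ≃ γ := (Equiv.ofInjective ι hι).trans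
      ((e.subtypeEquiv h1).trans (Equiv.ofInjective ι hι).symm)
    have h2 : ∀ w, ι (e' w) = e (ι w) := fun w => Equiv.apply_ofInjective_symm hι _
    refine ⟨e', fun w => ?_⟩
    change Sim r r (ι ∘ update u i w) (ι ∘ update v i (e' w))
    rw [comp_update, comp_update, h2]
    exact he (ι w)
end sim

variable {α : Type} [DecidableEq α]

/-- `f` is a local automorphism of level `M` of `X` on `A` -/
def WLoc (M : ℕ) (X : Sx α) (A : Finset α) (f : Perm α) : Prop :=
  (∀ x ∈ A, x ∈ X.1 ∧ f x ∈ X.1) ∧ ∀ u v : Fin M → {x // x ∈ X.1}, (∀ i, (u i).1 ∈ A) →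
    (∀ i, (v i).1 = f (u i).1) → Sim (relOn X) (relOn X) u v

variable {M : ℕ} {X : Sx α}

theorem WLoc.of_loc {A : Finset α} {f : Perm α} {F : Perm {x // x ∈ X.1}}
    (hA : ∀ x ∈ A, x ∈ X.1) (e : ∀ x : {x // x ∈ X.1}, x.1 ∈ A → (F x).1 = f x.1)
    (h : Loc (relOn X) M (A.subtype (· ∈ X.1)) F) : WLoc M X A f := by
  refine ⟨fun x hx => ⟨hA x hx, e ⟨x, hA x hx⟩ hx ▸ (F _).2⟩, fun u v hu hv => ?_⟩
  obtain rfl : v = F ∘ u := funext fun i => Subtype.ext ((hv i).trans (e _ (hu i)).symm)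
  exact h u fun i => Finset.mem_subtype.2 (hu i)

theorem WLoc.to_loc {A : Finset α} {f : Perm α} (h : WLoc M X A f) :
    ∃ F : Perm {x // x ∈ X.1}, (∀ x : {x // x ∈ X.1}, x.1 ∈ A → (F x).1 = f x.1) ∧
      Loc (relOn X) M (A.subtype (· ∈ X.1)) F := by
  obtain ⟨F, hF⟩ := Equiv.Perm.exists_extending_pair
    (fun x : {x // x ∈ A} => (⟨x.1, (h.1 x.1 x.2).1⟩ : {x // x ∈ X.1}))
    (fun x : {x // x ∈ A} => (⟨f x.1, (h.1 x.1 x.2).2⟩ : {x // x ∈ X.1}))
    (fun x y e => Subtype.ext (congrArg Subtype.val e :))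
    (fun x y e => Subtype.ext (f.injective (congrArg Subtype.val e :)))
  have e : ∀ x : {x // x ∈ X.1}, x.1 ∈ A → (F x).1 = f x.1 := fun x hx =>
    congrArg Subtype.val (hF ⟨x.1, hx⟩)
  exact ⟨F, e, fun u hu => h.2 u _ (fun i => Finset.mem_subtype.1 (hu i))
    fun i => e _ (Finset.mem_subtype.1 (hu i))⟩

end WL

variable {α : Type} [DecidableEq α]

open WL in
/-- the system of the refinement of level `M` of the structure `X` -/
def wsys (M : ℕ) (X : Sx α) : Sy α where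
  D := X.1.toFinset
  M := M
  L := WLoc M X
  sub := fun h x hx => ⟨List.mem_toFinset.2 (h.1 x hx).1, List.mem_toFinset.2 (h.1 x hx).2⟩
  loc := fun h hB e => ⟨fun x hx => e x hx ▸ h.1 x (hB hx), fun u v hu hv =>
    h.2 u v (fun i => hB (hu i)) fun i => (hv i).trans (e _ (hu i))⟩
  one := fun h => ⟨fun x hx => ⟨List.mem_toFinset.1 (h hx), List.mem_toFinset.1 (h hx)⟩,
    fun u v _ hv => by
      obtain rfl : v = u := funext fun i => Subtype.ext (hv i)
      exact Sim.refl _⟩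
  inv := fun {A f} h => ⟨fun x hx => by
      obtain ⟨y, hy, rfl⟩ := Finset.mem_image.1 hx
      simpa using (h.1 y hy).symm,
    fun u v hu hv => (h.2 v u (fun i => by
      obtain ⟨y, hy, e⟩ := Finset.mem_image.1 (hu i)
      simpa [hv i, ← e] using hy) fun i => by simp [hv i]).symm⟩
  mul := fun {A f g} h h' => ⟨fun x hx =>
      ⟨(h.1 x hx).1, (h'.1 _ (Finset.mem_image_of_mem _ hx)).2⟩,
    fun u v hu hv => (h.2 u (fun i => ⟨f (u i).1, (h.1 _ (hu i)).2⟩) hu fun _ => rfl).trans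
      (h'.2 _ v (fun i => Finset.mem_image_of_mem _ (hu i)) hv)⟩
  ext := fun {A f} h hc => by
    obtain ⟨F, h1, h2⟩ := h.to_loc
    obtain ⟨e, he⟩ := h2.ext ((by
      rw [Finset.card_subtype]; exact Finset.card_filter_le _ _ :
        (A.subtype (· ∈ X.1)).card ≤ A.card).trans_lt hc)
    refine ⟨Perm.ofSubtype e, fun w => ?_, fun w hw => ?_⟩
    · rw [List.mem_toFinset, List.mem_toFinset]
      exact (Perm.ofSubtype_apply_mem_iff_mem e w).symm
    · have hw' := List.mem_toFinset.1 hw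
      obtain ⟨g, a1, a2, a3⟩ := he ⟨w, hw'⟩
      refine ⟨Perm.ofSubtype g, fun x hx => ?_, ?_, WLoc.of_loc (F := g) (fun x hx => ?_)
        (fun x _ => (Perm.ofSubtype_apply_coe g x).symm) (a3.loc (fun x hx => ?_) fun _ _ => rfl)⟩
      · rw [Perm.ofSubtype_apply_of_mem g (h.1 x hx).1, a1 _ (Finset.mem_subtype.2 hx), h1 _ hx]
      · rw [Perm.ofSubtype_apply_of_mem g hw', Perm.ofSubtype_apply_of_mem e hw', a2]
      · rcases Finset.mem_insert.1 hx with rfl | hx
        exacts [hw', (h.1 x hx).1]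
      · rcases Finset.mem_insert.1 (Finset.mem_subtype.1 hx) with e | hx
        · exact Finset.mem_insert.2 (Or.inl (Subtype.ext e))
        · exact Finset.mem_insert_of_mem (Finset.mem_subtype.2 hx)

variable {M : ℕ} {X : Sx α}

@[simp] theorem wsys_D : (wsys M X).D = X.1.toFinset := rfl
@[simp] theorem wsys_M : (wsys M X).M = M := rfl

open WL in
/-- the colours on one side are the types of the system -/
theorem wsys_cls {p : Par} {q : Sx α × Sx α} (h : Ok p q) (b : Bool) {l l' : List α}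
    (hl : ∀ x ∈ l, x ∈ (sd q b).1) (hl' : ∀ x ∈ l', x ∈ (sd q b).1) (h1 : l.length = l'.length)
    (h2 : 1 ≤ l.length) (h3 : l.length ≤ p.2.length) :
    cls p q b l = cls p q b l' ↔
      ∃ f, (wsys p.2.length (sd q b)).L l.toFinset f ∧ l.map f = l' := by
  lift l to List {x // x ∈ (sd q b).1} using hl
  lift l' to List {x // x ∈ (sd q b).1} using hl'
  simp only [List.length_map] at h1 h2 h3
  have hs : (l.map Subtype.val).toFinset.subtype (· ∈ (sd q b).1) = l.toFinset := by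
    ext x
    simpa using fun _ => x.2
  rw [cls_loc h b l l' h1 h2 h3]
  constructor
  · rintro ⟨F, a1, rfl⟩
    refine ⟨Perm.ofSubtype F, WLoc.of_loc (F := F) (fun x hx => ?_)
      (fun x _ => (Perm.ofSubtype_apply_coe F x).symm) (hs ▸ a1), ?_⟩
    · obtain ⟨y, -, rfl⟩ := List.mem_map.1 (List.mem_toFinset.1 hx)
      exact y.2
    · rw [List.map_map, List.map_map]
      exact List.map_congr_left fun x _ => Perm.ofSubtype_apply_coe F x
  · rintro ⟨f, a1, a2⟩
    obtain ⟨F, b1, b2⟩ := WLoc.to_loc a1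
    refine ⟨F, hs ▸ b2, List.map_injective_iff.2 Subtype.val_injective ?_⟩
    rw [← a2, List.map_map, List.map_map]
    exact List.map_congr_left fun x hx => b1 x (List.mem_toFinset.2 (List.mem_map_of_mem hx))

open WL in
/-- the labels are kept -/
theorem wsys_rel {A : Finset α} {f : Perm α} (h : (wsys M X).L A f) (c : ℕ) {l : List α}
    (hl : ∀ x ∈ l, x ∈ A) (hk : l.toFinset.card ≤ M) : (c, l) ∈ X.2 ↔ (c, l.map f) ∈ X.2 := by
  obtain ⟨F, b1, b2⟩ := WLoc.to_loc h
  have hX : ∀ x ∈ l, x ∈ X.1 := fun x hx => (h.1 x (hl x hx)).1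
  lift l to List {x // x ∈ X.1} using hX
  have h1 : ∀ x ∈ l, x.1 ∈ A := fun x hx => hl _ (List.mem_map_of_mem hx)
  have h2 : l.toFinset.card ≤ M := by
    refine le_trans ?_ hk
    refine Finset.card_le_card_of_injOn Subtype.val (fun x hx => ?_) Subtype.val_injective.injOn
    exact Finset.mem_coe.2 (List.mem_toFinset.2
      (List.mem_map_of_mem (List.mem_toFinset.1 (Finset.mem_coe.1 hx))))
  have h3 := b2.rel c (fun x hx => Finset.mem_subtype.2 (h1 x hx)) h2
  have h4 : (l.map F).map Subtype.val = (l.map Subtype.val).map f := by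
    rw [List.map_map, List.map_map]
    exact List.map_congr_left fun x hx => b1 x (h1 x hx)
  rwa [relOn, relOn, h4] at h3

open WL in
/-- an automorphism of the structure is a local automorphism on every set of points -/
theorem wsys_aut {f : Perm α} (h1 : ∀ x, x ∈ X.1 ↔ f x ∈ X.1)
    (h2 : ∀ c (l : List α), (∀ x ∈ l, x ∈ X.1) → ((c, l) ∈ X.2 ↔ (c, l.map f) ∈ X.2))
    {A : Finset α} (hA : ∀ x ∈ A, x ∈ X.1) : (wsys M X).L A f := by
  refine WLoc.of_loc (F := f.subtypePerm fun x => (h1 x).symm) hA (fun _ _ => rfl)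
    (Loc.of_aut (fun c l => ?_) _)
  rw [relOn, relOn, h2 c _ fun x hx => by
    obtain ⟨y, -, rfl⟩ := List.mem_map.1 hx
    exact y.2, List.map_map, List.map_map]
  rfl

open WL in
/-- more points, more labels and a higher level give a finer system -/
theorem wsys_restrict {M' : ℕ} {X' : Sx α} (hM : M ≤ M') (hU : ∀ x ∈ X.1, x ∈ X'.1) (P : ℕ → Prop)
    (hR : ∀ c (l : List α), (∀ x ∈ l, x ∈ X.1) → ((c, l) ∈ X.2 ↔ P c ∧ (c, l) ∈ X'.2))
    (hm : ∀ x ∈ X.1, ∀ y ∈ X'.1, (∀ c, (c, [x]) ∈ X'.2 ↔ (c, [y]) ∈ X'.2) → y ∈ X.1)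
    {A : Finset α} (hA : ∀ x ∈ A, x ∈ X.1) (hf : 1 ≤ M') {f : Perm α} (h : (wsys M' X').L A f) :
    (wsys M X).L A f := by
  let ι : {x // x ∈ X.1} → {x // x ∈ X'.1} := fun x => ⟨x.1, hU _ x.2⟩
  refine ⟨fun x hx => ⟨hA x hx, hm x (hA x hx) _ (h.1 x hx).2 fun c => ?_⟩, fun u v hu hv => ?_⟩
  · exact wsys_rel h c (l := [x]) (by simpa using hx) (by simpa using hf)
  rcases Nat.eq_zero_or_pos M with rfl | h0
  · obtain rfl : v = u := Subsingleton.elim _ _
    exact Sim.refl _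
  refine Sim.restrict' (r := relOn X') ι (fun x y e => Subtype.ext (congrArg Subtype.val e :)) P
    (fun c l => ?_) ?_ ?_
  · rw [relOn, relOn, List.map_map]
    exact hR c _ fun x hx => by
      obtain ⟨y, -, rfl⟩ := List.mem_map.1 hx
      exact y.2
  · rintro _ y e ⟨x, rfl⟩
    exact ⟨⟨y.1, hm x.1 x.2 y.1 y.2 e⟩, rfl⟩
  · let π : Fin M' → Fin M := fun i => if h : i.1 < M then ⟨i.1, h⟩ else ⟨0, h0⟩
    have e : ∀ {δ : Type} (w : Fin M → δ), (w ∘ π) ∘ Fin.castLE hM = w := fun w =>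
      funext fun i => by simp [π]
    have := (h.2 ((ι ∘ u) ∘ π) ((ι ∘ v) ∘ π) (fun i => hu _) fun i => hv _).lower hM
      (Fin.castLE hM)
    rwa [e, e] at this

/-- the same points and more labels -/
theorem wsys_labels {X' : Sx α} (hU : ∀ x, x ∈ X.1 ↔ x ∈ X'.1) (n : ℕ)
    (hR : ∀ c l, (c, l) ∈ X.2 ↔ c < n ∧ (c, l) ∈ X'.2) (hf : 1 ≤ M) {A : Finset α} {f : Perm α}
    (h : (wsys M X').L A f) : (wsys M X).L A f :=
  wsys_restrict le_rfl (fun x => (hU x).1) (· < n) (fun c l _ => hR c l)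
    (fun _ _ y hy _ => (hU y).2 hy) (fun x hx => (hU x).2 (h.1 x hx).1) hf h

/-- more points and more labels, one of which marks the old points -/
theorem wsys_mark {X' : Sx α} (hU : ∀ x ∈ X.1, x ∈ X'.1) (n : ℕ)
    (hR : ∀ c l, (c, l) ∈ X.2 ↔ c < n ∧ (c, l) ∈ X'.2) (m : ℕ)
    (hm : ∀ y ∈ X'.1, (m, [y]) ∈ X'.2 ↔ y ∈ X.1) (hf : 1 ≤ M) {A : Finset α}
    (hA : ∀ x ∈ A, x ∈ X.1) {f : Perm α} (h : (wsys M X').L A f) : (wsys M X).L A f :=
  wsys_restrict le_rfl hU (· < n) (fun c l _ => hR c l)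
    (fun x hx y hy e => (hm y hy).1 ((e m).1 ((hm x (hU x hx)).2 hx))) hA hf h

end Pool.Agent.P.MP_f1a348_lc.GX
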