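import Pool.Agent.P.MP_f1a348_lc.GX.DefsV
import Pool.Agent.P.MP_f1a348_lc.GX.DefsF
import Pool.Agent.P.MP_f1a348_lc.GX.LibTm
import Pool.Agent.P.MP_f1a348_lc.GX.LibWS
import Pool.Agent.P.MP_f1a348_lc.GX.LibFrm
import Pool.Agent.P.MP_f1a348_lc.GX.LibGrp
import Pool.Agent.P.MP_f1a348_lc.GX.LibExt

/-! Graph isomorphism: the states of the program, their meaning, modules and simple moves. -/

set_option autoImplicit false
set_option linter.unusedSectionVars false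

namespace Pool.Agent.P.MP_f1a348_lc.GX

open Pool.Agent.Lib.Helper47 Pool.Agent.P.MP_f1a348_lc.GI Pool.Agent.P.MP_f1a348_lc.TO

/-- the permutations that move only numbers below `n` -/
def SymN (n : ℕ) : Subgroup U where
  carrier := {g | ∀ a, n ≤ a → g.app a = a}
  one_mem' := fun _ _ => rfl
  mul_mem' := fun {g h} hg hh a ha => by rw [FP.app_mul, hh a ha, hg a ha]
  inv_mem' := fun {g} hg a ha => by
    conv_lhs => rw [← hg a ha]
    exact FP.app_inv_app g a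

theorem mem_SymN {n : ℕ} {g : U} : g ∈ SymN n ↔ ∀ a, n ≤ a → g.app a = a := Iff.rfl

/-- the answers: the empty set or a coset -/
abbrev Ans : Type := Option (U × List U)

/-- the context: budget, vertices, a list of length `2 ^ lam`, and `lam`, `M`, `mm` in unary -/
abbrev Cx : Type := List Unit × List ℕ × List Unit × List Unit × List Unit × List Unit

namespace Cx
variable (cx : Cx)
def pad : List Unit := cx.1
def base : List ℕ := cx.2.1
def big : List Unit := cx.2.2.1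
def ul : List Unit := cx.2.2.2.1
def uM : List Unit := cx.2.2.2.2.1
def um : List Unit := cx.2.2.2.2.2
/-- the budget -/
def pd : ℕ := cx.pad.length
/-- the number of vertices -/
def n : ℕ := cx.base.length
def lam : ℕ := cx.ul.length
/-- the parameters of the game -/
def P : Pm := ⟨cx.lam, cx.n, cx.uM.length, cx.um.length⟩
/-- the parameters of the refinement -/
def par : Par := (cx.pad, cx.uM)
/-- the bound for the number of real points -/
def b1 : ℕ := 2 ^ (cx.lam / 2)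
/-- the number of free calls -/
def mE : ℕ := 2 ^ (2 * cx.lam + 3)
/-- the configuration of the engine for the size bound `B` -/
def cfg (B : ℕ) : Cfg Cx := (cx, B, 2 * cx.lam + 4, cx.mE)
/-- the price of the frame that tries the modules -/
def c0 : ℕ := 2 * cx.lam + 9

structure Ok : Prop where
  base : cx.base = List.range cx.n
  big : cx.big.length = 2 ^ cx.lam
  p : cx.P.Ok
  lam : 64 ≤ cx.lam
  nb : cx.n ≤ cx.b1
  pd : 2 ^ (cx.lam * cx.uM.length) ≤ cx.pd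

variable {α : Type} [Enc α] {c : α → Cx}
@[fun_prop] theorem pt_pad (h : PT c) : PT (fun a => (c a).pad) := by unfold pad; fun_prop
@[fun_prop] theorem pt_base (h : PT c) : PT (fun a => (c a).base) := by unfold base; fun_prop
@[fun_prop] theorem pt_big (h : PT c) : PT (fun a => (c a).big) := by unfold big; fun_prop
@[fun_prop] theorem pt_ul (h : PT c) : PT (fun a => (c a).ul) := by unfold ul; fun_prop
@[fun_prop] theorem pt_uM (h : PT c) : PT (fun a => (c a).uM) := by unfold uM; fun_prop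
@[fun_prop] theorem pt_um (h : PT c) : PT (fun a => (c a).um) := by unfold um; fun_prop
@[fun_prop] theorem pt_par (h : PT c) : PT (fun a => (c a).par) := by unfold par; fun_prop
end Cx

/-- a state: a coset, the real points, the active points of both sides, the two structures, and a
bound for the labels and the names in use -/
abbrev Sta : Type := (U × List U) × List Tm × List Tm × List Tm × (Sx Tm × Sx Tm) × ℕ

/-- `g` carries `X` onto `Y` -/
def Maps (g : U) (X Y : List Tm) : Prop := ∀ x, x ∈ X ↔ g • x ∈ Y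

/-- remove repetitions -/
def dd (l : List Tm) : List Tm := (Tm.st l).els

/-- shift the labels -/
def shl (k : ℕ) (L : List (ℕ × List Tm)) : List (ℕ × List Tm) := L.map (fun e => (e.1 + k, e.2))

/-- new vertices; the old ones get the label `k` -/
def addV (A : Sx Tm) (V : List Tm) (k : ℕ) : Sx Tm :=
  (A.1 ++ dd (V.filter (fun x => !A.1.contains x)), A.2 ++ A.1.map (fun x => (k, [x])))

namespace Sta
variable (s : Sta)
def c : U × List U := s.1
def σ : U := s.1.1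
def S : List U := s.1.2
def D : List Tm := s.2.1
def X : List Tm := s.2.2.1
def Y : List Tm := s.2.2.2.1
def q : Sx Tm × Sx Tm := s.2.2.2.2.1
def A : Sx Tm := s.2.2.2.2.1.1
def B : Sx Tm := s.2.2.2.2.1.2
def ctr : ℕ := s.2.2.2.2.2

/-- a new coset -/
def cos (c : U × List U) : Sta := (c, s.2)
/-- new active points -/
def act (X Y : List Tm) : Sta := (s.1, s.2.1, X, Y, s.2.2.2.2)
/-- new labels, given by numbers below `k` -/
def lab (Lx Ly : List (ℕ × List Tm)) (k : ℕ) : Sta :=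
  (s.c, s.D, s.X, s.Y, ((s.A.1, s.A.2 ++ shl s.ctr Lx), (s.B.1, s.B.2 ++ shl s.ctr Ly)), s.ctr + k)
/-- new real points -/
noncomputable def real (V : List Tm) : Sta :=
  (s.c, s.D ++ dd (V.filter (fun x => !s.D.contains x)), s.X, s.Y,
    (addV s.A V s.ctr, addV s.B (V.map (fun x => s.σ • x)) s.ctr), s.ctr + 1)
/-- the name number `i` among the new names -/
def nm (i : ℕ) : Tm := Tm.atm (s.ctr + i)
/-- new abstract vertices: the names with the numbers in `I` and `J`, all below `k` -/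
def abs (I J : List ℕ) (k : ℕ) : Sta :=
  (s.c, s.D, s.X, s.Y, (addV s.A (I.map s.nm) s.ctr, addV s.B (J.map s.nm) s.ctr), s.ctr + k + 1)

/-- the elements of the coset that carry the active points onto the active points -/
def Sol : Set U := {g | g ∈ cs (some s.c) ∧ Maps g s.X s.Y}
/-- the isomorphism `f` extends the solution `g` -/
structure Wit (g : U) (f : Tm → Tm) : Prop where
  sol : g ∈ s.Sol
  iso : SIso s.A s.B f
  eq : ∀ x ∈ s.D, f x = g • x
/-- the needed solutions -/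
def Tgt : Set U := {g | ∃ f, s.Wit g f}

section pt
variable {α : Type} [Enc α] {s : α → Sta}
@[fun_prop] theorem pt_c (h : PT s) : PT (fun a => (s a).c) := by unfold c; fun_prop
@[fun_prop] theorem pt_σ (h : PT s) : PT (fun a => (s a).σ) := by unfold σ; fun_prop
@[fun_prop] theorem pt_S (h : PT s) : PT (fun a => (s a).S) := by unfold S; fun_prop
@[fun_prop] theorem pt_D (h : PT s) : PT (fun a => (s a).D) := by unfold D; fun_prop
@[fun_prop] theorem pt_X (h : PT s) : PT (fun a => (s a).X) := by unfold X; fun_prop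
@[fun_prop] theorem pt_Y (h : PT s) : PT (fun a => (s a).Y) := by unfold Y; fun_prop
@[fun_prop] theorem pt_q (h : PT s) : PT (fun a => (s a).q) := by unfold q; fun_prop
@[fun_prop] theorem pt_A (h : PT s) : PT (fun a => (s a).A) := by unfold A; fun_prop
@[fun_prop] theorem pt_B (h : PT s) : PT (fun a => (s a).B) := by unfold B; fun_prop
@[fun_prop] theorem pt_ctr (h : PT s) : PT (fun a => (s a).ctr) := by unfold ctr; fun_prop
@[fun_prop] theorem pt_dd {l : α → List Tm} (h : PT l) : PT (fun a => dd (l a)) := by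
  unfold dd; fun_prop
@[fun_prop] theorem pt_shl {k : α → ℕ} {L : α → List (ℕ × List Tm)} (h : PT k) (h' : PT L) :
    PT (fun a => shl (k a) (L a)) := by unfold shl; fun_prop
@[fun_prop] theorem pt_addV {A : α → Sx Tm} {V : α → List Tm} {k : α → ℕ} (h1 : PT A) (h2 : PT V)
    (h3 : PT k) : PT (fun a => addV (A a) (V a) (k a)) := by unfold addV; fun_prop
@[fun_prop] theorem pt_cos {c : α → U × List U} (h : PT s) (h' : PT c) :
    PT (fun a => (s a).cos (c a)) := by unfold cos; fun_prop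
@[fun_prop] theorem pt_act {X Y : α → List Tm} (h : PT s) (h1 : PT X) (h2 : PT Y) :
    PT (fun a => (s a).act (X a) (Y a)) := by unfold act; fun_prop
@[fun_prop] theorem pt_lab {Lx Ly : α → List (ℕ × List Tm)} {k : α → ℕ} (h : PT s) (h1 : PT Lx)
    (h2 : PT Ly) (h3 : PT k) : PT (fun a => (s a).lab (Lx a) (Ly a) (k a)) := by
  unfold lab; fun_prop
@[fun_prop] theorem pt_real {V : α → List Tm} (h : PT s) (h1 : PT V) :
    PT (fun a => (s a).real (V a)) := by unfold real; fun_prop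
@[fun_prop] theorem pt_nm {i : α → ℕ} (h : PT s) (h1 : PT i) : PT (fun a => (s a).nm (i a)) := by
  unfold nm; fun_prop
@[fun_prop] theorem pt_abs {I J : α → List ℕ} {k : α → ℕ} (h : PT s) (h1 : PT I) (h2 : PT J)
    (h3 : PT k) : PT (fun a => (s a).abs (I a) (J a) (k a)) := by unfold abs; fun_prop
end pt
end Sta

namespace Cx
variable (cx : Cx) (s : Sta)

/-- the colour of a list of vertices of the side `b` -/
def col (b : Bool) (l : List Tm) : ℕ := WL.cls cx.par s.q b l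
/-- the vertices of the side `b` with the colour of the vertex `p` of the first side -/
def cl (b : Bool) (p : Tm) : List Tm :=
  (WL.sd s.q b).1.filter (fun x => cx.col s b [x] == cx.col s false [p])
/-- the orbit of a real point -/
noncomputable def ob (p : Tm) : List Tm := orbL cx.pad s.S s.D p
/-- the number of the orbit of the tuple `a` in the list `L` of tuples -/
noncomputable def orbN (L : List (List Tm)) (a : List Tm) : ℕ :=
  L.findIdx (fun b => (trL cx.pad cx.base (1, s.S) (b.zip a)).isSome)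
/-- labels for the orbits of the group on the tuples of real points of length `mm` -/
noncomputable def orbLab : Sta :=
  s.lab ((tuples cx.pad s.D cx.um).map (fun a => (cx.orbN s (tuples cx.pad s.D cx.um) a, a)))
    ((tuples cx.pad s.D cx.um).map
      (fun a => (cx.orbN s (tuples cx.pad s.D cx.um) a, a.map (fun x => s.σ • x))))
    ((tuples cx.pad s.D cx.um).length + 1)

section pt
variable {α : Type} [Enc α] {c : α → Cx} {s : α → Sta}
@[fun_prop] theorem pt_col {b : α → Bool} {l : α → List Tm} (h0 : PT c) (h : PT s) (h1 : PT b)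
    (h2 : PT l) : PT (fun a => (c a).col (s a) (b a) (l a)) := by unfold col; fun_prop
@[fun_prop] theorem pt_cl {b : α → Bool} {p : α → Tm} (h0 : PT c) (h : PT s) (h1 : PT b)
    (h2 : PT p) : PT (fun a => (c a).cl (s a) (b a) (p a)) := by unfold cl; fun_prop
@[fun_prop] theorem pt_ob {p : α → Tm} (h0 : PT c) (h : PT s) (h2 : PT p) :
    PT (fun a => (c a).ob (s a) (p a)) := by unfold ob; fun_prop
@[fun_prop] theorem pt_orbN {L : α → List (List Tm)} {l : α → List Tm} (h0 : PT c) (h : PT s)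
    (h1 : PT L) (h2 : PT l) : PT (fun a => (c a).orbN (s a) (L a) (l a)) := by
  unfold orbN; fun_prop
@[fun_prop] theorem pt_orbLab (h0 : PT c) (h : PT s) : PT (fun a => (c a).orbLab (s a)) := by
  unfold orbLab; fun_prop
end pt

/-- one side: the vertices are real points or names, the labels and names are below the counter -/
structure Side (k : ℕ) (g : U) (D : List Tm) (A : Sx Tm) : Prop where
  nd : A.1.Nodup
  real : ∀ x ∈ D, g • x ∈ A.1
  kind : ∀ y ∈ A.1, g⁻¹ • y ∈ D ∨ ∃ i, cx.n ≤ i ∧ i < k ∧ y = Tm.atm i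
  lab : ∀ e ∈ A.2, e.1 < k ∧ ∀ x ∈ e.2, x ∈ A.1

/-- well formed states -/
structure WF0 : Prop where
  hσ : s.σ ∈ SymN cx.n
  hS : ∀ g ∈ s.S, g ∈ SymN cx.n
  len : s.S.length ≤ cx.pd
  nd : s.D.Nodup
  ab : ∀ x ∈ s.D, Tm.AB cx.n x
  inv : InvL (gen s.S) s.D
  nx : s.X.Nodup
  ny : s.Y.Nodup
  xd : ∀ x ∈ s.X, x ∈ s.D
  yd : ∀ y ∈ s.Y, s.σ⁻¹ • y ∈ s.D
  ctr : cx.n ≤ s.ctr
  a : cx.Side s.ctr 1 s.D s.A
  b : cx.Side s.ctr s.σ s.D s.B

/-- well formed states with few vertices -/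
structure WF : Prop extends cx.WF0 s where
  ca : s.A.1.length ≤ 2 ^ cx.lam
  cb : s.B.1.length ≤ 2 ^ cx.lam

/-- a correct answer -/
structure Post (r : Ans) : Prop where
  lo : s.Tgt ⊆ cs r
  hi : cs r ⊆ s.Sol
  len : ∀ p ∈ r, p.2.length ≤ cx.pd

/-- the view of a state -/
def view : Vw U Tm := ⟨gen s.S, s.D.toFinset, s.X.toFinset, wsys cx.uM.length s.A⟩

/-- a structure leaves room for the fuel `φ` -/
structure SzS (φ : ℕ) (A : Sx Tm) : Prop where
  v : A.1.length + cx.b1 * φ ≤ 2 ^ cx.lam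
  w : ∀ t ∈ A.1, Tm.wt t * 2 ^ φ ≤ cx.pd
  r : A.2.length + cx.pd ^ 2 * φ ≤ cx.pd ^ 3
  l : ∀ e ∈ A.2, e.2.length ≤ cx.pd

/-- the state leaves room for the fuel `φ` -/
structure Sz (φ : ℕ) : Prop where
  f : 2 ^ φ ≤ cx.pd
  d : s.D.length + cx.n * φ ≤ cx.b1
  k : s.ctr + cx.pd ^ 2 * φ ≤ cx.pd ^ 3
  a : cx.SzS φ s.A
  b : cx.SzS φ s.B

/-- the growth of a structure: `v` more vertices, `k` more labelled lists, weights at most `w` -/
structure GrS (v k w : ℕ) (A A' : Sx Tm) : Prop where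
  hv : A'.1.length ≤ A.1.length + v
  hw : ∀ t ∈ A'.1, Tm.wt t ≤ w
  hr : A'.2.length ≤ A.2.length + k
  hl : (∀ e ∈ A.2, e.2.length ≤ cx.pd) → ∀ e ∈ A'.2, e.2.length ≤ cx.pd

/-- the growth of a state: `d` more real points, `v` more vertices, `k` more labels, and the
weights grow at most by the factor `m` -/
structure Gro (s' : Sta) (d v k m : ℕ) : Prop where
  hd : s'.D.length ≤ s.D.length + d
  hk : s'.ctr ≤ s.ctr + k
  ab : ∀ w, 1 ≤ w → (∀ t ∈ s.A.1, Tm.wt t ≤ w) → (∀ t ∈ s.B.1, Tm.wt t ≤ w) →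
    cx.GrS v k (m * w) s.A s'.A ∧ cx.GrS v k (m * w) s.B s'.B

/-- the growth that is allowed in one move -/
def Grow (s' : Sta) : Prop := cx.Gro s s' cx.n cx.b1 (cx.pd ^ 2) (2 ^ (cx.lam + 1))

/-- the fuel `φ` suffices for all states with the view `v`; `e` runs the frame of a state -/
def Wn (e : ℕ → Sta → Option Ans) (φ : ℕ) (v : Vw U Tm) : Prop :=
  ∀ φ', φ ≤ φ' → ∀ s, cx.WF0 s → cx.Sz s φ' → cx.view s = v → e (φ' + cx.c0) s ≠ none
end Cx

/-! ### the hypotheses of the rules -/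

section rules
variable {G Y : Type} [Group G] [MulAction G Y] [DecidableEq Y]
  (P : Pm) (W : ℕ → Vw G Y → Prop) (φ : ℕ) (v : Vw G Y)

def RUni : Prop := P.g ≤ φ ∧
  ∀ v' : Vw G Y, v'.Ok P → v.Mono v' → v'.OL P → (∀ w ∈ v'.X, ∀ w' ∈ v'.X, v'.Γ.E1 w w') →
    W (φ - P.g) v'

def RPin1 : Prop := ∃ (p : Y) (Q : Finset Y), p ∈ v.D ∧ Q ⊆ v.o p ∧
  P.g + 2 * Q.card * bl (v.o p).card ≤ φ ∧
  ∀ v' : Vw G Y, v'.Ok P → v.Mono v' → v'.H ≤ fixF G Q →
    W (φ - (P.g + 2 * Q.card * bl (v.o p).card)) v'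

def RPin2 : Prop := ∃ (p : Y) (Q : Finset Y), p ∈ v.Γ.D ∧ Q ⊆ v.Γ.cls p ∧
  P.g + 2 * Q.card * bl (v.Γ.cls p).card ≤ φ ∧
  ∀ v' : Vw G Y, v'.Ok P → v.Mono v' → v'.H = v.H → v'.D = v.D →
    (∀ x ∈ Q, ∀ y, v'.Γ.E1 x y → y = x) → W (φ - (P.g + 2 * Q.card * bl (v.Γ.cls p).card)) v'

def RQuo1 : Prop := ∃ (C : Finset Y) (prs : List (Y × Y)), v.IsO C ∧ C.card ≤ P.N1 ∧
  (∀ q ∈ prs, q.1 ∈ C ∧ q.2 ∈ C) ∧ P.g * (2 * prs.length + 1) ≤ φ ∧
  ∀ (v' : Vw G Y) (b : Y → Y), v'.Ok P → v.Mono v' → v'.H = v.H → v'.Nw C b →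
    (∀ x ∈ C, ∀ y ∈ C, b x = b y ↔ Relation.EqvGen ((v.Γ1 P).Rel C prs) x y) →
    W (φ - P.g * (2 * prs.length + 1)) v'

def RQuo2 : Prop := ∃ (C : Finset Y) (prs : List (Y × Y)), v.Γ.Cls C ∧ C.card ≤ P.N1 ∧
  (∀ q ∈ prs, q.1 ∈ C ∧ q.2 ∈ C) ∧ P.g * (2 * prs.length + 1) ≤ φ ∧
  ∀ (v' : Vw G Y) (b : Y → Y), v'.Ok P → v.Mono v' → v'.H = v.H → v'.D = v.D →
    v.Γ.Blk v'.Γ C prs b → W (φ - P.g * (2 * prs.length + 1)) v'

def RRed0 : Prop := ∃ O : Finset Y, v.IsO O ∧ Giant v.H O ∧ P.g ≤ φ ∧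
  ∀ v' : Vw G Y, v'.Ok P → v.Mono v' → (∀ h ∈ v'.H, ∀ u ∈ O, v.Γ.E1 u (h • u)) → W (φ - P.g) v'

def RRedE : Prop := ∃ (O A : Finset Y) (z z' : Y), v.IsO O ∧ Giant v.H O ∧ O.card ≤ P.N1 ∧
  v.Γ.Cls A ∧ A ⊆ O ∧ z ∈ A ∧ z' ∈ A ∧ P.g * 3 ≤ φ ∧
  ∀ (v' : Vw G Y) (b : Y → Y), v'.Ok P → v.Mono v' →
    (∀ h ∈ v'.H, ∀ u ∈ O, v.Γ.E1 u (h • u)) → v'.Nw A b →
    (∀ x ∈ A, ∀ y ∈ A, b x = b y ↔ Relation.EqvGen (v.Γ.Rel A [(z, z')]) x y) →
    W (φ - P.g * 3) v'

def RRedJ : Prop := ∃ (O C : Finset Y) (z0 y0 : Y) (e : ℕ), v.IsO O ∧ Giant v.H O ∧ v.Γ.Cls O ∧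
  v.Γ.John O C z0 y0 e ∧ 1 ≤ e ∧ e < C.card ∧ C.card ≤ P.N1 ∧ P.g * 3 ≤ φ ∧
  ∀ (v' : Vw G Y) (b : Y → Y), v'.Ok P → v.Mono v' → (∀ y ∈ C, b y ∈ v'.D) →
    (∀ h ∈ v'.H, ∀ y ∈ C, ∃ y' ∈ C, h • b y = b y') →
    (∀ h ∈ v'.H, ∀ y ∈ C, ∀ y' ∈ C, h • b y = b y' → ∀ x ∈ O,
      v.Γ.E2 z0 y0 x y ↔ v.Γ.E2 z0 y0 (h • x) y') →
    W (φ - P.g * 3) v'

def RGiant : Prop := ∃ (O : Finset Y) (w0 u0 : Y), v.IsO O ∧ Giant v.H O ∧ w0 ∈ v.D ∧ u0 ∈ O ∧
  (∀ w ∈ v.X, ∃ u ∈ O, v.Γ.E2 w0 u0 w u) ∧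
  (∀ w ∈ v.X, ∀ u ∈ O, v.Γ.E2 w0 u0 w u → AlgPt P.tau v.H w u) ∧
  P.g * 2 + P.cst O.card ≤ φ ∧
  (∀ v' : Vw G Y, v'.Ok P → v.Mono v' →
    (∀ w ∈ v'.X, ∃ u ∈ O, v.Γ.E2 w0 u0 w u ∧ 4 * (v'.o u).card ≤ 3 * O.card) →
    W (φ - P.g * 2) v') ∧
  (∀ (v' : Vw G Y) (O' : Finset Y), v'.Ok P → v.Mono v' → O' ⊆ O → v'.IsO O' →
    (∀ w ∈ v'.X, ∃ u ∈ O', v.Γ.E2 w0 u0 w u) →
    (O'.card < 4 * P.tau ∨ (4 * P.tau ≤ O'.card ∧ Giant v'.H O' ∧ v'.Γ.Cls O' ∧
      ¬ v'.Γ.Tr O' P.tau)) → W (φ - P.g * 2) v') ∧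
  ∀ (v' : Vw G Y) (o : ℕ), v'.Ok P → v.Emb P v' → 4 * P.tau ≤ o → o ≤ O.card →
    (∀ w ∈ v'.X, (v'.o w).card * (o - P.t + 1) ≤ (v.o w).card * P.s) →
    W (φ - P.g * 2 - P.cst o) v'
end rules

/-- the type of the hypotheses of a rule -/
abbrev Rule : Type := Pm → (ℕ → Vw U Tm → Prop) → ℕ → Vw U Tm → Prop

/-! ### modules -/

/-- A module: frames that call each other and the frames of states. -/
structure Mod where
  X : Type
  T : Type
  S : Type
  eX : Enc X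
  eT : Enc T
  eS : Enc S
  part : Part Cx (Sta ⊕ X) X T S Ans
  ent : Cx → Sta → X
  Pre : Cx → X → Prop
  Post : Cx → X → Ans → Prop

attribute [instance] Mod.eX Mod.eT Mod.eS

namespace Mod
variable (m : Mod)

/-- the precondition of a called frame -/
def pre (cx : Cx) : Sta ⊕ m.X → Prop := Sum.elim cx.WF0 (m.Pre cx)
/-- the postcondition of a called frame -/
def post (cx : Cx) : Sta ⊕ m.X → Ans → Prop := Sum.elim cx.Post (m.Post cx)

structure Poly : Prop where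
  part : m.part.Poly
  ent : PT (fun x : Cx × Sta => m.ent x.1 x.2)
  sz : ∀ cx s, size (m.ent cx s) ≤ size s + 64

structure Sound : Prop where
  ent : ∀ cx s, cx.Ok → cx.WF s → m.Pre cx (m.ent cx s) ∧ ∀ a, m.Post cx (m.ent cx s) a → cx.Post s a
  snd : ∀ cx x, cx.Ok → m.Pre cx x → m.part.Snd cx (m.pre cx) (m.post cx) x (m.Post cx x)

/-- `E φ k f` is the outcome of the frame `f` in an engine that contains the module -/
structure Env (cx : Cx) (B : ℕ) (E : ℕ → ℕ → Sta ⊕ m.X → Option Ans) : Prop where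
  snd : ∀ φ k f a, m.pre cx f → E φ k f = some a → m.post cx f a
  halt : ∀ φ k x (R : Option Ans → Prop), 0 < k → size x ≤ B → size (m.part.todo cx x) ≤ B →
    m.part.price (cx.cfg B) x ≤ φ →
    m.part.Loc cx B (E φ (k - 1)) (E (φ - m.part.price (cx.cfg B) x) cx.mE) x R →
    R (E φ k (.inr x))

/-- the module realises the rule `R` -/
def Wins (R : Rule) : Prop :=
  ∃ c : ℕ, ∀ cx B E, Cx.Ok cx → cx.pd ^ c ≤ B → m.Env cx B E → ∀ φ φ' s, φ ≤ φ' → cx.WF0 s →
    cx.Sz s φ' → R cx.P (cx.Wn fun ψ s' => E ψ cx.mE (.inl s')) φ (cx.view s) →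
    E φ' cx.mE (.inr (m.ent cx s)) ≠ none
end Mod

/-- there is a module for the rule -/
def HasMod (R : Rule) : Prop := ∃ m : Mod, m.Poly ∧ m.Sound ∧ m.Wins R

/-! ### simple moves -/

/-- A simple move: choose a vertex `p` and a tuple in `dom p`, solve all states in `br`, and join
the answers. -/
structure Mv where
  dom : Cx → Sta → Tm → List Tm
  br : Cx → Sta → Tm → List Tm → Option (List Sta)

namespace Mv
variable (m : Mv)

structure Poly : Prop where
  dom : PT (fun x : Cx × Sta × Tm => m.dom x.1 x.2.1 x.2.2)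
  br : PT (fun x : Cx × Sta × Tm × List Tm => m.br x.1 x.2.1 x.2.2.1 x.2.2.2)

def Sound : Prop :=
  ∀ cx s p l L, Cx.Ok cx → cx.WF s → p ∈ s.A.1 → (∀ x ∈ l, x ∈ m.dom cx s p) →
    m.br cx s p l = some L →
    (∀ s' ∈ L, cx.WF0 s' ∧ s'.Sol ⊆ s.Sol) ∧ ∀ g ∈ s.Tgt, ∃ s' ∈ L, g ∈ s'.Tgt

def Wins (R : Rule) : Prop :=
  ∀ cx W φ φ' s, Cx.Ok cx → φ ≤ φ' → cx.WF s → cx.Sz s φ' → R cx.P W φ (cx.view s) →
    ∃ p ∈ s.A.1, ∃ l L c, l.length ≤ 2 ^ cx.lam ∧ (∀ x ∈ l, x ∈ m.dom cx s p) ∧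
      (∀ x ∈ m.dom cx s p, x ∈ s.A.1) ∧ (m.dom cx s p).length ^ l.length ≤ cx.pd ∧ m.br cx s p l = some L ∧ L.length ≤ cx.pd ∧
      10 * cx.lam + 26 + bl ((m.dom cx s p).length ^ l.length) + bl L.length ≤ c ∧ c ≤ φ ∧
      ∀ s' ∈ L, cx.Grow s s' ∧ W (φ - c) (cx.view s')
end Mv

/-- there is a simple move for the rule -/
def HasMv (R : Rule) : Prop := ∃ m : Mv, m.Poly ∧ m.Sound ∧ m.Wins R

/-! ### the engine and the first state -/

/-- the engine: the arguments are the budget, the fuel, the context and the state -/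
structure EngSpec (run : List Unit × ℕ × Cx × Sta → Option Ans) : Prop where
  pt : PT run
  sound : ∀ pad φ cx s a, Cx.Ok cx → cx.WF0 s → run (pad, φ, cx, s) = some a → cx.Post s a
  halts : ∃ c : ℕ, ∀ pad φ cx s (Φ : ℝ), Cx.Ok cx → cx.WF0 s → cx.Sz s φ →
    cx.pd ^ c ≤ pad.length → Φ + 2 ≤ cx.P.mm → cx.P.unit * (Φ + 1) ≤ φ →
    (∀ w ∈ (cx.view s).X, (cx.view s).Pt cx.P w Φ) → run (pad, φ, cx, s) ≠ none

/-- the point of an arc -/
def arcT (e : ℕ × ℕ) : Tm := Tm.pr (Tm.atm e.1) (Tm.atm e.2)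

/-- the first real points: the vertices and the pairs of vertices -/
def dom0 (V : List ℕ) : List Tm := V.map Tm.atm ++ (prodL V V).map arcT

/-- the first state -/
def st0 (V : List ℕ) (E F : List (ℕ × ℕ)) : Sta :=
  ((1, (prodL V V).map (fun e => FP.swap e.1 e.2)), dom0 V, E.map arcT, F.map arcT,
    ((dom0 V, []), (dom0 V, [])), V.length)

/-- the first potential -/
noncomputable def Phi0 (P : Pm) (n : ℕ) : ℝ := 2 * (HH P.LL n + 2 * (12289 * lg n))

end Pool.Agent.P.MP_f1a348_lc.GX
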