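import Pool.Agent.P.MP_f1a348_lc.GX.DefsS
import Pool.Agent.P.MP_f1a348_lc.GX.TSYS

/-! Step CONN. -/

set_option autoImplicit false
set_option linter.unusedSectionVars false

namespace Pool.Agent.P.MP_f1a348_lc.GX

open Equiv Finset
open scoped Classical
variable {Y : Type} [DecidableEq Y] {Γ Γ' : Sy Y}

/- lift a path step by step with ext3 -/
theorem Sy.Inv2.eqvGen (hM : 3 ≤ Γ.M) {X : Y → Y → Prop} (h : Γ.Inv2 X) :
    Γ.Inv2 (fun a b => a ∈ Γ.D ∧ Relation.EqvGen X a b) := by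
  have h1 : ∀ a b, Relation.EqvGen X a b → (a ∈ Γ.D ↔ b ∈ Γ.D) := by
    intro a b e
    induction e with
    | rel a b e => exact iff_of_true (h.1 a b e).1 (h.1 a b e).2
    | refl => rfl
    | symm a b _ ih => exact ih.symm
    | trans a b c _ _ i1 i2 => exact i1.trans i2
  refine ⟨fun a b e => ⟨e.1, (h1 a b e.2).1 e.1⟩, fun a b a' b' e r => ⟨e.fst.mem.2, ?_⟩⟩
  obtain ⟨-, r⟩ := r
  induction r generalizing a' b' with
  | rel a b r => exact .rel _ _ (h.2 _ _ _ _ e r)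
  | refl a => rw [e.eq_iff.1 rfl]; exact .refl _
  | symm a b _ ih => exact .symm _ _ (ih _ _ e.swap)
  | trans a c b r1 _ i1 i2 =>
    obtain ⟨c', e1, -, -, e2⟩ := e.ext3 hM ((h1 a c r1).1 e.fst.mem.1)
    exact .trans _ _ _ (i1 _ _ e1) (i2 _ _ e2)

theorem Sy.inv2_rel {C : Finset Y} (hC : Γ.Inv1 C) (prs : List (Y × Y)) : Γ.Inv2 (Γ.Rel C prs) := by
  refine ⟨fun a b r => ⟨hC.1 r.1, hC.1 r.2.1⟩, fun a b a' b' e r => ?_⟩
  obtain ⟨ha, hb, p, hp, r⟩ := r
  exact ⟨hC.2 _ _ e.fst ha, hC.2 _ _ e.snd hb, p, hp, r.trans e⟩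

/- an invariant equivalence relation on A that is neither equality nor everything -/
theorem Sy.equi_of {A : Finset Y} {E : Y → Y → Prop} (hE : Γ.Inv2 E)
    (hs : ∀ a b, E a b → E b a) (ht : ∀ a b c, E a b → E b c → E a c) (hr : ∀ a ∈ A, E a a)
    {z z' x y : Y} (hz : z ∈ A) (hz' : z' ∈ A) (hne : z ≠ z') (e : E z z') (hx : x ∈ A)
    (hy : y ∈ A) (n : ¬ E x y) : Γ.Equi A := by
  refine ⟨z, hz, z', hz', hne, x, hx, y, hy, fun r => n ?_⟩
  have : ∀ a b, Relation.EqvGen (Γ.Rel A [(z, z')]) a b → a = b ∨ E a b := by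
    intro a b r
    induction r with
    | rel a b r =>
      obtain ⟨-, -, p, hp, r⟩ := r
      rw [List.mem_singleton.1 hp] at r
      exact Or.inr (hE.2 _ _ _ _ r e)
    | refl => exact Or.inl rfl
    | symm a b _ ih => exact ih.imp Eq.symm (hs a b)
    | trans a b c _ _ i1 i2 =>
      rcases i1 with rfl | i1
      · exact i2
      · rcases i2 with rfl | i2
        · exact Or.inr i1
        · exact Or.inr (ht _ _ _ i1 i2)
  rcases this x y r with rfl | h
  · exact hr _ hx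
  · exact h

/- twins: E z z' iff z, z' in A and R z v ↔ R z' v for all v in O -/
theorem Sy.sep_or_equi (hM : 3 ≤ Γ.M) {A O : Finset Y} {R : Y → Y → Prop} (hA : Γ.Inv1 A)
    (hO : Γ.Inv1 O) (hR : Γ.Inv2 R) {x y v : Y} (hx : x ∈ A) (hy : y ∈ A) (hv : v ∈ O)
    (h1 : R x v) (h2 : ¬ R y v) : Sy.Sep A O R ∨ Γ.Equi A := by
  by_cases hS : Sy.Sep A O R
  · exact Or.inl hS
  right
  simp only [Sy.Sep, not_forall, not_exists, not_and, not_not] at hS
  obtain ⟨z, hz, z', hz', hne, hzz⟩ := hS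
  refine Sy.equi_of (E := fun a b => a ∈ A ∧ b ∈ A ∧ ∀ v ∈ O, (R a v ↔ R b v))
    ⟨fun a b r => ⟨hA.1 r.1, hA.1 r.2.1⟩, fun a b a' b' e r =>
      ⟨hA.2 _ _ e.fst r.1, hA.2 _ _ e.snd r.2.1, fun w hw => ?_⟩⟩
    (fun a b r => ⟨r.2.1, r.1, fun w hw => (r.2.2 w hw).symm⟩)
    (fun a b c r r' => ⟨r.1, r'.2.1, fun w hw => (r.2.2 w hw).trans (r'.2.2 w hw)⟩)
    (fun a ha => ⟨ha, ha, fun _ _ => Iff.rfl⟩) hz hz' hne ⟨hz, hz', hzz⟩ hx hy
    fun r => h2 ((r.2.2 v hv).1 h1)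
  obtain ⟨c, e1, e2, -, -⟩ := e.symm.ext3 hM (hO.1 hw)
  exact (hR.iff e1).trans ((r.2.2 c (hO.2 _ _ e1.snd hw)).trans (hR.iff e2).symm)

/- the components of invariant types on a class have equal sizes -/
theorem Sy.blocks_eq (hM : 3 ≤ Γ.M) {C : Finset Y} (hC : Γ.Cls C) (prs : List (Y × Y))
    {x y : Y} (hx : x ∈ C) (hy : y ∈ C) :
    (C.filter (Relation.EqvGen (Γ.Rel C prs) x)).card =
      (C.filter (Relation.EqvGen (Γ.Rel C prs) y)).card := by
  have h1 : ∀ a b, Relation.EqvGen (Γ.Rel C prs) a b → (a ∈ C ↔ b ∈ C) := by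
    intro a b e
    induction e with
    | rel a b e => exact iff_of_true e.1 e.2.1
    | refl => rfl
    | symm a b _ ih => exact ih.symm
    | trans a b c _ _ i1 i2 => exact i1.trans i2
  have h2 : ∀ a ∈ C, C.filter (Relation.EqvGen (Γ.Rel C prs) a) =
      Γ.D.filter (fun b => a ∈ Γ.D ∧ Relation.EqvGen (Γ.Rel C prs) a b) := by
    intro a ha
    ext b
    simp only [mem_filter]
    exact ⟨fun r => ⟨hC.2.1.1 r.1, hC.2.1.1 ha, r.2⟩, fun r => ⟨(h1 a b r.2.2).1 ha, r.2.2⟩⟩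
  rw [h2 x hx, h2 y hy]
  convert ((Sy.inv2_rel hC.2.1 prs).eqvGen hM).card_eq (by omega) (hC.2.2 x hx y hy)

/- add pairs one by one: each new type joins every component to another one, so the common size at least doubles -/
theorem Sy.gen_pairs (hM : 3 ≤ Γ.M) {C : Finset Y} (hC : Γ.Cls C) {E : Y → Y → Prop}
    (hE : Γ.Inv2 E) (hs : ∀ a b, E a b → E b a) (ht : ∀ a b c, E a b → E b c → E a c)
    (hr : ∀ a ∈ C, E a a) :
    ∃ prs : List (Y × Y), (∀ p ∈ prs, p.1 ∈ C ∧ p.2 ∈ C) ∧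
      (∀ x ∈ C, ∀ y ∈ C, Relation.EqvGen (Γ.Rel C prs) x y ↔ E x y) ∧
      ∀ x ∈ C, 2 ^ prs.length ≤ (C.filter (E x)).card := by
  let Q : ℕ → Prop := fun n => ∃ prs : List (Y × Y), prs.length = n ∧
    (∀ p ∈ prs, p.1 ∈ C ∧ p.2 ∈ C ∧ E p.1 p.2) ∧
    ∀ x ∈ C, 2 ^ n ≤ (C.filter (Relation.EqvGen (Γ.Rel C prs) x)).card
  have q0 : Q 0 := ⟨[], rfl, by simp, fun x hx =>
    card_pos.2 ⟨x, mem_filter.2 ⟨hx, .refl _⟩⟩⟩
  have qb : ∀ n, Q n → n ≤ C.card := by
    rintro n ⟨prs, -, -, h⟩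
    obtain ⟨x, hx⟩ := hC.1
    exact Nat.lt_two_pow_self.le.trans ((h x hx).trans (card_filter_le _ _))
  obtain ⟨prs, hl, hp, hc⟩ : Q (Nat.findGreatest Q C.card) :=
    Nat.findGreatest_spec (Nat.zero_le _) q0
  have h1 : ∀ a b, Relation.EqvGen (Γ.Rel C prs) a b → a = b ∨ E a b := by
    intro a b r
    induction r with
    | rel a b r =>
      obtain ⟨-, -, p, hp', r⟩ := r
      exact Or.inr (hE.2 _ _ _ _ r (hp p hp').2.2)
    | refl => exact Or.inl rfl
    | symm a b _ ih => exact ih.imp Eq.symm (hs a b)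
    | trans a b c _ _ i1 i2 =>
      rcases i1 with rfl | i1
      · exact i2
      · rcases i2 with rfl | i2
        · exact Or.inr i1
        · exact Or.inr (ht _ _ _ i1 i2)
  have h2 : ∀ x ∈ C, ∀ y ∈ C, Relation.EqvGen (Γ.Rel C prs) x y ↔ E x y := by
    intro x hx y hy
    refine ⟨fun r => (h1 x y r).elim (fun e => e ▸ hr x hx) id, fun e => ?_⟩
    by_contra n
    have hm : ∀ a b, Relation.EqvGen (Γ.Rel C prs) a b →
        Relation.EqvGen (Γ.Rel C ((x, y) :: prs)) a b := fun a b r =>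
      r.mono fun u v ⟨hu, hv, p, hp', r⟩ => ⟨hu, hv, p, List.mem_cons_of_mem _ hp', r⟩
    have hxy : Relation.EqvGen (Γ.Rel C ((x, y) :: prs)) x y := .rel _ _
      ⟨hx, hy, (x, y), List.mem_cons_self, Sy.E2.refl (hC.2.1.1 hx) (hC.2.1.1 hy)⟩
    have q1 : Q (Nat.findGreatest Q C.card + 1) := by
      refine ⟨(x, y) :: prs, by rw [List.length_cons, hl], ?_, fun w hw => ?_⟩
      · intro p hp'
        rcases List.mem_cons.1 hp' with rfl | hp'
        · exact ⟨hx, hy, e⟩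
        · exact hp p hp'
      · rw [Sy.blocks_eq hM hC _ hw hx]
        have hd : Disjoint (C.filter (Relation.EqvGen (Γ.Rel C prs) x))
            (C.filter (Relation.EqvGen (Γ.Rel C prs) y)) := by
          rw [disjoint_left]
          intro a ha hb
          exact n (.trans _ _ _ (mem_filter.1 ha).2 (.symm _ _ (mem_filter.1 hb).2))
        have hu : C.filter (Relation.EqvGen (Γ.Rel C prs) x) ∪
            C.filter (Relation.EqvGen (Γ.Rel C prs) y) ⊆
            C.filter (Relation.EqvGen (Γ.Rel C ((x, y) :: prs)) x) := by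
          intro a ha
          rcases mem_union.1 ha with ha | ha
          · exact mem_filter.2 ⟨(mem_filter.1 ha).1, hm _ _ (mem_filter.1 ha).2⟩
          · exact mem_filter.2 ⟨(mem_filter.1 ha).1,
              .trans _ _ _ hxy (hm _ _ (mem_filter.1 ha).2)⟩
        have h3 := card_le_card hu
        rw [card_union_of_disjoint hd] at h3
        have := hc x hx
        have := hc y hy
        rw [pow_succ]
        omega
    exact Nat.findGreatest_is_greatest (Nat.lt_succ_self _) (qb _ q1) q1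
  refine ⟨prs, fun p hp' => ⟨(hp p hp').1, (hp p hp').2.1⟩, h2, fun x hx => ?_⟩
  rw [hl]
  refine (hc x hx).trans (card_le_card fun y hy => ?_)
  exact mem_filter.2 ⟨(mem_filter.1 hy).1, (h2 x hx y (mem_filter.1 hy).1).1 (mem_filter.1 hy).2⟩

end Pool.Agent.P.MP_f1a348_lc.GX
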