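import Pool.Agent.P.MP_f1a348_lc.GX.LibInc
import Pool.Agent.P.MP_f1a348_lc.GX.LibTm
import Pool.Agent.P.MP_f1a348_lc.GX.TCONN

/-! Graph isomorphism: the symmetry of cells of equal size and of full set systems. -/

set_option autoImplicit false
set_option linter.unusedSectionVars false

namespace Pool.Agent.P.MP_f1a348_lc.GX

open Pool.Agent.Lib.Helper47 Pool.Agent.P.MP_f1a348_lc.GI Pool.Agent.P.MP_f1a348_lc.TO

variable {Ω κ μ : Type} [DecidableEq Ω] [DecidableEq κ] [DecidableEq μ] [Enc κ]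

/-! ### cells -/

theorem ind_cells {A B : List Ω} {ba bb : Ω → κ} {ψ : κ → κ} {f : Ω → Ω} :
    Ind A B (fun u => [ba u]) (fun u => [bb u]) ψ f ↔ ∀ a ∈ A, f a ∈ B ∧ bb (f a) = ψ (ba a) := by
  simp [Ind]

/-- cells of the same colour have the same size -/
theorem sym_cells {A : List Ω} (hA : A.Nodup) {b : Ω → κ} {C : List κ} {c : κ → μ}
    (hC : ∀ v ∈ C, ∃ x ∈ A, b x = v)
    (h : ∀ x ∈ A, ∀ y ∈ A, c (b x) = c (b y) →
      (A.filter fun a => b a == b x).length = (A.filter fun a => b a == b y).length) :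
    Sym A (fun u => [b u]) C c := by
  intro v hv w hw e
  obtain ⟨x, hx, rfl⟩ := hC v hv
  obtain ⟨y, hy, rfl⟩ := hC w hw
  have key := keyMap_matchBy (A := A) (ka := fun a => Equiv.swap (b x) (b y) (b a)) (kb := b) hA
    (fun k => by
      have e1 : (A.filter fun a => Equiv.swap (b x) (b y) (b a) == k) =
          A.filter fun a => b a == Equiv.swap (b x) (b y) k := List.filter_congr fun a _ => by
        rw [Bool.eq_iff_iff, beq_iff_eq, beq_iff_eq, Equiv.swap_apply_eq_iff]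
      rw [e1, Equiv.swap_apply_def]
      split_ifs with h1 h2
      · rw [h1]; exact (h y hy x hx e).le
      · rw [h2]; exact (h x hx y hy e.symm).le
      · exact le_rfl)
  exact ⟨_, fun _ _ _ _ e => FP.app_injective _ e, ind_cells.2 key⟩

/-- an induced permutation keeps the colours and permutes the cells -/
theorem indGrp_cells {A : List Ω} {b : Ω → κ} {C : List κ} {c : κ → μ} (hb : ∀ x ∈ A, b x ∈ C)
    {π : FP Ω} (h : π ∈ indGrp A (fun u => [b u]) (keyGrp C c)) :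
    (∀ x ∈ A, π.app x ∈ A ∧ c (b (π.app x)) = c (b x)) ∧
      ∀ x ∈ A, ∀ y ∈ A, b (π.app x) = b (π.app y) ↔ b x = b y := by
  obtain ⟨-, ψ, h2, h3⟩ := h
  have h4 := ind_cells.1 h3
  exact ⟨fun x hx => ⟨(h4 x hx).1, by rw [(h4 x hx).2, h2.2 _ (hb x hx)]⟩, fun x hx y hy => by
    rw [(h4 x hx).2, (h4 y hy).2, (FP.app_injective ψ).eq_iff]⟩

/-- every bijection that keeps the colours and the cells is found -/
theorem incC_cells {A B : List Ω} {ba bb : Ω → κ} {C D : List κ} {c d : κ → μ} (hA : A.Nodup)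
    (hB : B.Nodup) (hC : C.Nodup) (hD : D.Nodup) (l1 : B.length ≤ A.length)
    (mC : ∀ v, v ∈ C ↔ ∃ x ∈ A, ba x = v) (mD : ∀ v, v ∈ D ↔ ∃ x ∈ B, bb x = v)
    (h : Sym A (fun u => [ba u]) C c) {f : Ω → Ω} (hf : ∀ a ∈ A, ∀ b ∈ A, f a = f b → a = b)
    (k1 : ∀ a ∈ A, f a ∈ B ∧ d (bb (f a)) = c (ba a))
    (k2 : ∀ x ∈ A, ∀ y ∈ A, bb (f x) = bb (f y) ↔ ba x = ba y) :
    ∃ π ∈ cs (some (incC A B (fun u => [ba u]) (fun u => [bb u]) C D c d)),
      ∀ a ∈ A, π • a = f a := by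
  classical
  let ψ : κ → κ := fun v => if e : ∃ x ∈ A, ba x = v then bb (f e.choose) else v
  have hψ : ∀ a ∈ A, ψ (ba a) = bb (f a) := fun a ha => by
    have e : ∃ x ∈ A, ba x = ba a := ⟨a, ha, rfl⟩
    simp only [ψ, dif_pos e]
    exact (k2 _ e.choose_spec.1 a ha).2 e.choose_spec.2
  refine incC_complete (ψ := ψ) hA hB hC hD l1 ?_ (fun a ha v hv => ?_) h (fun v hv w hw e => ?_)
    (fun v hv => ?_) hf (ind_cells.2 fun a ha => ⟨(k1 a ha).1, (hψ a ha).symm⟩)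
  · rw [← List.length_map (as := C) ψ]
    refine List.Subperm.length_le (List.subperm_of_subset hD fun v hv => ?_)
    obtain ⟨y, hy, rfl⟩ := (mD v).1 hv
    obtain ⟨x, hx, rfl⟩ := onto_of_le hA l1 hf (fun a ha => (k1 a ha).1) hy
    exact List.mem_map.2 ⟨_, (mC _).2 ⟨x, hx, rfl⟩, hψ x hx⟩
  · exact (mC v).2 ⟨a, ha, (List.mem_singleton.1 hv).symm⟩
  · obtain ⟨x, hx, rfl⟩ := (mC v).1 hv
    obtain ⟨y, hy, rfl⟩ := (mC w).1 hw
    rw [hψ x hx, hψ y hy] at e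
    exact (k2 x hx y hy).1 e
  · obtain ⟨x, hx, rfl⟩ := (mC v).1 hv
    rw [hψ x hx]
    exact ⟨(mD _).2 ⟨_, (k1 x hx).1, rfl⟩, (k1 x hx).2⟩

/-- the cells are the components on the class `A` and the classes elsewhere -/
theorem Sy.sym_blocks {Γ : Sy Ω} (hM : 3 ≤ Γ.M) {A : Finset Ω} (hA : Γ.Cls A)
    (prs : List (Ω × Ω)) {O : List Ω} (hO : O.Nodup) (hs : ∀ x ∈ A, x ∈ O) {b : Ω → κ}
    {C : List κ} {c : κ → μ} (hC : ∀ v ∈ C, ∃ x ∈ O, b x = v)
    (h1 : ∀ x ∈ O, ∀ y ∈ O, c (b x) = c (b y) → Γ.E1 x y)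
    (h2 : ∀ x ∈ A, ∀ y ∈ A, b x = b y ↔ Relation.EqvGen (Γ.Rel A prs) x y)
    (h3 : ∀ x ∈ O, ∀ y ∈ O, x ∉ A → Γ.E1 x y → b x = b y) : Sym O (fun u => [b u]) C c := by
  classical
  refine sym_cells hO hC fun x hx y hy e => ?_
  have e1 := h1 x hx y hy e
  by_cases hxA : x ∈ A
  · have hyA := hA.2.1.2 _ _ e1 hxA
    have key : ∀ z ∈ A, (O.filter fun a => b a == b z).length =
        (A.filter (Relation.EqvGen (Γ.Rel A prs) z)).card := fun z hz => by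
      rw [← List.toFinset_card_of_nodup (hO.filter _)]
      congr 1
      ext a
      simp only [List.mem_toFinset, List.mem_filter, beq_iff_eq, Finset.mem_filter]
      refine ⟨fun r => ?_, fun r => ⟨hs a r.1, ((h2 z hz a r.1).2 r.2).symm⟩⟩
      have ha : a ∈ A := hA.2.1.2 _ _ (h1 z (hs z hz) a r.1 (by rw [r.2])) hz
      exact ⟨ha, (h2 z hz a ha).1 r.2.symm⟩
    rw [key x hxA, key y hyA]
    convert Sy.blocks_eq hM hA prs hxA hyA
  · rw [h3 x hx y hy hxA e1]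

/-! ### set systems -/

theorem ind_iff_mem {A B : List Ω} {na nb : Ω → List κ} {ψ : κ → κ} {f : Ω → Ω} :
    Ind A B na nb ψ f ↔ ∀ a ∈ A, f a ∈ B ∧ ∀ w, w ∈ nb (f a) ↔ ∃ v ∈ na a, ψ v = w := by
  simp [Ind, Finset.ext_iff]

/-- the neighbourhoods are exactly the subsets of `C` with `e` points -/
theorem sym_subsets {A : List Ω} {n : Ω → List κ} {C : List κ} (c : κ → μ) {e : ℕ}
    (sub : ∀ a ∈ A, ∀ v ∈ n a, v ∈ C) (card : ∀ a ∈ A, (n a).toFinset.card = e)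
    (inj : ∀ a ∈ A, ∀ b ∈ A, (n a).toFinset = (n b).toFinset → a = b)
    (surj : ∀ T ⊆ C.toFinset, T.card = e → ∃ a ∈ A, (n a).toFinset = T) : Sym A n C c := by
  intro v hv w hw _
  have key : ∀ a ∈ A, ∃ b ∈ A, (n b).toFinset = (n a).toFinset.image (Equiv.swap v w) :=
    fun a ha => surj _ (fun y hy => by
      obtain ⟨x, hx, rfl⟩ := Finset.mem_image.1 hy
      have := sub a ha x (List.mem_toFinset.1 hx)
      rw [List.mem_toFinset, Equiv.swap_apply_def]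
      split_ifs <;> assumption)
      (by rw [Finset.card_image_of_injective _ (Equiv.injective _), card a ha])
  choose! f f1 f2 using key
  refine ⟨f, fun a ha b hb r => inj a ha b hb ?_, fun a ha => ⟨f1 a ha, f2 a ha⟩⟩
  exact Finset.image_injective (Equiv.swap v w).injective (by rw [← f2 a ha, r, f2 b hb])

open Classical in
/-- a Johnson scheme is symmetric -/
theorem Sy.John.sym [Enc Ω] {Γ : Sy Ω} {O C : List Ω} {z0 y0 : Ω} {e : ℕ}
    (h : Γ.John O.toFinset C.toFinset z0 y0 e) {n : Ω → List Ω} (c : Ω → μ)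
    (hn : ∀ x ∈ O, ∀ y, y ∈ n x ↔ y ∈ C ∧ Γ.E2 z0 y0 x y) : Sym O n C c := by
  have e1 : ∀ x ∈ O, (n x).toFinset = C.toFinset.filter (Γ.E2 z0 y0 x) := fun x hx => by
    ext y
    simp [hn x hx]
  refine sym_subsets c (e := e) (fun a ha v hv => ((hn a ha v).1 hv).1) (fun a ha => ?_)
    (fun a ha b hb r => ?_) (fun T h1 h2 => ?_)
  · rw [e1 a ha]
    convert h.card a (List.mem_toFinset.2 ha)
  · rw [e1 a ha, e1 b hb] at r
    exact h.inj a (List.mem_toFinset.2 ha) b (List.mem_toFinset.2 hb) (by convert r)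
  · obtain ⟨z, h3, h4⟩ := h.surj T h1 h2
    exact ⟨z, List.mem_toFinset.1 h3, by rw [e1 z (List.mem_toFinset.1 h3)]; convert h4⟩

/-- maps that keep an incidence are induced -/
theorem ind_of_rel {A B : List Ω} {na nb : Ω → List κ} {C D : List κ} {ψ : κ → κ} {f : Ω → Ω}
    (hψ : ∀ w ∈ D, ∃ v ∈ C, ψ v = w) (h1 : ∀ a ∈ A, ∀ v ∈ na a, v ∈ C)
    (h2 : ∀ a ∈ B, ∀ v ∈ nb a, v ∈ D) (hf : ∀ a ∈ A, f a ∈ B)
    (h : ∀ a ∈ A, ∀ v ∈ C, v ∈ na a ↔ ψ v ∈ nb (f a)) : Ind A B na nb ψ f :=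
  ind_iff_mem.2 fun a ha => ⟨hf a ha, fun w => ⟨fun r => by
    obtain ⟨v, hv, rfl⟩ := hψ w (h2 _ (hf a ha) w r)
    exact ⟨v, (h a ha v hv).2 r, rfl⟩, by
    rintro ⟨v, hv, rfl⟩
    exact (h a ha v (h1 a ha v hv)).1 hv⟩⟩

/-- an induced permutation permutes the stars of the points of `C` -/
theorem indGrp_star {A : List Ω} {n : Ω → List κ} {C : List κ} {c : κ → μ} {π : FP Ω}
    (h : π ∈ indGrp A n (keyGrp C c)) {y : κ} (hy : y ∈ C) : ∃ y' ∈ C, c y' = c y ∧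
      ∀ x', (x' ∈ A ∧ y' ∈ n x') ↔ ∃ x, (x ∈ A ∧ y ∈ n x) ∧ π.app x = x' := by
  obtain ⟨h1, ψ, h2, h3⟩ := h
  have h4 : ∀ x ∈ A, ψ.app y ∈ n (π.app x) ↔ y ∈ n x := fun x hx => by
    rw [(ind_iff_mem.1 h3 x hx).2]
    exact ⟨fun ⟨v, a, b⟩ => FP.app_injective ψ b ▸ a, fun a => ⟨y, a, rfl⟩⟩
  refine ⟨ψ.app y, (h2.1 y).2 hy, h2.2 y hy, fun x' => ⟨fun r => ?_, ?_⟩⟩
  · have h5 : π⁻¹.app x' ∈ A := by rw [← h1, FP.app_app_inv]; exact r.1
    exact ⟨_, ⟨h5, (h4 _ h5).1 (by rw [FP.app_app_inv]; exact r.2)⟩, FP.app_app_inv _ _⟩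
  · rintro ⟨x, r, rfl⟩
    exact ⟨(h1 x).2 r.1, (h4 x r.1).2 r.2⟩

/-! ### sets as points -/

theorem Tm.smul_st_eq {g : FP ℕ} {l l' : List Tm} :
    g • Tm.st l = Tm.st l' ↔ ∀ y, y ∈ l' ↔ ∃ x ∈ l, g • x = y := by
  rw [Tm.smul_st, Tm.st_eq_iff]
  simp only [List.mem_map]
  exact forall_congr' fun _ => Iff.comm

theorem Tm.mem_of_smul_st {g : FP ℕ} {l l' : List Tm} (h : g • Tm.st l = Tm.st l') (x : Tm) :
    x ∈ l ↔ g • x ∈ l' := by
  rw [Tm.smul_st_eq.1 h]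
  exact ⟨fun r => ⟨x, r, rfl⟩, fun ⟨_, a, b⟩ => MulAction.injective g b ▸ a⟩

/-- an element that acts on `O` like an induced permutation permutes the stars -/
theorem smul_star {O : List Tm} {n : Tm → List κ} {C : List κ} {c : κ → μ} {π : FP Tm}
    (h : π ∈ indGrp O n (keyGrp C c)) {g : FP ℕ} (e : ∀ x ∈ O, g • x = π • x) {y : κ}
    (hy : y ∈ C) : ∃ y' ∈ C, c y' = c y ∧ g • Tm.st (O.filter fun x => (n x).contains y) =
      Tm.st (O.filter fun x => (n x).contains y') := by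
  obtain ⟨y', h1, h2, h3⟩ := indGrp_star h hy
  refine ⟨y', h1, h2, Tm.smul_st_eq.2 fun x' => ?_⟩
  simp only [List.mem_filter, List.contains_iff_mem, h3]
  exact exists_congr fun x => and_congr_right fun r => by rw [e x r.1]; rfl

/-- an element that acts on `O` like an induced permutation maps cells onto cells -/
theorem smul_cell {O : List Tm} {b : Tm → κ} {C : List κ} {c : κ → μ} (hb : ∀ x ∈ O, b x ∈ C)
    {π : FP Tm} (h : π ∈ indGrp O (fun u => [b u]) (keyGrp C c)) {g : FP ℕ}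
    (e : ∀ x ∈ O, g • x = π • x) {x : Tm} (hx : x ∈ O) :
    g • Tm.st (O.filter fun a => b a == b x) = Tm.st (O.filter fun a => b a == b (g • x)) := by
  obtain ⟨h1, h2⟩ := indGrp_cells hb h
  refine Tm.smul_st_eq.2 fun y => ?_
  simp only [List.mem_filter, beq_iff_eq]
  rw [e x hx]
  constructor
  · rintro ⟨a1, a2⟩
    have h5 : π⁻¹.app y ∈ O := by rw [← h.1, FP.app_app_inv]; exact a1
    refine ⟨_, ⟨h5, (h2 _ h5 x hx).1 (by rw [FP.app_app_inv]; exact a2)⟩, ?_⟩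
    rw [e _ h5]; exact FP.app_app_inv _ _
  · rintro ⟨z, ⟨a1, a2⟩, rfl⟩
    rw [e z a1]
    exact ⟨(h1 z a1).1, (h2 z a1 x hx).2 a2⟩

end Pool.Agent.P.MP_f1a348_lc.GX
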