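import Pool.Agent.P.MP_f1a348_lc.TO.EGrp

/-! Graph isomorphism: the groupoid generated by a list of arrows. -/

set_option autoImplicit false
set_option linter.unusedSectionVars false

namespace Pool.Agent.P.MP_f1a348_lc.GX

open Pool.Agent.Lib.Helper47 Pool.Agent.P.MP_f1a348_lc.GI Pool.Agent.P.MP_f1a348_lc.TO

variable {O G Ω₀ : Type} [DecidableEq O] [Group G] [DecidableEq G] [MulAction G Ω₀]
  [DecidableEq Ω₀]

/-- for each object: its root, an arrow to the root, generators of the group at the root -/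
abbrev Gpd (O G : Type) : Type := List (O × O × G × List G)

/-- the entry of an object -/
def gLook (T : Gpd O G) (c : O) : Option (O × G × List G) :=
  (T.find? (fun x => x.1 == c)).map Prod.snd

/-- the root of an object -/
def gRoot (T : Gpd O G) (c : O) : Option O := (gLook T c).map Prod.fst

/-- the new entry after the classes of `x` and `y` are joined by the arrow `κ` -/
def gNew (x y : O) (κ : G) (V : List G) (z : O × G × List G) : O × G × List G :=
  bif z.1 == y then (x, κ * z.2.1, V) else bif z.1 == x then (x, z.2.1, V) else z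

/-- the generators of the new group -/
def gGens (sp : List Unit) (base : List Ω₀) (x y : O × G × List G) (κ : G) : List G :=
  sims sp base (x.2.2 ++ (y.2.2.map (fun v => κ * v * κ⁻¹) ++ bif x.1 == y.1 then [κ] else []))

/-- add an arrow -/
def gAdd (sp : List Unit) (base : List Ω₀) (T : Gpd O G) (e : O × O × G) : Gpd O G :=
  (gLook T e.1).elim T (fun x => (gLook T e.2.1).elim T (fun y =>
    T.map (fun z => (z.1, gNew x.1 y.1 (x.2.1 * e.2.2⁻¹ * y.2.1⁻¹)
      (gGens sp base x y (x.2.1 * e.2.2⁻¹ * y.2.1⁻¹)) z.2))))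

/-- the table of the groupoid on the objects `l` generated by the arrows `E` -/
def gGen (sp : List Unit) (base : List Ω₀) (l : List O) (E : List (O × O × G)) : Gpd O G :=
  E.foldl (gAdd sp base) (l.map (fun c => (c, c, 1, [])))

/-- the arrows from `a` to `b` -/
def gHom (T : Gpd O G) (a b : O) : Option (G × List G) :=
  (gLook T a).bind (fun x => (gLook T b).bind (fun y => bif x.1 == y.1 then
    some (y.2.1⁻¹ * x.2.1, x.2.2.map (fun v => x.2.1⁻¹ * v * x.2.1)) else none))

/-- arrows that generate a coset of arrows from `a` to `b` -/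
def cosArr (a b : O) (c : G × List G) : List (O × O × G) := (a, b, c.1) :: c.2.map (fun s => (a, a, s))

/-- the groupoid generated by `E` -/
inductive Arr (l : List O) (E : List (O × O × G)) : O → O → G → Prop
  | refl {c : O} : c ∈ l → Arr l E c c 1
  | gen {a b : O} {g : G} : (a, b, g) ∈ E → a ∈ l → b ∈ l → Arr l E a b g
  | inv {a b : O} {g : G} : Arr l E a b g → Arr l E b a g⁻¹
  | comp {a b c : O} {g h : G} : Arr l E a b g → Arr l E b c h → Arr l E a c (h * g)

namespace Arr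
variable {l : List O} {E E' : List (O × O × G)} {a b : O} {g : G}

theorem mem (h : Arr l E a b g) : a ∈ l ∧ b ∈ l := by
  induction h with
  | refl h => exact ⟨h, h⟩
  | gen _ h1 h2 => exact ⟨h1, h2⟩
  | inv _ ih => exact ih.symm
  | comp _ _ i1 i2 => exact ⟨i1.1, i2.2⟩

theorem mono (h : Arr l E a b g) (e : ∀ x ∈ E, x ∈ E') : Arr l E' a b g := by
  induction h with
  | refl h => exact .refl h
  | gen h h1 h2 => exact .gen (e _ h) h1 h2
  | inv _ ih => exact ih.inv
  | comp _ _ i1 i2 => exact i1.comp i2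

theorem of_eq {g' : G} (h : Arr l E a b g) (e : g = g') : Arr l E a b g' := e ▸ h

theorem loop (ha : a ∈ l) {V : List G} (h : ∀ v ∈ V, Arr l E a a v) (hg : g ∈ GI.gen V) :
    Arr l E a a g := by
  induction hg using Subgroup.closure_induction with
  | mem x hx => exact h x hx
  | one => exact .refl ha
  | mul x y _ _ i1 i2 => exact i2.comp i1
  | inv x _ ih => exact ih.inv

/-- the elements of a coset of arrows are arrows -/
theorem of_cos {c : G × List G} (h : ∀ x ∈ cosArr a b c, x ∈ E) (ha : a ∈ l) (hb : b ∈ l)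
    (hg : g ∈ cs (some c)) : Arr l E a b g := by
  have h1 : Arr l E a a (c.1⁻¹ * g) := loop ha (fun v hv => .gen (h _
    (List.mem_cons_of_mem _ (List.mem_map_of_mem hv))) ha ha) (mem_cs.1 hg)
  exact (h1.comp (.gen (h _ List.mem_cons_self) ha hb)).of_eq (by simp)

theorem mem_subgroup {W : Subgroup G} (h : Arr l E a b g) (e : ∀ x ∈ E, x.2.2 ∈ W) : g ∈ W := by
  induction h with
  | refl _ => exact one_mem _
  | gen h _ _ => exact e _ h
  | inv _ ih => exact inv_mem ih
  | comp _ _ i1 i2 => exact mul_mem i2 i1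
end Arr

theorem mem_cosArr {a b : O} {c : G × List G} {x : O × O × G} (h : x ∈ cosArr a b c) :
    x = (a, b, c.1) ∨ ∃ s ∈ c.2, x = (a, a, s) := by
  rcases List.mem_cons.1 h with h | h
  · exact Or.inl h
  · obtain ⟨s, hs, rfl⟩ := List.mem_map.1 h
    exact Or.inr ⟨s, hs, rfl⟩

theorem gLook_map (T : Gpd O G) (f : O × G × List G → O × G × List G) (c : O) :
    gLook (T.map (fun z => (z.1, f z.2))) c = (gLook T c).map f := by
  unfold gLook
  rw [List.find?_map, Option.map_map, Option.map_map]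
  rfl

theorem gLook_init (l : List O) (c : O) : gLook (l.map (fun c => (c, c, (1 : G), []))) c =
    if c ∈ l then some (c, 1, []) else none := by
  induction l with
  | nil => rfl
  | cons a l ih =>
    by_cases e : a = c
    · simp [gLook, e]
    · have e' : ¬ c = a := fun h => e h.symm
      simp only [gLook, List.map_cons, List.mem_cons, e', false_or] at ih ⊢
      rw [List.find?_cons_of_neg (by simpa using e), ih]

/-- the invariant of the table -/
structure GInv (W : Subgroup G) (l : List O) (E : List (O × O × G)) (T : Gpd O G) : Prop where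
  key : ∀ c ∈ l, ∃ x, gLook T c = some x
  con : ∀ a b x y, gLook T a = some x → gLook T b = some y → x.1 = y.1 → x.2.2 = y.2.2
  snd : ∀ a x, gLook T a = some x → Arr l E a x.1 x.2.1 ∧ ∀ v ∈ x.2.2, Arr l E x.1 x.1 v
  cmp : ∀ a b g x y, (a, b, g) ∈ E → gLook T a = some x → gLook T b = some y →
    x.1 = y.1 ∧ y.2.1 * g * x.2.1⁻¹ ∈ gen x.2.2

variable {sp : List Unit} {base : List Ω₀} {W : Subgroup G} {l : List O}
  {E : List (O × O × G)} {T : Gpd O G}

theorem GInv.add (hf : Faith sp base W) (h : GInv W l E T) {e : O × O × G}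
    (hW : ∀ x ∈ E ++ [e], x.2.2 ∈ W) : GInv W l (E ++ [e]) (gAdd sp base T e) := by
  have sub : ∀ x ∈ E, x ∈ E ++ [e] := fun x hx => by simp [hx]
  have old : (gLook T e.1 = none ∨ gLook T e.2.1 = none) → GInv W l (E ++ [e]) T := fun hn =>
    ⟨h.key, h.con, fun a x hx => ⟨(h.snd a x hx).1.mono sub,
      fun v hv => ((h.snd a x hx).2 v hv).mono sub⟩, fun a b g x y h1 h2 h3 => by
        rcases List.mem_append.1 h1 with h1 | h1
        · exact h.cmp a b g x y h1 h2 h3
        · rw [← List.mem_singleton.1 h1] at hn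
          simp [h2, h3] at hn⟩
  unfold gAdd
  cases ex : gLook T e.1 with
  | none => exact old (Or.inl ex)
  | some x =>
  cases ey : gLook T e.2.1 with
  | none => exact old (Or.inr ey)
  | some y =>
  simp only [Option.elim_some]
  generalize hκ : x.2.1 * e.2.2⁻¹ * y.2.1⁻¹ = κ
  obtain ⟨x1, x2⟩ := h.snd _ _ ex
  obtain ⟨y1, y2⟩ := h.snd _ _ ey
  have he : Arr l (E ++ [e]) e.1 e.2.1 e.2.2 := .gen (by simp) x1.mem.1 y1.mem.1
  have k1 : Arr l (E ++ [e]) y.1 x.1 κ :=
    (((y1.mono sub).inv.comp he.inv).comp (x1.mono sub)).of_eq (by rw [← hκ, mul_assoc])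
  have loops : ∀ v ∈ x.2.2 ++ (y.2.2.map (fun v => κ * v * κ⁻¹) ++
      bif x.1 == y.1 then [κ] else []), Arr l (E ++ [e]) x.1 x.1 v := by
    intro v hv
    rcases List.mem_append.1 hv with hv | hv
    · exact (x2 v hv).mono sub
    rcases List.mem_append.1 hv with hv | hv
    · obtain ⟨u, hu, rfl⟩ := List.mem_map.1 hv
      exact ((k1.inv.comp ((y2 u hu).mono sub)).comp k1).of_eq (by rw [mul_assoc])
    · by_cases e1 : x.1 = y.1
      · simp only [e1, beq_self_eq_true, cond_true, List.mem_singleton] at hv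
        rw [hv]
        exact e1 ▸ (e1 ▸ k1 : Arr l (E ++ [e]) y.1 y.1 κ)
      · simp [beq_false_of_ne e1] at hv
  have gV : gen (gGens sp base x y κ) = gen (x.2.2 ++ (y.2.2.map (fun v => κ * v * κ⁻¹) ++
      bif x.1 == y.1 then [κ] else [])) :=
    hf.gen_sims (gen_le.2 fun v hv => (loops v hv).mem_subgroup hW)
  have g1 : gen x.2.2 ≤ gen (gGens sp base x y κ) := gV ▸ gen_mono fun v hv => by simp [hv]
  have g2 : ∀ v ∈ gen y.2.2, κ * v * κ⁻¹ ∈ gen (gGens sp base x y κ) := by
    intro v hv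
    have : gen y.2.2 ≤ (gen (gGens sp base x y κ)).comap (MulAut.conj κ).toMonoidHom :=
      gen_le.2 fun u hu => by
        change κ * u * κ⁻¹ ∈ gen (gGens sp base x y κ)
        rw [gV]
        exact mem_gen (by simp only [List.mem_append, List.mem_map]; exact Or.inr (Or.inl ⟨u, hu, rfl⟩))
    exact this hv
  have g3 : x.1 = y.1 → κ ∈ gen (gGens sp base x y κ) := fun e1 => gV ▸ mem_gen (by simp [e1])
  have gA : ∀ v ∈ gGens sp base x y κ, Arr l (E ++ [e]) x.1 x.1 v := fun v hv =>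
    Arr.loop x1.mem.2 loops (gV ▸ mem_gen hv)
  generalize gGens sp base x y κ = V at g1 g2 g3 gA
  have c1 : ∀ z : O × G × List G, z.1 = y.1 → gNew x.1 y.1 κ V z = (x.1, κ * z.2.1, V) :=
    fun z hz => by simp [gNew, hz]
  have c2 : ∀ z : O × G × List G, z.1 ≠ y.1 → z.1 = x.1 → gNew x.1 y.1 κ V z = (x.1, z.2.1, V) :=
    fun z h1 h2 => by rw [gNew, beq_false_of_ne h1]; simp [h2]
  have c3 : ∀ z : O × G × List G, z.1 ≠ y.1 → z.1 ≠ x.1 → gNew x.1 y.1 κ V z = z :=
    fun z h1 h2 => by rw [gNew, beq_false_of_ne h1, beq_false_of_ne h2]; rfl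
  refine ⟨fun c hc => ?_, fun a b p q hp hq e1 => ?_, fun a p hp => ?_,
    fun a b g p q h1 hp hq => ?_⟩
  · obtain ⟨z, hz⟩ := h.key c hc
    exact ⟨_, by rw [gLook_map, hz]; rfl⟩
  · rw [gLook_map, Option.map_eq_some_iff] at hp hq
    obtain ⟨p, hp, rfl⟩ := hp
    obtain ⟨q, hq, rfl⟩ := hq
    by_cases p1 : p.1 = y.1 <;> by_cases p2 : p.1 = x.1 <;> by_cases q1 : q.1 = y.1 <;>
      by_cases q2 : q.1 = x.1 <;>
      first
        | (simp only [c1 _ p1, c1 _ q1]; done)
        | (simp only [c1 _ p1, c2 _ q1 q2]; done)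
        | (simp only [c2 _ p1 p2, c1 _ q1]; done)
        | (simp only [c2 _ p1 p2, c2 _ q1 q2]; done)
        | (rw [c1 _ p1, c3 _ q1 q2] at e1; exact absurd e1.symm q2)
        | (rw [c2 _ p1 p2, c3 _ q1 q2] at e1; exact absurd e1.symm q2)
        | (rw [c3 _ p1 p2, c1 _ q1] at e1; exact absurd e1 p2)
        | (rw [c3 _ p1 p2, c2 _ q1 q2] at e1; exact absurd e1 p2)
        | (rw [c3 _ p1 p2, c3 _ q1 q2] at e1 ⊢; exact h.con a b p q hp hq e1)
  · rw [gLook_map, Option.map_eq_some_iff] at hp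
    obtain ⟨p, hp, rfl⟩ := hp
    obtain ⟨p3, p4⟩ := h.snd a p hp
    by_cases p1 : p.1 = y.1
    · rw [c1 _ p1]
      exact ⟨(p3.mono sub).comp (p1 ▸ k1), gA⟩
    by_cases p2 : p.1 = x.1
    · rw [c2 _ p1 p2]
      exact ⟨p2 ▸ p3.mono sub, gA⟩
    · rw [c3 _ p1 p2]
      exact ⟨p3.mono sub, fun v hv => (p4 v hv).mono sub⟩
  · rw [gLook_map, Option.map_eq_some_iff] at hp hq
    obtain ⟨p, hp, rfl⟩ := hp
    obtain ⟨q, hq, rfl⟩ := hq
    rcases List.mem_append.1 h1 with h1 | h1
    · obtain ⟨e1, e2⟩ := h.cmp a b g p q h1 hp hq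
      by_cases p1 : p.1 = y.1
      · rw [c1 _ p1, c1 _ (e1 ▸ p1)]
        refine ⟨rfl, ?_⟩
        have := g2 _ (h.con _ _ _ _ hp ey p1 ▸ e2)
        simpa [mul_assoc] using this
      by_cases p2 : p.1 = x.1
      · rw [c2 _ p1 p2, c2 _ (e1 ▸ p1) (e1 ▸ p2)]
        exact ⟨rfl, g1 (h.con _ _ _ _ hp ex p2 ▸ e2)⟩
      · rw [c3 _ p1 p2, c3 _ (e1 ▸ p1) (e1 ▸ p2)]
        exact ⟨e1, e2⟩
    · obtain rfl := List.mem_singleton.1 h1
      obtain rfl : x = p := Option.some.inj (ex.symm.trans hp)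
      obtain rfl : y = q := Option.some.inj (ey.symm.trans hq)
      rw [c1 y rfl]
      by_cases p1 : x.1 = y.1
      · rw [c1 _ p1]
        refine ⟨rfl, ?_⟩
        have := inv_mem (g3 p1)
        convert this using 1
        simp only [← hκ]
        group
      · rw [c2 _ p1 rfl]
        refine ⟨rfl, ?_⟩
        convert one_mem (gen V) using 1
        simp only [← hκ]
        group

theorem gInv_gen (hf : Faith sp base W) (hW : ∀ x ∈ E, x.2.2 ∈ W) :
    GInv W l E (gGen sp base l E) := by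
  induction E using List.reverseRecOn with
  | nil =>
    refine ⟨fun c hc => ⟨_, by rw [gGen, List.foldl_nil, gLook_init, if_pos hc]⟩,
      fun a b x y h1 h2 _ => ?_, fun a x h1 => ?_, fun _ _ _ _ _ h => by simp at h⟩
    · rw [gGen, List.foldl_nil, gLook_init] at h1 h2
      split_ifs at h1 h2
      rw [← Option.some.inj h1, ← Option.some.inj h2]
    · rw [gGen, List.foldl_nil, gLook_init] at h1
      split_ifs at h1 with ha
      rw [← Option.some.inj h1]
      exact ⟨.refl ha, by simp⟩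
  | append_singleton E e ih =>
    rw [gGen, List.foldl_append]
    exact (ih fun x hx => hW x (by simp [hx])).add hf hW

theorem GInv.arr (h : GInv W l E T) {a b : O} {g : G} (e : Arr l E a b g) :
    ∃ x y, gLook T a = some x ∧ gLook T b = some y ∧ x.1 = y.1 ∧
      y.2.1 * g * x.2.1⁻¹ ∈ gen x.2.2 := by
  induction e with
  | refl hc =>
    obtain ⟨x, hx⟩ := h.key _ hc
    exact ⟨x, x, hx, hx, rfl, by simp⟩
  | gen h0 h1 h2 =>
    obtain ⟨x, hx⟩ := h.key _ h1
    obtain ⟨y, hy⟩ := h.key _ h2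
    exact ⟨x, y, hx, hy, h.cmp _ _ _ _ _ h0 hx hy⟩
  | inv _ ih =>
    obtain ⟨x, y, h1, h2, h3, h4⟩ := ih
    refine ⟨y, x, h2, h1, h3.symm, ?_⟩
    rw [← h.con _ _ _ _ h1 h2 h3]
    simpa [mul_assoc] using inv_mem h4
  | comp _ _ i1 i2 =>
    obtain ⟨x, y, h1, h2, h3, h4⟩ := i1
    obtain ⟨y', z, k1, k2, k3, k4⟩ := i2
    obtain rfl : y = y' := Option.some.inj (h2.symm.trans k1)
    refine ⟨x, z, h1, k2, h3.trans k3, ?_⟩
    rw [← h.con _ _ _ _ h1 h2 h3] at k4
    simpa [mul_assoc] using mul_mem k4 h4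

theorem mem_gen_conj {V : List G} {ρ g : G} :
    g ∈ gen (V.map (fun v => ρ⁻¹ * v * ρ)) ↔ ρ * g * ρ⁻¹ ∈ gen V := by
  constructor
  · intro h
    have : gen (V.map (fun v => ρ⁻¹ * v * ρ)) ≤ (gen V).comap (MulAut.conj ρ).toMonoidHom :=
      gen_le.2 fun u hu => by
        obtain ⟨v, hv, rfl⟩ := List.mem_map.1 hu
        change ρ * (ρ⁻¹ * v * ρ) * ρ⁻¹ ∈ gen V
        simpa [mul_assoc] using mem_gen hv
    exact this h
  · intro h
    have : gen V ≤ (gen (V.map (fun v => ρ⁻¹ * v * ρ))).comap (MulAut.conj ρ⁻¹).toMonoidHom :=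
      gen_le.2 fun u hu => by
        change ρ⁻¹ * u * ρ⁻¹⁻¹ ∈ gen (V.map (fun v => ρ⁻¹ * v * ρ))
        rw [inv_inv]
        exact mem_gen (List.mem_map_of_mem hu)
    have h2 : ρ⁻¹ * (ρ * g * ρ⁻¹) * ρ⁻¹⁻¹ ∈ gen (V.map (fun v => ρ⁻¹ * v * ρ)) :=
      @this (ρ * g * ρ⁻¹) h
    simpa [mul_assoc] using h2

/-- the table describes the generated groupoid -/
theorem mem_gHom (hf : Faith sp base W) (hW : ∀ x ∈ E, x.2.2 ∈ W) {a b : O} {g : G} :
    g ∈ cs (gHom (gGen sp base l E) a b) ↔ Arr l E a b g := by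
  have h := gInv_gen (l := l) hf hW
  constructor
  · rintro ⟨p, hp, hg⟩
    obtain ⟨x, hx, hp⟩ := Option.bind_eq_some_iff.1 hp
    obtain ⟨y, hy, hp⟩ := Option.bind_eq_some_iff.1 hp
    by_cases e : x.1 = y.1
    · simp only [e, beq_self_eq_true, cond_true, Option.some.injEq] at hp
      subst hp
      obtain ⟨x1, x2⟩ := h.snd _ _ hx
      obtain ⟨y1, _⟩ := h.snd _ _ hy
      have h1 := Arr.loop x1.mem.2 x2 (mem_gen_conj.1 hg)
      exact ((x1.comp h1).comp (e ▸ y1.inv)).of_eq (by group)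
    · simp [beq_false_of_ne e] at hp
  · intro e
    obtain ⟨x, y, h1, h2, h3, h4⟩ := h.arr e
    refine ⟨(y.2.1⁻¹ * x.2.1, x.2.2.map (fun v => x.2.1⁻¹ * v * x.2.1)), by
      simp [gHom, h1, h2, h3], mem_gen_conj.2 ?_⟩
    simpa [mul_assoc] using h4

/-- the roots name the components -/
theorem gRoot_eq (hf : Faith sp base W) (hW : ∀ x ∈ E, x.2.2 ∈ W) {a b : O} (ha : a ∈ l) :
    gRoot (gGen sp base l E) a = gRoot (gGen sp base l E) b ↔ ∃ g, Arr l E a b g := by
  have h := gInv_gen (l := l) hf hW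
  constructor
  · intro e
    obtain ⟨x, hx⟩ := h.key a ha
    rw [gRoot, gRoot, hx, Option.map_some, eq_comm, Option.map_eq_some_iff] at e
    obtain ⟨y, hy, e⟩ := e
    exact ⟨_, (h.snd _ _ hx).1.comp (e ▸ (h.snd _ _ hy).1.inv)⟩
  · rintro ⟨g, e⟩
    obtain ⟨x, y, h1, h2, h3, _⟩ := h.arr e
    simp [gRoot, h1, h2, h3]

/-- without any hypothesis: the entries stay inside -/
theorem gGen_inv (hW : ∀ x ∈ E, x.2.2 ∈ W) : (gGen sp base l E).length = l.length ∧
    ∀ z ∈ gGen sp base l E, z.1 ∈ l ∧ z.2.1 ∈ l ∧ z.2.2.1 ∈ W ∧ gen z.2.2.2 ≤ W ∧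
      z.2.2.2.length ≤ sp.length := by
  induction E using List.reverseRecOn with
  | nil =>
    refine ⟨by simp [gGen], fun z hz => ?_⟩
    obtain ⟨c, hc, rfl⟩ := List.mem_map.1 hz
    exact ⟨hc, hc, one_mem _, by simp [gen_nil], Nat.zero_le _⟩
  | append_singleton E e ih =>
    obtain ⟨i1, i2⟩ := ih fun x hx => hW x (by simp [hx])
    rw [gGen, List.foldl_append]
    change (gAdd sp base (gGen sp base l E) e).length = _ ∧ ∀ z ∈ gAdd sp base (gGen sp base l E) e, _
    generalize gGen sp base l E = T at i1 i2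
    have lk : ∀ c x, gLook T c = some x → x.1 ∈ l ∧ x.2.1 ∈ W ∧ gen x.2.2 ≤ W := by
      intro c x hx
      obtain ⟨z, hz, rfl⟩ := Option.map_eq_some_iff.1 hx
      have := i2 z (List.mem_of_find?_eq_some hz)
      exact ⟨this.2.1, this.2.2.1, this.2.2.2.1⟩
    unfold gAdd
    cases ex : gLook T e.1 with
    | none => exact ⟨i1, i2⟩
    | some x =>
    cases ey : gLook T e.2.1 with
    | none => exact ⟨i1, i2⟩
    | some y =>
    simp only [Option.elim_some]
    obtain ⟨x1, x2, x3⟩ := lk _ _ ex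
    obtain ⟨_, y2, y3⟩ := lk _ _ ey
    have k1 : x.2.1 * e.2.2⁻¹ * y.2.1⁻¹ ∈ W :=
      mul_mem (mul_mem x2 (inv_mem (hW e (by simp)))) (inv_mem y2)
    generalize x.2.1 * e.2.2⁻¹ * y.2.1⁻¹ = κ at k1
    have k2 : gen (gGens sp base x y κ) ≤ W := gen_le.2 fun v hv => by
      refine (gen_le.2 fun u hu => ?_ : gen _ ≤ W) (sims_mem hv)
      rcases List.mem_append.1 hu with hu | hu
      · exact x3 (mem_gen hu)
      rcases List.mem_append.1 hu with hu | hu
      · obtain ⟨w, hw, rfl⟩ := List.mem_map.1 hu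
        exact mul_mem (mul_mem k1 (y3 (mem_gen hw))) (inv_mem k1)
      · revert hu
        cases (x.1 == y.1)
        · simp
        · simp only [cond_true, List.mem_singleton]
          rintro rfl; exact k1
    have k3 : (gGens sp base x y κ).length ≤ sp.length := sims_length _ _ _
    refine ⟨by simpa using i1, fun z hz => ?_⟩
    obtain ⟨z, hz', rfl⟩ := List.mem_map.1 hz
    obtain ⟨z1, z2, z3, z4, z5⟩ := i2 z hz'
    refine ⟨z1, ?_⟩
    unfold gNew
    cases (z.2.1 == y.1)
    · cases (z.2.1 == x.1)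
      · exact ⟨z2, z3, z4, z5⟩
      · exact ⟨x1, z3, k2, k3⟩
    · exact ⟨x1, mul_mem k1 z3, k2, k3⟩

theorem gHom_inv (hW : ∀ x ∈ E, x.2.2 ∈ W) {a b : O} {c : G × List G}
    (h : gHom (gGen sp base l E) a b = some c) :
    c.1 ∈ W ∧ gen c.2 ≤ W ∧ c.2.length ≤ sp.length := by
  have i2 := (gGen_inv (sp := sp) (base := base) (l := l) hW).2
  obtain ⟨x, hx, h⟩ := Option.bind_eq_some_iff.1 h
  obtain ⟨y, hy, h⟩ := Option.bind_eq_some_iff.1 h
  obtain ⟨z, hz, rfl⟩ := Option.map_eq_some_iff.1 hx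
  obtain ⟨z', hz', rfl⟩ := Option.map_eq_some_iff.1 hy
  obtain ⟨_, _, a1, a2, a3⟩ := i2 z (List.mem_of_find?_eq_some hz)
  obtain ⟨_, _, b1, _, _⟩ := i2 z' (List.mem_of_find?_eq_some hz')
  revert h
  cases (z.2.1 == z'.2.1)
  · simp
  · simp only [cond_true, Option.some.injEq]
    rintro rfl
    refine ⟨mul_mem (inv_mem b1) a1, gen_le.2 fun u hu => ?_, by simpa using a3⟩
    obtain ⟨v, hv, rfl⟩ := List.mem_map.1 hu
    exact mul_mem (mul_mem (inv_mem a1) (a2 (mem_gen hv))) a1

section pt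
variable [Enc O] [Enc G] [Enc Ω₀] [PG G] [PA G Ω₀] {α : Type} [Enc α]

@[fun_prop] theorem pt_gLook {T : α → Gpd O G} {c : α → O} (h1 : PT T) (h2 : PT c) :
    PT (fun a => gLook (T a) (c a)) := by unfold gLook; fun_prop

@[fun_prop] theorem pt_gRoot {T : α → Gpd O G} {c : α → O} (h1 : PT T) (h2 : PT c) :
    PT (fun a => gRoot (T a) (c a)) := by unfold gRoot; fun_prop

@[fun_prop] theorem pt_gHom {T : α → Gpd O G} {c d : α → O} (h1 : PT T) (h2 : PT c) (h3 : PT d) :
    PT (fun a => gHom (T a) (c a) (d a)) := by unfold gHom; fun_prop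

@[fun_prop] theorem pt_cosArr {x y : α → O} {c : α → G × List G} (h1 : PT x) (h2 : PT y)
    (h3 : PT c) : PT (fun a => cosArr (x a) (y a) (c a)) := by unfold cosArr; fun_prop

@[fun_prop] theorem pt_gAdd {sp : α → List Unit} {base : α → List Ω₀} {T : α → Gpd O G}
    {e : α → O × O × G} (h1 : PT sp) (h2 : PT base) (h3 : PT T) (h4 : PT e) :
    PT (fun a => gAdd (sp a) (base a) (T a) (e a)) := by unfold gAdd gNew gGens; fun_prop

@[fun_prop] theorem pt_gGen {sp : α → List Unit} {base : α → List Ω₀} {l : α → List O}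
    {E : α → List (O × O × G)} (h1 : PT sp) (h2 : PT base) (h3 : PT l) (h4 : PT E) :
    PT (fun a => gGen (sp a) (base a) (l a) (E a)) := by
  obtain ⟨B, hB, h⟩ := gen_bound (l := fun a => (E a).map (fun x => x.2.2)) (by fun_prop)
  have s1 := h1.size_le
  have s3 := h3.size_le
  refine PT.foldl (f := fun a T e => gAdd (sp a) (base a) T e) (by fun_prop) h4 (by fun_prop)
    (fun a => size (l a) * (2 * size (l a) + B a + size (sp a) * (B a + 1) + 5) + 1)
    ((s3.mul (((((PB.const 2).mul s3).add hB).add (s1.mul (hB.add (PB.const 1)))).add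
      (PB.const 5))).add (PB.const 1)) (fun a u hu => ?_)
  obtain ⟨i1, i2⟩ := gGen_inv (sp := sp a) (base := base a) (l := l a) (E := u)
    (W := gen ((E a).map (fun x => x.2.2)))
    (fun x hx => mem_gen (List.mem_map_of_mem (hu.subset hx)))
  refine (size_list_le (l := gGen (sp a) (base a) (l a) u)
    (B := 2 * size (l a) + B a + size (sp a) * (B a + 1) + 4) (fun z hz => ?_)).trans ?_
  · obtain ⟨z1, z2, z3, z4, z5⟩ := i2 z hz
    have a1 := size_lt_of_mem z1
    have a2 := size_lt_of_mem z2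
    have a3 := h a _ z3
    have a4 := size_list_le (l := z.2.2.2) (B := B a) (fun v hv => h a _ (z4 (mem_gen hv)))
    have a5 := Nat.mul_le_mul_right (B a + 1) (z5.trans (length_lt_size (sp a)).le)
    rw [size_prod, size_prod, size_prod]
    omega
  · rw [i1]
    exact Nat.add_le_add_right (Nat.mul_le_mul_right _ (length_lt_size _).le) 1
end pt

end Pool.Agent.P.MP_f1a348_lc.GX
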