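import Pool.Agent.P.MP_f1a348_lc.GX.Base
import Pool.Agent.P.MP_f1a348_lc.GX.TUNAT

/-! Step WIEL. -/

set_option autoImplicit false
set_option linter.unusedSectionVars false

namespace Pool.Agent.P.MP_f1a348_lc.GX

open Equiv
variable {κ : Type} [Fintype κ] [DecidableEq κ]

namespace WIELx

theorem swap_mem {Ω : Type} [DecidableEq Ω] {T : Finset Ω} {a b : Ω} (ha : a ∈ T) (hb : b ∈ T)
    (x : Ω) : swap a b x ∈ T ↔ x ∈ T := by
  rw [swap_apply_def]
  split_ifs with h1 h2
  · rw [h1]; exact ⟨fun _ => ha, fun _ => hb⟩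
  · rw [h2]; exact ⟨fun _ => hb, fun _ => ha⟩
  · rfl

theorem cyc_mem {Ω : Type} [DecidableEq Ω] {T : Finset Ω} {a b c : Ω} (ha : a ∈ T) (hb : b ∈ T)
    (hc : c ∈ T) (x : Ω) : (swap a b * swap a c) x ∈ T ↔ x ∈ T := by
  rw [Perm.mul_apply, swap_mem ha hb, swap_mem ha hc]

theorem cyc_fix {Ω : Type} [DecidableEq Ω] {a b c x : Ω} (ha : x ≠ a) (hb : x ≠ b)
    (hc : x ≠ c) : (swap a b * swap a c) x = x := by
  rw [Perm.mul_apply, swap_apply_of_ne_of_ne ha hc, swap_apply_of_ne_of_ne ha hb]

theorem on_set {G Ω : Type} [Group G] [MulAction G Ω] {H : Subgroup G} {O S : Finset Ω} {k : ℕ}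
    (h : MTr H O k) (hS : S ⊆ O) (hk : S.card = k) (π : Perm Ω) (hπ : ∀ x ∈ S, π x ∈ O) :
    ∃ g ∈ H, ∀ x ∈ S, g • x = π x := by
  let e := Finset.equivFinOfCardEq hk
  obtain ⟨g, hg, hg'⟩ := h (fun i => (e.symm i).1) (fun i => π (e.symm i).1)
    (Subtype.val_injective.comp e.symm.injective)
    (π.injective.comp (Subtype.val_injective.comp e.symm.injective))
    (fun i => hS (e.symm i).2) (fun i => hπ _ (e.symm i).2)
  refine ⟨g, hg, fun x hx => ?_⟩
  have := hg' (e ⟨x, hx⟩)
  simpa using this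

/-- the setwise stabiliser of `T` in `H` -/
def stb {G Ω : Type} [Group G] [MulAction G Ω] (H : Subgroup G) (T : Finset Ω) : Subgroup G where
  carrier := {g | g ∈ H ∧ ∀ x, g • x ∈ T ↔ x ∈ T}
  mul_mem' := fun {a b} ha hb => ⟨H.mul_mem ha.1 hb.1, fun x => by
    rw [mul_smul, ha.2, hb.2]⟩
  one_mem' := ⟨H.one_mem, fun x => by rw [one_smul]⟩
  inv_mem' := fun {a} ha => ⟨H.inv_mem ha.1, fun x => by
    rw [← ha.2, smul_inv_smul]⟩

end WIELx

/- Wielandt. Take T inside O with 100 (L + 1) points, B the setwise stabiliser of T in H, W = O minus T. By transitivity on tuples of length card T + 1 the hypotheses of unaff_set hold, so some element acts on O as a cycle of length three; conjugate it (transitivity on triples follows from MTr since tuples extend). -/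
theorem wielandt {G Ω : Type} [Group G] [MulAction G Ω] [DecidableEq Ω] (H : Subgroup G)
    [Finite H] {L : ℕ} (O : Finset Ω) (hO : InvF H O) (hc : O.card ≤ 2 ^ L)
    (c : 100 * (L + 1) + 1 ≤ O.card) (h : MTr H O (100 * (L + 1) + 1)) : Giant H O := by
  intro a ha b hb d hd hab had hbd
  have hsub : ({a, b, d} : Finset Ω) ⊆ O := by
    intro x hx
    simp only [Finset.mem_insert, Finset.mem_singleton] at hx
    rcases hx with rfl | rfl | rfl <;> assumption
  have hcard : ({a, b, d} : Finset Ω).card ≤ 100 * (L + 1) :=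
    Finset.card_le_three.trans (by omega)
  obtain ⟨T, hT1, hT2, hT3⟩ := Finset.exists_subsuperset_card_eq hsub hcard
    (show 100 * (L + 1) ≤ O.card by omega)
  have hle : WIELx.stb H T ≤ H := fun g hg => hg.1
  have : Finite (WIELx.stb H T) :=
    Finite.of_injective _ (Subgroup.inclusion_injective hle)
  have hu : ∀ w ∈ O \ T, Giant (WIELx.stb H T ⊓ MulAction.stabilizer G w) T := by
    intro w hw a' ha' b' hb' d' hd' _ _ _
    obtain ⟨hw1, hw2⟩ := Finset.mem_sdiff.1 hw
    have hfix : (swap a' b' * swap a' d') w = w :=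
      WIELx.cyc_fix (fun e => hw2 (e ▸ ha')) (fun e => hw2 (e ▸ hb')) (fun e => hw2 (e ▸ hd'))
    obtain ⟨g, hg, hg'⟩ := WIELx.on_set h (S := insert w T) (Finset.insert_subset hw1 hT2)
      (by rw [Finset.card_insert_of_notMem hw2, hT3]) (swap a' b' * swap a' d') (by
        intro x hx
        rcases Finset.mem_insert.1 hx with rfl | hx
        · rw [hfix]; exact hw1
        · exact hT2 ((WIELx.cyc_mem ha' hb' hd' x).2 hx))
    refine ⟨g, ⟨⟨hg, fun x => ⟨fun hx => ?_, fun hx => ?_⟩⟩, ?_⟩,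
      fun x hx => hg' x (Finset.mem_insert_of_mem hx)⟩
    · have h1 : (swap a' b' * swap a' d')⁻¹ (g • x) ∈ T := by
        rw [← WIELx.cyc_mem ha' hb' hd']
        simpa using hx
      have h2 := hg' _ (Finset.mem_insert_of_mem h1)
      have h3 : (swap a' b' * swap a' d') ((swap a' b' * swap a' d')⁻¹ (g • x)) = g • x := by
        simp
      rw [h3] at h2
      rw [← smul_left_cancel g h2]
      exact h1
    · rw [hg' x (Finset.mem_insert_of_mem hx)]
      exact (WIELx.cyc_mem ha' hb' hd' x).2 hx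
    · show g • w = w
      rw [hg' w (Finset.mem_insert_self _ _), hfix]
  have hW : (O \ T).Nonempty := by
    rw [← Finset.card_pos, Finset.card_sdiff_of_subset hT2]
    omega
  obtain ⟨w, hw⟩ := hW
  have hr : Giant (WIELx.stb H T) T := by
    intro a' ha' b' hb' d' hd' h1 h2 h3
    obtain ⟨g, hg, hg'⟩ := hu w hw a' ha' b' hb' d' hd' h1 h2 h3
    exact ⟨g, hg.1, hg'⟩
  have key := unaff_set (WIELx.stb H T) (L := L) T (O \ T) hT3.ge
    (fun g hg x hx => (hg.2 x).2 hx)
    (fun g hg x hx => Finset.mem_sdiff.2 ⟨hO g hg.1 x (Finset.mem_sdiff.1 hx).1,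
      fun e => (Finset.mem_sdiff.1 hx).2 ((hg.2 x).1 e)⟩)
    ((Finset.card_le_card Finset.sdiff_subset).trans hc) hr hu
  have haT : a ∈ T := hT1 (by simp)
  have hbT : b ∈ T := hT1 (by simp)
  have hdT : d ∈ T := hT1 (by simp)
  obtain ⟨g, hg, hg'⟩ := key a haT b hbT d hdT hab had hbd
  refine ⟨g, hg.1.1, fun x hx => ?_⟩
  by_cases hxT : x ∈ T
  · exact hg' x hxT
  · have hfix : (swap a b * swap a d) x = x :=
      WIELx.cyc_fix (fun e => hxT (e ▸ haT)) (fun e => hxT (e ▸ hbT)) (fun e => hxT (e ▸ hdT))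
    rw [hfix]
    have h1 := (Subgroup.mem_inf.1 hg).2
    rw [Subgroup.mem_iInf] at h1
    have h2 := h1 x
    rw [Subgroup.mem_iInf] at h2
    exact h2 (Finset.mem_sdiff.2 ⟨hx, hxT⟩)

/- Induction on k: move the first entries, then move the last entry by a cycle of length three on a set T that holds the tuple, the target and one more point. -/
theorem mtr_of_local {G Ω : Type} [Group G] [MulAction G Ω] [DecidableEq Ω] (H : Subgroup G)
    (O : Finset Ω) (hO : InvF H O) {t k : ℕ} (hk : k + 2 ≤ t) (ht : t ≤ O.card)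
    (h : ∀ T ⊆ O, T.card = t → Giant H T) : MTr H O k := by
  induction k with
  | zero => exact fun a b _ _ _ _ => ⟨1, H.one_mem, fun i => i.elim0⟩
  | succ k ih =>
    intro a b ha hb haO hbO
    obtain ⟨g, hg, hg'⟩ := ih (by omega) (fun i => a i.castSucc) (fun i => b i.castSucc)
      (ha.comp (Fin.castSucc_injective k)) (hb.comp (Fin.castSucc_injective k))
      (fun i => haO _) (fun i => hbO _)
    by_cases hxy : g • a (Fin.last k) = b (Fin.last k)
    · exact ⟨g, hg, fun i => Fin.lastCases hxy hg' i⟩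
    have hxO : g • a (Fin.last k) ∈ O := hO g hg _ (haO _)
    have hsub : insert (g • a (Fin.last k)) (Finset.univ.image b) ⊆ O := by
      apply Finset.insert_subset hxO
      intro x hx
      obtain ⟨i, _, rfl⟩ := Finset.mem_image.1 hx
      exact hbO i
    have hcard : (insert (g • a (Fin.last k)) (Finset.univ.image b)).card ≤ k + 2 := by
      refine (Finset.card_insert_le _ _).trans ?_
      have := Finset.card_image_le (s := (Finset.univ : Finset (Fin (k + 1)))) (f := b)
      simp only [Finset.card_univ, Fintype.card_fin] at this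
      omega
    obtain ⟨T, hT1, hT2, hT3⟩ := Finset.exists_subsuperset_card_eq hsub
      (show _ ≤ t by omega) ht
    obtain ⟨z, hzT, hz⟩ := Finset.exists_mem_notMem_of_card_lt_card
      (show (insert (g • a (Fin.last k)) (Finset.univ.image b)).card < T.card by omega)
    have hbT : ∀ i, b i ∈ T := fun i =>
      hT1 (Finset.mem_insert_of_mem (Finset.mem_image_of_mem b (Finset.mem_univ i)))
    have hxT : g • a (Fin.last k) ∈ T := hT1 (Finset.mem_insert_self _ _)
    have hzx : g • a (Fin.last k) ≠ z := fun e => hz (e ▸ Finset.mem_insert_self _ _)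
    have hzb : ∀ i, b i ≠ z := fun i e =>
      hz (e ▸ Finset.mem_insert_of_mem (Finset.mem_image_of_mem b (Finset.mem_univ i)))
    obtain ⟨g', hg1, hg2⟩ := h T hT2 hT3 _ hxT z hzT _ (hbT (Fin.last k)) hzx hxy
      (hzb _).symm
    refine ⟨g' * g, H.mul_mem hg1 hg, fun i => ?_⟩
    rw [mul_smul]
    refine Fin.lastCases ?_ (fun j => ?_) i
    · rw [hg2 _ hxT, Perm.mul_apply, swap_apply_left,
        swap_apply_of_ne_of_ne (Ne.symm hxy) (hzb _)]
    · rw [hg' j, hg2 _ (hbT _)]
      refine WIELx.cyc_fix (fun e => ?_) (hzb _) (fun e => (Fin.castSucc_lt_last j).ne (hb e))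
      rw [← hg' j] at e
      exact (Fin.castSucc_lt_last j).ne (ha (smul_left_cancel g e))

end Pool.Agent.P.MP_f1a348_lc.GX
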