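import Pool.Agent.P.MP_f1a348_lc.GX.TSYS
import Pool.Agent.P.MP_f1a348_lc.GX.TJL
import Pool.Agent.P.MP_f1a348_lc.GX.TWIEL

/-! Graph isomorphism: the mathematics of local certificates. -/

set_option autoImplicit false
set_option linter.unusedSectionVars false

namespace Pool.Agent.P.MP_f1a348_lc.GX

open Equiv Finset
open scoped Classical

theorem index_le_card {K α : Type} [Group K] (H : Subgroup K) (W : Finset α) (c : K → α)
    (h1 : ∀ g, c g ∈ W) (h2 : ∀ g g', c g = c g' → g⁻¹ * g' ∈ H) : H.index ≤ W.card := by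
  have hf : Function.Injective (fun q : K ⧸ H => (⟨c q.out, h1 _⟩ : {x // x ∈ W})) := by
    intro q q' e
    have := h2 _ _ (congrArg Subtype.val e)
    rw [← QuotientGroup.out_eq' q, ← QuotientGroup.out_eq' q']
    exact QuotientGroup.eq.2 this
  have := Nat.card_le_card_of_injective _ hf
  rwa [Nat.card_eq_fintype_card (α := {x // x ∈ W}), Fintype.card_coe] at this

/-- a largest set with all cycles of length three contains every large such set -/
theorem exists_max_alt3 {κ : Type} [Fintype κ] [DecidableEq κ] (H : Subgroup (Perm κ)) :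
    ∃ Q : Finset κ, Alt3 H Q ∧ ∀ P : Finset κ, Alt3 H P → 3 ≤ P.card →
      Fintype.card κ < 2 * P.card → P ⊆ Q := by
  obtain ⟨Q, hQ, hm⟩ := exists_max_image (univ.filter (fun P : Finset κ => Alt3 H P)) card
    ⟨∅, mem_filter.2 ⟨mem_univ _, fun a ha => absurd ha (notMem_empty a)⟩⟩
  have hQ' := (mem_filter.1 hQ).2
  refine ⟨Q, hQ', fun P hP h3 hb => ?_⟩
  have h1 := hm P (mem_filter.2 ⟨mem_univ _, hP⟩)
  have hd : ¬ Disjoint Q P := fun d => by
    have := card_le_univ (Q ∪ P)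
    rw [card_union_of_disjoint d] at this
    omega
  have h2 := hm _ (mem_filter.2 ⟨mem_univ _, alt3_union hQ' hP (by omega) h3 hd⟩)
  have := eq_of_subset_of_card_le (subset_union_left (s₁ := Q) (s₂ := P)) h2
  rw [this]
  exact subset_union_right

section window

variable {Y : Type} [DecidableEq Y] {Γ : Sy Y}

theorem Sy.Tr.on_set {O Z : Finset Y} {τ : ℕ} (h : Γ.Tr O τ) (hZ : Z ⊆ O) (hc : Z.card = τ)
    (φ : {x // x ∈ Z} → Y) (hφ : Function.Injective φ) (hm : ∀ x, φ x ∈ O) :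
    ∃ f : Perm Y, Γ.L Z f ∧ ∀ x : {x // x ∈ Z}, f x.1 = φ x := by
  let e := Finset.equivFinOfCardEq hc
  obtain ⟨f, h1, h2⟩ := h (fun i => (e.symm i).1) (fun i => φ (e.symm i))
    (Subtype.val_injective.comp e.symm.injective) (hφ.comp e.symm.injective)
    (fun i => hZ (e.symm i).2) (fun i => hm _)
  refine ⟨f, Γ.loc h1 (fun x hx => mem_image.2 ⟨e ⟨x, hx⟩, mem_univ _, by simp⟩)
    (fun _ _ => rfl), fun x => ?_⟩
  simpa using h2 (e x)

/-- a relation between tuples and points that all local automorphisms keep -/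
def Sy.InvT (Γ : Sy Y) {t : ℕ} (R : (Fin t → Y) → Y → Prop) : Prop :=
  ∀ (A : Finset Y) (f : Perm Y) (a : Fin t → Y) (w : Y), Γ.L A f → (∀ i, a i ∈ A) → w ∈ A →
    R a w → R (f ∘ a) (f w)

theorem Sy.InvT.iff {t : ℕ} {R : (Fin t → Y) → Y → Prop} (h : Γ.InvT R) {A : Finset Y}
    {f : Perm Y} {a : Fin t → Y} {w : Y} (hf : Γ.L A f) (ha : ∀ i, a i ∈ A) (hw : w ∈ A) :
    R a w ↔ R (f ∘ a) (f w) := by
  refine ⟨h A f a w hf ha hw, fun e => ?_⟩
  have := h _ _ _ _ (Γ.inv hf) (fun i => mem_image_of_mem _ (ha i)) (mem_image_of_mem _ hw) e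
  have e1 : (⇑f⁻¹) ∘ (fun i => f (a i)) = a := by
    funext i
    simp
  have e2 : f⁻¹ (f w) = w := by simp
  rwa [e1, e2] at this

theorem Sy.win_local {O W Z : Finset Y} {t L τ : ℕ} (hM : τ + 1 ≤ Γ.M) (ht : Γ.Tr O τ)
    (hW : Γ.Inv1 W) (hc : W.card ≤ 2 ^ L) {R : (Fin t → Y) → Y → Prop} (inv : Γ.InvT R)
    (hZ : Z ⊆ O) (hz : Z.card = τ) {w : Y} (hw : w ∈ W) :
    ∃ S : Finset Y, S.card ≤ 4 * L + 2 ∧ ∀ a ∈ Z, ∀ b ∈ Z, ∀ c ∈ Z, a ∉ S → b ∉ S → c ∉ S →
      a ≠ b → a ≠ c → b ≠ c → ∀ u : Fin t → Y, (∀ i, u i ∈ Z) → R u w →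
        R ((swap a b * swap a c : Perm Y) ∘ u) w := by
  have key : ∀ π : Perm {x // x ∈ Z}, ∃ w' ∈ W, ∀ u : Fin t → {x // x ∈ Z},
      R (fun i => (u i).1) w ↔ R (fun i => (π (u i)).1) w' := by
    intro π
    obtain ⟨f, h1, h2⟩ := ht.on_set hZ hz (fun x => (π x).1)
      (Subtype.val_injective.comp π.injective) (fun x => hZ (π x).2)
    obtain ⟨g, g1, g2⟩ := Sy.ext_set h1 (B := {w}) (singleton_subset_iff.2 (hW.1 hw)) (by
      have := card_union_le Z {w}
      rw [card_singleton] at this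
      omega)
    have hw' : w ∈ Z ∪ {w} := mem_union_right _ (mem_singleton_self _)
    refine ⟨g w, hW.2 _ _ (Sy.e1_of_L g2 hw') hw, fun u => ?_⟩
    rw [inv.iff g2 (fun i => mem_union_left _ (u i).2) hw']
    have : ⇑g ∘ (fun i => (u i).1) = fun i => (π (u i)).1 := by
      funext i
      simp only [Function.comp]
      rw [g1 _ (u i).2, h2]
    rw [this]
  choose c c1 c2 using key
  let H : Subgroup (Perm {x // x ∈ Z}) :=
    { carrier := {π | ∀ u : Fin t → {x // x ∈ Z},
        R (fun i => (u i).1) w ↔ R (fun i => (π (u i)).1) w}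
      mul_mem' := fun {π σ} h1 h2 u => (h2 u).trans (h1 (fun i => σ (u i)))
      one_mem' := fun u => Iff.rfl
      inv_mem' := fun {π} h u => by
        have := h (fun i => π⁻¹ (u i))
        simp only [Perm.coe_inv, apply_symm_apply] at this
        exact this.symm }
  have hi : H.index ≤ 2 ^ L := (index_le_card H W c c1 (fun π σ e u => by
    have h1 := c2 π (fun i => (π⁻¹ * σ) (u i))
    simp only [Perm.mul_apply, Perm.coe_inv, apply_symm_apply] at h1
    rw [c2 σ u, ← e]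
    exact h1.symm)).trans hc
  obtain ⟨S, s1, s2⟩ := jl hi
  refine ⟨S.image Subtype.val, card_image_le.trans s1, fun a ha b hb d hd na nb nd h1 h2 h3 u hu r => ?_⟩
  have m : ∀ {x : Y} (hx : x ∈ Z), x ∉ S.image Subtype.val → (⟨x, hx⟩ : {x // x ∈ Z}) ∈ Sᶜ :=
    fun hx n => mem_compl.2 fun h => n (mem_image.2 ⟨_, h, rfl⟩)
  have := (s2 _ (m ha na) _ (m hb nb) _ (m hd nd) (fun e => h1 (congrArg Subtype.val e))
    (fun e => h2 (congrArg Subtype.val e)) (fun e => h3 (congrArg Subtype.val e))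
    (fun i => ⟨u i, hu i⟩)).1 r
  simp only [UNATx.val_three] at this
  exact this

/-- The window lemma. If `O` is `(t + s)`-transitive, `s = 4 L + 2`, and the reorderings that keep an
invariant relation `R` between injective `t`-tuples of `O` and points of `W` do not form a giant,
then a tuple is related to at most `card W * s / (card O - t + 1)` points. -/
theorem Sy.window {O W : Finset Y} {t L : ℕ} (hM : t + (4 * L + 2) + 1 ≤ Γ.M)
    (hτ : t + (4 * L + 2) ≤ O.card) (ht : Γ.Tr O (t + (4 * L + 2))) (hW : Γ.Inv1 W)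
    (hc : W.card ≤ 2 ^ L) (h2 : 2 * (4 * L + 2) + 1 ≤ t) {R : (Fin t → Y) → Y → Prop}
    (sup : ∀ a w, R a w → Function.Injective a ∧ (∀ i, a i ∈ O) ∧ w ∈ W) (inv : Γ.InvT R)
    {H : Subgroup (Perm (Fin t))} (hH : ∀ a w (π : Perm (Fin t)), R a w → R (a ∘ π) w → π ∈ H)
    (hA : ¬ alternatingGroup (Fin t) ≤ H) {a : Fin t → Y} (ha : Function.Injective a)
    (haO : ∀ i, a i ∈ O) :
    (W.filter (R a)).card * (O.card - t + 1) ≤ W.card * (4 * L + 2) := by
  obtain ⟨Q, q1, q2⟩ := exists_max_alt3 H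
  have hi : ∃ i, i ∉ Q := by
    by_contra n
    push Not at n
    exact hA (alt3_univ.1 (by rwa [← eq_univ_of_forall n]))
  obtain ⟨i, hi⟩ := hi
  -- at most s values at the position i
  have h3 : ∀ w ∈ W, (O.filter (fun y => R (Function.update a i y) w)).card ≤ 4 * L + 2 := by
    intro w hw
    by_contra n
    push Not at n
    obtain ⟨V, v1, v2⟩ := exists_subset_card_eq (n := 4 * L + 2 + 1) n
    have hs : (univ.erase i).image a ∪ V ⊆ O := union_subset
      (fun x hx => by obtain ⟨j, _, rfl⟩ := mem_image.1 hx; exact haO j)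
      (fun x hx => (mem_filter.1 (v1 hx)).1)
    have hcard : ((univ.erase i).image a ∪ V).card ≤ t + (4 * L + 2) := by
      have := card_union_le ((univ.erase i).image a) V
      have h4 := card_image_le (s := univ.erase i) (f := a)
      rw [card_erase_of_mem (mem_univ _), card_univ, Fintype.card_fin] at h4
      omega
    obtain ⟨Z, z1, z2, z3⟩ := exists_subsuperset_card_eq hs hcard hτ
    obtain ⟨S, s1, s2⟩ := Sy.win_local hM ht hW hc inv z2 z3 hw
    have hV : V ⊆ S := by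
      intro y hy
      have r := (mem_filter.1 (v1 hy)).2
      set u := Function.update a i y with hu
      have uZ : ∀ j, u j ∈ Z := fun j => by
        by_cases e : j = i
        · rw [e, hu, Function.update_self]
          exact z1 (mem_union_right _ hy)
        · rw [hu, Function.update_of_ne e]
          exact z1 (mem_union_left _ (mem_image_of_mem _ (mem_erase.2 ⟨e, mem_univ _⟩)))
      have ui := (sup _ _ r).1
      have hP : Alt3 H (univ.filter (fun j => u j ∉ S)) := by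
        intro p hp q hq k hk e1 e2 e3
        refine hH u w _ r ?_
        have := s2 _ (uZ p) _ (uZ q) _ (uZ k) (mem_filter.1 hp).2 (mem_filter.1 hq).2
          (mem_filter.1 hk).2 (ui.ne e1) (ui.ne e2) (ui.ne e3) u uZ r
        have e : (swap (u p) (u q) * swap (u p) (u k) : Perm Y) ∘ u =
            u ∘ (swap p q * swap p k : Perm (Fin t)) := by
          funext j
          simp only [Function.comp, Perm.mul_apply]
          rw [ui.map_swap, ui.map_swap]
        rwa [e] at this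
      have hcP : (univ.filter (fun j => u j ∈ S)).card ≤ S.card :=
        card_le_card_of_injOn u (fun j hj => (mem_filter.1 hj).2) (ui.injOn)
      have hsum := card_filter_add_card_filter_not (s := (univ : Finset (Fin t)))
        (fun j => u j ∈ S)
      rw [card_univ, Fintype.card_fin] at hsum
      have := q2 _ hP (by omega) (by rw [Fintype.card_fin]; omega)
      by_contra ny
      refine hi (this (mem_filter.2 ⟨mem_univ _, ?_⟩))
      rwa [hu, Function.update_self]
    have := card_le_card hV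
    omega
  -- the number of related points does not depend on the tuple
  let B := O \ (univ.erase i).image a
  have hB : O.card - t + 1 ≤ B.card := by
    have h4 := card_image_le (s := univ.erase i) (f := a)
    rw [card_erase_of_mem (mem_univ _), card_univ, Fintype.card_fin] at h4
    have : O.card - ((univ.erase i).image a).card ≤ B.card :=
      le_card_sdiff ((univ.erase i).image a) O
    omega
  have h5 : ∀ y ∈ B, (W.filter (fun w => R (Function.update a i y) w)).card =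
      (W.filter (R a)).card := by
    intro y hy
    obtain ⟨y1, y2⟩ := mem_sdiff.1 hy
    have hs : insert y (univ.image a) ⊆ O := insert_subset y1
      (fun x hx => by obtain ⟨j, _, rfl⟩ := mem_image.1 hx; exact haO j)
    have hcard : (insert y (univ.image a)).card ≤ t + (4 * L + 2) := by
      have := card_insert_le y (univ.image a)
      have h4 := card_image_le (s := univ) (f := a)
      rw [card_univ, Fintype.card_fin] at h4
      omega
    obtain ⟨Z, z1, z2, z3⟩ := exists_subsuperset_card_eq hs hcard hτ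
    have aZ : ∀ j, a j ∈ Z := fun j => z1 (mem_insert_of_mem (mem_image_of_mem _ (mem_univ _)))
    obtain ⟨f, f1, f2⟩ := ht.on_set z2 z3 (fun x => swap (a i) y x.1)
      ((swap (a i) y).injective.comp Subtype.val_injective)
      (fun x => (WIELx.swap_mem (haO i) y1 _).2 (z2 x.2))
    have e := Sy.card_eq f1 (by omega) (R a) (R (Function.update a i y)) (fun w _ g g1 g2 => by
      rw [inv.iff g2 (fun j => mem_insert_of_mem (aZ j)) (mem_insert_self _ _)]
      have : ⇑g ∘ a = Function.update a i y := by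
        funext j
        simp only [Function.comp]
        rw [g1 _ (aZ j), f2 ⟨_, aZ j⟩]
        by_cases e : j = i
        · rw [e, Function.update_self, swap_apply_left]
        · rw [Function.update_of_ne e, swap_apply_of_ne_of_ne (ha.ne e)]
          intro e'
          exact y2 (mem_image.2 ⟨j, mem_erase.2 ⟨e, mem_univ _⟩, e'⟩)
      rw [this])
    have e2 : ∀ b : Fin t → Y, W.filter (R b) = Γ.D.filter (R b) := fun b => by
      ext w
      simp only [mem_filter]
      exact ⟨fun h => ⟨hW.1 h.1, h.2⟩, fun h => ⟨(sup _ _ h.2).2.2, h.2⟩⟩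
    rw [e2 a, e]
    exact congrArg card (e2 _)
  have h6 := sum_card_bipartiteAbove_eq_sum_card_bipartiteBelow (s := B) (t := W)
    (fun y w => R (Function.update a i y) w)
  simp only [bipartiteAbove, bipartiteBelow] at h6
  rw [sum_congr rfl h5, sum_const, smul_eq_mul] at h6
  calc (W.filter (R a)).card * (O.card - t + 1) ≤ (W.filter (R a)).card * B.card :=
        Nat.mul_le_mul_left _ hB
    _ = _ := by rw [mul_comm, h6]
    _ ≤ W.card * (4 * L + 2) := by
        rw [← smul_eq_mul]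
        refine sum_le_card_nsmul _ _ _ (fun w hw => le_trans (card_le_card ?_) (h3 w hw))
        exact filter_subset_filter _ sdiff_subset

end window

section groups

variable {G Ω : Type} [Group G] [MulAction G Ω] [DecidableEq Ω]

/-- `J` induces on `O` all cycles of length three on points of `P` -/
def Alt3On (J : Subgroup G) (O P : Finset Ω) : Prop :=
  ∀ a ∈ P, ∀ b ∈ P, ∀ c ∈ P, a ≠ b → a ≠ c → b ≠ c →
    ∃ g ∈ J, ∀ x ∈ O, g • x = (swap a b * swap a c) x

theorem Alt3On.mono {J J' : Subgroup G} {O O' P P' : Finset Ω} (h : Alt3On J O P) (hJ : J ≤ J')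
    (hO : O' ⊆ O) (hP : P' ⊆ P) : Alt3On J' O' P' := fun a ha b hb c hc h1 h2 h3 => by
  obtain ⟨g, g1, g2⟩ := h a (hP ha) b (hP hb) c (hP hc) h1 h2 h3
  exact ⟨g, hJ g1, fun x hx => g2 x (hO hx)⟩

theorem giant_iff {J : Subgroup G} {O : Finset Ω} : Giant J O ↔ Alt3On J O O := Iff.rfl

theorem Giant.up {J J' : Subgroup G} {O : Finset Ω} (h : Giant J O) (hJ : J ≤ J') :
    Giant J' O := Alt3On.mono (giant_iff.1 h) hJ Subset.rfl Subset.rfl

theorem smul_three (n : G) (a b c x : Ω) :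
    n • (swap a b * swap a c) x = (swap (n • a) (n • b) * swap (n • a) (n • c)) (n • x) := by
  simp only [Perm.mul_apply]
  rw [(MulAction.injective n).map_swap, (MulAction.injective n).map_swap]

/-- transport along `n` -/
theorem Alt3On.conj {J J' : Subgroup G} {O O' P P' : Finset Ω} (h : Alt3On J O P) (n : G)
    (hJ : ∀ g ∈ J, n * g * n⁻¹ ∈ J') (hO : ∀ x ∈ O', n⁻¹ • x ∈ O) (hP : ∀ x ∈ P', n⁻¹ • x ∈ P) :
    Alt3On J' O' P' := fun a ha b hb c hc h1 h2 h3 => by
  obtain ⟨g, g1, g2⟩ := h _ (hP a ha) _ (hP b hb) _ (hP c hc) ((MulAction.injective _).ne h1)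
    ((MulAction.injective _).ne h2) ((MulAction.injective _).ne h3)
  refine ⟨_, hJ g g1, fun x hx => ?_⟩
  rw [mul_smul, mul_smul, g2 _ (hO x hx), smul_three]
  simp only [smul_inv_smul]

theorem Giant.conj {J J' : Subgroup G} {O O' : Finset Ω} (h : Giant J O) (n : G)
    (hJ : ∀ g ∈ J, n * g * n⁻¹ ∈ J') (hO : ∀ x ∈ O', n⁻¹ • x ∈ O) : Giant J' O' :=
  Alt3On.conj (giant_iff.1 h) n hJ hO hO

theorem alt3On_iff {J : Subgroup G} {O : Finset Ω} {P : Finset {x // x ∈ O}} :
    Alt3On J O (P.image Subtype.val) ↔ Alt3 (UNATx.ind J O) P := by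
  constructor
  · intro h a ha b hb c hc h1 h2 h3
    obtain ⟨g, g1, g2⟩ := h _ (mem_image_of_mem _ ha) _ (mem_image_of_mem _ hb) _
      (mem_image_of_mem _ hc) (Subtype.val_injective.ne h1) (Subtype.val_injective.ne h2)
      (Subtype.val_injective.ne h3)
    exact ⟨g, g1, fun x => by rw [g2 x.1 x.2, UNATx.val_three]⟩
  · intro h a ha b hb c hc h1 h2 h3
    obtain ⟨a, ha', rfl⟩ := mem_image.1 ha
    obtain ⟨b, hb', rfl⟩ := mem_image.1 hb
    obtain ⟨c, hc', rfl⟩ := mem_image.1 hc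
    obtain ⟨g, g1, g2⟩ := h a ha' b hb' c hc' (fun e => h1 (congrArg _ e))
      (fun e => h2 (congrArg _ e)) (fun e => h3 (congrArg _ e))
    exact ⟨g, g1, fun x hx => by rw [g2 ⟨x, hx⟩, UNATx.val_three]⟩

theorem image_subtype_eq {O P : Finset Ω} (h : P ⊆ O) :
    (P.subtype (· ∈ O)).image Subtype.val = P := by
  ext x
  simp only [mem_image, mem_subtype]
  exact ⟨fun ⟨y, hy, e⟩ => e ▸ hy, fun hx => ⟨⟨x, h hx⟩, hx, rfl⟩⟩

theorem Alt3On.union {J : Subgroup G} {O P P' : Finset Ω} (h : Alt3On J O P)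
    (h' : Alt3On J O P') (s : P ⊆ O) (s' : P' ⊆ O) (c : 3 ≤ P.card) (c' : 3 ≤ P'.card)
    (e : ¬ Disjoint P P') : Alt3On J O (P ∪ P') := by
  rw [← image_subtype_eq s] at h c e ⊢
  rw [← image_subtype_eq s'] at h' c' e ⊢
  rw [card_image_of_injective _ Subtype.val_injective] at c c'
  rw [disjoint_image Subtype.val_injective] at e
  rw [← image_union]
  exact alt3On_iff.2 (alt3_union (alt3On_iff.1 h) (alt3On_iff.1 h') c c' e)

/-- A point with a short orbit has a small support. -/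
theorem exists_supp {F : Subgroup G} {O Om : Finset Ω} {L : ℕ} (hG : Giant F O) {p : Ω}
    (hp : ∀ g ∈ F, g • p ∈ Om) (hc : Om.card ≤ 2 ^ L) :
    ∃ S ⊆ O, S.card ≤ 4 * L + 6 ∧ Alt3On (F ⊓ MulAction.stabilizer G p) O (O \ S) := by
  have key : ∃ σ : Perm {x // x ∈ O}, ∀ π : Perm {x // x ∈ O},
      Perm.sign π = 1 ∨ Perm.sign (σ * π) = 1 := by
    by_cases h : ∃ σ : Perm {x // x ∈ O}, Perm.sign σ ≠ 1
    · obtain ⟨σ, h⟩ := h
      refine ⟨σ, fun π => ?_⟩
      rcases Int.units_eq_one_or (Perm.sign π) with e | e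
      · exact Or.inl e
      · right
        rw [map_mul, e, (Int.units_eq_one_or _).resolve_left h]
        simp
    · push Not at h
      exact ⟨1, fun π => Or.inl (h π)⟩
  obtain ⟨σ, hσ⟩ := key
  have k2 : ∀ π : Perm {x // x ∈ O}, ∃ (b : Bool) (g : G), g ∈ F ∧
      ∀ x : {x // x ∈ O}, g • x.1 = (((bif b then σ else 1) * π) x).1 := by
    intro π
    rcases hσ π with e | e
    · obtain ⟨g, g1, g2⟩ := UNATx.even hG π e
      exact ⟨false, g, g1, fun x => by simpa using g2 x⟩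
    · obtain ⟨g, g1, g2⟩ := UNATx.even hG _ e
      exact ⟨true, g, g1, g2⟩
  choose b g g1 g2 using k2
  have hi : (UNATx.ind (F ⊓ MulAction.stabilizer G p) O).index ≤ 2 ^ (L + 1) := by
    refine (index_le_card _ (Om ×ˢ (univ : Finset Bool)) (fun π => (g π • p, b π))
      (fun π => mem_product.2 ⟨hp _ (g1 π), mem_univ _⟩) (fun π π' e => ?_)).trans ?_
    · obtain ⟨e1, e2⟩ := Prod.mk.inj e
      refine ⟨(g π)⁻¹ * g π', ⟨F.mul_mem (F.inv_mem (g1 π)) (g1 π'), ?_⟩, fun x => ?_⟩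
      · show ((g π)⁻¹ * g π') • p = p
        rw [mul_smul, ← e1, inv_smul_smul]
      · rw [mul_smul, inv_smul_eq_iff, g2, g2, e2]
        simp
    · rw [card_product, card_univ, Fintype.card_bool, pow_succ]
      omega
  obtain ⟨S, s1, s2⟩ := jl hi
  refine ⟨S.image Subtype.val, fun x hx => ?_, card_image_le.trans (by omega), ?_⟩
  · obtain ⟨y, _, rfl⟩ := mem_image.1 hx
    exact y.2
  · refine (alt3On_iff.2 s2).mono le_rfl Subset.rfl (fun x hx => ?_)
    obtain ⟨x1, x2⟩ := mem_sdiff.1 hx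
    exact mem_image.2 ⟨⟨x, x1⟩, mem_compl.2 fun h => x2 (mem_image.2 ⟨_, h, rfl⟩), rfl⟩

/-- the orbit of `a` inside `O` -/
noncomputable def orbIn (J : Subgroup G) (O : Finset Ω) (a : Ω) : Finset Ω :=
  O.filter (fun x => ∃ g ∈ J, g • a = x)

/-- the points of `O` whose orbit holds more than half of `O` -/
noncomputable def bigO (J : Subgroup G) (O : Finset Ω) : Finset Ω :=
  O.filter (fun a => O.card < 2 * (orbIn J O a).card)

theorem mem_orbIn {J : Subgroup G} {O : Finset Ω} {a x : Ω} :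
    x ∈ orbIn J O a ↔ x ∈ O ∧ ∃ g ∈ J, g • a = x := mem_filter

theorem mem_bigO {J : Subgroup G} {O : Finset Ω} {a : Ω} :
    a ∈ bigO J O ↔ a ∈ O ∧ O.card < 2 * (orbIn J O a).card := mem_filter

theorem bigO_sub {J : Subgroup G} {O : Finset Ω} : bigO J O ⊆ O := filter_subset _ _

theorem orbIn_mono {J J' : Subgroup G} (h : J ≤ J') (O : Finset Ω) (a : Ω) :
    orbIn J O a ⊆ orbIn J' O a := fun _ hx => by
  obtain ⟨x1, g, g1, g2⟩ := mem_orbIn.1 hx
  exact mem_orbIn.2 ⟨x1, g, h g1, g2⟩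

theorem bigO_mono {J J' : Subgroup G} (h : J ≤ J') (O : Finset Ω) : bigO J O ⊆ bigO J' O :=
  fun a ha => by
    obtain ⟨a1, a2⟩ := mem_bigO.1 ha
    have := card_le_card (orbIn_mono h O a)
    exact mem_bigO.2 ⟨a1, by omega⟩

/-- transport of the large orbit along `n` -/
theorem bigO_conj {J J' : Subgroup G} {O O' : Finset Ω} (n : G)
    (hJ : ∀ g ∈ J, n * g * n⁻¹ ∈ J') (hO : ∀ x ∈ O, n • x ∈ O') (hc : O'.card ≤ O.card) {a : Ω}
    (ha : a ∈ bigO J O) : n • a ∈ bigO J' O' := by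
  obtain ⟨a1, a2⟩ := mem_bigO.1 ha
  have : (orbIn J O a).card ≤ (orbIn J' O' (n • a)).card := by
    refine card_le_card_of_injOn (fun x => n • x) (fun x hx => ?_)
      ((MulAction.injective n).injOn)
    obtain ⟨x1, g, g1, g2⟩ := mem_orbIn.1 hx
    exact mem_orbIn.2 ⟨hO x x1, _, hJ g g1, by rw [mul_smul, mul_smul, inv_smul_smul, g2]⟩
  exact mem_bigO.2 ⟨hO a a1, by omega⟩

theorem Alt3On.sub_orbIn {J : Subgroup G} {O P : Finset Ω} (h : Alt3On J O P) (s : P ⊆ O)
    (c : 3 ≤ P.card) {a : Ω} (ha : a ∈ P) : P ⊆ orbIn J O a := by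
  intro x hx
  refine mem_orbIn.2 ⟨s hx, ?_⟩
  by_cases e : a = x
  · exact ⟨1, J.one_mem, by rw [one_smul, e]⟩
  obtain ⟨b, hb, nb⟩ := exists_mem_notMem_of_card_lt_card (s := {a, x}) (t := P)
    (lt_of_le_of_lt card_le_two (by omega))
  simp only [mem_insert, mem_singleton, not_or] at nb
  obtain ⟨g, g1, g2⟩ := h a ha b hb x hx (Ne.symm nb.1) e nb.2
  refine ⟨g, g1, ?_⟩
  rw [g2 a (s ha), Perm.mul_apply, swap_apply_left,
    swap_apply_of_ne_of_ne (Ne.symm e) (Ne.symm nb.2)]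

/-- A large set with all cycles of length three lies in the large orbit, and the large orbit has all
cycles of length three. -/
theorem Alt3On.big {J : Subgroup G} {O P : Finset Ω} (h : Alt3On J O P) (hO : InvF J O)
    (s : P ⊆ O) (c : 3 ≤ P.card) (hb : O.card < 2 * P.card) :
    P ⊆ bigO J O ∧ Alt3On J O (bigO J O) := by
  obtain ⟨Q, hQ, hm⟩ := exists_max_image (O.powerset.filter (fun Q => Alt3On J O Q)) card
    ⟨P, mem_filter.2 ⟨mem_powerset.2 s, h⟩⟩
  obtain ⟨q1, q2⟩ := mem_filter.1 hQ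
  have q1 := mem_powerset.1 q1
  have h1 := hm P (mem_filter.2 ⟨mem_powerset.2 s, h⟩)
  have nd : ∀ A B : Finset Ω, A ⊆ O → B ⊆ O → O.card < 2 * A.card → O.card < 2 * B.card →
      ¬ Disjoint A B := fun A B a b a' b' d => by
    have := card_le_card (union_subset a b)
    rw [card_union_of_disjoint d] at this
    omega
  have hinv : ∀ g ∈ J, ∀ x ∈ Q, g • x ∈ Q := by
    intro g hg x hx
    have e1 : (Q.image (fun x => g • x)).card = Q.card :=
      card_image_of_injective _ (MulAction.injective g)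
    have e2 : Q.image (fun x => g • x) ⊆ O := fun y hy => by
      obtain ⟨z, hz, rfl⟩ := mem_image.1 hy
      exact hO g hg z (q1 hz)
    have e3 : Alt3On J O (Q.image (fun x => g • x)) := q2.conj g
      (fun k hk => J.mul_mem (J.mul_mem hg hk) (J.inv_mem hg))
      (fun y hy => hO _ (J.inv_mem hg) y hy) (fun y hy => by
        obtain ⟨z, hz, rfl⟩ := mem_image.1 hy
        rwa [inv_smul_smul])
    have e4 := hm _ (mem_filter.2 ⟨mem_powerset.2 (union_subset q1 e2),
      q2.union e3 q1 e2 (by omega) (by omega) (nd _ _ q1 e2 (by omega) (by omega))⟩)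
    rw [eq_of_subset_of_card_le subset_union_left e4]
    exact mem_union_right _ (mem_image_of_mem _ hx)
  refine ⟨fun a ha => ?_, q2.mono le_rfl Subset.rfl (fun a ha => ?_)⟩
  · have := card_le_card (h.sub_orbIn s c ha)
    exact mem_bigO.2 ⟨s ha, by omega⟩
  · obtain ⟨a1, a2⟩ := mem_bigO.1 ha
    obtain ⟨x, x1, x2⟩ := not_disjoint_iff.1 (nd _ Q (filter_subset _ _) q1 a2 (by omega))
    obtain ⟨_, g, g1, rfl⟩ := mem_orbIn.1 x1
    have := hinv _ (J.inv_mem g1) _ x2
    rwa [inv_smul_smul] at this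

/-- The support `O \ bigO F_p O` of a point with a short orbit. -/
theorem supp_spec {F : Subgroup G} {O Om : Finset Ω} {L : ℕ} (hO : InvF F O) (hG : Giant F O)
    (c : 8 * L + 13 ≤ O.card) {p : Ω} (hp : ∀ g ∈ F, g • p ∈ Om) (hc : Om.card ≤ 2 ^ L) :
    (O \ bigO (F ⊓ MulAction.stabilizer G p) O).card ≤ 4 * L + 6 ∧
      Alt3On (F ⊓ MulAction.stabilizer G p) O (bigO (F ⊓ MulAction.stabilizer G p) O) := by
  obtain ⟨S, s1, s2, s3⟩ := exists_supp hG hp hc
  have e := le_card_sdiff S O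
  obtain ⟨b1, b2⟩ := s3.big (fun g hg => hO g hg.1) sdiff_subset (by omega) (by omega)
  refine ⟨le_trans (card_le_card fun x hx => ?_) s2, b2⟩
  obtain ⟨x1, x2⟩ := mem_sdiff.1 hx
  by_contra n
  exact x2 (b1 (mem_sdiff.2 ⟨x1, n⟩))

/-- local giants give a giant -/
theorem giant_of_local (F : Subgroup G) [Finite F] {L t : ℕ} (O : Finset Ω) (hO : InvF F O)
    (hc : O.card ≤ 2 ^ L) (ht : 100 * (L + 1) + 3 ≤ t) (hto : t ≤ O.card)
    (h : ∀ T ⊆ O, T.card = t → Giant F T) : Giant F O :=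
  wielandt F O hO hc (by omega) (mtr_of_local F O hO (by omega) hto h)

/-- the elements that fix all unaffected points still form a giant -/
theorem giant_unaff (B : Subgroup G) [Finite B] {L : ℕ} (T W V : Finset Ω)
    (c : 100 * (L + 1) ≤ T.card) (hT : InvF B T) (hW : InvF B W) (hc : W.card ≤ 2 ^ L)
    (hr : Giant B T) (hV : ∀ w ∈ V, w ∈ W ∧ Giant (B ⊓ MulAction.stabilizer G w) T) :
    Giant (B ⊓ ⨅ w ∈ V, MulAction.stabilizer G w) T := by
  refine (unaff_set B T (W.filter (fun w => Giant (B ⊓ MulAction.stabilizer G w) T)) c hT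
    (fun g hg w hw => ?_) ((card_le_card (filter_subset _ _)).trans hc) hr
    (fun w hw => (mem_filter.1 hw).2)).up (inf_le_inf_left _ ?_)
  · obtain ⟨w1, w2⟩ := mem_filter.1 hw
    refine mem_filter.2 ⟨hW g hg w w1, w2.conj g (fun k hk => ⟨B.mul_mem (B.mul_mem hg hk.1)
      (B.inv_mem hg), ?_⟩) (fun x hx => hT _ (B.inv_mem hg) x hx)⟩
    show (g * k * g⁻¹) • g • w = g • w
    rw [mul_smul, mul_smul, inv_smul_smul, show k • w = w from hk.2]
  · exact le_iInf₂ fun w hw => iInf₂_le w (mem_filter.2 (hV w hw))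

/-- The link lemma. `Om` is a set of points whose supports lie in `S`. Every element of the group
generated by elements `j` of `F` that fix `S` pointwise acts on `Om` as `j k`, where `j` is one of
the generators or `1` and `k` in `F` fixes `O` pointwise. -/
theorem link (F : Subgroup G) [Finite F] {L : ℕ} {O S Om : Finset Ω} (hO : InvF F O)
    (c : 100 * (L + 1) ≤ (O \ S).card) (hG : Giant F O)
    (hW : ∀ g ∈ F, (∀ x ∈ S, g • x = x) → ∀ p ∈ Om, g • p ∈ Om) (hc : Om.card ≤ 2 ^ L)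
    (hu : ∀ p ∈ Om, Alt3On (F ⊓ MulAction.stabilizer G p) O (O \ S)) (hS : S ⊆ O) {J : Set G}
    (hJ : ∀ j ∈ J, j ∈ F ∧ ∀ x ∈ S, j • x = x) {g : G} (hg : g ∈ Subgroup.closure J) :
    ∃ j ∈ insert (1 : G) J, ∃ k ∈ F, (∀ x ∈ O, k • x = x) ∧ ∀ p ∈ Om, g • p = j • k • p := by
  let B : Subgroup G := F ⊓ ⨅ x ∈ S, MulAction.stabilizer G x
  have mB : ∀ g, g ∈ B ↔ g ∈ F ∧ ∀ x ∈ S, g • x = x := fun g => by
    simp only [B, Subgroup.mem_inf, Subgroup.mem_iInf, MulAction.mem_stabilizer_iff]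
  have : Finite B := Finite.of_injective _ (Subgroup.inclusion_injective inf_le_left)
  have hT : InvF B (O \ S) := fun g hg x hx => by
    obtain ⟨g1, g2⟩ := (mB g).1 hg
    obtain ⟨x1, x2⟩ := mem_sdiff.1 hx
    refine mem_sdiff.2 ⟨hO g g1 x x1, fun n => x2 ?_⟩
    have e : g • x = x := MulAction.injective g (g2 _ n)
    rwa [e] at n
  have up : ∀ K : Subgroup G, Alt3On (F ⊓ K) O (O \ S) → Giant (B ⊓ K) (O \ S) :=
    fun K h a ha b hb d hd h1 h2 h3 => by
      obtain ⟨g, g1, g2⟩ := h a ha b hb d hd h1 h2 h3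
      refine ⟨g, ⟨(mB g).2 ⟨g1.1, fun x hx => ?_⟩, g1.2⟩, fun x hx => g2 x (sdiff_subset hx)⟩
      rw [g2 x (hS hx)]
      exact WIELx.cyc_fix (fun e => (mem_sdiff.1 ha).2 (e ▸ hx))
        (fun e => (mem_sdiff.1 hb).2 (e ▸ hx)) (fun e => (mem_sdiff.1 hd).2 (e ▸ hx))
  have hU := unaff_set B (O \ S) Om c hT (fun g hg => hW g ((mB g).1 hg).1 ((mB g).1 hg).2) hc
    ((up ⊤ ((giant_iff.1 hG).mono (by simp) Subset.rfl sdiff_subset)).up inf_le_left)
    (fun p hp => up _ (hu p hp))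
  let χ : B →* ℤˣ := Perm.sign.comp (UNATx.act B _ hT)
  have ev : ∀ g : B, χ g = 1 →
      ∃ k ∈ F, (∀ x ∈ O, k • x = x) ∧ ∀ p ∈ Om, g.1 • p = k • p := by
    intro g e
    obtain ⟨u, u1, u2⟩ := UNATx.even hU (UNATx.act B _ hT g) e
    have u3 : ∀ p ∈ Om, u • p = p := by
      have := u1.2
      simpa only [SetLike.mem_coe, Subgroup.coe_toSubmonoid, Subgroup.mem_iInf,
        MulAction.mem_stabilizer_iff] using this
    have hk := (mB _).1 (B.mul_mem g.2 (B.inv_mem u1.1))
    refine ⟨g.1 * u⁻¹, hk.1, fun x hx => ?_, fun p hp => ?_⟩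
    · by_cases n : x ∈ S
      · exact hk.2 x n
      · have m := hT _ (B.inv_mem u1.1) x (mem_sdiff.2 ⟨hx, n⟩)
        have := u2 ⟨_, m⟩
        rw [smul_inv_smul] at this
        rw [mul_smul]
        exact this.symm
    · rw [mul_smul, inv_smul_eq_iff.2 (u3 p hp).symm]
  have hgB : g ∈ B := (Subgroup.closure_le B).2 (fun j hj => (mB j).2 (hJ j hj)) hg
  rcases Int.units_eq_one_or (χ ⟨g, hgB⟩) with e | e
  · obtain ⟨k, k1, k2, k3⟩ := ev _ e
    exact ⟨1, Set.mem_insert _ _, k, k1, k2, fun p hp => by rw [one_smul]; exact k3 p hp⟩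
  · have : ∃ j, ∃ hj : j ∈ J, χ ⟨j, (mB j).2 (hJ j hj)⟩ ≠ 1 := by
      by_contra n
      push Not at n
      obtain ⟨g', g1, g2⟩ := (Subgroup.closure_le (χ.ker.map B.subtype)).2
        (fun j hj => ⟨⟨j, (mB j).2 (hJ j hj)⟩, n j hj, rfl⟩) hg
      have : g' = ⟨g, hgB⟩ := Subtype.ext g2
      rw [← this, show χ g' = 1 from g1] at e
      exact absurd e (by decide)
    obtain ⟨j, hj, n⟩ := this
    obtain ⟨k, k1, k2, k3⟩ := ev ((⟨j, (mB j).2 (hJ j hj)⟩ : B)⁻¹ * ⟨g, hgB⟩) (by
      rw [map_mul, map_inv, e, (Int.units_eq_one_or _).resolve_left n]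
      simp)
    refine ⟨j, Set.mem_insert_of_mem _ hj, k, k1, k2, fun p hp => ?_⟩
    rw [← k3 p hp]
    show g • p = j • (j⁻¹ * g) • p
    rw [mul_smul, smul_inv_smul]

end groups

end Pool.Agent.P.MP_f1a348_lc.GX
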