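import Pool.Agent.P.MP_f1a348_lc.GX.DefsS
import Pool.Agent.P.MP_f1a348_lc.GX.TSYS

/-! Step JOH. -/

set_option autoImplicit false
set_option linter.unusedSectionVars false

namespace Pool.Agent.P.MP_f1a348_lc.GX

open Equiv Finset
open scoped Classical
variable {Y : Type} [DecidableEq Y] {Γ Γ' : Sy Y}

namespace JOHx

theorem step {C : Finset Y} {d : ℕ} (h : Γ.Tr C (d + 1)) (hc : d + 1 ≤ C.card) : Γ.Tr C d := by
  have ex : ∀ u : Fin d → Y, ∃ x ∈ C, x ∉ Set.range u := fun u => by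
    obtain ⟨x, hx, h'⟩ := exists_mem_notMem_of_card_lt_card (s := univ.image u) (t := C)
      (card_image_le.trans_lt (by rw [card_univ, Fintype.card_fin]; omega))
    exact ⟨x, hx, fun ⟨i, e⟩ => h' (mem_image.2 ⟨i, mem_univ _, e⟩)⟩
  intro u v hu hv mu mv
  obtain ⟨x, hx, hx'⟩ := ex u
  obtain ⟨y, hy, hy'⟩ := ex v
  obtain ⟨f, h1, h2⟩ := h (Fin.cons x u) (Fin.cons y v) (Fin.cons_injective_iff.2 ⟨hx', hu⟩)
    (Fin.cons_injective_iff.2 ⟨hy', hv⟩) (Fin.cases hx mu) (Fin.cases hy mv)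
  refine ⟨f, Γ.loc h1 (fun z hz => ?_) fun _ _ => rfl, fun i => h2 i.succ⟩
  obtain ⟨i, -, rfl⟩ := mem_image.1 hz
  exact mem_image.2 ⟨i.succ, mem_univ _, rfl⟩

theorem anti {C : Finset Y} {d d' : ℕ} (h : Γ.Tr C d) (hd : d' ≤ d) (hc : d ≤ C.card) :
    Γ.Tr C d' := by
  induction d, hd using Nat.le_induction with
  | base => exact h
  | succ d _ ih => exact ih (step h hc) (by omega)

theorem bij {T T' : Finset Y} (h : T.card = T'.card) {v v' : Y} (hv : v ∈ T) (hv' : v' ∈ T') :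
    ∃ φ : T ≃ T', φ ⟨v, hv⟩ = ⟨v', hv'⟩ :=
  ⟨(equivOfCardEq h).trans (swap (equivOfCardEq h ⟨v, hv⟩) ⟨v', hv'⟩), by simp⟩

theorem move {τ : ℕ} (hM : τ + 1 ≤ Γ.M) {A C T T' : Finset Y} (hA : Γ.Inv1 A) (hτc : τ ≤ C.card)
    (ht : Γ.Tr C τ) (hT : T ⊆ C) (hT' : T' ⊆ C) (hk : T.card ≤ τ) (φ : T ≃ T') {z : Y}
    (hz : z ∈ A) : ∃ z' ∈ A, ∀ x : T, Γ.E2 z x z' (φ x) := by
  obtain ⟨f, h1, h2⟩ := anti ht hk hτc (fun i => (T.equivFin.symm i : Y))
    (fun i => (φ (T.equivFin.symm i) : Y)) (Subtype.val_injective.comp T.equivFin.symm.injective)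
    (Subtype.val_injective.comp (φ.injective.comp T.equivFin.symm.injective))
    (fun i => hT (T.equivFin.symm i).2) fun i => hT' (φ (T.equivFin.symm i)).2
  have h3 : Γ.L T f := Γ.loc h1 (fun x hx => mem_image.2
    ⟨T.equivFin ⟨x, hx⟩, mem_univ _, by simp⟩) fun _ _ => rfl
  obtain ⟨β, -, h4⟩ := Γ.ext h3 (by omega)
  obtain ⟨g, g1, -, g2⟩ := h4 z (hA.1 hz)
  refine ⟨g z, hA.2 _ _ (Sy.e1_of_L g2 (mem_insert_self _ _)) hz, fun x => ?_⟩
  have h5 := h2 (T.equivFin x)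
  simp only [symm_apply_apply] at h5
  rw [← h5, ← g1 x x.2]
  exact Sy.e2_of_L g2 (mem_insert_self _ _) (mem_insert_of_mem x.2)

theorem four {e c : ℕ} (h : 4 * e ≤ c) (k : ℕ) : 4 ^ k * e.choose k ≤ c.choose k := by
  have h1 : 4 ^ k * e.descFactorial k ≤ c.descFactorial k := by
    induction k with
    | zero => simp
    | succ k ih =>
      rw [Nat.descFactorial_succ, Nat.descFactorial_succ, pow_succ,
        show 4 ^ k * 4 * ((e - k) * e.descFactorial k) =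
          4 * (e - k) * (4 ^ k * e.descFactorial k) by ring]
      exact Nat.mul_le_mul (by omega) ih
  rw [Nat.descFactorial_eq_factorial_mul_choose, Nat.descFactorial_eq_factorial_mul_choose,
    mul_left_comm] at h1
  exact Nat.le_of_mul_le_mul_left h1 k.factorial_pos

end JOHx

theorem Sy.john {τ Λ e : ℕ} (hM : τ + 1 ≤ Γ.M) (hτ : Λ + 1 ≤ τ) {A C : Finset Y}
    (hA : Γ.Cls A) (hC : Γ.Cls C) (hc : A.card ≤ 2 ^ Λ) (hτc : τ ≤ C.card) (ht : Γ.Tr C τ)
    {N : Y → Y → Prop} (hN : Γ.Inv2 N) (hs : Sy.Sep A C N) (h1 : 1 ≤ e) (h4 : 4 * e < C.card)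
    (he : ∀ z ∈ A, (C.filter (N z)).card = e) :
    A.card = C.card.choose e ∧ ∃ z0 v0, Γ.John A C z0 v0 e := by
  obtain ⟨z0, hz0⟩ := hA.1
  have cov : ∀ T ⊆ C, T.card ≤ e → T.card ≤ τ → ∃ z ∈ A, T ⊆ C.filter (N z) := by
    intro T hT k1 k2
    obtain ⟨S, s1, s2⟩ := exists_subset_card_eq (k1.trans_eq (he z0 hz0).symm)
    obtain ⟨z, hz, h⟩ := JOHx.move hM hA.2.1 hτc ht (s1.trans (filter_subset _ _)) hT
      (s2.trans_le k2) (equivOfCardEq s2) hz0
    refine ⟨z, hz, fun x hx => mem_filter.2 ⟨hT hx, ?_⟩⟩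
    have := h ((equivOfCardEq s2).symm ⟨x, hx⟩)
    rw [apply_symm_apply] at this
    exact hN.2 _ _ _ _ this (mem_filter.1 (s1 (Subtype.prop _))).2
  have lt : e ≤ τ := by
    by_contra h
    have k1 : powersetCard τ C ⊆ A.biUnion fun z => powersetCard τ (C.filter (N z)) := by
      intro T hT
      obtain ⟨t1, t2⟩ := mem_powersetCard.1 hT
      obtain ⟨z, hz, h'⟩ := cov T t1 (by omega) t2.le
      exact mem_biUnion.2 ⟨z, hz, mem_powersetCard.2 ⟨h', t2⟩⟩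
    have k2 := (card_le_card k1).trans (card_biUnion_le_card_mul _ _ (e.choose τ) fun z hz => by
      rw [card_powersetCard, he z hz])
    rw [card_powersetCard] at k2
    have k3 := Nat.le_of_mul_le_mul_right ((JOHx.four h4.le τ).trans k2)
      (Nat.choose_pos (by omega))
    have k4 : 2 ^ Λ < 2 ^ τ := Nat.pow_lt_pow_right one_lt_two hτ
    have k5 : 2 ^ τ ≤ 4 ^ τ := Nat.pow_le_pow_left (by norm_num) _
    omega
  have inj : ∀ z ∈ A, ∀ z' ∈ A, C.filter (N z) = C.filter (N z') → z = z' := by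
    intro z hz z' hz' h
    by_contra hne
    obtain ⟨v, hv, h'⟩ := hs z hz z' hz' hne
    exact h' (by simpa [hv] using Finset.ext_iff.1 h v)
  have sur : ∀ T ⊆ C, T.card = e → ∃ z ∈ A, C.filter (N z) = T := by
    intro T hT k
    obtain ⟨z, hz, h⟩ := cov T hT k.le (k.trans_le lt)
    exact ⟨z, hz, (eq_of_subset_of_card_le h (by rw [he z hz, k])).symm⟩
  obtain ⟨v0, hv0⟩ : (C.filter (N z0)).Nonempty := card_pos.1 (by rw [he z0 hz0]; exact h1)
  have key : ∀ z ∈ A, C.filter (Γ.E2 z0 v0 z) = C.filter (N z) := by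
    intro z hz
    refine filter_congr fun v hv => ⟨fun h => hN.2 _ _ _ _ h (mem_filter.1 hv0).2, fun h => ?_⟩
    obtain ⟨φ, hφ⟩ := JOHx.bij ((he z0 hz0).trans (he z hz).symm) hv0 (mem_filter.2 ⟨hv, h⟩)
    obtain ⟨z', hz', h'⟩ := JOHx.move hM hA.2.1 hτc ht (filter_subset _ _) (filter_subset _ _)
      ((he z0 hz0).trans_le lt) φ hz0
    have k : z = z' := inj z hz z' hz' (eq_of_subset_of_card_le (fun x hx => by
      have := h' (φ.symm ⟨x, hx⟩)
      rw [apply_symm_apply] at this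
      exact mem_filter.2 ⟨(mem_filter.1 hx).1,
        hN.2 _ _ _ _ this (mem_filter.1 (Subtype.prop _)).2⟩) (by rw [he z hz, he z' hz']))
    have := h' ⟨v0, hv0⟩
    rwa [hφ, ← k] at this
  refine ⟨?_, z0, v0, hC, hz0, (mem_filter.1 hv0).1, fun z hz => by rw [key z hz, he z hz],
    fun z hz z' hz' h => inj z hz z' hz' (by rwa [key z hz, key z' hz'] at h), fun T hT k => ?_⟩
  · rw [← card_powersetCard]
    refine card_bij (fun z _ => C.filter (N z))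
      (fun z hz => mem_powersetCard.2 ⟨filter_subset _ _, he z hz⟩) inj fun T hT => ?_
    obtain ⟨z, hz, h⟩ := sur T (mem_powersetCard.1 hT).1 (mem_powersetCard.1 hT).2
    exact ⟨z, hz, h⟩
  · obtain ⟨z, hz, h⟩ := sur T hT k
    exact ⟨z, hz, (key z hz).trans h⟩

theorem Sy.Tr.anti {C : Finset Y} {d d' : ℕ} (h : Γ.Tr C d) (hd : d' ≤ d) (hc : d ≤ C.card) :
    Γ.Tr C d' := JOHx.anti h hd hc

theorem Sy.John.full {τ : ℕ} (hM : 2 * τ ≤ Γ.M) {A C : Finset Y} (hA : Γ.Cls A) {z0 v0 : Y}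
    (h : Γ.John A C z0 v0 1) (ht : Γ.Tr C τ) : Γ.Tr A τ := by
  have ex : ∀ z, ∃ c, z ∈ A → C.filter (Γ.E2 z0 v0 z) = {c} := fun z => by
    by_cases hz : z ∈ A
    · exact (card_eq_one.1 (h.card z hz)).imp fun _ e _ => e
    · exact ⟨z, fun e => absurd e hz⟩
  choose c hc using ex
  have mem : ∀ z ∈ A, c z ∈ C ∧ Γ.E2 z0 v0 z (c z) := fun z hz =>
    mem_filter.1 (hc z hz ▸ mem_singleton_self _)
  have inj : ∀ z ∈ A, ∀ z' ∈ A, c z = c z' → z = z' := fun z hz z' hz' e =>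
    h.inj z hz z' hz' (by rw [hc z hz, hc z' hz', e])
  intro u v hu hv mu mv
  obtain ⟨f, f1, f2⟩ := ht (fun i => c (u i)) (fun i => c (v i))
    (fun i j e => hu (inj _ (mu i) _ (mu j) e)) (fun i j e => hv (inj _ (mv i) _ (mv j) e))
    (fun i => (mem _ (mu i)).1) fun i => (mem _ (mv i)).1
  have cl : ∀ w : Fin τ → Y, (univ.image w).card ≤ τ := fun w =>
    card_image_le.trans_eq (by rw [card_univ, Fintype.card_fin])
  obtain ⟨g, g1, g2⟩ := Sy.ext_set (B := univ.image u) f1 (fun x hx => by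
      obtain ⟨i, -, rfl⟩ := mem_image.1 hx
      exact hA.2.1.1 (mu i))
    ((card_union_le _ _).trans ((Nat.add_le_add (cl _) (cl _)).trans (by omega)))
  refine ⟨g, Γ.loc g2 subset_union_right fun _ _ => rfl, fun i => ?_⟩
  have a1 : u i ∈ (univ.image fun i => c (u i)) ∪ univ.image u :=
    mem_union_right _ (mem_image_of_mem _ (mem_univ i))
  have a2 : c (u i) ∈ univ.image fun i => c (u i) := mem_image.2 ⟨i, mem_univ i, rfl⟩
  have a3 : g (u i) ∈ A := hA.2.1.2 _ _ (Sy.e1_of_L g2 a1) (mu i)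
  have a4 := (mem _ (mu i)).2.trans (Sy.e2_of_L g2 a1 (mem_union_left _ a2))
  rw [g1 _ a2, f2 i] at a4
  have a5 : c (v i) ∈ C.filter (Γ.E2 z0 v0 (g (u i))) := mem_filter.2 ⟨(mem _ (mv i)).1, a4⟩
  rw [hc _ a3, mem_singleton] at a5
  exact inj _ a3 _ (mv i) a5.symm

end Pool.Agent.P.MP_f1a348_lc.GX
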