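import Pool.Agent.P.MP_f1a348_lc.TO.Rec
import Pool.Agent.Lib.Helper47.PTMore

/-! Graph isomorphism: the engine that runs a recursive search with a bounded amount of fuel. -/

set_option autoImplicit false
set_option linter.unusedSectionVars false

namespace Pool.Agent.P.MP_f1a348_lc.GX

open Pool.Agent.Lib.Helper47 Pool.Agent.P.MP_f1a348_lc.TO

/-- A frame `f` runs through the list `todo`; for each item it may call another frame (with a flag
that asks for a free call) and updates its state with the answer (`none` is a failure). -/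
structure Eng (C F T S A : Type) where
  todo : C → F → List T
  ini : C → F → S
  call : C → F → T → S → Option (Bool × F)
  upd : C → F → T → S → Option A → S
  fin : C → F → S → Option A

/-- the context, the bound for the sizes, the overhead of a call, the number of free calls -/
abbrev Cfg (C : Type) : Type := C × ℕ × ℕ × ℕ

namespace Eng

variable {C F T S A : Type} [Enc F] [Enc T] [Enc S] (E : Eng C F T S A) (k : Cfg C)

/-- the price of a call that is not free -/
def cost (f : F) : ℕ := (E.todo k.1 f).length.bits.length + k.2.2.1 + 1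

/-- the frame is small and can pay -/
def alive (φ m : ℕ) (f : F) : Bool :=
  Nat.blt 0 m && Nat.ble (size f) k.2.1 && Nat.ble (size (E.todo k.1 f)) k.2.1 &&
    Nat.ble (E.cost k f) φ

theorem alive_iff {φ m : ℕ} {f : F} : E.alive k φ m f = true ↔
    0 < m ∧ size f ≤ k.2.1 ∧ size (E.todo k.1 f) ≤ k.2.1 ∧ E.cost k f ≤ φ := by
  simp [alive, Nat.blt_eq, and_assoc]

/-- large states fail -/
def grd (B : ℕ) (s : S) : Option S := bif Nat.ble (size s) B then some s else none

theorem grd_of {B : ℕ} {s : S} (h : size s ≤ B) : grd B s = some s := by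
  rw [grd, Nat.ble_eq_true_of_le h]; rfl

theorem grd_eq {B : ℕ} {s s' : S} (h : grd B s = some s') : s' = s ∧ size s ≤ B := by
  unfold grd at h
  cases e : Nat.ble (size s) B
  · simp [e] at h
  · exact ⟨by simpa [e] using h.symm, Nat.le_of_ble_eq_true e⟩

/-- one item; `e1` answers the free call, `e2` the others -/
def stp (f : F) (e1 e2 : F → Option A) (p : Bool × Option S) (t : T) : Bool × Option S :=
  p.2.elim p (fun s => (E.call k.1 f t s).elim p (fun g =>
    (p.1 || g.1, grd k.2.1 (E.upd k.1 f t s (bif g.1 && !p.1 then e1 g.2 else e2 g.2)))))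

/-- the answer of the frame `f` with fuel `φ` and `m` free calls -/
def ev (φ m : ℕ) (f : F) : Option A :=
  if _h : E.alive k φ m f = true then
    ((E.todo k.1 f).foldl (E.stp k f (fun g => ev φ (m - 1) g)
      (fun g => ev (φ - E.cost k f) k.2.2.2 g)) (false, grd k.2.1 (E.ini k.1 f))).2.bind
        (E.fin k.1 f)
  else none
termination_by (φ, m)
decreasing_by
  · simp only [alive, Bool.and_eq_true, Nat.blt_eq, Nat.ble_eq] at _h
    exact Prod.Lex.right _ (by omega)
  · simp only [alive, Bool.and_eq_true, Nat.blt_eq, Nat.ble_eq] at _h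
    have : 0 < E.cost k f := Nat.succ_pos _
    exact Prod.Lex.left _ _ (by omega)

variable {E k}

theorem ev_dead {φ m : ℕ} {f : F} (h : E.alive k φ m f = false) : E.ev k φ m f = none := by
  rw [ev, dif_neg (by simp [h])]

theorem ev_alive {φ m : ℕ} {f : F} (h : E.alive k φ m f = true) : E.ev k φ m f =
    ((E.todo k.1 f).foldl (E.stp k f (E.ev k φ (m - 1)) (E.ev k (φ - E.cost k f) k.2.2.2))
      (false, grd k.2.1 (E.ini k.1 f))).2.bind (E.fin k.1 f) := by
  rw [ev, dif_pos h]

theorem foldl_none (f : F) (e1 e2 : F → Option A) (b : Bool) (L : List T) :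
    L.foldl (E.stp k f e1 e2) (b, none) = (b, none) := by
  induction L with
  | nil => rfl
  | cons t L ih => exact ih

/-- The soundness rule: `Inv f u s` describes the state after the items `u`. -/
theorem sound (Pre : F → Prop) (Post : F → A → Prop) (Inv : F → List T → S → Prop)
    (h0 : ∀ f, Pre f → Inv f [] (E.ini k.1 f))
    (h1 : ∀ f u t v s, Pre f → E.todo k.1 f = u ++ t :: v → Inv f u s →
      E.call k.1 f t s = none → Inv f (u ++ [t]) s)
    (h2 : ∀ f u t v s b g, Pre f → E.todo k.1 f = u ++ t :: v → Inv f u s →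
      E.call k.1 f t s = some (b, g) →
      Pre g ∧ ∀ r : Option A, (∀ a, r = some a → Post g a) → Inv f (u ++ [t]) (E.upd k.1 f t s r))
    (h3 : ∀ f s a, Pre f → Inv f (E.todo k.1 f) s → E.fin k.1 f s = some a → Post f a)
    (φ m : ℕ) (f : F) (a : A) (hf : Pre f) (h : E.ev k φ m f = some a) : Post f a := by
  induction φ using Nat.strong_induction_on generalizing m f a with
  | _ φ i1 =>
  induction m using Nat.strong_induction_on generalizing f a with
  | _ m i2 =>
  cases e : E.alive k φ m f with
  | false => rw [ev_dead e] at h; cases h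
  | true =>
    have ha := (E.alive_iff k).1 e
    have hc : 0 < E.cost k f := Nat.succ_pos _
    rw [ev_alive e] at h
    have key : ∀ u v, E.todo k.1 f = u ++ v → ∀ s, (u.foldl (E.stp k f (E.ev k φ (m - 1))
        (E.ev k (φ - E.cost k f) k.2.2.2)) (false, grd k.2.1 (E.ini k.1 f))).2 = some s →
        Inv f u s := by
      intro u
      induction u using List.reverseRecOn with
      | nil => intro v _ s hs; rw [(grd_eq hs).1]; exact h0 f hf
      | append_singleton u t ih =>
        intro v hv s hs
        have hv' : E.todo k.1 f = u ++ t :: v := by simpa using hv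
        have ih := ih _ hv'
        rw [List.foldl_append, List.foldl_cons, List.foldl_nil] at hs
        generalize u.foldl _ _ = p at ih hs
        obtain ⟨b, _ | s0⟩ := p
        · cases hs
        · have i0 := ih s0 rfl
          cases ec : E.call k.1 f t s0 with
          | none =>
            simp only [stp, Option.elim, ec] at hs
            obtain rfl : s0 = s := Option.some.inj hs
            exact h1 f u t v s0 hf hv' i0 ec
          | some g =>
            simp only [stp, Option.elim, ec] at hs
            obtain ⟨a1, a2⟩ := h2 f u t v s0 g.1 g.2 hf hv' i0 ec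
            rw [(grd_eq hs).1]
            refine a2 _ (fun a ea => ?_)
            cases eb : (g.1 && !b)
            · rw [eb] at ea; exact i1 _ (by omega) _ _ _ a1 ea
            · rw [eb] at ea; exact i2 _ (by omega) _ _ a1 ea
    obtain ⟨s, h4, h5⟩ := Option.bind_eq_some_iff.1 h
    exact h3 f s a hf (key _ [] (by simp) s h4) h5

/-- The halting rule: `J u b s` describes the state after the items `u`; `b` tells whether the free
call has been asked for. -/
theorem halt {φ m : ℕ} {f : F} (h : E.alive k φ m f = true) (J : List T → Bool → S → Prop)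
    (h0 : size (E.ini k.1 f) ≤ k.2.1 ∧ J [] false (E.ini k.1 f))
    (h1 : ∀ u t v b s, E.todo k.1 f = u ++ t :: v → J u b s → E.call k.1 f t s = none →
      J (u ++ [t]) b s)
    (h2 : ∀ u t v b s fr g r, E.todo k.1 f = u ++ t :: v → J u b s →
      E.call k.1 f t s = some (fr, g) →
      r = (bif fr && !b then E.ev k φ (m - 1) g else E.ev k (φ - E.cost k f) k.2.2.2 g) →
      size (E.upd k.1 f t s r) ≤ k.2.1 ∧ J (u ++ [t]) (b || fr) (E.upd k.1 f t s r)) :
    ∃ b s, J (E.todo k.1 f) b s ∧ E.ev k φ m f = E.fin k.1 f s := by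
  have key : ∀ u v, E.todo k.1 f = u ++ v → ∃ b s, J u b s ∧ u.foldl (E.stp k f (E.ev k φ (m - 1))
      (E.ev k (φ - E.cost k f) k.2.2.2)) (false, grd k.2.1 (E.ini k.1 f)) = (b, some s) := by
    intro u
    induction u using List.reverseRecOn with
    | nil => exact fun _ _ => ⟨false, _, h0.2, by rw [grd_of h0.1]; rfl⟩
    | append_singleton u t ih =>
      intro v hv
      have hv' : E.todo k.1 f = u ++ t :: v := by simpa using hv
      obtain ⟨b, s, a1, a2⟩ := ih _ hv'
      rw [List.foldl_append, a2, List.foldl_cons, List.foldl_nil]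
      cases ec : E.call k.1 f t s with
      | none => exact ⟨b, s, h1 u t v b s hv' a1 ec, by simp [stp, ec]⟩
      | some g =>
        obtain ⟨a3, a4⟩ := h2 u t v b s g.1 g.2 _ hv' a1 ec rfl
        exact ⟨_, _, a4, by simp only [stp, Option.elim, ec, grd_of a3]⟩
  obtain ⟨b, s, a1, a2⟩ := key _ [] (List.append_nil _).symm
  exact ⟨b, s, a1, by rw [ev_alive h, a2]; rfl⟩

/-! ### the machine -/

/-- fuel, free calls, the flag, the frame, the remaining items, the state -/
abbrev Wk (F T S : Type) : Type := ℕ × ℕ × Bool × Option F × List T × Option S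

variable (E k)

/-- a frame that fails at once -/
def dead : Wk F T S := (0, 0, false, none, [], none)

/-- open a frame -/
def start (φ m : ℕ) (f : F) : Wk F T S :=
  bif E.alive k φ m f then (φ, m, false, some f, E.todo k.1 f, grd k.2.1 (E.ini k.1 f)) else dead

/-- the frame, the next item and the state -/
def cur (w : Wk F T S) : Option (F × T × S) :=
  w.2.2.2.1.bind (fun f => w.2.2.2.2.1.head?.bind (fun t => w.2.2.2.2.2.map (fun s => (f, t, s))))

/-- the engine as a recursive procedure -/
def rp : RP (Wk F T S) (Option A) where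
  ask w := (cur w).map (fun x => (E.call k.1 x.1 x.2.1 x.2.2).elim dead (fun g =>
    bif g.1 && !w.2.2.1 then E.start k w.1 (w.2.1 - 1) g.2
    else E.start k (w.1 - E.cost k x.1) k.2.2.2 g.2))
  upd w r := (cur w).elim w (fun x => (E.call k.1 x.1 x.2.1 x.2.2).elim
    (w.1, w.2.1, w.2.2.1, w.2.2.2.1, w.2.2.2.2.1.tail, w.2.2.2.2.2)
    (fun g => (w.1, w.2.1, w.2.2.1 || g.1, w.2.2.2.1, w.2.2.2.2.1.tail,
      grd k.2.1 (E.upd k.1 x.1 x.2.1 x.2.2 r))))
  out w := w.2.2.2.1.bind (fun f => w.2.2.2.2.2.bind (E.fin k.1 f))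

/-- run the engine on the budget `pad` -/
def run (pad : List Unit) (φ : ℕ) (f : F) : Option A :=
  ((E.rp k).run pad (E.start k φ k.2.2.2 f)).bind id

variable {E k}

/-- the frames of the machine are small -/
def Sm (k : Cfg C) (φ : ℕ) (w : Wk F T S) : Prop :=
  w.1 ≤ φ ∧ w.2.1 ≤ k.2.2.2 ∧ size w.2.2.2.1 ≤ k.2.1 + 2 ∧ size w.2.2.2.2.1 ≤ k.2.1 + 1 ∧
    size w.2.2.2.2.2 ≤ k.2.1 + 2

theorem size_grd (B : ℕ) (s : S) : size (grd B s) ≤ B + 2 := by
  cases e : grd B s with
  | none => simp
  | some s' =>
    obtain ⟨rfl, h⟩ := grd_eq e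
    simp only [size_some]; omega

theorem ev_dead_frame (φ : ℕ) : (E.rp k).Ev (Sm k φ) dead none 1 :=
  RP.Ev.done (P := E.rp k) (s := dead) ⟨Nat.zero_le _, Nat.zero_le _, by simp [dead],
    by simp [dead], by simp [dead]⟩ rfl

theorem evs (φ0 : ℕ) (φ m : ℕ) (f : F) (h1 : φ ≤ φ0) (h2 : m ≤ k.2.2.2) :
    ∃ n, (E.rp k).Ev (Sm k φ0) (E.start k φ m f) (E.ev k φ m f) n ∧
      (k.2.2.2 + 2 ≤ 2 ^ k.2.2.1 → n ≤ (m + 1) * 2 ^ (φ + 1)) := by
  induction φ using Nat.strong_induction_on generalizing m f with
  | _ φ i1 =>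
  induction m using Nat.strong_induction_on generalizing f with
  | _ m i2 =>
  cases e : E.alive k φ m f with
  | false =>
    refine ⟨1, ?_, fun _ => Nat.mul_pos (Nat.succ_pos _) (Nat.two_pow_pos _)⟩
    rw [ev_dead e, start, e]
    exact ev_dead_frame φ0
  | true =>
    have ha := (E.alive_iff k).1 e
    have hc : 0 < E.cost k f := Nat.succ_pos _
    have key : ∀ (L : List T) (b : Bool) (o : Option S), size L ≤ k.2.1 + 1 → size o ≤ k.2.1 + 2 →
        ∃ n, (E.rp k).Ev (Sm k φ0) (φ, m, b, some f, L, o) ((L.foldl (E.stp k f (E.ev k φ (m - 1))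
          (E.ev k (φ - E.cost k f) k.2.2.2)) (b, o)).2.bind (E.fin k.1 f)) n ∧
          (k.2.2.2 + 2 ≤ 2 ^ k.2.2.1 → n ≤ 1 + L.length *
            (1 + (k.2.2.2 + 1) * 2 ^ (φ - E.cost k f + 1)) + (bif b then 0 else m * 2 ^ (φ + 1))) := by
      intro L
      induction L with
      | nil =>
        intro b o s1 s2
        exact ⟨1, RP.Ev.done (P := E.rp k) (s := (φ, m, b, some f, [], o))
          ⟨h1, h2, by simp only [size_some]; omega, s1, s2⟩ rfl, fun _ => by omega⟩
      | cons t L ih =>
        intro b o s1 s2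
        have ok : Sm k φ0 ((φ, m, b, some f, t :: L, o) : Wk F T S) :=
          ⟨h1, h2, by simp only [size_some]; omega, s1, s2⟩
        have s3 : size L ≤ k.2.1 + 1 := by rw [size_cons] at s1; omega
        have p1 : 0 < (k.2.2.2 + 1) * 2 ^ (φ - E.cost k f + 1) :=
          Nat.mul_pos (Nat.succ_pos _) (Nat.two_pow_pos _)
        cases o with
        | none =>
          refine ⟨1, ?_, fun _ => by omega⟩
          rw [foldl_none]
          exact RP.Ev.done (P := E.rp k) (s := (φ, m, b, some f, t :: L, none)) ok rfl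
        | some s =>
          rw [List.foldl_cons, List.length_cons, Nat.succ_mul]
          cases ec : E.call k.1 f t s with
          | none =>
            obtain ⟨n, a1, a2⟩ := ih b (some s) s3 s2
            refine ⟨1 + n + 1, ?_, fun hk => by have := a2 hk; omega⟩
            have e1 : E.stp k f (E.ev k φ (m - 1)) (E.ev k (φ - E.cost k f) k.2.2.2) (b, some s) t =
                (b, some s) := by simp [stp, ec]
            rw [e1]
            refine RP.Ev.call (P := E.rp k) ok (by simp [rp, cur, ec]) (ev_dead_frame φ0) ?_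
            simpa [rp, cur, ec] using a1
          | some g =>
            cases eb : (g.1 && !b) with
            | false =>
              obtain ⟨n1, b1, b2⟩ := i1 (φ - E.cost k f) (by omega) k.2.2.2 g.2 (by omega) le_rfl
              obtain ⟨n, a1, a2⟩ := ih (b || g.1) (grd k.2.1 (E.upd k.1 f t s
                (E.ev k (φ - E.cost k f) k.2.2.2 g.2))) s3 (size_grd _ _)
              have eb' : (b || g.1) = b := by
                revert eb; cases g.1 <;> cases b <;> simp
              refine ⟨n1 + n + 1, ?_, fun hk => by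
                have := a2 hk; have := b2 hk; rw [eb'] at *; omega⟩
              have e1 : E.stp k f (E.ev k φ (m - 1)) (E.ev k (φ - E.cost k f) k.2.2.2)
                  (b, some s) t = (b || g.1, grd k.2.1 (E.upd k.1 f t s
                    (E.ev k (φ - E.cost k f) k.2.2.2 g.2))) := by simp [stp, ec, eb]
              rw [e1]
              refine RP.Ev.call (P := E.rp k) ok (by simp [rp, cur, ec, eb]) b1 ?_
              simpa [rp, cur, ec] using a1
            | true =>
              obtain ⟨n1, b1, b2⟩ := i2 (m - 1) (by omega) g.2 (by omega)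
              obtain ⟨n, a1, a2⟩ := ih (b || g.1) (grd k.2.1 (E.upd k.1 f t s
                (E.ev k φ (m - 1) g.2))) s3 (size_grd _ _)
              have eb' : (b || g.1) = true ∧ b = false := by
                revert eb; cases g.1 <;> cases b <;> simp
              refine ⟨n1 + n + 1, ?_, fun hk => by
                have h3 := a2 hk
                have h4 := b2 hk
                rw [eb'.1] at h3
                rw [show m - 1 + 1 = m by omega] at h4
                rw [eb'.2]
                simp only [cond_true, cond_false] at h3 ⊢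
                omega⟩
              have e1 : E.stp k f (E.ev k φ (m - 1)) (E.ev k (φ - E.cost k f) k.2.2.2)
                  (b, some s) t = (b || g.1, grd k.2.1 (E.upd k.1 f t s
                    (E.ev k φ (m - 1) g.2))) := by simp [stp, ec, eb]
              rw [e1]
              refine RP.Ev.call (P := E.rp k) ok (by simp [rp, cur, ec, eb]) b1 ?_
              simpa [rp, cur, ec] using a1
    obtain ⟨n, a1, a2⟩ := key (E.todo k.1 f) false _ (by omega) (size_grd k.2.1 (E.ini k.1 f))
    refine ⟨n, by rw [ev_alive e, start, e]; exact a1, fun hk => (a2 hk).trans ?_⟩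
    have l1 : (E.todo k.1 f).length < 2 ^ (E.todo k.1 f).length.bits.length :=
      lt_two_pow_length_bits _
    obtain ⟨j, hj⟩ : ∃ j, φ = j + E.cost k f := ⟨φ - E.cost k f, by omega⟩
    have l2 : 2 ^ (φ + 1) = 2 ^ (E.todo k.1 f).length.bits.length * (2 ^ k.2.2.1 * 2 ^ (j + 1)) * 2 := by
      rw [hj, cost, ← pow_add, ← pow_add, ← pow_succ]
      congr 1; omega
    rw [show φ - E.cost k f = j by omega]
    have l3 : 0 < 2 ^ (j + 1) := Nat.two_pow_pos _
    have l4 : 1 + (k.2.2.2 + 1) * 2 ^ (j + 1) ≤ 2 ^ k.2.2.1 * 2 ^ (j + 1) := by nlinarith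
    have l5 := Nat.mul_le_mul l1.le l4
    have l6 : 0 < 2 ^ (E.todo k.1 f).length.bits.length * (2 ^ k.2.2.1 * 2 ^ (j + 1)) := by
      positivity
    simp only [cond_false]
    rw [Nat.succ_mul m]
    omega

theorem run_sound {pad : List Unit} {φ : ℕ} {f : F} {a : A} (h : E.run k pad φ f = some a) :
    E.ev k φ k.2.2.2 f = some a := by
  obtain ⟨r, h1, h2⟩ := Option.bind_eq_some_iff.1 h
  obtain ⟨n, e⟩ := RP.run_sound h1
  obtain ⟨n', e', _⟩ := evs (E := E) (k := k) φ φ k.2.2.2 f le_rfl le_rfl
  rw [← (e.det e').1]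
  exact h2

theorem run_complete {pad : List Unit} {φ : ℕ} {f : F} (hk : k.2.2.2 + 2 ≤ 2 ^ k.2.2.1)
    (h1 : (k.2.2.2 + 1) * 2 ^ (φ + 1) ≤ pad.length)
    (h2 : 4 * φ + 4 * k.2.2.2 + 3 * k.2.1 + 20 ≤ pad.length) :
    E.run k pad φ f = E.ev k φ k.2.2.2 f := by
  obtain ⟨n, e, hn⟩ := evs (E := E) (k := k) φ φ k.2.2.2 f le_rfl le_rfl
  have := RP.run_complete (pad := pad) (B := 4 * φ + 4 * k.2.2.2 + 3 * k.2.1 + 20)
    (e.mono fun w hw => by
      obtain ⟨a, b, c, d, e, g⟩ := w
      obtain ⟨a1, a2, a3, a4, a5⟩ := hw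
      have := size_nat_le a
      have := size_nat_le b
      have := size_bool c
      simp only [size_pair] at *
      omega) ((hn hk).trans h1) h2
  rw [run, this]; rfl

/-- all parts run in polynomial time -/
structure Poly [Enc C] [Enc A] (E : Eng C F T S A) : Prop where
  todo : PT (fun x : C × F => E.todo x.1 x.2)
  ini : PT (fun x : C × F => E.ini x.1 x.2)
  call : PT (fun x : C × F × T × S => E.call x.1 x.2.1 x.2.2.1 x.2.2.2)
  upd : PT (fun x : C × F × T × S × Option A => E.upd x.1 x.2.1 x.2.2.1 x.2.2.2.1 x.2.2.2.2)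
  fin : PT (fun x : C × F × S => E.fin x.1 x.2.1 x.2.2)

section pt
variable [Enc C] [Enc A] {α : Type} [Enc α]

@[fun_prop] theorem pt_grd {B : α → ℕ} {s : α → S} (hB : PT B) (hs : PT s) :
    PT (fun a => grd (B a) (s a)) := by unfold grd; fun_prop

theorem pt_cost (h : E.Poly) {k : α → Cfg C} {f : α → F} (hk : PT k) (hf : PT f) :
    PT (fun a => E.cost (k a) (f a)) := by
  have := h.todo.comp (g := fun a => ((k a).1, f a)) (by fun_prop)
  unfold cost; fun_prop

theorem pt_start (h : E.Poly) {k : α → Cfg C} {φ m : α → ℕ} {f : α → F} (hk : PT k) (h1 : PT φ)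
    (h2 : PT m) (hf : PT f) : PT (fun a => E.start (k a) (φ a) (m a) (f a)) := by
  have a1 := h.todo.comp (g := fun a => ((k a).1, f a)) (by fun_prop)
  have a2 := h.ini.comp (g := fun a => ((k a).1, f a)) (by fun_prop)
  have a3 := pt_cost h hk hf
  unfold start alive
  fun_prop

@[fun_prop] theorem pt_cur {w : α → Wk F T S} (hw : PT w) : PT (fun a => cur (w a)) := by
  unfold cur; fun_prop

theorem pt_run (h : E.Poly) {k : α → Cfg C} {pad : α → List Unit} {φ : α → ℕ} {f : α → F}
    (hk : PT k) (hp : PT pad) (h1 : PT φ) (hf : PT f) :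
    PT (fun a => E.run (k a) (pad a) (φ a) (f a)) := by
  refine PT.optBind (RP.pt_run (P := fun a => E.rp (k a)) ?_ ?_ ?_ hp
    (pt_start h hk h1 (by fun_prop) hf)) (by fun_prop)
  · refine PT.optMap (by fun_prop) (PT.optElim (h.call.comp
      (g := fun q : (α × Wk F T S) × F × T × S => ((k q.1.1).1, q.2)) (by fun_prop))
      (PT.const _) (PT.cond (by fun_prop) ?_ ?_))
    · exact pt_start h (by fun_prop) (by fun_prop) (by fun_prop) (by fun_prop)
    · exact pt_start h (by fun_prop) (PT.sub (by fun_prop) (pt_cost h (by fun_prop) (by fun_prop)))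
        (by fun_prop) (by fun_prop)
  · refine PT.optElim (by fun_prop) (by fun_prop) (PT.optElim (h.call.comp
      (g := fun q : (α × Wk F T S × Option A) × F × T × S => ((k q.1.1).1, q.2)) (by fun_prop))
      (by fun_prop) ?_)
    have a1 := h.upd.comp
      (g := fun q : ((α × Wk F T S × Option A) × F × T × S) × Bool × F =>
        ((k q.1.1.1).1, q.1.2.1, q.1.2.2.1, q.1.2.2.2, q.1.1.2.2)) (by fun_prop)
    fun_prop
  · refine PT.optBind (by fun_prop) (PT.optBind (by fun_prop) ?_)
    exact h.fin.comp (g := fun q : ((α × Wk F T S) × F) × S => ((k q.1.1.1).1, q.1.2, q.2))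
      (by fun_prop)
end pt

end Eng

end Pool.Agent.P.MP_f1a348_lc.GX
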