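import Pool.Agent.P.MP_f1a348_lc.GX.DefsL

/-! Graph isomorphism: sizes of the frames of the module of the local certificates, and the
running time of the module. -/

set_option autoImplicit false
set_option linter.unusedSectionVars false
set_option synthInstance.maxSize 4096

namespace Pool.Agent.P.MP_f1a348_lc.GX

open Pool.Agent.Lib.Helper47 Pool.Agent.P.MP_f1a348_lc.GI Pool.Agent.P.MP_f1a348_lc.TO

variable {cx : Cx} {s : Sta} {φ : ℕ} {O : List Tm} {w0 u0 : Tm} {tb : Tab U Tm}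

namespace GiPx

theorem pts (hc : cx.Ok) (z : cx.Sz s φ) (h : cx.WF s) {a : List Tm} (nd : a.Nodup)
    (od : ∀ u ∈ a, u ∈ s.D) : size a ≤ cx.pd * (cx.pd ^ 5 + 1) + 1 :=
  PSIZEx.list_le (fun x hx => size_vtx hc h.toWF0 z (Or.inl (h.toWF0.dA (od x hx))))
    ((h.olen nd od).trans (h.dlen.1.trans (PSIZEx.lam_le hc)))

theorem rx (hc : cx.Ok) (z : cx.Sz s φ) (h : cx.WF s) (nd : O.Nodup) (od : ∀ u ∈ O, u ∈ s.D)
    (h1 : w0 ∈ s.A.1) (h2 : u0 ∈ s.A.1) : size ((s, w0, u0, O) : RndX) ≤ cx.pd ^ 12 := by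
  have p := PSIZEx.pd_ge hc
  have a1 := size_sta hc h.toWF0 z
  have a2 := size_vtx hc h.toWF0 z (Or.inl h1)
  have a3 := size_vtx hc h.toWF0 z (Or.inl h2)
  have a4 := pts hc z h nd od
  rw [size_pair s, size_pair w0, size_pair u0]
  generalize cx.pd = x at *
  have e1 : x ≤ x ^ 11 := Nat.le_self_pow (by norm_num) x
  have e5 : x ^ 5 ≤ x ^ 11 := Nat.pow_le_pow_right (by omega) (by norm_num)
  have e6 : x ^ 6 ≤ x ^ 11 := Nat.pow_le_pow_right (by omega) (by norm_num)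
  have e9 : 100 * x ^ 11 ≤ x ^ 12 := by rw [pow_succ' x 11]; exact Nat.mul_le_mul_right _ p
  have f1 : x * (x ^ 5 + 1) + 1 = x ^ 6 + x + 1 := by ring
  omega

theorem ent (hc : cx.Ok) (z : cx.Sz s φ) (h : cx.Rk s O tb) {e : List Tm × List Tm × U × List U}
    (he : e ∈ tb) : size e ≤ cx.pd ^ 7 := by
  have p := PSIZEx.pd_ge hc
  obtain ⟨b1, b2, b3⟩ := h.ok e he
  have c1 := LC.tups_sound b1
  have c2 := LC.tups_sound b2
  have a1 := pts hc z h.wf c1.2.2 fun u hu => h.od u (c1.2.1 u hu)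
  have a2 := pts hc z h.wf c2.2.2 fun u hu => h.od u (c2.2.1 u hu)
  have a3 := size_ans hc (a := some e.2.2) fun q hq => by
    obtain rfl := Option.some.inj hq
    exact ⟨h.wf.toWF0.le (b3 _ (self_mem_cs e.2.2.1 e.2.2.2)).1,
      fun g hg => h.wf.toWF0.le (h.ok.grp_le he hg).1, h.len e he⟩
  rw [size_some] at a3
  rw [size_prod, size_prod e.2]
  generalize cx.pd = x at *
  have e1 : x ≤ x ^ 6 := Nat.le_self_pow (by norm_num) x
  have e3 : x ^ 3 ≤ x ^ 6 := Nat.pow_le_pow_right (by omega) (by norm_num)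
  have e9 : 100 * x ^ 6 ≤ x ^ 7 := by rw [pow_succ' x 6]; exact Nat.mul_le_mul_right _ p
  have f1 : x * (x ^ 5 + 1) + 1 = x ^ 6 + x + 1 := by ring
  omega

end GiPx

theorem size_rd (hc : cx.Ok) (z : cx.Sz s φ) (h : cx.Rk s O tb) (h1 : w0 ∈ s.A.1)
    (h2 : u0 ∈ s.A.1) (hl : tb.length ≤ cx.pd ^ 2) :
    size (((s, w0, u0, O), tb) : Rd) ≤ cx.pd ^ 13 ∧ size (tb.map some ++ [none]) ≤ cx.pd ^ 13 ∧
      size tb + (tb.length + 1) * (cx.pd ^ 3 + 2) + 8 ≤ cx.pd ^ 13 := by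
  have p := PSIZEx.pd_ge hc
  have a1 := GiPx.rx hc z h.wf h.nd h.od h1 h2
  have a2 := PSIZEx.list_le (fun e he => GiPx.ent hc z h he) hl
  have a3 := PSIZEx.list_le (l := tb.map some) (b := cx.pd ^ 7 + 2) (c := cx.pd ^ 2)
    (fun e he => by
      obtain ⟨e', he', rfl⟩ := List.mem_map.1 he
      rw [size_some]
      exact Nat.add_le_add_right (GiPx.ent hc z h he') 2) (by rwa [List.length_map])
  have a4 := size_append (tb.map some) [none]
  have a5 : (tb.length + 1) * (cx.pd ^ 3 + 2) ≤ (cx.pd ^ 2 + 1) * (cx.pd ^ 3 + 2) := by gcongr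
  rw [size_cons, size_none, size_nil] at a4
  rw [size_pair]
  generalize cx.pd = x at *
  have e1 : x ≤ x ^ 12 := Nat.le_self_pow (by norm_num) x
  have e2 : x ^ 2 ≤ x ^ 12 := Nat.pow_le_pow_right (by omega) (by norm_num)
  have e3 : x ^ 3 ≤ x ^ 12 := Nat.pow_le_pow_right (by omega) (by norm_num)
  have e5 : x ^ 5 ≤ x ^ 12 := Nat.pow_le_pow_right (by omega) (by norm_num)
  have e6 : x ^ 9 ≤ x ^ 12 := Nat.pow_le_pow_right (by omega) (by norm_num)
  have e9 : 100 * x ^ 12 ≤ x ^ 13 := by rw [pow_succ' x 12]; exact Nat.mul_le_mul_right _ p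
  have f1 : x ^ 2 * (x ^ 7 + 1) + 1 = x ^ 9 + x ^ 2 + 1 := by ring
  have f2 : x ^ 2 * (x ^ 7 + 2 + 1) + 1 = x ^ 9 + 3 * x ^ 2 + 1 := by ring
  have f3 : (x ^ 2 + 1) * (x ^ 3 + 2) = x ^ 5 + x ^ 3 + 2 * x ^ 2 + 2 := by ring
  omega

theorem size_rx (hc : cx.Ok) (z : cx.Sz s φ) (h : cx.Gi s O) (h1 : w0 ∈ s.A.1)
    (h2 : u0 ∈ s.A.1) : size ((s, w0, u0, O) : RndX) ≤ cx.pd ^ 13 :=
  (GiPx.rx hc z h.wf h.nd h.sub h1 h2).trans
    (Nat.pow_le_pow_right (by have := PSIZEx.pd_ge hc; omega) (by norm_num))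

theorem size_ent (hc : cx.Ok) (z : cx.Sz s φ) (h : cx.WF s) : size s ≤ cx.pd ^ 13 ∧
    size (entP.todo cx s) ≤ cx.pd ^ 14 ∧ bl (entP.todo cx s).length ≤ cx.lam + 1 := by
  have p := PSIZEx.pd_ge hc
  have e : entP.todo cx s =
    (cx.ptrs s).map (fun p => (false, iN (s, p.1, p.2, cx.ob s p.2))) := rfl
  have hl : (entP.todo cx s).length ≤ 2 ^ cx.lam := by
    rw [e, List.length_map]
    refine (List.length_filter_le _ _).trans ?_
    rw [length_prodL]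
    exact (Nat.mul_le_mul (z.le hc).2.1 (z.le hc).2.1).trans PNUMx.b1_sq
  refine ⟨(size_sta hc h.toWF0 z).trans (Nat.pow_le_pow_right (by omega) (by norm_num)), ?_,
    bl_le hl⟩
  have a1 := PSIZEx.list_le (b := cx.pd ^ 12 + 16) (fun t ht => by
    obtain ⟨q, hq, rfl⟩ := List.mem_map.1 (e ▸ ht)
    obtain ⟨q1, q2⟩ := mem_prodL.1 (List.mem_filter.1 hq).1
    have o := h.ob_view hc q2
    have := GiPx.rx hc z h o.2.1 (fun u hu => o.1.subset hu) (h.toWF0.dA q1) (h.toWF0.dA q2)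
    have := size_bool false
    rw [size_pair, iN, Part.size_inr, Part.size_inr, Part.size_inl]
    omega) (hl.trans (PSIZEx.lam_le hc))
  refine a1.trans ?_
  generalize cx.pd = x at *
  have e1 : x ≤ x ^ 13 := Nat.le_self_pow (by norm_num) x
  have e9 : 100 * x ^ 13 ≤ x ^ 14 := by rw [pow_succ' x 13]; exact Nat.mul_le_mul_right _ p
  have f1 : x * (x ^ 12 + 16 + 1) + 1 = x ^ 13 + 17 * x + 1 := by ring
  omega

section time
variable {α : Type} [Enc α] {c : α → Cx} {t : α → Sta} {Q : α → List Tm}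

@[fun_prop] theorem pt_iN {x : α → RndX} (h : PT x) : PT (fun a => iN (x a)) :=
  PT.inr (PT.inr (PT.inl h))
@[fun_prop] theorem pt_iD {x : α → Rd} (h : PT x) : PT (fun a => iD (x a)) :=
  PT.inr (PT.inr (PT.inr (PT.inl h)))
@[fun_prop] theorem pt_iR {x : α → Rd} (h : PT x) : PT (fun a => iR (x a)) :=
  PT.inr (PT.inr (PT.inr (PT.inr (PT.inl h))))
@[fun_prop] theorem pt_iC {x : α → Rd} (h : PT x) : PT (fun a => iC (x a)) :=
  PT.inr (PT.inr (PT.inr (PT.inr (PT.inr (PT.inl h)))))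
@[fun_prop] theorem pt_iU {x : α → XF} (h : PT x) : PT (fun a => iU (x a)) :=
  PT.inr (PT.inr (PT.inr (PT.inr (PT.inr (PT.inr h)))))
@[fun_prop] theorem GiPx.pt_fEnt {x : α → FD} (h : PT x) : PT (fun a => fEnt (x a)) := PT.inl h
@[fun_prop] theorem GiPx.pt_iS (h : PT t) : PT (fun a => (Sum.inl (t a) : FL)) := PT.inl h

@[fun_prop] theorem Cx.pt_rd0 {w u : α → Tm} (h0 : PT c) (h1 : PT t) (h2 : PT w) (h3 : PT u)
    (h4 : PT Q) : PT (fun a => (c a).rd0 (t a) (w a) (u a) (Q a)) := by unfold Cx.rd0; fun_prop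
@[fun_prop] theorem Cx.pt_ptrs (h0 : PT c) (h1 : PT t) : PT (fun a => (c a).ptrs (t a)) := by
  unfold Cx.ptrs; fun_prop
@[fun_prop] theorem Cx.pt_oneC (h0 : PT c) (h1 : PT t) (h2 : PT Q) :
    PT (fun a => (c a).oneC (t a) (Q a)) := by unfold Cx.oneC; fun_prop
@[fun_prop] theorem Cx.pt_fd {b : α → Tab U Tm} (h0 : PT c) (h1 : PT t) (h2 : PT Q) (h3 : PT b) :
    PT (fun a => (c a).fd (t a) (Q a) (b a)) := by unfold Cx.fd; fun_prop
@[fun_prop] theorem Cx.pt_dsp {r : α → Rd} (h0 : PT c) (h1 : PT r) :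
    PT (fun a => (c a).dsp (r a)) := by unfold Cx.dsp; fun_prop
end time

theorem giM_poly (hF : (fullP (Sum.inl : Sta → FL) iU).Poly) : giM.Poly := by
  have a1 : entP.Poly := tryP_poly (PT.const _) (by fun_prop)
  have a2 : nrmP.Poly := oneP_poly (by fun_prop)
  have a3 : dspP.Poly := oneP_poly (by fun_prop)
  have a4 : rndP.Poly := colP_poly (by fun_prop) (by fun_prop) (by fun_prop)
  have a5 : cutL.Poly := cutP_poly (by fun_prop) (by fun_prop) (by fun_prop) (by fun_prop)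
    (by fun_prop) (by fun_prop) (GiPx.pt_iS (t := fun s => s) (by fun_prop))
  exact ⟨a1.sum (a2.sum (a3.sum (a4.sum (a5.sum hF)))),
    PT.inl (f := fun x : Cx × Sta => x.2) (by fun_prop),
    fun _ s => (Part.size_inl (X' := RndX ⊕ Rd ⊕ Rd ⊕ Rd ⊕ XF) s).le.trans (by omega)⟩

end Pool.Agent.P.MP_f1a348_lc.GX
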