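import Pool.Agent.P.MP_f1a348_lc.GX.DefsU
import Pool.Agent.P.MP_f1a348_lc.GX.TPSIZE

/-! Graph isomorphism: the states that are called in the full case, and soundness. -/

set_option autoImplicit false
set_option linter.unusedSectionVars false

namespace Pool.Agent.P.MP_f1a348_lc.GX

open Pool.Agent.Lib.Helper47 Pool.Agent.P.MP_f1a348_lc.GI Pool.Agent.P.MP_f1a348_lc.TO

variable {cx : Cx} {s : Sta} {d : FD} {c : U × List U} {Q Q' : List Tm} {r : U}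

namespace FULx

theorem tag {k : ℕ} {A : Sx Tm} {D : List Tm} (hk : cx.n ≤ k) (h : ∀ x ∈ D, Tm.AB cx.n x) :
    Tag (tg k A) A.1 D :=
  ⟨fun x hx y _ e => (List.idxOf_inj hx).1 (Nat.add_left_cancel (Tm.at_inj.1 e)),
    fun x _ e => by have := Tm.ab_at.1 (h _ e); omega⟩

theorem lab {k : ℕ} {g : U} {D : List Tm} {A : Sx Tm} (h : cx.Side k g D A) : Lab k A :=
  ⟨fun e he => (h.lab e he).1, fun e he => (h.lab e he).2⟩

theorem side {k k' : ℕ} {g g' β : U} {D : List Tm} {A : Sx Tm} (h : cx.Side k g D A)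
    (hk : cx.n ≤ k) (ab : ∀ x ∈ D, Tm.AB cx.n x) (nd : D.Nodup) (hQ : ∀ x ∈ Q, x ∈ D)
    (hU : ∀ x ∈ Q, β⁻¹ • x ∈ A.1) (hg : ∀ x, g' • x ∈ D ↔ x ∈ D) (e : k + A.1.length < k') :
    cx.Side k' g' D (fulS D Q β (tg k A) k A) := by
  have l := (lab h).fulS (D := D) (Q := Q) (β := β) (tag := tg k A)
  refine ⟨fulS_nodup (tag hk ab) hQ h.nd nd, fun x hx => fulS_sub hU ((hg x).2 hx),
    fun y hy => ?_, fun z hz => ⟨(l.lt z hz).trans_le (by omega), l.sup z hz⟩⟩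
  have k1 : y ∈ D → g'⁻¹ • y ∈ D := fun e => (hg _).1 (by simpa using e)
  rcases mem_fulS.1 hy with ⟨z, hz, rfl⟩ | hy
  · by_cases e1 : β • z ∈ Q
    · exact Or.inl (k1 (by rw [renE_pos e1]; exact hQ _ e1))
    · have := List.idxOf_lt_length_of_mem hz
      exact Or.inr ⟨_, by omega, by omega, renE_neg e1⟩
  · exact Or.inl (k1 hy.1)

theorem dB (h : cx.WF0 s) (e : s.σ = 1) {x : Tm} (hx : x ∈ s.D) : x ∈ s.B.1 := by
  simpa [e] using h.b.real x hx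

theorem wf (h : cx.WF0 s) (e : s.σ = 1) (h1 : c.1 ∈ gen s.S) (h2 : gen c.2 ≤ gen s.S)
    (h3 : c.2.length ≤ cx.pd) (hQ : ∀ x ∈ Q, x ∈ s.D) (hQ' : ∀ x ∈ Q', x ∈ s.D)
    (hr : r ∈ gen s.S) : cx.WF0 (s.ful c Q Q' r) where
  hσ := h.le h1
  hS := fun _ hg => h.le (h2 (mem_gen hg))
  len := h3
  nd := h.nd
  ab := h.ab
  inv := h.inv.mono h2
  nx := h.nx.filter _
  ny := h.ny.filter _
  xd := fun x hx => h.xd x (List.mem_filter.1 hx).1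
  yd := fun y hy => h.inv _ (inv_mem h1) y (hQ' y (by simpa using (List.mem_filter.1 hy).2))
  ctr := h.ctr.trans (by change s.ctr ≤ s.ctr + _ + _ + 1; omega)
  a := side h.a h.ctr h.ab h.nd hQ (fun x hx => h.dA (by simpa using h.inv r hr x (hQ x hx)))
    (by simp) (by change _ < s.ctr + _ + _ + 1; omega)
  b := side h.b h.ctr h.ab h.nd hQ' (fun x hx => dB h e (by simpa using hQ' x hx))
    (fun _ => h.inv.iff h1) (by change _ < s.ctr + _ + _ + 1; omega)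

theorem mem_sol {g : U} : g ∈ (s.ful c Q Q' r).Sol ↔ g ∈ cs (some c) ∧
    ∀ x, x ∈ s.X ∧ x ∈ Q ↔ g • x ∈ s.Y ∧ g • x ∈ Q' := by
  simp [Sta.Sol, Sta.ful, Sta.c, Sta.X, Sta.Y, Maps]

theorem tgt (h : cx.WF0 s) (hQ : ∀ x ∈ Q, x ∈ s.D) (hQ' : ∀ x ∈ Q', x ∈ s.D) (hr : r ∈ gen s.S)
    {n g : U} (hn : n ∈ s.Tgt) (hg : g ∈ gen s.S) (h1 : g ∈ cs (some c)) (h2 : Maps g s.X s.Y)
    (h3 : Maps g Q Q') (h4 : ∀ x ∈ Q, g • x = n • r • x) : g ∈ (s.ful c Q Q' r).Tgt := by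
  obtain ⟨ψ, w⟩ := hn
  obtain ⟨χ, c1, c2⟩ := fulS_iso (β := r⁻¹) (β' := (1 : U)) (g := g) w.iso (lab h.a) (lab h.b)
    (tag h.ctr h.ab) (tag h.ctr h.ab) hQ hQ'
    (fun x hx => h.dA (by simpa using h.inv r hr x (hQ x hx))) (fun _ => (h.inv.iff hg).symm) h3
    (fun x hx => by rw [one_smul, inv_inv, h4 x hx, w.eq _ (h.inv r hr x (hQ x hx))])
  exact ⟨χ, mem_sol.2 ⟨h1, fun x => and_congr (h2 x) (h3 x)⟩, c1, c2⟩

theorem grs {k w : ℕ} {β : U} {D : List Tm} {A : Sx Tm} (hc : cx.Ok) (hQ : ∀ x ∈ Q, x ∈ D)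
    (h1 : D.length ≤ cx.b1) (h2 : A.1.length ≤ 2 ^ cx.lam) (hw : 1 ≤ w)
    (h3 : ∀ x ∈ D, Tm.wt x ≤ w) :
    cx.GrS cx.b1 (cx.pd ^ 2) (2 ^ (cx.lam + 1) * w) A (fulS D Q β (tg k A) k A) := by
  have a := fulS_length (D := D) (Q := Q) (β := β) (tag := tg k A) (m := k) (A := A)
  have p1 := PSIZEx.lam_le hc
  have p2 := PSIZEx.pd_ge hc
  have p3 : w ≤ 2 ^ (cx.lam + 1) * w := Nat.le_mul_of_pos_left _ (Nat.two_pow_pos _)
  refine ⟨by omega, fun t ht => le_trans ?_ p3, by nlinarith, fun hl e he => ?_⟩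
  · rcases mem_fulS.1 ht with ⟨z, -, rfl⟩ | ht
    · by_cases e1 : β • z ∈ Q
      · rw [renE_pos e1]; exact h3 _ (hQ _ e1)
      · rw [renE_neg e1]; simpa [tg] using hw
    · exact h3 t ht.1
  · rcases mem_renS.1 he with ⟨l, b1, b2⟩ | ⟨-, y, -, b2⟩
    · rw [← b2, List.length_map]; exact hl _ b1
    · rw [b2, List.length_singleton]; omega

theorem grow (hc : cx.Ok) (h : cx.WF s) (hQ : ∀ x ∈ Q, x ∈ s.D) (hQ' : ∀ x ∈ Q', x ∈ s.D)
    (h1 : s.D.length ≤ cx.b1) : cx.Grow s (s.ful c Q Q' r) := by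
  refine ⟨Nat.le_add_right _ _, ?_, fun w hw a _ =>
    ⟨grs hc hQ h1 h.ca hw fun x hx => a x (h.toWF0.dA hx),
      grs hc hQ' h1 h.cb hw fun x hx => a x (h.toWF0.dA hx)⟩⟩
  have p1 := PSIZEx.lam_le hc
  have p2 := PSIZEx.pd_ge hc
  have := h.ca
  have := h.cb
  change s.ctr + s.A.1.length + s.B.1.length + 1 ≤ _
  nlinarith

theorem lst (hc : cx.Ok) (h : FOk cx d) : Lst cx.pad cx.base (gen d.1.S) d.2.1 d.1.D := by
  have k : d.1.D.length ≤ cx.pad.length := h.wf.dlen.1.trans (PSIZEx.lam_le hc)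
  exact ⟨h.wf.toWF0.faith hc, h.inv, h.wf.inv, h.nd,
    ((List.subperm_of_subset h.nd h.od).length_le).trans k, k⟩

theorem mem_fK (hc : cx.Ok) (h : FOk cx d) {k : U} :
    k ∈ gen (cx.fK d) ↔ k ∈ gen d.2.2.1 ∧ ∀ x ∈ d.2.1, k • x = x := by
  have l := (lst hc h).mono h.fx
  rw [Cx.fK, gen_stabL l.fa fun p hp => InvL.idx' l.io l.lo hp, Subgroup.mem_inf, mem_fixS]

theorem fQ_sub {S : List Tm} : ∀ x ∈ cx.fQ d S, x ∈ d.1.D := fun _ hx =>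
  (dS_sublist _ _ _ _ _ _).subset hx

theorem fQ'_sub {d : FC} {S : List Tm} : ∀ x ∈ cx.fQ' d S, x ∈ d.1.1.D := fun _ hx =>
  (dS_sublist _ _ _ _ _ _).subset hx

theorem mem_grp (h : FOk cx d) {g : U} : g ∈ cs (some d.1.c) ↔ g ∈ gen d.1.S := by
  change g ∈ cs (some (d.1.σ, d.1.S)) ↔ _
  rw [mem_cs, h.one, inv_one, one_mul]

theorem need (hc : cx.Ok) {d : FC} (h : FOk cx d.1) {g : U} (hg : g ∈ FNeed d) :
    g ∈ gen d.1.1.S ∧ Maps g d.1.1.X d.1.1.Y ∧ ∀ S, Maps g (cx.fQ d.1 S) (cx.fQ' d S) := by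
  obtain ⟨⟨n, hn, f, hf, rfl⟩, e⟩ := hg
  obtain ⟨a1, a2⟩ := d.1.1.tgt_sol hn
  have a3 := mul_mem ((mem_grp h).1 a1) (h.fx hf)
  refine ⟨a3, fun x => by rw [mul_smul, ← a2, h.keep.iff hf], fun S x =>
    (lst hc h).dS_conj h.fx h.fy a3 (fun u => ?_) e S x⟩
  rw [← (gen d.1.2.2.1).mul_mem_cancel_left hf,
    ← (gen d.1.2.2.1).mul_mem_cancel_right (inv_mem hf), h.conj n hn]
  simp [mul_assoc]

theorem need_mul (hc : cx.Ok) {d : FC} (h : FOk cx d.1) {g k : U} (hg : g ∈ FNeed d)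
    (hk : k ∈ gen (cx.fK d.1)) : g * k ∈ FNeed d := by
  obtain ⟨⟨n, hn, f, hf, rfl⟩, e⟩ := hg
  obtain ⟨k1, k2⟩ := (mem_fK hc h).1 hk
  exact ⟨⟨n, hn, f * k, mul_mem hf k1, mul_assoc _ _ _⟩,
    fun x hx => by rw [mul_smul, k2 x hx, e x hx]⟩

/-- the kernel keeps the active points of a piece -/
theorem ker (hc : cx.Ok) (h : FOk cx d) {k : U} (hk : k ∈ gen (cx.fK d)) (S : List Tm) (x : Tm) :
    x ∈ d.1.X ∧ x ∈ cx.fQ d S ↔ k • x ∈ d.1.X ∧ k • x ∈ cx.fQ d S := by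
  obtain ⟨k1, k2⟩ := (mem_fK hc h).1 hk
  exact and_congr (h.keep.iff k1).symm (((lst hc h).mono h.fx).dS_ker k1 k2 S x)

variable {F : Type} {Pre : F → Prop} {Post : F → Ans → Prop}

theorem rep_snd (hc : cx.Ok) {i : Sta → F} (p1 : ∀ s, cx.WF0 s → Pre (i s))
    (p2 : ∀ s a, Post (i s) a → cx.Post s a) {x : FR} (h : FPre cx (.inr (.inr x))) :
    (repP i).Snd cx Pre Post x (FPost cx (.inr (.inr x))) := by
  obtain ⟨⟨d, ρ⟩, S, c⟩ := x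
  obtain ⟨h, c1, c2, c3, c4⟩ := h
  have l := (lst hc h).mono h.fx
  obtain ⟨A, a1, a2, a3, a4⟩ := (d.1.ful c (cx.fQ d S) (cx.fQ' (d, ρ) S) 1).sol_coset
  refine joinP_snd (N := FNeed (d, ρ) ∩ cs (some c)) ((lst hc h).fa.mono (a1.trans c2)) a3 a4
    (fun a b1 b2 b3 => ⟨b1, b2, b3⟩) fun L e => ?_
  cases e1 : Nat.ble (cx.fR d S).length cx.pad.length <;> simp only [e1] at e
  · cases e
  obtain rfl := Option.some.inj e
  refine ⟨fun k hk => (a2 k).2 ⟨c4 hk, fun y => ?_⟩, fun t ht => ?_, fun g hg => ?_⟩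
  · simpa [Sta.ful, Sta.X] using ker hc h hk S y
  · obtain ⟨r, hr, rfl⟩ := List.mem_map.1 ht
    exact ⟨p1 _ (wf h.wf.toWF0 h.one c1 c2 c3 fQ_sub fQ'_sub (h.fx (l.repS_mem hr))),
      fun a ha g hg => by rw [one_mul]; exact mem_sol.2 (mem_sol.1 ((p2 _ a ha).hi hg))⟩
  · obtain ⟨n, hn, f, hf, e2⟩ := hg.1.1
    obtain ⟨r, hr, k, k1, k2, k3⟩ := l.repS_cover (Nat.le_of_ble_eq_true e1) hf
    have k4 := (mem_fK hc h).2 ⟨k1, k2⟩
    obtain ⟨b1, b2, b3⟩ := need hc h (need_mul hc h hg.1 k4)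
    refine ⟨_, List.mem_map_of_mem hr, k, k4, fun a ha => ?_⟩
    rw [inv_one, one_mul]
    refine (p2 _ a ha).lo (tgt h.wf.toWF0 fQ_sub fQ'_sub (h.fx (l.repS_mem hr)) hn b1 ?_ b2 (b3 S)
      fun y hy => by rw [e2, mul_smul, mul_smul, k3 y hy])
    exact mem_cs.2 (by rw [← mul_assoc]; exact mul_mem (mem_cs.1 hg.2) (c4 k4))

/-- the new coset of the chain -/
theorem next {K : List U} {A : Subgroup U} {I : Set U} (hf : Faith cx.pad cx.base A)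
    (h1 : ∀ g ∈ I, ∀ g' ∈ I, g⁻¹ * g' ∈ A) (h2 : ∀ g ∈ I, ∀ u ∈ A, g * u ∈ I) (hK : gen K ≤ A)
    {b : Ans} (hb : cs b ⊆ I) : cs b ⊆ cs (addG cx.pad cx.base K (lmul 1 b)) ∧
      cs (addG cx.pad cx.base K (lmul 1 b)) ⊆ I ∧
      ∀ p ∈ addG cx.pad cx.base K (lmul 1 b), p.2.length ≤ cx.pd ∧ gen K ≤ gen p.2 := by
  rcases b with _ | ⟨τ, T⟩
  · simp [addG, lmul]
  · have a1 := hb (self_mem_cs τ T)
    have a2 : gen T ≤ A := le_of_cs fun g hg => h1 _ a1 _ (hb hg)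
    have e : lmul 1 (some (τ, T)) = some (τ, T) := by simp [lmul]
    rw [e]
    refine ⟨fun g hg => (mem_addG hf hK a2).2 (Subgroup.mem_sup_right (mem_cs.1 hg)),
      fun g hg => by simpa using h2 _ a1 _ (sup_le hK a2 ((mem_addG hf hK a2).1 hg)), ?_⟩
    rintro p ⟨rfl⟩
    refine ⟨sims_length _ _ _, ?_⟩
    rw [hf.gen_sims (by rw [gen_append]; exact sup_le hK a2), gen_append]
    exact le_sup_left

theorem fco {a : U × List U} (h : ∀ g ∈ cs (some a), g ∈ gen d.1.S)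
    (e : a.2.length ≤ cx.pd ∧ gen (cx.fK d) ≤ gen a.2) : FCo cx d a :=
  ⟨h _ (self_mem_cs _ _), le_of_cs (τ := 1) (σ := a.1) (by simpa using h), e⟩

theorem ker0 (hc : cx.Ok) (h : FOk cx d) {g : U} :
    g ∈ gen (stabL cx.pad cx.base d.1.S d.2.1) ↔ g ∈ gen d.1.S ∧ ∀ x ∈ d.2.1, g • x = x := by
  have l := lst hc h
  rw [gen_stabL l.fa fun p hp => InvL.idx' l.io l.lo hp, Subgroup.mem_inf, mem_fixS]

theorem len0 (h : FOk cx d) : (stabL cx.pad cx.base d.1.S d.2.1).length ≤ cx.pd :=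
  (stabL_le _ _ _ _).2.trans (max_le le_rfl h.wf.len)

theorem ker_le (hc : cx.Ok) (h : FOk cx d) :
    gen (cx.fK d) ≤ gen (stabL cx.pad cx.base d.1.S d.2.1) := fun _ hk =>
  (ker0 hc h).2 ⟨h.fx ((mem_fK hc h).1 hk).1, ((mem_fK hc h).1 hk).2⟩

theorem sup_snd (hc : cx.Ok) {i : FR → F} (p3 : ∀ x, FPre cx (.inr (.inr x)) → Pre (i x))
    (p4 : ∀ x a, Post (i x) a → FPost cx (.inr (.inr x)) a) {x : FC}
    (h : FPre cx (.inr (.inl x))) : (supP i).Snd cx Pre Post x (FPost cx (.inr (.inl x))) := by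
  obtain ⟨d, ρ⟩ := x
  obtain ⟨h, hρ⟩ := h
  have l := (lst hc h).mono h.fx
  let I : List Tm → Set U := fun u => {g | g ∈ gen d.1.S ∧ ∀ w ∈ u, ∀ x,
    x ∈ d.1.X ∧ x ∈ cx.fQ d (cx.fS d w) ↔ g • x ∈ d.1.Y ∧ g • x ∈ cx.fQ' (d, ρ) (cx.fS d w)}
  refine chnP_snd (fun u a => FNeed (d, ρ) ⊆ cs a ∧ cs a ⊆ I u ∧
    (∀ p ∈ a, p.2.length ≤ cx.pd ∧ gen (cx.fK d) ≤ gen p.2) ∧
      (a ≠ none → cx.fCov (d, ρ) = true)) (fun a e => ?_)
    (fun u t v _ j => ⟨j.1, by simp, by simp, by simp⟩) (fun u t v a _ j => ?_) (fun a j => ?_)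
  · obtain rfl := Option.some.inj e
    cases e1 : cx.fCov (d, ρ) with
    | true =>
      refine ⟨fun g hg => mem_cs.2 ((ker0 hc h).2 ⟨mul_mem (inv_mem hρ) (need hc h hg).1,
        fun x hx => by rw [mul_smul, hg.2 x hx, inv_smul_smul]⟩), fun g hg => ⟨?_, by simp⟩, ?_,
        fun _ => rfl⟩
      · simpa using mul_mem hρ ((ker0 hc h).1 (mem_cs.1 hg)).1
      · rintro p ⟨rfl⟩
        exact ⟨len0 h, ker_le hc h⟩
    | false =>
      refine ⟨fun g hg => ?_, by simp, by simp, by simp⟩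
      obtain ⟨-, b2, b3⟩ := need hc h hg
      have : cx.fCov (d, ρ) = true := by
        simp only [Cx.fCov, List.all_eq_true, List.any_eq_true, List.contains_iff_mem]
        intro y hy
        have b4 : g⁻¹ • y ∈ d.1.X := (b2 _).2 (by simpa using hy)
        exact ⟨_, b4, by simpa using (b3 (cx.fS d _) _).1 (l.self_dS (h.wf.xd _ b4))⟩
      rw [this] at e1
      cases e1
  · refine ⟨p3 _ ⟨h, fco (fun g hg => (j.2.1 hg).1) (j.2.2.1 a rfl)⟩, fun b hb => ?_⟩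
    obtain ⟨b1, b2, -⟩ := p4 _ b hb
    let A : Subgroup U :=
      { carrier := {g | g ∈ gen d.1.S ∧ ∀ w ∈ u ++ [t], ∀ x, x ∈ d.1.X ∧ x ∈ cx.fQ d (cx.fS d w) ↔
          g • x ∈ d.1.X ∧ g • x ∈ cx.fQ d (cx.fS d w)}
        one_mem' := ⟨one_mem _, by simp⟩
        mul_mem' := fun a1 a2 => ⟨mul_mem a1.1 a2.1, fun w hw x => by
          rw [a2.2 w hw, a1.2 w hw, mul_smul]⟩
        inv_mem' := fun {g} a1 => ⟨inv_mem a1.1, fun w hw x => by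
          rw [a1.2 w hw (g⁻¹ • x), smul_inv_smul]⟩ }
    obtain ⟨n1, n2, n3⟩ := next (K := cx.fK d) (A := A) (I := I (u ++ [t]))
      ((lst hc h).fa.mono fun _ hg => hg.1)
      (fun g a1 g' a2 => ⟨mul_mem (inv_mem a1.1) a2.1, fun w hw x => by
        rw [a2.2 w hw, a1.2 w hw ((g⁻¹ * g') • x), mul_smul, smul_inv_smul]⟩)
      (fun g a1 k a2 => ⟨mul_mem a1.1 a2.1, fun w hw x => by
        rw [a2.2 w hw, a1.2 w hw, mul_smul]⟩)
      (fun k hk => ⟨h.fx ((mem_fK hc h).1 hk).1, fun w _ x => ker hc h hk _ x⟩) (b := b)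
      (fun g hg => by
        obtain ⟨a1, a2⟩ := mem_sol.1 (b2 hg)
        refine ⟨(j.2.1 a1).1, fun w hw => ?_⟩
        rcases List.mem_append.1 hw with hw | hw
        · exact (j.2.1 a1).2 w hw
        · rw [List.mem_singleton.1 hw]; exact a2)
    exact ⟨fun g hg => n1 (b1 ⟨hg, j.1 hg⟩), n2, n3, fun _ => j.2.2.2 (by simp)⟩
  · refine ⟨j.1, fun g hg => ?_, fun p hp => (j.2.2.1 p hp).1⟩
    obtain ⟨a1, a2⟩ := j.2.1 hg
    have cv := j.2.2.2 (by rintro rfl; simp at hg)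
    simp only [Cx.fCov, List.all_eq_true, List.any_eq_true, List.contains_iff_mem] at cv
    refine ⟨(mem_grp h).2 a1, fun x => ⟨fun hx =>
      ((a2 x hx x).1 ⟨hx, l.self_dS (h.wf.xd x hx)⟩).1, fun hx => ?_⟩⟩
    obtain ⟨w, w1, w2⟩ := cv _ hx
    exact ((a2 w w1 x).2 ⟨hx, w2⟩).1

theorem par_mem (hc : cx.Ok) (h : FOk cx d) {ρ : U} (hρ : ρ ∈ cx.fP d) : ρ ∈ gen d.1.S :=
  let l := (lst hc h).mono h.fx
  meetR_mem l.fa l.io l.lo hρ

theorem par_snd (hc : cx.Ok) {i : FC → F} (p3 : ∀ x, FPre cx (.inr (.inl x)) → Pre (i x))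
    (p4 : ∀ x a, Post (i x) a → FPost cx (.inr (.inl x)) a) (h : FOk cx d) :
    (parP i).Snd cx Pre Post d (cx.Post d.1) := by
  have l := (lst hc h).mono h.fx
  obtain ⟨A, a1, a2, a3, a4⟩ := d.1.sol_coset
  refine joinP_snd (N := d.1.Tgt) ((lst hc h).fa.mono a1) a3 a4
    (fun a b1 b2 b3 => ⟨b1, b2, b3⟩) fun L e => ?_
  cases e1 : Nat.ble (cx.fP d).length cx.pad.length <;> simp only [e1] at e
  · cases e
  obtain rfl := Option.some.inj e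
  refine ⟨fun k hk => (a2 k).2 ⟨h.fx hk, fun y => (h.keep.iff hk).symm⟩, fun t ht => ?_,
    fun n hn => ?_⟩
  · obtain ⟨ρ, hρ, rfl⟩ := List.mem_map.1 ht
    exact ⟨p3 _ ⟨h, par_mem hc h hρ⟩, fun a ha g hg => by simpa using (p4 _ a ha).2.1 hg⟩
  · obtain ⟨ρ, hρ, f, hf, e2⟩ := meetR_cover l.fa l.io l.lo (Nat.le_of_ble_eq_true e1)
      ((mem_grp h).1 (d.1.tgt_sol hn).1)
    refine ⟨_, List.mem_map_of_mem hρ, f⁻¹, inv_mem hf, fun a ha => ?_⟩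
    rw [inv_one, one_mul]
    exact (p4 _ a ha).1 ⟨⟨n, hn, f⁻¹, inv_mem hf, rfl⟩, fun x hx => by
      rw [mul_smul, ← e2 _ (l.io _ (inv_mem hf) x hx), smul_inv_smul]⟩
end FULx

variable {F : Type} [Enc F] {iS : Sta → F} {iF : XF → F}

theorem fullP_snd (hc : cx.Ok) {Pre : F → Prop} {Post : F → Ans → Prop}
    (p1 : ∀ s, cx.WF0 s → Pre (iS s)) (p2 : ∀ s a, Post (iS s) a → cx.Post s a)
    (p3 : ∀ x, FPre cx x → Pre (iF x)) (p4 : ∀ x a, Post (iF x) a → FPost cx x a) {x : XF}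
    (h : FPre cx x) : (fullP iS iF).Snd cx Pre Post x (FPost cx x) := by
  rcases x with x | x | x
  · exact (FULx.par_snd hc (fun _ => p3 _) (fun _ => p4 _) h).inl _
  · exact ((FULx.sup_snd hc (fun _ => p3 _) (fun _ => p4 _) h).inl _).inr _
  · exact ((FULx.rep_snd hc p1 p2 h).inr _).inr _

end Pool.Agent.P.MP_f1a348_lc.GX
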