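import Pool.Agent.P.MP_f1a348_lc.GX.DefsV
import Pool.Agent.P.MP_f1a348_lc.GX.TALTE
import Pool.Agent.P.MP_f1a348_lc.GX.TUNAT
import Pool.Agent.P.MP_f1a348_lc.GX.TVORB

/-! Step VALG. -/

set_option autoImplicit false
set_option linter.unusedSectionVars false

namespace Pool.Agent.P.MP_f1a348_lc.GX

open Equiv Finset MulAction
open scoped Classical
variable {G Y : Type} [Group G] [MulAction G Y] [DecidableEq Y] {P : Pm} {H H' K K' : Subgroup G}
  {D D' : Finset Y} {Γ Γ' : Sy Y} {v v' : Vw G Y} {W : ℕ → Vw G Y → Prop}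

namespace VALGx

theorem top_of_index {κ : Type} [Fintype κ] [DecidableEq κ] (c : 5 ≤ Fintype.card κ)
    (S : Subgroup (alternatingGroup κ)) (h : S.index < Fintype.card κ) : S = ⊤ := by
  have : IsSimpleGroup (alternatingGroup κ) := alternatingGroup.isSimpleGroup (by simpa using c)
  rcases (Subgroup.normalCore_normal S).eq_bot_or_eq_top with h1 | h1
  · exfalso
    rw [Subgroup.normalCore_eq_ker] at h1
    have h2 := Nat.card_le_card_of_injective _ ((MonoidHom.ker_eq_bot_iff _).1 h1)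
    rw [Nat.card_perm, ← Subgroup.index_eq_card] at h2
    have : Nontrivial κ := Fintype.one_lt_card_iff_nontrivial.1 (by omega)
    have h3 := two_mul_nat_card_alternatingGroup (α := κ)
    rw [Nat.card_perm, Nat.card_eq_fintype_card (α := κ)] at h3
    obtain ⟨n, hn⟩ : ∃ n, Fintype.card κ = n + 1 := ⟨Fintype.card κ - 1, by omega⟩
    rw [hn] at h h3 c
    have h4 : S.index.factorial ≤ n.factorial := Nat.factorial_le (by omega)
    rw [Nat.factorial_succ] at h3
    have h5 := Nat.factorial_pos n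
    nlinarith
  · exact top_le_iff.1 (h1 ▸ S.normalCore_le)

theorem conj {J J' : Subgroup G} {O : Finset Y} (h : Giant J O) (n : G)
    (e : ∀ j ∈ J, n * j * n⁻¹ ∈ J') : Giant J' (O.image (fun x => n • x)) := by
  intro a0 ha0 b0 hb0 c0 hc0 ab ac bc
  obtain ⟨a, ha, rfl⟩ := mem_image.1 ha0
  obtain ⟨b, hb, rfl⟩ := mem_image.1 hb0
  obtain ⟨c, hc, rfl⟩ := mem_image.1 hc0
  obtain ⟨g, hg, e1⟩ := h a ha b hb c hc (fun q => ab (by rw [q])) (fun q => ac (by rw [q]))
    (fun q => bc (by rw [q]))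
  refine ⟨_, e g hg, fun x0 hx0 => ?_⟩
  obtain ⟨x, hx, rfl⟩ := mem_image.1 hx0
  rw [mul_smul, mul_smul, inv_smul_smul, e1 x hx, Perm.mul_apply, Perm.mul_apply,
    (MulAction.injective n).map_swap, (MulAction.injective n).map_swap]

end VALGx

/- Let J be the image of F in Perm Q (it contains the alternating group by Giant.even) and J' the image of the stabiliser of y; J' meets the alternating group A in a subgroup of index at most card I < card Q. The normal core in A is trivial or everything (alternatingGroup.isSimpleGroup); if it is trivial, A embeds into the permutations of at most card Q - 1 points, but n! / 2 > (n - 1)!. -/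
theorem Giant.small {F : Subgroup G} [Finite F] {Q I : Finset Y} (hQ : InvF F Q) (h : Giant F Q)
    (c : 5 ≤ Q.card) (hI : InvF F I) {y : Y} (hy : y ∈ I) (hc : I.card < Q.card) :
    Giant (F ⊓ stabilizer G y) Q := by
  let S : Subgroup (alternatingGroup {x // x ∈ Q}) :=
    (UNATx.ind (F ⊓ stabilizer G y) Q).subgroupOf _
  have h1 : ∀ π : alternatingGroup {x // x ∈ Q}, ∃ g ∈ F, ∀ x : {x // x ∈ Q},
      g • x.1 = (π.1 x).1 := fun π => UNATx.even h π.1 π.2
  choose γ γ1 γ2 using h1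
  have h2 : S.index ≤ I.card := by
    rw [Subgroup.index_eq_card, ← Fintype.card_coe, ← Nat.card_eq_fintype_card]
    refine Nat.card_le_card_of_injective
      (fun q => (⟨γ q.out • y, hI _ (γ1 _) y hy⟩ : {x // x ∈ I})) fun q q' e => ?_
    have e1 : γ q.out • y = γ q'.out • y := congrArg Subtype.val e
    rw [← QuotientGroup.out_eq' q, ← QuotientGroup.out_eq' q', QuotientGroup.eq]
    refine ⟨(γ q.out)⁻¹ * γ q'.out, ⟨F.mul_mem (F.inv_mem (γ1 _)) (γ1 _), ?_⟩, fun x => ?_⟩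
    · show ((γ q.out)⁻¹ * γ q'.out) • y = y
      rw [mul_smul, ← e1, inv_smul_smul]
    · rw [mul_smul, inv_smul_eq_iff, γ2, γ2]
      simp
  have h3 : S = ⊤ := VALGx.top_of_index (by simpa using c) S (by
    rw [Fintype.card_coe]; omega)
  intro a ha b hb d hd ab ad bd
  have h4 : (⟨swap ⟨a, ha⟩ ⟨b, hb⟩ * swap ⟨a, ha⟩ ⟨d, hd⟩, (Perm.isThreeCycle_swap_mul_swap_same
      (by simpa using ab) (by simpa using ad) (by simpa using bd)).mem_alternatingGroup⟩ :
      alternatingGroup {x // x ∈ Q}) ∈ S := h3 ▸ Subgroup.mem_top _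
  obtain ⟨g, hg, e⟩ := h4
  refine ⟨g, hg, fun x hx => ?_⟩
  rw [← UNATx.val_three ⟨a, ha⟩ ⟨b, hb⟩ ⟨d, hd⟩ ⟨x, hx⟩]
  exact e ⟨x, hx⟩

theorem AlgPt.mono {m : ℕ} {w z : Y} (h : AlgPt m H w z) (e : H' ≤ H) : AlgPt m H' w z := by
  exact fun F hF => h F (hF.trans e)

theorem algPt_of_le {m : ℕ} {w z : Y} (h : H ⊓ stabilizer G w ≤ stabilizer G z) : AlgPt m H w z := by
  intro F hF Q _ _ hg
  exact hg.mono fun x hx => ⟨hx, h ⟨hF hx.1, hx.2⟩⟩

theorem AlgPt.of_fix {m : ℕ} {w u z : Y} (h : AlgPt m H w u)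
    (e : H ⊓ stabilizer G u ≤ stabilizer G z) : AlgPt m H w z := by
  intro F hF Q h1 h2 hg
  exact (h F hF Q h1 h2 hg).mono fun x hx => ⟨hx.1, e ⟨hF hx.1.1, hx.2⟩⟩

theorem AlgPt.of_small [Finite H] {m : ℕ} (hm : 5 ≤ m) {w u z : Y} (h : AlgPt m H w u)
    {I : Finset Y} (hI : InvF (H ⊓ stabilizer G u) I) (hz : z ∈ I) (hc : I.card < m) :
    AlgPt m H w z := by
  intro F hF Q h1 h2 hg
  have h3 : F ⊓ stabilizer G w ⊓ stabilizer G u ≤ H := fun x hx => hF hx.1.1
  have : Finite (F ⊓ stabilizer G w ⊓ stabilizer G u : Subgroup G) :=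
    Finite.of_injective _ (Subgroup.inclusion_injective h3)
  exact (Giant.small (F := F ⊓ stabilizer G w ⊓ stabilizer G u) (fun x hx => h2 x hx.1.1)
    (h F hF Q h1 h2 hg) (hm.trans h1) (fun x hx => hI x ⟨hF hx.1.1, hx.2⟩) hz
    (hc.trans_le h1)).mono fun x hx => ⟨hx.1.1, hx.2⟩

/- conjugate F and move Q -/
theorem AlgPt.smul {m : ℕ} {w z : Y} (h : AlgPt m H w z) {g : G} (hg : g ∈ H) :
    AlgPt m H (g • w) (g • z) := by
  intro F hF Q h1 h2 h3
  let F' : Subgroup G := F.comap (MulAut.conj g).toMonoidHom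
  have m1 : ∀ x, x ∈ F' ↔ g * x * g⁻¹ ∈ F := fun x => Iff.rfl
  have h4 : F' ≤ H := fun x hx => by
    have := H.mul_mem (H.mul_mem (H.inv_mem hg) (hF ((m1 x).1 hx))) hg
    simpa [mul_assoc] using this
  have h5 := h F' h4 (Q.image (fun x => g⁻¹ • x))
    (by rwa [card_image_of_injective _ (MulAction.injective _)])
    (fun x hx y0 hy0 => by
      obtain ⟨y, hy, rfl⟩ := mem_image.1 hy0
      exact mem_image.2 ⟨_, h2 _ ((m1 x).1 hx) y hy, by simp [mul_smul]⟩)
    (VALGx.conj h3 g⁻¹ fun j hj => ⟨(m1 _).2 (by simpa [mul_assoc] using hj.1), by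
      have : j • g • w = g • w := hj.2
      show (g⁻¹ * j * g⁻¹⁻¹) • w = w
      rw [inv_inv, mul_smul, mul_smul, this, inv_smul_smul]⟩)
  have h6 := VALGx.conj (J' := F ⊓ stabilizer G (g • w) ⊓ stabilizer G (g • z)) h5 g
    fun j hj => ⟨⟨(m1 _).1 hj.1.1, by
      have : j • w = w := hj.1.2
      show (g * j * g⁻¹) • g • w = g • w
      rw [mul_smul, mul_smul, inv_smul_smul, this]⟩, by
      have : j • z = z := hj.2
      show (g * j * g⁻¹) • g • z = g • z
      rw [mul_smul, mul_smul, inv_smul_smul, this]⟩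
  rw [image_image] at h6
  have h7 : Q.image ((fun x => g • x) ∘ fun x => g⁻¹ • x) = Q := by
    ext x; simp
  rwa [h7] at h6

theorem AlgPt.not_giant {m : ℕ} (hm : 3 ≤ m) {w u : Y} (h : AlgPt m H w u) {F : Subgroup G}
    (hF : F ≤ H) {Q : Finset Y} (hc : m ≤ Q.card) (hQ : InvF F Q) (hu : u ∈ Q) :
    ¬ Giant (F ⊓ stabilizer G w) Q := by
  intro hg
  have h1 : 1 < (Q.erase u).card := by rw [card_erase_of_mem hu]; omega
  obtain ⟨b, hb, c, hc', bc⟩ := one_lt_card.1 h1
  obtain ⟨b1, b2⟩ := mem_erase.1 hb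
  obtain ⟨c1, c2⟩ := mem_erase.1 hc'
  obtain ⟨g, hg1, e⟩ := h F hF Q hc hQ hg u hu b b2 c c2 b1.symm c1.symm bc
  have h2 : g • u = u := hg1.2
  rw [e u hu, Perm.mul_apply, swap_apply_left, swap_apply_of_ne_of_ne c1 bc.symm] at h2
  exact c1 h2

end Pool.Agent.P.MP_f1a348_lc.GX
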