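import Pool.Agent.P.MP_f1a348_lc.GX.DefsL

/-! Graph isomorphism: the preconditions of the frames of the module of the certificates. -/

set_option autoImplicit false
set_option linter.unusedSectionVars false

namespace Pool.Agent.P.MP_f1a348_lc.GX

open Pool.Agent.Lib.Helper47 Pool.Agent.P.MP_f1a348_lc.GI Pool.Agent.P.MP_f1a348_lc.TO

variable {cx : Cx} {s : Sta} {O : List Tm} {tb : Tab U Tm}

theorem Cx.Gi.nrm (h : cx.Gi s O) : cx.Gi s.nrm O := ⟨h.wf.nrm, h.nd, h.sub, h.inv, h.gi⟩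

theorem Cx.Gi.rd0 (hc : cx.Ok) (h : cx.Gi s O) (w0 u0 : Tm) : cx.RPre (cx.rd0 s w0 u0 O) :=
  ⟨h.nrm, Cx.rk_zero hc h.wf.nrm Sta.nrm_σ h.nd h.sub h.inv⟩

theorem Cx.Rk.fok (hc : cx.Ok) (h : cx.Rk s O tb) (k : InvL (gen (cx.fd s O tb).2.2.1) s.X) :
    FOk cx (cx.fd s O tb) :=
  ⟨h.wf, h.one, h.nd, h.od, h.inv, (h.lx hc).fgen_le h.ok, (h.lx hc).fgen_le h.ok, LC.length_fgen,
    LC.length_fgen, k, fun n hn _ =>
      (h.lx hc).fgen_conj h.ok ((Cx.mem_one h.one).1 (s.tgt_sol hn).1) (h.cpl n hn)⟩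

theorem Cx.mem_ptrs (hc : cx.Ok) (h : cx.WF s) {p : Tm × Tm} :
    p ∈ cx.ptrs s ↔ p.1 ∈ s.D ∧ p.2 ∈ s.D ∧ cx.Gi s (cx.ob s p.2) := by
  obtain ⟨a, b⟩ := p
  rw [Cx.ptrs, List.mem_filter, mem_prodL, and_assoc]
  refine and_congr_right fun _ => and_congr_right fun hp => ?_
  obtain ⟨o1, o2, o3, -⟩ := h.ob_view hc hp
  rw [giantB_iff (h.toWF0.faith hc) fun _ hx => h.idx hc le_rfl (o1.subset hx)]
  exact ⟨fun g => ⟨h, o2, fun _ hx => o1.subset hx, o3, g⟩, fun g => g.gi⟩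

theorem Cx.length_ptrs : (cx.ptrs s).length ≤ s.D.length * s.D.length :=
  (List.length_filter_le _ _).trans (length_prodL _ _).le

end Pool.Agent.P.MP_f1a348_lc.GX
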