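import Pool.Agent.P.MP_f1a348_lc.GX.LibGi0
import Pool.Agent.P.MP_f1a348_lc.GX.LibFul3

/-! Graph isomorphism: the module of the certificates is sound. -/

set_option autoImplicit false
set_option linter.unusedSectionVars false
set_option synthInstance.maxSize 4096

namespace Pool.Agent.P.MP_f1a348_lc.GX

open Pool.Agent.Lib.Helper47 Pool.Agent.P.MP_f1a348_lc.GI Pool.Agent.P.MP_f1a348_lc.TO

variable {cx : Cx}

theorem entP_snd (hc : cx.Ok) {s : Sta} (h : cx.WF s) :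
    entP.Snd cx (giM.pre cx) (giM.post cx) s (cx.Post s) :=
  tryP_snd (fun _ e => by cases e) fun _ p hp => by
    obtain ⟨q, hq, rfl⟩ := List.mem_map.1 hp
    exact ⟨((Cx.mem_ptrs hc h).1 hq).2.2, fun _ e => e⟩

theorem nrmP_snd (hc : cx.Ok) {x : RndX} (h : cx.Gi x.1 x.2.2.2) :
    nrmP.Snd cx (giM.pre cx) (giM.post cx) x (cx.Post x.1) :=
  oneP_snd (h.rd0 hc _ _) fun _ e => Cx.Post.of_nrm e

theorem dsp_snd (hc : cx.Ok) {r : Rd} (h : cx.RPre r) : giM.pre cx (cx.dsp r).2 ∧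
    ∀ a, giM.post cx (cx.dsp r).2 a → cx.Post r.1.1 a := by
  unfold Cx.dsp
  cases Nat.blt r.1.2.2.2.length (4 * cx.utau.length)
  case true => exact ⟨h.1.wf.toWF0, fun _ e => e⟩
  cases !cx.oneC (cx.plus r.1.1 r.1.2.2.2 r.2) r.1.2.2.2
  case true => exact ⟨h, fun _ e => e⟩
  cases !trB cx.par (cx.plus r.1.1 r.1.2.2.2 r.2).q false r.1.2.2.2 cx.utau
  case true => exact ⟨(h.2.plus_wf hc).toWF0, fun _ e => h.2.plus_post hc e⟩
  cases e : LC.keepL (cx.fd r.1.1 r.1.2.2.2 r.2).2.2.1 r.1.1.X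
  case true => exact ⟨h.2.fok hc (LC.keepL_iff.1 e), fun _ e => e⟩
  exact ⟨h, fun _ e => e⟩

theorem dspP_snd (hc : cx.Ok) {r : Rd} (h : cx.RPre r) :
    dspP.Snd cx (giM.pre cx) (giM.post cx) r (cx.Post r.1.1) :=
  oneP_snd (dsp_snd hc h).1 fun a e => (lmul_one a).symm ▸ (dsp_snd hc h).2 a e

theorem rndP_snd (hc : cx.Ok) {r : Rd} (h : cx.RPre r) :
    rndP.Snd cx (giM.pre cx) (giM.post cx) r (cx.Post r.1.1) :=
  colP_snd (fun _ he => h.2.sub_wf he) fun _ h1 h2 => ⟨⟨h.1, h.2.next hc h1 h2⟩, fun _ e => e⟩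

theorem cutL_snd (hc : cx.Ok) {r : Rd} (h : cx.RPre r) :
    cutL.Snd cx (giM.pre cx) (giM.post cx) r (cx.Post r.1.1) :=
  cutP_snd hc h.1 (fun _ hg _ hu => h.2.plus_col hc hg hu)
    (fun _ _ g _ _ => ⟨g.rd0 hc _ _, fun _ e => Cx.Post.of_nrm e⟩) fun _ w => ⟨w, fun _ e => e⟩

theorem giM_sound_of (hU : ∀ cx x, Cx.Ok cx → FPre cx x →
    (fullP Sum.inl iU).Snd cx (giM.pre cx) (giM.post cx) x (FPost cx x)) : giM.Sound := by
  refine ⟨fun _ _ _ h => ⟨h, fun _ e => e⟩, fun cx x hc h => ?_⟩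
  rcases x with x | x | x | x | x | x
  · exact (entP_snd hc h).inl _
  · exact ((nrmP_snd hc h).inl _).inr _
  · exact (((dspP_snd hc h).inl _).inr _).inr _
  · exact ((((rndP_snd hc h).inl _).inr _).inr _).inr _
  · exact (((((cutL_snd hc h).inl _).inr _).inr _).inr _).inr _
  · exact (((((hU cx x hc h).inr _).inr _).inr _).inr _).inr _

theorem giM_sound : giM.Sound :=
  giM_sound_of fun cx _ hc h => fullP_snd (iS := Sum.inl) (iF := iU) (Pre := giM.pre cx)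
    (Post := giM.post cx) hc (fun _ e => e) (fun _ _ e => e) (fun _ e => e) (fun _ _ e => e) h

end Pool.Agent.P.MP_f1a348_lc.GX
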