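import Pool.Agent.P.MP_f1a348_lc.GX.LibFull
import Pool.Agent.P.MP_f1a348_lc.GX.TVORB

/-! Graph isomorphism: the third premise of the rule for giants in the full case. -/

set_option autoImplicit false
set_option linter.unusedSectionVars false

namespace Pool.Agent.P.MP_f1a348_lc.GX

open Finset MulAction

variable {G Y : Type} [Group G] [MulAction G Y] [DecidableEq Y] {P : Pm} {v0 v v' : Vw G Y}

theorem Vw.Mono.emb_trans (h : v0.Mono v) (d : v.D = v0.D) (e : v.Emb P v') : v0.Emb P v' := by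
  obtain ⟨e1, e2, α, e3, f, e4, e5, e6⟩ := e
  refine ⟨e1.trans h.h, e2.trans d, α, h.h e3, f, ⟨e4.inj.mono h.dd, fun a ha => e4.mem a (h.dd ha),
    fun a ha b hb a' b' k => ?_⟩, fun z hz k => e5 z (h.dd hz) (d ▸ k), fun w hw =>
    ⟨h.x (e6 w hw).1, fun z hz k => (e6 w hw).2 z (d ▸ hz) (k.mono h.h)⟩⟩
  obtain ⟨a0, b0, k1, k2, k3⟩ := e4.ref a (h.dd ha) b (h.dd hb) a' b' k
  exact ⟨a0, b0, k1, k2, h.ref.2 a ha b hb a0 b0 k3⟩

theorem full_shrink (k0 : v0.Ok P) (k : v.Ok P) (m : v0.Mono v) (d : v.D = v0.D) (e : v.Emb P v')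
    {O : Finset Y} (hI : InvF v.H O) (hG : Giant v.H O) (ho : 4 * P.tau ≤ O.card)
    (hA : ∀ w ∈ v.X, ∃ u ∈ O, AlgPt P.tau v0.H w u) (hF : v'.H ≤ fixF G O) :
    ∀ w ∈ v'.X, (v'.o w).card * (O.card - P.t + 1) ≤ (v0.o w).card * P.s := by
  obtain ⟨e1, e2, α, e3, f, -, -, e6⟩ := e
  intro w hw
  have := k0.fin
  obtain ⟨u, hu, a⟩ := hA _ (e6 w hw).1
  have a1 := a.smul (v0.H.inv_mem (m.h e3))
  rw [inv_smul_smul] at a1
  have a2 : w ∈ v0.D := d ▸ (k.inv.iff e3).1 (k.xd (e6 w hw).1)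
  have a3 : 5 ≤ P.tau := by unfold Pm.tau Pm.t; omega
  rw [Vw.o, Vw.o, e2, d]
  exact alg_shrink a3 (by omega) m.h hI hG k0.inv a2 (hI _ (v.H.inv_mem e3) u hu) a1 e1
    (fun g hg => mem_fixF.1 (hF hg)) (by unfold Pm.t; omega) (by unfold Pm.s; omega)

end Pool.Agent.P.MP_f1a348_lc.GX
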