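import Pool.Agent.P.MP_f1a348_lc.GX.LibGiS
import Pool.Agent.P.MP_f1a348_lc.GX.LibShr2

/-! Graph isomorphism: the module of the certificates realises the rule for giants. -/

set_option autoImplicit false
set_option linter.unusedSectionVars false
set_option synthInstance.maxSize 4096

namespace Pool.Agent.P.MP_f1a348_lc.GX

open Pool.Agent.Lib.Helper47 Pool.Agent.P.MP_f1a348_lc.GI Pool.Agent.P.MP_f1a348_lc.TO

namespace GW

/-- the engine seen from the six parts -/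
structure Env (cx : Cx) (B : ℕ) (E : ℕ → ℕ → FL → Option Ans) : Prop where
  snd : ∀ φ k f a, giM.pre cx f → E φ k f = some a → giM.post cx f a
  e : SubEnv entP (fun s => .inr (.inl s)) cx B E
  n : SubEnv nrmP iN cx B E
  d : SubEnv dspP iD cx B E
  r : SubEnv rndP iR cx B E
  c : SubEnv cutL iC cx B E
  u : SubEnv (fullP .inl iU) iU cx B E

theorem env_of {cx : Cx} {B B0 : ℕ} {E : ℕ → ℕ → FL → Option Ans} (h : giM.Env cx B E)
    (h1 : 1 ≤ B0) (h2 : 3125 * B0 ≤ B) : Env cx B0 E := by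
  have a0 := h.sub
  have a1 := a0.inr (B0 := 625 * B0) (by omega) (by omega)
  have a2 := a1.inr (B0 := 125 * B0) (by omega) (by omega)
  have a3 := a2.inr (B0 := 25 * B0) (by omega) (by omega)
  have a4 := a3.inr (B0 := 5 * B0) (by omega) (by omega)
  exact ⟨h.snd, a0.inl h1 (by omega), a1.inl h1 (by omega), a2.inl h1 (by omega),
    a3.inl h1 (by omega), a4.inl h1 (by omega), a4.inr h1 (by omega)⟩

/-- the exits: what the three premises of the rule say about the calls of states -/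
structure Ex (cx : Cx) (E : ℕ → ℕ → FL → Option Ans) (v : Vw U Tm) (O : Finset Tm) (w0 u0 : Tm)
    (φ : ℕ) : Prop where
  ok : v.Ok cx.P
  alg : ∀ w ∈ v.X, ∀ u ∈ O, v.Γ.E2 w0 u0 w u → AlgPt cx.P.tau v.H w u
  fuel : 8 * cx.lam + 30 + 4 * cx.P.t * bl O.card ≤ φ
  p1 : ∀ s ψ, cx.WF0 s → cx.Sz s (φ - (cx.lam + 1)) → φ ≤ ψ + (2 * cx.lam + 7) → ψ ≤ φ →
    v.Mono (cx.view s) →
    (∀ w ∈ s.X, ∃ u ∈ O, v.Γ.E2 w0 u0 w u ∧ 4 * ((cx.view s).o u).card ≤ 3 * O.card) →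
    E ψ cx.mE (.inl s) ≠ none
  p2 : ∀ s ψ (O' : Finset Tm), cx.WF0 s → cx.Sz s (φ - (cx.lam + 1)) →
    φ ≤ ψ + (2 * cx.lam + 7) → ψ ≤ φ → v.Mono (cx.view s) → O' ⊆ O → (cx.view s).IsO O' →
    (∀ w ∈ s.X, ∃ u ∈ O', v.Γ.E2 w0 u0 w u) →
    (O'.card < 4 * cx.P.tau ∨ (4 * cx.P.tau ≤ O'.card ∧ Giant (cx.view s).H O' ∧
      (cx.view s).Γ.Cls O' ∧ ¬ (cx.view s).Γ.Tr O' cx.P.tau)) → E ψ cx.mE (.inl s) ≠ none
  p3 : ∀ s ψ (o : ℕ), cx.WF0 s → cx.Sz s (φ - (cx.lam + 1)) →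
    φ ≤ ψ + (8 * cx.lam + 30 + 4 * cx.P.t * bl o) → ψ ≤ φ → v.Emb cx.P (cx.view s) →
    4 * cx.P.tau ≤ o → o ≤ O.card →
    (∀ w ∈ (cx.view s).X, ((cx.view s).o w).card * (o - cx.P.t + 1) ≤ (v.o w).card * cx.P.s) →
    E ψ cx.mE (.inl s) ≠ none

/-- the invariant of the frames with a table -/
structure Iv (cx : Cx) (v : Vw U Tm) (O0 : Finset Tm) (w0 u0 : Tm) (φ : ℕ) (s : Sta)
    (O : List Tm) : Prop where
  gi : cx.Gi s O
  sz : cx.Sz s φ
  mono : v.Mono (cx.view s)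
  d : (cx.view s).D = v.D
  gam : (cx.view s).Γ = v.Γ
  sub : O.toFinset ⊆ O0
  iso : (cx.view s).IsO O.toFinset
  w : w0 ∈ s.A.1
  u : u0 ∈ s.A.1
  hd : ∀ w ∈ s.X, ∃ u ∈ O, v.Γ.E2 w0 u0 w u

/-- the sizes of the frames -/
structure Sizes (cx : Cx) : Prop where
  rd : ∀ s φ O tb w0 u0, cx.Sz s φ → cx.Rk s O tb → w0 ∈ s.A.1 → u0 ∈ s.A.1 →
    tb.length ≤ cx.pd ^ 2 → size (((s, w0, u0, O), tb) : Rd) ≤ cx.pd ^ 13 ∧
    size (tb.map some ++ [none]) ≤ cx.pd ^ 13 ∧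
    size tb + (tb.length + 1) * (cx.pd ^ 3 + 2) + 8 ≤ cx.pd ^ 13
  rx : ∀ s φ O w0 u0, cx.Sz s φ → cx.Gi s O → w0 ∈ s.A.1 → u0 ∈ s.A.1 →
    size ((s, w0, u0, O) : RndX) ≤ cx.pd ^ 13
  ent : ∀ s φ, cx.Sz s φ → cx.WF s → size s ≤ cx.pd ^ 13 ∧ size (entP.todo cx s) ≤ cx.pd ^ 14 ∧
    bl (entP.todo cx s).length ≤ cx.lam + 1

/-- the full case -/
def Full (cx : Cx) (E : ℕ → ℕ → FL → Option Ans) : Prop :=
  ∀ (d : FD) (φ k : ℕ), FOk cx d → cx.Sz d.1 φ → Giant (gen d.2.2.1) d.2.1.toFinset →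
    4 * cx.P.tau ≤ d.2.1.length → 8 * cx.lam + 30 + cx.P.s * bl d.2.1.length ≤ φ → 2 < k →
    (∀ s2 ψ, cx.WF0 s2 → cx.Grow d.1 s2 → (cx.view d.1).Emb cx.P (cx.view s2) →
      gen s2.S ≤ fixS d.2.1 → φ - (8 * cx.lam + 30 + cx.P.s * bl d.2.1.length) ≤ ψ → ψ ≤ φ →
      E ψ cx.mE (.inl s2) ≠ none) → E φ k (iU (fEnt d)) ≠ none

variable {cx : Cx} {B φ k : ℕ} {E : ℕ → ℕ → FL → Option Ans} {v : Vw U Tm} {O0 : Finset Tm}
  {w0 u0 : Tm} {s : Sta} {O : List Tm} {tb : Tab U Tm}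

theorem pri_one {X : Type} [Enc X] (nx : Cx → X → U × Bool × FL) (x : X) :
    (oneP nx).pri cx x = 2 * cx.lam + 6 := by
  have : bl 1 = 1 := by decide
  change bl 1 + _ + _ = _
  omega

theorem pow_le (hc : cx.Ok) {a b : ℕ} (h : a ≤ b) : cx.pd ^ a ≤ cx.pd ^ b :=
  Nat.pow_le_pow_right (by have := hc.nums.2.1; omega) h

theorem big (hc : cx.Ok) : 100 ≤ cx.pd :=
  le_trans (by norm_num : 100 ≤ 2 ^ 7) ((Nat.pow_le_pow_right two_pos
    (by have := hc.lam; omega : 7 ≤ 8 * cx.lam)).trans hc.nums.1)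

/-- one call -/
theorem one_wins {X : Type} [Enc X] {nx : Cx → X → U × Bool × FL} {i : X → FL} {x : X}
    (env : SubEnv (oneP nx) i cx B E) (hc : cx.Ok) (hB : cx.pd ^ 3 ≤ B) (hx : size x ≤ B)
    (hk : 0 < k) (hφ : 2 * cx.lam + 6 ≤ φ) (hs : cx.WF0 s)
    (h : ∃ a, ansOf (E φ (k - 1)) (E (φ - (2 * cx.lam + 6)) cx.mE) false (nx cx x).2 = some a ∧
      cx.Post s (lmul (nx cx x).1 a)) : E φ k (i x) ≠ none := by
  have a1 := big hc
  have a2 : cx.pd ≤ cx.pd ^ 3 := Nat.le_self_pow (by norm_num) _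
  refine env φ k x (· ≠ none) hk hx (le_trans (show size [()] ≤ 100 by decide) (by omega))
    (by rw [pri_one]; exact hφ) ?_
  rw [pri_one]
  obtain ⟨a, h1, h2⟩ := h
  exact oneP_loc (by omega) ⟨a, h1, (Cx.Post.size hc hs fun b e => Option.some.inj e ▸ h2).trans hB⟩

theorem Iv.card (h : Iv cx v O0 w0 u0 φ s O) : O.toFinset.card = O.length :=
  List.toFinset_card_of_nodup h.gi.nd

theorem Iv.le (h : Iv cx v O0 w0 u0 φ s O) : O.length ≤ O0.card :=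
  h.card ▸ Finset.card_le_card h.sub

theorem Iv.next (h : Iv cx v O0 w0 u0 φ s O) {s2 : Sta} {O2 : List Tm} (g : cx.Gi s2 O2)
    (n : cx.Nx s s2) (e : ∀ u ∈ O2, u ∈ O) (i : (cx.view s2).IsO O2.toFinset)
    (hd : ∀ w ∈ s2.X, ∃ u ∈ O2, (cx.view s).Γ.E2 w0 u0 w u) : Iv cx v O0 w0 u0 φ s2.nrm O2 :=
  ⟨g.nrm, (n.sz h.sz).nrm, h.mono.trans n.mono, (congrArg List.toFinset n.d).trans h.d,
    n.gam.trans h.gam, fun x hx => h.sub (List.mem_toFinset.2 (e x (List.mem_toFinset.1 hx))), i,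
    show w0 ∈ s2.A.1 from n.a ▸ h.w, show u0 ∈ s2.A.1 from n.a ▸ h.u, h.gam ▸ hd⟩

theorem ex_post (env : Env cx B E) {f : FL} {ψ j : ℕ} (p : giM.pre cx f) (h : E ψ j f ≠ none) :
    ∃ a, E ψ j f = some a ∧ giM.post cx f a := by
  obtain ⟨a, e⟩ := Option.ne_none_iff_exists'.1 h
  exact ⟨a, e, env.snd _ _ _ _ p e⟩

theorem tb_le (hc : cx.Ok) (r : cx.Rk s O tb)
    (hl : tb.length ≤ O.length ^ cx.P.t * O.length ^ cx.P.t) :
    tb.length ≤ cx.pd ^ 2 ∧ bl (tb.length + 1) ≤ 2 * cx.P.t * bl O.length + 2 := by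
  have t := hc.tau
  have a1 : O.length ^ cx.P.t ≤ cx.pd :=
    hc.pow ((r.wf.olen r.nd r.od).trans r.wf.dlen.1) (by omega)
  refine ⟨hl.trans (by rw [sq]; exact Nat.mul_le_mul a1 a1), bl_le ?_⟩
  have a2 : O.length ^ cx.P.t * O.length ^ cx.P.t ≤ 2 ^ (2 * cx.P.t * bl O.length) := by
    rw [← pow_add, mul_comm, pow_mul, ← two_mul]
    exact Nat.pow_le_pow_left (lt_two_pow_bl _).le _
  have a3 : 1 ≤ 2 ^ (2 * cx.P.t * bl O.length) := Nat.one_le_two_pow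
  rw [pow_succ]
  omega

/-- a round -/
theorem rnd_wins (env : Env cx B E) (hc : cx.Ok) (hB : cx.pd ^ 13 ≤ B) (z : Sizes cx)
    (x : Ex cx E v O0 w0 u0 φ) (h : Iv cx v O0 w0 u0 φ s O) (r : cx.Rk s O tb)
    (hl : tb.length ≤ O.length ^ cx.P.t * O.length ^ cx.P.t) (ho : 4 * cx.P.tau ≤ O.length)
    (ht : (cx.view (cx.plus s O tb)).Γ.Tr O.toFinset cx.P.tau) (hk : 0 < k)
    (ih : ∀ acc : List ((List Tm × List Tm × U × List U) × Ans), acc.map Prod.fst = tb →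
      (∀ p ∈ acc, cx.Post (cx.sub s O tb p.1) p.2) →
      E φ (k - 1) (iD ((s, w0, u0, O), newTab acc)) ≠ none) :
    E φ k (iR ((s, w0, u0, O), tb)) ≠ none := by
  have t := hc.tau
  obtain ⟨l1, l2⟩ := tb_le hc r hl
  obtain ⟨z1, z2, z3⟩ := z.rd s φ O tb w0 u0 h.sz r h.w h.u l1
  have f := x.fuel
  have m : bl O.length ≤ bl O0.card := bl_mono h.le
  have m' := Nat.mul_le_mul_left (4 * cx.P.t) m
  have p : rndP.pri cx ((s, w0, u0, O), tb) ≤ 8 * cx.lam + 30 + 4 * cx.P.t * bl O.length := by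
    have : (rndP.todo cx ((s, w0, u0, O), tb)).length = tb.length + 1 := by simp [rndP, colP]
    unfold Part.pri
    rw [this]
    have : 4 * cx.P.t * bl O.length = 2 * (2 * cx.P.t * bl O.length) := by ring
    omega
  refine env.r φ k _ (· ≠ none) hk (z1.trans hB) (z2.trans hB) (by omega)
    (colP_loc (B1 := cx.pd ^ 3) (z3.trans hB) (fun e he => ?_) fun acc h1 h2 => ?_)
  · obtain ⟨a, a1, a2⟩ := ex_post env (f := .inl (cx.sub s O tb e)) (r.sub_wf he)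
      (x.p3 _ (φ - rndP.pri cx ((s, w0, u0, O), tb)) O.length (r.sub_wf he)
        (Cx.sub_sz (h.sz.mono (Nat.sub_le _ _)) e) (by omega) (Nat.sub_le _ _)
        ((h.mono.trans (r.sub_mono he)).emb h.d) ho h.le fun w hw => by
          have b1 := r.sub_shrink hc (by omega) ht he hw
          rw [h.card] at b1
          refine b1.trans (Nat.mul_le_mul_right _ (Finset.card_le_card fun y hy => ?_))
          obtain ⟨y1, g, g1, g2⟩ := mem_orb.1 hy
          exact mem_orb.2 ⟨h.d ▸ y1, g, h.mono.h g1, g2⟩)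
    have := Cx.Post.size hc (r.sub_wf he) (r := some a) fun b e => Option.some.inj e ▸ a2
    exact ⟨a, a1, le_trans (by simp) this⟩
  · have k2 : ∀ p ∈ acc, cx.Post (cx.sub s O tb p.1) p.2 := fun p hp =>
      env.snd _ _ (.inl _) _ (r.sub_wf ((show acc.map Prod.fst = tb from h1) ▸
        List.mem_map_of_mem hp)) (h2 p hp)
    obtain ⟨a, a1, a2⟩ := ex_post env (f := iD ((s, w0, u0, O), newTab acc))
      ⟨h.gi, r.next hc h1 k2⟩ (ih acc h1 k2)
    have := Cx.Post.size hc r.wf.toWF0 (r := some a) fun b e => Option.some.inj e ▸ a2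
    exact ⟨a, a1, le_trans (by simp) this⟩

theorem oneC_iff : cx.oneC s O = true ↔
    ∀ u ∈ O, ∀ u' ∈ O, cx.col s false [u] = cx.col s false [u'] := by
  simp [Cx.oneC]

/-- the dispatch -/
theorem dsp_wins (env : Env cx B E) (hc : cx.Ok) (hB : cx.pd ^ 13 ≤ B) (z : Sizes cx)
    (full : Full cx E) (x : Ex cx E v O0 w0 u0 φ) : ∀ k s O tb j, Iv cx v O0 w0 u0 φ s O →
      cx.Rk s O tb → tb.length ≤ O.length ^ cx.P.t * O.length ^ cx.P.t →
      LC.Win (cx.lx s O) s.X tb j →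
      O.length * (2 * cx.b1 + 4) + 2 * (cx.b1 + 1) + 4 ≤ k + 2 * j → j ≤ cx.b1 + 1 →
      E φ k (iD ((s, w0, u0, O), tb)) ≠ none := by
  intro k
  induction k using Nat.strong_induction_on with
  | _ k ih =>
  intro s O tb j h r hl hw hk hj
  have t := hc.tau
  have f := x.fuel
  have o1 : 1 ≤ O.length := h.card ▸ Finset.card_pos.2 h.iso.1
  have o2 := Nat.mul_le_mul_right (2 * cx.b1 + 4) o1
  obtain ⟨l1, l2⟩ := tb_le hc r hl
  obtain ⟨z1, z2, z3⟩ := z.rd s φ O tb w0 u0 h.sz r h.w h.u l1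
  have b3 := (pow_le hc (show 3 ≤ 13 by norm_num)).trans hB
  have hd : ∀ w ∈ s.X, ∃ u ∈ O.toFinset, v.Γ.E2 w0 u0 w u := fun w hw =>
    let ⟨u, a, b⟩ := h.hd w hw; ⟨u, List.mem_toFinset.2 a, b⟩
  have sp := dsp_snd (r := ((s, w0, u0, O), tb)) hc ⟨h.gi, r⟩
  suffices key : ansOf (E φ (k - 1)) (E (φ - (2 * cx.lam + 6)) cx.mE) false
      (cx.dsp ((s, w0, u0, O), tb)) ≠ none by
    refine one_wins env.d hc b3 (z1.trans hB) (by omega) (by omega) r.wf.toWF0 ?_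
    obtain ⟨a, e⟩ := Option.ne_none_iff_exists'.1 key
    refine ⟨a, e, ?_⟩
    rw [lmul_one]
    refine sp.2 a ?_
    unfold ansOf at e
    cases hb : (cx.dsp ((s, w0, u0, O), tb)).1 <;> rw [hb] at e
    · exact env.snd _ _ _ _ sp.1 e
    · exact env.snd _ _ _ _ sp.1 e
  clear sp
  unfold Cx.dsp
  rw [Cx.length_utau]
  cases c1 : Nat.blt O.length (4 * cx.P.tau)
  case true =>
    exact x.p2 s _ O.toFinset r.wf.toWF0 (h.sz.mono (Nat.sub_le _ _)) (by omega) (Nat.sub_le _ _)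
      h.mono h.sub h.iso hd (Or.inl (h.card ▸ Nat.blt_eq ▸ c1))
  have ho : 4 * cx.P.tau ≤ O.length := by
    by_contra n
    rw [show Nat.blt O.length (4 * cx.P.tau) = true from Nat.blt_eq ▸ not_le.1 n] at c1
    cases c1
  cases c2 : cx.oneC (cx.plus s O tb) O
  case false =>
    change E φ (k - 1) (iC ((s, w0, u0, O), tb)) ≠ none
    refine cut_wins env.c hc b3 (z1.trans hB) (by omega) (by omega) h.gi h.w h.u
      (show 4 ≤ O.length by omega) (h.gam ▸ h.hd) (by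
        by_contra n
        rw [oneC_iff.2 fun u hu u' hu' => by_contra fun e => n ⟨u, hu, u', hu', e⟩] at c2
        cases c2) (fun s2 O2 g n e l _ i hh => ?_) fun s2 ψ a1 a2 n hh => ?_
    · have i2 := h.next g n e i hh
      have l' : (O2.length + 1) * (2 * cx.b1 + 4) ≤ O.length * (2 * cx.b1 + 4) :=
        Nat.mul_le_mul_right _ l
      rw [Nat.add_mul] at l'
      obtain ⟨a, a1, a2⟩ := ex_post env (f := iD (cx.rd0 s2 w0 u0 O2)) (g.rd0 hc _ _)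
        (ih (k - 1 - 1) (by omega) s2.nrm O2 _ 0 i2 (g.rd0 hc w0 u0).2
          ((LC.length_tab0 _).trans (by
            have := LC.length_tups (cx.lx s2 O2)
            rw [show (cx.lx s2 O2).2.2.2.2.length = cx.P.t from Cx.length_ut cx] at this
            exact Nat.mul_le_mul this this)) (LC.win_zero _) (by omega) (by omega))
      exact ⟨a, a1, Cx.Post.of_nrm a2⟩
    · exact ex_post env (f := .inl s2) n.wf.toWF0 (x.p1 s2 ψ n.wf.toWF0
        ((n.sz h.sz).mono (Nat.sub_le _ _)) a1 a2 (h.mono.trans n.mono) fun w hw =>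
          let ⟨u, b1, b2, b3⟩ := hh w hw
          ⟨u, h.sub (List.mem_toFinset.2 b1), h.gam ▸ b2,
            b3.trans (Nat.mul_le_mul_left _ h.le)⟩)
  cases c3 : trB cx.par (cx.plus s O tb).q false O cx.utau
  case false =>
    have pw := r.plus_wf hc
    refine x.p2 _ _ O.toFinset pw.toWF0 (h.sz.grow hc (r.plus_grow hc) le_rfl (by omega))
      (by omega) (Nat.sub_le _ _) (h.mono.trans (r.plus_mono hc)) h.sub h.iso hd
      (Or.inr ⟨h.card ▸ ho, h.gi.gi, ⟨h.iso.1, r.plus_inv hc, fun a ha b hb => ?_⟩, fun n => ?_⟩)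
    · have a1 := List.mem_toFinset.1 ha
      have b1 := List.mem_toFinset.1 hb
      exact (pw.col_E1 hc (r.wf.toWF0.dA (r.od a a1)) (r.wf.toWF0.dA (r.od b b1))).1
        (oneC_iff.1 c2 a a1 b b1)
    · rw [(r.trB_iff hc).2 n] at c3
      cases c3
  have ht := (r.trB_iff hc).1 c3
  have con := r.con hc (by omega) ht
  have m : bl O.length ≤ bl O0.card := bl_mono h.le
  have m' := Nat.mul_le_mul_left (4 * cx.P.t) m
  have m'' : cx.P.s * bl O.length ≤ 4 * cx.P.t * bl O.length := Nat.mul_le_mul_right _ (by omega)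
  cases c4 : LC.keepL (cx.fd s O tb).2.2.1 s.X
  case true =>
    refine full (cx.fd s O tb) φ (k - 1) (r.fok hc (LC.keepL_iff.1 c4)) h.sz
      (r.giant hc (by omega) con) ho (show _ + cx.P.s * bl O.length ≤ φ by omega) (by omega)
      fun s2 ψ a1 a2 a3 a4 a5 a6 => ?_
    change φ - (_ + cx.P.s * bl O.length) ≤ ψ at a5
    refine x.p3 s2 ψ O.length a1 (h.sz.grow hc a2 le_rfl (by omega)) (by omega) a6
      (h.mono.emb_trans h.d a3) ho h.le ?_
    rw [← h.card]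
    refine full_shrink x.ok r.wf.view_ok h.mono h.d a3 (invF_of r.inv) h.gi.gi (h.card ▸ ho)
      (fun w hw => ?_) fun g hg => mem_fixF.2 fun p hp =>
        mem_fixS.1 (a4 hg) p (List.mem_toFinset.1 hp)
    obtain ⟨u, u1, u2⟩ := hd w (List.mem_toFinset.1 hw)
    exact ⟨u, u1, x.alg w (h.mono.x hw) u (h.sub u1) u2⟩
  obtain ⟨a0, ha0⟩ := Cx.exists_tup hc r (by omega)
  have hj' : j ≤ cx.b1 := (hw.le ha0).trans (h.sz.le hc).2.1
  refine rnd_wins env hc hB z x h r hl ho ht (by omega) fun acc h1 h2 => ?_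
  refine ih (k - 1 - 1) (by omega) s O _ (j + 1) h (r.next hc h1 h2)
    ((Cx.length_newTab acc).trans (by rw [← List.length_map Prod.fst, h1]; exact hl))
    ((r.lx hc).win_step r.ok con r.wf.xd hw (fun n => ?_) (r.step hc h1 h2)) (by omega) (by omega)
  exact Bool.false_ne_true (c4.symm.trans (LC.keepL_iff.2 n))

/-- the module wins if the full case does -/
theorem wins (hZ : ∀ cx, Cx.Ok cx → Sizes cx)
    (hF : ∀ cx E, Cx.Ok cx → Env cx (cx.pd ^ 15) E → Full cx E) : giM.Wins RGiant := by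
  refine ⟨17, fun cx B E hc hB en φ φ' s hφ w0f sz R => ?_⟩
  obtain ⟨O, w0, u0, i1, i2, i3, i4, i5, i6, i7, p1, p2, p3⟩ := R
  have bg := big hc
  have env : Env cx (cx.pd ^ 15) E := env_of en (Nat.one_le_pow _ _ (by omega)) (le_trans (by
    rw [show cx.pd ^ 17 = cx.pd * cx.pd * cx.pd ^ 15 by ring]
    exact Nat.mul_le_mul_right _ (by nlinarith)) hB)
  have z := hZ cx hc
  have wf := sz.wf w0f
  obtain ⟨z1, z2, z3⟩ := z.ent s φ' sz wf
  have g : cx.P.g = 16 * (cx.lam + 1) := rfl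
  have cs : ∀ o, cx.P.cst o = cx.P.g + 4 * cx.P.t * bl o := fun _ => rfl
  have c0 : cx.c0 = 2 * cx.lam + 9 := rfl
  have pe : entP.pri cx s ≤ 3 * cx.lam + 6 := by unfold Part.pri; omega
  rw [cs] at i7
  have call : ∀ a ψ s2, cx.WF0 s2 → cx.Sz s2 (φ' - entP.pri cx s - (cx.lam + 1)) →
      a + cx.c0 ≤ ψ → ψ ≤ φ' - entP.pri cx s →
      cx.Wn (fun ψ s' => E ψ cx.mE (.inl s')) a (cx.view s2) → E ψ cx.mE (.inl s2) ≠ none :=
    fun a ψ s2 a1 a2 a3 a4 a5 => by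
      have := a5 (ψ - cx.c0) (by omega) s2 a1 (a2.mono (by omega)) rfl
      rwa [Nat.sub_add_cancel (by omega)] at this
  have x : Ex cx E (cx.view s) O w0 u0 (φ' - entP.pri cx s) :=
    ⟨wf.view_ok, i6, by omega,
      fun s2 ψ a1 a2 a3 a4 a5 a6 => call _ ψ s2 a1 a2 (by omega) a4
        (p1 _ (a2.wf a1).view_ok a5 fun w hw => a6 w (List.mem_toFinset.1 hw)),
      fun s2 ψ O' a1 a2 a3 a4 a5 a6 a7 a8 a9 => call _ ψ s2 a1 a2 (by omega) a4
        (p2 _ O' (a2.wf a1).view_ok a5 a6 a7 (fun w hw => a8 w (List.mem_toFinset.1 hw)) a9),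
      fun s2 ψ o a1 a2 a3 a4 a5 a6 a7 a8 => call _ ψ s2 a1 a2 (by
        have := Nat.mul_le_mul_left (4 * cx.P.t) (bl_mono a7)
        rw [cs]; omega) a4 (p3 _ o (a2.wf a1).view_ok a5 a6 a7 a8)⟩
  have u1 : u0 ∈ s.D := List.mem_toFinset.1 (i1.2.1 i4)
  have w1 : w0 ∈ s.D := List.mem_toFinset.1 i3
  obtain ⟨o1, o2, o3, o4, o5, o6⟩ := wf.ob_view hc u1
  have eO : (cx.ob s u0).toFinset = O := o4.trans (i1.2.2 u0 i4)
  have gi : cx.Gi s (cx.ob s u0) := ⟨wf, o2, fun _ hx => o1.subset hx, o3, eO ▸ i2⟩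
  have b3 := pow_le hc (show 3 ≤ 15 by norm_num)
  have b13 := pow_le hc (show 13 ≤ 15 by norm_num)
  have sz1 := sz.mono (Nat.sub_le φ' (entP.pri cx s))
  refine env.e φ' cx.mE s (· ≠ none) Nat.one_le_two_pow (z1.trans b13)
    (z2.trans (pow_le hc (by norm_num))) (by omega)
    (tryP_loc_paid (Nat.one_le_pow _ _ (by omega)) (fun _ p hp => ?_) fun _ =>
      ⟨iN (s, w0, u0, cx.ob s u0), List.mem_map.2 ⟨(w0, u0), (Cx.mem_ptrs hc wf).2 ⟨w1, u1, gi⟩,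
        rfl⟩, ?_⟩)
  · obtain ⟨q, hq, rfl⟩ := List.mem_map.1 hp
    have q1 := ((Cx.mem_ptrs hc wf).1 hq).2.2
    exact ⟨(Cx.Post.size hc w0f fun a e => env.snd _ _ (iN (s, q.1, q.2, _)) a q1 e).trans b3,
      (Cx.Post.size hc w0f fun a e => env.snd _ _ (iN (s, q.1, q.2, _)) a q1 e).trans b3⟩
  have f := x.fuel
  refine one_wins env.n hc b3 ((z.rx s _ _ _ _ sz gi (w0f.dA w1) (w0f.dA u1)).trans b13)
    Nat.one_le_two_pow (by omega) w0f ?_
  have iv : Iv cx (cx.view s) O w0 u0 (φ' - entP.pri cx s) s.nrm (cx.ob s u0) :=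
    ⟨gi.nrm, sz1.nrm, (Cx.Nx.refl wf).mono, rfl, rfl, eO.le, o6, w0f.dA w1, w0f.dA u1,
      fun w hw => let ⟨u, a, b⟩ := i5 w (List.mem_toFinset.2 hw)
        ⟨u, List.mem_toFinset.1 (eO ▸ a), b⟩⟩
  obtain ⟨a, a1, a2⟩ := ex_post env (f := iD (cx.rd0 s w0 u0 (cx.ob s u0))) (gi.rd0 hc _ _)
    (dsp_wins env hc b13 z (hF cx E hc env) x (cx.mE - 1) s.nrm _ _ 0 iv (gi.rd0 hc w0 u0).2
      ((LC.length_tab0 _).trans (by
        have := LC.length_tups (cx.lx s (cx.ob s u0))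
        rw [show (cx.lx s (cx.ob s u0)).2.2.2.2.length = cx.P.t from Cx.length_ut cx] at this
        exact Nat.mul_le_mul this this)) (LC.win_zero _) (by
          have n := hc.nums
          have l := o1.length_le.trans (sz.le hc).2.1
          have l2 := Nat.mul_le_mul_right (2 * cx.b1 + 4) l
          have l3 : 2 ^ cx.lam * 8 ≤ cx.mE := by
            rw [Cx.mE, pow_add]
            exact Nat.mul_le_mul_right _ (Nat.pow_le_pow_right two_pos (by omega))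
          have l4 : 2 ^ 32 * cx.b1 ≤ cx.b1 * cx.b1 := Nat.mul_le_mul_right _ n.2.2.2.1
          have l5 : cx.b1 * (2 * cx.b1 + 4) = 2 * (cx.b1 * cx.b1) + 4 * cx.b1 := by ring
          omega) (Nat.zero_le _))
  exact ⟨a, a1, Cx.Post.of_nrm a2⟩

end GW

end Pool.Agent.P.MP_f1a348_lc.GX
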