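import Pool.Agent.P.MP_f1a348_lc.GX.LibGrp
import Pool.Agent.P.MP_f1a348_lc.GX.LibWS

/-! Graph isomorphism: labels for the orbits of a group on tuples. -/

set_option autoImplicit false
set_option linter.unusedSectionVars false

namespace Pool.Agent.P.MP_f1a348_lc.GX

open Pool.Agent.Lib.Helper47 Pool.Agent.P.MP_f1a348_lc.GI Pool.Agent.P.MP_f1a348_lc.TO

variable {G Ω₀ Ω : Type} [Group G] [DecidableEq G] [MulAction G Ω₀] [DecidableEq Ω₀]
  [MulAction G Ω] [DecidableEq Ω]

/-- some element of `⟨S⟩` moves the tuple `t` to the tuple `l` -/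
def mvT (pad : List Unit) (base : List Ω₀) (S : List G) (t l : List Ω) : Bool :=
  t.length == l.length && (trL pad base (1, S) (t.zip l)).isSome

/-- the number of the orbit of the tuple `l` -/
def olab (pad : List Unit) (base : List Ω₀) (S : List G) (TT : List (List Ω)) (l : List Ω) : ℕ :=
  TT.findIdx (fun t => mvT pad base S t l)

/-- the tuples of `TT`, moved by `τ`, with the numbers of their orbits -/
def orbR (pad : List Unit) (base : List Ω₀) (S : List G) (TT : List (List Ω)) (n0 : ℕ) (τ : G) :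
    List (ℕ × List Ω) :=
  TT.map (fun l => (n0 + olab pad base S TT l, l.map (τ • ·)))

variable {pad : List Unit} {base : List Ω₀} {S : List G} {D : List Ω} {TT : List (List Ω)}

theorem map_eq_iff_zip {f : Ω → Ω} {t l : List Ω} :
    t.map f = l ↔ t.length = l.length ∧ ∀ p ∈ t.zip l, f p.1 = p.2 := by
  induction t generalizing l with
  | nil => cases l <;> simp
  | cons a t ih =>
    cases l with
    | nil => simp
    | cons b l => simp [ih]; tauto

theorem mvT_iff (hf : Faith pad base (gen S)) (hD : InvL (gen S) D) (hp : D.length ≤ pad.length)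
    {t l : List Ω} (ht : ∀ x ∈ t, x ∈ D) :
    mvT pad base S t l = true ↔ ∃ h ∈ gen S, t.map (h • ·) = l := by
  rw [mvT, Bool.and_eq_true, beq_iff_eq, trL_isSome (c := (1, S)) hf
    (fun p hp' => InvL.idx' hD hp (ht _ (List.of_mem_zip hp').1))]
  simp only [map_eq_iff_zip, mem_cs, inv_one, one_mul]
  tauto

theorem olab_smul (hf : Faith pad base (gen S)) (hD : InvL (gen S) D) (hp : D.length ≤ pad.length)
    (hT : ∀ t ∈ TT, ∀ x ∈ t, x ∈ D) {h : G} (hh : h ∈ gen S) (l : List Ω) :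
    olab pad base S TT (l.map (h • ·)) = olab pad base S TT l := by
  have key : ∀ t ∈ TT, mvT pad base S t (l.map (h • ·)) = mvT pad base S t l := fun t ht => by
    rw [Bool.eq_iff_iff, mvT_iff hf hD hp (hT t ht), mvT_iff hf hD hp (hT t ht)]
    constructor
    · rintro ⟨k, hk, e⟩
      refine ⟨h⁻¹ * k, mul_mem (inv_mem hh) hk, ?_⟩
      have := congrArg (List.map (h⁻¹ • ·)) e
      simpa [List.map_map, Function.comp_def, mul_smul] using this
    · rintro ⟨k, hk, rfl⟩
      exact ⟨h * k, mul_mem hh hk, by simp [List.map_map, Function.comp_def, mul_smul]⟩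
  unfold olab
  clear hT
  induction TT with
  | nil => rfl
  | cons t T ih =>
    rw [List.findIdx_cons, List.findIdx_cons, key t (by simp), ih fun s hs => key s (by simp [hs])]

theorem olab_le (pad : List Unit) (base : List Ω₀) (S : List G) (TT : List (List Ω)) (l : List Ω) :
    olab pad base S TT l ≤ TT.length := List.findIdx_le_length

theorem olab_lt (hf : Faith pad base (gen S)) (hD : InvL (gen S) D) (hp : D.length ≤ pad.length)
    (hT : ∀ t ∈ TT, ∀ x ∈ t, x ∈ D) {l : List Ω} (hl : l ∈ TT) :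
    olab pad base S TT l < TT.length :=
  List.findIdx_lt_length_of_exists
    ⟨l, hl, (mvT_iff hf hD hp (hT l hl)).2 ⟨1, one_mem _, by simp⟩⟩

theorem olab_eq_iff (hf : Faith pad base (gen S)) (hD : InvL (gen S) D)
    (hp : D.length ≤ pad.length) (hT : ∀ t ∈ TT, ∀ x ∈ t, x ∈ D) {l l' : List Ω} (hl : l ∈ TT) :
    olab pad base S TT l = olab pad base S TT l' ↔ ∃ h ∈ gen S, l.map (h • ·) = l' := by
  refine ⟨fun e => ?_, fun ⟨h, hh, e⟩ => e ▸ (olab_smul hf hD hp hT hh l).symm⟩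
  have h1 := olab_lt hf hD hp hT hl
  have h2 : olab pad base S TT l' < TT.length := e ▸ h1
  have a1 : mvT pad base S TT[olab pad base S TT l] l = true :=
    List.findIdx_getElem (w := h1)
  have a2 : mvT pad base S TT[olab pad base S TT l'] l' = true :=
    List.findIdx_getElem (w := h2)
  have a3 : TT[olab pad base S TT l'] = TT[olab pad base S TT l] := by simp only [e]
  rw [a3] at a2
  obtain ⟨k, hk, b1⟩ := (mvT_iff hf hD hp (hT _ (List.getElem_mem _))).1 a1
  obtain ⟨k', hk', b2⟩ := (mvT_iff hf hD hp (hT _ (List.getElem_mem _))).1 a2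
  refine ⟨k' * k⁻¹, mul_mem hk' (inv_mem hk), ?_⟩
  generalize TT[olab pad base S TT l] = t at b1 b2
  rw [← b1, ← b2]
  simp [List.map_map, Function.comp_def, mul_smul]

theorem mem_orbR {n0 n : ℕ} {τ : G} {l : List Ω} : (n, l) ∈ orbR pad base S TT n0 τ ↔
    ∃ t ∈ TT, n0 + olab pad base S TT t = n ∧ t.map (τ • ·) = l := by
  simp [orbR]

theorem mem_orbR_one {n0 n : ℕ} {l : List Ω} : (n, l) ∈ orbR pad base S TT n0 1 ↔
    l ∈ TT ∧ n0 + olab pad base S TT l = n := by
  rw [mem_orbR]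
  exact ⟨fun ⟨t, h1, h2, h3⟩ => by
    obtain rfl : t = l := by simpa using h3
    exact ⟨h1, h2⟩, fun h => ⟨l, h.1, h.2, by simp⟩⟩

theorem orbR_lab {n0 : ℕ} {τ : G} {e : ℕ × List Ω} (h : e ∈ orbR pad base S TT n0 τ) :
    n0 ≤ e.1 ∧ e.1 ≤ n0 + TT.length ∧ ∃ t ∈ TT, t.map (τ • ·) = e.2 := by
  obtain ⟨t, h1, h2, h3⟩ := mem_orbR.1 (show (e.1, e.2) ∈ _ from h)
  have := olab_le pad base S TT t
  exact ⟨by omega, by omega, t, h1, h3⟩

theorem length_orbR (n0 : ℕ) (τ : G) : (orbR pad base S TT n0 τ).length = TT.length := by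
  simp [orbR]

/-- every element of the coset keeps the labels -/
theorem orbR_smul (hf : Faith pad base (gen S)) (hD : InvL (gen S) D) (hp : D.length ≤ pad.length)
    {m : ℕ} (hT : ∀ t, t ∈ TT ↔ t.length = m ∧ ∀ x ∈ t, x ∈ D) {τ h : G}
    (hh : h ∈ cs (some (τ, S))) (n0 n : ℕ) (l : List Ω) :
    (n, l) ∈ orbR pad base S TT n0 1 ↔ (n, l.map (h • ·)) ∈ orbR pad base S TT n0 τ := by
  have hT' : ∀ t ∈ TT, ∀ x ∈ t, x ∈ D := fun t ht => ((hT t).1 ht).2
  have hk := mem_cs.1 hh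
  have cl : ∀ k ∈ gen S, ∀ t ∈ TT, t.map (k • ·) ∈ TT := fun k hk t ht =>
    (hT _).2 ⟨by rw [List.length_map, ((hT t).1 ht).1], fun x hx => by
      obtain ⟨y, hy, rfl⟩ := List.mem_map.1 hx
      exact hD k hk y (hT' t ht y hy)⟩
  rw [mem_orbR_one, mem_orbR]
  constructor
  · rintro ⟨h1, h2⟩
    exact ⟨_, cl _ hk l h1, by rw [olab_smul hf hD hp hT' hk, h2],
      by simp [List.map_map, Function.comp_def, mul_smul]⟩
  · rintro ⟨t, h1, h2, h3⟩
    have e : t.map ((τ⁻¹ * h)⁻¹ • ·) = l := by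
      have := congrArg (List.map (h⁻¹ • ·)) h3
      simpa [List.map_map, Function.comp_def, mul_smul] using this
    exact ⟨e ▸ cl _ (inv_mem hk) t h1, by rw [← e, olab_smul hf hD hp hT' (inv_mem hk), h2]⟩

/-- a map that is injective on `U` and agrees on `D` with an element of the coset keeps the
labels -/
theorem orbR_iso (hf : Faith pad base (gen S)) (hD : InvL (gen S) D) (hp : D.length ≤ pad.length)
    {m : ℕ} (hT : ∀ t, t ∈ TT ↔ t.length = m ∧ ∀ x ∈ t, x ∈ D) {τ h : G}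
    (hh : h ∈ cs (some (τ, S))) {U : List Ω} (hU : ∀ x ∈ D, x ∈ U) {ψ : Ω → Ω}
    (h1 : Set.InjOn ψ {x | x ∈ U}) (h2 : ∀ x ∈ D, ψ x = h • x) (n0 n : ℕ) {l : List Ω}
    (hl : ∀ x ∈ l, x ∈ U) :
    (n, l) ∈ orbR pad base S TT n0 1 ↔ (n, l.map ψ) ∈ orbR pad base S TT n0 τ := by
  have e : (∀ x ∈ l, x ∈ D) → l.map ψ = l.map (h • ·) := fun a =>
    List.map_congr_left fun x hx => h2 x (a x hx)
  constructor
  · intro a
    rw [e ((hT l).1 (mem_orbR_one.1 a).1).2]
    exact (orbR_smul hf hD hp hT hh n0 n l).1 a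
  · intro a
    refine (orbR_smul hf hD hp hT hh n0 n l).2 (e (fun x hx => ?_) ▸ a)
    obtain ⟨t, b1, -, b3⟩ := mem_orbR.1 a
    obtain ⟨y, hy, c⟩ := List.mem_map.1 (b3 ▸ List.mem_map_of_mem (f := ψ) hx)
    have hz : (τ⁻¹ * h)⁻¹ • y ∈ D := hD _ (inv_mem (mem_cs.1 hh)) y (((hT t).1 b1).2 y hy)
    have : ψ ((τ⁻¹ * h)⁻¹ • y) = ψ x := by
      rw [h2 _ hz, ← c]; simp [mul_smul]
    exact h1 (hU _ hz) (hl x hx) this ▸ hz

/-- with the labels, local automorphisms on small sets come from the group -/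
theorem wsys_orb (hf : Faith pad base (gen S)) (hD : InvL (gen S) D) (hp : D.length ≤ pad.length)
    {m M n0 : ℕ} (hT : ∀ t, t ∈ TT ↔ t.length = m ∧ ∀ x ∈ t, x ∈ D) (hm : m ≤ M) {X : Sx Ω}
    (hX : ∀ n l, n0 ≤ n → ((n, l) ∈ X.2 ↔ (n, l) ∈ orbR pad base S TT n0 1)) {A : Finset Ω}
    (hA : ∀ x ∈ A, x ∈ D) (hc : A.card ≤ m) {f : Equiv.Perm Ω} (h : (wsys M X).L A f) :
    ∃ g ∈ gen S, ∀ x ∈ A, f x = g • x := by
  rcases A.eq_empty_or_nonempty with rfl | ⟨a, ha⟩
  · exact ⟨1, one_mem _, by simp⟩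
  have h1 : ∀ x ∈ A.toList ++ List.replicate (m - A.card) a, x ∈ A := fun x hx => by
    rcases List.mem_append.1 hx with hx | hx
    · exact Finset.mem_toList.1 hx
    · exact (List.eq_of_mem_replicate hx) ▸ ha
  have h2 : A.toList ++ List.replicate (m - A.card) a ∈ TT :=
    (hT _).2 ⟨by simp; omega, fun x hx => hA x (h1 x hx)⟩
  have h3 := (wsys_rel h (n0 + olab pad base S TT (A.toList ++ List.replicate (m - A.card) a)) h1
    ((Finset.card_le_card fun x hx => h1 x (List.mem_toFinset.1 hx)).trans (hc.trans hm))).1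
    ((hX _ _ (Nat.le_add_right _ _)).2 (mem_orbR_one.2 ⟨h2, rfl⟩))
  have h4 := (mem_orbR_one.1 ((hX _ _ (Nat.le_add_right _ _)).1 h3)).2
  obtain ⟨g, hg, e⟩ := (olab_eq_iff hf hD hp (fun t ht => ((hT t).1 ht).2) h2).1
    (Nat.add_left_cancel h4).symm
  exact ⟨g, hg, fun x hx => (List.map_inj_left.1 e x
    (List.mem_append_left _ (Finset.mem_toList.2 hx))).symm⟩

/-- all tuples of one length -/
theorem mem_tuples_iff {β : Type} {u : List β} (hp : D.length ^ u.length ≤ pad.length)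
    (t : List Ω) : t ∈ tuples pad D u ↔ t.length = u.length ∧ ∀ x ∈ t, x ∈ D :=
  ⟨tuples_sound, fun h => tuples_complete hp h.1 h.2⟩

section time
variable [Enc G] [Enc Ω₀] [Enc Ω] [PG G] [PA G Ω₀] [PA G Ω] {α : Type} [Enc α]

@[fun_prop] theorem pt_mvT {pad : α → List Unit} {base : α → List Ω₀} {S : α → List G}
    {t l : α → List Ω} (h1 : PT pad) (h2 : PT base) (h3 : PT S) (h4 : PT t) (h5 : PT l) :
    PT (fun a => mvT (pad a) (base a) (S a) (t a) (l a)) := by
  unfold mvT; fun_prop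

@[fun_prop] theorem pt_olab {pad : α → List Unit} {base : α → List Ω₀} {S : α → List G}
    {TT : α → List (List Ω)} {l : α → List Ω} (h1 : PT pad) (h2 : PT base) (h3 : PT S)
    (h4 : PT TT) (h5 : PT l) : PT (fun a => olab (pad a) (base a) (S a) (TT a) (l a)) := by
  unfold olab; fun_prop

@[fun_prop] theorem pt_orbR {pad : α → List Unit} {base : α → List Ω₀} {S : α → List G}
    {TT : α → List (List Ω)} {n0 : α → ℕ} {τ : α → G} (h1 : PT pad) (h2 : PT base) (h3 : PT S)
    (h4 : PT TT) (h5 : PT n0) (h6 : PT τ) :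
    PT (fun a => orbR (pad a) (base a) (S a) (TT a) (n0 a) (τ a)) := by
  unfold orbR; fun_prop
end time

end Pool.Agent.P.MP_f1a348_lc.GX
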