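import Pool.Agent.P.MP_f1a348_lc.GX.LibEng

/-! Graph isomorphism: an engine is assembled from parts, one for each kind of frames. -/

set_option autoImplicit false
set_option linter.unusedSectionVars false

namespace Pool.Agent.P.MP_f1a348_lc.GX

open Pool.Agent.Lib.Helper47

@[fun_prop] theorem pt_sumElim {α β γ δ : Type} [Enc α] [Enc β] [Enc γ] [Enc δ] {s : α → β ⊕ γ}
    {f : α → β → δ} {g : α → γ → δ} (hs : PT s) (hf : PT (fun p : α × β => f p.1 p.2))
    (hg : PT (fun p : α × γ => g p.1 p.2)) : PT (fun a => Sum.elim (f a) (g a) (s a)) := by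
  have h := PT.optElim (c := fun a b => [f a b]) (PT.getLeft? hs)
    (PT.optElim (c := fun a b => [g a b]) (PT.getRight? hs) (PT.const []) (by fun_prop))
    (by fun_prop)
  refine PT.fst (h.cast (g := fun a => (Sum.elim (f a) (g a) (s a), ())) fun a => ?_)
  cases s a <;> rfl

/-- the program of the frames `X`; the frames that are called have the type `F` -/
structure Part (C F X T S A : Type) where
  todo : C → X → List T
  ini : C → X → S
  call : C → X → T → S → Option (Bool × F)
  upd : C → X → T → S → Option A → S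
  fin : C → X → S → Option A

namespace Part

variable {C F X T S A X' T' S' X'' T'' S'' : Type}

/-- two kinds of frames -/
def sum (P : Part C F X T S A) (Q : Part C F X' T' S' A) :
    Part C F (X ⊕ X') (T ⊕ T') (S ⊕ S') A where
  todo c := Sum.elim (fun x => (P.todo c x).map .inl) (fun x => (Q.todo c x).map .inr)
  ini c := Sum.elim (fun x => .inl (P.ini c x)) (fun x => .inr (Q.ini c x))
  call c x t s := Sum.elim
    (fun x => Sum.elim (fun t => Sum.elim (fun s => P.call c x t s) (fun _ => none) s)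
      (fun _ => none) t)
    (fun x => Sum.elim (fun _ => none)
      (fun t => Sum.elim (fun _ => none) (fun s => Q.call c x t s) s) t) x
  upd c x t s r := Sum.elim
    (fun x => Sum.elim (fun t => Sum.elim (fun s => .inl (P.upd c x t s r)) .inr s)
      (fun _ => s) t)
    (fun x => Sum.elim (fun _ => s)
      (fun t => Sum.elim .inl (fun s => .inr (Q.upd c x t s r)) s) t) x
  fin c x s := Sum.elim (fun x => Sum.elim (fun s => P.fin c x s) (fun _ => none) s)
    (fun x => Sum.elim (fun _ => none) (fun s => Q.fin c x s) s) x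

/-- the engine -/
def eng (P : Part C F F T S A) : Eng C F T S A := ⟨P.todo, P.ini, P.call, P.upd, P.fin⟩

/-- local soundness of the frame `x`: its answers satisfy `R` -/
def Snd (P : Part C F X T S A) (c : C) (Pre : F → Prop) (Post : F → A → Prop) (x : X)
    (R : A → Prop) : Prop :=
  ∃ Inv : List T → S → Prop, Inv [] (P.ini c x) ∧
    (∀ u t v s, P.todo c x = u ++ t :: v → Inv u s → P.call c x t s = none → Inv (u ++ [t]) s) ∧
    (∀ u t v s b g, P.todo c x = u ++ t :: v → Inv u s → P.call c x t s = some (b, g) →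
      Pre g ∧ ∀ r : Option A, (∀ a, r = some a → Post g a) → Inv (u ++ [t]) (P.upd c x t s r)) ∧
    ∀ s a, Inv (P.todo c x) s → P.fin c x s = some a → R a

section sizes
variable [Enc F] [Enc X] [Enc T] [Enc S] [Enc X'] [Enc T'] [Enc S'] [Enc X''] [Enc T''] [Enc S'']

/-- the local run of the frame `x`: the first free call is answered by `e1`, the other calls by
`e2`, all states have size at most `B`, the outcome satisfies `R` -/
def Loc (P : Part C F X T S A) (c : C) (B : ℕ) (e1 e2 : F → Option A) (x : X)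
    (R : Option A → Prop) : Prop :=
  ∃ J : List T → Bool → S → Prop, (size (P.ini c x) ≤ B ∧ J [] false (P.ini c x)) ∧
    (∀ u t v b s, P.todo c x = u ++ t :: v → J u b s → P.call c x t s = none → J (u ++ [t]) b s) ∧
    (∀ u t v b s fr g r, P.todo c x = u ++ t :: v → J u b s → P.call c x t s = some (fr, g) →
      r = (bif fr && !b then e1 g else e2 g) →
      size (P.upd c x t s r) ≤ B ∧ J (u ++ [t]) (b || fr) (P.upd c x t s r)) ∧
    ∀ b s, J (P.todo c x) b s → R (P.fin c x s)

/-- `P` is a part of `Q` -/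
structure Emb (P : Part C F X T S A) (Q : Part C F X' T' S' A) (d : ℕ) where
  f : X → X'
  t : T → T'
  s : S → S'
  todo : ∀ c x, Q.todo c (f x) = (P.todo c x).map t
  ini : ∀ c x, Q.ini c (f x) = s (P.ini c x)
  call : ∀ c x y z, Q.call c (f x) (t y) (s z) = P.call c x y z
  upd : ∀ c x y z r, Q.upd c (f x) (t y) (s z) r = s (P.upd c x y z r)
  fin : ∀ c x z, Q.fin c (f x) (s z) = P.fin c x z
  sf : ∀ x, size (f x) ≤ size x + d
  st : ∀ y, size (t y) ≤ size y + d
  ss : ∀ z, size (s z) ≤ size z + d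

theorem size_inl (x : X) : size (Sum.inl x : X ⊕ X') = size x + 4 := by
  change size ((some x, none) : Option X × Option X') = _
  simp

theorem size_inr (x : X') : size (Sum.inr x : X ⊕ X') = size x + 4 := by
  change size ((none, some x) : Option X × Option X') = _
  simp; omega

namespace Emb

/-- a part of itself -/
def refl (P : Part C F X T S A) : Emb P P 0 :=
  ⟨id, id, id, fun _ _ => (List.map_id _).symm, fun _ _ => rfl, fun _ _ _ _ => rfl,
    fun _ _ _ _ _ => rfl, fun _ _ _ => rfl, fun _ => le_rfl, fun _ => le_rfl, fun _ => le_rfl⟩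

variable {P : Part C F X T S A} {Q : Part C F X' T' S' A} {d : ℕ}

/-- into the left summand -/
def inl (e : Emb P Q d) (W : Part C F X'' T'' S'' A) : Emb P (Q.sum W) (d + 4) where
  f x := .inl (e.f x)
  t y := .inl (e.t y)
  s z := .inl (e.s z)
  todo c x := by simp [sum, e.todo]
  ini c x := by simp [sum, e.ini]
  call c x y z := e.call c x y z
  upd c x y z r := congrArg Sum.inl (e.upd c x y z r)
  fin c x z := e.fin c x z
  sf x := by have := e.sf x; rw [size_inl]; omega
  st x := by have := e.st x; rw [size_inl]; omega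
  ss x := by have := e.ss x; rw [size_inl]; omega

/-- into the right summand -/
def inr (e : Emb P Q d) (W : Part C F X'' T'' S'' A) : Emb P (W.sum Q) (d + 4) where
  f x := .inr (e.f x)
  t y := .inr (e.t y)
  s z := .inr (e.s z)
  todo c x := by simp [sum, e.todo]
  ini c x := by simp [sum, e.ini]
  call c x y z := e.call c x y z
  upd c x y z r := congrArg Sum.inr (e.upd c x y z r)
  fin c x z := e.fin c x z
  sf x := by have := e.sf x; rw [size_inr]; omega
  st x := by have := e.st x; rw [size_inr]; omega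
  ss x := by have := e.ss x; rw [size_inr]; omega

theorem split (e : Emb P Q d) {c : C} {x : X} {u v : List T'} {t : T'} {u0 v0 : List T}
    (h : Q.todo c (e.f x) = u ++ t :: v) (h0 : P.todo c x = u0 ++ v0) (hu : u = u0.map e.t) :
    ∃ t0 v1, v0 = t0 :: v1 ∧ t = e.t t0 := by
  rw [e.todo, h0, hu, List.map_append, List.append_cancel_left_eq] at h
  cases v0 with
  | nil => cases h
  | cons t0 v1 => exact ⟨t0, v1, rfl, (List.cons.inj h).1.symm⟩

theorem whole (e : Emb P Q d) {c : C} {x : X} {u0 v0 : List T}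
    (h0 : P.todo c x = u0 ++ v0) (hu : Q.todo c (e.f x) = u0.map e.t) : P.todo c x = u0 := by
  have := congrArg List.length hu
  rw [e.todo, h0] at this
  simp only [List.length_map, List.length_append] at this
  rw [h0, List.length_eq_zero_iff.1 (show v0.length = 0 by omega), List.append_nil]

theorem snd (e : Emb P Q d) {c : C} {Pre : F → Prop} {Post : F → A → Prop} {x : X} {R : A → Prop}
    (h : P.Snd c Pre Post x R) : Q.Snd c Pre Post (e.f x) R := by
  obtain ⟨I, h0, h1, h2, h3⟩ := h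
  refine ⟨fun u s => ∃ u0 v0 s0, P.todo c x = u0 ++ v0 ∧ u = u0.map e.t ∧ s = e.s s0 ∧ I u0 s0,
    ⟨[], _, _, rfl, rfl, e.ini c x, h0⟩, ?_, ?_, ?_⟩
  · rintro u t v s a1 ⟨u0, v0, s0, b1, b2, rfl, b4⟩ a3
    obtain ⟨t0, v1, rfl, rfl⟩ := e.split a1 b1 b2
    rw [e.call] at a3
    exact ⟨u0 ++ [t0], v1, s0, by simp [b1], by simp [b2], rfl, h1 _ _ _ _ b1 b4 a3⟩
  · rintro u t v s b g a1 ⟨u0, v0, s0, b1, b2, rfl, b4⟩ a3
    obtain ⟨t0, v1, rfl, rfl⟩ := e.split a1 b1 b2
    rw [e.call] at a3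
    obtain ⟨c1, c2⟩ := h2 _ _ _ _ _ _ b1 b4 a3
    exact ⟨c1, fun r hr => ⟨u0 ++ [t0], v1, _, by simp [b1], by simp [b2], e.upd _ _ _ _ _,
      c2 r hr⟩⟩
  · rintro s a ⟨u0, v0, s0, b1, b2, rfl, b4⟩ a3
    rw [e.fin] at a3
    exact h3 s0 a (e.whole b1 b2 ▸ b4) a3

theorem loc (e : Emb P Q d) {c : C} {B : ℕ} {e1 e2 : F → Option A} {x : X} {R : Option A → Prop}
    (h : P.Loc c B e1 e2 x R) : Q.Loc c (B + d) e1 e2 (e.f x) R := by
  obtain ⟨I, h0, h1, h2, h3⟩ := h
  refine ⟨fun u b s => ∃ u0 v0 s0, P.todo c x = u0 ++ v0 ∧ u = u0.map e.t ∧ s = e.s s0 ∧ I u0 b s0,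
    ⟨?_, [], _, _, rfl, rfl, e.ini c x, h0.2⟩, ?_, ?_, ?_⟩
  · have := e.ss (P.ini c x)
    rw [e.ini]; omega
  · rintro u t v b s a1 ⟨u0, v0, s0, b1, b2, rfl, b4⟩ a3
    obtain ⟨t0, v1, rfl, rfl⟩ := e.split a1 b1 b2
    rw [e.call] at a3
    exact ⟨u0 ++ [t0], v1, s0, by simp [b1], by simp [b2], rfl, h1 _ _ _ _ _ b1 b4 a3⟩
  · rintro u t v b s fr g r a1 ⟨u0, v0, s0, b1, b2, rfl, b4⟩ a3 a4
    obtain ⟨t0, v1, rfl, rfl⟩ := e.split a1 b1 b2
    rw [e.call] at a3
    obtain ⟨c1, c2⟩ := h2 _ _ _ _ _ _ _ _ b1 b4 a3 a4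
    have := e.ss (P.upd c x t0 s0 r)
    rw [e.upd]
    exact ⟨by omega, u0 ++ [t0], v1, _, by simp [b1], by simp [b2], rfl, c2⟩
  · rintro b s ⟨u0, v0, s0, b1, b2, rfl, b4⟩
    rw [e.fin]
    exact h3 b s0 (e.whole b1 b2 ▸ b4)

theorem size_todo (e : Emb P Q d) (c : C) (x : X) :
    size (Q.todo c (e.f x)) ≤ (d + 1) * size (P.todo c x) := by
  rw [e.todo]
  induction P.todo c x with
  | nil => simp
  | cons t l ih =>
    have := e.st t
    have := size_pos t
    simp only [List.map_cons, size_cons]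
    nlinarith
end Emb

variable {Q : Part C F F T' S' A} {P : Part C F X T S A} {d : ℕ} {k : Cfg C}

/-- soundness of an engine from the local soundness of all frames -/
theorem sound {Pre : F → Prop} {Post : F → A → Prop}
    (h : ∀ f, Pre f → Q.Snd k.1 Pre Post f (Post f)) {φ m : ℕ} {f : F} {a : A} (hf : Pre f)
    (e : Q.eng.ev k φ m f = some a) : Post f a := by
  choose! I h0 h1 h2 h3 using h
  exact Eng.sound (E := Q.eng) Pre Post I h0 (fun f u t v s hf => h1 f hf u t v s)
    (fun f u t v s b g hf => h2 f hf u t v s b g) (fun f s a hf => h3 f hf s a) φ m f a hf e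

/-- the price of the calls of a frame -/
def price (P : Part C F X T S A) (k : Cfg C) (x : X) : ℕ :=
  (P.todo k.1 x).length.bits.length + k.2.2.1 + 1

/-- the outcome of a frame of the part `P` -/
theorem Emb.halt (e : Emb P Q d) {φ m B : ℕ} {x : X} {R : Option A → Prop} (hm : 0 < m)
    (hB : B + d ≤ k.2.1) (hx : size x ≤ B) (ht : (d + 1) * size (P.todo k.1 x) ≤ k.2.1)
    (hp : P.price k x ≤ φ)
    (h : P.Loc k.1 B (Q.eng.ev k φ (m - 1)) (Q.eng.ev k (φ - P.price k x) k.2.2.2) x R) :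
    R (Q.eng.ev k φ m (e.f x)) := by
  have hc : Q.eng.cost k (e.f x) = P.price k x := by
    simp only [Eng.cost, price, eng, e.todo, List.length_map]
  have ha : Q.eng.alive k φ m (e.f x) = true := (Q.eng.alive_iff k).2
    ⟨hm, by have := e.sf x; omega, (e.size_todo k.1 x).trans ht, hc ▸ hp⟩
  obtain ⟨J, h0, h1, h2, h3⟩ := e.loc h
  obtain ⟨b, s, a1, a2⟩ := Eng.halt ha J ⟨h0.1.trans hB, h0.2⟩ h1
    (fun u t v b s fr g r a1 a2 a3 a4 => by
      obtain ⟨c1, c2⟩ := h2 u t v b s fr g r a1 a2 a3 (hc ▸ a4)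
      exact ⟨c1.trans hB, c2⟩)
  rw [a2]
  exact h3 b s a1

variable [Enc C] [Enc A]

/-- all functions of a part run in polynomial time -/
structure Poly (P : Part C F X T S A) : Prop where
  todo : PT (fun x : C × X => P.todo x.1 x.2)
  ini : PT (fun x : C × X => P.ini x.1 x.2)
  call : PT (fun x : C × X × T × S => P.call x.1 x.2.1 x.2.2.1 x.2.2.2)
  upd : PT (fun x : C × X × T × S × Option A => P.upd x.1 x.2.1 x.2.2.1 x.2.2.2.1 x.2.2.2.2)
  fin : PT (fun x : C × X × S => P.fin x.1 x.2.1 x.2.2)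

theorem Poly.eng (h : Q.Poly) : Q.eng.Poly := ⟨h.todo, h.ini, h.call, h.upd, h.fin⟩

theorem Poly.sum {W : Part C F X' T' S' A} (h : P.Poly) (h' : W.Poly) : (P.sum W).Poly where
  todo := by
    have a1 := h.todo.comp (g := fun p : (C × (X ⊕ X')) × X => (p.1.1, p.2)) (by fun_prop)
    have a2 := h'.todo.comp (g := fun p : (C × (X ⊕ X')) × X' => (p.1.1, p.2)) (by fun_prop)
    exact pt_sumElim (by fun_prop) (PT.map (by fun_prop) a1) (PT.map (by fun_prop) a2)
  ini := by
    have a1 := h.ini.comp (g := fun p : (C × (X ⊕ X')) × X => (p.1.1, p.2)) (by fun_prop)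
    have a2 := h'.ini.comp (g := fun p : (C × (X ⊕ X')) × X' => (p.1.1, p.2)) (by fun_prop)
    exact pt_sumElim (by fun_prop) (PT.inl a1) (PT.inr a2)
  call := by
    refine pt_sumElim (by fun_prop) (pt_sumElim (by fun_prop) (pt_sumElim (by fun_prop) ?_
      (PT.const _)) (PT.const _)) (pt_sumElim (by fun_prop) (PT.const _)
      (pt_sumElim (by fun_prop) (PT.const _) ?_))
    · exact h.call.comp (g := fun p : (((C × (X ⊕ X') × (T ⊕ T') × (S ⊕ S')) × X) × T) × S =>
        (p.1.1.1.1, p.1.1.2, p.1.2, p.2)) (by fun_prop)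
    · exact h'.call.comp (g := fun p : (((C × (X ⊕ X') × (T ⊕ T') × (S ⊕ S')) × X') × T') × S' =>
        (p.1.1.1.1, p.1.1.2, p.1.2, p.2)) (by fun_prop)
  upd := by
    refine pt_sumElim (by fun_prop) (pt_sumElim (by fun_prop) (pt_sumElim (by fun_prop)
      (PT.inl ?_) (by fun_prop)) (by fun_prop)) (pt_sumElim (by fun_prop) (by fun_prop)
      (pt_sumElim (by fun_prop) (by fun_prop) (PT.inr ?_)))
    · exact h.upd.comp
        (g := fun p : (((C × (X ⊕ X') × (T ⊕ T') × (S ⊕ S') × Option A) × X) × T) × S =>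
          (p.1.1.1.1, p.1.1.2, p.1.2, p.2, p.1.1.1.2.2.2.2)) (by fun_prop)
    · exact h'.upd.comp
        (g := fun p : (((C × (X ⊕ X') × (T ⊕ T') × (S ⊕ S') × Option A) × X') × T') × S' =>
          (p.1.1.1.1, p.1.1.2, p.1.2, p.2, p.1.1.1.2.2.2.2)) (by fun_prop)
  fin := by
    refine pt_sumElim (by fun_prop) (pt_sumElim (by fun_prop) ?_ (PT.const _))
      (pt_sumElim (by fun_prop) (PT.const _) ?_)
    · exact h.fin.comp (g := fun p : ((C × (X ⊕ X') × (S ⊕ S')) × X) × S =>
        (p.1.1.1, p.1.2, p.2)) (by fun_prop)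
    · exact h'.fin.comp (g := fun p : ((C × (X ⊕ X') × (S ⊕ S')) × X') × S' =>
        (p.1.1.1, p.1.2, p.2)) (by fun_prop)
end sizes

end Part

end Pool.Agent.P.MP_f1a348_lc.GX
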