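import Pool.Agent.P.MP_f1a348_lc.GX.LibExt
import Pool.Agent.P.MP_f1a348_lc.GX.LibOrb

/-! Graph isomorphism: injective tuples and the test for transitivity. -/

set_option autoImplicit false
set_option linter.unusedSectionVars false

namespace Pool.Agent.P.MP_f1a348_lc.GX

open Pool.Agent.Lib.Helper47 Pool.Agent.P.MP_f1a348_lc.GI Pool.Agent.P.MP_f1a348_lc.TO

section tr
variable {α β : Type} [DecidableEq α]

/-- no entry occurs twice -/
def ndB (l : List α) : Bool := l.all fun a => l.count a == 1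

theorem ndB_iff {l : List α} : ndB l = true ↔ l.Nodup := by
  rw [List.nodup_iff_count_eq_one]; simp [ndB]

/-- all lists without repetition over `O` of the length of `u` -/
def injT (pad : List Unit) (O : List α) (u : List β) : List (List α) := (tuples pad O u).filter ndB

theorem mem_injT {pad : List Unit} {O : List α} {u : List β}
    (hp : O.length ^ u.length ≤ pad.length) {t : List α} :
    t ∈ injT pad O u ↔ t.length = u.length ∧ (∀ x ∈ t, x ∈ O) ∧ t.Nodup := by
  rw [injT, List.mem_filter, mem_tuples_iff hp, ndB_iff, and_assoc]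

/-- all injective tuples over `O` of the length of `u` have the same colour -/
def trB (p : Par) (q : Sx α × Sx α) (s : Bool) (O : List α) (u : List β) : Bool :=
  (injT p.1 O u).all fun a => (injT p.1 O u).all fun b => WL.cls p q s a == WL.cls p q s b

theorem trB_iff {p : Par} {q : Sx α × Sx α} (h : WL.Ok p q) (s : Bool) {O : List α} {u : List β}
    (hO : ∀ x ∈ O, x ∈ (WL.sd q s).1) (h1 : 1 ≤ u.length) (hM : u.length ≤ p.2.length)
    (hp : O.length ^ u.length ≤ p.1.length) :
    trB p q s O u = true ↔ (wsys p.2.length (WL.sd q s)).Tr O.toFinset u.length := by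
  simp only [trB, List.all_eq_true, mem_injT hp, beq_iff_eq]
  constructor
  · intro e a b ia ib ha hb
    simp only [List.mem_toFinset] at ha hb
    refine (cls_et h s h1 hM (fun i => hO _ (ha i)) fun i => hO _ (hb i)).1 (e _ ?_ _ ?_)
    · exact ⟨by simp, by simpa [List.mem_ofFn] using ha, List.nodup_ofFn.2 ia⟩
    · exact ⟨by simp, by simpa [List.mem_ofFn] using hb, List.nodup_ofFn.2 ib⟩
  · rintro e a ⟨a1, a2, a3⟩ b ⟨b1, b2, b3⟩
    obtain ⟨x, rfl⟩ : ∃ x : Fin u.length → α, List.ofFn x = a :=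
      ⟨fun i => a.get (i.cast a1.symm), by rw [← List.ofFn_congr a1, List.ofFn_get]⟩
    obtain ⟨y, rfl⟩ : ∃ x : Fin u.length → α, List.ofFn x = b :=
      ⟨fun i => b.get (i.cast b1.symm), by rw [← List.ofFn_congr b1, List.ofFn_get]⟩
    have hx : ∀ i, x i ∈ O := fun i => a2 _ (List.mem_ofFn.2 ⟨i, rfl⟩)
    have hy : ∀ i, y i ∈ O := fun i => b2 _ (List.mem_ofFn.2 ⟨i, rfl⟩)
    exact (cls_et h s h1 hM (fun i => hO _ (hx i)) fun i => hO _ (hy i)).2
      (e x y (List.nodup_ofFn.1 a3) (List.nodup_ofFn.1 b3) (fun i => List.mem_toFinset.2 (hx i))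
        fun i => List.mem_toFinset.2 (hy i))

variable [Enc α] [Enc β] {ι : Type} [Enc ι]

@[fun_prop] theorem pt_ndB {l : ι → List α} (h : PT l) : PT fun a => ndB (l a) := by
  unfold ndB; fun_prop

@[fun_prop] theorem pt_injT {pad : ι → List Unit} {O : ι → List α} {u : ι → List β} (h1 : PT pad)
    (h2 : PT O) (h3 : PT u) : PT fun a => injT (pad a) (O a) (u a) := by
  unfold injT; fun_prop

@[fun_prop] theorem pt_trB {p : ι → Par} {q : ι → Sx α × Sx α} {s : ι → Bool} {O : ι → List α}
    {u : ι → List β} (h1 : PT p) (h2 : PT q) (h3 : PT s) (h4 : PT O) (h5 : PT u) :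
    PT fun a => trB (p a) (q a) (s a) (O a) (u a) := by
  unfold trB; fun_prop
end tr

end Pool.Agent.P.MP_f1a348_lc.GX
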