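import Pool.Agent.P.MP_f1a348_lc.GX.TJL
import Pool.Agent.P.MP_f1a348_lc.GX.THH
import Pool.Agent.P.MP_f1a348_lc.GX.TWIEL
import Pool.Agent.P.MP_f1a348_lc.TO.EGrp

/-! Graph isomorphism: giants, supports and flags. -/

set_option autoImplicit false
set_option linter.unusedSectionVars false

namespace Pool.Agent.P.MP_f1a348_lc.GX

open Equiv Finset Function
open scoped Classical

theorem index_le_of_map {Γ β : Type} [Group Γ] (J : Subgroup Γ) (c : Γ → β) (T : Finset β)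
    (h1 : ∀ u, c u ∈ T) (h2 : ∀ u v, c u = c v → u⁻¹ * v ∈ J) : J.index ≤ T.card := by
  have : Nat.card {x // x ∈ T} = T.card := by simp
  rw [← this, Subgroup.index]
  refine Nat.card_le_card_of_injective (fun q => (⟨c q.out, h1 _⟩ : {x // x ∈ T})) fun q q' e => ?_
  rw [← q.out_eq', ← q'.out_eq', QuotientGroup.eq]
  exact h2 _ _ (congrArg Subtype.val e)

/-- levels that shrink by a total factor `ρ` lose potential -/
theorem HH_sum_drop {LL : ℝ} (h : 0 ≤ LL) {ι : Type} (s : Finset ι) (q q' : ι → ℕ)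
    (h1 : ∀ i ∈ s, 1 ≤ q' i) (h2 : ∀ i ∈ s, q' i ≤ q i) {ρ : ℝ} (hρ : 0 < ρ)
    (e : ρ * (∏ i ∈ s, q' i : ℕ) ≤ (∏ i ∈ s, q i : ℕ)) :
    ∑ i ∈ s, HH LL (q' i) + 2 ^ 19 * (LL / 8 + 1) * Real.logb 2 ρ ≤ ∑ i ∈ s, HH LL (q i) := by
  have lp : ∀ r : ι → ℕ, (∀ i ∈ s, 1 ≤ r i) →
      Real.logb 2 (∏ i ∈ s, r i : ℕ) = ∑ i ∈ s, lg (r i) := fun r hr => by
    rw [Nat.cast_prod, Real.logb_prod _ _ fun i hi => Nat.cast_ne_zero.2 (by have := hr i hi; omega)]
    rfl
  have p1 : (0 : ℝ) < (∏ i ∈ s, q' i : ℕ) := Nat.cast_pos.2 (prod_pos fun i hi => h1 i hi)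
  have a1 := Real.logb_le_logb_of_le one_lt_two (mul_pos hρ p1) e
  rw [Real.logb_mul hρ.ne' p1.ne', lp _ h1, lp _ fun i hi => (h1 i hi).trans (h2 i hi)] at a1
  have a2 := sum_le_sum fun i hi => HH_drop h (h1 i hi) (h2 i hi)
  rw [sum_add_distrib, ← mul_sum, sum_sub_distrib] at a2
  have a3 : (0 : ℝ) ≤ 2 ^ 19 * (LL / 8 + 1) := by positivity
  have a4 := mul_le_mul_of_nonneg_left (le_sub_iff_add_le.2 a1) a3
  linarith

section full
variable {G Ω : Type} [Group G] [MulAction G Ω] [DecidableEq Ω]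

/-- `H` induces on `O` all cycles of length three on `P` -/
def GiOn (H : Subgroup G) (O P : Finset Ω) : Prop :=
  ∀ a ∈ P, ∀ b ∈ P, ∀ c ∈ P, a ≠ b → a ≠ c → b ≠ c →
    ∃ g ∈ H, ∀ x ∈ O, g • x = (swap a b * swap a c) x

theorem giOn_self {H : Subgroup G} {O : Finset Ω} : GiOn H O O ↔ Giant H O := Iff.rfl

theorem GiOn.mono {H H' : Subgroup G} {O O' P P' : Finset Ω} (h : GiOn H O P) (e : H ≤ H')
    (e1 : O' ⊆ O) (e2 : P' ⊆ P) : GiOn H' O' P' := fun a ha b hb c hc h1 h2 h3 =>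
  (h a (e2 ha) b (e2 hb) c (e2 hc) h1 h2 h3).imp fun _ hg => ⟨e hg.1, fun x hx => hg.2 x (e1 hx)⟩

theorem giOn_iff {H : Subgroup G} {O P : Finset Ω} (hP : P ⊆ O) :
    GiOn H O P ↔ Alt3 (UNATx.ind H O) (P.subtype (· ∈ O)) := by
  constructor
  · intro h a ha b hb c hc h1 h2 h3
    obtain ⟨g, hg, e⟩ := h a.1 (mem_subtype.1 ha) b.1 (mem_subtype.1 hb) c.1 (mem_subtype.1 hc)
      (Subtype.val_injective.ne h1) (Subtype.val_injective.ne h2) (Subtype.val_injective.ne h3)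
    exact ⟨g, hg, fun x => by rw [e x.1 x.2, UNATx.val_three]⟩
  · intro h a ha b hb c hc h1 h2 h3
    obtain ⟨g, hg, e⟩ := h ⟨a, hP ha⟩ (mem_subtype.2 ha) ⟨b, hP hb⟩ (mem_subtype.2 hb)
      ⟨c, hP hc⟩ (mem_subtype.2 hc) (by simpa using h1) (by simpa using h2) (by simpa using h3)
    exact ⟨g, hg, fun x hx => by rw [e ⟨x, hx⟩, UNATx.val_three]⟩

theorem GiOn.union {H : Subgroup G} {O P P' : Finset Ω} (h : GiOn H O P) (h' : GiOn H O P')
    (hP : P ⊆ O) (hP' : P' ⊆ O) (c : 3 ≤ P.card) (c' : 3 ≤ P'.card) (e : ¬ Disjoint P P') :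
    GiOn H O (P ∪ P') := by
  have k : ∀ Q ⊆ O, (Q.subtype (· ∈ O)).card = Q.card := fun Q hQ => by
    rw [card_subtype, filter_true_of_mem hQ]
  rw [giOn_iff (union_subset hP hP')]
  have : (P ∪ P').subtype (· ∈ O) = P.subtype (· ∈ O) ∪ P'.subtype (· ∈ O) := by
    ext x
    simp
  rw [this]
  refine alt3_union ((giOn_iff hP).1 h) ((giOn_iff hP').1 h') (by rwa [k _ hP]) (by rwa [k _ hP'])
    fun d => e (disjoint_left.2 fun x h1 h2 => ?_)
  exact disjoint_left.1 d (mem_subtype.2 h1 : (⟨x, hP h1⟩ : {x // x ∈ O}) ∈ _) (mem_subtype.2 h2)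

theorem GiOn.conj {H : Subgroup G} {O P : Finset Ω} (hO : InvF H O) (h : GiOn H O P) {g : G}
    (hg : g ∈ H) : GiOn H O (P.image (g • ·)) := by
  intro a' ha' b' hb' c' hc' h1 h2 h3
  obtain ⟨a, ha, rfl⟩ := mem_image.1 ha'
  obtain ⟨b, hb, rfl⟩ := mem_image.1 hb'
  obtain ⟨c, hc, rfl⟩ := mem_image.1 hc'
  obtain ⟨u, hu, e⟩ := h a ha b hb c hc (fun e => h1 (e ▸ rfl)) (fun e => h2 (e ▸ rfl))
    (fun e => h3 (e ▸ rfl))
  refine ⟨g * u * g⁻¹, H.mul_mem (H.mul_mem hg hu) (H.inv_mem hg), fun x hx => ?_⟩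
  rw [mul_smul, mul_smul, e _ (hO _ (H.inv_mem hg) x hx), Perm.mul_apply, Perm.mul_apply,
    (MulAction.injective g).map_swap, (MulAction.injective g).map_swap]
  simp

/-- a stabiliser in a giant is a giant outside a small set -/
theorem supp_exists {F : Subgroup G} {O D : Finset Ω} {L : ℕ} (h : Giant F O) (hD : InvF F D)
    (hc : D.card ≤ 2 ^ L) {p : Ω} (hp : p ∈ D) :
    ∃ S ⊆ O, S.card ≤ 4 * L + 6 ∧ GiOn (F ⊓ MulAction.stabilizer G p) O (O \ S) := by
  have key : ∀ π : Perm {x // x ∈ O}, ∃ g ∈ F, ∀ x : {x // x ∈ O},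
      g • x.1 = (((invFun Perm.sign (Perm.sign π))⁻¹ * π : Perm _) x).1 := fun π =>
    UNATx.even h _ (Perm.mem_alternatingGroup.2 (by
      rw [map_mul, map_inv, invFun_eq (f := Perm.sign) ⟨π, rfl⟩, inv_mul_cancel]))
  choose γ h1 h2 using key
  have hi : (UNATx.ind (F ⊓ MulAction.stabilizer G p) O).index ≤ 2 ^ (L + 1) := by
    refine (index_le_of_map _ (fun π => (Perm.sign π, γ π • p)) (univ ×ˢ D)
      (fun π => mem_product.2 ⟨mem_univ _, hD _ (h1 π) _ hp⟩) fun u v e => ?_).trans ?_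
    · have e1 : Perm.sign u = Perm.sign v := congrArg Prod.fst e
      have e2 : γ u • p = γ v • p := congrArg Prod.snd e
      refine ⟨(γ u)⁻¹ * γ v, ⟨F.mul_mem (F.inv_mem (h1 u)) (h1 v), ?_⟩, fun x => ?_⟩
      · change ((γ u)⁻¹ * γ v) • p = p
        rw [mul_smul, ← e2, inv_smul_smul]
      · rw [mul_smul, inv_smul_eq_iff, h2, h2, e1]
        simp
    · rw [card_product, card_univ, Fintype.card_units_int, pow_succ]
      omega
  obtain ⟨S, s1, s2⟩ := jl hi
  refine ⟨S.image Subtype.val, fun x hx => ?_, card_image_le.trans (by omega), ?_⟩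
  · obtain ⟨y, -, rfl⟩ := mem_image.1 hx
    exact y.2
  · rw [giOn_iff sdiff_subset]
    convert s2 using 1
    ext x
    simp

/-- the orbit of a point of a large set with all cycles of length three has all such cycles -/
theorem GiOn.orbit {H : Subgroup G} {O P : Finset Ω} (hO : InvF H O) (h : GiOn H O P)
    (hP : P ⊆ O) (c : 3 ≤ P.card) (hb : O.card < 2 * P.card) {a : Ω} (ha : a ∈ P) :
    P ⊆ O.filter (fun x => ∃ g ∈ H, g • a = x) ∧
      GiOn H O (O.filter (fun x => ∃ g ∈ H, g • a = x)) := by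
  constructor
  · intro b hb'
    refine mem_filter.2 ⟨hP hb', ?_⟩
    by_cases e : a = b
    · exact ⟨1, H.one_mem, by rw [one_smul, e]⟩
    obtain ⟨d, hd, hd'⟩ := exists_mem_notMem_of_card_lt_card
      (card_le_two.trans_lt c : ({a, b} : Finset Ω).card < P.card)
    rw [mem_insert, mem_singleton, not_or] at hd'
    obtain ⟨g, hg, e'⟩ := h a ha d hd b hb' (Ne.symm hd'.1) e hd'.2
    refine ⟨g, hg, ?_⟩
    rw [e' a (hP ha), Perm.mul_apply, swap_apply_left,
      swap_apply_of_ne_of_ne (Ne.symm e) (Ne.symm hd'.2)]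
  · obtain ⟨P0, h0, h1⟩ := exists_max_image
      (O.powerset.filter (fun Q => GiOn H O Q ∧ P.card ≤ Q.card)) card
      ⟨P, mem_filter.2 ⟨mem_powerset.2 hP, h, le_rfl⟩⟩
    obtain ⟨h2, h3, h4⟩ := mem_filter.1 h0
    rw [mem_powerset] at h2
    refine h3.mono le_rfl subset_rfl fun x hx => ?_
    obtain ⟨g, hg, rfl⟩ := (mem_filter.1 hx).2
    have k1 : (P.image (g • ·)).card = P.card := card_image_of_injective _ (MulAction.injective g)
    have k2 : P.image (g • ·) ⊆ O := fun y hy => by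
      obtain ⟨z, hz, rfl⟩ := mem_image.1 hy
      exact hO _ hg _ (hP hz)
    have k3 : ¬ Disjoint P0 (P.image (g • ·)) := fun d => by
      have a1 := card_union_of_disjoint d
      have a2 := card_le_card (union_subset h2 k2)
      omega
    have k4 := h1 _ (mem_filter.2 ⟨mem_powerset.2 (union_subset h2 k2),
      h3.union (h.conj hO hg) h2 k2 (by omega) (by omega) k3,
      h4.trans (card_le_card subset_union_left)⟩)
    rw [eq_of_subset_of_card_le subset_union_left k4]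
    exact mem_union_right _ (mem_image_of_mem _ ha)

/-- the large orbit of a stabiliser in a giant -/
theorem big_orbit {F : Subgroup G} {O D : Finset Ω} {L : ℕ} (hO : InvF F O) (h : Giant F O)
    (hD : InvF F D) (hc : D.card ≤ 2 ^ L) {p : Ω} (hp : p ∈ D) (ho : 8 * L + 12 < O.card) :
    ∃ a ∈ O,
      O.card ≤ (O.filter (fun x => ∃ g ∈ F ⊓ MulAction.stabilizer G p, g • a = x)).card +
        (4 * L + 6) ∧
      GiOn (F ⊓ MulAction.stabilizer G p) O
        (O.filter (fun x => ∃ g ∈ F ⊓ MulAction.stabilizer G p, g • a = x)) := by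
  obtain ⟨S, s1, s2, s3⟩ := supp_exists h hD hc hp
  have k := card_sdiff_of_subset s1
  obtain ⟨a, ha⟩ := card_pos.1 (show 0 < (O \ S).card by omega)
  obtain ⟨a1, a2⟩ := s3.orbit (fun g hg => hO g (Subgroup.mem_inf.1 hg).1) sdiff_subset (by omega) (by omega) ha
  have := card_le_card a1
  exact ⟨a, (mem_sdiff.1 ha).1, by omega, a2⟩

/-- the pointwise stabiliser of the points with support inside `S` is a giant outside `S` -/
theorem full_fix {F : Subgroup G} [Finite F] {O S D : Finset Ω} {L : ℕ} (hO : InvF F O)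
    (h : Giant F O) (c : 100 * (L + 1) ≤ (O \ S).card) (hc : D.card ≤ 2 ^ L)
    (hD : ∀ g ∈ F, (∀ x ∈ S ∩ O, g • x = x) → ∀ x ∈ D, g • x ∈ D)
    (hu : ∀ p ∈ D, GiOn (F ⊓ MulAction.stabilizer G p) O (O \ S)) :
    GiOn (F ⊓ ⨅ p ∈ D, MulAction.stabilizer G p) O (O \ S) := by
  let B : Subgroup G := F ⊓ ⨅ x ∈ S ∩ O, MulAction.stabilizer G x
  have hB : ∀ g, g ∈ B ↔ g ∈ F ∧ ∀ x ∈ S ∩ O, g • x = x := fun g => by
    simp only [B, Subgroup.mem_inf, Subgroup.mem_iInf, MulAction.mem_stabilizer_iff]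
  have : Finite B := Finite.of_injective _ (Subgroup.inclusion_injective (inf_le_left : B ≤ F))
  have fx : ∀ a ∈ O \ S, ∀ b ∈ O \ S, ∀ d ∈ O \ S, ∀ x ∈ S ∩ O, (swap a b * swap a d) x = x :=
    fun a ha b hb d hd x hx => WIELx.cyc_fix
      (fun e => (mem_sdiff.1 ha).2 (e ▸ (mem_inter.1 hx).1))
      (fun e => (mem_sdiff.1 hb).2 (e ▸ (mem_inter.1 hx).1))
      (fun e => (mem_sdiff.1 hd).2 (e ▸ (mem_inter.1 hx).1))
  have key : ∀ J : Subgroup G, GiOn (F ⊓ J) O (O \ S) → Giant (B ⊓ J) (O \ S) :=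
    fun J hJ a ha b hb d hd h1 h2 h3 => by
      obtain ⟨g, hg, e⟩ := hJ a ha b hb d hd h1 h2 h3
      exact ⟨g, ⟨(hB g).2 ⟨hg.1, fun x hx => (e x (mem_inter.1 hx).2).trans
        (fx a ha b hb d hd x hx)⟩, hg.2⟩, fun x hx => e x (mem_sdiff.1 hx).1⟩
  have k := unaff_set B (L := L) (O \ S) D c (fun g hg x hx => by
      obtain ⟨g1, g2⟩ := (hB g).1 hg
      have h1 := hO g g1 x (mem_sdiff.1 hx).1
      refine mem_sdiff.2 ⟨h1, fun h2 => (mem_sdiff.1 hx).2 ?_⟩
      have h3 : g • x = x := MulAction.injective g (g2 _ (mem_inter.2 ⟨h2, h1⟩))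
      rwa [h3] at h2)
    (fun g hg => hD g ((hB g).1 hg).1 ((hB g).1 hg).2) hc
    (by simpa using key ⊤ ((giOn_self.2 h).mono (by simp) subset_rfl sdiff_subset))
    (fun p hp => key _ (hu p hp))
  intro a ha b hb d hd h1 h2 h3
  obtain ⟨g, hg, e⟩ := k a ha b hb d hd h1 h2 h3
  obtain ⟨g1, g2⟩ := (hB g).1 hg.1
  refine ⟨g, ⟨g1, hg.2⟩, fun x hx => ?_⟩
  by_cases hS : x ∈ S
  · rw [g2 x (mem_inter.2 ⟨hS, hx⟩), fx a ha b hb d hd x (mem_inter.2 ⟨hS, hx⟩)]
  · exact e x (mem_sdiff.2 ⟨hx, hS⟩)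

/-- few cosets: the elements that act on `O` like an element of `J` -/
theorem idx_of_giOn {F J V : Subgroup G} {O S : Finset Ω} (hO : InvF F O) (hS : S ⊆ O)
    (h : GiOn J O (O \ S)) (hV : ∀ g ∈ F, (∃ j ∈ J, ∀ x ∈ O, g • x = j • x) → g ∈ V) :
    TO.Idx V F (2 * O.card ^ S.card) := by
  have := TO.idx_of_map (V := V) (K := F) (β := ℤˣ × ({x // x ∈ S} → {x // x ∈ O}))
    (fun u => if hu : u ∈ F then (Perm.sign (UNATx.act F O hO ⟨u, hu⟩),
      fun s => UNATx.act F O hO ⟨u, hu⟩ ⟨s.1, hS s.2⟩) else (1, fun s => ⟨s.1, hS s.2⟩)) univ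
    (fun _ _ => mem_univ _) fun u hu v hv e => ?_
  · simpa [Fintype.card_units_int] using this
  simp only [dif_pos hu, dif_pos hv, Prod.mk.injEq] at e
  have hm := F.mul_mem (F.inv_mem hu) hv
  have k : UNATx.act F O hO ⟨u⁻¹ * v, hm⟩ =
      (UNATx.act F O hO ⟨u, hu⟩)⁻¹ * UNATx.act F O hO ⟨v, hv⟩ := by
    rw [← map_inv, ← map_mul]
    rfl
  obtain ⟨j, hj, e'⟩ := altOn_le ((giOn_iff sdiff_subset).1 h)
    (show UNATx.act F O hO ⟨u⁻¹ * v, hm⟩ ∈ _ from mem_altOn.2 ⟨by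
      rw [k, map_mul, map_inv, e.1, inv_mul_cancel], fun x hx => by
      have hx' : x.1 ∈ S := by simpa using hx
      rw [k, Perm.mul_apply, Perm.inv_eq_iff_eq]
      exact (congrFun e.2 ⟨x.1, hx'⟩).symm⟩)
  exact hV _ hm ⟨j, hj, fun x hx => (e' ⟨x, hx⟩).symm⟩

theorem alt_small_index {κ : Type} [Fintype κ] [DecidableEq κ] (c : 5 ≤ Fintype.card κ)
    (B : Subgroup (alternatingGroup κ)) (h : B.index < Fintype.card κ) : B = ⊤ := by
  have := alternatingGroup.isSimpleGroup (α := κ) (by simpa using c)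
  rcases IsSimpleGroup.eq_bot_or_eq_top_of_normal B.normalCore inferInstance with e | e
  · exfalso
    rw [Subgroup.normalCore_eq_ker, MonoidHom.ker_eq_bot_iff] at e
    have h1 := Nat.card_le_card_of_injective _ e
    have : Nontrivial κ := Fintype.one_lt_card_iff_nontrivial.1 (by omega)
    have h2 := two_mul_nat_card_alternatingGroup (α := κ)
    rw [Nat.card_perm, Nat.card_eq_fintype_card (α := κ)] at h2
    rw [Nat.card_perm, ← Subgroup.index] at h1
    obtain ⟨n, hn⟩ : ∃ n, Fintype.card κ = n + 1 := ⟨Fintype.card κ - 1, by omega⟩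
    rw [hn] at h h2 c
    have h3 := Nat.factorial_le (Nat.lt_succ_iff.1 h)
    have h4 := Nat.factorial_pos n
    rw [Nat.factorial_succ] at h2
    nlinarith
  · exact top_le_iff.1 (e ▸ B.normalCore_le)

/-- a point with a small orbit can be fixed -/
theorem GiOn.small {J : Subgroup G} {O P D : Finset Ω} (h : GiOn J O P) (hP : P ⊆ O)
    (c : 5 ≤ P.card) (hD : InvF J D) (hc : D.card < P.card) {p : Ω} (hp : p ∈ D) :
    GiOn (J ⊓ MulAction.stabilizer G p) O P := by
  rw [giOn_iff hP] at h ⊢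
  obtain ⟨e⟩ := altOn_equiv (P.subtype (· ∈ O))
  have k : Fintype.card {x // x ∈ P.subtype (· ∈ O)} = P.card := by
    rw [Fintype.card_coe, card_subtype, filter_true_of_mem hP]
  choose γ h1 h2 using fun π : altOn (P.subtype (· ∈ O)) => altOn_le h π.2
  have hi : ((UNATx.ind (J ⊓ MulAction.stabilizer G p) O).subgroupOf
      (altOn (P.subtype (· ∈ O)))).index ≤ D.card :=
    index_le_of_map _ (fun π => γ π • p) D (fun π => hD _ (h1 π) _ hp) fun u v e2 => by
      have e2' : γ u • p = γ v • p := e2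
      refine ⟨(γ u)⁻¹ * γ v, ⟨J.mul_mem (J.inv_mem (h1 u)) (h1 v), ?_⟩, fun x => ?_⟩
      · change ((γ u)⁻¹ * γ v) • p = p
        rw [mul_smul, ← e2', inv_smul_smul]
      · rw [mul_smul, inv_smul_eq_iff, h2, h2]
        simp
  have ht := alt_small_index (by omega) (Subgroup.comap e.symm.toMonoidHom
    ((UNATx.ind (J ⊓ MulAction.stabilizer G p) O).subgroupOf (altOn (P.subtype (· ∈ O)))))
    (by rw [Subgroup.index_comap_of_surjective _ e.symm.surjective]; omega)
  intro a ha b hb d hd n1 n2 n3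
  have := (Subgroup.eq_top_iff' _).1 ht (e ⟨_, alt3_altOn _ a ha b hb d hd n1 n2 n3⟩)
  simpa [Subgroup.mem_subgroupOf] using this

/-- the size of an orbit is the index of the stabiliser -/
theorem orb_card {H : Subgroup G} {D : Finset Ω} (hD : InvF H D) {p : Ω} (hp : p ∈ D) :
    (D.filter (fun x => ∃ g ∈ H, g • p = x)).card = (MulAction.stabilizer G p).relIndex H := by
  have e : (MulAction.stabilizer G p).subgroupOf H = MulAction.stabilizer H p := by
    ext g
    simp [Subgroup.mem_subgroupOf, Subgroup.smul_def]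
  rw [Subgroup.relIndex, e, MulAction.index_stabilizer, ← Set.ncard_coe_finset]
  congr 1
  ext x
  simp only [coe_filter, Set.mem_ofPred_eq, MulAction.mem_orbit_iff, Subgroup.smul_def]
  exact ⟨fun ⟨_, g, hg, e⟩ => ⟨⟨g, hg⟩, e⟩, fun ⟨g, e⟩ => ⟨e ▸ hD _ g.2 _ hp, g.1, g.2, e⟩⟩

/-- the index of the stabiliser `V` of a flag shrinks at least as the index of `S` -/
theorem relIndex_shrink {V S K H : Subgroup G} [Finite H] (hK : K ≤ H) (hV : V ⊓ H ≤ S) :
    V.relIndex K * S.relIndex H ≤ V.relIndex H * S.relIndex K := by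
  have key : ∀ J ≤ H, V.relIndex J = V.relIndex (S ⊓ J) * S.relIndex J := fun J hJ => by
    rw [Subgroup.relIndex_inf_mul_relIndex, ← Subgroup.inf_relIndex_right V J,
      ← Subgroup.inf_relIndex_right (V ⊓ S) J]
    congr 1
    exact le_antisymm (le_inf (le_inf inf_le_left ((inf_le_inf_left V hJ).trans hV)) inf_le_right)
      (inf_le_inf_right J inf_le_left)
  have : Finite ↥(S ⊓ H) := Finite.of_injective _ (Subgroup.inclusion_injective inf_le_right)
  have h1 : V.relIndex (S ⊓ K) ≤ V.relIndex (S ⊓ H) :=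
    Subgroup.relIndex_le_of_le_right (inf_le_inf_left S hK) Subgroup.index_ne_zero_of_finite
  rw [key K hK, key H le_rfl, mul_right_comm]
  exact Nat.mul_le_mul_right _ (Nat.mul_le_mul_right _ h1)

/-- the sizes of the levels of a flag -/
noncomputable def levs : Subgroup G → List Ω → List ℕ
  | _, [] => []
  | H, p :: l => (MulAction.stabilizer G p).relIndex H :: levs (H ⊓ MulAction.stabilizer G p) l

theorem prod_levs (H : Subgroup G) (l : List Ω) :
    (levs H l).prod = (TO.fixS l : Subgroup G).relIndex H := by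
  induction l generalizing H with
  | nil => simp [levs, TO.fixS]
  | cons p l ih =>
    have e : (TO.fixS (p :: l) : Subgroup G) = TO.fixS l ⊓ MulAction.stabilizer G p := by
      ext g
      simp [TO.mem_fixS, and_comm]
    rw [levs, List.prod_cons, ih, e, ← Subgroup.relIndex_inf_mul_relIndex, inf_comm H, mul_comm]

theorem levs_le {K H : Subgroup G} [Finite H] (hK : K ≤ H) (l : List Ω) :
    List.Forall₂ (fun a b => 1 ≤ a ∧ a ≤ b) (levs K l) (levs H l) := by
  induction l generalizing K H with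
  | nil => exact .nil
  | cons p l ih =>
    have : Finite ↥(H ⊓ MulAction.stabilizer G p) :=
      Finite.of_injective _ (Subgroup.inclusion_injective inf_le_left)
    have : Finite K := Finite.of_injective _ (Subgroup.inclusion_injective hK)
    exact .cons ⟨Nat.pos_of_ne_zero Subgroup.index_ne_zero_of_finite,
      Subgroup.relIndex_le_of_le_right hK Subgroup.index_ne_zero_of_finite⟩
      (ih (inf_le_inf_right _ hK))

end full

/-- the list form of the loss of potential -/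
theorem HH_list_drop {LL : ℝ} (h : 0 ≤ LL) {q q' : List ℕ}
    (h1 : List.Forall₂ (fun a b => 1 ≤ a ∧ a ≤ b) q' q) {ρ : ℝ} (hρ : 0 < ρ)
    (e : ρ * (q'.prod : ℕ) ≤ (q.prod : ℕ)) :
    (q'.map (HH LL)).sum + 2 ^ 19 * (LL / 8 + 1) * Real.logb 2 ρ ≤ (q.map (HH LL)).sum := by
  obtain ⟨e1, e2⟩ := List.forall₂_iff_get.1 h1
  have := HH_sum_drop h (univ : Finset (Fin q'.length)) (fun i => q.get (i.cast e1)) q'.get
    (fun i _ => (e2 i.1 i.2 (e1 ▸ i.2)).1) (fun i _ => (e2 i.1 i.2 (e1 ▸ i.2)).2) hρ (by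
      rw [← List.prod_ofFn, ← List.prod_ofFn, List.ofFn_get, ← List.ofFn_congr e1.symm,
        List.ofFn_get]
      exact e)
  rw [← List.sum_ofFn, ← List.sum_ofFn] at this
  have a1 : List.ofFn (fun i => HH LL (q'.get i)) = q'.map (HH LL) := by
    rw [← List.ofFn_get q', List.map_ofFn]
    simp [Function.comp_def]
  have a2 : List.ofFn (fun i : Fin q'.length => HH LL (q.get (i.cast e1))) = q.map (HH LL) := by
    apply List.ext_getElem <;> simp [e1]
  rwa [a1, a2] at this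

end Pool.Agent.P.MP_f1a348_lc.GX
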