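import Pool.Agent.P.MP_f1a348_lc.GX.TVALG
import Pool.Agent.P.MP_f1a348_lc.GX.LibWin

/-! Graph isomorphism: the orbits of the kernel of a giant action. -/

set_option autoImplicit false
set_option linter.unusedSectionVars false

namespace Pool.Agent.P.MP_f1a348_lc.GX

open Equiv Finset MulAction
open scoped Classical

variable {G Y : Type} [Group G] [MulAction G Y] [DecidableEq Y]

/-- the elements of `H` that act on `O` like an element of `J` -/
def likeOn (H J : Subgroup G) (O : Finset Y) (hO : InvF H O) : Subgroup G where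
  carrier := {g | g ∈ H ∧ ∃ j ∈ J, ∀ x ∈ O, g • x = j • x}
  one_mem' := ⟨H.one_mem, 1, J.one_mem, fun _ _ => rfl⟩
  mul_mem' := fun {a b} ⟨a1, j, j1, j2⟩ ⟨b1, k, k1, k2⟩ =>
    ⟨H.mul_mem a1 b1, j * k, J.mul_mem j1 k1, fun x hx => by
      rw [mul_smul, mul_smul, j2 _ (hO b b1 x hx), k2 x hx]⟩
  inv_mem' := fun {a} ⟨a1, j, j1, j2⟩ => ⟨H.inv_mem a1, j⁻¹, J.inv_mem j1, fun x hx => by
    rw [eq_inv_smul_iff, ← j2 _ (hO _ (H.inv_mem a1) x hx), smul_inv_smul]⟩

/-- a subgroup that does not induce a giant has a large index modulo the kernel -/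
theorem card_le_likeOn {H J : Subgroup G} [Finite H] {O : Finset Y} (hO : InvF H O)
    (hG : Giant H O) (c : 5 ≤ O.card) (hn : ¬ Giant J O) :
    O.card ≤ (likeOn H J O hO).relIndex H := by
  by_contra hlt
  push Not at hlt
  apply hn
  have h1 : ∀ π : alternatingGroup {x // x ∈ O}, ∃ g : H, ∀ x : {x // x ∈ O},
      g.1 • x.1 = (π.1 x).1 := fun π => by
    obtain ⟨g, hg, e⟩ := UNATx.even hG π.1 π.2
    exact ⟨⟨g, hg⟩, e⟩
  choose γ γ2 using h1
  have : Fintype (H ⧸ (likeOn H J O hO).subgroupOf H) := Fintype.ofFinite _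
  have h2 : ((UNATx.ind J O).subgroupOf (alternatingGroup {x // x ∈ O})).index ≤
      (likeOn H J O hO).relIndex H := by
    refine (index_le_of_map _
      (fun π => (QuotientGroup.mk (γ π) : H ⧸ (likeOn H J O hO).subgroupOf H)) univ
      (fun _ => mem_univ _) fun u v e => ?_).trans ?_
    · obtain ⟨_, j, j1, j2⟩ := Subgroup.mem_subgroupOf.1 (QuotientGroup.eq.1 e)
      refine ⟨j, j1, fun x => ?_⟩
      rw [← j2 x.1 x.2, Subgroup.coe_mul, mul_smul, Subgroup.coe_inv, inv_smul_eq_iff, γ2, γ2]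
      simp
    · rw [card_univ, ← Nat.card_eq_fintype_card]
      exact le_rfl
  have h3 := alt_small_index (κ := {x // x ∈ O}) (by simpa using c) _ (by
    rw [Fintype.card_coe]; exact h2.trans_lt hlt)
  intro a ha b hb d hd ab ad bd
  have h4 : (⟨swap ⟨a, ha⟩ ⟨b, hb⟩ * swap ⟨a, ha⟩ ⟨d, hd⟩, (Perm.isThreeCycle_swap_mul_swap_same
      (by simpa using ab) (by simpa using ad) (by simpa using bd)).mem_alternatingGroup⟩ :
      alternatingGroup {x // x ∈ O}) ∈
        (UNATx.ind J O).subgroupOf (alternatingGroup {x // x ∈ O}) := h3 ▸ Subgroup.mem_top _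
  obtain ⟨g, hg, e⟩ := h4
  refine ⟨g, hg, fun x hx => ?_⟩
  rw [← UNATx.val_three ⟨a, ha⟩ ⟨b, hb⟩ ⟨d, hd⟩ ⟨x, hx⟩]
  exact e ⟨x, hx⟩

/-- the orbits of the kernel on points whose stabiliser is not a giant are short -/
theorem kernel_shrink {H N : Subgroup G} [Finite H] {O D : Finset Y} (hO : InvF H O)
    (hG : Giant H O) (c : 5 ≤ O.card) (hD : InvF H D) {w : Y} (hw : w ∈ D)
    (hn : ¬ Giant (H ⊓ stabilizer G w) O) (hN : N ≤ H) (hf : ∀ g ∈ N, ∀ x ∈ O, g • x = x) :
    (orb N D w).card * O.card ≤ (orb H D w).card := by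
  have h1 := card_le_likeOn hO hG c hn
  set V := likeOn H (H ⊓ stabilizer G w) O hO
  have hV : V ≤ H := fun g hg => hg.1
  have hS : H ⊓ stabilizer G w ≤ V := fun g hg => ⟨hg.1, g, hg, fun _ _ => rfl⟩
  have hNV : N ≤ V := fun g hg => ⟨hN hg, 1, Subgroup.one_mem _, fun x hx => by
    rw [hf g hg x hx, one_smul]⟩
  have : Finite V := Finite.of_injective _ (Subgroup.inclusion_injective hV)
  rw [card_orb (hD.mono hN) hw, card_orb hD hw]
  have h2 : (stabilizer G w).relIndex N ≤ (stabilizer G w).relIndex V :=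
    Subgroup.relIndex_le_of_le_right hNV Subgroup.index_ne_zero_of_finite
  have h3 : (stabilizer G w ⊓ H).relIndex V * V.relIndex H = (stabilizer G w ⊓ H).relIndex H :=
    Subgroup.relIndex_mul_relIndex _ _ _ (inf_comm _ H ▸ hS) hV
  rw [Subgroup.inf_relIndex_right] at h3
  have h4 : (stabilizer G w ⊓ H).relIndex V = (stabilizer G w).relIndex V := by
    rw [← Subgroup.inf_relIndex_right _ V, inf_assoc, inf_eq_right.2 hV,
      Subgroup.inf_relIndex_right]
  rw [← h3, h4]
  exact Nat.mul_le_mul h2 h1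

/-- the form used for the third premise of the rule for giants -/
theorem alg_shrink {H0 H N : Subgroup G} [Finite H0] {O D : Finset Y} {m t s : ℕ} (hm : 5 ≤ m)
    (hc : m ≤ O.card) (hH : H ≤ H0) (hO : InvF H O) (hG : Giant H O) (hD : InvF H0 D) {w u : Y}
    (hw : w ∈ D) (hu : u ∈ O) (ha : AlgPt m H0 w u) (hN : N ≤ H)
    (hf : ∀ g ∈ N, ∀ x ∈ O, g • x = x) (ht : 1 ≤ t) (hs : 1 ≤ s) :
    (orb N D w).card * (O.card - t + 1) ≤ (orb H0 D w).card * s := by
  have : Finite H := Finite.of_injective _ (Subgroup.inclusion_injective hH)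
  have h1 := kernel_shrink hO hG (hm.trans hc) (hD.mono hH) hw
    (ha.not_giant (by omega) hH hc hO hu) hN hf
  have h2 : (orb H D w).card ≤ (orb H0 D w).card := card_le_card (orb_mono hD hH hw)
  calc (orb N D w).card * (O.card - t + 1) ≤ (orb N D w).card * O.card :=
        Nat.mul_le_mul_left _ (by omega)
    _ ≤ (orb H0 D w).card * 1 := by omega
    _ ≤ _ := Nat.mul_le_mul_left _ hs

end Pool.Agent.P.MP_f1a348_lc.GX
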