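import Pool.Agent.P.MP_f1a348_lc.TO.WBis

/-! Graph isomorphism: bisimulations between tuples of two structures with labelled relations
of any arity. -/

set_option autoImplicit false
set_option linter.unusedSectionVars false

namespace Pool.Agent.P.MP_f1a348_lc.GX.WL

open Function
open Pool.Agent.P.MP_f1a348_lc.TO.WL (update_comp_update exists_perm exists_equiv tup comp_tup
  tup_mem tup_onto tup_inj tup_nil)

variable {α β γ : Type} {k : ℕ} {r : ℕ → List α → Prop} {s : ℕ → List β → Prop}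
  {t : ℕ → List γ → Prop}

/-- the two tuples have the same equalities and the same labelled relations -/
def At (r : ℕ → List α → Prop) (s : ℕ → List β → Prop) (u : Fin k → α) (v : Fin k → β) : Prop :=
  (∀ i j, u i = u j ↔ v i = v j) ∧ ∀ c (l : List (Fin k)), r c (l.map u) ↔ s c (l.map v)

/-- a winning strategy in the bijective pebble game -/
def Bis (r : ℕ → List α → Prop) (s : ℕ → List β → Prop)
    (R : (Fin k → α) → (Fin k → β) → Prop) : Prop :=
  ∀ u v, R u v → At r s u v ∧ ∀ i, ∃ e : α ≃ β, ∀ w, R (update u i w) (update v i (e w))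

/-- the largest bisimulation -/
def Sim (r : ℕ → List α → Prop) (s : ℕ → List β → Prop) (u : Fin k → α) (v : Fin k → β) : Prop :=
  ∃ R, Bis r s R ∧ R u v

theorem Sim.bis : Bis r s (Sim (k := k) r s) := fun u v ⟨R, hR, h⟩ =>
  ⟨(hR u v h).1, fun i => ((hR u v h).2 i).imp fun _ he w => ⟨R, hR, he w⟩⟩

theorem Sim.at {u : Fin k → α} {v : Fin k → β} (h : Sim r s u v) : At r s u v := (Sim.bis u v h).1

theorem Sim.step {u : Fin k → α} {v : Fin k → β} (h : Sim r s u v) (i : Fin k) :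
    ∃ e : α ≃ β, ∀ w, Sim r s (update u i w) (update v i (e w)) := (Sim.bis u v h).2 i

theorem Sim.of_iso (e : α ≃ β) (he : ∀ c l, r c l ↔ s c (l.map e)) (u : Fin k → α) :
    Sim r s u (e ∘ u) := by
  refine ⟨fun u v => v = e ∘ u, ?_, rfl⟩
  rintro u _ rfl
  exact ⟨⟨fun i j => e.injective.eq_iff.symm, fun c l => by rw [he, List.map_map]⟩,
    fun i => ⟨e, fun w => (comp_update e u i w).symm⟩⟩

theorem Sim.refl (u : Fin k → α) : Sim r r u u :=
  Sim.of_iso (Equiv.refl α) (fun _ _ => by simp) u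

theorem Sim.symm {u : Fin k → α} {v : Fin k → β} (h : Sim r s u v) : Sim s r v u := by
  refine ⟨fun v u => Sim r s u v, fun v u h => ⟨⟨fun i j => (h.at.1 i j).symm,
    fun c l => (h.at.2 c l).symm⟩, fun i => ?_⟩, h⟩
  obtain ⟨e, he⟩ := h.step i
  exact ⟨e.symm, fun w => by simpa using he (e.symm w)⟩

theorem Sim.trans {u : Fin k → α} {v : Fin k → β} {x : Fin k → γ} (h : Sim r s u v)
    (h' : Sim s t v x) : Sim r t u x := by
  refine ⟨fun u x => ∃ v, Sim r s u v ∧ Sim s t v x, ?_, v, h, h'⟩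
  rintro u x ⟨v, h, h'⟩
  refine ⟨⟨fun i j => (h.at.1 i j).trans (h'.at.1 i j),
    fun c l => (h.at.2 c l).trans (h'.at.2 c l)⟩, fun i => ?_⟩
  obtain ⟨e, he⟩ := h.step i
  obtain ⟨e', he'⟩ := h'.step i
  exact ⟨e.trans e', fun w => ⟨_, he w, he' (e w)⟩⟩

theorem Sim.reindex {u : Fin k → α} {v : Fin k → β} (h : Sim r s u v) (σ : Fin k → Fin k) :
    Sim r s (u ∘ σ) (v ∘ σ) := by
  refine ⟨fun u' v' => ∃ u v σ, Sim r s u v ∧ u' = u ∘ σ ∧ v' = v ∘ σ, ?_, u, v, σ, h, rfl, rfl⟩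
  rintro _ _ ⟨u, v, σ, h, rfl, rfl⟩
  refine ⟨⟨fun i j => h.at.1 (σ i) (σ j), fun c l => ?_⟩, fun j => ?_⟩
  · rw [← List.map_map, ← List.map_map]
    exact h.at.2 c _
  have hc : ((Finset.univ.erase j).image σ).card < (Finset.univ : Finset (Fin k)).card :=
    Finset.card_image_le.trans_lt (Finset.card_erase_lt_of_mem (Finset.mem_univ j))
  obtain ⟨i, -, hi⟩ := Finset.exists_mem_notMem_of_card_lt_card hc
  have hσ : ∀ x, x ≠ j → σ x ≠ i := fun x hx e =>
    hi (Finset.mem_image.2 ⟨x, by simpa using hx, e⟩)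
  obtain ⟨e, he⟩ := h.step i
  exact ⟨e, fun w => ⟨_, _, update σ j i, he w, update_comp_update u σ w hσ,
    update_comp_update v σ _ hσ⟩⟩

theorem Sim.const {u : Fin k → α} {v : Fin k → β} (h : Sim r s u v) (i : Fin k) :
    Sim r s (fun _ : Fin k => u i) (fun _ => v i) := h.reindex (fun _ => i)

/-- restriction to a union of classes of points -/
theorem Sim.restrict (ι : γ → α) (hι : Injective ι) (ht : ∀ c l, t c l ↔ r c (l.map ι))
    (hc : ∀ x y : α, Sim r r (fun _ : Fin k => x) (fun _ => y) →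
      x ∈ Set.range ι → y ∈ Set.range ι)
    {u v : Fin k → γ} (h : Sim r r (ι ∘ u) (ι ∘ v)) : Sim t t u v := by
  refine ⟨fun u v => Sim r r (ι ∘ u) (ι ∘ v), fun u v h => ⟨⟨fun i j => ?_, fun c l => ?_⟩,
    fun i => ?_⟩, h⟩
  · have := h.at.1 i j
    simpa only [comp_apply, hι.eq_iff] using this
  · rw [ht, ht, List.map_map, List.map_map]; exact h.at.2 c l
  · obtain ⟨e, he⟩ := h.step i
    have h1 : ∀ w, w ∈ Set.range ι ↔ e w ∈ Set.range ι := fun w => by
      have := (he w).const i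
      simp only [update_self] at this
      exact ⟨hc _ _ this, hc _ _ this.symm⟩
    let e' : γ ≃ γ := (Equiv.ofInjective ι hι).trans
      ((e.subtypeEquiv h1).trans (Equiv.ofInjective ι hι).symm)
    have h2 : ∀ w, ι (e' w) = e (ι w) := fun w => Equiv.apply_ofInjective_symm hι _
    refine ⟨e', fun w => ?_⟩
    change Sim r r (ι ∘ update u i w) (ι ∘ update v i (e' w))
    rw [comp_update, comp_update, h2]
    exact he (ι w)

/-! ### local automorphisms -/

section sys
variable {Y : Type} [Fintype Y] [DecidableEq Y] (ρ : ℕ → List Y → Prop)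

/-- all tuples over `A` are similar to their images -/
def Loc (k : ℕ) (A : Finset Y) (f : Equiv.Perm Y) : Prop :=
  ∀ u : Fin k → Y, (∀ i, u i ∈ A) → Sim ρ ρ u (f ∘ u)

variable {ρ}

theorem Loc.of_sim {A : Finset Y} {f : Equiv.Perm Y} {u : Fin k → Y} (h : Sim ρ ρ u (f ∘ u))
    (hA : ∀ x ∈ A, ∃ i, u i = x) : Loc ρ k A f := by
  intro v hv
  choose σ hσ using fun i => hA (v i) (hv i)
  obtain rfl : v = u ∘ σ := funext fun i => (hσ i).symm
  exact h.reindex σ

theorem Loc.loc {A B : Finset Y} {f g : Equiv.Perm Y} (h : Loc ρ k A f) (hB : B ⊆ A)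
    (hg : ∀ x ∈ B, g x = f x) : Loc ρ k B g := fun u hu => by
  rw [show g ∘ u = f ∘ u from funext fun i => hg _ (hu i)]
  exact h u fun i => hB (hu i)

theorem Loc.one (A : Finset Y) : Loc ρ k A 1 := fun u _ => Sim.refl u

theorem Loc.inv {A : Finset Y} {f : Equiv.Perm Y} (h : Loc ρ k A f) :
    Loc ρ k (A.image f) f⁻¹ := fun u hu => by
  have := h (⇑f⁻¹ ∘ u) (fun i => by
    obtain ⟨x, hx, e⟩ := Finset.mem_image.1 (hu i)
    simpa [← e] using hx)
  rw [show f ∘ ⇑f⁻¹ ∘ u = u from funext fun i => by simp] at this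
  exact this.symm

theorem Loc.mul {A : Finset Y} {f g : Equiv.Perm Y} (h : Loc ρ k A f)
    (h' : Loc ρ k (A.image f) g) : Loc ρ k A (g * f) := fun u hu =>
  (h u hu).trans (h' (f ∘ u) fun i => Finset.mem_image_of_mem _ (hu i))

theorem Loc.of_aut {f : Equiv.Perm Y} (h : ∀ c l, ρ c l ↔ ρ c (l.map f)) (A : Finset Y) :
    Loc ρ k A f := fun u _ => Sim.of_iso f h u

/-- a tuple that lists a small nonempty set and leaves one position free -/
theorem exists_enum {A : Finset Y} {a : Y} (ha : a ∈ A) (hA : A.card ≤ k) :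
    ∃ u : Fin k → Y, (∀ j, u j ∈ A) ∧ ∀ x ∈ A, ∃ j : Fin k, j.1 < A.card ∧ u j = x := by
  let u : Fin k → Y := fun i => if h : i.1 < A.card then (A.equivFin.symm ⟨i.1, h⟩).1 else a
  refine ⟨u, fun j => ?_, fun x hx => ⟨⟨(A.equivFin ⟨x, hx⟩).1,
    (A.equivFin ⟨x, hx⟩).2.trans_le hA⟩, (A.equivFin ⟨x, hx⟩).2, by simp [u]⟩⟩
  simp only [u]
  split_ifs with hj
  · exact (A.equivFin.symm ⟨j.1, hj⟩).2
  · exact ha

/-- a local automorphism keeps the relations on short lists -/
theorem Loc.rel {A : Finset Y} {f : Equiv.Perm Y} (h : Loc ρ k A f) (c : ℕ) {l : List Y}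
    (hl : ∀ x ∈ l, x ∈ A) (hk : l.toFinset.card ≤ k) : ρ c l ↔ ρ c (l.map f) := by
  cases l with
  | nil => rfl
  | cons a l =>
    obtain ⟨u, h1, h2⟩ := exists_enum (A := (a :: l).toFinset) (a := a) (by simp) hk
    choose σ h3 h4 using h2
    have h5 := (h u fun i => hl _ (List.mem_toFinset.1 (h1 i))).at.2 c
      ((a :: l).attach.map fun x => σ x.1 (List.mem_toFinset.2 x.2))
    rw [← List.map_map (f := u)] at h5
    have h6 : ((a :: l).attach.map fun x => σ x.1 (List.mem_toFinset.2 x.2)).map u = a :: l := by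
      rw [List.map_map]
      exact (List.map_congr_left fun x _ => h4 x.1 _).trans (List.attach_map_subtype_val _)
    rwa [h6] at h5

theorem Loc.ext {A : Finset Y} {f : Equiv.Perm Y} (h : Loc ρ k A f) (hA : A.card < k) :
    ∃ e : Equiv.Perm Y, ∀ w, ∃ g : Equiv.Perm Y,
      (∀ x ∈ A, g x = f x) ∧ g w = e w ∧ Loc ρ k (insert w A) g := by
  rcases A.eq_empty_or_nonempty with rfl | ⟨a, ha⟩
  · exact ⟨1, fun w => ⟨1, by simp, rfl, fun u _ => Sim.refl u⟩⟩
  obtain ⟨u, h1, h0⟩ := exists_enum ha hA.le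
  let i : Fin k := ⟨A.card, hA⟩
  have h2 : ∀ x ∈ A, ∃ j, j ≠ i ∧ u j = x := fun x hx =>
    (h0 x hx).imp fun j hj => ⟨fun e => hj.1.ne (congrArg Fin.val e), hj.2⟩
  obtain ⟨e, he⟩ := (h u h1).step i
  refine ⟨e, fun w => ?_⟩
  have h3 : ∀ x ∈ A, (Equiv.swap (f w) (e w) * f) x = f x := fun x hx => by
    obtain ⟨j, hj, rfl⟩ := h2 x hx
    have h4 := (he w).at.1 j i
    simp only [update_self, update_of_ne hj, comp_apply] at h4
    rw [Equiv.Perm.mul_apply]
    by_cases hw : u j = w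
    · rw [← h4.1 hw, ← hw, Equiv.swap_self, Equiv.refl_apply]
    · exact Equiv.swap_apply_of_ne_of_ne (f.injective.ne hw) (fun e => hw (h4.2 e))
  have h5 : (Equiv.swap (f w) (e w) * f) w = e w := Equiv.swap_apply_left _ _
  refine ⟨_, h3, h5, Loc.of_sim (u := update u i w) ?_ (fun x hx => ?_)⟩
  · rw [comp_update, h5, show (Equiv.swap (f w) (e w) * f : Equiv.Perm Y) ∘ u = f ∘ u from
      funext fun j => h3 _ (h1 j)]
    exact he w
  · rcases Finset.mem_insert.1 hx with rfl | hx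
    · exact ⟨i, update_self ..⟩
    · obtain ⟨j, hj, rfl⟩ := h2 x hx
      exact ⟨j, update_of_ne hj ..⟩
end sys

theorem sim_tup_iff {Y : Type} [Fintype Y] [DecidableEq Y] {ρ : ℕ → List Y → Prop} {a b : Y}
    {l m : List Y} (h : (a :: l).length ≤ k) (h' : (a :: l).length = (b :: m).length) :
    Sim ρ ρ (tup k a l) (tup k b m) ↔
      ∃ f, Loc ρ k (a :: l).toFinset f ∧ (a :: l).map f = b :: m := by
  constructor
  · intro hs
    obtain ⟨f, hf⟩ := exists_perm hs.at.1
    refine ⟨f, Loc.of_sim (hf ▸ hs) fun x hx => tup_onto h (List.mem_toFinset.1 hx), ?_⟩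
    rw [comp_tup] at hf
    exact tup_inj (by simpa using h) (by simpa using h') hf
  · rintro ⟨f, h1, h2⟩
    have := h1 (tup k a l) fun i => List.mem_toFinset.2 (tup_mem a l i)
    rw [comp_tup] at this
    rw [List.map_cons, List.cons.injEq] at h2
    rwa [h2.1, h2.2] at this

end Pool.Agent.P.MP_f1a348_lc.GX.WL
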