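import Pool.Agent.P.MP_f1a348_lc.TO.WProg
import Pool.Agent.P.MP_f1a348_lc.GX.LibWB

/-! Graph isomorphism: the joint refinement of the tuples of two structures. -/

set_option autoImplicit false
set_option linter.unusedSectionVars false

namespace Pool.Agent.P.MP_f1a348_lc.GX

open Pool.Agent.Lib.Helper47 Pool.Agent.P.MP_f1a348_lc.GI Function
open Pool.Agent.P.MP_f1a348_lc.TO (Par)
open Pool.Agent.P.MP_f1a348_lc.TO.WL (exists_equiv tup comp_tup tup_nil ix pt_ix fix_iter)

/-- a structure: the points and the labelled tuples -/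
abbrev Sx (α : Type) : Type := List α × List (ℕ × List α)

namespace WL

variable {α : Type} [DecidableEq α]

/-- a tuple with its side -/
abbrev Tp (α : Type) : Type := Bool × List α

/-- one side -/
def sd (q : Sx α × Sx α) (b : Bool) : Sx α := bif b then q.2 else q.1
/-- all tuples -/
def tt (p : Par) (q : Sx α × Sx α) : List (Tp α) :=
  (tuples p.1 q.1.1 p.2).map (fun t => (false, t)) ++
    (tuples p.1 q.2.1 p.2).map (fun t => (true, t))
/-- the equalities -/
def eqp (u : List α) : List ℕ := u.map (fun a => u.idxOf a)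
/-- the labelled lists of positions -/
def rel (R : List (ℕ × List α)) (u : List α) : List (ℕ × List ℕ) :=
  (R.filter (fun e => e.2.all (fun a => u.contains a))).map
    (fun e => (e.1, e.2.map (fun a => u.idxOf a)))
/-- the same atomic type -/
def atB (q : Sx α × Sx α) (u v : Tp α) : Bool :=
  eqp u.2 == eqp v.2 &&
    ((rel (sd q u.1).2 u.2).all (fun z => (rel (sd q v.1).2 v.2).contains z) &&
      (rel (sd q v.1).2 v.2).all (fun z => (rel (sd q u.1).2 u.2).contains z))
/-- the numbers of neighbours in each class -/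
def sig (p : Par) (q : Sx α × Sx α) (R : List (Tp α × Tp α)) (u : Tp α) : List ℕ :=
  (prodL (ix p) (tt p q)).map (fun z =>
    (sd q u.1).1.countP (fun w => R.contains (z.2, (u.1, u.2.set z.1 w))))
/-- the first relation -/
def r0 (p : Par) (q : Sx α × Sx α) : List (Tp α × Tp α) :=
  (prodL (tt p q) (tt p q)).filter (fun z => atB q z.1 z.2)
/-- one round -/
def stp (p : Par) (q : Sx α × Sx α) (R : List (Tp α × Tp α)) : List (Tp α × Tp α) :=
  R.filter (fun z => sig p q R z.1 == sig p q R z.2)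
/-- the stable relation -/
def rr (p : Par) (q : Sx α × Sx α) : List (Tp α × Tp α) := (stp p q)^[(r0 p q).length] (r0 p q)
/-- a list filled up with its first entry -/
def padL (p : Par) (l : List α) : List α :=
  l.head?.elim [] (fun a => (ix p).map (fun i => l.getD i a))
/-- the colour, read off from the stable relation `R` -/
def colR (p : Par) (q : Sx α × Sx α) (R : List (Tp α × Tp α)) (b : Bool) (l : List α) : ℕ :=
  (tt p q).findIdx (fun t => R.contains (t, (b, padL p l)))
/-- the colour of the list `l` on the side `b` (`false` is the first structure) -/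
def cls (p : Par) (q : Sx α × Sx α) (b : Bool) (l : List α) : ℕ := colR p q (rr p q) b l

section pt
variable [Enc α] {ι : Type} [Enc ι] {p : ι → Par} {q : ι → Sx α × Sx α}

@[fun_prop] theorem pt_sd {b : ι → Bool} (hq : PT q) (hb : PT b) :
    PT (fun a => sd (q a) (b a)) := by unfold sd; fun_prop

@[fun_prop] theorem pt_tt (hp : PT p) (hq : PT q) : PT (fun a => tt (p a) (q a)) := by
  unfold tt; fun_prop

@[fun_prop] theorem pt_eqp {u : ι → List α} (hu : PT u) : PT (fun a => eqp (u a)) := by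
  unfold eqp; fun_prop

@[fun_prop] theorem pt_rel {R : ι → List (ℕ × List α)} {u : ι → List α} (hR : PT R) (hu : PT u) :
    PT (fun a => rel (R a) (u a)) := by unfold rel; fun_prop

@[fun_prop] theorem pt_atB {u v : ι → Tp α} (hq : PT q) (hu : PT u) (hv : PT v) :
    PT (fun a => atB (q a) (u a) (v a)) := by unfold atB; fun_prop

@[fun_prop] theorem pt_sig {R : ι → List (Tp α × Tp α)} {u : ι → Tp α} (hp : PT p) (hq : PT q)
    (hR : PT R) (hu : PT u) : PT (fun a => sig (p a) (q a) (R a) (u a)) := by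
  unfold sig; fun_prop

@[fun_prop] theorem pt_r0 (hp : PT p) (hq : PT q) : PT (fun a => r0 (p a) (q a)) := by
  unfold r0; fun_prop

@[fun_prop] theorem pt_stp {R : ι → List (Tp α × Tp α)} (hp : PT p) (hq : PT q) (hR : PT R) :
    PT (fun a => stp (p a) (q a) (R a)) := by unfold stp; fun_prop

@[fun_prop] theorem pt_rr (hp : PT p) (hq : PT q) : PT (fun a => rr (p a) (q a)) :=
  PT.iterate_inv (f := fun a R => stp (p a) (q a) R) (by fun_prop) (pt_r0 hp hq) (pt_r0 hp hq)
    (fun a R => R.Sublist (r0 (p a) (q a))) (fun _ => List.Sublist.refl _)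
    (fun _ _ h => List.filter_sublist.trans h) _ (pt_r0 hp hq).size_le (fun _ _ h => size_sublist h)

@[fun_prop] theorem pt_padL {l : ι → List α} (hp : PT p) (hl : PT l) :
    PT (fun a => padL (p a) (l a)) := by unfold padL; fun_prop

@[fun_prop] theorem pt_colR {R : ι → List (Tp α × Tp α)} {b : ι → Bool} {l : ι → List α}
    (hp : PT p) (hq : PT q) (hR : PT R) (hb : PT b) (hl : PT l) :
    PT (fun a => colR (p a) (q a) (R a) (b a) (l a)) := by unfold colR; fun_prop

@[fun_prop] theorem pt_cls {b : ι → Bool} {l : ι → List α} (hp : PT p) (hq : PT q) (hb : PT b)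
    (hl : PT l) : PT (fun a => cls (p a) (q a) (b a) (l a)) := by unfold cls; fun_prop
end pt

theorem countP_card {l : List α} (hl : l.Nodup) (P : α → Bool) :
    l.countP P = Nat.card {w : {x // x ∈ l} // P w.1 = true} := by
  rw [Nat.card_congr (Equiv.subtypeSubtypeEquivSubtypeInter (· ∈ l) (fun x => P x = true)),
    Nat.subtype_card (l.filter P).toFinset (by simp), List.toFinset_card_of_nodup (hl.filter _),
    List.countP_eq_length_filter]

/-- the atomic type -/
def aty (q : Sx α × Sx α) (u : Tp α) : List ℕ × Set (ℕ × List ℕ) :=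
  (eqp u.2, {z | z ∈ rel (sd q u.1).2 u.2})

/-- an equivalence relation on the tuples that respects the atomic types -/
structure Eqv (p : Par) (q : Sx α × Sx α) (R : List (Tp α × Tp α)) : Prop where
  refl : ∀ t ∈ tt p q, (t, t) ∈ R
  symm : ∀ x y, (x, y) ∈ R → (y, x) ∈ R
  trans : ∀ x y z, (x, y) ∈ R → (y, z) ∈ R → (x, z) ∈ R
  mem : ∀ x y, (x, y) ∈ R → x ∈ tt p q ∧ aty q x = aty q y

variable {p : Par} {q : Sx α × Sx α}

theorem atB_iff {x y : Tp α} : atB q x y = true ↔ aty q x = aty q y := by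
  simp only [atB, aty, Bool.and_eq_true, beq_iff_eq, List.all_eq_true, List.contains_iff_mem,
    Prod.mk.injEq, Set.ext_iff, Set.mem_ofPred_eq]
  exact and_congr_right fun _ => ⟨fun h z => ⟨h.1 z, h.2 z⟩,
    fun h => ⟨fun z => (h z).1, fun z => (h z).2⟩⟩

theorem mem_r0 {x y : Tp α} :
    (x, y) ∈ r0 p q ↔ (x ∈ tt p q ∧ y ∈ tt p q) ∧ aty q x = aty q y := by
  rw [r0, List.mem_filter, mem_prodL, atB_iff]

theorem mem_stp {R : List (Tp α × Tp α)} {x y : Tp α} :
    (x, y) ∈ stp p q R ↔ (x, y) ∈ R ∧ sig p q R x = sig p q R y := by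
  simp [stp]

theorem eqv_iter (n : ℕ) : Eqv p q ((stp p q)^[n] (r0 p q)) := by
  induction n with
  | zero =>
    exact ⟨fun t ht => mem_r0.2 ⟨⟨ht, ht⟩, rfl⟩,
      fun x y h => mem_r0.2 ⟨(mem_r0.1 h).1.symm, (mem_r0.1 h).2.symm⟩,
      fun x y z h h' => mem_r0.2 ⟨⟨(mem_r0.1 h).1.1, (mem_r0.1 h').1.2⟩,
        (mem_r0.1 h).2.trans (mem_r0.1 h').2⟩,
      fun x y h => ⟨(mem_r0.1 h).1.1, (mem_r0.1 h).2⟩⟩
  | succ n ih =>
    rw [iterate_succ_apply']
    exact ⟨fun t ht => mem_stp.2 ⟨ih.refl t ht, rfl⟩,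
      fun x y h => mem_stp.2 ⟨ih.symm _ _ (mem_stp.1 h).1, (mem_stp.1 h).2.symm⟩,
      fun x y z h h' => mem_stp.2 ⟨ih.trans _ _ _ (mem_stp.1 h).1 (mem_stp.1 h').1,
        (mem_stp.1 h).2.trans (mem_stp.1 h').2⟩,
      fun x y h => ih.mem _ _ (mem_stp.1 h).1⟩

/-- the relations between listed points -/
def relOn (A : Sx α) (c : ℕ) (l : List {x // x ∈ A.1}) : Prop := (c, l.map Subtype.val) ∈ A.2

/-- the code of a tuple -/
def toL (b : Bool) {V : List α} {k : ℕ} (u : Fin k → {x // x ∈ V}) : Tp α :=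
  (b, List.ofFn fun i => (u i).1)

theorem toL_set (b : Bool) {V : List α} {k : ℕ} (u : Fin k → {x // x ∈ V}) (i : Fin k)
    (w : {x // x ∈ V}) : ((toL b u).1, (toL b u).2.set i w.1) = toL b (update u i w) := by
  refine Prod.ext rfl (List.ext_getElem (by simp [toL]) fun j h1 h2 => ?_)
  simp only [toL, List.getElem_set, List.getElem_ofFn, update_apply, Fin.ext_iff]
  split_ifs with h3 h4 h4
  · rfl
  · exact absurd h3.symm h4
  · exact absurd h4.symm h3
  · rfl

/-- the conditions on the input -/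
structure Ok (p : Par) (q : Sx α × Sx α) : Prop where
  nd : ∀ b, (sd q b).1.Nodup
  big : ∀ b, (sd q b).1.length ^ p.2.length ≤ p.1.length

theorem toL_mem (h : Ok p q) (b : Bool) (u : Fin p.2.length → {x // x ∈ (sd q b).1}) :
    toL b u ∈ tt p q := by
  have : (toL b u).2 ∈ tuples p.1 (sd q b).1 p.2 :=
    tuples_complete (h.big b) (by simp [toL]) (fun x hx => by
      obtain ⟨i, rfl⟩ := List.mem_ofFn.1 hx
      exact (u i).2)
  cases b
  · exact List.mem_append_left _ (List.mem_map.2 ⟨_, this, rfl⟩)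
  · exact List.mem_append_right _ (List.mem_map.2 ⟨_, this, rfl⟩)

theorem idx_inj {k : ℕ} (u : Fin k → α) (i j : Fin k) :
    (List.ofFn u).idxOf (u i) = (List.ofFn u).idxOf (u j) ↔ u i = u j :=
  List.idxOf_inj (List.mem_ofFn.2 ⟨i, rfl⟩)

theorem idx_le {k : ℕ} {u v : Fin k → α} (h : ∀ i j, u i = u j → v i = v j) (i : Fin k) :
    (List.ofFn v).idxOf (v i) ≤ (List.ofFn u).idxOf (u i) := by
  have h1 : (List.ofFn u).idxOf (u i) < (List.ofFn u).length :=
    List.idxOf_lt_length_iff.2 (List.mem_ofFn.2 ⟨i, rfl⟩)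
  have h2 := List.getElem_idxOf h1
  rw [List.getElem_ofFn] at h2
  have h3 := h _ _ h2
  by_contra hc
  have h4 := List.not_of_lt_findIdx (p := fun x => x == v i) (xs := List.ofFn v) (not_le.1 hc)
  rw [List.getElem_ofFn, h3] at h4
  simp at h4

theorem eqp_iff {k : ℕ} (u v : Fin k → α) : eqp (List.ofFn u) = eqp (List.ofFn v) ↔
    ∀ i, (List.ofFn u).idxOf (u i) = (List.ofFn v).idxOf (v i) := by
  rw [eqp, eqp, List.map_ofFn, List.map_ofFn, List.ofFn_inj, funext_iff]
  rfl

theorem mem_rel {k : ℕ} (u : Fin k → α) (R : List (ℕ × List α)) (z : ℕ × List ℕ) :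
    z ∈ rel R (List.ofFn u) ↔ ∃ l : List (Fin k), (z.1, l.map u) ∈ R ∧
      z.2 = l.map (fun i => (List.ofFn u).idxOf (u i)) := by
  simp only [rel, List.mem_map, List.mem_filter, List.all_eq_true, List.contains_iff_mem]
  constructor
  · rintro ⟨⟨c, r⟩, ⟨h1, h2⟩, rfl⟩
    obtain ⟨l, rfl⟩ : ∃ l : List (Fin k), l.map u = r := by
      clear h1
      induction r with
      | nil => exact ⟨[], rfl⟩
      | cons a r ih =>
        obtain ⟨l, rfl⟩ := ih fun x hx => h2 x (List.mem_cons_of_mem _ hx)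
        obtain ⟨i, rfl⟩ := List.mem_ofFn.1 (h2 a List.mem_cons_self)
        exact ⟨i :: l, rfl⟩
    exact ⟨l, h1, by rw [List.map_map]; rfl⟩
  · rintro ⟨l, h1, h2⟩
    refine ⟨_, ⟨h1, fun x hx => ?_⟩, Prod.ext rfl (by rw [h2, List.map_map]; rfl)⟩
    obtain ⟨i, -, rfl⟩ := List.mem_map.1 hx
    exact List.mem_ofFn.2 ⟨i, rfl⟩

theorem rel_sub {k : ℕ} {u v : Fin k → α} {R S : List (ℕ × List α)}
    (e : ∀ i, (List.ofFn u).idxOf (u i) = (List.ofFn v).idxOf (v i)) :
    (∀ z, z ∈ rel R (List.ofFn u) → z ∈ rel S (List.ofFn v)) ↔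
      ∀ c (l : List (Fin k)), (c, l.map u) ∈ R → (c, l.map v) ∈ S := by
  constructor
  · intro h c l h1
    obtain ⟨l', h2, h3⟩ := (mem_rel v S _).1 (h (c, _) ((mem_rel u R _).2 ⟨l, h1, rfl⟩))
    have h4 : l.map v = l'.map v := by
      have hl : l.length = l'.length := by simpa using congrArg List.length h3
      refine List.ext_getElem (by simpa using hl) fun n a1 a2 => ?_
      have a3 := List.getElem_of_eq h3 (i := n) (by simpa using a1)
      simp only [List.getElem_map] at a3 ⊢
      rw [e] at a3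
      exact (idx_inj v _ _).1 a3
    rw [h4]
    exact h2
  · intro h z hz
    obtain ⟨l, h1, h2⟩ := (mem_rel u R _).1 hz
    exact (mem_rel v S _).2 ⟨l, h _ _ h1, h2.trans (List.map_congr_left fun i _ => e i)⟩

theorem aty_iff {b c : Bool} {k : ℕ} (u : Fin k → {x // x ∈ (sd q b).1})
    (v : Fin k → {x // x ∈ (sd q c).1}) : aty q (toL b u) = aty q (toL c v) ↔
      At (relOn (sd q b)) (relOn (sd q c)) u v := by
  have h1 : (∀ i, (List.ofFn fun i => (u i).1).idxOf (u i).1 =
      (List.ofFn fun i => (v i).1).idxOf (v i).1) ↔ ∀ i j, u i = u j ↔ v i = v j := by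
    constructor
    · intro h i j
      rw [← Subtype.val_inj, ← Subtype.val_inj, ← idx_inj (fun i => (u i).1),
        ← idx_inj (fun i => (v i).1), h, h]
    · intro h i
      exact le_antisymm
        (idx_le (fun i j e => Subtype.val_inj.2 ((h i j).2 (Subtype.val_inj.1 e))) i)
        (idx_le (fun i j e => Subtype.val_inj.2 ((h i j).1 (Subtype.val_inj.1 e))) i)
  simp only [aty, toL, Prod.mk.injEq, eqp_iff, At, relOn, List.map_map, Set.ext_iff,
    Set.mem_ofPred_eq, ← h1]
  refine and_congr_right fun e => ⟨fun h c l => ⟨(rel_sub e).1 (fun z => (h z).1) c l,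
    (rel_sub fun i => (e i).symm).1 (fun z => (h z).2) c l⟩, fun h z => ⟨(rel_sub e).2
      (fun c l => (h c l).1) z, (rel_sub fun i => (e i).symm).2 (fun c l => (h c l).2) z⟩⟩

theorem sig_iff (h : Ok p q) (R : List (Tp α × Tp α)) {b c : Bool}
    (u : Fin p.2.length → {x // x ∈ (sd q b).1}) (v : Fin p.2.length → {x // x ∈ (sd q c).1}) :
    sig p q R (toL b u) = sig p q R (toL c v) ↔ ∀ i, ∀ t ∈ tt p q,
      Nat.card {w // (t, toL b (update u i w)) ∈ R} =
        Nat.card {w // (t, toL c (update v i w)) ∈ R} := by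
  have key : ∀ (b : Bool) (u : Fin p.2.length → {x // x ∈ (sd q b).1}) (i : Fin p.2.length)
      (t : Tp α),
      (sd q (toL b u).1).1.countP (fun w => R.contains (t, ((toL b u).1, (toL b u).2.set i w))) =
        Nat.card {w // (t, toL b (update u i w)) ∈ R} := fun b u i t => by
    refine (countP_card (h.nd b) _).trans ?_
    simp only [toL_set, List.contains_iff_mem]
  rw [sig, sig, List.map_inj_left]
  constructor
  · intro h1 i t ht
    rw [← key, ← key]
    exact h1 (i.1, t) (mem_prodL.2 ⟨List.mem_range.2 i.2, ht⟩)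
  · rintro h1 ⟨i, t⟩ hz
    obtain ⟨hi, ht⟩ := mem_prodL.1 hz
    exact (key b u ⟨i, List.mem_range.1 hi⟩ t).trans
      ((h1 _ t ht).trans (key c v ⟨i, List.mem_range.1 hi⟩ t).symm)

theorem mem_iter (h : Ok p q) {b c : Bool} (n : ℕ) :
    ∀ (u : Fin p.2.length → {x // x ∈ (sd q b).1}) (v : Fin p.2.length → {x // x ∈ (sd q c).1}),
      Sim (relOn (sd q b)) (relOn (sd q c)) u v →
      (toL b u, toL c v) ∈ (stp p q)^[n] (r0 p q) := by
  induction n with
  | zero => exact fun u v hs => mem_r0.2 ⟨⟨toL_mem h b u, toL_mem h c v⟩, (aty_iff u v).2 hs.at⟩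
  | succ n ih =>
    intro u v hs
    rw [iterate_succ_apply']
    refine mem_stp.2 ⟨ih u v hs, (sig_iff h _ u v).2 fun i t _ => ?_⟩
    obtain ⟨e, he⟩ := hs.step i
    have hE := eqv_iter (p := p) (q := q) n
    exact Nat.card_congr (e.subtypeEquiv fun w => ⟨fun h1 => hE.trans _ _ _ h1 (ih _ _ (he w)),
      fun h1 => hE.trans _ _ _ h1 (hE.symm _ _ (ih _ _ (he w)))⟩)

theorem mem_rr (h : Ok p q) {b c : Bool} (u : Fin p.2.length → {x // x ∈ (sd q b).1})
    (v : Fin p.2.length → {x // x ∈ (sd q c).1}) : (toL b u, toL c v) ∈ rr p q ↔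
      Sim (relOn (sd q b)) (relOn (sd q c)) u v := by
  refine ⟨fun h1 => ⟨fun u v => (toL b u, toL c v) ∈ rr p q, fun u v h1 => ?_, h1⟩,
    mem_iter h _ u v⟩
  have hE : Eqv p q (rr p q) := eqv_iter _
  have hf : stp p q (rr p q) = rr p q :=
    fix_iter (stp p q) (fun _ => List.filter_sublist) _ _ le_rfl
  refine ⟨(aty_iff u v).1 (hE.mem _ _ h1).2, fun i => ?_⟩
  have h2 := (sig_iff h _ u v).1 (mem_stp.1 (hf.symm ▸ h1)).2 i
  exact exists_equiv (fun w => toL b (update u i w)) (fun w => toL c (update v i w))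
    (fun x y => (x, y) ∈ rr p q) hE.symm hE.trans (fun w => hE.refl _ (toL_mem h b _))
    (fun w => hE.refl _ (toL_mem h c _)) (fun x hx => h2 x (hE.mem _ _ hx).1)

theorem padL_eq (b : Bool) {V : List α} (a : {x // x ∈ V}) (l : List {x // x ∈ V}) :
    (b, padL p ((a :: l).map Subtype.val)) = toL b (tup p.2.length a l) := by
  refine Prod.ext rfl (List.ext_getElem (by simp [toL, padL, ix]) fun j h1 h2 => ?_)
  simp only [padL, ix, toL, List.getElem_map, List.getElem_range, List.getElem_ofFn, tup,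
    List.map_cons, List.head?_cons, Option.elim_some]
  exact List.getD_map (a :: l) a Subtype.val

theorem cls_iff (h : Ok p q) {b c : Bool} (a : {x // x ∈ (sd q b).1})
    (l : List {x // x ∈ (sd q b).1}) (a' : {x // x ∈ (sd q c).1})
    (l' : List {x // x ∈ (sd q c).1}) :
    cls p q b ((a :: l).map Subtype.val) = cls p q c ((a' :: l').map Subtype.val) ↔
      Sim (relOn (sd q b)) (relOn (sd q c)) (tup p.2.length a l) (tup p.2.length a' l') := by
  have hE : Eqv p q (rr p q) := eqv_iter _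
  rw [← mem_rr h]
  simp only [cls, colR, padL_eq]
  have hu := toL_mem h b (tup p.2.length a l)
  have hv := toL_mem h c (tup p.2.length a' l')
  generalize toL b (tup p.2.length a l) = u at hu ⊢
  generalize toL c (tup p.2.length a' l') = v at hv ⊢
  constructor
  · intro e
    have h1 : (tt p q).findIdx (fun t => (rr p q).contains (t, u)) < (tt p q).length :=
      List.findIdx_lt_length_of_exists ⟨u, hu, List.contains_iff_mem.2 (hE.refl u hu)⟩
    have h2 := List.findIdx_getElem (w := h1)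
    have h3 := List.findIdx_getElem (w := e ▸ h1)
    simp only [← e] at h3
    exact hE.trans _ _ _ (hE.symm _ _ (List.contains_iff_mem.1 h2)) (List.contains_iff_mem.1 h3)
  · intro e
    congr 1
    funext t
    rw [Bool.eq_iff_iff, List.contains_iff_mem, List.contains_iff_mem]
    exact ⟨fun h1 => hE.trans _ _ _ h1 e, fun h1 => hE.trans _ _ _ h1 (hE.symm _ _ e)⟩

theorem cls_le (p : Par) (q : Sx α × Sx α) (b : Bool) (l : List α) :
    cls p q b l ≤ q.1.1.length ^ p.2.length + q.2.1.length ^ p.2.length := by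
  refine List.findIdx_le_length.trans ?_
  have h1 := length_tuples_le p.1 q.1.1 p.2
  have h2 := length_tuples_le p.1 q.2.1 p.2
  simp only [tt, List.length_append, List.length_map]
  omega

theorem cls_le_pad (p : Par) (q : Sx α × Sx α) (b : Bool) (l : List α) :
    cls p q b l ≤ 2 * p.1.length + 2 := by
  refine List.findIdx_le_length.trans ?_
  have h1 := length_tuples_le_pad p.1 q.1.1 p.2
  have h2 := length_tuples_le_pad p.1 q.2.1 p.2
  simp only [tt, List.length_append, List.length_map]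
  omega

theorem ok_of {A B : Sx α} (h1 : A.1.Nodup) (h2 : B.1.Nodup)
    (h3 : A.1.length ^ p.2.length ≤ p.1.length) (h4 : B.1.length ^ p.2.length ≤ p.1.length) :
    Ok p (A, B) := by
  refine ⟨fun b => ?_, fun b => ?_⟩ <;> cases b
  exacts [h1, h2, h3, h4]

/-- an isomorphism keeps the colours -/
theorem cls_iso (h : Ok p q) {b c : Bool} (φ : α → α)
    (hb : Set.BijOn φ {x | x ∈ (sd q b).1} {x | x ∈ (sd q c).1})
    (hr : ∀ n (l : List α), (∀ x ∈ l, x ∈ (sd q b).1) →
      ((n, l) ∈ (sd q b).2 ↔ (n, l.map φ) ∈ (sd q c).2))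
    (l : List α) (hl : ∀ x ∈ l, x ∈ (sd q b).1) (h1 : l ≠ []) :
    cls p q b l = cls p q c (l.map φ) := by
  lift l to List {x // x ∈ (sd q b).1} using hl
  obtain ⟨a, l, rfl⟩ := List.exists_cons_of_ne_nil (l := l) (fun e => h1 (by rw [e]; rfl))
  let e : {x // x ∈ (sd q b).1} ≃ {x // x ∈ (sd q c).1} := hb.equiv φ
  have h3 : ∀ l : List {x // x ∈ (sd q b).1},
      (l.map Subtype.val).map φ = (l.map e).map Subtype.val := fun l => by
    rw [List.map_map, List.map_map]; rfl
  rw [h3, List.map_cons (f := e), cls_iff h, ← comp_tup]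
  refine Sim.of_iso e (fun n l => ?_) _
  rw [relOn, relOn, ← h3]
  exact hr n _ fun x hx => by
    obtain ⟨y, -, rfl⟩ := List.mem_map.1 hx
    exact y.2

/-- the colours on one side are the orbits of the local automorphisms -/
theorem cls_loc (h : Ok p q) (b : Bool) (l l' : List {x // x ∈ (sd q b).1})
    (h1 : l.length = l'.length) (h2 : 1 ≤ l.length) (h3 : l.length ≤ p.2.length) :
    cls p q b (l.map Subtype.val) = cls p q b (l'.map Subtype.val) ↔
      ∃ f, Loc (relOn (sd q b)) p.2.length l.toFinset f ∧ l.map f = l' := by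
  obtain ⟨a, l, rfl⟩ := List.exists_cons_of_length_pos (l := l) h2
  obtain ⟨a', l', rfl⟩ := List.exists_cons_of_length_pos (l := l') (h1 ▸ h2)
  rw [cls_iff h]
  exact sim_tup_iff h3 h1

end WL

end Pool.Agent.P.MP_f1a348_lc.GX
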