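import Pool.Agent.P.MP_f1a348_lc.GX.DefsS
import Pool.Agent.P.MP_f1a348_lc.GX.TSYS

/-! Step DOM. -/

set_option autoImplicit false
set_option linter.unusedSectionVars false

namespace Pool.Agent.P.MP_f1a348_lc.GX

open Equiv Finset
open scoped Classical
variable {Y : Type} [DecidableEq Y] {Γ Γ' : Sy Y}

namespace DOMx

theorem cnt_eq (hM : 2 ≤ Γ.M) {A : Finset Y} (hA : Γ.Inv1 A) (a b : Y) {v v' : Y}
    (e : Γ.E1 v v') :
    (A.filter (fun w => Γ.E2 a b w v)).card = (A.filter (fun w => Γ.E2 a b w v')).card := by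
  have hR : Γ.Inv2 (fun v w => w ∈ A ∧ Γ.E2 a b w v) := by
    refine ⟨fun x y h => ?_, fun x y x' y' h h' => ?_⟩
    · exact ⟨h.2.snd.mem.2, h.2.fst.mem.2⟩
    · exact ⟨hA.2 _ _ h.snd h'.1, h'.2.trans h.swap⟩
  have key : ∀ u, Γ.D.filter (fun w => w ∈ A ∧ Γ.E2 a b w u) =
      A.filter (fun w => Γ.E2 a b w u) := by
    intro u
    ext w
    simp only [mem_filter]
    exact ⟨fun h => h.2, fun h => ⟨hA.1 h.1, h⟩⟩
  have := hR.card_eq hM e
  rw [← key v, ← key v']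
  convert this

theorem cnt_eq2 (hM : 2 ≤ Γ.M) {A : Finset Y} (hA : Γ.Inv1 A) {z v z' v' : Y}
    (e : Γ.E2 z v z' v') :
    (A.filter (fun w => Γ.E2 z v w v)).card = (A.filter (fun w => Γ.E2 z' v' w v')).card := by
  rw [cnt_eq hM hA z v e.snd]
  congr 1
  ext w
  simp only [mem_filter]
  exact ⟨fun h => ⟨h.1, e.symm.trans h.2⟩, fun h => ⟨h.1, e.trans h.2⟩⟩

end DOMx

/- N z v iff z in A, v in O and at most three quarters of the z' in A have E2 z v z' v -/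
theorem Sy.dom (hM : 3 ≤ Γ.M) {A O : Finset Y} (hA : Γ.Cls A) (h2 : 2 ≤ A.card)
    (hO : Γ.Inv1 O) {ρ : Y → Y → Prop} (hρ : Γ.Inv2 ρ) (hs : Sy.Sep A O ρ) :
    (∃ v ∈ O, ∀ z ∈ A, 4 * (A.filter (fun z' => Γ.E2 z v z' v)).card ≤ 3 * A.card) ∨
      ∃ N, Γ.Dom A O N := by
  by_cases hc : ∃ v ∈ O, ∀ z ∈ A, 4 * (A.filter (fun z' => Γ.E2 z v z' v)).card ≤ 3 * A.card
  · exact Or.inl hc
  right
  have hM2 : 2 ≤ Γ.M := by omega
  have hd : ∀ v ∈ O, ∃ z ∈ A, 3 * A.card < 4 * (A.filter (fun z' => Γ.E2 z v z' v)).card := by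
    intro v hv
    by_contra hn
    refine hc ⟨v, hv, fun z hz => ?_⟩
    by_contra h'
    exact hn ⟨z, hz, by omega⟩
  have hdom : ∀ z ∈ A, ∀ z' ∈ A, ∀ v ∈ O, ∀ v', Γ.E1 v v' →
      3 * A.card < 4 * (A.filter (fun w => Γ.E2 z v w v)).card →
      3 * A.card < 4 * (A.filter (fun w => Γ.E2 z' v' w v')).card → Γ.E2 z v z' v' := by
    intro z hz z' hz' v hv v' e h1 h1'
    rw [DOMx.cnt_eq hM2 hA.2.1 z v e] at h1
    by_contra hn
    have hdis : Disjoint (A.filter (fun w => Γ.E2 z v w v'))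
        (A.filter (fun w => Γ.E2 z' v' w v')) := by
      rw [disjoint_left]
      intro w hw hw'
      exact hn ((mem_filter.1 hw).2.trans (mem_filter.1 hw').2.symm)
    have h3 := card_union_of_disjoint hdis
    have h4 : (A.filter (fun w => Γ.E2 z v w v') ∪ A.filter (fun w => Γ.E2 z' v' w v')).card ≤
        A.card := card_le_card (union_subset (filter_subset _ _) (filter_subset _ _))
    omega
  refine ⟨fun z v => z ∈ A ∧ v ∈ O ∧
    4 * (A.filter (fun z' => Γ.E2 z v z' v)).card ≤ 3 * A.card, ?_, ?_, ?_, ?_, ?_⟩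
  · refine ⟨fun a b h => ⟨hA.2.1.1 h.1, hO.1 h.2.1⟩, fun a b a' b' e h => ?_⟩
    refine ⟨hA.2.1.2 _ _ e.fst h.1, hO.2 _ _ e.snd h.2.1, ?_⟩
    rw [← DOMx.cnt_eq2 hM2 hA.2.1 e]
    exact h.2.2
  · exact fun z v h => ⟨h.1, h.2.1⟩
  · intro v
    by_cases hv : v ∈ O
    · obtain ⟨z0, hz0, h0⟩ := hd v hv
      have hdis : Disjoint (A.filter (fun z => z ∈ A ∧ v ∈ O ∧
          4 * (A.filter (fun z' => Γ.E2 z v z' v)).card ≤ 3 * A.card))
          (A.filter (fun w => Γ.E2 z0 v w v)) := by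
        rw [disjoint_left]
        intro w hw hw'
        have h1 := (mem_filter.1 hw).2.2.2
        rw [← DOMx.cnt_eq2 hM2 hA.2.1 (mem_filter.1 hw').2] at h1
        omega
      have h3 := card_union_of_disjoint hdis
      have h4 := card_le_card (union_subset (filter_subset (fun z => z ∈ A ∧ v ∈ O ∧
          4 * (A.filter (fun z' => Γ.E2 z v z' v)).card ≤ 3 * A.card) A)
          (filter_subset (fun w => Γ.E2 z0 v w v) A))
      have h5 : 4 * (A.filter (fun z => z ∈ A ∧ v ∈ O ∧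
          4 * (A.filter (fun z' => Γ.E2 z v z' v)).card ≤ 3 * A.card)).card < A.card := by omega
      convert h5
    · have : A.filter (fun z => z ∈ A ∧ v ∈ O ∧
          4 * (A.filter (fun z' => Γ.E2 z v z' v)).card ≤ 3 * A.card) = ∅ := by
        rw [filter_eq_empty_iff]
        exact fun z _ h => hv h.2.1
      have h5 : 4 * (A.filter (fun z => z ∈ A ∧ v ∈ O ∧
          4 * (A.filter (fun z' => Γ.E2 z v z' v)).card ≤ 3 * A.card)).card < A.card := by
        rw [this, card_empty]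
        omega
      convert h5
  · intro z hz z' hz' v hv v' e h1 h1'
    have hv' : v' ∈ O := hO.2 _ _ e hv
    refine hdom z hz z' hz' v hv v' e ?_ ?_
    · by_contra h'
      exact h1 ⟨hz, hv, by omega⟩
    · by_contra h'
      exact h1' ⟨hz', hv', by omega⟩
  · obtain ⟨z, hz, z', hz', hne⟩ := one_lt_card.1 (show 1 < A.card by omega)
    obtain ⟨v, hv, hn⟩ := hs z hz z' hz' hne
    by_contra h'
    apply hn
    refine hρ.iff (hdom z hz z' hz' v hv v (Sy.E1.refl (hO.1 hv)) ?_ ?_)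
    · by_contra h''
      exact h' ⟨z, v, hz, hv, by omega⟩
    · by_contra h''
      exact h' ⟨z', v, hz', hv, by omega⟩

/- restrict to the class C of a point v with N z v; double counting gives 4 e < card C -/
theorem Sy.Dom.tight (hM : 3 ≤ Γ.M) {A O : Finset Y} (hA : Γ.Cls A) (hO : Γ.Inv1 O)
    {N : Y → Y → Prop} (h : Γ.Dom A O N) :
    ∃ C ⊆ O, Γ.Cls C ∧ Γ.Inv2 (fun z v => v ∈ C ∧ N z v) ∧
      (∃ x ∈ A, ∃ y ∈ A, ∃ v ∈ C, N x v ∧ ¬ N y v) ∧
      ∃ e, 1 ≤ e ∧ 4 * e < C.card ∧ ∀ z ∈ A, (C.filter (N z)).card = e := by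
  have hM2 : 2 ≤ Γ.M := by omega
  obtain ⟨z0, v0, h0⟩ := h.ne
  have hz0 := (h.sup _ _ h0).1
  have hv0 := (h.sup _ _ h0).2
  have hC : Γ.Cls (Γ.cls v0) := Sy.cls_cls (hO.1 hv0)
  have hvC : v0 ∈ Γ.cls v0 := Sy.mem_cls.2 (Sy.E1.refl (hO.1 hv0))
  have hI : Γ.Inv2 (fun z v => v ∈ Γ.cls v0 ∧ N z v) :=
    ⟨fun a b hab => h.inv.1 _ _ hab.2, fun a b a' b' e hab =>
      ⟨hC.2.1.2 _ _ e.snd hab.1, h.inv.2 _ _ _ _ e hab.2⟩⟩
  have key : ∀ z, Γ.D.filter (fun v => v ∈ Γ.cls v0 ∧ N z v) = (Γ.cls v0).filter (N z) := by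
    intro z
    ext w
    rw [mem_filter, mem_filter (s := Γ.cls v0)]
    exact ⟨fun hw => hw.2, fun hw => ⟨hC.2.1.1 hw.1, hw⟩⟩
  have he : ∀ z ∈ A, ((Γ.cls v0).filter (N z)).card = ((Γ.cls v0).filter (N z0)).card := by
    intro z hz
    have := hI.card_eq hM2 (hA.2.2 z hz z0 hz0)
    rw [← key z, ← key z0]
    convert this
  refine ⟨Γ.cls v0, hO.cls_sub hv0, hC, hI, ?_, ((Γ.cls v0).filter (N z0)).card, ?_, ?_, he⟩
  · by_contra hn
    have h1 := h.few v0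
    have h2 : A.filter (fun z => N z v0) = A := by
      rw [filter_eq_self]
      intro y hy
      by_contra h3
      exact hn ⟨z0, hz0, y, hy, v0, hvC, h0, h3⟩
    rw [h2] at h1
    omega
  · exact card_pos.2 ⟨v0, mem_filter.2 ⟨hvC, h0⟩⟩
  · have h1 : ∑ z ∈ A, ((Γ.cls v0).filter (N z)).card =
        ∑ v ∈ Γ.cls v0, (A.filter (fun z => N z v)).card := by
      simp only [card_filter]
      exact sum_comm
    rw [sum_congr rfl he, sum_const, smul_eq_mul] at h1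
    have h2 : ∑ v ∈ Γ.cls v0, 4 * (A.filter (fun z => N z v)).card <
        ∑ _v ∈ Γ.cls v0, A.card := sum_lt_sum_of_nonempty ⟨v0, hvC⟩ fun v _ => h.few v
    rw [← mul_sum, ← h1, sum_const, smul_eq_mul] at h2
    have h3 : A.card * (4 * ((Γ.cls v0).filter (N z0)).card) < A.card * (Γ.cls v0).card := by
      linarith
    exact lt_of_mul_lt_mul_left h3 (Nat.zero_le _)

end Pool.Agent.P.MP_f1a348_lc.GX
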