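import Pool.Agent.P.MP_f1a348_lc.GX.DefsG
import Pool.Agent.P.MP_f1a348_lc.GX.TSYS

/-! Step TCNT. -/

set_option autoImplicit false
set_option linter.unusedSectionVars false

namespace Pool.Agent.P.MP_f1a348_lc.GX

open Equiv Finset
open scoped Classical
variable {Y : Type} [DecidableEq Y] {Γ : Sy Y}

namespace TCNTx

theorem split (D : Finset Y) (k : ℕ) (p : (Fin (k + 1) → Y) → Prop) [DecidablePred p] :
    ((Fintype.piFinset fun _ : Fin (k + 1) => D).filter p).card =
      ∑ a ∈ D, ((Fintype.piFinset fun _ : Fin k => D).filter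
        (fun w => p (Fin.cons a w : Fin (k + 1) → Y))).card := by
  rw [card_eq_sum_card_fiberwise (f := fun w => w 0) (t := D)
    (fun w hw => Fintype.mem_piFinset.1 (mem_filter.1 (mem_coe.1 hw)).1 0)]
  refine sum_congr rfl fun a ha => ?_
  refine card_nbij' (fun w => Fin.tail w) (fun w => (Fin.cons a w : Fin (k + 1) → Y)) ?_ ?_ ?_ ?_
  · intro w hw
    simp only [coe_filter, mem_filter, Fintype.mem_piFinset, Set.mem_ofPred_eq] at hw ⊢
    obtain ⟨⟨h1, h2⟩, rfl⟩ := hw
    exact ⟨fun i => h1 _, by rwa [Fin.cons_self_tail]⟩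
  · intro w hw
    simp only [coe_filter, mem_filter, Fintype.mem_piFinset, Set.mem_ofPred_eq] at hw ⊢
    exact ⟨⟨fun i => Fin.cases ha hw.1 i, hw.2⟩, rfl⟩
  · intro w hw
    simp only [coe_filter, Set.mem_ofPred_eq] at hw
    obtain ⟨-, rfl⟩ := hw
    exact Fin.cons_self_tail w
  · intro w _
    exact Fin.tail_cons _ _

theorem fin (k : ℕ) : ∀ {A : Finset Y} {f : Perm Y}, Γ.L A f → A.card + k ≤ Γ.M →
    ∀ p q : (Fin k → Y) → Prop, (∀ w : Fin k → Y, (∀ i, w i ∈ Γ.D) → ∀ g : Perm Y,
      (∀ x ∈ A, g x = f x) → Γ.L (A ∪ univ.image w) g → (p w ↔ q (g ∘ w))) →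
    ((Fintype.piFinset fun _ : Fin k => Γ.D).filter p).card =
      ((Fintype.piFinset fun _ : Fin k => Γ.D).filter q).card := by
  induction k with
  | zero =>
    intro A f h _ p q e
    congr 1
    refine filter_congr fun w _ => ?_
    rw [e w (fun i => i.elim0) f (fun _ _ => rfl) (by simpa using h),
      Subsingleton.elim (f ∘ w) w]
  | succ k ih =>
    intro A f h hc p q e
    obtain ⟨β, b1, b2⟩ := Γ.ext h (by omega)
    rw [split, split]
    refine sum_bijective β β.bijective b1 fun a ha => ?_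
    obtain ⟨g, g1, g2, g3⟩ := b2 a ha
    refine ih g3 (by have := card_insert_le a A; omega) _ _ fun w hw g' k1 k2 => ?_
    rw [e _ (fun i => Fin.cases ha hw i) g' (fun x hx => by
      rw [k1 x (mem_insert_of_mem hx), g1 x hx]) (Γ.loc k2 ?_ fun _ _ => rfl)]
    · have : g' ∘ (Fin.cons a w : Fin (k + 1) → Y) = Fin.cons (β a) (g' ∘ w) := by
        funext i
        refine Fin.cases ?_ (fun j => rfl) i
        exact (k1 a (mem_insert_self _ _)).trans g2
      rw [this]
    · intro x hx
      rcases mem_union.1 hx with hx | hx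
      · exact mem_union_left _ (mem_insert_of_mem hx)
      · obtain ⟨i, -, rfl⟩ := mem_image.1 hx
        refine Fin.cases ?_ (fun j => ?_) i
        · exact mem_union_left _ (mem_insert_self _ _)
        · exact mem_union_right _ (mem_image.2 ⟨j, mem_univ _, rfl⟩)

theorem move {κ : Type} [Fintype κ] [DecidableEq κ] {k : ℕ} (σ : κ ≃ Fin k) (D : Finset Y)
    (p : (κ → Y) → Prop) : ((Fintype.piFinset fun _ : κ => D).filter p).card =
      ((Fintype.piFinset fun _ : Fin k => D).filter (fun w => p (w ∘ σ))).card := by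
  refine card_nbij' (fun w => w ∘ σ.symm) (fun w => w ∘ σ) ?_ ?_ ?_ ?_
  · intro w hw
    simp only [coe_filter, Fintype.mem_piFinset, Set.mem_ofPred_eq] at hw ⊢
    refine ⟨fun i => hw.1 _, ?_⟩
    rw [Function.comp_assoc, Equiv.symm_comp_self, Function.comp_id]
    exact hw.2
  · intro w hw
    simp only [coe_filter, Fintype.mem_piFinset, Set.mem_ofPred_eq] at hw ⊢
    exact ⟨fun i => hw.1 _, hw.2⟩
  · intro w _
    funext i; simp
  · intro w _
    funext i; simp

end TCNTx

/- induction on the number of coordinates (first for Fin k), one use of ext for each -/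
theorem Sy.card_eq_tup {κ : Type} [Fintype κ] [DecidableEq κ] {A : Finset Y} {f : Perm Y}
    (h : Γ.L A f) (hc : A.card + Fintype.card κ ≤ Γ.M) (p q : (κ → Y) → Prop)
    (e : ∀ w : κ → Y, (∀ i, w i ∈ Γ.D) → ∀ g : Perm Y, (∀ x ∈ A, g x = f x) →
      Γ.L (A ∪ univ.image w) g → (p w ↔ q (g ∘ w))) :
    ((Fintype.piFinset fun _ : κ => Γ.D).filter p).card =
      ((Fintype.piFinset fun _ : κ => Γ.D).filter q).card := by
  rw [TCNTx.move (Fintype.equivFin κ), TCNTx.move (Fintype.equivFin κ)]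
  refine TCNTx.fin _ h hc _ _ fun w hw g g1 g2 => ?_
  refine e _ (fun i => hw _) g g1 (Γ.loc g2 (union_subset_union_right fun x hx => ?_)
    fun _ _ => rfl)
  obtain ⟨i, -, rfl⟩ := mem_image.1 hx
  exact mem_image.2 ⟨_, mem_univ _, rfl⟩

end Pool.Agent.P.MP_f1a348_lc.GX
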