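import Pool.Agent.P.MP_f1a348_lc.GX.DefsG
import Pool.Agent.P.MP_f1a348_lc.GX.TSYS
import Pool.Agent.P.MP_f1a348_lc.GX.TJOH
import Pool.Agent.P.MP_f1a348_lc.GX.TTCNT

/-! Step GCOMP. -/

set_option autoImplicit false
set_option linter.unusedSectionVars false

namespace Pool.Agent.P.MP_f1a348_lc.GX

open Equiv Finset
open scoped Classical
variable {Y : Type} [DecidableEq Y] {Γ : Sy Y}

namespace GCOMPx

/-- join the fixed part and the free part -/
noncomputable def glue {κ : Type} (I : κ → Prop) (z : κ → Y) (w : {i // ¬ I i} → Y) : κ → Y :=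
  fun i => if h : I i then z i else w ⟨i, h⟩

theorem cnt {C D : Finset Y} (hC : C ⊆ D) {κ : Type} [Fintype κ] [DecidableEq κ] (I : κ → Prop)
    (z : κ → {x // x ∈ C}) (Ψ : (κ → Y) → Prop) :
    (univ.filter (fun w : κ → {x // x ∈ C} =>
        (∀ i, I i → w i = z i) ∧ Ψ (fun i => (w i).1))).card =
      ((Fintype.piFinset fun _ : {i // ¬ I i} => D).filter
        (fun w => (∀ i, w i ∈ C) ∧ Ψ (glue I (fun i => (z i).1) w))).card := by
  refine card_bij (fun w _ => fun i => (w i.1).1) ?_ ?_ ?_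
  · intro w hw
    obtain ⟨h1, h2⟩ := (mem_filter.1 hw).2
    refine mem_filter.2 ⟨Fintype.mem_piFinset.2 fun i => hC (w i.1).2, fun i => (w i.1).2, ?_⟩
    convert h2 using 1
    funext i
    unfold glue
    split_ifs with h
    · rw [h1 i h]
    · rfl
  · intro w hw w' hw' e
    funext i
    by_cases h : I i
    · rw [(mem_filter.1 hw).2.1 i h, (mem_filter.1 hw').2.1 i h]
    · exact Subtype.ext (congrFun e ⟨i, h⟩)
  · intro w hw
    obtain ⟨h1, h2⟩ := (mem_filter.1 hw).2
    refine ⟨fun i => if h : I i then z i else ⟨w ⟨i, h⟩, h1 _⟩,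
      mem_filter.2 ⟨mem_univ _, fun i h => dif_pos h, ?_⟩, ?_⟩
    · convert h2 using 1
      funext i
      unfold glue
      by_cases h : I i
      · simp only [dif_pos h]
      · simp only [dif_neg h]
    · funext i
      simp only [dif_neg i.2]

theorem inj {C : Finset Y} {κ : Type} (I : κ → Prop) {u v : Y} (e : u ≠ v)
    {z : κ → {x // x ∈ C}}
    (hz : ∀ i, I i → (z i).1 ≠ u ∧ (z i).1 ≠ v ∧ ∀ j, I j → z i = z j → i = j) :
    Function.Injective
      (Sum.elim (fun j : {i // I i} => (z j.1).1) (fun b : Bool => bif b then u else v)) := by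
  rintro (j | _ | _) (k | _ | _) h
  · exact congrArg _ (Subtype.ext ((hz j.1 j.2).2.2 k.1 k.2 (Subtype.ext h)))
  · exact ((hz j.1 j.2).2.1 h).elim
  · exact ((hz j.1 j.2).1 h).elim
  · exact ((hz k.1 k.2).2.1 h.symm).elim
  · rfl
  · exact (e h.symm).elim
  · exact ((hz k.1 k.2).1 h.symm).elim
  · exact (e h).elim
  · rfl

end GCOMPx

/- The number of completions does not depend on the fixed part: u, v and the entries on I form an injective tuple with at most d entries, Tr gives a local automorphism that fixes u, v and moves z to z' on I; card_eq_tup for the other coordinates. -/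
theorem Sy.completions {C : Finset Y} {d : ℕ} (hC : Γ.Inv1 C) (ht : Γ.Tr C d) (hd : d ≤ C.card)
    {κ : Type} [Fintype κ] [DecidableEq κ] (hM : Fintype.card κ + 2 ≤ Γ.M) (I : κ → Prop)
    (hI : (univ.filter I).card + 2 ≤ d) (Φ : Y → Y → (κ → Y) → Prop)
    (hΦ : ∀ (A : Finset Y) (f : Perm Y) (u v : Y) (p : κ → Y), Γ.L A f → u ∈ A → v ∈ A →
      (∀ i, p i ∈ A) → Φ u v p → Φ (f u) (f v) (f ∘ p))
    {u v u' v' : Y} (hu : u ∈ C) (hv : v ∈ C) (hu' : u' ∈ C) (hv' : v' ∈ C) (e : u ≠ v)
    (e' : u' ≠ v') {z z' : κ → {x // x ∈ C}}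
    (hz : ∀ i, I i → (z i).1 ≠ u ∧ (z i).1 ≠ v ∧ ∀ j, I j → z i = z j → i = j)
    (hz' : ∀ i, I i → (z' i).1 ≠ u' ∧ (z' i).1 ≠ v' ∧ ∀ j, I j → z' i = z' j → i = j) :
    (univ.filter (fun w : κ → {x // x ∈ C} =>
        (∀ i, I i → w i = z i) ∧ Φ u v (fun i => (w i).1))).card =
      (univ.filter (fun w : κ → {x // x ∈ C} =>
        (∀ i, I i → w i = z' i) ∧ Φ u' v' (fun i => (w i).1))).card := by
  have hn : Fintype.card ({i // I i} ⊕ Bool) = (univ.filter I).card + 2 := by
    rw [Fintype.card_sum, Fintype.card_bool, Fintype.card_subtype]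
  let eqv := (Fintype.equivFinOfCardEq hn).symm
  have hm : ∀ {u v : Y} {z : κ → {x // x ∈ C}}, u ∈ C → v ∈ C → ∀ s,
      Sum.elim (fun j : {i // I i} => (z j.1).1) (fun b : Bool => bif b then u else v) s ∈ C := by
    rintro u v z hu hv (j | _ | _)
    · exact (z j.1).2
    · exact hv
    · exact hu
  obtain ⟨f, hf, hf'⟩ := ht.anti hI hd _ _ ((GCOMPx.inj I e hz).comp eqv.injective)
    ((GCOMPx.inj I e' hz').comp eqv.injective) (fun i => hm hu hv _) (fun i => hm hu' hv' _)
  set A := univ.image ((Sum.elim (fun j : {i // I i} => (z j.1).1)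
    (fun b : Bool => bif b then u else v)) ∘ eqv) with hA
  have hAm : ∀ s, Sum.elim (fun j : {i // I i} => (z j.1).1)
      (fun b : Bool => bif b then u else v) s ∈ A := fun s =>
    mem_image.2 ⟨eqv.symm s, mem_univ _, by simp⟩
  have hfs : ∀ s, f (Sum.elim (fun j : {i // I i} => (z j.1).1)
      (fun b : Bool => bif b then u else v) s) = Sum.elim (fun j : {i // I i} => (z' j.1).1)
      (fun b : Bool => bif b then u' else v') s := fun s => by
    simpa using hf' (eqv.symm s)
  have hAc : A.card ≤ (univ.filter I).card + 2 := card_image_le.trans (by simp)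
  have hκ : Fintype.card {i // ¬ I i} + (univ.filter I).card = Fintype.card κ := by
    rw [Fintype.card_subtype, add_comm, card_filter_add_card_filter_not, card_univ]
  rw [GCOMPx.cnt hC.1 I z (Φ u v), GCOMPx.cnt hC.1 I z' (Φ u' v')]
  convert Sy.card_eq_tup (κ := {i // ¬ I i}) hf (by omega)
    (fun w => (∀ i, w i ∈ C) ∧ Φ u v (GCOMPx.glue I (fun i => (z i).1) w))
    (fun w => (∀ i, w i ∈ C) ∧ Φ u' v' (GCOMPx.glue I (fun i => (z' i).1) w)) ?_
  intro w _ g hg hL
  have hw : ∀ i, w i ∈ A ∪ univ.image w := fun i =>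
    mem_union_right _ (mem_image_of_mem _ (mem_univ _))
  have hu1 : u ∈ A := hAm (.inr true)
  have hv1 : v ∈ A := hAm (.inr false)
  have gu : g u = u' := (hg u hu1).trans (hfs (.inr true))
  have gv : g v = v' := (hg v hv1).trans (hfs (.inr false))
  have hgl : ∀ i, GCOMPx.glue I (fun i => (z i).1) w i ∈ A ∪ univ.image w := fun i => by
    unfold GCOMPx.glue
    split_ifs with h
    · exact mem_union_left _ (hAm (.inl ⟨i, h⟩))
    · exact hw _
  have gl : g ∘ GCOMPx.glue I (fun i => (z i).1) w =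
      GCOMPx.glue I (fun i => (z' i).1) (g ∘ w) := by
    funext i
    simp only [Function.comp_apply, GCOMPx.glue]
    split_ifs with h
    · exact (hg _ (hAm (.inl ⟨i, h⟩))).trans (hfs (.inl ⟨i, h⟩))
    · rfl
  refine and_congr (forall_congr' fun i => hC.iff (Sy.e1_of_L hL (hw i))) ⟨fun h => ?_, fun h => ?_⟩
  · rw [← gu, ← gv, ← gl]
    exact hΦ _ g u v _ hL (mem_union_left _ hu1) (mem_union_left _ hv1) hgl h
  · rw [← gu, ← gv, ← gl] at h
    have h2 := hΦ _ g⁻¹ _ _ _ (Γ.inv hL) (mem_image_of_mem _ (mem_union_left _ hu1))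
      (mem_image_of_mem _ (mem_union_left _ hv1)) (fun i => mem_image_of_mem _ (hgl i)) h
    convert h2 using 1
    · simp
    · simp
    · funext i; simp

end Pool.Agent.P.MP_f1a348_lc.GX
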