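import Pool.Agent.P.MP_f1a348_lc.GX.DefsG

/-! Step GPAIR. -/

set_option autoImplicit false
set_option linter.unusedSectionVars false

namespace Pool.Agent.P.MP_f1a348_lc.GX

open Equiv Finset
open scoped Classical
variable {Y : Type} [DecidableEq Y] {Γ : Sy Y}

namespace GPAIRx

variable {κ Z : Type} [Fintype κ] [DecidableEq κ] [Fintype Z] [DecidableEq Z]

theorem pairs (ε : κ → Bool) (G : (κ → Z) → (κ → Z) → Prop) (S : Finset (κ × Bool → Z))
    (h : ∀ ω, ω ∈ S ↔ G (fun i => ω (i, ε i)) fun i => ω (i, !ε i)) :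
    S.card = ∑ z, (univ.filter (G z)).card := by
  rw [← card_sigma]
  refine card_nbij' (fun ω => ⟨fun i => ω (i, ε i), fun i => ω (i, !ε i)⟩)
    (fun p a => if a.2 = ε a.1 then p.1 a.1 else p.2 a.1) ?_ ?_ ?_ ?_
  · intro ω hω
    simpa using (h ω).1 hω
  · rintro ⟨z, u⟩ hp
    exact (h _).2 (by simpa using hp)
  · intro ω _
    funext ⟨i, b⟩
    cases b <;> cases hi : ε i <;> simp [hi]
  · rintro ⟨z, u⟩ _
    simp

theorem fib (p : κ → Prop) (F : (κ → Z) → Prop) (z : κ → Z) (S : Finset (κ → Z))
    (h : ∀ w, w ∈ S ↔ (∀ i, p i → w i = z i) ∧ F w) :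
    (univ.filter fun u : κ → Z => F fun i => if p i then z i else u i).card =
      S.card * ∏ i, if p i then Fintype.card Z else 1 := by
  rw [card_eq_sum_card_fiberwise (f := fun (u : κ → Z) i => if p i then z i else u i) (t := S)
    fun u hu => (h _).2 ⟨fun i hi => if_pos hi, by simpa using hu⟩, ← smul_eq_mul, ← sum_const]
  refine sum_congr rfl fun w hw => ?_
  obtain ⟨h1, h2⟩ := (h w).1 hw
  have : (∏ i, if p i then Fintype.card Z else 1) =
      (Fintype.piFinset fun i => if p i then univ else {w i}).card := by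
    rw [Fintype.card_piFinset]
    exact prod_congr rfl fun i _ => by split_ifs <;> simp
  rw [this]
  congr 1
  ext u
  simp only [mem_filter, mem_univ, true_and, Fintype.mem_piFinset]
  refine ⟨fun g i => ?_, fun g => ?_⟩
  · have := congrFun g.2 i
    split_ifs at this ⊢ <;> simp [this]
  · have e : (fun i => if p i then z i else u i) = w := funext fun i => by
      have := g i
      split_ifs at this ⊢ with hi
      exacts [(h1 i hi).symm, by simpa using this]
    exact ⟨e ▸ h2, e⟩

theorem one (i : κ) (g : (κ → Z) → Z) (hg : ∀ z y, g (Function.update z i y) = g z)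
    (S : Finset (κ → Z)) (h : ∀ z ∈ S, z i = g z) :
    S.card * Fintype.card Z ≤ Fintype.card Z ^ Fintype.card κ := by
  rw [← Fintype.card_fun, ← card_univ, ← card_univ, ← card_product]
  refine card_le_card_of_injOn (fun p => Function.update p.1 i p.2) (fun _ _ => mem_univ _) ?_
  rintro ⟨z, y⟩ hp ⟨z', y'⟩ hp' e
  have h1 : y = y' := by simpa using congrFun e i
  refine Prod.ext (funext fun j => ?_) h1
  by_cases hj : j = i
  · have e' := congrArg g e
    rw [hg, hg] at e'
    rw [hj]
    exact (h z (mem_product.1 hp).1).trans (e'.trans (h z' (mem_product.1 hp').1).symm)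
  · simpa [hj] using congrFun e j

end GPAIRx

/- Split the functions on κ × Bool into the shared part (on I), the two private parts and the unused part. -/
theorem pair_moment {κ Z : Type} [Fintype κ] [DecidableEq κ] [Fintype Z] [DecidableEq Z]
    (F ok : (κ → Z) → Prop) (ε ε' : κ → Bool)
    (h1 : ∀ z, F z → ok z)
    (h2 : ∀ z z' : κ → Z, (∀ i, ε i = ε' i → z i = z' i) → (ok z ↔ ok z'))
    (h3 : ∀ z z' : κ → Z, ok z → ok z' →
      (univ.filter (fun w : κ → Z => (∀ i, ε i = ε' i → w i = z i) ∧ F w)).card =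
        (univ.filter (fun w : κ → Z => (∀ i, ε i = ε' i → w i = z' i) ∧ F w)).card) :
    (univ.filter (fun ω : κ × Bool → Z =>
        F (fun i => ω (i, ε i)) ∧ F (fun i => ω (i, ε' i)))).card * (univ.filter ok).card =
      (univ.filter F).card ^ 2 * Fintype.card Z ^ Fintype.card κ := by
  have key : ∀ z : κ → Z,
      (univ.filter fun u : κ → Z => F fun i => if ε i = ε' i then z i else u i).card =
      (univ.filter (fun w : κ → Z => (∀ i, ε i = ε' i → w i = z i) ∧ F w)).card *
        ∏ i, if ε i = ε' i then Fintype.card Z else 1 := fun z => by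
    convert GPAIRx.fib (fun i => ε i = ε' i) F z
      (univ.filter (fun w : κ → Z => (∀ i, ε i = ε' i → w i = z i) ∧ F w)) fun w => by simp
  have mx : ∀ (ω : κ × Bool → Z), (fun i => ω (i, ε' i)) =
      fun i => if ε i = ε' i then ω (i, ε i) else ω (i, !ε i) := fun ω => funext fun i => by
    cases ε i <;> cases ε' i <;> simp
  have e1 := GPAIRx.pairs ε (fun z u => F z ∧ F fun i => if ε i = ε' i then z i else u i)
    (univ.filter fun ω => F (fun i => ω (i, ε i)) ∧ F (fun i => ω (i, ε' i)))
    fun ω => by rw [← mx]; simp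
  have e2 := GPAIRx.pairs ε (fun z u => F fun i => if ε i = ε' i then z i else u i)
    (univ.filter fun ω => F (fun i => ω (i, ε' i))) fun ω => by rw [← mx]; simp
  have e3 := GPAIRx.pairs ε' (fun z _ => F z) (univ.filter fun ω => F (fun i => ω (i, ε' i)))
    fun ω => by simp
  rcases (univ.filter F).eq_empty_or_nonempty with h0 | ⟨z₀, h0⟩
  · rw [e1, h0, sum_eq_zero fun z _ => ?_]
    · simp
    · have : ¬ F z := by simpa using filter_eq_empty_iff.1 h0 (mem_univ z)
      simp [this]
  have o := h1 z₀ (mem_filter.1 h0).2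
  set d := (univ.filter fun u : κ → Z => F fun i => if ε i = ε' i then z₀ i else u i).card
  have hd : ∀ z, ok z →
      (univ.filter fun u : κ → Z => F fun i => if ε i = ε' i then z i else u i).card = d :=
    fun z hz => by rw [key, h3 z z₀ hz o, ← key]
  have s1 : ∀ (p : (κ → Z) → Prop) (c : ℕ) (f : (κ → Z) → ℕ), (∀ z, p z → f z = c) →
      (∀ z, ¬ p z → f z = 0) → ∑ z, f z = (univ.filter p).card * c := fun p c f a b => by
    rw [← smul_eq_mul, ← sum_const, sum_filter]
    exact sum_congr rfl fun z _ => by split_ifs with g; exacts [a z g, b z g]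
  rw [s1 F d _ (fun z g => by simpa [g] using hd z (h1 z g)) fun z g => by simp [g]] at e1
  rw [s1 ok d _ hd fun z g => card_eq_zero.2 <| filter_eq_empty_iff.2 fun u _ a =>
    g ((h2 _ z fun i hi => if_pos hi).1 (h1 _ a))] at e2
  rw [s1 F (Fintype.card Z ^ Fintype.card κ) _ (fun z g => by simp [g]) fun z g => by simp [g],
    e2] at e3
  rw [e1, mul_assoc, mul_comm d, e3]
  ring

theorem single_moment {κ Z : Type} [Fintype κ] [DecidableEq κ] [Fintype Z] [DecidableEq Z]
    (F : (κ → Z) → Prop) (ε : κ → Bool) :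
    (univ.filter (fun ω : κ × Bool → Z => F (fun i => ω (i, ε i)))).card =
      (univ.filter F).card * Fintype.card Z ^ Fintype.card κ := by
  rw [GPAIRx.pairs ε (fun z _ => F z) _ fun ω => by simp, ← smul_eq_mul, ← sum_const, sum_filter]
  exact sum_congr rfl fun z _ => by split_ifs with g <;> simp [g]

/- union bound: a function into Z is injective and avoids B except for few -/
theorem few_bad {κ Z : Type} [Fintype κ] [DecidableEq κ] [Fintype Z] [DecidableEq Z]
    (B : Finset Z) :
    (univ.filter (fun z : κ → Z => ¬ (Function.Injective z ∧ ∀ i, z i ∉ B))).card *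
        Fintype.card Z ≤
      (Fintype.card κ + B.card) ^ 2 * Fintype.card Z ^ Fintype.card κ := by
  have h1 : univ.filter (fun z : κ → Z => ¬ (Function.Injective z ∧ ∀ i, z i ∉ B)) ⊆
      (univ.offDiag.biUnion fun p : κ × κ => univ.filter fun z => z p.1 = z p.2) ∪
        (univ ×ˢ B).biUnion fun p : κ × Z => univ.filter fun z => z p.1 = p.2 := fun z hz => by
    by_cases g : Function.Injective z
    · have : ∃ i, z i ∈ B := by simpa [g] using hz
      obtain ⟨i, hi⟩ := this
      exact mem_union_right _ (mem_biUnion.2 ⟨(i, z i), by simpa using hi, by simp⟩)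
    · obtain ⟨i, j, a, b⟩ := Function.not_injective_iff.1 g
      exact mem_union_left _ (mem_biUnion.2 ⟨(i, j), by simpa using b, by simpa using a⟩)
  refine (Nat.mul_le_mul_right _ ((card_le_card h1).trans ((card_union_le _ _).trans
    (add_le_add card_biUnion_le card_biUnion_le)))).trans ?_
  rw [add_mul, sum_mul, sum_mul]
  refine (add_le_add (sum_le_card_nsmul _ _ _ fun p hp => GPAIRx.one p.1 (fun z => z p.2)
    (fun z y => Function.update_of_ne (mem_offDiag.1 hp).2.2.symm _ _) _
      fun z hz => (mem_filter.1 hz).2) (sum_le_card_nsmul _ _ _ fun p _ =>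
    GPAIRx.one p.1 (fun _ => p.2) (fun _ _ => rfl) _ fun z hz => (mem_filter.1 hz).2)).trans ?_
  rw [smul_eq_mul, smul_eq_mul, ← add_mul, offDiag_card, card_product, card_univ]
  refine Nat.mul_le_mul_right _ ?_
  nlinarith [Nat.sub_le (Fintype.card κ * Fintype.card κ) (Fintype.card κ)]

/- Cauchy-Schwarz for the number of events that hold: with n = card E events of probability μ and pair probabilities at most μ ^ 2 / π, the probability that one holds is at least 1 / (1 / (n μ) + 1 / π) -/
theorem second_moment {Ω ι : Type} [Fintype Ω] [DecidableEq Ω] [DecidableEq ι] (E : Finset ι)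
    (F : ι → Ω → Prop) {μ π : ℝ} (hμ : 0 < μ) (hπ : 0 < π) (hE : E.Nonempty)
    (h1 : ∀ e ∈ E, ((univ.filter (F e)).card : ℝ) = μ * Fintype.card Ω)
    (h2 : ∀ e ∈ E, ∀ e' ∈ E, e ≠ e' →
      ((univ.filter (fun ω => F e ω ∧ F e' ω)).card : ℝ) * π ≤ μ ^ 2 * Fintype.card Ω) :
    (Fintype.card Ω : ℝ) ≤
      (1 / (E.card * μ) + 1 / π) * (univ.filter (fun ω => ∃ e ∈ E, F e ω)).card := by
  set U := univ.filter (fun ω => ∃ e ∈ E, F e ω)
  have n0 : (0 : ℝ) < E.card := by exact_mod_cast hE.card_pos
  rcases (Nat.cast_nonneg (α := ℝ) (Fintype.card Ω)).eq_or_lt with h0 | h0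
  · rw [← h0]; positivity
  have a1 : ∑ ω ∈ U, ∑ e ∈ E, (if F e ω then 1 else 0 : ℝ) = E.card * (μ * Fintype.card Ω) := by
    rw [sum_comm, ← nsmul_eq_mul, ← sum_const]
    refine sum_congr rfl fun e he => ?_
    rw [sum_boole, ← h1 e he, filter_filter]
    exact congrArg _ (congrArg _ (filter_congr fun ω _ => ⟨fun g => g.2, fun g => ⟨⟨e, he, g⟩, g⟩⟩))
  have a2 : ∑ ω ∈ U, (∑ e ∈ E, (if F e ω then 1 else 0 : ℝ)) ^ 2 ≤
      E.card * (μ * Fintype.card Ω + E.card * (μ ^ 2 * Fintype.card Ω / π)) := by
    simp only [sq, sum_mul_sum]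
    rw [sum_comm, ← nsmul_eq_mul, ← sum_const]
    refine sum_le_sum fun e he => ?_
    have b : ∀ e' ∈ E, ∑ ω ∈ U, (if F e ω then 1 else 0 : ℝ) * (if F e' ω then 1 else 0) ≤
        (if e = e' then μ * Fintype.card Ω else 0) + μ * μ * Fintype.card Ω / π := fun e' he' => by
      have c : ∑ ω ∈ U, (if F e ω then 1 else 0 : ℝ) * (if F e' ω then 1 else 0) ≤
          (univ.filter (fun ω => F e ω ∧ F e' ω)).card := by
        rw [← sum_boole]
        refine (sum_le_sum_of_subset_of_nonneg (subset_univ U) fun _ _ _ => by positivity).trans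
          (sum_le_sum fun ω _ => ?_)
        by_cases g : F e ω <;> by_cases g' : F e' ω <;> simp [g, g']
      refine c.trans ?_
      split_ifs with g
      · subst g
        simp only [and_self]
        rw [h1 e he]
        exact le_add_of_nonneg_right (by positivity)
      · rw [zero_add, le_div_iff₀ hπ, ← sq]
        exact h2 e he e' he' g
    rw [sum_comm]
    refine (sum_le_sum b).trans (le_of_eq ?_)
    rw [sum_add_distrib, sum_ite_eq, if_pos he, sum_const, nsmul_eq_mul]
  have a3 := sq_sum_le_card_mul_sum_sq (s := U) (f := fun ω => ∑ e ∈ E, (if F e ω then 1 else 0 : ℝ))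
  rw [a1] at a3
  have a4 := a3.trans (mul_le_mul_of_nonneg_left a2 (Nat.cast_nonneg _))
  refine le_of_mul_le_mul_right ?_ (show 0 < (E.card * μ) ^ 2 * (Fintype.card Ω : ℝ) by positivity)
  convert a4 using 1
  · ring
  · field_simp

end Pool.Agent.P.MP_f1a348_lc.GX
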