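import Pool.Agent.P.MP_f1a348_lc.GX.DefsG
import Pool.Agent.P.MP_f1a348_lc.GX.TSYS
import Pool.Agent.P.MP_f1a348_lc.GX.TGOOD
import Pool.Agent.P.MP_f1a348_lc.GX.TGPAIR
import Pool.Agent.P.MP_f1a348_lc.GX.TGCOMP

/-! Step GDENSE. -/

set_option autoImplicit false
set_option linter.unusedSectionVars false

namespace Pool.Agent.P.MP_f1a348_lc.GX

open Equiv Finset
open scoped Classical
variable {Y : Type} [DecidableEq Y] {Γ : Sy Y}

namespace GDENSEx

/-- the number of points with a property -/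
noncomputable def cnt {α : Type} [Fintype α] (p : α → Prop) : ℕ :=
  (@Finset.filter α p (Classical.decPred p) univ).card

theorem cnt_eq {α : Type} [Fintype α] (p : α → Prop) [DecidablePred p] :
    (univ.filter p).card = cnt p := by
  unfold cnt; congr

theorem cnt_mono {α : Type} [Fintype α] {p q : α → Prop} (h : ∀ x, p x → q x) : cnt p ≤ cnt q :=
  card_le_card fun x hx => by
    simp only [mem_filter, mem_univ, true_and] at hx ⊢
    exact h x hx

theorem cnt_add {α : Type} [Fintype α] (p : α → Prop) :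
    cnt p + cnt (fun x => ¬ p x) = Fintype.card α := by
  rw [← cnt_eq p, ← cnt_eq (fun x => ¬ p x), card_filter_add_card_filter_not, card_univ]

theorem swap_sum {α β : Type} [Fintype β] (s : Finset α) (r : α → β → Prop)
    [∀ b, DecidablePred fun a => r a b] :
    ∑ a ∈ s, cnt (r a) = ∑ b : β, (s.filter (fun a => r a b)).card := by
  simp only [cnt, card_filter]
  rw [sum_comm]
  exact sum_congr rfl fun b _ => sum_congr rfl fun a _ => by congr

/-- `p` separates `u` from `v` -/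
def Ph {d : ℕ} (R : (Fin d → Y) → Y → Prop) (u v : Y) (p : Fin d → Y) : Prop :=
  R p u ∧ ¬ R p v ∧ ∀ i, p i ≠ v

theorem ph_inv {C : Finset Y} {d m : ℕ} {R : (Fin d → Y) → Y → Prop} (ht : Γ.Typ C d R m)
    (A : Finset Y) (f : Perm Y) (u v : Y) (p : Fin d → Y) (hL : Γ.L A f) (hu : u ∈ A)
    (hv : v ∈ A) (hp : ∀ i, p i ∈ A) (h : Ph R u v p) : Ph R (f u) (f v) (f ∘ p) := by
  refine ⟨ht.inv A f p u hL hp hu h.1, fun e => h.2.1 ?_, fun i e => h.2.2 i (f.injective e)⟩
  have := ht.inv _ f⁻¹ (f ∘ p) (f v) (Γ.inv hL) (fun i => mem_image_of_mem _ (hp i))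
    (mem_image_of_mem _ hv) e
  have e1 : (f⁻¹ : Perm Y) ∘ (f ∘ p) = p := by funext i; simp
  have e2 : (f⁻¹ : Perm Y) (f v) = v := by simp
  rwa [e1, e2] at this

theorem ph_card {C : Finset Y} {d m : ℕ} {R : (Fin d → Y) → Y → Prop} (ht : Γ.Typ C d R m)
    (p : Fin d → Y) (hp : Function.Injective p) (hC : ∀ i, p i ∈ C) :
    m * (C.card - (m + d)) ≤ (C.offDiag.filter (fun uv => Ph R uv.1 uv.2 p)).card := by
  have h1 := ht.card p hp hC
  have h2 : C.card - (m + d) ≤ (C \ (C.filter (R p) ∪ univ.image p)).card := by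
    refine le_trans ?_ (le_card_sdiff _ _)
    have h3 := card_union_le (C.filter (R p)) (univ.image p)
    have h4 := card_image_le (s := (univ : Finset (Fin d))) (f := p)
    rw [card_univ, Fintype.card_fin] at h4
    omega
  calc m * (C.card - (m + d))
      ≤ (C.filter (R p) ×ˢ (C \ (C.filter (R p) ∪ univ.image p))).card := by
        rw [card_product, h1]; exact Nat.mul_le_mul_left _ h2
    _ ≤ _ := card_le_card fun uv huv => by
        simp only [mem_product, mem_filter, mem_sdiff, mem_union, mem_image, mem_univ, true_and,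
          not_or, not_and, not_exists, mem_offDiag] at huv ⊢
        obtain ⟨⟨a1, a2⟩, a3, a4, a5⟩ := huv
        exact ⟨⟨a1, a3, fun e => a4 a3 (e ▸ a2)⟩, a2, a4 a3, a5⟩

theorem num1 {c d m H N T J : ℝ} (hH : 256 ≤ H) (hc : H ^ 64 ≤ 2 * c) (hd : d ≤ H)
    (hT : 0 < T) (hJ : T - J ≤ T / 10) (hm : c ≤ m * H ^ 2 + d) (hm2 : 2 * m + d ≤ c)
    (hN : J * (m * (c - (m + d))) ≤ c ^ 2 * N) : 1 / (3 * H ^ 2) ≤ N / T := by
  have h1 : 20 * H ≤ H ^ 64 := by
    calc 20 * H ≤ H * H := by nlinarith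
      _ = H ^ 2 := by ring
      _ ≤ H ^ 64 := pow_le_pow_right₀ (by linarith) (by norm_num)
  have hc0 : 0 < c := by linarith
  have h2 : 9 / 10 * c ≤ m * H ^ 2 := by linarith
  have h3 : 9 / 20 * c ≤ c - (m + d) := by linarith
  have hH2 : 0 < H ^ 2 := by positivity
  have hm0 : 0 ≤ m := by
    by_contra h
    have : m * H ^ 2 < 0 := mul_neg_of_neg_of_pos (not_le.1 h) hH2
    linarith
  have h4 : 9 / 10 * c * (9 / 20 * c) ≤ m * H ^ 2 * (c - (m + d)) :=
    mul_le_mul h2 h3 (by positivity) (by positivity)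
  have h5 : 9 / 10 * T * (9 / 10 * c * (9 / 20 * c)) ≤ J * (m * H ^ 2 * (c - (m + d))) :=
    mul_le_mul (by linarith) h4 (by positivity) (by linarith)
  have h6 : J * (m * H ^ 2 * (c - (m + d))) ≤ c ^ 2 * N * H ^ 2 := by
    have := mul_le_mul_of_nonneg_right hN hH2.le
    linarith
  have h7 : c ^ 2 * T ≤ c ^ 2 * (N * (3 * H ^ 2)) := by
    have : 0 < c ^ 2 * T := by positivity
    nlinarith
  rw [div_le_div_iff₀ (by positivity) hT, one_mul]
  exact le_of_mul_le_mul_left h7 (by positivity)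

theorem num2 {c d H : ℝ} (hH : 256 ≤ H) (hc : H ^ 64 ≤ 2 * c) (hd : d ≤ H) (hd0 : 0 ≤ d) :
    (d + 2) ^ 2 / c ≤ 1 / (2 * H ^ 2) := by
  have hH0 : 0 < H := by linarith
  have h1 : 16 * H ^ 4 ≤ H ^ 64 := by
    calc 16 * H ^ 4 ≤ H * H ^ 4 := by gcongr; linarith
      _ = H ^ 5 := by ring
      _ ≤ H ^ 64 := pow_le_pow_right₀ (by linarith) (by norm_num)
  have h2 : (d + 2) ^ 2 ≤ (2 * H) ^ 2 := pow_le_pow_left₀ (by linarith) (by linarith) 2
  have h3 : 0 < H ^ 4 := by positivity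
  rw [div_le_div_iff₀ (by linarith) (by positivity)]
  have h4 : (d + 2) ^ 2 * (2 * H ^ 2) ≤ (2 * H) ^ 2 * (2 * H ^ 2) := by gcongr
  nlinarith

theorem num3 {H μ x W G B : ℝ} (hH : 256 ≤ H) (hμ : 1 / (3 * H ^ 2) ≤ μ) (hx0 : 0 ≤ x)
    (hx : x ≤ 1 / (2 * H ^ 2)) (hG : 0 ≤ G) (hB : 0 ≤ B) (hW : G + B = W)
    (h : W ≤ (1 / (H ^ 4 * μ) + 1 / (1 - x)) * G) : B ≤ 4 / H ^ 2 * W := by
  have hH0 : 0 < H := by linarith
  have hy : 0 < 1 / H ^ 2 := by positivity
  have hy1 : 1 / H ^ 2 ≤ 1 := by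
    rw [div_le_one (by positivity)]; nlinarith
  have e1 : 1 / (2 * H ^ 2) = 1 / H ^ 2 / 2 := by field_simp
  have h1 : 1 / (H ^ 4 * μ) ≤ 3 * (1 / H ^ 2) := by
    calc 1 / (H ^ 4 * μ) ≤ 1 / (H ^ 4 * (1 / (3 * H ^ 2))) := by gcongr
      _ = 3 * (1 / H ^ 2) := by field_simp
  have h2 : 1 / (1 - x) ≤ 1 + 1 / H ^ 2 := by
    rw [div_le_iff₀ (by linarith)]
    nlinarith
  have h3 : W ≤ (1 + 4 * (1 / H ^ 2)) * G :=
    h.trans (mul_le_mul_of_nonneg_right (by linarith) hG)
  have e2 : 4 / H ^ 2 = 4 * (1 / H ^ 2) := by ring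
  rw [e2]
  nlinarith

theorem num4 {H c k : ℝ} (hH : 256 ≤ H) (hc : H ^ 64 ≤ 2 * c) (hk : k * k - k ≤ 4 / H ^ 2 * c ^ 2) :
    k * H ≤ 3 * c := by
  by_contra hcon
  have h0 : 3 * c < k * H := not_le.1 hcon
  have hH0 : 0 < H := by linarith
  have h1 : 2 * H ≤ H ^ 64 := by
    calc 2 * H ≤ H * H := by nlinarith
      _ = H ^ 2 := by ring
      _ ≤ H ^ 64 := pow_le_pow_right₀ (by linarith) (by norm_num)
  have h2 : 2 * c < k * H - H := by linarith
  have h3 : (k * k - k) * H ^ 2 ≤ 4 * c ^ 2 := by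
    have := mul_le_mul_of_nonneg_right hk (sq_nonneg H)
    rwa [mul_right_comm, div_mul_cancel₀ _ (by positivity)] at this
  have h4 : 3 * c * (2 * c) < k * H * (k * H - H) :=
    mul_lt_mul'' h0 h2 (by linarith) (by linarith)
  nlinarith

/-- the doubled sign vectors -/
def dbl (h : ℕ) (δ : Fin (4 * h) → Bool) (i : Fin (8 * h)) : Bool := δ ⟨i.1 / 2, by omega⟩

theorem dbl_card {h : ℕ} {δ δ' : Fin (4 * h) → Bool} (e : δ ≠ δ') :
    cnt (fun i => dbl h δ i = dbl h δ' i) + 2 ≤ 8 * h := by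
  obtain ⟨j, hj⟩ := Function.ne_iff.1 e
  have h1 := cnt_add (fun i => dbl h δ i = dbl h δ' i)
  rw [Fintype.card_fin] at h1
  have h2 : 1 < cnt (fun i => ¬ dbl h δ i = dbl h δ' i) := by
    unfold cnt
    rw [one_lt_card]
    refine ⟨⟨2 * j.1, by omega⟩, ?_, ⟨2 * j.1 + 1, by omega⟩, ?_, fun e => ?_⟩
    · simp only [mem_filter, mem_univ, true_and, dbl]
      have : (⟨2 * j.1 / 2, by omega⟩ : Fin (4 * h)) = j := Fin.ext (by simp only; omega)
      rwa [this]
    · simp only [mem_filter, mem_univ, true_and, dbl]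
      have : (⟨(2 * j.1 + 1) / 2, by omega⟩ : Fin (4 * h)) = j := Fin.ext (by simp only; omega)
      rwa [this]
    · have := congrArg Fin.val e
      simp only at this
      omega
  omega

theorem good {κ Z : Type} [Fintype κ] [DecidableEq κ] [Fintype Z] [DecidableEq Z] (B : Finset Z)
    (hB : B.card ≤ 2) (hZ : 0 < Fintype.card Z) (ok : (κ → Z) → Prop)
    (h : ∀ z, Function.Injective z → (∀ i, z i ∉ B) → ok z) :
    (1 - ((Fintype.card κ : ℝ) + 2) ^ 2 / Fintype.card Z) *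
      (Fintype.card Z : ℝ) ^ Fintype.card κ ≤ cnt ok := by
  have h1 := few_bad (κ := κ) B
  rw [cnt_eq] at h1
  have h2 := cnt_add ok
  rw [Fintype.card_fun] at h2
  have h3 : cnt (fun z => ¬ ok z) ≤ cnt fun z : κ → Z => ¬ (Function.Injective z ∧ ∀ i, z i ∉ B) :=
    cnt_mono fun z hz e => hz (h z e.1 e.2)
  have h4 : cnt (fun z => ¬ ok z) * Fintype.card Z ≤
      (Fintype.card κ + 2) ^ 2 * Fintype.card Z ^ Fintype.card κ :=
    (Nat.mul_le_mul_right _ h3).trans (h1.trans (by gcongr))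
  have h5 : (cnt (fun z => ¬ ok z) : ℝ) * Fintype.card Z ≤
      (Fintype.card κ + 2) ^ 2 * (Fintype.card Z : ℝ) ^ Fintype.card κ := by exact_mod_cast h4
  have h6 : (cnt ok : ℝ) + cnt (fun z => ¬ ok z) = (Fintype.card Z : ℝ) ^ Fintype.card κ := by
    exact_mod_cast h2
  have h7 : (0 : ℝ) < Fintype.card Z := by exact_mod_cast hZ
  rw [← le_div_iff₀ h7, mul_div_right_comm] at h5
  linarith

end GDENSEx

open GDENSEx in
/- ω : Fin d × Bool → C uniform, E = the ε of even weight (card 2 ^ (d - 1), two of them agree on at most d - 2 coordinates). For u ≠ v in C let F p say R p u, not R p v, p avoids v. Its density is θ π with π the density of injective p that avoid u, v (few_bad) and θ ≥ m / (2 (c - d)) (the count does not depend on u, v by completions with empty I; sum over all u, v is the number of injective p times m (c - d - m)). pair_moment and completions give the pair bound μ ^ 2 / π; second_moment gives that no F holds with probability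 at most 1 - π + 1 / (card E θ) ≤ 2 ^ (3 - 6 h). Average over the pairs (u, v), fix ω, P = its image. Two points of one class over P are not separated, so a class K has card K (card K - 1) ≤ 2 ^ (3 - 6 h) c ^ 2. X is empty. -/
theorem Sy.Typ.dense {C : Finset Y} {h m : ℕ} {R : (Fin (8 * h) → Y) → Y → Prop}
    (hM : 8 * h + 2 ≤ Γ.M) (hh : 8 ≤ h) (hc : 2 ^ (64 * h) ≤ 2 * C.card)
    (ht : Γ.Typ C (8 * h) R m) (hm : C.card ≤ m * 2 ^ (2 * h) + 8 * h) :
    ∃ P ⊆ C, P.card ≤ 16 * h ∧ ∃ X β, (Γ.pin P).Gr C X β ∧ 1 ≤ β ∧ β * 2 ^ h ≤ 3 * C.card := by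
  have hH : (256 : ℝ) ≤ 2 ^ h := by
    calc (256 : ℝ) = 2 ^ 8 := by norm_num
      _ ≤ 2 ^ h := pow_le_pow_right₀ (by norm_num) hh
  have hcR : ((2 : ℝ) ^ h) ^ 64 ≤ 2 * C.card := by
    rw [← pow_mul, mul_comm h]; exact_mod_cast hc
  have hdN : 8 * h ≤ 2 ^ h := by
    obtain ⟨k, rfl⟩ := Nat.exists_eq_add_of_le hh
    have := Nat.lt_two_pow_self (n := k)
    rw [pow_add]; omega
  have hd : ((8 * h : ℕ) : ℝ) ≤ 2 ^ h := by exact_mod_cast hdN
  have hd0 : (0 : ℝ) ≤ ((8 * h : ℕ) : ℝ) := Nat.cast_nonneg _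
  have hhalf := ht.half
  have hone := ht.one
  have hcZ : Fintype.card {x // x ∈ C} = C.card := Fintype.card_coe C
  have hc0 : 0 < C.card := by omega
  have hcR0 : (0 : ℝ) < C.card := by exact_mod_cast hc0
  have hx := num2 hH hcR hd hd0
  have hx0 : (0 : ℝ) ≤ (((8 * h : ℕ) : ℝ) + 2) ^ 2 / C.card := by positivity
  have hx1 : (1 : ℝ) / (2 * (2 ^ h) ^ 2) ≤ 1 / 10 := by
    rw [div_le_div_iff₀ (by positivity) (by norm_num)]; nlinarith
  set x : ℝ := (((8 * h : ℕ) : ℝ) + 2) ^ 2 / C.card with hxd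
  set T : ℝ := (C.card : ℝ) ^ (8 * h) with hTd
  have hT : 0 < T := by positivity
  let F : Y → Y → (Fin (8 * h) → {x // x ∈ C}) → Prop := fun u v w => Ph R u v fun i => (w i).1
  obtain ⟨z0, hz0⟩ := card_pos.1 hc0
  have hM' : Fintype.card (Fin (8 * h)) + 2 ≤ Γ.M := by rwa [Fintype.card_fin]
  have hgood : ∀ (B : Finset {x // x ∈ C}), B.card ≤ 2 →
      ∀ ok : (Fin (8 * h) → {x // x ∈ C}) → Prop,
      (∀ z, Function.Injective z → (∀ i, z i ∉ B) → ok z) → (1 - x) * T ≤ cnt ok := by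
    intro B hB ok hok
    have := good B hB (by omega) ok hok
    rwa [hcZ, Fintype.card_fin] at this
  have hsame : ∀ uv ∈ C.offDiag, ∀ uv' ∈ C.offDiag, cnt (F uv.1 uv.2) = cnt (F uv'.1 uv'.2) := by
    intro uv huv uv' huv'
    rw [mem_offDiag] at huv huv'
    have := Sy.completions ht.inv1 ht.tr (by omega) hM' (fun _ => False) (by simp; omega) (Ph R)
      (ph_inv ht) huv.1 huv.2.1 huv'.1 huv'.2.1 huv.2.2 huv'.2.2
      (z := fun _ => ⟨z0, hz0⟩) (z' := fun _ => ⟨z0, hz0⟩) (fun _ e => e.elim)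
      (fun _ e => e.elim)
    simp only [cnt_eq, false_imp_iff, implies_true, true_and] at this
    exact this
  have hoff : (C.offDiag.card : ℝ) ≤ (C.card : ℝ) ^ 2 := by
    have : C.offDiag.card ≤ C.card ^ 2 := by rw [offDiag_card, sq]; omega
    exact_mod_cast this
  have hmu : ∀ uv ∈ C.offDiag, 1 / (3 * ((2 : ℝ) ^ h) ^ 2) ≤ cnt (F uv.1 uv.2) / T := by
    intro uv huv
    have h1 := hgood ∅ (by simp) Function.Injective fun z hz _ => hz
    have h2 : cnt (Function.Injective : (Fin (8 * h) → {x // x ∈ C}) → Prop) *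
        (m * (C.card - (m + 8 * h))) ≤ C.offDiag.card * cnt (F uv.1 uv.2) := by
      rw [← smul_eq_mul C.offDiag.card, ← sum_const,
        sum_congr rfl fun uv' huv' => hsame uv huv uv' huv',
        swap_sum C.offDiag fun uv' => F uv'.1 uv'.2, cnt, ← smul_eq_mul, ← sum_const]
      refine le_trans (sum_le_sum fun w hw => ?_) (sum_le_sum_of_subset (subset_univ _))
      simp only [mem_filter, mem_univ, true_and] at hw
      have := ph_card ht (fun i => (w i).1) (Subtype.val_injective.comp hw) fun i => (w i).2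
      convert this
    have h3 : (cnt (Function.Injective : (Fin (8 * h) → {x // x ∈ C}) → Prop) : ℝ) *
        (m * (C.card - (m + ((8 * h : ℕ) : ℝ)))) ≤ C.offDiag.card * cnt (F uv.1 uv.2) := by
      rw [← Nat.cast_add, ← Nat.cast_sub (by omega)]
      exact_mod_cast h2
    refine num1 hH hcR hd hT (J := cnt (Function.Injective :
      (Fin (8 * h) → {x // x ∈ C}) → Prop)) (m := m) (by nlinarith) ?_ (by exact_mod_cast hhalf)
      (h3.trans (by gcongr))
    rw [← pow_mul, mul_comm h]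
    exact_mod_cast hm
  have hW : (Fintype.card (Fin (8 * h) × Bool → {x // x ∈ C}) : ℝ) = T * T := by
    rw [Fintype.card_fun, hcZ, Fintype.card_prod, Fintype.card_fin, Fintype.card_bool, pow_mul]
    push_cast
    rw [sq]
  let Sp : Y × Y → (Fin (8 * h) × Bool → {x // x ∈ C}) → Prop := fun uv ω =>
    ∃ δ, F uv.1 uv.2 fun i => ω (i, dbl h δ i)
  have hbad : ∀ uv ∈ C.offDiag, (cnt (fun ω => ¬ Sp uv ω) : ℝ) ≤ 4 / (2 ^ h) ^ 2 * (T * T) := by
    intro uv huv
    have hμ := hmu uv huv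
    rw [mem_offDiag] at huv
    have hμ0 : (0 : ℝ) < cnt (F uv.1 uv.2) / T := lt_of_lt_of_le (by positivity) hμ
    have key := second_moment (univ : Finset (Fin (4 * h) → Bool))
      (fun δ (ω : Fin (8 * h) × Bool → {x // x ∈ C}) => F uv.1 uv.2 fun i => ω (i, dbl h δ i))
      hμ0 (π := 1 - x) (by linarith) univ_nonempty ?_ ?_
    · simp only [cnt_eq, mem_univ, true_and] at key
      rw [hW, card_univ, Fintype.card_fun, Fintype.card_bool, Fintype.card_fin] at key
      have h1 := cnt_add (Sp uv)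
      refine num3 hH hμ hx0 hx (G := cnt (Sp uv)) (Nat.cast_nonneg _) (Nat.cast_nonneg _)
        (by rw [← hW]; exact_mod_cast h1) ?_
      rw [← pow_mul (2 : ℝ) h 4, mul_comm h 4]
      exact_mod_cast key
    · intro δ _
      have h1 := single_moment (F uv.1 uv.2) (dbl h δ)
      simp only [cnt_eq] at h1 ⊢
      rw [h1, hW, hcZ, Fintype.card_fin]
      push_cast
      rw [← hTd]
      field_simp
    · intro δ _ δ' _ e
      let ok : (Fin (8 * h) → {x // x ∈ C}) → Prop := fun z => ∀ i, dbl h δ i = dbl h δ' i →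
        (z i).1 ≠ uv.1 ∧ (z i).1 ≠ uv.2 ∧ ∀ j, dbl h δ j = dbl h δ' j → z i = z j → i = j
      have hok : ∀ z z' : Fin (8 * h) → {x // x ∈ C},
          (∀ i, dbl h δ i = dbl h δ' i → z i = z' i) → ok z → ok z' := by
        intro z z' e1 h1 i hi
        rw [← e1 i hi]
        exact ⟨(h1 i hi).1, (h1 i hi).2.1, fun j hj e2 => (h1 i hi).2.2 j hj (by rwa [e1 j hj])⟩
      have h1 := pair_moment (F uv.1 uv.2) ok (dbl h δ) (dbl h δ')
        (fun z hz i _ => ⟨(ht.sup _ _ hz.1).2.2.2 i, hz.2.2 i, fun j _ e2 =>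
          (ht.sup _ _ hz.1).1 (congrArg Subtype.val e2)⟩)
        (fun z z' e1 => ⟨hok z z' e1, hok z' z fun i hi => (e1 i hi).symm⟩)
        (fun z z' hz hz' => by
          have := Sy.completions ht.inv1 ht.tr (by omega) hM' (fun i => dbl h δ i = dbl h δ' i)
            (by rw [cnt_eq]; exact dbl_card e) (Ph R) (ph_inv ht) huv.1 huv.2.1 huv.1 huv.2.1
            huv.2.2 huv.2.2 hz hz'
          simp only [cnt_eq] at this ⊢
          exact this)
      simp only [cnt_eq] at h1 ⊢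
      rw [hcZ, Fintype.card_fin] at h1
      have h2 := hgood {⟨uv.1, huv.1⟩, ⟨uv.2, huv.2.1⟩} card_le_two ok fun z hz hB i _ => by
        have := hB i
        simp only [mem_insert, mem_singleton, not_or] at this
        exact ⟨fun e => this.1 (Subtype.ext e), fun e => this.2 (Subtype.ext e),
          fun j _ e => hz e⟩
      have h3 := congrArg (Nat.cast : ℕ → ℝ) h1
      push_cast at h3
      rw [← hTd] at h3
      have e3 : ((cnt (F uv.1 uv.2) : ℝ) / T) ^ 2 * (T * T) = (cnt (F uv.1 uv.2) : ℝ) ^ 2 := by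
        field_simp
      rw [hW, e3]
      refine le_of_mul_le_mul_right ?_ hT
      rw [← h3, mul_assoc]
      gcongr
  obtain ⟨ω, -, hω⟩ : ∃ ω ∈ (univ : Finset (Fin (8 * h) × Bool → {x // x ∈ C})),
      ((C.offDiag.filter (fun uv => ¬ Sp uv ω)).card : ℝ) ≤ 4 / (2 ^ h) ^ 2 * (C.card : ℝ) ^ 2 := by
    refine exists_le_of_sum_le ⟨fun _ => ⟨z0, hz0⟩, mem_univ _⟩ ?_
    rw [← Nat.cast_sum, ← swap_sum C.offDiag fun uv ω => ¬ Sp uv ω, Nat.cast_sum, sum_const,
      card_univ, nsmul_eq_mul, hW]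
    refine (sum_le_sum hbad).trans ?_
    rw [sum_const, nsmul_eq_mul]
    calc _ ≤ (C.card : ℝ) ^ 2 * (4 / (2 ^ h) ^ 2 * (T * T)) := by gcongr
      _ = _ := by ring
  have h2h : 0 < 2 ^ h := by positivity
  refine ⟨univ.image fun y => (ω y).1, fun y hy => ?_, ?_, fun _ _ => False, 3 * C.card / 2 ^ h,
    ⟨⟨fun _ _ e => e.elim, fun _ _ _ _ _ e => e⟩, fun _ _ e => e, fun _ _ e => e.elim,
      fun _ => by simp, fun a ha S hS _ => ?_⟩, ?_, Nat.div_mul_le_self _ _⟩
  · obtain ⟨i, _, rfl⟩ := mem_image.1 hy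
    exact (ω i).2
  · refine card_image_le.trans ?_
    rw [card_univ, Fintype.card_prod, Fintype.card_fin, Fintype.card_bool]
    omega
  · have hSC : ∀ u ∈ S, u ∈ C := fun u hu =>
      ht.inv1.2 a u ((Sy.ref_pin _).e1 (ht.inv1.1 ha) (Sy.mem_cls.1 (hS hu))) ha
    have hsub : S.offDiag ⊆ C.offDiag.filter (fun uv => ¬ Sp uv ω) := by
      intro uv huv
      rw [mem_offDiag] at huv
      rw [mem_filter, mem_offDiag]
      refine ⟨⟨hSC _ huv.1, hSC _ huv.2.1, huv.2.2⟩, ?_⟩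
      rintro ⟨δ, h1, h2, -⟩
      obtain ⟨f, ⟨g, g1, g2, g3⟩, hf⟩ :=
        (Sy.mem_cls.1 (hS huv.1)).symm.trans (Sy.mem_cls.1 (hS huv.2.1))
      have hp : ∀ i, (ω (i, dbl h δ i)).1 ∈ (univ.image fun y => (ω y).1) ∩ Γ.D := fun i =>
        mem_inter.2 ⟨mem_image_of_mem _ (mem_univ _), ht.inv1.1 (ω _).2⟩
      have h3 := ht.inv _ g _ uv.1 g3 (fun i => mem_union_right _ (hp i))
        (mem_union_left _ (mem_singleton_self _)) h1
      have e1 : (g ∘ fun i => (ω (i, dbl h δ i)).1) = fun i => (ω (i, dbl h δ i)).1 :=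
        funext fun i => g2 _ (hp i)
      rw [e1, g1 _ (mem_singleton_self _), hf] at h3
      exact h2 h3
    have h1 := card_le_card hsub
    rw [offDiag_card] at h1
    have h2 : (S.card : ℝ) * S.card - S.card ≤ 4 / (2 ^ h) ^ 2 * (C.card : ℝ) ^ 2 := by
      refine le_trans ?_ hω
      rw [← Nat.cast_mul, ← Nat.cast_sub (Nat.le_mul_self _)]
      exact_mod_cast h1
    rw [Nat.le_div_iff_mul_le h2h]
    exact_mod_cast num4 hH hcR h2
  · rw [Nat.le_div_iff_mul_le h2h, one_mul]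
    have : 2 ^ h ≤ 2 ^ (64 * h) := Nat.pow_le_pow_right (by norm_num) (by omega)
    omega

end Pool.Agent.P.MP_f1a348_lc.GX
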