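import Pool.Agent.P.MP_f1a348_lc.GX.DefsG
import Pool.Agent.P.MP_f1a348_lc.GX.TSYS
import Pool.Agent.P.MP_f1a348_lc.GX.TJOH

/-! Step GTYP. -/

set_option autoImplicit false
set_option linter.unusedSectionVars false

namespace Pool.Agent.P.MP_f1a348_lc.GX

open Equiv Finset
open scoped Classical
variable {Y : Type} [DecidableEq Y] {Γ : Sy Y}

namespace GTYPx

variable {ι : Type} [Fintype ι] {u v w : ι → Y}

theorem of_L {A : Finset Y} {f : Perm Y} (h : Γ.L A f) (hu : ∀ i, u i ∈ A) : Γ.ET u (f ∘ u) :=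
  ⟨f, Γ.loc h (image_subset_iff.2 fun i _ => hu i) fun _ _ => rfl, fun _ => rfl⟩

theorem refl (hu : ∀ i, u i ∈ Γ.D) : Γ.ET u u := of_L (Γ.one subset_rfl) hu

theorem symm (h : Γ.ET u v) : Γ.ET v u := by
  obtain ⟨f, h1, h2⟩ := h
  exact ⟨f⁻¹, Γ.loc (Γ.inv h1) (image_subset_iff.2 fun i _ =>
    h2 i ▸ mem_image_of_mem _ (mem_image_of_mem _ (mem_univ i))) fun _ _ => rfl,
    fun i => by rw [← h2 i]; simp⟩

theorem trans (h : Γ.ET u v) (h' : Γ.ET v w) : Γ.ET u w := by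
  obtain ⟨f, h1, h2⟩ := h
  obtain ⟨g, k1, k2⟩ := h'
  refine ⟨g * f, Γ.mul h1 (Γ.loc k1 (fun x hx => ?_) fun _ _ => rfl), fun i => by
    rw [Perm.mul_apply, h2, k2]⟩
  obtain ⟨y, hy, rfl⟩ := mem_image.1 hx
  obtain ⟨i, -, rfl⟩ := mem_image.1 hy
  exact h2 i ▸ mem_image_of_mem _ (mem_univ i)

/-- proper pairs -/
def Pp (C : Finset Y) {d : ℕ} (p : Fin d → Y) (u : Y) : Prop :=
  Function.Injective p ∧ (∀ i, p i ∈ C) ∧ u ∈ C ∧ ∀ i, p i ≠ u

/-- invariant relations -/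
def Iv (Γ : Sy Y) {d : ℕ} (R : (Fin d → Y) → Y → Prop) : Prop :=
  ∀ (A : Finset Y) (f : Perm Y) (p : Fin d → Y) (u : Y), Γ.L A f → (∀ i, p i ∈ A) →
    u ∈ A → R p u → R (f ∘ p) (f u)

variable {C : Finset Y} {d : ℕ} {R : (Fin d → Y) → Y → Prop}

theorem iv_pp (hC : Γ.Inv1 C) : Iv Γ (Pp C (d := d)) := fun _ f _ _ h hp hu ⟨a, b, c, e⟩ =>
  ⟨f.injective.comp a, fun i => hC.2 _ _ (Sy.e1_of_L h (hp i)) (b i),
    hC.2 _ _ (Sy.e1_of_L h hu) c, fun i => f.injective.ne (e i)⟩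

theorem et_snoc {A : Finset Y} {f : Perm Y} {p : Fin d → Y} {x : Y} (h : Γ.L A f)
    (hp : ∀ i, p i ∈ A) (hx : x ∈ A) :
    Γ.ET (Fin.snoc p x : Fin (d + 1) → Y) (Fin.snoc (f ∘ p) (f x)) := by
  rw [← Fin.comp_snoc]
  exact of_L h fun i => by cases i using Fin.lastCases <;> simp [hp, hx]

theorem card_const (hM : d + 1 ≤ Γ.M) (hC : Γ.Inv1 C) (h1 : Γ.Tr C d) (hs : ∀ p u, R p u → u ∈ C)
    (hi : Iv Γ R) {p q : Fin d → Y} (hp : Function.Injective p) (hp' : ∀ i, p i ∈ C)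
    (hq : Function.Injective q) (hq' : ∀ i, q i ∈ C) :
    (C.filter (R p)).card = (C.filter (R q)).card := by
  have e : ∀ r, C.filter (R r) = Γ.D.filter (R r) := fun r => by
    ext x
    rw [mem_filter, mem_filter]
    exact and_congr_left fun h => iff_of_true (hs r x h) (hC.1 (hs r x h))
  obtain ⟨f, h, hf⟩ := h1 p q hp hq hp' hq'
  rw [e, e]
  refine Sy.card_eq h (card_image_le.trans_lt (by simpa using hM)) _ _ fun x _ g hg hL => ?_
  have m : ∀ i, p i ∈ univ.image p := fun i => mem_image_of_mem _ (mem_univ i)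
  have e1 : g ∘ p = q := funext fun i => (hg _ (m i)).trans (hf i)
  refine ⟨fun r => e1 ▸ hi _ g p x hL (fun i => mem_insert_of_mem (m i)) (mem_insert_self _ _) r,
    fun r => ?_⟩
  have := hi _ g⁻¹ q (g x) (Γ.inv hL)
    (fun i => e1 ▸ mem_image_of_mem _ (mem_insert_of_mem (m i)))
    (mem_image_of_mem _ (mem_insert_self _ _)) r
  rwa [← e1, show ⇑g⁻¹ ∘ ⇑g ∘ p = p from funext fun i => by simp,
    show g⁻¹ (g x) = x by simp] at this

theorem pp_init {t : Fin (d + 1) → Y} (h : Function.Injective t) (h' : ∀ i, t i ∈ C) :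
    Pp C (Fin.init t) (t (Fin.last d)) :=
  ⟨h.comp (Fin.castSucc_injective d), fun _ => h' _, h' _,
    fun i => h.ne (Fin.castSucc_lt_last i).ne⟩

theorem card_pp {p : Fin d → Y} (hp : Function.Injective p) (hp' : ∀ i, p i ∈ C) :
    (C.filter (Pp C p)).card + d = C.card := by
  have : C.filter (Pp C p) = C \ univ.image p := by
    ext x
    simp only [Pp, mem_filter, mem_sdiff, mem_image, mem_univ, true_and, not_exists]
    exact ⟨fun h => ⟨h.1, h.2.2.2.2⟩, fun h => ⟨h.1, hp, hp', h.1, h.2⟩⟩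
  rw [this, ← card_sdiff_add_card_eq_card (image_subset_iff.2 fun i (_ : i ∈ univ) => hp' i),
    card_image_of_injective _ hp, card_univ, Fintype.card_fin]

/-- proper pairs with a property -/
def Rl (C : Finset Y) (T : (Fin (d + 1) → Y) → Prop) (p : Fin d → Y) (x : Y) : Prop :=
  Pp C p x ∧ T (Fin.snoc p x)

theorem card_rl (T : (Fin (d + 1) → Y) → Prop) (p : Fin d → Y) :
    (C.filter (Rl C T p)).card + (C.filter (Rl C (fun t => ¬ T t) p)).card =
      (C.filter (Pp C p)).card := by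
  rw [← card_filter_add_card_filter_not (s := C.filter (Pp C p)) fun x => T (Fin.snoc p x)]
  congr 2 <;> ext x <;> simp only [mem_filter, Rl, and_assoc]

end GTYPx

open GTYPx in
/- Two injective (d+1)-tuples of different types; move the first d entries of one onto those of the other (Tr, ext): (p0, u) and (p0, v) differ. R p w iff (p, w) has the type of (p0, u), or iff (p, w) is injective in C and has not that type; take the smaller. -/
theorem Sy.typ_of {C : Finset Y} {d : ℕ} (hM : d + 1 ≤ Γ.M) (hC : Γ.Inv1 C) (h1 : Γ.Tr C d)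
    (h2 : ¬ Γ.Tr C (d + 1)) : ∃ R m, Γ.Typ C d R m := by
  simp only [Sy.Tr, not_forall] at h2
  obtain ⟨u, v, hu, hv, hu', hv', hn⟩ := h2
  have pu := pp_init hu hu'
  have pv := pp_init hv hv'
  have key : ∀ T : (Fin (d + 1) → Y) → Prop, (∀ a b, Γ.ET a b → T a → T b) → ∀ t, T t →
      Function.Injective t → (∀ i, t i ∈ C) →
      2 * (C.filter (Rl C T (Fin.init u))).card + d ≤ C.card →
      ∃ R m, Γ.Typ C d R m := fun T hT t ht h3 h4 h5 => by
    have i1 : Iv Γ (Rl C T) :=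
      fun A f p x h hp hx r => ⟨iv_pp hC A f p x h hp hx r.1, hT _ _ (et_snoc h hp hx) r.2⟩
    have i2 := fun p hp hp' => card_const hM hC h1 (fun _ _ r => r.1.2.2.1) i1 (p := p) hp hp'
      pu.1 pu.2.1
    have pt := pp_init h3 h4
    refine ⟨_, _, hC, h1, ?_, h5, fun _ _ r => r.1, i1, i2⟩
    rw [← i2 _ pt.1 pt.2.1]
    exact card_pos.2 ⟨_, mem_filter.2 ⟨h4 _, pt, by rwa [Fin.snoc_init_self]⟩⟩
  have e1 := card_rl (C := C) (Γ.ET u) (Fin.init u)
  have e2 := card_pp pu.1 pu.2.1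
  by_cases h : 2 * (C.filter (Rl C (Γ.ET u) (Fin.init u))).card + d ≤ C.card
  · exact key (Γ.ET u) (fun _ _ a b => trans b a) u (refl fun i => hC.1 (hu' i)) hu hu' h
  · exact key (fun t => ¬ Γ.ET u t) (fun _ _ a b c => b (trans c (symm a))) v hn hv hv'
      (by omega)

/- fix the first j entries -/
theorem Sy.Typ.pin {C : Finset Y} {j d m : ℕ} {R : (Fin (j + d) → Y) → Y → Prop}
    (h : Γ.Typ C (j + d) R m) :
    ∃ P ⊆ C, P.card = j ∧ ∃ R', (Γ.pin P).Typ (C \ P) d R' m := by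
  obtain ⟨P, hP, hc⟩ := exists_subset_card_eq (s := C) (n := j) (by have := h.half; omega)
  obtain ⟨q, hq, hq'⟩ : ∃ q : Fin j → Y, Function.Injective q ∧ ∀ x, x ∈ P ↔ ∃ i, q i = x :=
    ⟨fun i => (P.equivFinOfCardEq hc).symm i, Subtype.val_injective.comp (Equiv.injective _),
      fun x => ⟨fun hx => ⟨P.equivFinOfCardEq hc ⟨x, hx⟩, by simp⟩, fun ⟨i, e⟩ =>
        e ▸ ((P.equivFinOfCardEq hc).symm i).2⟩⟩
  have m : ∀ i, q i ∈ P := fun i => (hq' _).2 ⟨i, rfl⟩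
  have a1 : ∀ p : Fin d → Y, Function.Injective p → (∀ i, p i ∈ C \ P) →
      Function.Injective (Fin.append q p) ∧ ∀ i, Fin.append q p i ∈ C := fun p hp hp' =>
    ⟨Fin.append_injective_iff.2 ⟨hq, hp, fun i k e => (mem_sdiff.1 (hp' k)).2 (e ▸ m i)⟩,
      (Fin.forall_fin_add _).2 ⟨fun i => by simpa using hP (m i),
        fun i => by simpa using (mem_sdiff.1 (hp' i)).1⟩⟩
  have a2 : ∀ p u, R (Fin.append q p) u → u ∈ C \ P := fun p u r => by
    obtain ⟨-, -, r3, r4⟩ := h.sup _ _ r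
    refine mem_sdiff.2 ⟨r3, fun e => ?_⟩
    obtain ⟨i, rfl⟩ := (hq' u).1 e
    exact r4 (Fin.castAdd d i) (by simp)
  refine ⟨P, hP, hc, fun p u => R (Fin.append q p) u,
    ⟨sdiff_subset.trans h.inv1.1, fun a b e ha => ?_⟩, fun u v hu hv hu' hv' => ?_, h.one, ?_,
    fun p u r => ?_, fun A f p u ⟨g, g1, g2, g3⟩ hp hu r => ?_, fun p hp hp' => ?_⟩
  · have hb := ((Sy.ref_pin P).inv1 h.inv1).2 a b e (mem_sdiff.1 ha).1
    refine mem_sdiff.2 ⟨hb, fun hb' => (mem_sdiff.1 ha).2 ?_⟩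
    obtain ⟨f, ⟨g, g1, g2, -⟩, rfl⟩ := e
    have e1 := g1 a (mem_singleton_self a)
    rwa [g.injective (e1.trans (g2 _ (mem_inter.2 ⟨hb', h.inv1.1 hb⟩)).symm)]
  · obtain ⟨f, f1, f2⟩ := h.tr _ _ (a1 u hu hu').1 (a1 v hv hv').1 (a1 u hu hu').2 (a1 v hv hv').2
    refine ⟨f, ⟨f, fun _ _ => rfl, fun x hx => ?_, Γ.loc f1 (fun x hx => ?_) fun _ _ => rfl⟩,
      fun i => by simpa using f2 (Fin.natAdd j i)⟩
    · obtain ⟨i, rfl⟩ := (hq' x).1 (mem_inter.1 hx).1
      simpa using f2 (Fin.castAdd d i)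
    · rcases mem_union.1 hx with hx | hx
      · obtain ⟨i, -, rfl⟩ := mem_image.1 hx
        exact mem_image.2 ⟨Fin.natAdd j i, mem_univ _, by simp⟩
      · obtain ⟨i, rfl⟩ := (hq' x).1 (mem_inter.1 hx).1
        exact mem_image.2 ⟨Fin.castAdd d i, mem_univ _, by simp⟩
  · have := h.half
    have := card_sdiff_add_card_eq_card hP
    omega
  · obtain ⟨r1, r2, -, r4⟩ := h.sup _ _ r
    obtain ⟨-, s2, s3⟩ := Fin.append_injective_iff.1 r1
    refine ⟨s2, fun i => mem_sdiff.2 ⟨by simpa using r2 (Fin.natAdd j i), fun e => ?_⟩, a2 p u r,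
      fun i => by simpa using r4 (Fin.natAdd j i)⟩
    obtain ⟨k, e⟩ := (hq' _).1 e
    exact s3 k i e
  · have m' : ∀ i, q i ∈ P ∩ Γ.D := fun i => mem_inter.2 ⟨m i, h.inv1.1 (hP (m i))⟩
    have := h.inv _ g _ u g3 ((Fin.forall_fin_add _).2
      ⟨fun i => by rw [Fin.append_left]; exact mem_union_right _ (m' i),
        fun i => by rw [Fin.append_right]; exact mem_union_left _ (hp i)⟩) (mem_union_left _ hu) r
    rwa [g1 u hu, show g ∘ Fin.append q p = Fin.append q (f ∘ p) from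
      funext ((Fin.forall_fin_add _).2 ⟨fun i => by simpa using g2 _ (m' i),
        fun i => by simpa using g1 _ (hp i)⟩)] at this
  · rw [← h.card _ (a1 p hp hp').1 (a1 p hp hp').2]
    congr 1
    ext x
    rw [mem_filter, mem_filter]
    exact and_congr_left fun r => iff_of_true (a2 p x r) (mem_sdiff.1 (a2 p x r)).1

theorem Sy.ref_pin_pin (P P' : Finset Y) : ((Γ.pin P).pin P').Ref (Γ.pin (P ∪ P')) := by
  refine ⟨subset_rfl, fun a _ b _ a' b' ⟨f, ⟨g, g1, g2, g3⟩, e⟩ => ⟨f, ⟨g, g1, fun p hp =>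
    g2 p (inter_subset_inter_right subset_union_right hp), g, fun _ _ => rfl, fun p hp =>
    g2 p (inter_subset_inter_right subset_union_left hp), Γ.loc g3 ?_ fun _ _ => rfl⟩, e⟩⟩
  exact union_subset (union_subset_union_right (inter_subset_inter_right subset_union_right))
    ((inter_subset_inter_right subset_union_left).trans subset_union_right)

/- pinned points are classes with one point -/
theorem Sy.Gr.add_pins {C P P' : Finset Y} {X : Y → Y → Prop} {β : ℕ} (hC : C ⊆ Γ.D)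
    (hP : P ⊆ C) (hβ : 1 ≤ β) (h : ((Γ.pin P).pin P').Gr (C \ P) X β) :
    (Γ.pin (P ∪ P')).Gr C X β := by
  refine ⟨(Sy.ref_pin_pin P P').inv2 h.inv, h.symm, fun a b r =>
    ⟨(mem_sdiff.1 (h.sup a b r).1).1, (mem_sdiff.1 (h.sup a b r).2).1⟩,
    fun a => (card_le_card fun b hb => ?_).trans (h.val a), fun a ha S hS hs => ?_⟩
  · exact mem_filter.2 ⟨(h.sup a b (mem_filter.1 hb).2).2, (mem_filter.1 hb).2⟩
  · by_cases hp : a ∈ P
    · refine (card_le_card (t := {a}) fun b hb => ?_).trans (by simpa using hβ)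
      obtain ⟨f, f1, rfl⟩ := Sy.mem_cls.1 (hS hb)
      exact mem_singleton.2 (Sy.pin_fix f1 (mem_union_left _ hp) (mem_singleton_self a))
    · exact h.comp a (mem_sdiff.2 ⟨ha, hp⟩) S (fun b hb => Sy.mem_cls.2
        ((Sy.ref_pin_pin P P').e1 (hC ha) (Sy.mem_cls.1 (hS hb)))) hs

end Pool.Agent.P.MP_f1a348_lc.GX
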