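import Pool.Agent.P.MP_f1a348_lc.GX.DefsG
import Pool.Agent.P.MP_f1a348_lc.GX.TSYS
import Pool.Agent.P.MP_f1a348_lc.GX.TGOOD
import Pool.Agent.P.MP_f1a348_lc.GX.TGTYP

/-! Step GONE. -/

set_option autoImplicit false
set_option linter.unusedSectionVars false

namespace Pool.Agent.P.MP_f1a348_lc.GX

open Equiv Finset
open scoped Classical
variable {Y : Type} [DecidableEq Y] {Γ : Sy Y}

namespace GONEx

theorem base {C : Finset Y} {m β : ℕ} {R : (Fin 1 → Y) → Y → Prop} (hM : 2 ≤ Γ.M)
    (h : Γ.Typ C 1 R m) (h1 : 2 * m ≤ β) (h2 : C.card ≤ β * (m + 1)) :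
    Γ.Gr C (fun u v => R (fun _ => u) v ∨ R (fun _ => v) u) β := by
  have sp : ∀ u v, R (fun _ => u) v → u ∈ C ∧ v ∈ C ∧ u ≠ v := fun u v e =>
    ⟨(h.sup _ _ e).2.1 0, (h.sup _ _ e).2.2.1, (h.sup _ _ e).2.2.2 0⟩
  have inj : ∀ u : Y, Function.Injective fun _ : Fin 1 => u := fun u _ _ _ => Subsingleton.elim _ _
  have i2 : Γ.Inv2 fun u v => R (fun _ => u) v := by
    refine ⟨fun a b e => ⟨h.inv1.1 (sp a b e).1, h.inv1.1 (sp a b e).2.1⟩, ?_⟩
    rintro a b _ _ ⟨f, hf, rfl, rfl⟩ e
    exact h.inv _ f (fun _ => a) b hf (fun _ => by simp) (by simp) e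
  have out : ∀ u ∈ C, (C.filter (R fun _ => u)).card = m := fun u hu =>
    h.card _ (inj u) fun _ => hu
  have same : ∀ v ∈ C, ∀ v' ∈ C, (C.filter fun u => R (fun _ => u) v).card =
      (C.filter fun u => R (fun _ => u) v').card := fun v hv v' hv' => by
    obtain ⟨f, hf, e⟩ := h.tr _ _ (inj v) (inj v') (fun _ => hv) fun _ => hv'
    have e1 : Γ.E1 v v' := (show f v = v' from e 0) ▸
      Sy.e1_of_L hf (a := v) (mem_image.2 ⟨0, mem_univ _, rfl⟩)
    have e2 : ∀ w, (C.filter fun u => R (fun _ => u) w) = Γ.D.filter fun u => R (fun _ => u) w :=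
      fun w => Finset.ext fun u => by
        simp only [mem_filter]
        exact and_congr_left fun a => iff_of_true (sp _ _ a).1 (i2.1 _ _ a).1
    rw [e2, e2]
    convert i2.flip.card_eq hM e1
  have inn : ∀ v ∈ C, (C.filter fun u => R (fun _ => u) v).card = m := fun v hv => by
    have e := sum_card_bipartiteAbove_eq_sum_card_bipartiteBelow (s := C) (t := C)
      fun u v => R (fun _ => u) v
    simp only [bipartiteAbove, bipartiteBelow] at e
    rw [sum_congr rfl out, sum_congr rfl fun w hw => same w hw v hv, sum_const, sum_const,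
      smul_eq_mul, smul_eq_mul] at e
    exact (Nat.eq_of_mul_eq_mul_left (card_pos.2 ⟨v, hv⟩) e).symm
  refine ⟨⟨fun a b e => e.elim (i2.1 a b) fun e => (i2.1 b a e).symm,
    fun a b a' b' e => Or.imp (i2.2 _ _ _ _ e) (i2.2 _ _ _ _ e.swap)⟩, fun _ _ => Or.symm,
    fun a b e => e.elim (fun e => ⟨(sp _ _ e).1, (sp _ _ e).2.1⟩)
      fun e => ⟨(sp _ _ e).2.1, (sp _ _ e).1⟩, fun a => ?_, fun a ha S hS e => ?_⟩
  · by_cases ha : a ∈ C
    · refine (card_le_card (t := C.filter (R fun _ => a) ∪ C.filter fun u => R (fun _ => u) a)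
        fun u hu => ?_).trans ((card_union_le _ _).trans ?_)
      · simpa only [mem_filter, mem_union, and_or_left] using hu
      · rw [out a ha, inn a ha]; omega
    · refine (card_eq_zero.2 (eq_empty_of_forall_notMem fun u e => ha ?_)).trans_le (Nat.zero_le _)
      simp only [mem_filter] at e
      exact e.2.elim (fun e => (sp _ _ e).1) fun e => (sp _ _ e).2.1
  · have sC : S ⊆ C := hS.trans (h.inv1.cls_sub ha)
    have lk : ∀ x z, z ∈ insert x (C.filter (R fun _ => x)) →
        Relation.EqvGen (fun u v => R (fun _ => u) v ∨ R (fun _ => v) u) x z := fun x z hz => by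
      rcases mem_insert.1 hz with rfl | hz
      exacts [.refl _, .rel _ _ (Or.inl (mem_filter.1 hz).2)]
    have c1 : (S.biUnion fun x => insert x (C.filter (R fun _ => x))).card = S.card * (m + 1) := by
      rw [card_biUnion fun x hx y hy ne => disjoint_left.2 fun z a b =>
        e x hx y hy ne (.trans _ _ _ (lk x z a) (.symm _ _ (lk y z b))),
        sum_congr rfl fun x hx => (card_insert_of_notMem fun a =>
          (sp _ _ (mem_filter.1 a).2).2.2 rfl).trans (congrArg (· + 1) (out x (sC hx))),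
        sum_const, smul_eq_mul]
    refine Nat.le_of_mul_le_mul_right (c1.symm.trans_le ((card_le_card ?_).trans h2)) m.succ_pos
    exact biUnion_subset.2 fun x hx => insert_subset (sC hx) (filter_subset _ _)

end GONEx

/- Pin d - 1 entries (Typ.pin with one entry left). X u v iff R u v or R v u. The in-valency is constant on the class C minus P, so it is m by double counting. Closed neighbourhoods of points in different components are disjoint and have at least m + 1 points. -/
theorem Sy.Typ.one_graph {C : Finset Y} {d m : ℕ} {R : (Fin d → Y) → Y → Prop}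
    (hM : d + 2 ≤ Γ.M) (hd : 1 ≤ d) (h : Γ.Typ C d R m) {β : ℕ} (h1 : 2 * m ≤ β)
    (h2 : C.card ≤ β * (m + 1)) : ∃ P ⊆ C, P.card ≤ d ∧ ∃ X, (Γ.pin P).Gr C X β := by
  obtain ⟨j, rfl⟩ := Nat.exists_eq_add_of_le' hd
  obtain ⟨P, hP, hc, R', h'⟩ := h.pin
  have := h.one
  refine ⟨P ∪ ∅, by simpa using hP, by rw [union_empty]; omega, _,
    Sy.Gr.add_pins h.inv1.1 hP (by omega) (Sy.Gr.mono (GONEx.base ?_ h' h1
      ((card_le_card sdiff_subset).trans h2)) h'.inv1.1 (Sy.ref_pin ∅))⟩
  show 2 ≤ Γ.M - P.card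
  omega

/- Pin all d entries p: each class lies in the set of R p, in its complement in C minus p, or is a pin. X is empty. -/
theorem Sy.Typ.two_parts {C : Finset Y} {d m : ℕ} {R : (Fin d → Y) → Y → Prop}
    (h : Γ.Typ C d R m) {β : ℕ} (h1 : m ≤ β) (h2 : C.card ≤ β + m) :
    ∃ P ⊆ C, P.card ≤ d ∧ ∃ X, (Γ.pin P).Gr C X β := by
  obtain ⟨p, hp, pC⟩ : ∃ p : Fin d → Y, Function.Injective p ∧ ∀ i, p i ∈ C := by
    have := h.half
    obtain ⟨f⟩ : Nonempty (Fin d ↪ C) := Function.Embedding.nonempty_of_card_le (by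
      rw [Fintype.card_fin, Fintype.card_coe]; omega)
    exact ⟨fun i => f i, fun a b e => f.injective (Subtype.ext e), fun i => (f i).2⟩
  have key : ∀ a b, (Γ.pin (univ.image p)).E1 a b → R p a → R p b := by
    rintro a _ ⟨f, ⟨g, g1, g2, g3⟩, rfl⟩ e
    have m : ∀ i, p i ∈ univ.image p ∩ Γ.D := fun i =>
      mem_inter.2 ⟨mem_image_of_mem _ (mem_univ i), h.inv1.1 (pC i)⟩
    have := h.inv _ g p a g3 (fun i => mem_union_right _ (m i)) (by simp) e
    rwa [show g ∘ p = p from funext fun i => g2 _ (m i), g1 a (by simp)] at this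
  refine ⟨univ.image p, image_subset_iff.2 fun i _ => pC i, card_image_le.trans (by simp),
    fun _ _ => False, ⟨fun _ _ => False.elim, fun _ _ _ _ _ => False.elim⟩, fun _ _ => False.elim,
    fun _ _ => False.elim, fun a => by simp, fun a ha S hS _ => ?_⟩
  have sC : S ⊆ C := hS.trans (((Sy.ref_pin _).inv1 h.inv1).cls_sub ha)
  have c := h.card p hp pC
  by_cases e : R p a
  · exact (card_le_card fun b hb => mem_filter.2 ⟨sC hb, key a b (Sy.mem_cls.1 (hS hb)) e⟩).trans
      (c.trans_le h1)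
  · have c1 : S.card ≤ (C.filter fun b => ¬ R p b).card := card_le_card fun b hb =>
      mem_filter.2 ⟨sC hb, fun r => e (key b a (Sy.mem_cls.1 (hS hb)).symm r)⟩
    have c2 := card_filter_add_card_filter_not (s := C) (R p)
    omega

end Pool.Agent.P.MP_f1a348_lc.GX
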