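import Pool.Agent.P.MP_f1a348_lc.GX.DefsS
import Pool.Agent.P.MP_f1a348_lc.GX.TSYS
import Pool.Agent.P.MP_f1a348_lc.GX.TGOOD
import Pool.Agent.P.MP_f1a348_lc.GX.TCONN
import Pool.Agent.P.MP_f1a348_lc.GX.TDOM

/-! Step GRA. -/

set_option autoImplicit false
set_option linter.unusedSectionVars false

namespace Pool.Agent.P.MP_f1a348_lc.GX

open Equiv Finset
open scoped Classical
variable {Y : Type} [DecidableEq Y] {Γ Γ' : Sy Y}

namespace GRAx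

theorem reps (C : Finset Y) (E : Y → Y → Prop) (hs : ∀ a b, E a b → E b a)
    (hr : ∀ a ∈ C, E a a) : ∃ S ⊆ C, (∀ x ∈ S, ∀ y ∈ S, x ≠ y → ¬ E x y) ∧
      ∀ x ∈ C, ∃ s ∈ S, E s x := by
  obtain ⟨S, hS, hmax⟩ := exists_max_image
    (C.powerset.filter fun S => ∀ x ∈ S, ∀ y ∈ S, x ≠ y → ¬ E x y) card ⟨∅, by simp⟩
  simp only [mem_filter, mem_powerset] at hS hmax
  obtain ⟨h1, h2⟩ := hS
  refine ⟨S, h1, h2, fun x hx => ?_⟩
  by_contra k
  push Not at k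
  have hxS : x ∉ S := fun e => k x e (hr x hx)
  have := hmax (insert x S) ⟨insert_subset hx h1, by
    intro a ha b hb e
    rcases mem_insert.1 ha with rfl | ha' <;> rcases mem_insert.1 hb with rfl | hb'
    · exact absurd rfl e
    · exact fun t => k b hb' (hs _ _ t)
    · exact k a ha'
    · exact h2 a ha' b hb' e⟩
  rw [card_insert_of_notMem hxS] at this
  omega

end GRAx

/- Case (ii): an edge from v to v' with not N z v and N z v'. Pin v. A class A' of Γ' with more than three quarters of A has no z' with N z' v (few, invariance over v), so E2 z v z' v (dom) and z' has a neighbour v'' of v with N z' v''. R z' w iff X v w and N z' w is not constant on A' (few). sep_or_equi in Γ' with O' = the neighbours of v. -/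
theorem Sy.gra_edge (hM : 4 ≤ Γ.M) {A O : Finset Y} (hA : Γ.Cls A) (hO : Γ.Inv1 O)
    {N X : Y → Y → Prop} (h : Γ.Dom A O N) {β : ℕ} (hX : Γ.Gr O X β) {z v v' : Y} (hz : z ∈ A)
    (e : X v v') (h1 : ¬ N z v) (h2 : N z v') (hr : (Γ.pin {v}).Ref Γ') (hM' : 3 ≤ Γ'.M)
    {A' : Finset Y} (hs : A' ⊆ A) (hA' : Γ'.Cls A') (hb : 3 * A.card < 4 * A'.card) :
    Γ'.Equi A' ∨ ∃ c, c ≤ β ∧ c ≤ O.card ∧ Γ'.Rec A' 1 c c false := by
  have hv : v ∈ O := (hX.sup _ _ e).1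
  have hvD : v ∈ Γ.D := hO.1 hv
  have hR : Γ.Ref Γ' := (Sy.ref_pin _).trans hr
  have f1 : ∀ a ∈ Γ.D, ∀ a', Γ'.E1 a a' → Γ.E2 a v a' v := fun a ha a' k =>
    (Sy.pin_e2 (hr.2 a ha a ha _ _ (Sy.e2_diag.2 k)) (mem_singleton_self v) hvD).1
  have big : ∀ w, ∃ y ∈ A', ¬ N y w := fun w => by
    by_contra k
    push Not at k
    have := card_le_card (s := A') (t := A.filter fun z => N z w) fun y hy =>
      mem_filter.2 ⟨hs hy, k y hy⟩
    have := h.few w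
    omega
  obtain ⟨x, hx, nx⟩ := big v
  obtain ⟨w, e1, e2, -, -⟩ := (h.dom z hz x (hs hx) v hv v (Sy.E1.refl hvD) h1 nx).ext3 (by omega)
    (hX.inv.1 _ _ e).2
  have hw := hX.inv.2 _ _ _ _ e2 e
  obtain ⟨y, hy, ny⟩ := big w
  have hO' : Γ'.Inv1 (O.filter (X v)) := by
    refine ⟨(filter_subset _ _).trans (hO.1.trans hR.1), fun a b k ha => ?_⟩
    obtain ⟨a1, a2⟩ := mem_filter.1 ha
    have := hX.inv.2 _ _ _ _ (f1 a (hO.1 a1) b k).swap a2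
    exact mem_filter.2 ⟨(hX.sup _ _ this).2, this⟩
  rcases Sy.sep_or_equi hM' hA'.2.1 hO' (hR.inv2 h.inv) hx hy
    (mem_filter.2 ⟨(hX.sup _ _ hw).2, hw⟩) (h.inv.2 _ _ _ _ e1 h2) ny with k | k
  · exact Or.inr ⟨_, hX.val v, card_filter_le _ _, Sy.rec_direct hA'.2.1 (hR.inv2 h.inv) hO' le_rfl
      (Sy.gr_empty hO' le_rfl) (fun _ => le_rfl) k⟩
  · exact Or.inl k

/- Case (iii): N z is a union of components. C from Dom.tight, sep_or_equi, E = same component (Inv2.eqvGen), gen_pairs. The number c of blocks is at most β (comp) and c * 2 ^ length ≤ card C. In Γ' the record is O' = image bl C, ρ' z B iff N z x for some x in C with bl x = B. -/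
theorem Sy.gra_comp (hM : 3 ≤ Γ.M) {A O : Finset Y} (hA : Γ.Cls A) (hO : Γ.Inv1 O)
    {N X : Y → Y → Prop} (h : Γ.Dom A O N) {β : ℕ} (hX : Γ.Gr O X β)
    (hc : ∀ z ∈ A, ∀ v v', X v v' → N z v' → N z v) :
    Γ.Equi A ∨ ∃ (C : Finset Y) (prs : List (Y × Y)) (c : ℕ), C ⊆ O ∧ Γ.Cls C ∧
      (∀ p ∈ prs, p.1 ∈ C ∧ p.2 ∈ C) ∧ 1 ≤ c ∧ c ≤ β ∧ c * 2 ^ prs.length ≤ C.card ∧
      ∀ (Γ' : Sy Y) (bl : Y → Y), Γ.Blk Γ' C prs bl → Γ'.Rec A 1 c c false := by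
  obtain ⟨C, hCO, hC, hN, ⟨x, hx, y, hy, v, hv, n1, n2⟩, -⟩ := h.tight hM hA hO
  rcases Sy.sep_or_equi hM hA.2.1 hC.2.1 hN hx hy hv ⟨hv, n1⟩ (fun k => n2 k.2) with hs | k
  swap
  · exact Or.inl k
  right
  let E : Y → Y → Prop := fun a b => a ∈ C ∧ b ∈ C ∧ (a ∈ Γ.D ∧ Relation.EqvGen X a b)
  have es : ∀ a b, E a b → E b a := fun a b k => ⟨k.2.1, k.1, hC.2.1.1 k.2.1, k.2.2.2.symm _ _⟩
  have et : ∀ a b c, E a b → E b c → E a c := fun a b c k k' =>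
    ⟨k.1, k'.2.1, k.2.2.1, k.2.2.2.trans _ _ _ k'.2.2.2⟩
  have er : ∀ a ∈ C, E a a := fun a ha => ⟨ha, ha, hC.2.1.1 ha, .refl a⟩
  obtain ⟨prs, p1, p2, p3⟩ := Sy.gen_pairs hM hC (E := E)
    ((hX.inv.eqvGen hM).restrict hC.2.1 hC.2.1) es et er
  obtain ⟨S, s1, s2, s3⟩ := GRAx.reps C E es er
  have hNE : ∀ z ∈ A, ∀ a b, Relation.EqvGen X a b → (N z a ↔ N z b) := fun z hz a b k => by
    induction k with
    | rel a b k => exact ⟨hc z hz b a (hX.symm _ _ k), hc z hz a b k⟩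
    | refl a => rfl
    | symm a b _ ih => exact ih.symm
    | trans a b c _ _ i1 i2 => exact i1.trans i2
  refine ⟨C, prs, S.card, hCO, hC, p1, ?_, ?_, ?_, fun Γ' bl hb => ?_⟩
  · obtain ⟨s, hs, -⟩ := s3 v hv
    exact card_pos.2 ⟨s, hs⟩
  · exact hX.comp v (hCO hv) S (hC.eq_cls hv ▸ s1) fun a ha b hb e k =>
      s2 a ha b hb e ⟨s1 ha, s1 hb, hC.2.1.1 (s1 ha), k⟩
  · calc S.card * 2 ^ prs.length ≤ ∑ s ∈ S, (C.filter (E s)).card :=
          card_nsmul_le_sum S _ _ fun s hs => (p3 s (s1 hs)).trans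
            (card_le_card fun w => by simp only [mem_filter]; exact id)
      _ = (S.biUnion fun s => C.filter (E s)).card := by
          refine (card_biUnion fun a ha b hb e => disjoint_left.2 fun w k k' => ?_).symm
          exact s2 a ha b hb e (et _ _ _ (mem_filter.1 k).2 (es _ _ (mem_filter.1 k').2))
      _ ≤ C.card := card_le_card (biUnion_subset.2 fun _ _ => filter_subset _ _)
  · obtain ⟨O', hO', mO⟩ : ∃ O', Γ'.Inv1 O' ∧ ∀ b, b ∈ O' ↔ b ∈ Γ'.D ∧ ∃ a, a ∈ C ∧ b = bl a :=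
      ⟨_, hb.inv.range (by have := hb.lev; omega), fun b => by simp only [mem_filter]⟩
    have hc' : O'.card ≤ S.card := by
      refine le_trans (card_le_card fun b k => ?_) (card_image_le (f := bl))
      obtain ⟨-, a, ha, rfl⟩ := (mO b).1 k
      obtain ⟨s, hs, e⟩ := s3 a ha
      exact mem_image.2 ⟨s, hs, (hb.eq s (s1 hs) a ha).2 ((p2 s (s1 hs) a ha).2 e)⟩
    refine Sy.rec_direct (hb.ref.inv1 hA.2.1) ((hb.ref.inv2 hN).comp hb.lev hb.inv) hO' hc'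
      (Sy.gr_empty hO' hc') (fun _ => le_rfl) fun z hz z' hz' ne => ?_
    obtain ⟨w, hw, k⟩ := hs z hz z' hz' ne
    have key : ∀ z ∈ A, (∃ b, (b ∈ C ∧ N z b) ∧ b ∈ C ∧ bl w = bl b) ↔ w ∈ C ∧ N z w :=
      fun z hz => ⟨fun ⟨b, b1, b2, b3⟩ => ⟨hw, (hNE z hz w b
        ((p2 w hw b b2).1 ((hb.eq w hw b b2).1 b3)).2.2.2).2 b1.2⟩, fun t => ⟨w, t, hw, rfl⟩⟩
    exact ⟨bl w, (mO _).2 ⟨(hb.inv.1 w _ ⟨hw, rfl⟩).2, w, hw, rfl⟩, by
      rw [key z hz, key z' hz']; exact k⟩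

end Pool.Agent.P.MP_f1a348_lc.GX
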