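import Pool.Agent.P.MP_f1a348_lc.GX.DefsG
import Pool.Agent.P.MP_f1a348_lc.GX.TSYS
import Pool.Agent.P.MP_f1a348_lc.GX.TGOOD
import Pool.Agent.P.MP_f1a348_lc.GX.TGPAIR
import Pool.Agent.P.MP_f1a348_lc.GX.TGCOMP
import Pool.Agent.P.MP_f1a348_lc.GX.TGONE

/-! Step GSPARSE. -/

set_option autoImplicit false
set_option linter.unusedSectionVars false

namespace Pool.Agent.P.MP_f1a348_lc.GX

open Equiv Finset
open scoped Classical
variable {Y : Type} [DecidableEq Y] {Γ : Sy Y}

namespace GSPARSEx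

theorem out_le {C : Finset Y} {d m : ℕ} {R : (Fin d → Y) → Y → Prop} (ht : Γ.Typ C d R m)
    (p : Fin d → Y) : (C.filter (R p)).card ≤ m := by
  by_cases h : ∃ v, R p v
  · obtain ⟨v, hv⟩ := h
    obtain ⟨h1, h2, -⟩ := ht.sup p v hv
    exact (ht.card p h1 h2).le
  · rw [filter_eq_empty_iff.2 (fun x _ hx => h ⟨x, hx⟩)]; simp

theorem inv_iff {C : Finset Y} {d m : ℕ} {R : (Fin d → Y) → Y → Prop} (ht : Γ.Typ C d R m)
    {A : Finset Y} {f : Perm Y} (hf : Γ.L A f) {p : Fin d → Y} {u : Y} (hp : ∀ i, p i ∈ A)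
    (hu : u ∈ A) : R p u ↔ R (f ∘ p) (f u) := by
  refine ⟨ht.inv A f p u hf hp hu, fun h => ?_⟩
  have := ht.inv _ f⁻¹ (f ∘ p) (f u) (Γ.inv hf) (fun i => mem_image_of_mem _ (hp i))
    (mem_image_of_mem _ hu) h
  have e : (⇑f⁻¹ ∘ ⇑f ∘ p) = p := by funext i; simp
  rw [e] at this
  simpa using this

theorem in_le {C : Finset Y} {d m : ℕ} {R : (Fin d → Y) → Y → Prop} (hM : d < Γ.M)
    (ht : Γ.Typ C d R m) (p : Fin d → Y) (i : Fin d) (v : Y) :
    (C.filter (fun x => R (Function.update p i x) v)).card ≤ m := by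
  by_cases h : ∃ x, R (Function.update p i x) v
  swap
  · rw [filter_eq_empty_iff.2 (fun x _ hx => h ⟨x, hx⟩)]; simp
  obtain ⟨x0, hx0⟩ := h
  obtain ⟨i0, c0, -, -⟩ := ht.sup _ _ hx0
  set T := C.filter (fun y => ∀ j, j ≠ i → p j ≠ y) with hT
  have hinj : ∀ y ∈ T, Function.Injective (Function.update p i y) ∧
      ∀ j, Function.update p i y j ∈ C := by
    intro y hy
    obtain ⟨hyC, hy⟩ := mem_filter.1 hy
    refine ⟨fun a b hab => ?_, fun j => ?_⟩
    · by_cases ha : a = i <;> by_cases hb : b = i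
      · rw [ha, hb]
      · subst ha
        rw [Function.update_self, Function.update_of_ne hb] at hab
        exact absurd hab.symm (hy b hb)
      · subst hb
        rw [Function.update_self, Function.update_of_ne ha] at hab
        exact absurd hab (hy a ha)
      · apply i0
        rw [Function.update_of_ne ha, Function.update_of_ne hb] at hab ⊢
        exact hab
    · by_cases hj : j = i
      · subst hj; rw [Function.update_self]; exact hyC
      · have := c0 j
        rw [Function.update_of_ne hj] at this ⊢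
        exact this
  have hmem : ∀ x y, R (Function.update p i x) y → x ∈ T ∧ y ∈ T := by
    intro x y hxy
    obtain ⟨a1, a2, a3, a4⟩ := ht.sup _ _ hxy
    refine ⟨mem_filter.2 ⟨?_, fun j hj e => hj (a1 ?_)⟩, mem_filter.2 ⟨a3, fun j hj => ?_⟩⟩
    · have := a2 i
      rwa [Function.update_self] at this
    · rw [Function.update_of_ne hj, Function.update_self, e]
    · have := a4 j
      rwa [Function.update_of_ne hj] at this
  have hTD : ∀ y, T.filter (fun x => R (Function.update p i x) y) =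
      Γ.D.filter (fun x => R (Function.update p i x) y) := by
    intro y
    ext x
    simp only [mem_filter]
    exact ⟨fun h => ⟨ht.inv1.1 (mem_filter.1 h.1).1, h.2⟩, fun h => ⟨(hmem x y h.2).1, h.2⟩⟩
  have hconst : ∀ y ∈ T, (T.filter (fun x => R (Function.update p i x) y)).card =
      (T.filter (fun x => R (Function.update p i x) v)).card := by
    intro y hy
    obtain ⟨f, hf, hfe⟩ := ht.tr _ _ (hinj y hy).1 (hinj v (hmem _ _ hx0).2).1 (hinj y hy).2
      (hinj v (hmem _ _ hx0).2).2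
    rw [hTD, hTD]
    refine Sy.card_eq hf (lt_of_le_of_lt (card_image_le.trans (by simp)) hM) _ _ ?_
    intro w _ g hg hL
    have hy' : y ∈ univ.image (Function.update p i y) :=
      mem_image.2 ⟨i, mem_univ _, Function.update_self ..⟩
    have hp : ∀ j, j ≠ i → p j ∈ univ.image (Function.update p i y) := fun j hj =>
      mem_image.2 ⟨j, mem_univ _, Function.update_of_ne hj ..⟩
    have e1 : g y = v := by
      have := hfe i
      rw [Function.update_self, Function.update_self] at this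
      rw [hg y hy', this]
    have e2 : g ∘ Function.update p i w = Function.update p i (g w) := by
      funext j
      by_cases hj : j = i
      · subst hj; simp
      · have := hfe j
        rw [Function.update_of_ne hj, Function.update_of_ne hj] at this
        rw [Function.comp_apply, Function.update_of_ne hj, Function.update_of_ne hj,
          hg _ (hp j hj), this]
    rw [inv_iff ht hL (p := Function.update p i w) (u := y) ?_ (mem_insert_of_mem hy'), e1, e2]
    intro j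
    by_cases hj : j = i
    · subst hj; rw [Function.update_self]; exact mem_insert_self _ _
    · rw [Function.update_of_ne hj]; exact mem_insert_of_mem (hp j hj)
  have hout : ∀ x ∈ T, (T.filter (fun y => R (Function.update p i x) y)).card ≤ m := fun x _ =>
    (card_le_card (fun y hy => mem_filter.2 ⟨(mem_filter.1 (mem_filter.1 hy).1).1,
      (mem_filter.1 hy).2⟩)).trans (out_le ht _)
  have hsum : ∑ y ∈ T, (T.filter (fun x => R (Function.update p i x) y)).card =
      ∑ x ∈ T, (T.filter (fun y => R (Function.update p i x) y)).card := by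
    simp only [card_filter]
    exact sum_comm
  rw [sum_congr rfl hconst, sum_const, smul_eq_mul] at hsum
  have h2 := sum_le_card_nsmul T _ m hout
  rw [← hsum, smul_eq_mul] at h2
  have h3 := Nat.le_of_mul_le_mul_left h2 (card_pos.2 ⟨_, (hmem _ _ hx0).1⟩)
  exact (card_le_card (fun x hx => mem_filter.2 ⟨(hmem _ _ (mem_filter.1 hx).2).1,
    (mem_filter.1 hx).2⟩)).trans h3

theorem one_coord {κ Z : Type} [Fintype κ] [DecidableEq κ] [Fintype Z] [DecidableEq Z]
    (B : Finset (κ → Z)) (k : κ) (r : ℕ)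
    (h : ∀ ω : κ → Z, (univ.filter (fun x => Function.update ω k x ∈ B)).card ≤ r) :
    B.card * Fintype.card Z ≤ r * Fintype.card (κ → Z) := by
  have h1 : (B ×ˢ (univ : Finset Z)).card ≤
      ((univ : Finset (κ → Z)).sigma
        (fun ω => univ.filter (fun x => Function.update ω k x ∈ B))).card := by
    refine card_le_card_of_injOn (fun q => ⟨Function.update q.1 k q.2, q.1 k⟩) ?_ ?_
    · intro q hq
      have := (mem_product.1 (mem_coe.1 hq)).1
      simp [this]
    · intro q _ q' _ e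
      have e1 : Function.update q.1 k q.2 = Function.update q'.1 k q'.2 := congrArg Sigma.fst e
      have e2 : q.1 k = q'.1 k := by simpa using (Sigma.mk.inj_iff.1 e).2
      refine Prod.ext (funext fun j => ?_) (by simpa using congrFun e1 k)
      by_cases hj : j = k
      · rw [hj, e2]
      · simpa [Function.update_of_ne hj] using congrFun e1 j
  rw [card_product, card_univ, card_sigma] at h1
  refine h1.trans ((sum_le_card_nsmul _ _ r (fun ω _ => h ω)).trans ?_)
  rw [card_univ, smul_eq_mul, mul_comm]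

/-- the transversal with a last entry -/
def tv {C : Finset Y} {h : ℕ} (ω : Fin h × Bool → {x // x ∈ C}) (ε : Fin h → Bool) (u : Y) :
    Fin (h + 1) → Y := Fin.snoc (α := fun _ => Y) (fun j => (ω (j, ε j)).1) u

theorem pair_le {C : Finset Y} {h m : ℕ} {R : (Fin (h + 1) → Y) → Y → Prop}
    (hM : h + 1 < Γ.M) (ht : Γ.Typ C (h + 1) R m) (u : Y) {ε ε' : Fin h → Bool} (e : ε ≠ ε') :
    (univ.filter (fun ω : Fin h × Bool → {x // x ∈ C} =>
      ∃ v, R (tv ω ε u) v ∧ R (tv ω ε' u) v)).card * C.card ≤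
      m * m * Fintype.card (Fin h × Bool → {x // x ∈ C}) := by
  obtain ⟨i, hi⟩ := Function.ne_iff.1 e
  have := one_coord (univ.filter (fun ω : Fin h × Bool → {x // x ∈ C} =>
      ∃ v, R (tv ω ε u) v ∧ R (tv ω ε' u) v)) (i, ε' i) (m * m) ?_
  · rwa [Fintype.card_coe] at this
  intro ω
  have e1 : ∀ x, tv (Function.update ω (i, ε' i) x) ε u = tv ω ε u := by
    intro x
    unfold tv
    congr 1
    funext j
    rw [Function.update_of_ne]
    intro hj
    obtain ⟨h1, h2⟩ := Prod.mk.inj hj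
    subst h1
    exact hi h2
  have e2 : ∀ x, tv (Function.update ω (i, ε' i) x) ε' u =
      Function.update (tv ω ε' u) i.castSucc x.1 := by
    intro x
    unfold tv
    rw [← Fin.snoc_update]
    congr 1
    funext j
    by_cases hj : j = i
    · subst hj; simp
    · rw [Function.update_of_ne hj, Function.update_of_ne]
      intro hj'
      exact hj (Prod.mk.inj hj').1
  have h1 : (univ.filter (fun x => Function.update ω (i, ε' i) x ∈
      univ.filter (fun ω : Fin h × Bool → {x // x ∈ C} =>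
      ∃ v, R (tv ω ε u) v ∧ R (tv ω ε' u) v))).card ≤
      ((C.filter (R (tv ω ε u))).biUnion (fun v => C.filter (fun x =>
        R (Function.update (tv ω ε' u) i.castSucc x) v))).card := by
    refine card_le_card_of_injOn (fun x => x.1) ?_ (fun _ _ _ _ e => Subtype.ext e)
    intro x hx
    obtain ⟨v, h1, h2⟩ := (mem_filter.1 (mem_filter.1 (mem_coe.1 hx)).2).2
    rw [e1] at h1
    rw [e2] at h2
    exact mem_coe.2 (mem_biUnion.2 ⟨v, mem_filter.2 ⟨(ht.sup _ _ h1).2.2.1, h1⟩,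
      mem_filter.2 ⟨x.2, h2⟩⟩)
  refine h1.trans (card_biUnion_le.trans ((sum_le_card_nsmul _ _ m
    (fun v _ => in_le hM ht _ _ _)).trans ?_))
  rw [smul_eq_mul]
  exact Nat.mul_le_mul_right _ (out_le ht _)

/-- a bad point -/
def Bad {C : Finset Y} {h : ℕ} (R : (Fin (h + 1) → Y) → Y → Prop)
    (ω : Fin h × Bool → {x // x ∈ C}) (u : {x // x ∈ C}) : Prop :=
  ¬ (Function.Injective ω ∧ ∀ k, ω k ∉ ({u} : Finset {x // x ∈ C})) ∨
    ∃ ε ε' : Fin h → Bool, ε ≠ ε' ∧ ∃ v, R (tv ω ε u.1) v ∧ R (tv ω ε' u.1) v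

theorem bad_le {C : Finset Y} {h m : ℕ} {R : (Fin (h + 1) → Y) → Y → Prop}
    (hM : h + 1 < Γ.M) (ht : Γ.Typ C (h + 1) R m) (u : {x // x ∈ C}) :
    (univ.filter (fun ω : Fin h × Bool → {x // x ∈ C} => Bad R ω u)).card * C.card ≤
      ((2 * h + 1) ^ 2 + 2 ^ h * 2 ^ h * (m * m)) *
        Fintype.card (Fin h × Bool → {x // x ∈ C}) := by
  have h1 := few_bad (κ := Fin h × Bool) ({u} : Finset {x // x ∈ C})
  rw [← Fintype.card_fun, Fintype.card_coe, card_singleton] at h1
  have e : Fintype.card (Fin h × Bool) = 2 * h := by simp [mul_comm]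
  rw [e] at h1
  set B1 := univ.filter (fun z : Fin h × Bool → {x // x ∈ C} =>
    ¬ (Function.Injective z ∧ ∀ i, z i ∉ ({u} : Finset {x // x ∈ C}))) with hB1
  have h2 : (univ.filter (fun ω : Fin h × Bool → {x // x ∈ C} => Bad R ω u)) ⊆
      B1 ∪ (univ : Finset (Fin h → Bool)).offDiag.biUnion (fun q =>
        univ.filter (fun ω : Fin h × Bool → {x // x ∈ C} =>
          ∃ v, R (tv ω q.1 u.1) v ∧ R (tv ω q.2 u.1) v)) := by
    intro ω hω
    rcases (mem_filter.1 hω).2 with hb | ⟨ε, ε', hne, hb⟩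
    · exact mem_union_left _ (mem_filter.2 ⟨mem_univ _, hb⟩)
    · exact mem_union_right _ (mem_biUnion.2 ⟨(ε, ε'),
        mem_offDiag.2 ⟨mem_univ _, mem_univ _, hne⟩, mem_filter.2 ⟨mem_univ _, hb⟩⟩)
  have h3 := (card_le_card h2).trans ((card_union_le _ _).trans
    (Nat.add_le_add_left card_biUnion_le _))
  refine (Nat.mul_le_mul_right _ h3).trans ?_
  rw [add_mul, add_mul, sum_mul]
  refine Nat.add_le_add h1 ((sum_le_card_nsmul _ _ _ (fun q hq =>
    pair_le hM ht u.1 (mem_offDiag.1 hq).2.2)).trans ?_)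
  rw [smul_eq_mul, mul_assoc (2 ^ h * 2 ^ h)]
  refine Nat.mul_le_mul_right _ ?_
  rw [offDiag_card]
  simp

theorem exists_omega {C : Finset Y} {h m : ℕ} {R : (Fin (h + 1) → Y) → Y → Prop}
    (hM : h + 1 < Γ.M) (ht : Γ.Typ C (h + 1) R m) :
    ∃ ω : Fin h × Bool → {x // x ∈ C},
      (univ.filter (fun u => Bad R ω u)).card ≤ (2 * h + 1) ^ 2 + 2 ^ h * 2 ^ h * (m * m) := by
  have hC : 0 < C.card := by have := ht.half; omega
  obtain ⟨x0, hx0⟩ := card_pos.1 hC
  have hs : ∑ ω : Fin h × Bool → {x // x ∈ C}, (univ.filter (fun u => Bad R ω u)).card =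
      ∑ u : {x // x ∈ C}, (univ.filter (fun ω : Fin h × Bool → {x // x ∈ C} =>
        Bad R ω u)).card := by
    simp only [card_filter]
    exact sum_comm
  have h1 : (∑ u : {x // x ∈ C}, (univ.filter (fun ω : Fin h × Bool → {x // x ∈ C} =>
        Bad R ω u)).card) * C.card ≤ (((2 * h + 1) ^ 2 + 2 ^ h * 2 ^ h * (m * m)) *
        Fintype.card (Fin h × Bool → {x // x ∈ C})) * C.card := by
    rw [sum_mul]
    refine (sum_le_card_nsmul _ _ _ (fun u _ => bad_le hM ht u)).trans ?_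
    rw [card_univ, Fintype.card_coe, smul_eq_mul, mul_comm]
  have h2 := Nat.le_of_mul_le_mul_right h1 hC
  rw [← hs] at h2
  obtain ⟨ω, -, hω⟩ := exists_le_of_sum_le (s := (univ : Finset (Fin h × Bool → {x // x ∈ C})))
    (f := fun ω => (univ.filter (fun u => Bad R ω u)).card)
    (g := fun _ => (2 * h + 1) ^ 2 + 2 ^ h * 2 ^ h * (m * m))
    ⟨fun _ => ⟨x0, hx0⟩, mem_univ _⟩
    (by rw [sum_const, card_univ, smul_eq_mul, mul_comm]; exact h2)
  exact ⟨ω, hω⟩

theorem good_ge {C : Finset Y} {h m : ℕ} {R : (Fin (h + 1) → Y) → Y → Prop}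
    (ht : Γ.Typ C (h + 1) R m) {ω : Fin h × Bool → {x // x ∈ C}} {u : {x // x ∈ C}}
    (hu : ¬ Bad R ω u) :
    2 ^ h ≤ (C.filter (fun v => ∃ ε, R (tv ω ε u.1) v ∨ R (tv ω ε v) u.1)).card := by
  have h1 : Function.Injective ω ∧ ∀ k, ω k ∉ ({u} : Finset {x // x ∈ C}) := by
    by_contra hn; exact hu (Or.inl hn)
  have h2 : ∀ ε, ∃ v ∈ C, R (tv ω ε u.1) v := by
    intro ε
    have hi : Function.Injective (tv ω ε u.1) := by
      unfold tv
      rw [Fin.snoc_injective_iff]
      refine ⟨fun a b hab => (Prod.mk.inj (h1.1 (Subtype.ext hab))).1, ?_⟩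
      rintro ⟨j, hj⟩
      exact h1.2 _ (mem_singleton.2 (Subtype.ext hj))
    have hc : ∀ i, tv ω ε u.1 i ∈ C := by
      intro i
      unfold tv
      refine Fin.lastCases ?_ (fun j => ?_) i
      · rw [Fin.snoc_last]; exact u.2
      · rw [Fin.snoc_castSucc]; exact (ω _).2
    have := ht.card _ hi hc
    obtain ⟨v, hv⟩ := card_pos.1 (this ▸ ht.one)
    exact ⟨v, mem_filter.1 hv⟩
  choose w hw1 hw2 using h2
  have h3 : (univ : Finset (Fin h → Bool)).card = 2 ^ h := by simp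
  rw [← h3]
  refine card_le_card_of_injOn w (fun ε _ => mem_coe.2 (mem_filter.2 ⟨hw1 ε, ε, Or.inl (hw2 ε)⟩)) ?_
  intro ε _ ε' _ e
  by_contra hne
  exact hu (Or.inr ⟨ε, ε', hne, w ε, hw2 ε, e ▸ hw2 ε'⟩)

theorem arith {h c m : ℕ} (hh : 8 ≤ h) (hc : 2 ^ (64 * h) ≤ 2 * c) (hm : m < 2 ^ h) :
    (2 * h + 1) ^ 2 + 2 ^ h * 2 ^ h * (m * m) ≤ c / 2 ^ h ∧ 2 ^ h * m ≤ c / 2 ^ h ∧
      1 ≤ c / 2 ^ h := by
  have h1 : 2 * h + 1 ≤ 2 ^ h := by
    obtain ⟨k, rfl⟩ := Nat.exists_eq_add_of_le hh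
    have := Nat.lt_two_pow_self (n := k)
    rw [pow_add]
    omega
  rw [mul_comm 64 h, pow_mul] at hc
  generalize 2 ^ h = a at *
  have ha : 4 ≤ a := by omega
  have h2 : 2 * a ^ 4 ≤ c / a := by
    rw [Nat.le_div_iff_mul_le (by omega)]
    have : a ^ 6 ≤ a ^ 64 := Nat.pow_le_pow_right (by omega) (by norm_num)
    have h4 : 4 * a ^ 5 ≤ a ^ 6 := by
      rw [pow_succ a 5, mul_comm 4]; exact Nat.mul_le_mul_left _ ha
    have h5 : 2 * a ^ 4 * a = 2 * a ^ 5 := by ring
    omega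
  have h6 : a ^ 2 ≤ a ^ 4 := Nat.pow_le_pow_right (by omega) (by norm_num)
  have h7 : (2 * h + 1) ^ 2 ≤ a ^ 2 := Nat.pow_le_pow_left h1 2
  have h8 : a * a * (m * m) ≤ a ^ 4 := by
    calc a * a * (m * m) ≤ a * a * (a * a) :=
          Nat.mul_le_mul_left _ (Nat.mul_le_mul hm.le hm.le)
      _ = a ^ 4 := by ring
  have h9 : a * m ≤ a ^ 2 := by rw [sq]; exact Nat.mul_le_mul_left _ hm.le
  have h10 : 1 ≤ a ^ 4 := Nat.one_le_pow _ _ (by omega)
  omega

end GSPARSEx

open GSPARSEx in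
/- ω : Fin h × Bool → C uniform, all ε. X u v iff R (snoc p u) v or R (snoc p v) u for some transversal p of ω. -/
theorem Sy.Typ.sparse {C : Finset Y} {h m : ℕ} {R : (Fin (h + 1) → Y) → Y → Prop}
    (hM : h + 3 ≤ Γ.M) (hh : 8 ≤ h) (hc : 2 ^ (64 * h) ≤ 2 * C.card)
    (ht : Γ.Typ C (h + 1) R m) (hm : m < 2 ^ h) :
    ∃ P ⊆ C, P.card ≤ 2 * h ∧ ∃ X β, (Γ.pin P).Gr C X β ∧ 1 ≤ β ∧ β * 2 ^ h ≤ 3 * C.card := by
  have hM' : h + 1 < Γ.M := by omega
  obtain ⟨ω, hω⟩ := exists_omega hM' ht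
  obtain ⟨a1, a2, a3⟩ := arith hh hc hm
  have hlast : ∀ ε u, tv ω ε u (Fin.last h) = u := fun ε u => by unfold tv; rw [Fin.snoc_last]
  have hcast : ∀ ε u j, tv ω ε u (Fin.castSucc j) = (ω (j, ε j)).1 := fun ε u j => by
    unfold tv; rw [Fin.snoc_castSucc]
  have hsup : ∀ ε a b, R (tv ω ε a) b → a ∈ C ∧ b ∈ C := fun ε a b hab =>
    ⟨hlast ε a ▸ (ht.sup _ _ hab).2.1 (Fin.last h), (ht.sup _ _ hab).2.2.1⟩
  have hinv : ∀ ε a b a' b', (Γ.pin (univ.image (fun k => (ω k).1))).E2 a b a' b' →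
      R (tv ω ε a) b → R (tv ω ε a') b' := by
    rintro ε a b a' b' ⟨f, ⟨g, g1, g2, g3⟩, rfl, rfl⟩ hab
    have hP : ∀ k, (ω k).1 ∈ univ.image (fun k => (ω k).1) ∩ Γ.D := fun k =>
      mem_inter.2 ⟨mem_image_of_mem _ (mem_univ k), ht.inv1.1 (ω k).2⟩
    have := ht.inv _ g (tv ω ε a) b g3 (fun i => ?_) (mem_union_left _ (by simp)) hab
    · rw [g1 b (by simp)] at this
      convert this using 1
      funext i
      refine Fin.lastCases ?_ (fun j => ?_) i
      · rw [Function.comp_apply, hlast, hlast, g1 a (by simp)]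
      · rw [Function.comp_apply, hcast, hcast, g2 _ (hP _)]
    · refine Fin.lastCases ?_ (fun j => ?_) i
      · rw [hlast]; exact mem_union_left _ (by simp)
      · rw [hcast]; exact mem_union_right _ (hP _)
  refine ⟨univ.image (fun k => (ω k).1), fun x hx => ?_, card_image_le.trans (by simp [mul_comm]),
    fun u v => ∃ ε, R (tv ω ε u) v ∨ R (tv ω ε v) u, 2 * (C.card / 2 ^ h), ⟨⟨?_, ?_⟩, ?_, ?_, ?_, ?_⟩,
    by omega, ?_⟩
  · obtain ⟨k, -, rfl⟩ := mem_image.1 hx
    exact (ω k).2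
  · rintro a b ⟨ε, hab | hab⟩
    · exact ⟨ht.inv1.1 (hsup _ _ _ hab).1, ht.inv1.1 (hsup _ _ _ hab).2⟩
    · exact ⟨ht.inv1.1 (hsup _ _ _ hab).2, ht.inv1.1 (hsup _ _ _ hab).1⟩
  · rintro a b a' b' e ⟨ε, hab | hab⟩
    · exact ⟨ε, Or.inl (hinv _ _ _ _ _ e hab)⟩
    · exact ⟨ε, Or.inr (hinv _ _ _ _ _ e.swap hab)⟩
  · rintro a b ⟨ε, hab⟩
    exact ⟨ε, hab.symm⟩
  · rintro a b ⟨ε, hab | hab⟩
    · exact hsup _ _ _ hab
    · exact (hsup _ _ _ hab).symm
  · intro a
    have h1 : C.filter (fun v => ∃ ε, R (tv ω ε a) v ∨ R (tv ω ε v) a) ⊆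
        (univ : Finset (Fin h → Bool)).biUnion (fun ε => C.filter (R (tv ω ε a)) ∪
          C.filter (fun v => R (Function.update (tv ω ε a) (Fin.last h) v) a)) := by
      intro v hv
      obtain ⟨hvC, ε, hv | hv⟩ := mem_filter.1 hv
      · exact mem_biUnion.2 ⟨ε, mem_univ _, mem_union_left _ (mem_filter.2 ⟨hvC, hv⟩)⟩
      · refine mem_biUnion.2 ⟨ε, mem_univ _, mem_union_right _ (mem_filter.2 ⟨hvC, ?_⟩)⟩
        unfold tv at hv ⊢
        rwa [Fin.update_snoc_last]
    have h2 := (card_le_card h1).trans (card_biUnion_le.trans (sum_le_card_nsmul _ _ (m + m)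
      (fun ε _ => (card_union_le _ _).trans
        (Nat.add_le_add (out_le ht _) (in_le hM' ht _ _ _)))))
    have h3 : (univ : Finset (Fin h → Bool)).card = 2 ^ h := by simp
    rw [h3, smul_eq_mul, mul_add] at h2
    refine le_trans (card_le_card fun v hv => ?_) (h2.trans (by omega))
    simp only [mem_filter] at hv ⊢
    exact hv
  · intro a ha S hS hne
    have hSC : S ⊆ C := hS.trans (((Γ.ref_pin _).inv1 ht.inv1).cls_sub ha)
    have h1 : (S.filter (fun x => ∃ hx : x ∈ C, Bad R ω ⟨x, hx⟩)).card ≤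
        (univ.filter (fun u => Bad R ω u)).card := by
      refine le_trans (card_le_card (t := (univ.filter (fun u => Bad R ω u)).image Subtype.val) ?_)
        card_image_le
      intro x hx
      obtain ⟨-, hx, hb⟩ := mem_filter.1 hx
      exact mem_image.2 ⟨⟨x, hx⟩, mem_filter.2 ⟨mem_univ _, hb⟩, rfl⟩
    have h2 : (S.filter (fun x => ¬ ∃ hx : x ∈ C, Bad R ω ⟨x, hx⟩)).card * 2 ^ h ≤ C.card := by
      have h3 := card_nsmul_le_sum (S.filter (fun x => ¬ ∃ hx : x ∈ C, Bad R ω ⟨x, hx⟩))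
        (fun u => (C.filter (fun v => ∃ ε, R (tv ω ε u) v ∨ R (tv ω ε v) u)).card) (2 ^ h)
        (fun x hx => good_ge ht (u := ⟨x, hSC (mem_filter.1 hx).1⟩)
          (fun hb => (mem_filter.1 hx).2 ⟨_, hb⟩))
      rw [smul_eq_mul, ← card_biUnion] at h3
      · exact h3.trans (card_le_card (biUnion_subset.2 fun _ _ => filter_subset _ _))
      · intro x hx y hy hxy
        refine disjoint_left.2 fun v h1 h2 => ?_
        refine hne x (mem_filter.1 (mem_coe.1 hx)).1 y (mem_filter.1 (mem_coe.1 hy)).1 hxy ?_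
        exact Relation.EqvGen.trans _ _ _ (Relation.EqvGen.rel _ _ (mem_filter.1 h1).2)
          (Relation.EqvGen.symm _ _ (Relation.EqvGen.rel _ _ (mem_filter.1 h2).2))
    have h4 := (Nat.le_div_iff_mul_le (Nat.two_pow_pos h)).2 h2
    have h5 := card_filter_add_card_filter_not (s := S)
      (fun x => ∃ hx : x ∈ C, Bad R ω ⟨x, hx⟩)
    omega
  · have := Nat.div_mul_le_self C.card (2 ^ h)
    rw [mul_assoc]
    omega

end Pool.Agent.P.MP_f1a348_lc.GX
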