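import Pool.Agent.P.MP_f1a348_lc.GX.DefsG
import Pool.Agent.P.MP_f1a348_lc.GX.TSYS
import Pool.Agent.P.MP_f1a348_lc.GX.TGOOD
import Pool.Agent.P.MP_f1a348_lc.GX.TGTYP
import Pool.Agent.P.MP_f1a348_lc.GX.TGONE
import Pool.Agent.P.MP_f1a348_lc.GX.TGDENSE
import Pool.Agent.P.MP_f1a348_lc.GX.TGSPARSE

/-! Step LEMG. -/

set_option autoImplicit false
set_option linter.unusedSectionVars false

namespace Pool.Agent.P.MP_f1a348_lc.GX

open Equiv Finset
open scoped Classical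
variable {Y : Type} [DecidableEq Y] {Γ : Sy Y}

namespace LEMGx

theorem lg_two_pow (k : ℕ) : lg (2 ^ k) = k := by simp [lg, Real.logb_pow]

theorem lg_lt {c k : ℕ} (h : c < 2 ^ k) : lg c ≤ k := by
  have := lg_mono h.le
  rwa [lg_two_pow] at this

theorem small {c : ℕ} (hc : 4 ≤ c) : lg (7 * c / 8) + 513 / 4096 ≤ lg c := by
  have h0 : 0 < 7 * c / 8 := by omega
  have h1 : (7 * c / 8) ^ 7 * 2 ≤ c ^ 7 := by
    have h2 : ((7 * c / 8) * 8) ^ 7 ≤ (7 * c) ^ 7 := Nat.pow_le_pow_left (by omega) 7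
    rw [mul_pow, mul_pow] at h2
    omega
  have h2 := lg_mono h1
  rw [lg_mul (by positivity) two_pos] at h2
  have e : ∀ n : ℕ, lg (n ^ 7) = 7 * lg n := fun n => by simp [lg, Real.logb_pow]
  rw [e, e, show lg 2 = 1 by simp [lg]] at h2
  linarith

theorem large {c β h : ℕ} (hβ : 1 ≤ β) (hc : 1 ≤ c) (e : β * 2 ^ h ≤ 3 * c) :
    lg β + h ≤ lg c + 2 := by
  have h1 := lg_mono (e.trans (show 3 * c ≤ c * 2 ^ 2 by omega))
  rwa [lg_mul hβ (by positivity), lg_mul hc (by positivity), lg_two_pow, lg_two_pow,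
    Nat.cast_ofNat] at h1

end LEMGx

/- typ_of. h = min d (log 2 c / 8) / 8. If h < 8 then min d (lg c) < 512: one_graph (8 m ≤ c) or two_parts (8 m > c) with β = 7 c / 8, and log (8 / 7) ≥ 513 / 4096. Else min d (lg c) ≤ 64 (h + 1): if m < 2 ^ h, Typ.pin down to h + 1 and sparse; if c ≤ m 4 ^ h + d, Typ.pin down to 8 h and dense; else one_graph with β = c / 2 ^ h + 1. At least half of C is left after the first pins; add_pins; lg β ≤ lg c - (h - 2). -/
theorem Sy.lemG {C : Finset Y} {d : ℕ} (hM : 2 * d + 4 ≤ Γ.M) (hd : 1 ≤ d) (hC : Γ.Inv1 C)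
    (hc : 2 * d + 2 ≤ C.card) (h1 : Γ.Tr C d) (h2 : ¬ Γ.Tr C (d + 1)) :
    ∃ P ⊆ C, P.card ≤ 2 * d ∧ ∃ X β, (Γ.pin P).Gr C X β ∧
      lg β + (1 + min (d : ℝ) (lg C.card)) / 4096 ≤ lg C.card := by
  obtain ⟨R, m, ht⟩ := Sy.typ_of (by omega) hC h1 h2
  have m1 := ht.one
  have m2 := ht.half
  have l1 := Nat.lt_pow_succ_log_self one_lt_two C.card
  have l2 := Nat.pow_log_le_self 2 (show C.card ≠ 0 by omega)
  obtain ⟨h, g1, g2, g3⟩ : ∃ h : ℕ, 8 * h ≤ d ∧ 2 ^ (64 * h) ≤ C.card ∧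
      min (d : ℝ) (lg C.card) ≤ 64 * (h + 1) := by
    refine ⟨min d (Nat.log 2 C.card / 8) / 8, by omega,
      (Nat.pow_le_pow_right two_pos (by omega)).trans l2, ?_⟩
    generalize e : min d (Nat.log 2 C.card / 8) / 8 = h
    by_cases q : d ≤ 64 * (h + 1)
    · exact (min_le_left _ _).trans (by exact_mod_cast q)
    · refine (min_le_right _ _).trans ((LEMGx.lg_lt l1).trans ?_)
      exact_mod_cast (show (Nat.log 2 C.card).succ ≤ 64 * (h + 1) by omega)
  by_cases hh : h < 8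
  · have g4 : (h : ℝ) ≤ 7 := by exact_mod_cast (show h ≤ 7 by omega)
    have g5 := LEMGx.small (show 4 ≤ C.card by omega)
    obtain ⟨P, p1, p2, X, p3⟩ : ∃ P ⊆ C, P.card ≤ d ∧ ∃ X, (Γ.pin P).Gr C X (7 * C.card / 8) := by
      by_cases q : 8 * m ≤ C.card
      · refine ht.one_graph (by omega) hd (by omega) ?_
        exact le_trans (by omega) (Nat.mul_le_mul_left _ (show 2 ≤ m + 1 by omega))
      · exact ht.two_parts (by omega) (by omega)
    exact ⟨P, p1, by omega, X, _, p3, by linarith⟩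
  · have g4 : (8 : ℝ) ≤ h := by exact_mod_cast (show 8 ≤ h by omega)
    suffices H : ∃ P ⊆ C, P.card ≤ 2 * d ∧ ∃ X β, (Γ.pin P).Gr C X β ∧ 1 ≤ β ∧
        β * 2 ^ h ≤ 3 * C.card by
      obtain ⟨P, p1, p2, X, β, p3, p4, p5⟩ := H
      have := LEMGx.large p4 (by omega) p5
      exact ⟨P, p1, p2, X, β, p3, by linarith⟩
    by_cases q : m < 2 ^ h
    · obtain ⟨j, rfl⟩ : ∃ j, d = j + (h + 1) := ⟨d - (h + 1), by omega⟩
      obtain ⟨P, p1, p2, R', p3⟩ := ht.pin
      have c1 := card_sdiff_add_card_eq_card p1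
      obtain ⟨P', q1, q2, X, β, q3, q4, q5⟩ := p3.sparse
        (show h + 3 ≤ Γ.M - P.card by omega) (by omega) (by omega) q
      have c2 := card_union_le P P'
      exact ⟨P ∪ P', union_subset p1 (q1.trans sdiff_subset), by omega, X, β,
        q3.add_pins hC.1 p1 q4, q4, by omega⟩
    · by_cases q' : C.card ≤ m * 2 ^ (2 * h) + d
      · obtain ⟨j, rfl⟩ : ∃ j, d = j + 8 * h := ⟨d - 8 * h, by omega⟩
        obtain ⟨P, p1, p2, R', p3⟩ := ht.pin
        have c1 := card_sdiff_add_card_eq_card p1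
        obtain ⟨P', q1, q2, X, β, q3, q4, q5⟩ := p3.dense
          (show 8 * h + 2 ≤ Γ.M - P.card by omega) (by omega) (by omega) (by omega)
        have c2 := card_union_le P P'
        exact ⟨P ∪ P', union_subset p1 (q1.trans sdiff_subset), by omega, X, β,
          q3.add_pins hC.1 p1 q4, q4, by omega⟩
      · have e0 : 0 < 2 ^ h := by positivity
        have e1 : m * 2 ^ h ≤ C.card / 2 ^ h := by
          rw [Nat.le_div_iff_mul_le e0, mul_assoc, ← pow_add, ← two_mul]; omega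
        have e2 : m * 2 ≤ m * 2 ^ h :=
          Nat.mul_le_mul_left _ (Nat.le_self_pow (by omega) 2)
        have e3 : C.card < (C.card / 2 ^ h + 1) * 2 ^ h := by
          rw [mul_comm]; exact Nat.lt_mul_div_succ _ e0
        have e4 : C.card / 2 ^ h * 2 ^ h ≤ C.card := Nat.div_mul_le_self _ _
        have e5 : 2 ^ h ≤ 2 ^ (64 * h) := Nat.pow_le_pow_right two_pos (by omega)
        obtain ⟨P, p1, p2, X, p3⟩ := ht.one_graph (β := C.card / 2 ^ h + 1) (by omega) hd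
          (by omega) (e3.le.trans (Nat.mul_le_mul_left _ (by omega)))
        exact ⟨P, p1, by omega, X, _, p3, by omega, by rw [add_mul]; omega⟩

end Pool.Agent.P.MP_f1a348_lc.GX
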