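import Pool.Agent.P.MP_f1a348_lc.GX.DefsP
import Pool.Agent.P.MP_f1a348_lc.GX.LibInc
import Pool.Agent.P.MP_f1a348_lc.GX.LibF
import Pool.Agent.P.MP_f1a348_lc.GX.TPNUM
import Pool.Agent.P.MP_f1a348_lc.GX.TPSIZE
import Pool.Agent.P.MP_f1a348_lc.GX.TPCOL
import Pool.Agent.P.MP_f1a348_lc.GX.TPLAB

/-! Step MPIN2. -/

set_option autoImplicit false
set_option linter.unusedSectionVars false

namespace Pool.Agent.P.MP_f1a348_lc.GX

open Pool.Agent.Lib.Helper47 Pool.Agent.P.MP_f1a348_lc.GI Pool.Agent.P.MP_f1a348_lc.TO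
variable {cx : Cx} {s s' s'' : Sta}

namespace MPIN2x

/-- the labels of the pins -/
def pinL (l : List Tm) : List (ℕ × List Tm) := l.zipIdx.map (fun e => (e.2, [e.1]))

theorem mem_pinL {l m : List Tm} {c : ℕ} : (c, m) ∈ pinL l ↔ ∃ x, l[c]? = some x ∧ m = [x] := by
  simp only [pinL, List.mem_map, Prod.mk.injEq, Prod.exists, List.mk_mem_zipIdx_iff_getElem?]
  exact ⟨fun ⟨x, _, h, e, e'⟩ => ⟨x, e ▸ h, e'.symm⟩, fun ⟨x, h, e⟩ => ⟨x, c, h, rfl, e.symm⟩⟩

theorem pinL_spec {l V : List Tm} (h : ∀ x ∈ l, x ∈ V) :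
    ∀ e ∈ pinL l, e.1 < l.length ∧ ∀ x ∈ e.2, x ∈ V := by
  rintro ⟨c, m⟩ he
  obtain ⟨x, h1, rfl⟩ := mem_pinL.1 he
  obtain ⟨h2, rfl⟩ := List.getElem?_eq_some_iff.1 h1
  exact ⟨h2, by simpa using h _ (List.getElem_mem h2)⟩

theorem pinL_len {l : List Tm} : ∀ e ∈ pinL l, e.2.length = 1 := by
  rintro ⟨c, m⟩ he
  obtain ⟨x, -, rfl⟩ := mem_pinL.1 he
  rfl

theorem length_pinL (l : List Tm) : (pinL l).length = l.length := by simp [pinL]

@[fun_prop] theorem pt_pinL {α : Type} [Enc α] {l : α → List Tm} (h : PT l) :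
    PT (fun a => pinL (l a)) := by unfold pinL; fun_prop

/-- the branches -/
def brs (cx : Cx) (s : Sta) (p : Tm) (l : List Tm) : List Sta :=
  (tuples cx.pad (cx.cl s true p) l).map (fun l' => s.lab (pinL l) (pinL l') l.length)

/-- the move -/
def mv (pw : ℕ × List Unit × List Unit → Bool) : Mv where
  dom cx s p := cx.cl s false p
  br cx s p l := bif (cx.cl s false p).length == (cx.cl s true p).length then
      (bif pw ((cx.cl s true p).length, l.map (fun _ => ()), cx.pad) then some (brs cx s p l)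
        else none)
    else some []

theorem wf (h : cx.WF s) {p : Tm} {l l' : List Tm} (hl : ∀ x ∈ l, x ∈ cx.cl s false p)
    (hl' : l' ∈ tuples cx.pad (cx.cl s true p) l) :
    cx.WF (s.lab (pinL l) (pinL l') l.length) := by
  obtain ⟨a1, a2⟩ := tuples_sound hl'
  refine h.lab (pinL_spec fun x hx => (Cx.mem_cl.1 (hl x hx)).1) ?_
  rw [← a1]
  exact pinL_spec fun x hx => (Cx.mem_cl.1 (a2 x hx)).1

end MPIN2x

/- dom = cl false p; br: if the lengths of cl false p and cl true p differ then some [] (cl_iso);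
guard pw; one state s.lab (labels i on [l_i]) (labels i on [l'_i]) (length l) for each l' in
tuples pad (cl true p) l. The witness f gives l' = l.map f (f is injective on the vertices). -/
theorem mv_pin2 : HasMv RPin2 := by
  obtain ⟨pw, p1, p2⟩ := exists_powB
  refine ⟨MPIN2x.mv pw, ⟨by unfold MPIN2x.mv; fun_prop, ?_⟩, ?_, ?_⟩
  · have := p1.comp (g := fun x : Cx × Sta × Tm × List Tm =>
      ((x.1.cl x.2.1 true x.2.2.1).length, x.2.2.2.map (fun _ => ()), x.1.pad)) (by fun_prop)
    unfold MPIN2x.mv MPIN2x.brs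
    fun_prop
  · intro cx s p l L hc h hp hl e
    simp only [MPIN2x.mv] at e hl
    cases e1 : ((cx.cl s false p).length == (cx.cl s true p).length) with
    | false =>
      rw [e1] at e
      obtain rfl : [] = L := Option.some.inj e
      refine ⟨by simp, fun g ⟨f, w⟩ => ?_⟩
      rw [(h.cl_iso hc w.iso p).2] at e1
      simp at e1
    | true =>
      rw [e1, cond_true] at e
      cases e2 : pw ((cx.cl s true p).length, l.map (fun _ => ()), cx.pad) with
      | false => rw [e2] at e; cases e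
      | true =>
        rw [e2] at e
        obtain rfl : MPIN2x.brs cx s p l = L := Option.some.inj e
        have e3 := (p2 _ _ _).1 e2
        rw [List.length_map] at e3
        refine ⟨fun s' hs => ?_, fun g ⟨f, w⟩ => ?_⟩
        · obtain ⟨l', h1, rfl⟩ := List.mem_map.1 hs
          exact ⟨(MPIN2x.wf h hl h1).toWF0, fun _ a => a⟩
        · refine ⟨_, List.mem_map_of_mem (a := l.map f) (tuples_complete e3 (by simp) fun x hx => ?_),
            f, h.toWF0.lab_wit.2 ⟨w, fun c m hm => ?_⟩⟩
          · obtain ⟨y, hy, rfl⟩ := List.mem_map.1 hx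
            exact (h.cl_iso hc w.iso p).1.mapsTo (hl y hy)
          · rw [MPIN2x.mem_pinL, MPIN2x.mem_pinL]
            constructor
            · rintro ⟨x, a, rfl⟩
              exact ⟨f x, by simp [a], rfl⟩
            · rintro ⟨y, a, b⟩
              rw [List.getElem?_map] at a
              obtain ⟨x, a1, rfl⟩ := Option.map_eq_some_iff.1 a
              obtain ⟨z, rfl, b1⟩ := List.map_eq_singleton_iff.1 b
              have hx : x ∈ s.A.1 := (Cx.mem_cl.1 (hl x (List.mem_of_getElem? a1))).1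
              exact ⟨x, a1, by rw [w.iso.bij.injOn (hm z (by simp)) hx b1]⟩
  · rintro cx W φ φ' s hc hφ h hz ⟨p, Q, hp, hQ, hc1, hW⟩
    have hp' : p ∈ s.A.1 := List.mem_toFinset.1 hp
    obtain ⟨v1, v2⟩ := h.cl_view hc hp'
    have hl : ∀ x ∈ Q.toList, x ∈ cx.cl s false p := fun x hx =>
      List.mem_toFinset.1 (v1 ▸ hQ (Finset.mem_toList.1 hx))
    have n1 := hc.nums
    have n2 := hc.lam
    have n3 : (cx.cl s false p).length ≤ 2 ^ cx.lam := (Cx.cl_sub false p).length_le.trans h.ca
    have n4 : Q.card ≤ 2 ^ cx.lam := (Finset.card_le_card hQ).trans (v2 ▸ n3)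
    have n5 : 2 ^ cx.lam ≤ cx.pd := (Nat.pow_le_pow_right (by norm_num) (by omega)).trans n1.1
    rw [← v2] at hc1 hW
    have n6 : (cx.cl s false p).length ^ Q.card ≤ cx.pd := by
      refine (Nat.pow_le_pow_left (lt_two_pow_bl _).le _).trans (le_trans ?_ hz.f)
      rw [← pow_mul]
      refine Nat.pow_le_pow_right (by norm_num) ?_
      have : 2 * Q.card * bl (cx.cl s false p).length =
        2 * (bl (cx.cl s false p).length * Q.card) := by ring
      omega
    have n7 := bl_pow (cx.cl s false p).length Q.card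
    have n8 : cx.P.g = 16 * (cx.lam + 1) := rfl
    have key : ∀ L : List Sta, (MPIN2x.mv pw).br cx s p Q.toList = some L →
        L.length ≤ (cx.cl s false p).length ^ Q.card →
        (∀ s' ∈ L, s' ∈ MPIN2x.brs cx s p Q.toList) → ∃ p ∈ s.A.1, ∃ l L c,
          l.length ≤ 2 ^ cx.lam ∧ (∀ x ∈ l, x ∈ (MPIN2x.mv pw).dom cx s p) ∧
          (∀ x ∈ (MPIN2x.mv pw).dom cx s p, x ∈ s.A.1) ∧
          ((MPIN2x.mv pw).dom cx s p).length ^ l.length ≤ cx.pd ∧
          (MPIN2x.mv pw).br cx s p l = some L ∧ L.length ≤ cx.pd ∧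
          10 * cx.lam + 26 + bl (((MPIN2x.mv pw).dom cx s p).length ^ l.length) + bl L.length ≤ c ∧
          c ≤ φ ∧ ∀ s' ∈ L, cx.Grow s s' ∧ W (φ - c) (cx.view s') := by
      intro L e1 e2 e3
      refine ⟨p, hp', Q.toList, L, _, by simpa using n4, hl, fun x hx => (Cx.mem_cl.1 hx).1,
        by simpa [MPIN2x.mv] using n6, e1, e2.trans n6, ?_, hc1, fun s' hs => ?_⟩
      · have := bl_mono e2
        have e4 : 2 * Q.card * bl (cx.cl s false p).length =
          2 * (Q.card * bl (cx.cl s false p).length) := by ring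
        simp only [MPIN2x.mv, Finset.length_toList]
        omega
      · obtain ⟨l', h1, rfl⟩ := List.mem_map.1 (e3 s' hs)
        have a1 := (tuples_sound h1).1
        have a2 : 1 ≤ cx.pd := Nat.one_le_two_pow.trans n5
        have a3 : cx.pd ≤ cx.pd ^ 2 := Nat.le_self_pow (by norm_num) _
        refine ⟨(Cx.lab_gro (K := Q.card) (by simp [MPIN2x.length_pinL])
          (by simp [MPIN2x.length_pinL, a1]) (by simp)
          (fun e he => by rw [MPIN2x.pinL_len e he]; exact a2)
          (fun e he => by rw [MPIN2x.pinL_len e he]; exact a2)).mono (Nat.zero_le _) (Nat.zero_le _)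
          (by omega) Nat.one_le_two_pow,
          hW _ (MPIN2x.wf h hl h1).view_ok (h.toWF0.lab_mono hc _ _ _) rfl rfl ?_⟩
        rintro x hx y ⟨f, f1, rfl⟩
        obtain ⟨i, hi⟩ := List.getElem?_of_mem (Finset.mem_toList.2 hx)
        obtain ⟨z, z1, z2⟩ := MPIN2x.mem_pinL.1 ((h.toWF0.lab_rel f1 (l := [x]) (by simp)
          (by simp; omega) i).1 (MPIN2x.mem_pinL.2 ⟨x, hi, rfl⟩))
        rw [hi] at z1
        obtain rfl := Option.some.inj z1
        simpa using z2
    cases e1 : ((cx.cl s false p).length == (cx.cl s true p).length) with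
    | false => exact key [] (by simp only [MPIN2x.mv, e1, cond_false]) (Nat.zero_le _) (by simp)
    | true =>
      have e2 : (cx.cl s false p).length = (cx.cl s true p).length := by simpa using e1
      have e3 : pw ((cx.cl s true p).length, Q.toList.map (fun _ => ()), cx.pad) = true :=
        (p2 _ _ _).2 (by rw [← e2, List.length_map, Finset.length_toList]; exact n6)
      refine key (MPIN2x.brs cx s p Q.toList) (by simp only [MPIN2x.mv, e1, e3, cond_true]) ?_
        (fun _ a => a)
      rw [MPIN2x.brs, List.length_map, e2]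
      simpa using length_tuples_le cx.pad (cx.cl s true p) Q.toList

end Pool.Agent.P.MP_f1a348_lc.GX
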