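import Pool.Agent.P.MP_f1a348_lc.GX.DefsP
import Pool.Agent.P.MP_f1a348_lc.GX.LibInc
import Pool.Agent.P.MP_f1a348_lc.GX.LibF
import Pool.Agent.P.MP_f1a348_lc.GX.TPNUM
import Pool.Agent.P.MP_f1a348_lc.GX.TPSIZE
import Pool.Agent.P.MP_f1a348_lc.GX.TPCOL
import Pool.Agent.P.MP_f1a348_lc.GX.TPLAB
import Pool.Agent.P.MP_f1a348_lc.GX.TPREAL
import Pool.Agent.P.MP_f1a348_lc.GX.TVORB
import Pool.Agent.P.MP_f1a348_lc.GX.LibCell

/-! Step MREDE. -/

set_option autoImplicit false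
set_option linter.unusedSectionVars false

namespace Pool.Agent.P.MP_f1a348_lc.GX

open Pool.Agent.Lib.Helper47 Pool.Agent.P.MP_f1a348_lc.GI Pool.Agent.P.MP_f1a348_lc.TO
variable {cx : Cx} {s s' s'' : Sta}

namespace RedE

/-- the components -/
noncomputable def cmpF (C : List Tm) (R : List (Tm × Tm)) (x : Tm) : List Tm :=
  exists_cmp.choose (C, R, x)

@[fun_prop] theorem pt_cmpF {α : Type} [Enc α] {C : α → List Tm} {R : α → List (Tm × Tm)}
    {x : α → Tm} (h1 : PT C) (h2 : PT R) (h3 : PT x) : PT fun a => cmpF (C a) (R a) (x a) :=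
  exists_cmp.choose_spec.1.comp (PT.prodMk h1 (PT.prodMk h2 h3))

theorem mem_cmpF {C : List Tm} {R : List (Tm × Tm)} {x : Tm} (h : x ∈ C) (y : Tm) :
    y ∈ cmpF C R x ↔ Relation.EqvGen (fun a b => a ∈ C ∧ b ∈ C ∧ (a, b) ∈ R) x y :=
  (exists_cmp.choose_spec.2 C R x).2 h y

/-- the test for equality -/
def eqb {κ : Type} [DecidableEq κ] (a b : κ) : Bool := a == b

@[fun_prop] theorem pt_eqb {α κ : Type} [Enc α] [Enc κ] [DecidableEq κ] {f g : α → κ} (h1 : PT f)
    (h2 : PT g) : PT fun a => eqb (f a) (g a) := PT.beq h1 h2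

theorem meet_snd {pad : List Unit} {base : List ℕ} {c c' : U × List U} {O : List Tm}
    {d : FP Tm × List (FP Tm)} (h : meet pad base c O d = some c') :
    c'.2 = meetG pad base c.2 O d.2 := by
  obtain ⟨g, -, rfl⟩ := Option.map_eq_some_iff.1 h
  rfl

variable (cx s) (p z z' : Tm)

/-- the edges of the colour of `(z, z')` on the side `b` -/
def edg (b : Bool) : List (Tm × Tm) :=
  (prodL (cx.cl s b z) (cx.cl s b z)).filter
    fun e => cx.col s b [e.1, e.2] == cx.col s false [z, z']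

/-- the name of the cell of `u` -/
noncomputable def cell (b : Bool) (u : Tm) : ℕ × Tm :=
  (cx.col s b [u], bif (cx.cl s b z).contains u then
    Tm.st (cmpF (cx.cl s b z) (edg cx s z z' b) u) else Tm.st [])

/-- the orbit on the second side -/
noncomputable def ob' : List Tm := (cx.ob s p).map fun x => s.σ • x

/-- the cells of the first side -/
noncomputable def cells : List (ℕ × Tm) := srt ((cx.ob s p).map (cell cx s z z' false)).toFinset

/-- the bijections that keep colours and cells -/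
noncomputable def cos : FP Tm × List (FP Tm) :=
  incC (cx.ob s p) (ob' cx s p) (fun u => [cell cx s z z' false u])
    (fun u => [cell cx s z z' true u]) (cells cx s p z z')
    (srt ((ob' cx s p).map (cell cx s z z' true)).toFinset) Prod.fst Prod.fst

/-- the block of `x` -/
noncomputable def blk (x : Tm) : Tm :=
  Tm.st ((cx.ob s p).filter fun a => eqb (cell cx s z z' false a) (cell cx s z z' false x))

/-- the new state -/
noncomputable def nxt (c : U × List U) : Sta :=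
  ((s.cos c).real ((cx.cl s false z).map (blk cx s p z z'))).lab
    ((cx.cl s false z).map fun x => (0, [x, blk cx s p z z' x]))
    ((cx.cl s false z).map fun x => (0, [c.1 • x, c.1 • blk cx s p z z' x])) 1

/-- the guards -/
noncomputable def grd : Bool :=
  s.D.contains p && giantB cx.pad cx.base s.S (cx.ob s p) &&
    (cx.cl s false z).all fun x => (cx.ob s p).contains x

/-- the branches -/
noncomputable def br : Option (List Sta) :=
  bif grd cx s p z then
    some ((meet cx.pad cx.base s.c (cx.ob s p) (cos cx s p z z')).toList.map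
      (nxt cx s p z z'))
  else none

section pt
variable {α : Type} [Enc α] {c : α → Cx} {t : α → Sta} {p z z' u : α → Tm} {b : α → Bool}

@[fun_prop] theorem pt_edg (h1 : PT c) (h2 : PT t) (h3 : PT z) (h4 : PT z') (h5 : PT b) :
    PT fun a => edg (c a) (t a) (z a) (z' a) (b a) := by unfold edg; fun_prop

@[fun_prop] theorem pt_cell (h1 : PT c) (h2 : PT t) (h3 : PT z) (h4 : PT z') (h5 : PT b)
    (h6 : PT u) : PT fun a => cell (c a) (t a) (z a) (z' a) (b a) (u a) := by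
  unfold cell; fun_prop

@[fun_prop] theorem pt_ob' (h1 : PT c) (h2 : PT t) (h3 : PT p) :
    PT fun a => ob' (c a) (t a) (p a) := by unfold ob'; fun_prop

@[fun_prop] theorem pt_cos (h1 : PT c) (h2 : PT t) (h0 : PT p) (h3 : PT z) (h4 : PT z') :
    PT fun a => cos (c a) (t a) (p a) (z a) (z' a) := by unfold cos cells; fun_prop

@[fun_prop] theorem pt_blk (h1 : PT c) (h2 : PT t) (h0 : PT p) (h3 : PT z) (h4 : PT z')
    (h6 : PT u) : PT fun a => blk (c a) (t a) (p a) (z a) (z' a) (u a) := by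
  unfold blk; fun_prop

@[fun_prop] theorem pt_nxt {d : α → U × List U} (h1 : PT c) (h2 : PT t) (h0 : PT p) (h3 : PT z)
    (h4 : PT z') (h6 : PT d) : PT fun a => nxt (c a) (t a) (p a) (z a) (z' a) (d a) := by
  unfold nxt; fun_prop

@[fun_prop] theorem pt_br (h1 : PT c) (h2 : PT t) (h0 : PT p) (h3 : PT z) (h4 : PT z') :
    PT fun a => br (c a) (t a) (p a) (z a) (z' a) := by unfold br grd; fun_prop
end pt

variable {cx s p z z'}

theorem eqv_map {R S : Tm → Tm → Prop} (f : Tm → Tm) (h : ∀ a b, R a b → S (f a) (f b)) {x y : Tm}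
    (e : Relation.EqvGen R x y) : Relation.EqvGen S (f x) (f y) := by
  induction e with
  | rel a b e => exact .rel _ _ (h a b e)
  | refl => exact .refl _
  | symm _ _ _ i => exact .symm _ _ i
  | trans _ _ _ _ _ i j => exact .trans _ _ _ i j

theorem nodup_srt {α : Type} [Enc α] (t : Finset α) : (srt t).Nodup := Finset.sort_nodup _ _

theorem map_inj2 {f : Tm → Tm} : ∀ {l l' : List Tm}, (∀ a ∈ l, ∀ b ∈ l', f a = f b → a = b) →
    l.map f = l'.map f → l = l'
  | [], [], _, _ => rfl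
  | [], _ :: _, _, e => by simp at e
  | _ :: _, [], _, e => by simp at e
  | a :: l, b :: l', h, e => by
    rw [List.map_cons, List.map_cons, List.cons.injEq] at e
    rw [h a (by simp) b (by simp) e.1,
      map_inj2 (fun x hx y hy => h x (by simp [hx]) y (by simp [hy])) e.2]

theorem mem_edg {b : Bool} {u v : Tm} : (u, v) ∈ edg cx s z z' b ↔
    u ∈ cx.cl s b z ∧ v ∈ cx.cl s b z ∧ cx.col s b [u, v] = cx.col s false [z, z'] := by
  simp [edg, mem_prodL, and_assoc]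

theorem cell_in {b : Bool} {x y : Tm} (hx : x ∈ cx.cl s b z) (hy : y ∈ cx.cl s b z) :
    cell cx s z z' b x = cell cx s z z' b y ↔ Relation.EqvGen
      (fun u v => u ∈ cx.cl s b z ∧ v ∈ cx.cl s b z ∧ (u, v) ∈ edg cx s z z' b) x y := by
  have e := (Cx.mem_cl.1 hx).2.trans (Cx.mem_cl.1 hy).2.symm
  simp only [cell, List.contains_iff_mem.2 hx, List.contains_iff_mem.2 hy, cond_true, Prod.mk.injEq,
    e, true_and, Tm.st_eq_iff, mem_cmpF hx, mem_cmpF hy]
  exact ⟨fun r => .symm _ _ ((r x).1 (.refl _)),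
    fun r u => ⟨fun r' => .trans _ _ _ (.symm _ _ r) r', fun r' => .trans _ _ _ r r'⟩⟩

theorem cell_out {b : Bool} {x : Tm} (hx : x ∉ cx.cl s b z) :
    cell cx s z z' b x = (cx.col s b [x], Tm.st []) := by
  have : (cx.cl s b z).contains x = false := by simpa using hx
  simp only [cell, this, cond_false]

/-- the hypotheses of the move -/
structure Hyp (cx : Cx) (s : Sta) (p z z' : Tm) : Prop where
  ok : cx.Ok
  wf : cx.WF s
  hz : z ∈ s.A.1
  hz' : z' ∈ s.A.1
  hp : p ∈ s.D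
  gi : Giant (gen s.S) (cx.ob s p).toFinset
  sub : ∀ x ∈ cx.cl s false z, x ∈ cx.ob s p

theorem grd_iff (hc : cx.Ok) (h : cx.WF s) : grd cx s p z = true ↔ p ∈ s.D ∧
    Giant (gen s.S) (cx.ob s p).toFinset ∧ ∀ x ∈ cx.cl s false z, x ∈ cx.ob s p := by
  simp only [grd, Bool.and_eq_true, List.contains_iff_mem, List.all_eq_true, and_assoc]
  refine and_congr_right fun hp => and_congr_left fun _ => ?_
  exact giantB_iff (h.toWF0.faith hc) fun x hx => h.idx hc le_rfl ((h.ob_view hc hp).1.subset hx)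

namespace Hyp
variable (H : Hyp cx s p z z')
include H

theorem obD {x : Tm} (hx : x ∈ cx.ob s p) : x ∈ s.D := (H.wf.ob_view H.ok H.hp).1.subset hx

theorem obA {x : Tm} (hx : x ∈ cx.ob s p) : x ∈ s.A.1 := H.wf.toWF0.dA (H.obD hx)

theorem mem_cls {x : Tm} : x ∈ (cx.view s).Γ.cls z ↔ x ∈ cx.cl s false z := by
  rw [← (H.wf.cl_view H.ok H.hz).1, List.mem_toFinset]

theorem eqv {x y : Tm} (hx : x ∈ cx.cl s false z) (hy : y ∈ cx.cl s false z) :
    cell cx s z z' false x = cell cx s z z' false y ↔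
      Relation.EqvGen ((cx.view s).Γ.Rel ((cx.view s).Γ.cls z) [(z, z')]) x y := by
  rw [cell_in hx hy]
  refine iff_of_eq (congrArg (fun R => Relation.EqvGen R x y) (funext fun u => funext fun v =>
    propext ?_))
  simp only [Sy.Rel, H.mem_cls, mem_edg, List.mem_singleton, exists_eq_left]
  refine and_congr_right fun hu => and_congr_right fun hv => ?_
  rw [← H.wf.col_E2 H.ok H.hz H.hz' (H.obA (H.sub u hu)) (H.obA (H.sub v hv))]
  exact ⟨fun r => r.2.2.symm, fun r => ⟨hu, hv, r.symm⟩⟩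

theorem mem_cells {v : ℕ × Tm} : v ∈ cells cx s p z z' ↔
    ∃ x ∈ cx.ob s p, cell cx s z z' false x = v := by simp [cells, mem_srt]

theorem sym : Sym (cx.ob s p) (fun u => [cell cx s z z' false u]) (cells cx s p z z')
    Prod.fst := by
  have hz : z ∈ (cx.view s).Γ.D := List.mem_toFinset.2 H.hz
  refine Sy.sym_blocks (Γ := (cx.view s).Γ) (le_trans (by norm_num) H.ok.nums.2.2.2.2.2.1)
    (Sy.cls_cls hz) [(z, z')] (H.wf.ob_view H.ok H.hp).2.1 (fun x hx => H.sub x (H.mem_cls.1 hx))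
    (fun v hv => H.mem_cells.1 hv)
    (fun x hx y hy e => (H.wf.col_E1 H.ok (H.obA hx) (H.obA hy)).1 e)
    (fun x hx y hy => H.eqv (H.mem_cls.1 hx) (H.mem_cls.1 hy)) (fun x hx y hy h1 e => ?_)
  have h2 : y ∉ (cx.view s).Γ.cls z := fun r => h1 ((Sy.cls_cls hz).2.1.2 _ _ e.symm r)
  rw [cell_out (mt H.mem_cls.2 h1), cell_out (mt H.mem_cls.2 h2),
    (H.wf.col_E1 H.ok (H.obA hx) (H.obA hy)).2 e]

theorem olen : (cx.ob s p).length ≤ 2 ^ cx.lam :=
  (H.wf.ob_view H.ok H.hp).1.length_le.trans H.wf.dlen.1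

theorem opad : (cx.ob s p).length ≤ cx.pad.length :=
  H.olen.trans ((pow_one _).symm.le.trans
    (H.ok.pow le_rfl (le_trans (by norm_num : 1 ≤ 8) H.ok.nums.2.2.2.2.2.1)))

theorem idx : Idx (indBy (gen s.S) (cx.ob s p) (H.wf.ob_view H.ok H.hp).2.2.1)
    (gen (cos cx s p z z').2) cx.pad.length :=
  (idx_of_giant _ (incT_inv (H.wf.ob_view H.ok H.hp).2.1 H.sym) H.gi).mono le_rfl
    (le_trans (Nat.le_self_pow (by norm_num) 2) H.ok.nums.2.1)

theorem meet_eq : cs (meet cx.pad cx.base s.c (cx.ob s p) (cos cx s p z z')) =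
    {g | g ∈ cs (some s.c) ∧ ∃ π ∈ cs (some (cos cx s p z z')), ∀ x ∈ cx.ob s p, g • x = π • x} :=
  meet_cs (H.wf.toWF0.faith H.ok) (H.wf.ob_view H.ok H.hp).2.2.1 H.opad H.idx

/-- the needed elements survive -/
theorem tgt {g : U} {f : Tm → Tm} (w : s.Wit g f) :
    g ∈ cs (meet cx.pad cx.base s.c (cx.ob s p) (cos cx s p z z')) := by
  have hO := H.wf.ob_view H.ok H.hp
  have hg : s.σ⁻¹ * g ∈ gen s.S := mem_cs.1 w.sol.1
  have c1 : ∀ x ∈ s.A.1, cx.col s true [f x] = cx.col s false [x] := fun x hx =>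
    H.wf.col_iso H.ok w.iso (l := [x]) (by simpa using hx) (by simp)
  have c2 : ∀ x ∈ s.A.1, f x ∈ cx.cl s true z ↔ x ∈ cx.cl s false z := fun x hx => by
    rw [Cx.mem_cl, Cx.mem_cl, c1 x hx]
    exact and_congr_left fun _ => ⟨fun _ => hx, fun _ => w.iso.bij.mapsTo hx⟩
  have c3 : ∀ u ∈ s.A.1, ∀ v ∈ s.A.1, (f u, f v) ∈ edg cx s z z' true ↔
      (u, v) ∈ edg cx s z z' false := fun u hu v hv => by
    rw [mem_edg, mem_edg, c2 u hu, c2 v hv,
      ← H.wf.col_iso H.ok w.iso (l := [u, v]) (by simp [hu, hv]) (by simp)]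
    rfl
  have hb := (H.wf.cl_iso H.ok w.iso z).1
  have hA : ∀ x ∈ cx.cl s false z, x ∈ s.A.1 := fun x hx => H.obA (H.sub x hx)
  rw [H.meet_eq]
  refine ⟨w.sol.1, ?_⟩
  obtain ⟨π, h1, h2⟩ := incC_cells (A := cx.ob s p) (B := ob' cx s p)
    (ba := cell cx s z z' false) (bb := cell cx s z z' true) (C := cells cx s p z z')
    (D := srt ((ob' cx s p).map (cell cx s z z' true)).toFinset) (c := Prod.fst) (d := Prod.fst)
    hO.2.1 (hO.2.1.map (MulAction.injective s.σ)) (nodup_srt _) (nodup_srt _)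
    (by simp [ob']) (fun v => H.mem_cells) (fun v => by simp only [mem_srt, List.mem_toFinset,
      List.mem_map]) H.sym (f := fun x => g • x) (fun a _ b _ e => MulAction.injective g e)
    (fun a ha => ⟨List.mem_map.2 ⟨_, hO.2.2.1 _ hg a ha, by simp [mul_smul]⟩, by
      rw [← w.eq a (H.obD ha)]; exact c1 a (H.obA ha)⟩) (fun x hx y hy => by
      rw [← w.eq x (H.obD hx), ← w.eq y (H.obD hy)]
      by_cases e : cx.col s false [x] = cx.col s false [y]
      swap
      · exact iff_of_false (fun r => e (by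
          rw [← c1 x (H.obA hx), ← c1 y (H.obA hy)]; exact congrArg Prod.fst r))
          (fun r => e (congrArg Prod.fst r))
      by_cases h1 : x ∈ cx.cl s false z
      · have h2 : y ∈ cx.cl s false z := Cx.mem_cl.2 ⟨H.obA hy, e ▸ (Cx.mem_cl.1 h1).2⟩
        rw [cell_in (hb.mapsTo h1) (hb.mapsTo h2), cell_in h1 h2]
        refine ⟨fun r => ?_, eqv_map f fun a b r => ⟨hb.mapsTo r.1, hb.mapsTo r.2.1,
          (c3 a (hA a r.1) b (hA b r.2.1)).2 r.2.2⟩⟩
        have hi := hb.invOn_invFunOn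
        have hm := hb.surjOn.mapsTo_invFunOn
        have := eqv_map (S := fun u v => u ∈ cx.cl s false z ∧ v ∈ cx.cl s false z ∧
            (u, v) ∈ edg cx s z z' false) (Function.invFunOn f {x | x ∈ cx.cl s false z})
          (fun a b r => ⟨hm r.1, hm r.2.1, by
            rw [← c3 _ (hA _ (hm r.1)) _ (hA _ (hm r.2.1)), hi.2 r.1, hi.2 r.2.1]
            exact r.2.2⟩) r
        rwa [hi.1 h1, hi.1 h2] at this
      · have h2 : y ∉ cx.cl s false z := fun r =>
          h1 (Cx.mem_cl.2 ⟨H.obA hx, e.symm ▸ (Cx.mem_cl.1 r).2⟩)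
        rw [cell_out h1, cell_out h2, cell_out (mt (c2 x (H.obA hx)).1 h1),
          cell_out (mt (c2 y (H.obA hy)).1 h2), c1 x (H.obA hx), c1 y (H.obA hy)])
  exact ⟨π, h1, fun x hx => (h2 x hx).symm⟩

variable {c : U × List U} (hm : meet cx.pad cx.base s.c (cx.ob s p) (cos cx s p z z') = some c)
include hm

theorem base : c.1 ∈ cs (some s.c) ∧ gen c.2 ≤ gen s.S ∧ c.2.length ≤ cx.pd := by
  have h1 := self_mem_cs c.1 c.2
  rw [← hm, H.meet_eq] at h1
  exact ⟨h1.1, (meet_inv (W := ⊤) ⟨trivial, fun _ _ => trivial⟩ hm).2⟩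

theorem grp {h : U} (hh : h ∈ gen c.2) : ∀ x ∈ cx.ob s p, h • x ∈ cx.ob s p ∧
    cx.col s false [h • x] = cx.col s false [x] ∧
    h • blk cx s p z z' x = blk cx s p z z' (h • x) := by
  have hO := H.wf.ob_view H.ok H.hp
  rw [meet_snd hm] at hh
  obtain ⟨h1, π, h2, h3⟩ := (mem_meetG (H.wf.toWF0.faith H.ok) hO.2.2.1 H.opad H.idx).1 hh
  have h4 := incT_le hO.2.1 H.sym h2
  have hb : ∀ x ∈ cx.ob s p, cell cx s z z' false x ∈ cells cx s p z z' :=
    fun x hx => H.mem_cells.2 ⟨x, hx, rfl⟩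
  intro x hx
  refine ⟨hO.2.2.1 h h1 x hx, ?_, smul_cell hb h4 h3 hx⟩
  rw [h3 x hx]
  exact ((indGrp_cells hb h4).1 x hx).2

theorem grpA {h : U} (hh : h ∈ gen c.2) {x : Tm} (hx : x ∈ cx.cl s false z) :
    h • x ∈ cx.cl s false z := by
  obtain ⟨h1, h2, -⟩ := H.grp hm hh x (H.sub x hx)
  exact Cx.mem_cl.2 ⟨H.obA h1, h2.trans (Cx.mem_cl.1 hx).2⟩

theorem wf1 : cx.WF0 (s.cos c) := H.wf.toWF0.cos (H.base hm).1 (H.base hm).2.1 (H.base hm).2.2

theorem ab : ∀ x ∈ (cx.cl s false z).map (blk cx s p z z'), Tm.AB cx.n x := by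
  intro x hx
  obtain ⟨y, -, rfl⟩ := List.mem_map.1 hx
  exact Tm.ab_st.2 fun u hu => H.wf.ab u (H.obD (List.mem_filter.1 hu).1)

theorem inv : InvL (gen (s.cos c).S) ((s.cos c).D ++ (cx.cl s false z).map (blk cx s p z z')) := by
  intro h hh x hx
  rcases List.mem_append.1 hx with hx | hx
  · exact List.mem_append_left _ ((H.wf1 hm).inv h hh x hx)
  · obtain ⟨y, hy, rfl⟩ := List.mem_map.1 hx
    rw [(H.grp hm hh y (H.sub y hy)).2.2]
    exact List.mem_append_right _ (List.mem_map_of_mem (H.grpA hm hh hy))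

theorem wf2 : cx.WF0 ((s.cos c).real ((cx.cl s false z).map (blk cx s p z z'))) :=
  (H.wf1 hm).real (H.ab hm) (H.inv hm)

theorem inD {x : Tm} (hx : x ∈ cx.cl s false z) :
    x ∈ ((s.cos c).real ((cx.cl s false z).map (blk cx s p z z'))).D ∧ blk cx s p z z' x ∈
      ((s.cos c).real ((cx.cl s false z).map (blk cx s p z z'))).D :=
  ⟨Sta.mem_real.1.2 (Or.inl (H.obD (H.sub x hx))),
    Sta.mem_real.1.2 (Or.inr (List.mem_map_of_mem hx))⟩

theorem wf3 : cx.WF0 (nxt cx s p z z' c) := by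
  refine (H.wf2 hm).lab (fun e he => ?_) (fun e he => ?_) <;>
    obtain ⟨x, hx, rfl⟩ := List.mem_map.1 he
  · exact ⟨one_pos, by simp [(H.wf2 hm).dA (H.inD hm hx).1, (H.wf2 hm).dA (H.inD hm hx).2]⟩
  · exact ⟨one_pos, List.forall_mem_cons.2 ⟨(H.wf2 hm).b.real _ (H.inD hm hx).1,
      List.forall_mem_cons.2 ⟨(H.wf2 hm).b.real _ (H.inD hm hx).2, by simp⟩⟩⟩

theorem wit {g : U} {f : Tm → Tm} (w : s.Wit g f) : g ∈ (nxt cx s p z z' c).Tgt := by
  have hg : g ∈ cs (some c) := hm ▸ H.tgt w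
  have w1 : (s.cos c).Wit g f := (Sta.cos_wit (cs_sub (H.base hm).1 (H.base hm).2.1)).2 ⟨w, hg⟩
  obtain ⟨f', w2, -⟩ := (H.wf1 hm).real_wit (H.ab hm) (H.inv hm) w1
  have hh : c.1⁻¹ * g ∈ gen c.2 := mem_cs.1 hg
  refine ⟨f', (H.wf2 hm).lab_wit.2 ⟨w2, fun k l hl => ⟨fun r => ?_, fun r => ?_⟩⟩⟩
  · obtain ⟨x, hx, e⟩ := List.mem_map.1 r
    obtain ⟨rfl, rfl⟩ := Prod.mk.inj e
    refine List.mem_map.2 ⟨_, H.grpA hm hh hx, ?_⟩
    rw [← (H.grp hm hh x (H.sub x hx)).2.2]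
    simp [mul_smul, w2.eq _ (H.inD hm hx).1, w2.eq _ (H.inD hm hx).2]
  · obtain ⟨y, hy, e⟩ := List.mem_map.1 r
    obtain ⟨rfl, e0⟩ := Prod.mk.inj e
    have hx := H.grpA hm (inv_mem hh) hy
    have e1 := (H.grp hm (inv_mem hh) y (H.sub y hy)).2.2
    refine List.mem_map.2 ⟨_, hx, congrArg _ ?_⟩
    have e2 : l.map f' = [(c.1⁻¹ * g)⁻¹ • y, blk cx s p z z' ((c.1⁻¹ * g)⁻¹ • y)].map f' := by
      rw [← e0, List.map_cons, List.map_cons, w2.eq _ (H.inD hm hx).1, w2.eq _ (H.inD hm hx).2, ← e1]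
      simp [mul_smul]
    refine (map_inj2 (fun a ha b hb r => w2.iso.bij.injOn (hl a ha) ?_ r) e2).symm
    rcases List.mem_cons.1 hb with rfl | hb
    · exact (H.wf2 hm).dA (H.inD hm hx).1
    · rw [List.mem_singleton.1 hb]
      exact (H.wf2 hm).dA (H.inD hm hx).2

theorem alen : (cx.cl s false z).length ≤ 2 ^ cx.lam := (Cx.cl_sub false z).length_le.trans H.wf.ca

theorem grow (hn : (cx.cl s false z).length ≤ cx.n) : cx.Grow s (nxt cx s p z z' c) := by
  have w1 : cx.WF (s.cos c) := ⟨H.wf1 hm, H.wf.ca, H.wf.cb⟩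
  have g1 : cx.Gro s (s.cos c) 0 0 0 1 := Cx.Gro.of_eq rfl rfl rfl
  have g2 := w1.real_gro H.ok (V := (cx.cl s false z).map (blk cx s p z z'))
    (m := 2 ^ (cx.lam + 1)) Nat.one_le_two_pow (fun w hw h x hx => by
      obtain ⟨y, -, rfl⟩ := List.mem_map.1 hx
      have h1 := Tm.wt_st_le' (l := (cx.ob s p).filter fun a =>
        eqb (cell cx s z z' false a) (cell cx s z z' false y)) (B := w)
        fun u hu => h u (H.obA (List.mem_filter.1 hu).1)
      have h2 := Nat.mul_le_mul_right w ((List.length_filter_le (fun a =>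
        eqb (cell cx s z z' false a) (cell cx s z z' false y)) _).trans H.olen)
      have h3 : w ≤ 2 ^ cx.lam * w := Nat.le_mul_of_pos_left _ (Nat.two_pow_pos _)
      rw [pow_succ]
      refine h1.trans ?_
      nlinarith)
  have g3 : cx.Gro ((s.cos c).real ((cx.cl s false z).map (blk cx s p z z')))
      (nxt cx s p z z' c) 0 0 (2 ^ cx.lam) 1 := by
    have hp : 2 ≤ cx.pd := le_trans (Nat.le_self_pow (by norm_num) 2) H.ok.nums.2.1
    refine Cx.lab_gro (by simpa using H.alen hm) (by simpa using H.alen hm) Nat.one_le_two_pow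
      (fun e he => ?_) (fun e he => ?_) <;> obtain ⟨x, -, rfl⟩ := List.mem_map.1 he <;> exact hp
  refine ((g1.trans le_rfl g2).trans (by simpa using Nat.one_le_two_pow) g3).mono
    (by simpa using hn) (by simpa using hn.trans H.ok.nb) ?_ (by simp)
  have h1 : 2 ^ cx.lam ≤ cx.pd := (pow_one _).symm.le.trans
    (H.ok.pow le_rfl (le_trans (by norm_num : 1 ≤ 8) H.ok.nums.2.2.2.2.2.1))
  have h2 : 4 ≤ cx.pd := le_trans (by norm_num) ((Nat.pow_le_pow_right (by norm_num)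
    (by norm_num : 2 ≤ 512)).trans H.ok.nums.2.1)
  nlinarith

theorem mono : (cx.view s).Mono (cx.view (nxt cx s p z z' c)) :=
  ((Cx.cos_mono (H.base hm).2.1).trans ((H.wf1 hm).real_mono H.ok _)).trans
    ((H.wf2 hm).lab_mono H.ok _ _ _)

theorem nw : (cx.view (nxt cx s p z z' c)).Nw ((cx.view s).Γ.cls z) (blk cx s p z z') := by
  refine ⟨fun x hx => List.mem_toFinset.2 (H.inD hm (H.mem_cls.1 hx)).2, fun h hh x hx =>
    ⟨H.mem_cls.2 (H.grpA hm hh (H.mem_cls.1 hx)),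
      (H.grp hm hh x (H.sub x (H.mem_cls.1 hx))).2.2.symm⟩, ?_⟩
  have := (H.wf2 hm).lab_inv2 H.ok (Lx := (cx.cl s false z).map fun x => (0, [x, blk cx s p z z' x]))
    (Ly := (cx.cl s false z).map fun x => (0, [c.1 • x, c.1 • blk cx s p z z' x])) (k := 1) 0
    (fun e he => by
      obtain ⟨x, hx, rfl⟩ := List.mem_map.1 he
      simp [(H.wf2 hm).dA (H.inD hm hx).1, (H.wf2 hm).dA (H.inD hm hx).2])
  have e : (fun x y => x ∈ (cx.view s).Γ.cls z ∧ y = blk cx s p z z' x) = fun a b =>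
      ((0 : ℕ), [a, b]) ∈ (cx.cl s false z).map fun x => ((0 : ℕ), [x, blk cx s p z z' x]) := by
    funext x y
    refine propext ?_
    rw [H.mem_cls]
    simp only [List.mem_map, Prod.mk.injEq, List.cons.injEq, true_and, and_true]
    exact ⟨fun ⟨h1, h2⟩ => ⟨x, h1, rfl, h2.symm⟩, fun ⟨u, h1, h2, h3⟩ => h2 ▸ ⟨h1, h3.symm⟩⟩
  rw [e]
  exact this

omit hm in
theorem blk_iff {x y : Tm} (hx : x ∈ cx.ob s p) :
    blk cx s p z z' x = blk cx s p z z' y ↔ cell cx s z z' false x = cell cx s z z' false y := by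
  refine ⟨fun e => ?_, fun e => by unfold blk; rw [e]⟩
  have := (Tm.st_eq_iff.1 e x).1 (List.mem_filter.2 ⟨hx, by simp [eqb]⟩)
  simpa [eqb] using (List.mem_filter.1 this).2
end Hyp

/-- the move -/
noncomputable def mv : Mv :=
  ⟨fun _ s _ => s.A.1, fun cx s p l => br cx s p (l.headD p) (l.tail.headD p)⟩

theorem headD_mem {l A : List Tm} {p : Tm} (hp : p ∈ A) (h : ∀ x ∈ l, x ∈ A) : l.headD p ∈ A := by
  cases l with
  | nil => exact hp
  | cons a l => exact h a (by simp)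

theorem mem_br {L : List Sta} (h : br cx s p z z' = some L) : grd cx s p z = true ∧ ∀ s', s' ∈ L ↔
    ∃ c, meet cx.pad cx.base s.c (cx.ob s p) (cos cx s p z z') = some c ∧ nxt cx s p z z' c = s' := by
  unfold br at h
  cases e : grd cx s p z
  · rw [e] at h; cases h
  · rw [e, cond_true, Option.some.injEq] at h
    exact ⟨rfl, fun s' => by simp [← h]⟩

theorem sound : mv.Sound := by
  intro cx s p l L hc h hp hl e
  obtain ⟨e1, e2⟩ := mem_br e
  obtain ⟨a1, a2, a3⟩ := (grd_iff hc h).1 e1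
  have H : Hyp cx s p (l.headD p) (l.tail.headD p) := ⟨hc, h, headD_mem hp hl,
    headD_mem hp fun x hx => hl x (List.mem_of_mem_tail hx), a1, a2, a3⟩
  refine ⟨fun s' hs => ?_, fun g ⟨f, w⟩ => ?_⟩
  · obtain ⟨c, hm, rfl⟩ := (e2 s').1 hs
    exact ⟨H.wf3 hm, fun g hg =>
      ((Sta.cos_sol (cs_sub (H.base hm).1 (H.base hm).2.1)).1 hg).1⟩
  · obtain ⟨c, hm⟩ := Option.isSome_iff_exists.1 (cs_nonempty.2 ⟨_, H.tgt w⟩)
    exact ⟨_, (e2 _).2 ⟨c, hm, rfl⟩, H.wit hm w⟩

theorem wins : mv.Wins RRedE := by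
  rintro cx W φ φ' s hc hφ h hs ⟨O, A, z, z', hO, hg, hN, hA, hAO, hz, hz', hf, hW⟩
  obtain ⟨p, hp⟩ := hO.1
  have hpD : p ∈ s.D := List.mem_toFinset.1 (hO.2.1 hp)
  have eO : (cx.ob s p).toFinset = O := (h.ob_view hc hpD).2.2.2.1.trans (hO.2.2 p hp)
  have hzA : z ∈ s.A.1 := List.mem_toFinset.1 (hA.2.1.1 hz)
  have hzA' : z' ∈ s.A.1 := List.mem_toFinset.1 (hA.2.1.1 hz')
  obtain rfl : A = (cx.view s).Γ.cls z := hA.eq_cls hz
  have hsub : ∀ x ∈ cx.cl s false z, x ∈ cx.ob s p := fun x hx => by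
    rw [← List.mem_toFinset, eO]
    exact hAO ((h.cl_view hc hzA).1 ▸ List.mem_toFinset.2 hx)
  have H : Hyp cx s p z z' := ⟨hc, h, hzA, hzA', hpD, eO ▸ hg, hsub⟩
  have hn : (cx.cl s false z).length ≤ cx.n :=
    (h.cl_view hc hzA).2.le.trans ((Finset.card_le_card hAO).trans hN)
  have e0 : grd cx s p z = true := (grd_iff hc h).2 ⟨hpD, H.gi, hsub⟩
  have e1 : br cx s p z z' = some ((meet cx.pad cx.base s.c (cx.ob s p)
      (cos cx s p z z')).toList.map (nxt cx s p z z')) := by rw [br, e0, cond_true]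
  have l1 : ((meet cx.pad cx.base s.c (cx.ob s p) (cos cx s p z z')).toList.map
      (nxt cx s p z z')).length ≤ 2 ^ 0 := by
    cases meet cx.pad cx.base s.c (cx.ob s p) (cos cx s p z z') <;> simp
  have g0 : cx.P.g = 16 * (cx.lam + 1) := rfl
  refine ⟨p, h.toWF0.dA hpD, [z, z'], _, cx.P.g * 3, ?_, by simp [mv, hzA, hzA'], fun _ h => h,
    hc.pow h.ca (le_trans (by norm_num : 2 ≤ 8) hc.nums.2.2.2.2.2.1), e1,
    l1.trans (Nat.one_le_two_pow.trans hc.nums.2.1), ?_, hf, fun s' hs' => ?_⟩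
  · exact Nat.le_self_pow (by have := hc.lam; omega) 2
  · have h1 := bl_pow s.A.1.length 2
    have h2 := bl_le h.ca
    have h3 := bl_le l1
    change 10 * cx.lam + 26 + bl (s.A.1.length ^ 2) + _ ≤ _
    omega
  · obtain ⟨c, hm, rfl⟩ := ((mem_br e1).2 s').1 hs'
    have hG := H.grow hm hn
    refine ⟨hG, hW _ (blk cx s p z z') (hs.wf' hG (by omega) (H.wf3 hm)).view_ok (H.mono hm)
      (fun g hg u hu => ?_) (H.nw hm) (fun x hx y hy => ?_)⟩
    · have hu' : u ∈ cx.ob s p := by rwa [← List.mem_toFinset, eO]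
      obtain ⟨b1, b2, -⟩ := H.grp hm hg u hu'
      exact (h.col_E1 hc (H.obA hu') (H.obA b1)).1 b2.symm
    · rw [H.blk_iff (hsub x (H.mem_cls.1 hx)), H.eqv (H.mem_cls.1 hx) (H.mem_cls.1 hy)]

end RedE

theorem mv_redE : HasMv RRedE :=
  ⟨RedE.mv, ⟨by unfold RedE.mv; fun_prop, by unfold RedE.mv; fun_prop⟩, RedE.sound, RedE.wins⟩

end Pool.Agent.P.MP_f1a348_lc.GX
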