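import Pool.Agent.P.MP_f1a348_lc.GX.DefsP
import Pool.Agent.P.MP_f1a348_lc.GX.LibInc
import Pool.Agent.P.MP_f1a348_lc.GX.LibF
import Pool.Agent.P.MP_f1a348_lc.GX.TPNUM
import Pool.Agent.P.MP_f1a348_lc.GX.TPSIZE
import Pool.Agent.P.MP_f1a348_lc.GX.TPCOL
import Pool.Agent.P.MP_f1a348_lc.GX.TPLAB
import Pool.Agent.P.MP_f1a348_lc.GX.TPREAL
import Pool.Agent.P.MP_f1a348_lc.GX.TVORB
import Pool.Agent.P.MP_f1a348_lc.GX.LibCell

/-! Step MREDJ. -/

set_option autoImplicit false
set_option linter.unusedSectionVars false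

namespace Pool.Agent.P.MP_f1a348_lc.GX

open Pool.Agent.Lib.Helper47 Pool.Agent.P.MP_f1a348_lc.GI Pool.Agent.P.MP_f1a348_lc.TO
variable {cx : Cx} {s s' s'' : Sta}

namespace RJ

theorem two_le (hc : cx.Ok) : 2 ≤ cx.pd ∧ 2 ^ cx.lam ≤ cx.pd ∧ 1 ≤ cx.uM.length := by
  have n1 := hc.nums
  have k := hc.pow (k := 1) le_rfl (by omega)
  have k' : 2 ^ 1 ≤ 2 ^ cx.lam := Nat.pow_le_pow_right (by norm_num) (by have := hc.lam; omega)
  rw [pow_one] at k k'
  omega

/-- the test for `Sym` with one colour -/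
noncomputable def symB (A : List Tm) (n : Tm → List Tm) (C : List Tm) : Bool :=
  C.all fun v => C.all fun w => A.all fun a =>
    A.contains ((matchBy A A (nbK (FP.swap v w) n) (nbK 1 n)).app a) &&
      nbK 1 n ((matchBy A A (nbK (FP.swap v w) n) (nbK 1 n)).app a) == nbK (FP.swap v w) n a

theorem symB_iff {A C : List Tm} {n : Tm → List Tm} (hA : A.Nodup) :
    symB A n C = true ↔ Sym A n C (fun _ => true) := by
  simp only [symB, List.all_eq_true, Bool.and_eq_true, List.contains_iff_mem, beq_iff_eq]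
  exact ⟨fun h v hv w hw _ => ⟨_, fun _ _ _ _ e => FP.app_injective _ e,
      (ind_iff (ψ := FP.swap v w)).1 (h v hv w hw)⟩,
    fun h v hv w hw => ind_iff.2 (h.ind hA (mem_swaps.2 ⟨v, hv, w, hw, rfl, rfl⟩))⟩

variable (cx s) (p y : Tm)

/-- the neighbourhood of `x` on the side `b` -/
def nb (b : Bool) (x : Tm) : List Tm :=
  (cx.cl s b y).filter fun v => cx.col s b [x, v] == cx.col s false [p, y]

/-- the star of `v` -/
noncomputable def star (v : Tm) : Tm :=
  Tm.st ((cx.ob s p).filter fun x => (nb cx s p y false x).contains v)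

/-- the induced bijections -/
noncomputable def ind : FP Tm × List (FP Tm) :=
  incC (cx.ob s p) ((cx.ob s p).map fun x => s.σ • x) (nb cx s p y false) (nb cx s p y true)
    (cx.cl s false y) (cx.cl s true y) (fun _ => true) (fun _ => true)

/-- the guards -/
noncomputable def grd : Bool :=
  s.D.contains p && giantB cx.pad cx.base s.S (cx.ob s p) &&
    symB (cx.ob s p) (nb cx s p y false) (cx.cl s false y)

/-- the new state -/
noncomputable def nw (c : U × List U) : Sta := (s.cos c).real ((cx.cl s false y).map (star cx s p y))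

/-- the branches -/
noncomputable def br : Option (List Sta) :=
  if grd cx s p y then
    some ((meet cx.pad cx.base s.c (cx.ob s p) (ind cx s p y)).toList.map (nw cx s p y))
  else none

section pt
variable {α : Type} [Enc α] {c : α → Cx} {t : α → Sta} {p y : α → Tm}

@[fun_prop] theorem pt_symB {A C : α → List Tm} {n : α → Tm → List Tm} (h1 : PT A)
    (h2 : PT fun q : α × Tm => n q.1 q.2) (h3 : PT C) : PT fun a => symB (A a) (n a) (C a) := by
  unfold symB; fun_prop

@[fun_prop] theorem pt_nb {b : α → Bool} {x : α → Tm} (h0 : PT c) (h1 : PT t) (h2 : PT p)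
    (h3 : PT y) (h4 : PT b) (h5 : PT x) : PT fun a => nb (c a) (t a) (p a) (y a) (b a) (x a) := by
  unfold nb; fun_prop

@[fun_prop] theorem pt_star {x : α → Tm} (h0 : PT c) (h1 : PT t) (h2 : PT p)
    (h3 : PT y) (h5 : PT x) : PT fun a => star (c a) (t a) (p a) (y a) (x a) := by
  unfold star; fun_prop

@[fun_prop] theorem pt_ind (h0 : PT c) (h1 : PT t) (h2 : PT p) (h3 : PT y) :
    PT fun a => ind (c a) (t a) (p a) (y a) := by
  unfold ind; fun_prop

@[fun_prop] theorem pt_grd (h0 : PT c) (h1 : PT t) (h2 : PT p) (h3 : PT y) :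
    PT fun a => grd (c a) (t a) (p a) (y a) := by
  unfold grd; fun_prop

@[fun_prop] theorem pt_nw {d : α → U × List U} (h0 : PT c) (h1 : PT t) (h2 : PT p) (h3 : PT y)
    (h4 : PT d) : PT fun a => nw (c a) (t a) (p a) (y a) (d a) := by
  unfold nw; fun_prop

@[fun_prop] theorem pt_br (h0 : PT c) (h1 : PT t) (h2 : PT p) (h3 : PT y) :
    PT fun a => br (c a) (t a) (p a) (y a) := by
  unfold br; fun_prop
end pt

variable {cx s p y}

theorem mem_nb {b : Bool} {x v : Tm} : v ∈ nb cx s p y b x ↔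
    v ∈ cx.cl s b y ∧ cx.col s b [x, v] = cx.col s false [p, y] := by
  simp [nb]

theorem grd_iff (hc : cx.Ok) (h : cx.WF s) : grd cx s p y = true ↔ p ∈ s.D ∧
    Giant (gen s.S) (cx.ob s p).toFinset ∧
      Sym (cx.ob s p) (nb cx s p y false) (cx.cl s false y) (fun _ => true) := by
  simp only [grd, Bool.and_eq_true, List.contains_iff_mem, and_assoc]
  refine and_congr_right fun hp => ?_
  obtain ⟨o1, o2, -⟩ := h.ob_view hc hp
  rw [giantB_iff (h.toWF0.faith hc) (fun x hx => h.idx hc le_rfl (o1.subset hx)), symB_iff o2]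

/-- the reduction -/
theorem red (hc : cx.Ok) (h : cx.WF s) (hg : grd cx s p y = true) :
    (∀ g ∈ s.Tgt, g ∈ cs (meet cx.pad cx.base s.c (cx.ob s p) (ind cx s p y))) ∧
    ∀ c, meet cx.pad cx.base s.c (cx.ob s p) (ind cx s p y) = some c →
      c.1 ∈ cs (some s.c) ∧ gen c.2 ≤ gen s.S ∧ c.2.length ≤ cx.pd ∧
      ∀ u ∈ gen c.2, ∀ v ∈ cx.cl s false y, ∃ v' ∈ cx.cl s false y,
        u • star cx s p y v = star cx s p y v' := by
  obtain ⟨hp, g1, g2⟩ := (grd_iff hc h).1 hg
  obtain ⟨o1, o2, o3, -⟩ := h.ob_view hc hp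
  have hl : (cx.ob s p).length ≤ cx.pad.length := (o1.length_le.trans h.dlen.1).trans (two_le hc).2.1
  have hi : Idx (indBy (gen s.S) (cx.ob s p) o3) (gen (ind cx s p y).2) cx.pad.length :=
    (idx_of_giant o3 (incT_inv o2 g2) g1).mono le_rfl (two_le hc).1
  have hm := meet_cs (c := s.c) (h.toWF0.faith hc) o3 hl hi
  refine ⟨fun g ⟨f, w⟩ => ?_, fun c e => ?_⟩
  · rw [hm]
    refine ⟨w.sol.1, ?_⟩
    obtain ⟨b1, b2⟩ := h.cl_iso hc w.iso y
    have k0 : ∀ x ∈ cx.ob s p, g • x ∈ (cx.ob s p).map fun x => s.σ • x := fun x hx =>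
      List.mem_map.2 ⟨_, o3 _ (mem_cs.1 w.sol.1) x hx, by rw [mul_smul]; exact smul_inv_smul _ _⟩
    refine (incC_complete (ψ := f) (f := fun x => g • x) (d := fun _ => true)
      (nb := nb cx s p y true) o2 (o2.map (MulAction.injective _))
      ((cx.cl_sub false y).nodup h.a.nd) ((cx.cl_sub true y).nodup h.b.nd) (by simp) b2.le
      (fun a _ v hv => (mem_nb.1 hv).1) g2 (fun a ha b hb e => b1.injOn ha hb e)
      (fun a ha => ⟨b1.mapsTo ha, rfl⟩) (fun a _ b _ e => MulAction.injective g e)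
      (ind_of_rel (fun v hv => b1.surjOn hv) (fun a _ v hv => (mem_nb.1 hv).1)
        (fun a _ v hv => (mem_nb.1 hv).1) k0 fun a ha v hv => ?_)).imp
      fun π r => ⟨r.1, fun x hx => (r.2 x hx).symm⟩
    have k1 := h.col_iso hc w.iso (l := [a, v]) (by
      simpa using ⟨h.toWF0.dA (o1.subset ha), (cx.cl_sub false y).subset hv⟩) (by simp)
    rw [List.map_cons, List.map_singleton, w.eq a (o1.subset ha)] at k1
    rw [mem_nb, mem_nb, k1]
    exact and_congr_left' ⟨fun _ => b1.mapsTo hv, fun _ => hv⟩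
  · have k1 := self_mem_cs c.1 c.2
    rw [Prod.mk.eta, ← e, hm] at k1
    obtain ⟨g, -, rfl⟩ := Option.map_eq_some_iff.1 e
    refine ⟨k1.1, (meetG_le _ _ _ _ _).1, (meetG_le _ _ _ _ _).2, fun u hu v hv => ?_⟩
    obtain ⟨-, π, k2, k3⟩ := (mem_meetG (h.toWF0.faith hc) o3 hl hi).1 hu
    obtain ⟨v', k4, -, k5⟩ := smul_star (incT_le o2 g2 k2) k3 hv
    exact ⟨v', k4, k5⟩

theorem br_some {L : List Sta} (e : br cx s p y = some L) : grd cx s p y = true ∧
    L = (meet cx.pad cx.base s.c (cx.ob s p) (ind cx s p y)).toList.map (nw cx s p y) := by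
  unfold br at e
  split_ifs at e with hg
  exact ⟨hg, (Option.some.inj e).symm⟩

/-- the new points -/
theorem pts (hc : cx.Ok) (h : cx.WF s) (hg : grd cx s p y = true) {c : U × List U}
    (e : meet cx.pad cx.base s.c (cx.ob s p) (ind cx s p y) = some c) :
    cx.WF (s.cos c) ∧ (∀ x ∈ (cx.cl s false y).map (star cx s p y), Tm.AB cx.n x) ∧
      InvL (gen (s.cos c).S) ((s.cos c).D ++ (cx.cl s false y).map (star cx s p y)) := by
  obtain ⟨r1, r2, r3, r4⟩ := (red hc h hg).2 c e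
  obtain ⟨o1, -⟩ := h.ob_view hc ((grd_iff hc h).1 hg).1
  refine ⟨⟨h.toWF0.cos r1 r2 r3, h.ca, h.cb⟩, fun x hx => ?_, fun u hu x hx => ?_⟩
  · obtain ⟨v, -, rfl⟩ := List.mem_map.1 hx
    exact Tm.ab_st.2 fun z hz => h.ab z (o1.subset (List.mem_filter.1 hz).1)
  · rcases List.mem_append.1 hx with hx | hx
    · exact List.mem_append_left _ (h.inv u (r2 hu) x hx)
    · obtain ⟨v, hv, rfl⟩ := List.mem_map.1 hx
      obtain ⟨v', k1, k2⟩ := r4 u hu v hv
      exact List.mem_append_right _ (List.mem_map.2 ⟨v', k1, k2.symm⟩)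

end RJ

open RJ in
theorem mv_redJ : HasMv RRedJ := by
  refine ⟨⟨fun _ s _ => s.A.1, fun cx s p l => br cx s p (l.headD p)⟩,
    ⟨by fun_prop, by fun_prop⟩, fun cx s p l L hc h _ _ e => ?_, fun cx W φ φ' s hc hφ h hz hR => ?_⟩
  · obtain ⟨hg, rfl⟩ := br_some e
    obtain ⟨r1, r2⟩ := red hc h hg
    refine ⟨fun s' hs' => ?_, fun g hT => ?_⟩
    · obtain ⟨c, k, rfl⟩ := List.mem_map.1 hs'
      rw [Option.mem_toList] at k
      obtain ⟨k1, k2, k3⟩ := pts hc h hg k
      exact ⟨k1.toWF0.real k2 k3, fun g hs =>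
        ((Sta.cos_sol (cs_sub (r2 c k).1 (r2 c k).2.1)).1 hs).1⟩
    · obtain ⟨c, k⟩ := Option.isSome_iff_exists.1 (cs_nonempty.2 ⟨g, r1 g hT⟩)
      obtain ⟨k1, k2, k3⟩ := pts hc h hg k
      obtain ⟨f', w, -⟩ := k1.toWF0.real_wit k2 k3
        ((Sta.cos_wit (cs_sub (r2 c k).1 (r2 c k).2.1)).2 ⟨hT.choose_spec, k ▸ r1 g hT⟩)
      exact ⟨_, List.mem_map.2 ⟨c, Option.mem_toList.2 k, rfl⟩, f', w⟩
  · obtain ⟨O, C, p, y, e, a1, a2, -, a4, -, -, a7, a8, a9⟩ := hR
    have hp : p ∈ s.D := List.mem_toFinset.1 (a1.2.1 a4.hz)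
    have hy : y ∈ s.A.1 := List.mem_toFinset.1 (a4.cls.2.1.1 a4.hv)
    obtain ⟨o1, o2, o3, o4, -⟩ := h.ob_view hc hp
    obtain rfl : (cx.ob s p).toFinset = O := o4.trans (a1.2.2 p a4.hz)
    obtain ⟨c1, c2⟩ := h.cl_view hc hy
    rw [← a4.cls.eq_cls a4.hv] at c1 c2
    subst c1
    have hn : ∀ x ∈ cx.ob s p, ∀ v, v ∈ nb cx s p y false x ↔
        v ∈ cx.cl s false y ∧ (cx.view s).Γ.E2 p y x v := fun x hx v => by
      rw [mem_nb]
      exact and_congr_right fun hv => eq_comm.trans (h.col_E2 hc (h.toWF0.dA hp) hy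
        (h.toWF0.dA (o1.subset hx)) ((cx.cl_sub false y).subset hv))
    have hg : grd cx s p y = true := (grd_iff hc h).2 ⟨hp, a2, a4.sym _ hn⟩
    have n1 := two_le hc
    have n2 := hc.lam
    have n3 : cx.P.g = 16 * (cx.lam + 1) := rfl
    have hL : ((meet cx.pad cx.base s.c (cx.ob s p) (ind cx s p y)).toList.map
        (nw cx s p y)).length ≤ 2 ^ 0 := by
      rw [List.length_map]
      exact Option.length_toList_le
    refine ⟨p, h.toWF0.dA hp, [y], _, cx.P.g * 3, Nat.one_le_two_pow, by simpa using hy,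
      fun _ k => k, hc.pow h.ca (by simp only [List.length_singleton]; omega), if_pos hg,
      hL.trans (by omega), ?_, a8, fun s' hs' => ?_⟩
    · have k1 := bl_le h.ca
      have k2 := bl_le hL
      simp only [List.length_singleton, pow_one, List.headD_cons]
      omega
    obtain ⟨c, k, rfl⟩ := List.mem_map.1 hs'
    rw [Option.mem_toList] at k
    obtain ⟨k1, k2, k3⟩ := pts hc h hg k
    obtain ⟨r1, r2, r3, r4⟩ := (red hc h hg).2 c k
    have hlen : ((cx.cl s false y).map (star cx s p y)).length ≤ cx.n := by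
      rw [List.length_map, c2]
      exact a7
    have hG : cx.Grow s (nw cx s p y c) := by
      refine (Cx.Gro.trans (Cx.Gro.of_eq (s := s) (s' := s.cos c) rfl rfl rfl) le_rfl
        (k1.real_gro hc (V := (cx.cl s false y).map (star cx s p y)) (m := 2 ^ (cx.lam + 1))
          Nat.one_le_two_pow fun w hw k4 x hx => ?_)).mono (d' := cx.n) (v' := cx.b1)
        (k' := cx.pd ^ 2) (m' := 2 ^ (cx.lam + 1)) (by omega) (by have := hc.nb; omega)
        (by nlinarith) (by omega)
      obtain ⟨v, -, rfl⟩ := List.mem_map.1 hx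
      refine (Tm.wt_st_le' (B := w) fun z hz =>
        k4 z (h.toWF0.dA (o1.subset (List.mem_filter.1 hz).1))).trans ?_
      have k5 := Nat.mul_le_mul_right w
        (((List.length_filter_le (fun x => (nb cx s p y false x).contains v) _).trans
          o1.length_le).trans h.dlen.1)
      have k6 := Nat.mul_le_mul (Nat.one_le_two_pow (n := cx.lam)) hw
      rw [pow_succ, mul_right_comm]
      omega
    refine ⟨hG, a9 _ (star cx s p y) (hz.wf' hG (by omega) (k1.toWF0.real k2 k3)).view_ok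
      ((Cx.cos_mono r2).trans (k1.toWF0.real_mono hc _)) (fun v hv => ?_) (fun u hu v hv => ?_)
      fun u hu v hv v' hv' k4 x hx => ?_⟩
    · exact List.mem_toFinset.2 (Sta.mem_real.1.2
        (.inr (List.mem_map_of_mem (List.mem_toFinset.1 hv))))
    · obtain ⟨v', k4, k5⟩ := r4 u hu v (List.mem_toFinset.1 hv)
      exact ⟨v', List.mem_toFinset.2 k4, k5⟩
    · rw [List.mem_toFinset] at hv hv' hx
      have k5 := o3 u (r2 hu) x hx
      have k6 := Tm.mem_of_smul_st k4 x
      simp only [List.mem_filter, List.contains_iff_mem, hx, k5, true_and, hn x hx, hn _ k5, hv,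
        hv'] at k6
      exact k6

end Pool.Agent.P.MP_f1a348_lc.GX
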