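import Pool.Agent.P.MP_f1a348_lc.GX.DefsS
import Pool.Agent.P.MP_f1a348_lc.GX.TSYS
import Pool.Agent.P.MP_f1a348_lc.GX.TGOOD
import Pool.Agent.P.MP_f1a348_lc.GX.TCONN

/-! Step PEND. -/

set_option autoImplicit false
set_option linter.unusedSectionVars false

namespace Pool.Agent.P.MP_f1a348_lc.GX

open Equiv Finset
open scoped Classical
variable {Y : Type} [DecidableEq Y] {Γ Γ' : Sy Y}

namespace PENDx

theorem half (hM : 4 ≤ Γ.M) {A O : Finset Y} {b β u : ℕ} {gr : Bool} {mem ρ X : Y → Y → Prop}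
    (h : Γ.RecD A b β u gr mem ρ X O) {v z z0 y0 : Y} (hv : v ∈ Γ.D)
    (ht : ∀ w ∈ A, ∀ w' ∈ A, Γ.E2 w v w' v) {q : Y → Prop}
    (hq : ∀ y y', Γ.E2 y v y' v → (q y ↔ q y')) (hz : z ∈ A) (hz0 : z0 ∈ A) (h0 : mem z0 y0)
    (h1 : q y0) (hc : 2 * (Γ.D.filter fun y => mem z y ∧ q y).card ≤ b) :
    (Γ.pin {v}).Rec A (b / 2) β u gr := by
  have key : ∀ w ∈ A, ∀ w' ∈ A, (Γ.D.filter fun y => mem w y ∧ q y).card =
      (Γ.D.filter fun y => mem w' y ∧ q y).card := by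
    intro w hw w' hw'
    obtain ⟨f, f1, f2, f3⟩ := ht w hw w' hw'
    have := Sy.card_eq f1 (lt_of_le_of_lt card_le_two (by omega)) (fun y => mem w y ∧ q y)
      (fun y => mem w' y ∧ q y) fun y _ g g1 g2 => by
        have e1 := Sy.e2_of_L g2 (a := w) (b := y) (by simp) (by simp)
        have e2 := Sy.e2_of_L g2 (a := y) (b := v) (by simp) (by simp)
        rw [g1 w (by simp), f2] at e1
        rw [g1 v (by simp), f3] at e2
        exact and_congr (h.imem.iff e1) (hq _ _ e2)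
    convert this
  have r := Γ.ref_pin {v}
  refine ⟨fun w y => mem w y ∧ q y, ρ, X, O, ⟨fun a b hab => h.imem.1 a b hab.1,
    fun a b a' b' e hab => ⟨(r.inv2 h.imem).2 a b a' b' e hab.1,
      (hq _ _ (Sy.pin_e2 e (mem_singleton_self v) hv).2).1 hab.2⟩⟩, r.inv2 h.irho, r.inv1 h.iO,
    h.cO, h.gra.mono h.iO.1 r, h.plain, fun w hw => ?_, fun w hw => ?_,
    fun w hw w' hw' y a b => h.disj w hw w' hw' y a.1 b.1,
    fun w hw w' hw' y y' a b => h.sep w hw w' hw' y y' a.1 b.1⟩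
  · have : 0 < (Γ.D.filter fun y => mem w y ∧ q y).card := by
      rw [key w hw z0 hz0]
      exact card_pos.2 ⟨y0, mem_filter.2 ⟨(h.imem.1 _ _ h0).2, h0, h1⟩⟩
    obtain ⟨y, hy⟩ := card_pos.1 this
    exact ⟨y, (mem_filter.1 hy).2⟩
  · have h3 : (Γ.D.filter fun y => mem w y ∧ q y).card ≤ b / 2 := by
      rw [key w hw z hz]; omega
    refine le_trans (card_le_card fun y hy => ?_) h3
    simp only [mem_filter] at hy ⊢
    exact hy

end PENDx

/- If for some v, v' in O of the same type and z, z' in A the pairs (z, v), (z', v') differ in type, move v' to v: R = E2 z v is not constant on A, sep_or_equi and rec_direct. Else take z ≠ z' in A, members y, y' and v in O that separates them, say ρ y v and not ρ y' v. All pairs (w, v), w in A, have one type, so every w has a member with ρ · v and one without, and the two numbers do not depend on w (card_eq). Keep the smaller part: mem' w y iff mem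 w y and ρ y v (or not ρ y v); it is invariant over v. -/
theorem Sy.pend (hM : 4 ≤ Γ.M) {A : Finset Y} (hA : Γ.Cls A) (h2 : 2 ≤ A.card) {b β u : ℕ}
    {gr : Bool} (h : Γ.Rec A b β u gr) :
    Γ.Equi A ∨ Γ.Rec A 1 β u gr ∨ ∃ v ∈ Γ.D, (Γ.pin {v}).Rec A (b / 2) β u gr := by
  obtain ⟨mem, ρ, X, O, h⟩ := h
  by_cases H : ∀ v ∈ O, ∀ w ∈ A, ∀ w' ∈ A, Γ.E2 w v w' v
  swap
  · push Not at H
    obtain ⟨v, hv, w, hw, w', hw', n⟩ := H
    rcases Sy.sep_or_equi (by omega) hA.2.1 h.iO (Γ.inv2_E2 w v) hw hw' hv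
      (Sy.E2.refl (hA.2.1.1 hw) (h.iO.1 hv)) n with s | s
    · exact Or.inr (Or.inl (Sy.rec_direct hA.2.1 (Γ.inv2_E2 w v) h.iO h.cO h.gra h.plain s))
    · exact Or.inl s
  obtain ⟨z, hz, z', hz', hne⟩ := one_lt_card.1 h2
  obtain ⟨y, hy⟩ := h.ne z hz
  obtain ⟨y', hy'⟩ := h.ne z' hz'
  obtain ⟨v, hv, n⟩ := h.sep z hz z' hz' y y' hy hy'
    fun e => hne (h.disj z hz z' hz' y hy (e ▸ hy'))
  refine Or.inr (Or.inr ⟨v, h.iO.1 hv, ?_⟩)
  have hs : (Γ.D.filter fun y => mem z y ∧ ρ y v).card +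
      (Γ.D.filter fun y => mem z y ∧ ¬ ρ y v).card ≤ b := by
    refine le_trans ?_ (h.le z hz)
    rw [← card_filter_add_card_filter_not (s := Γ.D.filter (mem z)) (fun y => ρ y v),
      filter_filter, filter_filter]
  obtain ⟨z1, h1, y1, m1, r1, z2, h2, y2, m2, r2⟩ : ∃ z1 ∈ A, ∃ y1, mem z1 y1 ∧ ρ y1 v ∧
      ∃ z2 ∈ A, ∃ y2, mem z2 y2 ∧ ¬ ρ y2 v := by
    by_cases c : ρ y v
    · exact ⟨z, hz, y, hy, c, z', hz', y', hy', fun c' => n (iff_of_true c c')⟩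
    · exact ⟨z', hz', y', hy', by_contra fun c' => n (iff_of_false c c'), z, hz, y, hy, c⟩
  rcases le_total (Γ.D.filter fun y => mem z y ∧ ρ y v).card
    (Γ.D.filter fun y => mem z y ∧ ¬ ρ y v).card with c | c
  · exact PENDx.half hM h (h.iO.1 hv) (H v hv) (q := fun y => ρ y v)
      (fun _ _ e => h.irho.iff e) hz h1 m1 r1 (by omega)
  · refine PENDx.half hM h (h.iO.1 hv) (H v hv) (q := fun y => ¬ ρ y v)
      (fun _ _ e => not_congr (h.irho.iff e)) hz h2 m2 r2 ?_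
    have : 2 * (Γ.D.filter fun y => mem z y ∧ ¬ ρ y v).card ≤ b := by omega
    convert this

/- b ≤ 1: compose mem and ρ -/
theorem Sy.direct (hM : 3 ≤ Γ.M) {A : Finset Y} (hA : Γ.Inv1 A) {b β u : ℕ} {gr : Bool}
    (hb : b ≤ 1) (h : Γ.Rec A b β u gr) :
    ∃ (ρ X : Y → Y → Prop) (O : Finset Y), Γ.Inv2 ρ ∧ Γ.Inv1 O ∧ O.card ≤ u ∧ Γ.Gr O X β ∧
      (gr = false → u ≤ β) ∧ Sy.Sep A O ρ := by
  obtain ⟨mem, ρ, X, O, h⟩ := h
  refine ⟨fun z v => ∃ y, mem z y ∧ ρ y v, X, O, h.imem.comp hM h.irho, h.iO, h.cO, h.gra,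
    h.plain, fun z hz z' hz' hne => ?_⟩
  have key : ∀ z ∈ A, ∀ y v, mem z y → ((∃ y, mem z y ∧ ρ y v) ↔ ρ y v) := by
    intro z hz y v hy
    refine ⟨fun ⟨y1, a, c⟩ => ?_, fun c => ⟨y, hy, c⟩⟩
    rwa [card_le_one.1 ((h.le z hz).trans hb) y (mem_filter.2 ⟨(h.imem.1 _ _ hy).2, hy⟩) y1
      (mem_filter.2 ⟨(h.imem.1 _ _ a).2, a⟩)]
  obtain ⟨y, hy⟩ := h.ne z hz
  obtain ⟨y', hy'⟩ := h.ne z' hz'
  obtain ⟨v, hv, n⟩ := h.sep z hz z' hz' y y' hy hy'
    fun e => hne (h.disj z hz z' hz' y hy (e ▸ hy'))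
  exact ⟨v, hv, fun e => n ((key z hz y v hy).symm.trans (e.trans (key z' hz' y' v hy')))⟩

end Pool.Agent.P.MP_f1a348_lc.GX
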