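import Pool.Agent.P.MP_f1a348_lc.GX.DefsS
import Pool.Agent.P.MP_f1a348_lc.GX.TSYS
import Pool.Agent.P.MP_f1a348_lc.GX.TGOOD
import Pool.Agent.P.MP_f1a348_lc.GX.THH
import Pool.Agent.P.MP_f1a348_lc.GX.TJOH
import Pool.Agent.P.MP_f1a348_lc.GX.TLEMG

/-! Step PLA. -/

set_option autoImplicit false
set_option linter.unusedSectionVars false

namespace Pool.Agent.P.MP_f1a348_lc.GX

open Equiv Finset
open scoped Classical
variable {Y : Type} [DecidableEq Y] {Γ Γ' : Sy Y}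

namespace PLAx

theorem two_pow (e : ℕ) : 2 ^ e ≤ e.centralBinom := by
  induction e with
  | zero => simp
  | succ e ih =>
    refine Nat.le_of_mul_le_mul_left ?_ e.succ_pos
    rw [Nat.succ_eq_add_one, Nat.succ_mul_centralBinom_succ, pow_succ]
    nlinarith [Nat.zero_le (e * 2 ^ e)]

theorem le_lg {a e : ℕ} (h : 2 ^ e ≤ a) : (e : ℝ) ≤ lg a := by
  have := lg_mono h
  rwa [lg, Nat.cast_pow, Real.logb_pow, Nat.cast_ofNat, Real.logb_self_eq_one one_lt_two,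
    mul_one] at this

theorem first {C : Finset Y} (h1 : Γ.Tr C 1) {τ : ℕ} (hτ : 1 ≤ τ) (h : ¬ Γ.Tr C τ) :
    ∃ d, 1 ≤ d ∧ d < τ ∧ Γ.Tr C d ∧ ¬ Γ.Tr C (d + 1) := by
  induction τ, hτ using Nat.le_induction with
  | base => exact (h h1).elim
  | succ k hk ih =>
    by_cases e : Γ.Tr C k
    · exact ⟨k, hk, k.lt_succ_self, e, h⟩
    · obtain ⟨d, a, b, c⟩ := ih e
      exact ⟨d, a, b.trans k.lt_succ_self, c⟩

end PLAx

/- card C ≤ t0: OKill. Not Tr C τ: take the first d with Tr C d and not Tr C (d+1), lemG, record (A, N, C, X, β', card C, true), OPin. Else john: e = 1 gives full; card C < e ^ 2 gives OKill (2 ^ e ≤ choose c e); else OJohn. -/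
theorem Sy.pla {LL : ℝ} (hL : 0 ≤ LL) {N1 τ t0 Λ e : ℕ} (hM : 2 * τ + 4 ≤ Γ.M)
    (hτ : Λ + 1 ≤ τ) (ht0 : 4 * τ ≤ t0) {A C : Finset Y} (hA : Γ.Cls A) (hC : Γ.Cls C)
    (hc : A.card ≤ 2 ^ Λ) (hCA : C.card ≤ A.card) (hN1 : A.card ≤ N1) {N : Y → Y → Prop}
    (hN : Γ.Inv2 N) (hs : Sy.Sep A C N) (h1 : 1 ≤ e) (h4 : 4 * e < C.card)
    (he : ∀ z ∈ A, (C.filter (N z)).card = e) {ν : ℝ} (hν : 12289 * lg C.card ≤ ν) :
    Γ.Out LL N1 τ t0 A ν := by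
  have kill : ∀ z ∈ A, ∀ z' ∈ A, (∀ v ∈ C, Γ.E2 z v z' v) → z = z' := fun z hz z' hz' h => by
    by_contra ne
    obtain ⟨v, hv, k⟩ := hs z hz z' hz' ne
    exact k (hN.iff (h v hv))
  by_cases h0 : C.card ≤ t0
  · exact .inr (.inr (.inr (.inr (.inl ⟨C, hC, hCA, .inl h0, kill⟩))))
  by_cases ht : Γ.Tr C τ
  · obtain ⟨k, z0, v0, hj⟩ := Sy.john (by omega) hτ hA hC hc (by omega) ht hN hs h1 h4 he
    rcases h1.eq_or_lt with rfl | h2
    · exact .inr (.inr (.inr (.inr (.inr (.inr ⟨by omega, hj.full (by omega) hA ht⟩)))))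
    by_cases h5 : e ^ 2 ≤ C.card
    · exact .inr (.inr (.inr (.inr (.inr (.inl ⟨C, z0, v0, e, hj, h2, h5, by omega, hCA⟩)))))
    refine .inr (.inr (.inr (.inr (.inl ⟨C, hC, hCA, .inr ?_, kill⟩))))
    have h6 : (e : ℝ) ≤ lg A.card := PLAx.le_lg (k ▸ (PLAx.two_pow e).trans
      (Nat.choose_le_choose e (by omega)))
    have h7 : (C.card : ℝ) ≤ e ^ 2 := mod_cast (not_le.1 h5).le
    exact h7.trans (by gcongr)
  obtain ⟨d, d1, d2, d3, d4⟩ := PLAx.first hC.tr1 (by omega) ht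
  obtain ⟨P, hP, cP, X, β, hX, hβ⟩ := Sy.lemG (by omega) d1 hC.2.1 (by omega) d3 d4
  have r := Γ.ref_pin P
  refine .inr (.inl ⟨C, P, d, hC, hP, cP, d1, d2.le, fun Γ' hr _ A' hA' _ => .inl
    ⟨mu 1 β C.card true, .inr ⟨1, β, C.card, true, hCA.trans hN1, (Sy.rec_direct (r.inv1 hA.2.1)
      (r.inv2 hN) (r.inv1 hC.2.1) le_rfl hX (by simp) hs).mono hA' hr, le_rfl⟩, ?_⟩⟩)
  have e1 : lg 1 = 0 := by simp [lg]
  have e2 : 0 ≤ min (d : ℝ) (lg C.card) := le_min d.cast_nonneg (lg_nonneg _)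
  rw [mu, e1, if_pos rfl]
  linarith [HH_mono hL (card_le_card hA')]

end Pool.Agent.P.MP_f1a348_lc.GX
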