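import Pool.Agent.P.MP_f1a348_lc.GX.DefsS
import Pool.Agent.P.MP_f1a348_lc.GX.TSYS
import Pool.Agent.P.MP_f1a348_lc.GX.TGOOD
import Pool.Agent.P.MP_f1a348_lc.GX.THH
import Pool.Agent.P.MP_f1a348_lc.GX.TCONN
import Pool.Agent.P.MP_f1a348_lc.GX.TPEND
import Pool.Agent.P.MP_f1a348_lc.GX.TDOM
import Pool.Agent.P.MP_f1a348_lc.GX.TGRA
import Pool.Agent.P.MP_f1a348_lc.GX.TPLA

/-! Step STEP. -/

set_option autoImplicit false
set_option linter.unusedSectionVars false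

namespace Pool.Agent.P.MP_f1a348_lc.GX

open Equiv Finset
open scoped Classical
variable {Y : Type} [DecidableEq Y] {Γ Γ' : Sy Y}

namespace STEPx

theorem lg_one : lg 1 = 0 := by simp [lg]

theorem lg_two : lg 2 = 1 := by simp [lg]

theorem lg_pow (k : ℕ) : lg (2 ^ k) = k := by simp [lg, Real.logb_pow]

theorem mu_one (β u : ℕ) (gr : Bool) :
    mu 1 β u gr = 12288 * lg β + lg u + (if gr then 2 else 0) := by
  rw [mu, lg_one]; ring

theorem mu_b (b β u : ℕ) (gr : Bool) : mu b β u gr = 2 * lg b + mu 1 β u gr := by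
  rw [mu_one, mu]; ring

/-- one pin -/
theorem opin {LL : ℝ} (hL : 0 ≤ LL) {N1 τ : ℕ} (hτ : 1 ≤ τ) {A : Finset Y} {ν : ℝ}
    (h : Γ.Good N1 A ν) {v : Y} (hv : v ∈ Γ.D)
    (H : ∀ Γ' : Sy Y, (Γ.pin {v}).Ref Γ' → 3 ≤ Γ'.M → ∀ A' ⊆ A, Γ'.Cls A' →
      3 * A.card < 4 * A'.card → Γ'.Good N1 A' (ν - 2) ∨ Γ'.Equi A') :
    Γ.OPin LL N1 τ A ν := by
  refine ⟨Γ.cls v, {v}, 1, Sy.cls_cls hv, singleton_subset_iff.2 (Sy.mem_cls.2 (Sy.E1.refl hv)),
    by simp, le_rfl, hτ, fun Γ' hr hM A' hs hA' => ?_⟩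
  have hm : min ((1 : ℕ) : ℝ) (lg (Γ.cls v).card) ≤ 1 := (min_le_left _ _).trans (by simp)
  by_cases hb : 3 * A.card < 4 * A'.card
  · rcases H Γ' hr hM A' hs hA' hb with h1 | h1
    · refine Or.inl ⟨ν - 2, h1, ?_⟩
      have := HH_mono hL (card_le_card hs)
      linarith
    · exact Or.inr ⟨rfl, hb, h1⟩
  · refine Or.inl ⟨ν, h.mono hs ((Sy.ref_pin {v}).trans hr) le_rfl, ?_⟩
    have := HH_34 hL (card_pos.2 hA'.1) (not_lt.1 hb)
    linarith

/-- a direct record -/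
theorem dir {LL : ℝ} (hL : 0 ≤ LL) {N1 τ t0 Λ : ℕ} (hM : 2 * τ + 4 ≤ Γ.M)
    (hτ : Λ + 1 ≤ τ) (ht0 : 4 * τ ≤ t0) {A : Finset Y} (hA : Γ.Cls A) (h2 : 2 ≤ A.card)
    (hc : A.card ≤ 2 ^ Λ) (hN1 : A.card ≤ N1) {ν : ℝ} (h : Γ.Good N1 A ν)
    {ρ X : Y → Y → Prop} {O : Finset Y} {β u : ℕ} {gr : Bool} (hρ : Γ.Inv2 ρ) (hO : Γ.Inv1 O)
    (hu : O.card ≤ u) (hX : Γ.Gr O X β) (hp : gr = false → u ≤ β) (hs : Sy.Sep A O ρ)
    (huN : u ≤ N1) (hμ : mu 1 β u gr ≤ ν) (hsm : O.card ≤ A.card ∨ ν < 12289 * lg A.card) :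
    Γ.Out LL N1 τ t0 A ν := by
  have hτ1 : 1 ≤ τ := by omega
  have hM3 : 3 ≤ Γ.M := by omega
  rw [mu_one] at hμ
  rcases Sy.dom hM3 hA h2 hO hρ hs with ⟨v, hv, h1⟩ | ⟨N, hN⟩
  · refine Or.inr (Or.inl (opin hL hτ1 h (hO.1 hv) fun Γ' hr _ A' hs' hA' hb => ?_))
    exfalso
    obtain ⟨z, hz⟩ := hA'.1
    have h3 : A' ⊆ A.filter (fun z' => Γ.E2 z v z' v) := fun z' hz' => by
      have e1 : (Γ.pin {v}).E1 z z' := hr.e1 (hA.2.1.1 (hs' hz)) (hA'.2.2 z hz z' hz')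
      exact mem_filter.2 ⟨hs' hz',
        (Sy.pin_e2 (Sy.e2_diag.2 e1) (mem_singleton_self v) (hO.1 hv)).1⟩
    have := card_le_card h3
    have := h1 z (hs' hz)
    omega
  cases gr with
  | true =>
    rw [if_pos rfl] at hμ
    by_cases hcl : ∀ z ∈ A, ∀ v v', X v v' → N z v' → N z v
    · rcases Sy.gra_comp hM3 hA hO hN hX hcl with h1 | ⟨C, prs, c, c1, c2, c3, c4, c5, c6, c7⟩
      · exact Or.inr (Or.inr (Or.inr (Or.inl h1)))
      have hCu : C.card ≤ u := (card_le_card c1).trans hu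
      refine Or.inr (Or.inr (Or.inl ⟨C, prs, c2, hCu.trans huN, c3, fun Γ' bl hb => ?_⟩))
      refine Or.inr ⟨1, c, c, false, ?_, c7 Γ' bl hb, ?_⟩
      · exact (Nat.le_mul_of_pos_right c (by positivity)).trans (c6.trans (hCu.trans huN))
      · have e1 := lg_mono (c6.trans hCu)
        rw [lg_mul c4 (by positivity), lg_pow] at e1
        have e2 := lg_mono c5
        rw [mu_one, if_neg (by simp)]
        linarith
    · push Not at hcl
      obtain ⟨z, hz, v, v', e, h1, h3⟩ := hcl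
      refine Or.inr (Or.inl (opin hL hτ1 h (hO.1 (hX.sup v v' e).1)
        fun Γ' hr hM' A' hs' hA' hb => ?_))
      rcases Sy.gra_edge (by omega) hA hO hN hX hz e h3 h1 hr hM' hs' hA' hb with
        h4 | ⟨c, c1, c2, c3⟩
      · exact Or.inr h4
      refine Or.inl (Or.inr ⟨1, c, c, false, c2.trans (hu.trans huN), c3, ?_⟩)
      have e1 := lg_mono c1
      have e2 := lg_mono (c2.trans hu)
      rw [mu_one, if_neg (by simp)]
      linarith
  | false =>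
    rw [if_neg (by simp)] at hμ
    obtain ⟨C, c1, c2, c3, ⟨x, hx, y, hy, v, hv, c4, c5⟩, e, c6, c7, c8⟩ := hN.tight hM3 hA hO
    rcases Sy.sep_or_equi hM3 hA.2.1 c2.2.1 c3 hx hy hv ⟨hv, c4⟩ (fun k => c5 k.2) with h1 | h1
    swap
    · exact Or.inr (Or.inr (Or.inr (Or.inl h1)))
    have hCu : C.card ≤ u := (card_le_card c1).trans hu
    have e1 := lg_mono hCu
    have e2 := lg_mono (hCu.trans (hp rfl))
    have hν : 12289 * lg C.card ≤ ν := by linarith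
    have hCA : C.card ≤ A.card := by
      rcases hsm with k | k
      · exact (card_le_card c1).trans k
      · by_contra k'
        have := lg_mono (not_le.1 k').le
        linarith
    refine Sy.pla hL hM hτ ht0 hA c2 hc hCA hN1 c3 h1 c6 c7 (fun z hz => ?_) hν
    rw [← c8 z hz]
    congr 1
    ext w
    simp only [mem_filter]
    tauto

end STEPx

open STEPx in
/- If 12289 lg a ≤ ν use ρ = equality on O = A as a plain record (then C = A). Else a record with measure below 12289 lg a: b ≥ 2 gives pend (free gain, or one pin with C = cls v, d = 1); b ≤ 1 gives direct, dom (first case: one pin, HH_34), for gr = true gra_edge or gra_comp, for gr = false Dom.tight, sep_or_equi, pla (card C < card A by the measure). -/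
theorem Sy.step {LL : ℝ} (hL : 0 ≤ LL) {N1 τ t0 Λ : ℕ} (hM : 2 * τ + 4 ≤ Γ.M)
    (hτ : Λ + 1 ≤ τ) (ht0 : 4 * τ ≤ t0) {A : Finset Y} (hA : Γ.Cls A) (h2 : 2 ≤ A.card)
    (hc : A.card ≤ 2 ^ Λ) (hN1 : A.card ≤ N1) {ν : ℝ} (h : Γ.Good N1 A ν) :
    Γ.Out LL N1 τ t0 A ν := by
  by_cases h0 : 12289 * lg A.card ≤ ν
  · refine dir hL hM hτ ht0 hA h2 hc hN1 h (gr := false) (Sy.inv2_eq hA.2.1) hA.2.1 le_rfl
      (Sy.gr_empty hA.2.1 le_rfl) (fun _ => le_rfl)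
      (fun z hz z' _ hne => ⟨z, hz, fun k => hne (k.1 ⟨hz, rfl⟩).2⟩) hN1 ?_ (Or.inl le_rfl)
    rw [mu_one, if_neg (by simp)]
    linarith
  obtain ⟨b, β, u, gr, huN, hR, hμ⟩ := h.resolve_left h0
  rw [mu_b] at hμ
  by_cases hb : b ≤ 1
  · obtain ⟨ρ, X, O, c1, c2, c3, c4, c5, c6⟩ := Sy.direct (by omega) hA.2.1 hb hR
    have := lg_nonneg b
    exact dir hL hM hτ ht0 hA h2 hc hN1 h c1 c2 c3 c4 c5 c6 huN (by linarith)
      (Or.inr (not_le.1 h0))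
  rcases Sy.pend (by omega) hA h2 hR with h1 | h1 | ⟨v, hv, h1⟩
  · exact Or.inr (Or.inr (Or.inr (Or.inl h1)))
  · have e1 : lg 2 ≤ lg b := lg_mono (by omega)
    rw [lg_two] at e1
    exact Or.inl (Or.inr ⟨1, β, u, gr, huN, h1, by linarith⟩)
  · refine Or.inr (Or.inl (opin hL (by omega) h hv fun Γ' hr _ A' hs' _ _ => ?_))
    have e1 : lg (b / 2 * 2) ≤ lg b := lg_mono (Nat.div_mul_le_self b 2)
    rw [lg_mul (by omega) two_pos, lg_two] at e1
    refine Or.inl (Or.inr ⟨b / 2, β, u, gr, huN, h1.mono hs' hr, ?_⟩)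
    rw [mu_b]
    linarith

end Pool.Agent.P.MP_f1a348_lc.GX
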