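import Pool.Agent.P.MP_f1a348_lc.GX.DefsV
import Pool.Agent.P.MP_f1a348_lc.GX.TSYS
import Pool.Agent.P.MP_f1a348_lc.GX.TGOOD
import Pool.Agent.P.MP_f1a348_lc.GX.THH
import Pool.Agent.P.MP_f1a348_lc.GX.TVORB
import Pool.Agent.P.MP_f1a348_lc.GX.TVGOOD
import Pool.Agent.P.MP_f1a348_lc.GX.TVALG

/-! Step VCH. -/

set_option autoImplicit false
set_option linter.unusedSectionVars false

namespace Pool.Agent.P.MP_f1a348_lc.GX

open Equiv Finset MulAction
open scoped Classical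
variable {G Y : Type} [Group G] [MulAction G Y] [DecidableEq Y] {P : Pm} {H H' K K' : Subgroup G}
  {D D' : Finset Y} {Γ Γ' : Sy Y} {v v' : Vw G Y} {W : ℕ → Vw G Y → Prop}

namespace VCHx

lemma fix_cons {z : Y} {k : List Y} :
    K ⊓ fixF G (z :: k).toFinset = K ⊓ stabilizer G z ⊓ fixF G k.toFinset := by
  ext g
  simp [mem_fixF, and_assoc]

lemma HH_ge {LL : ℝ} (h : 0 ≤ LL) {q : ℕ} (c : 2 ≤ q) : 1 ≤ HH LL q := by
  have h1 := HHx.lg1 c
  have h2 : 1 ≤ Real.logb 2 (1 + lg q) := by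
    have := HHx.lb_le (x := 2) (y := 1 + lg q) two_pos (by linarith)
    rwa [Real.logb_self_eq_one one_lt_two] at this
  have h3 : 1 * 1 ≤ lg q * (LL / 8 + Real.logb 2 (1 + lg q)) :=
    mul_le_mul h1 (by linarith) zero_le_one (by linarith)
  unfold HH
  linarith

end VCHx

theorem Pm.LL_nonneg : 0 ≤ P.LL := by
  exact lg_nonneg _

theorem Ch.nonneg {k : List Y} {Φ : ℝ} (h : Ch P D Γ K k Φ) : 0 ≤ Φ := by
  induction k generalizing K Φ with
  | nil => exact h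
  | cons z k ih =>
    obtain ⟨-, -, n1, n2, g1, g2, r⟩ := h
    have a1 := ih r
    have a2 := g1.nonneg
    have a3 := g2.nonneg
    have a4 := HH_nonneg (Pm.LL_nonneg (P := P)) (orb K D z).card
    linarith

theorem Ch.le {k : List Y} {Φ Φ' : ℝ} (h : Ch P D Γ K k Φ) (e : Φ ≤ Φ') : Ch P D Γ K k Φ' := by
  induction k generalizing K Φ Φ' with
  | nil => exact le_trans h e
  | cons z k ih =>
    obtain ⟨a1, a2, n1, n2, g1, g2, r⟩ := h
    exact ⟨a1, a2, n1, n2, g1, g2, ih r (by linarith)⟩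

theorem Ch.mem {k : List Y} {Φ : ℝ} (h : Ch P D Γ K k Φ) : ∀ z ∈ k, z ∈ D := by
  induction k generalizing K Φ with
  | nil => simp
  | cons z k ih =>
    obtain ⟨a1, -, n1, n2, -, -, r⟩ := h
    intro y hy
    rcases List.mem_cons.1 hy with rfl | hy
    · exact a1
    · exact ih r y hy

theorem Ch.mono {k : List Y} {Φ : ℝ} (h : Ch P D Γ K k Φ) (hI : InvF K D) (hI' : InvF K' D')
    (e : K' ≤ K) (d : D ⊆ D') (dd : D ⊆ Γ.D) (r : Γ.Ref Γ') : Ch P D' Γ' K' k Φ := by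
  induction k generalizing K K' Φ with
  | nil => exact h
  | cons z k ih =>
    obtain ⟨a1, a2, n1, n2, g1, g2, t⟩ := h
    have s : orb K' D' z ⊆ orb K D z := orb_mono hI e a1
    have c := card_le_card s
    refine ⟨d a1, c.trans a2, n1, n2, g1.mono s (sys1_ref _ _ hI hI' e d) le_rfl,
      g2.mono (inter_subset_inter s fun y hy => ?_) r le_rfl,
      (ih t (hI.mono inf_le_left) (hI'.mono inf_le_left) (inf_le_inf_right _ e)).le ?_⟩
    · exact Sy.mem_cls.2 (r.e1 (dd a1) (Sy.mem_cls.1 hy))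
    · have := HH_mono (Pm.LL_nonneg (P := P)) c
      linarith

/- Induction on k. The orbit of α⁻¹ z under K' lies in α⁻¹ (orbit of z under K); Good.emb with α⁻¹ • · for the orbit systems, with e for Γ: a point of D in the class of e z is e z0 with z0 in the class of z, and e z0 = α⁻¹ z0. -/
theorem Ch.emb {k : List Y} {Φ : ℝ} (h : Ch P D Γ K k Φ) (hI : InvF K D) (hI' : InvF K' D)
    {α : G} (hα : ∀ x, α • x ∈ D ↔ x ∈ D) (c : ∀ g ∈ K', α * g * α⁻¹ ∈ K) (dd : D ⊆ Γ.D)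
    {e : Y → Y} (he : Γ.RefE Γ' e) (h1 : ∀ z ∈ Γ.D, e z ∈ D → e z = α⁻¹ • z)
    (h2 : ∀ z ∈ k, e z = α⁻¹ • z) : Ch P D Γ' K' (k.map (fun z => α⁻¹ • z)) Φ := by
  have hα' : ∀ x ∈ D, α⁻¹ • x ∈ D := fun x hx => (hα _).1 (by simpa using hx)
  induction k generalizing K K' Φ with
  | nil => exact h
  | cons z k ih =>
    obtain ⟨a1, a2, n1, n2, g1, g2, t⟩ := h
    have s : orb K' D (α⁻¹ • z) ⊆ (orb K D z).image (fun x => α⁻¹ • x) := by
      intro y hy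
      obtain ⟨-, g, b1, rfl⟩ := mem_orb.1 hy
      refine mem_image.2 ⟨(α * g * α⁻¹) • z,
        mem_orb.2 ⟨hI _ (c g b1) _ a1, _, c g b1, rfl⟩, ?_⟩
      simp [mul_smul]
    have cd : (orb K' D (α⁻¹ • z)).card ≤ (orb K D z).card :=
      (card_le_card s).trans card_image_le
    have r1 : (sys1 P.M K D).RefE (sys1 P.M K' D) (fun x => α⁻¹ • x) := by
      refine ⟨fun x _ y _ k => MulAction.injective α⁻¹ k, fun a ha => ?_,
        fun a ha b hb a' b' k => ?_⟩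
      · rw [sys1_D _ hI] at ha
        rw [sys1_D _ hI']
        exact hα' a ha
      · rw [sys1_D _ hI] at ha hb
        obtain ⟨-, -, g, b1, rfl, rfl⟩ := (sys1_E2 _ hI').1 k
        refine ⟨(α * g * α⁻¹) • a, (α * g * α⁻¹) • b, by simp [mul_smul], by simp [mul_smul],
          (sys1_E2 _ hI).2 ⟨ha, hb, _, c g b1, rfl, rfl⟩⟩
    have ez : e z = α⁻¹ • z := h2 z List.mem_cons_self
    have s2 : orb K' D (α⁻¹ • z) ∩ Γ'.cls (α⁻¹ • z) ⊆ (orb K D z ∩ Γ.cls z).image e := by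
      intro y hy
      obtain ⟨b1, b2⟩ := mem_inter.1 hy
      rw [← ez] at b2
      obtain ⟨a0, b0, rfl, -, b3⟩ := he.ref z (dd a1) z (dd a1) y y
        (Sy.e2_diag.2 (Sy.mem_cls.1 b2))
      obtain ⟨y0, b4, b5⟩ := mem_image.1 (s b1)
      rw [h1 a0 b3.fst.mem.2 (mem_orb.1 b1).1] at b5
      obtain rfl := MulAction.injective α⁻¹ b5
      exact mem_image_of_mem _ (mem_inter.2 ⟨b4, Sy.mem_cls.2 b3.fst⟩)
    have sD : orb K D z ⊆ D := fun y hy => (mem_orb.1 hy).1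
    refine ⟨hα' z a1, cd.trans a2, n1, n2,
      (g1.emb (by rwa [sys1_D _ hI]) r1).mono s Sy.Ref.refl le_rfl,
      (g2.emb (inter_subset_left.trans (sD.trans dd)) he).mono s2 Sy.Ref.refl le_rfl,
      (ih t (hI.mono inf_le_left) (hI'.mono inf_le_left) (fun g hg => ⟨c g hg.1, ?_⟩)
        (fun y hy => h2 y (List.mem_cons_of_mem _ hy))).le ?_⟩
    · have b : g • α⁻¹ • z = α⁻¹ • z := hg.2
      show (α * g * α⁻¹) • z = z
      rw [mul_smul, mul_smul, b, smul_inv_smul]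
    · have := HH_mono (Pm.LL_nonneg (P := P)) cd
      linarith

/- remove the entries whose orbit is a single point; every other level costs at least HH 2 ≥ 1 -/
theorem Ch.trim {k : List Y} {Φ : ℝ} (h : Ch P D Γ K k Φ) (hI : InvF K D) :
    ∃ k' : List Y, k'.Sublist k ∧ Ch P D Γ K k' Φ ∧
      K ⊓ fixF G k'.toFinset = K ⊓ fixF G k.toFinset ∧ (k'.length : ℝ) ≤ Φ ∧
      (k' = [] ∨ ∃ z k'', k' = z :: k'' ∧ 2 ≤ (orb K D z).card) := by
  induction k generalizing K Φ with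
  | nil => exact ⟨[], List.Sublist.refl _, h, rfl, by simpa using h.nonneg, Or.inl rfl⟩
  | cons z k ih =>
    obtain ⟨a1, a2, n1, n2, g1, g2, t⟩ := h
    obtain ⟨k', b1, b2, b3, b4, b5⟩ := ih t (hI.mono inf_le_left)
    have p1 := g1.nonneg
    have p2 := g2.nonneg
    by_cases c : 2 ≤ (orb K D z).card
    · refine ⟨z :: k', b1.cons_cons z, ⟨a1, a2, n1, n2, g1, g2, b2⟩, ?_, ?_, Or.inr ⟨z, k', rfl, c⟩⟩
      · rw [VCHx.fix_cons, VCHx.fix_cons, b3]
      · have := VCHx.HH_ge (Pm.LL_nonneg (P := P)) c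
        simp only [List.length_cons, Nat.cast_add, Nat.cast_one]
        linarith
    · have e : K ⊓ stabilizer G z = K := by
        refine inf_eq_left.2 fun g hg => ?_
        exact card_le_one.1 (by omega : (orb K D z).card ≤ 1) _
          (mem_orb.2 ⟨hI g hg z a1, g, hg, rfl⟩) _ (self_mem_orb a1)
      have p3 := HH_nonneg (Pm.LL_nonneg (P := P)) (orb K D z).card
      refine ⟨k', b1.cons z, ?_, ?_, by linarith, ?_⟩
      · rw [e] at b2
        exact b2.le (by linarith)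
      · rw [VCHx.fix_cons, ← b3, e]
      · rwa [e] at b5

theorem Vw.Det.mono {w : Y} {k : List Y} (h : v.Det P w k) (e : v'.H ≤ v.H) : v'.Det P w k := by
  exact ⟨(inf_le_inf_right _ e).trans h.1, fun z hz => (h.2 z hz).mono e⟩

theorem Vw.Pt.mono {w : Y} {Φ Φ' : ℝ} (h : v.Pt P w Φ) (a : v.Ok P) (a' : v'.Ok P)
    (m : v.Mono v') (e : Φ ≤ Φ') : v'.Pt P w Φ' := by
  obtain ⟨k, h1, h2⟩ := h
  exact ⟨k, (h1.mono a.inv a'.inv m.h m.d a.dd m.ref).le e, h2.mono m.h⟩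

theorem Vw.Tl.mono {w u : Y} {Φ : ℝ} (h : v.Tl P w u Φ) (a : v.Ok P) (a' : v'.Ok P)
    (m : v.Mono v') : v'.Tl P w u Φ := by
  obtain ⟨k, h1, h2⟩ := h
  exact ⟨k, h1.mono (a.inv.mono inf_le_left) (a'.inv.mono inf_le_left) (inf_le_inf_right _ m.h)
    m.d a.dd m.ref, h2.mono m.h⟩

theorem Vw.Tl.nonneg {w u : Y} {Φ : ℝ} (h : v.Tl P w u Φ) : 0 ≤ Φ := by
  obtain ⟨k, h1, -⟩ := h
  exact h1.nonneg

/- put the head back; the orbit of u lies in A, Good.mono, HH_mono -/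
theorem Vw.Tl.head {w u : Y} {Φ n1 n2 : ℝ} (h : v.Tl P w u Φ) (a : v.Ok P) (hu : u ∈ v.D)
    {A : Finset Y} (hA : v.o u ⊆ A) (hN : A.card ≤ P.N1) (g1 : (v.Γ1 P).Good P.N1 (v.o u) n1)
    (g2 : v.Γ.Good P.N1 (v.o u ∩ v.Γ.cls u) n2) : v.Pt P w (Φ + HH P.LL A.card + n1 + n2) := by
  obtain ⟨k, h1, h2⟩ := h
  have c := card_le_card hA
  refine ⟨u :: k, ⟨hu, c.trans hN, n1, n2, g1, g2, h1.le ?_⟩, h2⟩
  have := HH_mono (Pm.LL_nonneg (P := P)) c
  unfold Vw.o at this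
  linarith

theorem Vw.Tl.kill {w u : Y} {Φ : ℝ} (h : v.Tl P w u Φ) (e : v.H ≤ stabilizer G u) :
    v.Pt P w Φ := by
  obtain ⟨k, h1, h2, h3⟩ := h
  have e1 : v.H ⊓ stabilizer G u = v.H := inf_eq_left.2 e
  rw [VCHx.fix_cons, e1] at h2
  rw [e1] at h1
  exact ⟨k, h1, h2, fun z hz => h3 z (List.mem_cons_of_mem _ hz)⟩

end Pool.Agent.P.MP_f1a348_lc.GX
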