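import Pool.Agent.P.MP_f1a348_lc.GX.DefsV
import Pool.Agent.P.MP_f1a348_lc.GX.TSYS
import Pool.Agent.P.MP_f1a348_lc.GX.TGOOD
import Pool.Agent.P.MP_f1a348_lc.GX.THH
import Pool.Agent.P.MP_f1a348_lc.GX.TVORB
import Pool.Agent.P.MP_f1a348_lc.GX.TVGOOD
import Pool.Agent.P.MP_f1a348_lc.GX.TVALG
import Pool.Agent.P.MP_f1a348_lc.GX.TVCH

/-! Step VSURG. -/

set_option autoImplicit false
set_option linter.unusedSectionVars false

namespace Pool.Agent.P.MP_f1a348_lc.GX

open Equiv Finset MulAction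
open scoped Classical
variable {G Y : Type} [Group G] [MulAction G Y] [DecidableEq Y] {P : Pm} {H H' K K' : Subgroup G}
  {D D' : Finset Y} {Γ Γ' : Sy Y} {v v' : Vw G Y} {W : ℕ → Vw G Y → Prop}

namespace VSURGx

theorem two (a : v.Ok P) {w u : Y} {Φ Ψ n1 n2 m1 m2 : ℝ} (h : v.Tl P w u Φ)
    {A : Finset Y} (hA : A ⊆ v.D) (hu : u ∈ A) {b : Y → Y} (hb : v.Nw A b) {f : ℕ}
    (h3 : (A.image b).card ≤ P.N1) (h4 : f ≤ P.N1)
    (h5 : ∀ y, (A.filter (fun x => b x = y)).card ≤ f)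
    (g1 : (v.Γ1 P).Good P.N1 (A.image b) n1)
    (g2 : v.Γ.Good P.N1 (A.image b ∩ v.Γ.cls (b u)) n2)
    (g3 : (v.Γ1 P).Good P.N1 (A.filter (fun x => b x = b u)) m1)
    (g4 : v.Γ.Good P.N1 (A.filter (fun x => b x = b u) ∩ v.Γ.cls u) m2)
    (e : Φ + HH P.LL (A.image b).card + HH P.LL f + n1 + n2 + m1 + m2 ≤ Ψ) : v.Pt P w Ψ := by
  obtain ⟨k, c1, c2, c3⟩ := h
  have s1 : orb v.H v.D (b u) ⊆ A.image b := by
    intro y hy
    obtain ⟨-, g, hg, rfl⟩ := mem_orb.1 hy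
    exact mem_image.2 ⟨g • u, (hb.eqv g hg u hu).1, (hb.eqv g hg u hu).2⟩
  have s2 : orb (v.H ⊓ stabilizer G (b u)) v.D u ⊆ A.filter (fun x => b x = b u) := by
    intro y hy
    obtain ⟨-, g, hg, rfl⟩ := mem_orb.1 hy
    exact mem_filter.2 ⟨(hb.eqv g hg.1 u hu).1, (hb.eqv g hg.1 u hu).2.trans hg.2⟩
  have k1 := card_le_card s1
  have k2 := (card_le_card s2).trans (h5 _)
  have l1 := HH_mono (Pm.LL_nonneg (P := P)) k1
  have l2 := HH_mono (Pm.LL_nonneg (P := P)) k2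
  have i1 : InvF (v.H ⊓ stabilizer G (b u)) v.D := a.inv.mono inf_le_left
  refine ⟨b u :: u :: k, ⟨hb.mem u hu, k1.trans h3, n1, n2, g1.mono s1 Sy.Ref.refl le_rfl,
    g2.mono (inter_subset_inter_right s1) Sy.Ref.refl le_rfl, hA hu, k2.trans h4, m1, m2,
    g3.mono s2 (sys1_ref _ _ a.inv i1 inf_le_left (Subset.refl _)) le_rfl,
    g4.mono (inter_subset_inter_right s2) Sy.Ref.refl le_rfl, ?_⟩, ?_, ?_⟩
  · refine (c1.mono (a.inv.mono inf_le_left) (i1.mono inf_le_left)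
      (inf_le_inf_right _ inf_le_left) (Subset.refl _) a.dd Sy.Ref.refl).le ?_
    linarith
  · refine le_trans (inf_le_inf_left _ fun g hg => ?_) c2
    exact mem_fixF.2 fun p hp => mem_fixF.1 hg p (by
      rw [List.mem_toFinset] at hp ⊢
      exact List.mem_cons_of_mem _ hp)
  · intro z hz
    rcases List.mem_cons.1 hz with rfl | hz
    · refine (c3 u List.mem_cons_self).of_fix fun g hg => ?_
      have e1 := (hb.eqv g hg.1 u hu).2
      have e2 : g • u = u := hg.2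
      rw [e2] at e1
      exact e1.symm
    · exact c3 z hz

theorem many (a : v.Ok P) {k : List Y} {Φ : ℝ} (h : Ch P v.D v.Γ K k Φ) (hK : K ≤ v.H)
    {C : Finset Y} (hC : C ⊆ v.D) (hi : InvF v.H C) {c : ℕ} (h1 : C.card ≤ c) (h2 : c ≤ P.N1)
    (l : List Y) : ∀ K' : Subgroup G, K' ≤ v.H → (∀ z ∈ l, z ∈ C) →
      K' ⊓ fixF G l.toFinset ≤ K →
      Ch P v.D v.Γ K' (l ++ k) (Φ + l.length * (HH P.LL c + 2 * (12289 * lg c))) := by
  induction l with
  | nil =>
    intro K' e _ e'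
    refine (h.mono (a.inv.mono hK) (a.inv.mono e) (le_trans ?_ e') (Subset.refl _) a.dd
      Sy.Ref.refl).le (by simp)
    exact le_inf le_rfl fun g _ => mem_fixF.2 fun p hp => by simp at hp
  | cons z l ih =>
    intro K' e hl e'
    have hz := hl z List.mem_cons_self
    have k1 : (orb K' v.D z).card ≤ c := (card_le_card (orb_sub (hi.mono e) hz)).trans h1
    have l1 := HH_mono (Pm.LL_nonneg (P := P)) k1
    refine ⟨hC hz, k1.trans h2, 12289 * lg c, 12289 * lg c, Sy.good_triv k1,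
      Sy.good_triv ((card_le_card inter_subset_left).trans k1), ?_⟩
    refine (ih (K' ⊓ stabilizer G z) (inf_le_left.trans e)
      (fun y hy => hl y (List.mem_cons_of_mem _ hy)) (le_trans ?_ e')).le ?_
    · intro g hg
      refine ⟨hg.1.1, mem_fixF.2 fun p hp => ?_⟩
      rcases List.mem_cons.1 (List.mem_toFinset.1 hp) with rfl | hp
      · exact hg.1.2
      · exact mem_fixF.1 hg.2 p (List.mem_toFinset.2 hp)
    · rw [List.length_cons]
      push_cast
      linarith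

end VSURGx

/- The new flag is b u :: u :: k. If f ≤ q the level of b u gets n1 + 2 lg f and n2 + 2 lg f (Good.quot; for Γ use the class of u, which lies in A, and ext2), the level of u has at most f points and trivial bounds. If q < f the level of b u gets the trivial bounds and the level of u keeps n1, n2. HH_split. -/
theorem Vw.Tl.split (hP : P.Ok) (a : v.Ok P) {w u : Y} {Φ n1 n2 : ℝ} (h : v.Tl P w u Φ)
    {A : Finset Y} (hA : A ⊆ v.D) (hu : u ∈ A) {b : Y → Y} (hb : v.Nw A b) {f c : ℕ}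
    (h1 : 2 ≤ f) (h2 : 2 ≤ (A.image b).card) (h3 : (A.image b).card * f ≤ c) (h4 : c ≤ P.N1)
    (h5 : ∀ y, (A.filter (fun x => b x = y)).card ≤ f) (g1 : (v.Γ1 P).Good P.N1 A n1)
    (g2 : v.Γ.Good P.N1 (A ∩ v.Γ.cls u) n2) : v.Pt P w (Φ + HH P.LL c + n1 + n2 - 400) := by
  have hM : 3 ≤ P.M := by have := hP.m1; omega
  have hM' : 3 ≤ v.Γ.M := a.lev ▸ hM
  have q1 : (A.image b).card ≤ P.N1 := by nlinarith
  have q2 : f ≤ P.N1 := by nlinarith
  have sp := HH_split (Pm.LL_nonneg (P := P)) h2 h1 h3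
  have two : lg 2 = 1 := by
    rw [lg, Nat.cast_ofNat, Real.logb_self_eq_one one_lt_two]
  have lf := lg_mono h1
  have lq := lg_mono h2
  rcases le_total f (A.image b).card with e | e
  · have i2 : v.Γ.Inv2 (fun x y => x ∈ A ∩ v.Γ.cls u ∧ y = b x) := by
      refine ⟨fun x y k => hb.inv.1 x y ⟨(mem_inter.1 k.1).1, k.2⟩, fun x y x' y' e' k => ?_⟩
      have k' := hb.inv.2 x y x' y' e' ⟨(mem_inter.1 k.1).1, k.2⟩
      exact ⟨mem_inter.2 ⟨k'.1, Sy.mem_cls.2 ((Sy.mem_cls.1 (mem_inter.1 k.1).2).trans e'.fst)⟩,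
        k'.2⟩
    have g3 := g2.quot (f := f) Sy.Ref.refl hM' i2 fun y =>
      (card_le_card (filter_subset_filter _ inter_subset_left)).trans (h5 y)
    refine VSURGx.two a h hA hu hb q1 q2 h5 (g1.quot Sy.Ref.refl hM (hb.inv1 a hA) h5)
      (g3.mono (fun y hy => ?_) Sy.Ref.refl le_rfl) (Sy.good_triv (h5 _))
      (Sy.good_triv ((card_le_card inter_subset_left).trans (h5 _))) ?_
    · obtain ⟨u', e'⟩ := (Sy.mem_cls.1 (mem_inter.1 hy).2).ext2 (by omega) (a.dd (hA hu))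
      have k' := hb.inv.2 _ _ _ _ e'.swap ⟨hu, rfl⟩
      exact mem_image.2 ⟨u', mem_inter.2 ⟨k'.1, Sy.mem_cls.2 e'.snd⟩, k'.2.symm⟩
    · rw [min_eq_right (lg_mono e)] at sp
      linarith
  · refine VSURGx.two a h hA hu hb q1 q2 h5 (Sy.good_triv le_rfl)
      (Sy.good_triv (card_le_card inter_subset_left))
      (g1.mono (filter_subset _ _) Sy.Ref.refl le_rfl)
      (g2.mono (inter_subset_inter_right (filter_subset _ _)) Sy.Ref.refl le_rfl) ?_
    rw [min_eq_left (lg_mono e)] at sp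
    linarith

/- The new flag is I.toList ++ k, all new levels lie in C and get the trivial bounds. -/
theorem Vw.Tl.slots (a : v.Ok P) {w u : Y} {Φ : ℝ} (h : v.Tl P w u Φ) {C I : Finset Y}
    (hC : C ⊆ v.D) (hi : InvF v.H C) {c e : ℕ} (h1 : C.card ≤ c) (h2 : c ≤ P.N1) (hI : I ⊆ C)
    (h3 : I.card ≤ e) (h4 : e < P.tau) (h5 : InvF (v.H ⊓ stabilizer G u) I)
    (h6 : v.H ⊓ fixF G I ≤ stabilizer G u) :
    v.Pt P w (Φ + e * (HH P.LL c + 2 * (12289 * lg c))) := by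
  obtain ⟨k, c1, c2, c3⟩ := h
  have t5 : 5 ≤ P.tau := by unfold Pm.tau Pm.t Pm.s; omega
  have hT : 0 ≤ HH P.LL c + 2 * (12289 * lg c) := by
    have := HH_nonneg (Pm.LL_nonneg (P := P)) c
    have := lg_nonneg c
    linarith
  have := a.fin
  refine ⟨I.toList ++ k, (VSURGx.many a c1 inf_le_left hC hi h1 h2 I.toList v.H le_rfl
    (fun z hz => hI (mem_toList.1 hz)) ?_).le ?_, ?_, ?_⟩
  · rw [toList_toFinset]
    exact le_inf inf_le_left h6
  · rw [length_toList]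
    have : (I.card : ℝ) ≤ e := by exact_mod_cast h3
    have := mul_le_mul_of_nonneg_right this hT
    linarith
  · intro g hg
    have e1 := mem_fixF.1 hg.2
    refine c2 ⟨hg.1, mem_fixF.2 fun p hp => ?_⟩
    rcases List.mem_cons.1 (List.mem_toFinset.1 hp) with rfl | hp
    · exact h6 ⟨hg.1, mem_fixF.2 fun q hq => e1 q
        (List.mem_toFinset.2 (List.mem_append_left _ (mem_toList.2 hq)))⟩
    · exact e1 p (List.mem_toFinset.2 (List.mem_append_right _ hp))
  · intro z hz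
    rcases List.mem_append.1 hz with hz | hz
    · exact (c3 u List.mem_cons_self).of_small t5 h5 (mem_toList.1 hz) (h3.trans_lt h4)
    · exact c3 z (List.mem_cons_of_mem _ hz)

end Pool.Agent.P.MP_f1a348_lc.GX
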