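import Pool.Agent.P.MP_f1a348_lc.GX.DefsV
import Pool.Agent.P.MP_f1a348_lc.GX.TSYS
import Pool.Agent.P.MP_f1a348_lc.GX.TGOOD
import Pool.Agent.P.MP_f1a348_lc.GX.THH
import Pool.Agent.P.MP_f1a348_lc.GX.TCONN
import Pool.Agent.P.MP_f1a348_lc.GX.TVORB
import Pool.Agent.P.MP_f1a348_lc.GX.TVGOOD
import Pool.Agent.P.MP_f1a348_lc.GX.TVCH
import Pool.Agent.P.MP_f1a348_lc.GX.TVSURG
import Pool.Agent.P.MP_f1a348_lc.GX.TVARI

/-! Step VEQ2. -/

set_option autoImplicit false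
set_option linter.unusedSectionVars false

namespace Pool.Agent.P.MP_f1a348_lc.GX

open Equiv Finset MulAction
open scoped Classical
variable {G Y : Type} [Group G] [MulAction G Y] [DecidableEq Y] {P : Pm} {H H' K K' : Subgroup G}
  {D D' : Finset Y} {Γ Γ' : Sy Y} {v v' : Vw G Y} {W : ℕ → Vw G Y → Prop}

/- Rule redE. A point with head u outside A: in the new view the orbit of u lies in the class of u. -/
theorem eq2 (hP : P.Ok) (R : Rules P W) {n φ c : ℕ} {Φ Φ' n1 n2 : ℝ} (ih : IH P W n)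
    (hb : Bud P n φ Φ) (h0 : 0 ≤ Φ) (hc : c + 3 * P.g ≤ P.unit) (a : v.Ok P) {O A : Finset Y}
    (hO : v.IsO O) (hg : Giant v.H O) (hN : O.card ≤ P.N1) (hA : v.Γ.Cls A) (hAO : A ⊆ O)
    (he : v.Γ.Equi A) (g1 : (v.Γ1 P).Good P.N1 O n1) (g2 : v.Γ.Good P.N1 A n2)
    (hs : Φ' + HH P.LL O.card + n1 + n2 ≤ Φ)
    (h : ∀ w ∈ v.X, ∃ u ∈ O, v.Tl P w u Φ' ∧ (u ∈ A ∨ (v.Γ.cls u ⊆ O ∧ ∃ ν,
      v.Γ.Good P.N1 (v.Γ.cls u) ν ∧ Φ' + HH P.LL (v.Γ.cls u).card + n1 + ν + 1 ≤ Φ))) :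
    W (φ - c) v := by
  obtain ⟨z, hz, z', hz', hne, hn⟩ := he
  have h2 : ((c + P.g * 3 : ℕ) : ℝ) ≤ P.unit * (1 : ℝ) := by
    rw [mul_one]
    exact_mod_cast (by omega : c + P.g * 3 ≤ P.unit)
  have h3 : c + P.g * 3 ≤ φ := hb.cost (γ := 1) (by linarith) h2
  have hM : 3 ≤ v.Γ.M := by
    have := hP.m1
    rw [a.lev]
    omega
  refine R.redE (φ - c) v O A z z' a hO hg hN hA hAO hz hz' (by omega)
    fun v' b a' m hE nw hbb => ?_
  rw [Nat.sub_sub]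
  refine ih.use hb le_rfl h2 h3 a' fun w hw => ?_
  obtain ⟨u, hu, tl, hc'⟩ := h w (m.x hw)
  have tl' := tl.mono a a' m
  have hOD : O ⊆ v'.D := hO.2.1.trans m.d
  rcases hc' with huA | ⟨hs', ν, gν, hν⟩
  · obtain ⟨f, f1, f2, f3, f4⟩ := Sy.blks hM hA hz hz' hne hn hbb
    have := tl'.split hP a' (hAO.trans hOD) huA nw f1 f2 (f3.le.trans (card_le_card hAO)) hN f4
      (g1.mono hAO (m.ref1 a a') le_rfl) (g2.mono inter_subset_left m.ref le_rfl)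
    exact this.mono a' a' Vw.Mono.refl (by linarith)
  · have ho : v'.o u ⊆ v.Γ.cls u := fun y hy => by
      obtain ⟨-, g, hg', rfl⟩ := mem_orb.1 hy
      exact Sy.mem_cls.2 (hE g hg' u hu)
    have := tl'.head a' (hOD hu) ho ((card_le_card hs').trans hN)
      (g1.mono (ho.trans hs') (m.ref1 a a') le_rfl)
      (gν.mono (inter_subset_left.trans ho) m.ref le_rfl)
    exact this.mono a' a' Vw.Mono.refl (by linarith)

end Pool.Agent.P.MP_f1a348_lc.GX
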