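import Pool.Agent.P.MP_f1a348_lc.GX.DefsV
import Pool.Agent.P.MP_f1a348_lc.GX.TSYS
import Pool.Agent.P.MP_f1a348_lc.GX.TGOOD
import Pool.Agent.P.MP_f1a348_lc.GX.THH
import Pool.Agent.P.MP_f1a348_lc.GX.TVORB
import Pool.Agent.P.MP_f1a348_lc.GX.TVGOOD
import Pool.Agent.P.MP_f1a348_lc.GX.TVALG
import Pool.Agent.P.MP_f1a348_lc.GX.TVCH
import Pool.Agent.P.MP_f1a348_lc.GX.TVARI

/-! Step VS1B. -/

set_option autoImplicit false
set_option linter.unusedSectionVars false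

namespace Pool.Agent.P.MP_f1a348_lc.GX

open Equiv Finset MulAction
open scoped Classical
variable {G Y : Type} [Group G] [MulAction G Y] [DecidableEq Y] {P : Pm} {H H' K K' : Subgroup G}
  {D D' : Finset Y} {Γ Γ' : Sy Y} {v v' : Vw G Y} {W : ℕ → Vw G Y → Prop}

/- Rule quo1; the price is paid: blk_exists and Good.nonneg bound the number of pairs. Nw.inv1 gives Blk for the orbit systems. -/
theorem s1_quo (hP : P.Ok) (R : Rules P W) {n φ c : ℕ} {Φ Φ' n1 n2 : ℝ} (ih : IH P W n)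
    (hb : Bud P n φ Φ) (hc : c ≤ 4 * P.g) (a : v.Ok P) (hX : v.X.Nonempty) {A : Finset Y}
    (h : v.Hd P A n1 n2 Φ' Φ) (o : (v.Γ1 P).OQuo P.N1 A n1) : W (φ - c) v := by
  obtain ⟨C, prs, hC, hN, hp, hq⟩ := o
  have hO := a.cls_iff.1 hC
  obtain ⟨w0, hw0⟩ := hX
  obtain ⟨u0, -, t0, g0⟩ := h.tl w0 hw0
  obtain ⟨Γ0, b0, hb0⟩ := Sy.blk_exists hC.2.1.1 prs
  have e1 := (hq Γ0 b0 hb0).nonneg
  have e2 := t0.nonneg
  have e3 := g0.nonneg
  have e4 : 0 ≤ HH P.LL A.card := HH_nonneg Pm.LL_nonneg _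
  have e5 := h.sum
  have e6 := ari_quo (P := P) (c := c) (r := prs.length) (by omega)
  have e7 := hb.cost (by linarith) e6
  have e8 : (0 : ℝ) ≤ prs.length := Nat.cast_nonneg _
  refine R.quo1 _ v C prs a hO hN hp (by omega) fun v' b a' m eH nw hbl => ?_
  rw [Nat.sub_sub]
  refine ih.use hb (by linarith) e6 e7 a' fun w hw => ?_
  obtain ⟨u, hu, t, g⟩ := h.tl w (m.x hw)
  have hA : v'.o u ⊆ A := orb_sub ((h.o.inv a).mono m.h) hu
  have g1 := hq (v'.Γ1 P) b ⟨m.ref1 a a', by have := hP.m1; change 3 ≤ P.M; omega, hbl,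
    nw.inv1 a' (hO.2.1.trans m.d)⟩
  have g2 : v'.Γ.Good P.N1 (v'.o u ∩ v'.Γ.cls u) n2 := g.mono (fun x hx => mem_inter.2
    ⟨hA (mem_inter.1 hx).1, Sy.mem_cls.2 (m.ref.e1 (a.dd (h.o.2.1 hu))
      (Sy.mem_cls.1 (mem_inter.1 hx).2))⟩) m.ref le_rfl
  exact ((t.mono a a' m).head a' (m.d (h.o.2.1 hu)) hA h.n (g1.mono hA Sy.Ref.refl le_rfl)
    g2).mono a' a' Vw.Mono.refl (by linarith)

/- Rule pin1 with Q = C; the new group fixes every point of A; γ = HH card A. -/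
theorem s1_kill (hP : P.Ok) (R : Rules P W) {n φ c : ℕ} {Φ Φ' n1 n2 : ℝ} (ih : IH P W n)
    (hb : Bud P n φ Φ) (hc : c ≤ 4 * P.g) (a : v.Ok P) (hX : v.X.Nonempty) {A : Finset Y}
    (h : v.Hd P A n1 n2 Φ' Φ) (h2 : 2 ≤ A.card) (o : (v.Γ1 P).OKill P.t0 A) : W (φ - c) v := by
  obtain ⟨C, hC, hle, hsm, hsep⟩ := o
  have hO := a.cls_iff.1 hC
  obtain ⟨p, hp⟩ := hO.1
  obtain ⟨w0, hw0⟩ := hX
  obtain ⟨u0, -, t0, g0⟩ := h.tl w0 hw0
  have e1 := h.g1.nonneg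
  have e2 := t0.nonneg
  have e3 := g0.nonneg
  have e5 := h.sum
  have e6 := ari_kill (P := P) (c := c + P.g) (by omega) h2 (a.card_le (h.o.2.1.trans a.dd)) hle hsm
  have e7 := hb.cost (by linarith) e6
  have eo := hO.2.2 p hp
  refine R.pin1 _ v p C a (hO.2.1 hp) eo.ge (by rw [eo]; omega) fun v' a' m hf => ?_
  rw [eo, Nat.sub_sub, ← add_assoc]
  refine ih.use hb (one_le_HH h2) e6 e7 a' fun w hw => ?_
  obtain ⟨u, hu, t, -⟩ := h.tl w (m.x hw)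
  refine ((t.mono a a' m).kill fun g hg => ?_).mono a' a' Vw.Mono.refl (by linarith)
  refine (hsep u hu (g • u) (h.o.inv a g (m.h hg) u hu) fun x hx => ?_).symm
  exact (sys1_E2 P.M a.inv).2 ⟨h.o.2.1 hu, hO.2.1 hx, g, m.h hg, rfl, mem_fixF.1 (hf hg) x hx⟩

end Pool.Agent.P.MP_f1a348_lc.GX
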