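import Pool.Agent.P.MP_f1a348_lc.GX.DefsV
import Pool.Agent.P.MP_f1a348_lc.GX.TSYS
import Pool.Agent.P.MP_f1a348_lc.GX.TGOOD
import Pool.Agent.P.MP_f1a348_lc.GX.THH
import Pool.Agent.P.MP_f1a348_lc.GX.TVORB
import Pool.Agent.P.MP_f1a348_lc.GX.TVGOOD
import Pool.Agent.P.MP_f1a348_lc.GX.TVALG
import Pool.Agent.P.MP_f1a348_lc.GX.TVCH
import Pool.Agent.P.MP_f1a348_lc.GX.TVSURG
import Pool.Agent.P.MP_f1a348_lc.GX.TVARI
import Pool.Agent.P.MP_f1a348_lc.GX.TVEQ2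

/-! Step VS2. -/

set_option autoImplicit false
set_option linter.unusedSectionVars false

namespace Pool.Agent.P.MP_f1a348_lc.GX

open Equiv Finset MulAction
open scoped Classical
variable {G Y : Type} [Group G] [MulAction G Y] [DecidableEq Y] {P : Pm} {H H' K K' : Subgroup G}
  {D D' : Finset Y} {Γ Γ' : Sy Y} {v v' : Vw G Y} {W : ℕ → Vw G Y → Prop}

/- Rule pin2 (ref_pin_of), then red0 if all classes inside O satisfy the first alternative, else eq2. -/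
theorem s2_pin (hP : P.Ok) (R : Rules P W) {n φ c : ℕ} {Φ Φ' n1 n2 : ℝ} (ih : IH P W n)
    (hb : Bud P n φ Φ) (hc : c ≤ 4 * P.g) (a : v.Ok P) (hX : v.X.Nonempty) {O : Finset Y}
    (h : v.Hd P O n1 n2 Φ' Φ) (hg : Giant v.H O) (hO : v.Γ.Cls O)
    (o : v.Γ.OPin P.LL P.N1 P.tau O n2) : W (φ - c) v := by
  obtain ⟨C, Q, d, hC, hQ, hQd, hd1, hdt, o⟩ := o
  obtain ⟨p, hp⟩ := hC.1
  have eC : v.Γ.cls p = C := (hC.eq_cls hp).symm
  have hQD : Q ⊆ v.Γ.D := hQ.trans hC.2.1.1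
  have hm1 := hP.m1
  obtain ⟨w0, hw0⟩ := hX
  obtain ⟨u0, hu0, t0, g0⟩ := h.tl w0 hw0
  have hΦ' : 0 ≤ Φ' := t0.nonneg
  have hn1 : 0 ≤ n1 := h.g1.nonneg
  have hn2 : 0 ≤ n2 := g0.nonneg
  have gO : v.Γ.Good P.N1 O n2 := by
    rwa [← hO.eq_cls hu0, inter_self] at g0
  have hH : ∀ x : ℕ, 0 ≤ HH P.LL x := fun x => HH_nonneg Pm.LL_nonneg x
  have hs := h.sum
  have h0 : 0 ≤ Φ := by linarith [hH O.card]
  have hμ0 : 0 ≤ min (d : ℝ) (lg C.card) := le_min (Nat.cast_nonneg d) (lg_nonneg _)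
  have hCl : C.card ≤ 2 ^ P.lam := a.card_le hC.2.1.1
  have hgu : 100 * P.g ≤ P.unit := Pm.g_le
  have ar := ari_pin (P := P) (c := c + P.g + P.g) (by omega) hdt hQd hCl
  have hμ : min (d : ℝ) (lg C.card) ≤ Φ := by
    have r0 : v.Γ.Ref (v.Γ.pin Q) := Sy.ref_pin Q
    have hu1 : u0 ∈ (v.Γ.pin Q).D := hO.2.1.1 hu0
    have hsub : (v.Γ.pin Q).cls u0 ⊆ O := (r0.inv1 hO.2.1).cls_sub hu0
    have hM : 3 ≤ (v.Γ.pin Q).M := by
      show 3 ≤ v.Γ.M - Q.card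
      rw [a.lev]; omega
    rcases o _ Sy.Ref.refl hM _ hsub (Sy.cls_cls hu1) with ⟨ν, g, e⟩ | ⟨e, -, z, hz, z', hz', hne, -⟩
    · linarith [g.nonneg, hH ((v.Γ.pin Q).cls u0).card]
    · have h2 : 2 ≤ O.card := one_lt_card.2 ⟨z, hsub hz, z', hsub hz', hne⟩
      have h3 := one_le_HH (P := P) h2
      have h4 : min (d : ℝ) (lg C.card) ≤ 1 := by
        rw [e]; exact (min_le_left _ _).trans (by simp)
      linarith
  have pay : c + P.g + P.g + 2 * Q.card * bl C.card ≤ φ := hb.cost (by linarith) ar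
  refine R.pin2 _ v p Q a (hC.2.1.1 hp) (eC ▸ hQ) (by rw [eC]; omega) ?_
  intro v' a' m eH eD hs'
  rw [eC]
  have r : (v.Γ.pin Q).Ref v'.Γ :=
    Sy.ref_pin_of m.dd m.l hQD hs' (by rw [a'.lev]; omega)
  have hM : 3 ≤ v'.Γ.M := by rw [a'.lev]; omega
  have o' := o v'.Γ r hM
  have iO : v'.Γ.Inv1 O := m.ref.inv1 hO.2.1
  have isO : v'.IsO O := ⟨h.o.1, eD ▸ h.o.2.1, fun u hu => by
    have := h.o.2.2 u hu
    unfold Vw.o at this ⊢
    rw [eH, eD]; exact this⟩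
  have hg' : Giant v'.H O := eH ▸ hg
  by_cases hall : ∀ A' ⊆ O, v'.Γ.Cls A' → ∃ ν', v'.Γ.Good P.N1 A' ν' ∧
      HH P.LL A'.card + ν' + 1 + min (d : ℝ) (lg C.card) ≤ HH P.LL O.card + n2
  · refine R.red0 _ v' O a' isO hg' (by omega) ?_
    intro v'' a'' m' hk
    rw [show φ - c - (P.g + 2 * Q.card * bl C.card) - P.g =
      φ - (c + P.g + P.g + 2 * Q.card * bl C.card) by omega]
    refine ih.use hb (γ := 1 + min (d : ℝ) (lg C.card)) (by linarith) ar pay a'' ?_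
    intro w hw
    obtain ⟨u, hu, t, -⟩ := h.tl w (m.x (m'.x hw))
    have t' := (t.mono a a' m).mono a' a'' m'
    have hsub : v'.Γ.cls u ⊆ O := iO.cls_sub hu
    obtain ⟨ν, g, e⟩ := hall _ hsub (Sy.cls_cls (iO.1 hu))
    have ho : v''.o u ⊆ v'.Γ.cls u := fun y hy => by
      obtain ⟨-, k, hk1, rfl⟩ := mem_orb.1 hy
      exact Sy.mem_cls.2 (hk k hk1 u hu)
    have pt := t'.head a'' (m'.d (isO.2.1 hu)) ho ((card_le_card hsub).trans h.n)
      (h.g1.mono (ho.trans hsub) ((m.trans m').ref1 a a'') le_rfl)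
      (g.mono (inter_subset_left.trans ho) m'.ref le_rfl)
    exact pt.mono a'' a'' Vw.Mono.refl (by linarith)
  · push Not at hall
    obtain ⟨A', hA1, hA2, hA3⟩ := hall
    rcases o' A' hA1 hA2 with ⟨ν, g, e⟩ | ⟨e, hbig, he⟩
    · exact absurd e (not_le.2 (hA3 ν g))
    have hbl := bl_le hCl
    have hk : 2 * Q.card * bl C.card ≤ P.g := by
      have : 2 * Q.card * bl C.card ≤ 4 * (P.lam + 1) := Nat.mul_le_mul (by omega) hbl
      unfold Pm.g; omega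
    rw [Nat.sub_sub]
    refine eq2 hP R ih hb h0 (by omega) a' isO hg' h.n hA2 hA1 he
      (h.g1.mono subset_rfl (m.ref1 a a') le_rfl) (gO.mono hA1 m.ref le_rfl) hs ?_
    intro w hw
    obtain ⟨u, hu, t, -⟩ := h.tl w (m.x hw)
    refine ⟨u, hu, t.mono a a' m, ?_⟩
    by_cases huA : u ∈ A'
    · exact Or.inl huA
    have hsub : v'.Γ.cls u ⊆ O := iO.cls_sub hu
    have hcl := Sy.cls_cls (iO.1 hu)
    refine Or.inr ⟨hsub, ?_⟩
    rcases o' _ hsub hcl with ⟨ν, g, e'⟩ | ⟨-, hbig', -⟩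
    · exact ⟨ν, g, by linarith⟩
    · exfalso
      have hdis : Disjoint A' (v'.Γ.cls u) := disjoint_left.2 fun y hy hy' =>
        huA (hA2.2.1.2 y u (Sy.mem_cls.1 hy').symm hy)
      have := card_le_card (union_subset hA1 hsub)
      rw [card_union_of_disjoint hdis] at this
      omega

end Pool.Agent.P.MP_f1a348_lc.GX
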