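import Pool.Agent.P.MP_f1a348_lc.GX.DefsV
import Pool.Agent.P.MP_f1a348_lc.GX.TSYS
import Pool.Agent.P.MP_f1a348_lc.GX.TGOOD
import Pool.Agent.P.MP_f1a348_lc.GX.THH
import Pool.Agent.P.MP_f1a348_lc.GX.TVORB
import Pool.Agent.P.MP_f1a348_lc.GX.TVGOOD
import Pool.Agent.P.MP_f1a348_lc.GX.TVALG
import Pool.Agent.P.MP_f1a348_lc.GX.TVCH
import Pool.Agent.P.MP_f1a348_lc.GX.TVARI

/-! Step VS2B. -/

set_option autoImplicit false
set_option linter.unusedSectionVars false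

namespace Pool.Agent.P.MP_f1a348_lc.GX

open Equiv Finset MulAction
open scoped Classical
variable {G Y : Type} [Group G] [MulAction G Y] [DecidableEq Y] {P : Pm} {H H' K K' : Subgroup G}
  {D D' : Finset Y} {Γ Γ' : Sy Y} {v v' : Vw G Y} {W : ℕ → Vw G Y → Prop}

/- Rule quo2; blk_exists for the price. -/
theorem s2_quo (hP : P.Ok) (R : Rules P W) {n φ c : ℕ} {Φ Φ' n1 n2 : ℝ} (ih : IH P W n)
    (hb : Bud P n φ Φ) (hc : c ≤ 4 * P.g) (a : v.Ok P) (hX : v.X.Nonempty) {O : Finset Y}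
    (h : v.Hd P O n1 n2 Φ' Φ) (hO : v.Γ.Cls O) (o : v.Γ.OQuo P.N1 O n2) : W (φ - c) v := by
  obtain ⟨C, prs, hC, hN, hprs, hgood⟩ := o
  obtain ⟨Γ0, b0, hb0⟩ := Sy.blk_exists (Γ := v.Γ) hC.2.1.1 prs
  have e1 := (hgood Γ0 b0 hb0).nonneg
  obtain ⟨w0, hw0⟩ := hX
  obtain ⟨u0, -, t0, -⟩ := h.tl w0 hw0
  have e2 := t0.nonneg
  have e3 := HH_nonneg (Pm.LL_nonneg (P := P)) O.card
  have e4 := h.g1.nonneg
  have e5 := h.sum
  have e6 : (0 : ℝ) ≤ prs.length := Nat.cast_nonneg _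
  have h2 := ari_quo (P := P) (c := c) (r := prs.length) (by omega)
  have h3 := hb.cost (by linarith) h2
  refine R.quo2 _ v C prs a hC hN hprs (by omega) fun v' b a' m _ _ blk => ?_
  rw [Nat.sub_sub]
  refine ih.use hb (by linarith) h2 h3 a' fun w hw => ?_
  obtain ⟨u, hu, t, -⟩ := h.tl w (m.x hw)
  have hs : v'.o u ⊆ O := orb_sub ((Vw.IsO.inv a h.o).mono m.h) hu
  have := (t.mono a a' m).head a' (m.d (h.o.2.1 hu)) hs h.n
    (h.g1.mono hs (m.ref1 a a') le_rfl)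
    ((hgood v'.Γ b blk).mono (inter_subset_left.trans hs) Sy.Ref.refl le_rfl)
  exact this.mono a' a' Vw.Mono.refl (by linarith)

/- Rule pin2 with Q = C, then red0: all points of O are singleton classes (e2_single), the new group fixes them. -/
theorem s2_kill (hP : P.Ok) (R : Rules P W) {n φ c : ℕ} {Φ Φ' n1 n2 : ℝ} (ih : IH P W n)
    (hb : Bud P n φ Φ) (hc : c ≤ 4 * P.g) (a : v.Ok P) (hX : v.X.Nonempty) {O : Finset Y}
    (h : v.Hd P O n1 n2 Φ' Φ) (hg : Giant v.H O) (hO : v.Γ.Cls O) (h2 : 2 ≤ O.card)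
    (o : v.Γ.OKill P.t0 O) : W (φ - c) v := by
  obtain ⟨C, hC, hCO, hsm, hsep⟩ := o
  obtain ⟨p, hp⟩ := hC.1
  have ec := hC.eq_cls hp
  obtain ⟨w0, hw0⟩ := hX
  obtain ⟨u0, -, t0, g0⟩ := h.tl w0 hw0
  have e1 := g0.nonneg
  have e2 := t0.nonneg
  have e3 := one_le_HH (P := P) h2
  have e4 := h.g1.nonneg
  have e5 := h.sum
  have k2 := ari_kill (P := P) (c := c + 2 * P.g) (x := C.card) (by omega) h2
    (a.card_le hO.2.1.1) hCO hsm
  have k3 := hb.cost (by linarith) k2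
  refine R.pin2 _ v p C a (hC.2.1.1 hp) ec.le (by rw [← ec]; omega)
    fun v' a' m eH eD hs => ?_
  rw [← ec]
  have hO' : v'.IsO O := by
    refine ⟨h.o.1, eD ▸ h.o.2.1, fun u hu => ?_⟩
    rw [Vw.o, eH, eD]
    exact h.o.2.2 u hu
  refine R.red0 _ v' O a' hO' (eH ▸ hg) (by omega) fun v'' a'' m' hE => ?_
  have e : φ - c - (P.g + 2 * C.card * bl C.card) - P.g =
      φ - (c + 2 * P.g + 2 * C.card * bl C.card) := by omega
  rw [e]
  refine ih.use hb e3 k2 k3 a'' fun w hw => ?_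
  obtain ⟨u, hu, t, -⟩ := h.tl w (m.x (m'.x hw))
  have hM : 2 ≤ v'.Γ.M := by
    have := hP.m2
    rw [a'.lev]
    omega
  have hfix : v''.H ≤ stabilizer G u := fun g hg' => by
    have hu' : g • u ∈ O := Vw.IsO.inv a h.o g (m.h (m'.h hg')) u hu
    refine (hsep u hu _ hu' fun q hq => ?_).symm
    exact m.ref.2 u (hO.2.1.1 hu) q (hC.2.1.1 hq) _ _
      (Sy.e2_single hM (hE g hg' u hu) (m.dd (hC.2.1.1 hq)) (hs q hq))
  exact ((t.mono a a'' (m.trans m')).kill hfix).mono a'' a'' Vw.Mono.refl (by linarith)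

end Pool.Agent.P.MP_f1a348_lc.GX
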