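import Pool.Agent.P.MP_f1a348_lc.GX.DefsV
import Pool.Agent.P.MP_f1a348_lc.GX.TGOOD
import Pool.Agent.P.MP_f1a348_lc.GX.THH
import Pool.Agent.P.MP_f1a348_lc.GX.TVORB
import Pool.Agent.P.MP_f1a348_lc.GX.TVCH

/-! Step VSHR. -/

set_option autoImplicit false
set_option linter.unusedSectionVars false

namespace Pool.Agent.P.MP_f1a348_lc.GX

open Equiv Finset MulAction
open scoped Classical
variable {G Y : Type} [Group G] [MulAction G Y] [DecidableEq Y] {P : Pm} {H H' K K' : Subgroup G}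
  {D D' : Finset Y} {Γ Γ' : Sy Y} {v v' : Vw G Y} {W : ℕ → Vw G Y → Prop}

namespace VSHRx

lemma relIndex_shrink {V S K H : Subgroup G} [Finite H] (hK : K ≤ H) (hV : V ⊓ H ≤ S) :
    V.relIndex K * S.relIndex H ≤ V.relIndex H * S.relIndex K := by
  have key : ∀ J ≤ H, V.relIndex J = V.relIndex (S ⊓ J) * S.relIndex J := fun J hJ => by
    rw [Subgroup.relIndex_inf_mul_relIndex, ← Subgroup.inf_relIndex_right V J,
      ← Subgroup.inf_relIndex_right (V ⊓ S) J]
    congr 1
    exact le_antisymm (le_inf (le_inf inf_le_left ((inf_le_inf_left V hJ).trans hV)) inf_le_right)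
      (inf_le_inf_right J inf_le_left)
  have : Finite ↥(S ⊓ H) := Finite.of_injective _ (Subgroup.inclusion_injective inf_le_right)
  have h1 : V.relIndex (S ⊓ K) ≤ V.relIndex (S ⊓ H) :=
    Subgroup.relIndex_le_of_le_right (inf_le_inf_left S hK) Subgroup.index_ne_zero_of_finite
  rw [key K hK, key H le_rfl, mul_right_comm]
  exact Nat.mul_le_mul_right _ (Nat.mul_le_mul_right _ h1)

lemma fix_cons (z : Y) (k : List Y) :
    fixF G (z :: k).toFinset = fixF G k.toFinset ⊓ stabilizer G z := by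
  ext g
  simp [mem_fixF, and_comm]

lemma idx_cons (K : Subgroup G) (z : Y) (k : List Y) :
    (fixF G (z :: k).toFinset).relIndex K =
      (fixF G k.toFinset).relIndex (K ⊓ stabilizer G z) * (stabilizer G z).relIndex K := by
  rw [fix_cons, ← Subgroup.relIndex_inf_mul_relIndex, inf_comm K]

lemma rne (V K : Subgroup G) [Finite K] : V.relIndex K ≠ 0 := Subgroup.index_ne_zero_of_finite

lemma lgm {a b : ℕ} (ha : a ≠ 0) (hb : b ≠ 0) : lg (a * b) = lg a + lg b := by
  unfold lg
  rw [Nat.cast_mul, Real.logb_mul (by exact_mod_cast ha) (by exact_mod_cast hb)]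

lemma drop (dd : D ⊆ Γ.D) (k : List Y) : ∀ (K K' : Subgroup G) [Finite K] (Φ : ℝ),
    Ch P D Γ K k Φ → InvF K D → K' ≤ K →
    Ch P D Γ K' k (Φ - 2 ^ 19 * (P.LL / 8 + 1) *
      (lg ((fixF G k.toFinset).relIndex K) - lg ((fixF G k.toFinset).relIndex K'))) := by
  induction k with
  | nil =>
    intro K K' _ Φ h _ _
    have e : fixF G (([] : List Y).toFinset) = ⊤ := by
      ext g
      simp [mem_fixF]
    rw [e, Subgroup.relIndex_top_left, Subgroup.relIndex_top_left]
    simpa [Ch] using h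
  | cons z k ih =>
    intro K K' _ Φ h hI e
    obtain ⟨hz, hN, n1, n2, g1, g2, h⟩ := h
    have hI' : InvF K' D := hI.mono e
    have : Finite K' := Finite.of_injective _ (Subgroup.inclusion_injective e)
    have : Finite ↥(K ⊓ stabilizer G z) :=
      Finite.of_injective _ (Subgroup.inclusion_injective inf_le_left)
    have : Finite ↥(K' ⊓ stabilizer G z) :=
      Finite.of_injective _ (Subgroup.inclusion_injective inf_le_left)
    have so : orb K' D z ⊆ orb K D z := orb_mono hI e hz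
    refine ⟨hz, (card_le_card so).trans hN, n1, n2,
      g1.mono so (sys1_ref _ _ hI hI' e Subset.rfl) le_rfl,
      g2.mono (inter_subset_inter_right so) Sy.Ref.refl le_rfl, ?_⟩
    refine (ih _ (K' ⊓ stabilizer G z) _ h (hI.mono inf_le_left) (inf_le_inf_right _ e)).le ?_
    have h1 := HH_drop (Pm.LL_nonneg (P := P)) (q := (orb K D z).card) (q' := (orb K' D z).card)
      (card_pos.2 ⟨z, self_mem_orb hz⟩) (card_le_card so)
    rw [idx_cons, idx_cons, lgm (rne _ _) (rne _ _), lgm (rne _ _) (rne _ _), ← card_orb hI hz,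
      ← card_orb hI' hz]
    linarith

end VSHRx

open VSHRx

/- Let pr K k be the index in K of the pointwise stabiliser of k, the product of the sizes of the levels (card_orb). HH_drop at each level gives the drop c (lg (pr K k) - lg (pr K' k)). With S the stabiliser of w: pr K k = [K : K ⊓ S] [K ⊓ S : K_k] and [K' ⊓ S : K'_k] ≤ [K ⊓ S : K_k]. -/
theorem Ch.shrink [Finite K] {k : List Y} {Φ : ℝ} (h : Ch P D Γ K k Φ) (hI : InvF K D)
    (dd : D ⊆ Γ.D) (e : K' ≤ K) {w : Y} (hw : w ∈ D)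
    (hk : K ⊓ fixF G k.toFinset ≤ stabilizer G w) {a b : ℕ} (ha : 0 < a)
    (c : (orb K' D w).card * a ≤ (orb K D w).card * b) :
    Ch P D Γ K' k (Φ - 2 ^ 19 * (P.LL / 8 + 1) * (lg a - lg b)) := by
  have hI' : InvF K' D := hI.mono e
  have : Finite K' := Finite.of_injective _ (Subgroup.inclusion_injective e)
  refine (drop dd k K K' Φ h hI e).le ?_
  have h1 := relIndex_shrink (V := fixF G k.toFinset) (S := stabilizer G w) e
    (by rwa [inf_comm])
  rw [card_orb hI hw, card_orb hI' hw] at c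
  set p := (fixF G k.toFinset).relIndex K
  set p' := (fixF G k.toFinset).relIndex K'
  set o := (stabilizer G w).relIndex K
  set o' := (stabilizer G w).relIndex K'
  have hp : p ≠ 0 := Subgroup.index_ne_zero_of_finite
  have hp' : p' ≠ 0 := Subgroup.index_ne_zero_of_finite
  have ho : o ≠ 0 := Subgroup.index_ne_zero_of_finite
  have ho' : o' ≠ 0 := Subgroup.index_ne_zero_of_finite
  have hb : b ≠ 0 := by
    rintro rfl
    have := Nat.mul_pos (Nat.pos_of_ne_zero ho') ha
    omega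
  have h2 : p' * a ≤ p * b := by
    refine Nat.le_of_mul_le_mul_right ?_ (Nat.pos_of_ne_zero ho)
    calc p' * a * o = p' * o * a := by ring
      _ ≤ p * o' * a := Nat.mul_le_mul_right _ h1
      _ = p * (o' * a) := by ring
      _ ≤ p * (o * b) := Nat.mul_le_mul_left _ c
      _ = p * b * o := by ring
  have h3 := HHx.lg_le (Nat.mul_pos (Nat.pos_of_ne_zero hp') ha) h2
  rw [lgm hp' ha.ne', lgm hp hb] at h3
  have h4 := Pm.LL_nonneg (P := P)
  have h5 : (0 : ℝ) ≤ 2 ^ 19 * (P.LL / 8 + 1) := by positivity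
  have := mul_le_mul_of_nonneg_left (show lg a - lg b ≤ lg p - lg p' by linarith) h5
  linarith

/- Ch.emb with K' = K = v.H, then Ch.shrink; Det moves with α⁻¹ (AlgPt.smul) -/
theorem Vw.Pt.emb (a : v.Ok P) (a' : v'.Ok P) (m : v.Emb P v') {Φ : ℝ}
    (h : ∀ w ∈ v.X, v.Pt P w Φ) {x y : ℕ} (hx : 0 < x) {w : Y} (hw : w ∈ v'.X)
    (c : (v'.o w).card * x ≤ (v.o w).card * y) :
    v'.Pt P w (Φ - 2 ^ 19 * (P.LL / 8 + 1) * (lg x - lg y)) := by
  obtain ⟨e1, e2, α, hα, e, he, h1, h2⟩ := m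
  obtain ⟨h3, h4⟩ := h2 w hw
  obtain ⟨k, hk, d1, d2⟩ := h _ h3
  have := a.fin
  have hwD : w ∈ v.D := e2 ▸ a'.xd hw
  have h5 := hk.emb (Γ' := v'.Γ) (K' := v.H) a.inv a.inv (α := α) (fun _ => a.inv.iff hα)
    (fun g hg => v.H.mul_mem (v.H.mul_mem hα hg) (v.H.inv_mem hα)) a.dd he h1
    (fun z hz => h4 z (hk.mem z hz) (d2 z hz))
  have d3 : v.H ⊓ fixF G (k.map (fun z => α⁻¹ • z)).toFinset ≤ stabilizer G w := by
    intro g hg
    obtain ⟨g1, g2⟩ := Subgroup.mem_inf.1 hg
    have : α * g * α⁻¹ ∈ stabilizer G (α • w) := d1 (Subgroup.mem_inf.2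
      ⟨v.H.mul_mem (v.H.mul_mem hα g1) (v.H.inv_mem hα), mem_fixF.2 fun p hp => by
        rw [mul_smul, mul_smul, mem_fixF.1 g2 (α⁻¹ • p)
          (List.mem_toFinset.2 (List.mem_map_of_mem (List.mem_toFinset.1 hp))), smul_inv_smul]⟩)
    rw [mem_stabilizer_iff, mul_smul, mul_smul, inv_smul_smul] at this
    exact MulAction.injective α this
  refine ⟨k.map (fun z => α⁻¹ • z), ?_, (inf_le_inf_right _ e1).trans d3, fun z hz => ?_⟩
  · rw [e2]
    refine h5.shrink a.inv (e2 ▸ a'.dd) e1 hwD d3 hx ?_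
    simpa only [Vw.o, e2] using c
  · obtain ⟨z0, hz0, rfl⟩ := List.mem_map.1 hz
    have := (d2 z0 hz0).smul (v.H.inv_mem hα)
    rw [inv_smul_smul] at this
    exact this.mono e1

end Pool.Agent.P.MP_f1a348_lc.GX
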