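import Pool.Agent.P.MP_f1a348_lc.GX.DefsV
import Pool.Agent.P.MP_f1a348_lc.GX.TSYS
import Pool.Agent.P.MP_f1a348_lc.GX.TGOOD
import Pool.Agent.P.MP_f1a348_lc.GX.THH
import Pool.Agent.P.MP_f1a348_lc.GX.TSTEP
import Pool.Agent.P.MP_f1a348_lc.GX.TVORB
import Pool.Agent.P.MP_f1a348_lc.GX.TVGOOD
import Pool.Agent.P.MP_f1a348_lc.GX.TVALG
import Pool.Agent.P.MP_f1a348_lc.GX.TVCH
import Pool.Agent.P.MP_f1a348_lc.GX.TVSHR
import Pool.Agent.P.MP_f1a348_lc.GX.TVARI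
import Pool.Agent.P.MP_f1a348_lc.GX.TVEQ2
import Pool.Agent.P.MP_f1a348_lc.GX.TVS1B
import Pool.Agent.P.MP_f1a348_lc.GX.TVS2
import Pool.Agent.P.MP_f1a348_lc.GX.TVS2B
import Pool.Agent.P.MP_f1a348_lc.GX.TVS2C

/-! Step VGI. -/

set_option autoImplicit false
set_option linter.unusedSectionVars false

namespace Pool.Agent.P.MP_f1a348_lc.GX

open Equiv Finset MulAction
open scoped Classical
variable {G Y : Type} [Group G] [MulAction G Y] [DecidableEq Y] {P : Pm} {H H' K K' : Subgroup G}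
  {D D' : Finset Y} {Γ Γ' : Sy Y} {v v' : Vw G Y} {W : ℕ → Vw G Y → Prop}

/- Sy.step for v.Γ and O; the last outcome is excluded. -/
theorem s2 (hP : P.Ok) (R : Rules P W) {n φ c : ℕ} {Φ Φ' n1 n2 : ℝ} (ih : IH P W n)
    (hb : Bud P n φ Φ) (hc : c ≤ 4 * P.g) (a : v.Ok P) (hX : v.X.Nonempty) {O : Finset Y}
    (h : v.Hd P O n1 n2 Φ' Φ) (hg : Giant v.H O) (hO : v.Γ.Cls O) (h2 : 2 ≤ O.card)
    (ht : ¬ v.Γ.Tr O P.tau) : W (φ - c) v := by
  obtain ⟨w, hw⟩ := id hX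
  obtain ⟨u, hu, t, g⟩ := h.tl w hw
  rw [← hO.eq_cls hu, inter_self] at g
  have h0 : 0 ≤ Φ := by
    have := t.nonneg
    have := g.nonneg
    have := h.g1.nonneg
    have := HH_nonneg (Pm.LL_nonneg (P := P)) O.card
    have := h.sum
    linarith
  have hM : 2 * P.tau + 4 ≤ v.Γ.M := a.lev ▸ hP.m1
  have hτ : P.lam + 1 ≤ P.tau := by unfold Pm.tau Pm.t; omega
  have ht0 : 4 * P.tau ≤ P.t0 := Nat.le_add_right _ _
  rcases Sy.step (Pm.LL_nonneg (P := P)) hM hτ ht0 hO h2 (a.card_le hO.2.1.1) h.n g with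
    o | o | o | o | o | o | o
  · exact s2_free hP ih hb hc a hX h o
  · exact s2_pin hP R ih hb hc a hX h hg hO o
  · exact s2_quo hP R ih hb hc a hX h hO o
  · refine eq2 hP R ih hb h0 ?_ a h.o hg h.n hO Subset.rfl o h.g1 g h.sum fun w hw => ?_
    · have := Pm.g_le (P := P)
      omega
    · obtain ⟨u, hu, t, _⟩ := h.tl w hw
      exact ⟨u, hu, t, Or.inl hu⟩
  · exact s2_kill hP R ih hb hc a hX h hg hO h2 o
  · exact s2_john hP R ih hb hc a hX h hg hO o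
  · exact absurd o.2 ht

/- Rule giant. First premise: HH_34, Tl.head. Second premise: empty X' is a leaf; Hd for v' and O'; one point: Tl.kill; small: s1_kill with C = O'; else s2. Third premise: Pt.emb, ari_lc. -/
theorem gi (hP : P.Ok) (R : Rules P W) {n φ c : ℕ} {Φ Φ' n1 n2 : ℝ} (ih : IH P W n)
    (hb : Bud P n φ Φ) (hc : c ≤ 2 * P.g) (a : v.Ok P) (hX : v.X.Nonempty) {A : Finset Y}
    (h : v.Hd P A n1 n2 Φ' Φ) (hg : Giant v.H A) (h2 : 2 ≤ A.card) {w0 u0 : Y} (hw : w0 ∈ v.D)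
    (hu : u0 ∈ A) (g2 : v.Γ.Good P.N1 (A ∩ v.Γ.cls u0) n2)
    (h3 : ∀ w ∈ v.X, ∃ u ∈ A, v.Γ.E2 w0 u0 w u)
    (h4 : ∀ w u, v.Γ.E2 w0 u0 w u → v.Tl P w u Φ') : W (φ - c) v := by
  have hL := Pm.LL_nonneg (P := P)
  have hgu := Pm.g_le (P := P)
  have p1 : 0 ≤ n1 := h.g1.nonneg
  have p2 : 0 ≤ n2 := g2.nonneg
  have p0 : 0 ≤ Φ' := by
    obtain ⟨w, hw⟩ := hX
    obtain ⟨u, _, t, _⟩ := h.tl w hw
    exact t.nonneg
  have hs := h.sum
  have hA1 := one_le_HH (P := P) h2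
  have fuel : c + P.g * 2 + P.cst A.card ≤ φ :=
    hb.cost (by linarith) (ari_cst (c := c + P.g * 2) (by omega) h2)
  have hAD : A ⊆ v.D := h.o.2.1
  have hI := h.o.inv a
  have one : ((c + P.g * 2 : ℕ) : ℝ) ≤ P.unit * (1 : ℝ) := by
    rw [mul_one]; exact_mod_cast (by omega : c + P.g * 2 ≤ P.unit)
  have gd : ∀ (v' : Vw G Y), v.Mono v' → ∀ B ⊆ A, ∀ w u, v.Γ.E2 w0 u0 w u →
      v'.Γ.Good P.N1 (B ∩ v'.Γ.cls u) n2 := fun v' m B hB w u e =>
    g2.mono (fun x hx => mem_inter.2 ⟨hB (mem_inter.1 hx).1, Sy.mem_cls.2 (e.snd.trans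
      (m.ref.e1 e.snd.mem.2 (Sy.mem_cls.1 (mem_inter.1 hx).2)))⟩) m.ref le_rfl
  refine R.giant (φ - c) v A w0 u0 a h.o hg hw hu h3 (fun w _ u _ e => ?_) (by omega)
    (fun v' a' m q => ?_) (fun v' O a' m hO o q alt => ?_) (fun v' o a' m o1 o2 q => ?_)
  · obtain ⟨k, _, d⟩ := h4 w u e
    exact d.2 u (List.mem_cons_self ..)
  · rw [Nat.sub_sub]
    refine ih.use hb le_rfl one (by omega) a' fun w hw => ?_
    obtain ⟨u, hu, e, l⟩ := q w hw
    have hs' : v'.o u ⊆ A := orb_sub (hI.mono m.h) hu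
    have hu' : u ∈ v'.D := m.d (hAD hu)
    have := HH_34 hL (card_pos.2 ⟨u, self_mem_orb (H := v'.H) hu'⟩) l
    refine (((h4 w u e).mono a a' m).head a' hu' Subset.rfl ((card_le_card hs').trans h.n)
      (h.g1.mono hs' (m.ref1 a a') le_rfl) (gd v' m _ hs' w u e)).mono a' a' Vw.Mono.refl ?_
    unfold Vw.o at *
    linarith
  · rcases v'.X.eq_empty_or_nonempty with hX' | hX'
    · exact R.leaf _ v' a' (by rw [hX']; exact fun _ _ _ hx => absurd hx (notMem_empty _))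
    rw [Nat.sub_sub]
    have hd : v'.Hd P O n1 n2 Φ' Φ := ⟨o, (card_le_card hO).trans h.n,
      h.g1.mono hO (m.ref1 a a') le_rfl, fun w hw => by
        obtain ⟨u, hu, e⟩ := q w hw
        exact ⟨u, hu, (h4 w u e).mono a a' m, gd v' m O hO w u e⟩,
      by have := HH_mono hL (card_le_card hO); linarith⟩
    rcases le_or_gt O.card 1 with c1 | c1
    · refine ih.use hb le_rfl one (by omega) a' fun w hw => ?_
      obtain ⟨u, hu, t, _⟩ := hd.tl w hw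
      exact (t.kill fun g hg => card_le_one.1 c1 _ (o.inv a' g hg u hu) _ hu).mono a' a'
        Vw.Mono.refl (by linarith)
    rcases alt with s | ⟨_, s1, s2', s3⟩
    · refine s1_kill hP R ih hb (by omega) a' hX' hd c1 ⟨O, a'.cls_iff.2 o, le_rfl,
        Or.inl (s.le.trans (Nat.le_add_right _ _)), fun z hz z' _ e => ?_⟩
      exact ((e z hz).eq_iff.1 rfl).symm
    · exact s2 hP R ih hb (by omega) a' hX' hd s1 s2' c1 s3
  · rw [Nat.sub_sub, Nat.sub_sub, ← add_assoc]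
    obtain ⟨l1, l2⟩ := ari_lc (P := P) (c := c + P.g * 2) (by omega) o1
    have : P.cst o ≤ P.cst A.card := by
      unfold Pm.cst
      exact Nat.add_le_add_left (Nat.mul_le_mul_left _ (bl_mono o2)) _
    refine ih.use hb l1 l2 (by omega) a' fun w hw =>
      Vw.Pt.emb a a' m (fun w hw => ?_) (Nat.succ_pos _) hw (q w hw)
    obtain ⟨u, hu, t, g⟩ := h.tl w hw
    have e := h.o.2.2 u hu
    exact (t.head a (hAD hu) e.le h.n (e ▸ h.g1) (e ▸ g)).mono a a Vw.Mono.refl hs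

end Pool.Agent.P.MP_f1a348_lc.GX
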