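import Pool.Agent.P.MP_f1a348_lc.GX.DefsV
import Pool.Agent.P.MP_f1a348_lc.GX.TSYS
import Pool.Agent.P.MP_f1a348_lc.GX.TGOOD
import Pool.Agent.P.MP_f1a348_lc.GX.THH
import Pool.Agent.P.MP_f1a348_lc.GX.TVORB
import Pool.Agent.P.MP_f1a348_lc.GX.TVGOOD
import Pool.Agent.P.MP_f1a348_lc.GX.TVALG
import Pool.Agent.P.MP_f1a348_lc.GX.TVCH
import Pool.Agent.P.MP_f1a348_lc.GX.TVSURG
import Pool.Agent.P.MP_f1a348_lc.GX.TVARI
import Pool.Agent.P.MP_f1a348_lc.GX.TVEQ1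

/-! Step VS1. -/

set_option autoImplicit false
set_option linter.unusedSectionVars false

namespace Pool.Agent.P.MP_f1a348_lc.GX

open Equiv Finset MulAction
open scoped Classical
variable {G Y : Type} [Group G] [MulAction G Y] [DecidableEq Y] {P : Pm} {H H' K K' : Subgroup G}
  {D D' : Finset Y} {Γ Γ' : Sy Y} {v v' : Vw G Y} {W : ℕ → Vw G Y → Prop}

/- Rule pin1. The price is paid: apply OPin to the pinned system itself and the class of a head. In the new view the classes are the orbits. If some orbit A' inside A fails the first alternative, then d = 1, it is the only such orbit (more than three quarters), use eq1 with x = card A. Else IH.use with γ = 1 + min d (lg card C). -/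
theorem s1_pin (hP : P.Ok) (R : Rules P W) {n φ c : ℕ} {Φ Φ' n1 n2 : ℝ} (ih : IH P W n)
    (hb : Bud P n φ Φ) (hc : c ≤ 4 * P.g) (a : v.Ok P) (hX : v.X.Nonempty) {A : Finset Y}
    (h : v.Hd P A n1 n2 Φ' Φ) (o : (v.Γ1 P).OPin P.LL P.N1 P.tau A n1) : W (φ - c) v := by
  obtain ⟨C, Q, d, hC, hQ, hQc, hd1, hdt, hall⟩ := o
  have hCO : v.IsO C := a.cls_iff.1 hC
  obtain ⟨p, hp⟩ := hCO.1
  have hop : v.o p = C := hCO.2.2 p hp
  have hCD : C ⊆ v.Γ.D := hCO.2.1.trans a.dd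
  have hCc : C.card ≤ 2 ^ P.lam := a.card_le hCD
  have hLL : 0 ≤ P.LL := Pm.LL_nonneg
  have hAD : A ⊆ v.D := h.o.2.1
  have hAinv : InvF v.H A := Vw.IsO.inv a h.o
  have hAcls : (v.Γ1 P).Cls A := a.cls_iff.2 h.o
  have hm1 := hP.m1
  obtain ⟨w0, hw0⟩ := hX
  obtain ⟨u0, hu0, htl0, hg0⟩ := h.tl w0 hw0
  have hΦ' : 0 ≤ Φ' := htl0.nonneg
  have hn2 : 0 ≤ n2 := hg0.nonneg
  have hn1 : 0 ≤ n1 := h.g1.nonneg
  have hHA : 0 ≤ HH P.LL A.card := HH_nonneg hLL _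
  have hsum := h.sum
  have hmin : 0 ≤ min (d : ℝ) (lg C.card) := le_min (Nat.cast_nonneg d) (lg_nonneg _)
  have hΦ : 0 ≤ Φ := by linarith
  have hari : ((c + P.g + 2 * Q.card * bl C.card : ℕ) : ℝ) ≤
      P.unit * (1 + min (d : ℝ) (lg C.card)) := ari_pin (by omega) hdt hQc hCc
  have hγ : 1 + min (d : ℝ) (lg C.card) ≤ Φ + 1 := by
    have hr : (v.Γ1 P).Ref ((v.Γ1 P).pin Q) := Sy.ref_pin Q
    have hu0D : u0 ∈ ((v.Γ1 P).pin Q).D := hAcls.2.1.1 hu0
    have hM : 3 ≤ ((v.Γ1 P).pin Q).M := by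
      show 3 ≤ P.M - Q.card
      omega
    have hsub : ((v.Γ1 P).pin Q).cls u0 ⊆ A := (hr.inv1 hAcls.2.1).cls_sub hu0
    rcases hall _ Sy.Ref.refl hM _ hsub (Sy.cls_cls hu0D) with ⟨ν', g, e⟩ | ⟨e1, -, e3⟩
    · have := g.nonneg
      have := HH_nonneg hLL (((v.Γ1 P).pin Q).cls u0).card
      linarith
    · obtain ⟨z, hz, z', hz', hne, -⟩ := e3
      have h2 : 2 ≤ A.card := one_lt_card.2 ⟨z, hsub hz, z', hsub hz', hne⟩
      have h3 : 1 ≤ HH P.LL A.card := one_le_HH h2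
      have h4 : min (d : ℝ) (lg C.card) ≤ 1 := by
        rw [e1]; exact (min_le_left _ _).trans (by norm_num)
      linarith
  have hcost : c + P.g + 2 * Q.card * bl C.card ≤ φ := hb.cost hγ hari
  refine R.pin1 (φ - c) v p Q a (hCO.2.1 hp) (hop ▸ hQ) (by rw [hop]; omega) ?_
  intro v' a' m hfix
  have hrw : φ - c - (P.g + 2 * Q.card * bl (v.o p).card) =
      φ - (c + P.g + 2 * Q.card * bl C.card) := by rw [hop]; omega
  rw [hrw]
  have href : ((v.Γ1 P).pin Q).Ref (v'.Γ1 P) := sys1_pin _ _ a.inv a'.inv m.h m.d hfix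
  have hM' : 3 ≤ (v'.Γ1 P).M := by
    show 3 ≤ P.M
    omega
  have hosub : ∀ u ∈ A, v'.o u ⊆ A := fun u hu => orb_sub (hAinv.mono m.h) hu
  have hoO : ∀ u ∈ A, v'.IsO (v'.o u) := fun u hu => a'.isO (m.d (hAD hu))
  have halt := fun u (hu : u ∈ A) => hall _ href hM' _ (hosub u hu) (a'.cls_iff.2 (hoO u hu))
  have hg2 : ∀ u ∈ A, ∀ B ⊆ A, v.Γ.Good P.N1 (A ∩ v.Γ.cls u) n2 →
      v'.Γ.Good P.N1 (B ∩ v'.Γ.cls u) n2 := fun u hu B hB g =>
    g.mono (fun y hy => mem_inter.2 ⟨hB (mem_inter.1 hy).1, Sy.mem_cls.2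
      (m.ref.e1 (a.dd (hAD hu)) (Sy.mem_cls.1 (mem_inter.1 hy).2))⟩) m.ref le_rfl
  have hfirst : ∀ w, ∀ u ∈ A, v.Tl P w u Φ' → v.Γ.Good P.N1 (A ∩ v.Γ.cls u) n2 →
      (∃ ν', (v'.Γ1 P).Good P.N1 (v'.o u) ν' ∧ HH P.LL (v'.o u).card + ν' + 1 +
        min (d : ℝ) (lg C.card) ≤ HH P.LL A.card + n1) →
      v'.Pt P w (Φ - (1 + min (d : ℝ) (lg C.card))) := by
    rintro w u hu tl g ⟨ν', g', e⟩
    have t1 := (tl.mono a a' m).head a' (m.d (hAD hu)) (Subset.refl _)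
      ((card_le_card (hosub u hu)).trans h.n) g' (hg2 u hu _ (hosub u hu) g)
    exact t1.mono a' a' Vw.Mono.refl (by linarith)
  by_cases hcase : ∀ u ∈ A, ∃ ν', (v'.Γ1 P).Good P.N1 (v'.o u) ν' ∧
      HH P.LL (v'.o u).card + ν' + 1 + min (d : ℝ) (lg C.card) ≤ HH P.LL A.card + n1
  · refine ih.use hb (γ := 1 + min (d : ℝ) (lg C.card)) (by linarith) hari hcost a' ?_
    intro w hw
    obtain ⟨u, hu, tl, g⟩ := h.tl w (m.x hw)
    exact hfirst w u hu tl g (hcase u hu)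
  · push Not at hcase
    obtain ⟨u1, hu1, hno⟩ := hcase
    have hsec : d = 1 ∧ 3 * A.card < 4 * (v'.o u1).card ∧ (v'.Γ1 P).Equi (v'.o u1) := by
      rcases halt u1 hu1 with ⟨ν', g, e⟩ | e
      · exact absurd e (not_le.2 (hno ν' g))
      · exact e
    obtain ⟨e1, e2, e3⟩ := hsec
    have hbl : bl C.card ≤ P.lam + 1 := bl_le hCc
    have hgu : 100 * P.g ≤ P.unit := Pm.g_le
    have hprod : 2 * Q.card * bl C.card ≤ P.g := by
      have : 2 * Q.card * bl C.card ≤ 2 * 2 * (P.lam + 1) :=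
        Nat.mul_le_mul (Nat.mul_le_mul_left 2 (by omega)) hbl
      unfold Pm.g
      omega
    refine eq1 hP R ih hb hΦ (by omega) a' (hoO u1 hu1) e3 (card_le_card (hosub u1 hu1)) h.n
      (h.g1.mono (hosub u1 hu1) (m.ref1 a a') le_rfl) hsum ?_
    intro w hw
    obtain ⟨u, hu, tl, g⟩ := h.tl w (m.x hw)
    by_cases hin : u ∈ v'.o u1
    · exact Or.inr ⟨u, hin, tl.mono a a' m, hg2 u hu _ (hosub u1 hu1) g⟩
    · left
      rcases halt u hu with e | ⟨-, e, -⟩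
      · exact (hfirst w u hu tl g e).mono a' a' Vw.Mono.refl (by linarith)
      · exfalso
        have hdis : Disjoint (v'.o u) (v'.o u1) := by
          rw [Finset.disjoint_left]
          intro y hy hy1
          have q1 := (hoO u hu).2.2 y hy
          have q2 := (hoO u1 hu1).2.2 y hy1
          apply hin
          rw [← q2, q1]
          exact self_mem_orb (m.d (hAD hu))
        have := card_le_card (union_subset (hosub u hu) (hosub u1 hu1))
        rw [card_union_of_disjoint hdis] at this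
        omega

end Pool.Agent.P.MP_f1a348_lc.GX
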