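import Pool.Agent.P.MP_f1a348_lc.GX.DefsV
import Pool.Agent.P.MP_f1a348_lc.GX.TSYS
import Pool.Agent.P.MP_f1a348_lc.GX.TGOOD
import Pool.Agent.P.MP_f1a348_lc.GX.THH
import Pool.Agent.P.MP_f1a348_lc.GX.TVORB
import Pool.Agent.P.MP_f1a348_lc.GX.TVGOOD
import Pool.Agent.P.MP_f1a348_lc.GX.TVALG
import Pool.Agent.P.MP_f1a348_lc.GX.TVCH
import Pool.Agent.P.MP_f1a348_lc.GX.TVSURG
import Pool.Agent.P.MP_f1a348_lc.GX.TVARI

/-! Step VS1C. -/

set_option autoImplicit false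
set_option linter.unusedSectionVars false

namespace Pool.Agent.P.MP_f1a348_lc.GX

open Equiv Finset MulAction
open scoped Classical
variable {G Y : Type} [Group G] [MulAction G Y] [DecidableEq Y] {P : Pm} {H H' K K' : Subgroup G}
  {D D' : Finset Y} {Γ Γ' : Sy Y} {v v' : Vw G Y} {W : ℕ → Vw G Y → Prop}

namespace VS1Cx

theorem fin {n φ c : ℕ} {Φ Φ' n1 n2 : ℝ} (ih : IH P W n)
    (hb : Bud P n φ Φ) (hc : c ≤ 4 * P.g) (a : v.Ok P) (hX : v.X.Nonempty) {A : Finset Y}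
    (h : v.Hd P A n1 n2 Φ' Φ) (hp : ∀ w ∈ v.X, v.Pt P w (Φ - 1)) : W (φ - c) v := by
  have h1 : (c : ℝ) ≤ P.unit * 1 := by
    have := Pm.g_le (P := P)
    rw [mul_one]
    exact_mod_cast (by omega : c ≤ P.unit)
  obtain ⟨w, hw⟩ := hX
  obtain ⟨u, _, t, g2⟩ := h.tl w hw
  have := t.nonneg
  have := g2.nonneg
  have := h.g1.nonneg
  have := HH_nonneg (Pm.LL_nonneg (P := P)) A.card
  have := h.sum
  exact ih.use hb le_rfl h1 (hb.cost (by linarith) h1) a hp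

end VS1Cx

/- No move: Tl.slots with I = the e points of u. -/
theorem s1_john (hP : P.Ok) {n φ c : ℕ} {Φ Φ' n1 n2 : ℝ} (ih : IH P W n)
    (hb : Bud P n φ Φ) (hc : c ≤ 4 * P.g) (a : v.Ok P) (hX : v.X.Nonempty) {A : Finset Y}
    (h : v.Hd P A n1 n2 Φ' Φ) (o : (v.Γ1 P).OJohn P.t0 A) : W (φ - c) v := by
  obtain ⟨C, z0, v0, e, J, he, hce, h0, hA⟩ := o
  have hC := a.cls_iff.1 J.cls
  have hch : C.card.choose e ≤ A.card := by
    rw [← card_powersetCard]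
    refine card_le_card_of_surjOn (fun z => C.filter ((v.Γ1 P).E2 z0 v0 z)) (fun T hT => ?_)
    obtain ⟨t1, t2⟩ := mem_powersetCard.1 hT
    obtain ⟨z, z1, z2⟩ := J.surj T t1 t2
    exact ⟨z, z1, z2⟩
  obtain ⟨j1, _, j3⟩ := ari_john (P := P) he hce h0 hch (a.card_le (h.o.2.1.trans a.dd))
  have mv : ∀ g ∈ v.H, ∀ z y, y ∈ C.filter ((v.Γ1 P).E2 z0 v0 z) →
      g • y ∈ C.filter ((v.Γ1 P).E2 z0 v0 (g • z)) := by
    intro g hg z y hy
    obtain ⟨y1, y2⟩ := mem_filter.1 hy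
    refine mem_filter.2 ⟨hC.inv a g hg y y1, ?_⟩
    obtain ⟨b1, b2, k, k1, k2, k3⟩ := (sys1_E2 P.M a.inv).1 y2
    exact (sys1_E2 P.M a.inv).2 ⟨b1, b2, g * k, v.H.mul_mem hg k1, by rw [mul_smul, k2],
      by rw [mul_smul, k3]⟩
  refine VS1Cx.fin ih hb hc a hX h (fun w hw => ?_)
  obtain ⟨u, hu, t, g2⟩ := h.tl w hw
  have := t.slots a hC.2.1 (hC.inv a) le_rfl (hA.trans h.n)
    (filter_subset ((v.Γ1 P).E2 z0 v0 u) C) (J.card u hu).le j1 (fun g hg y hy => by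
      have := mv g hg.1 u y hy
      rwa [show g • u = u from hg.2] at this) (fun g hg => by
      have hgu := h.o.inv a g hg.1 u hu
      refine (J.inj u hu _ hgu (eq_of_subset_of_card_le (fun y hy => ?_)
        (by rw [J.card u hu, J.card _ hgu]))).symm
      have := mv g hg.1 u y hy
      rwa [mem_fixF.1 hg.2 y hy] at this)
  refine this.mono a a Vw.Mono.refl ?_
  have := g2.nonneg
  have := h.g1.nonneg
  have := h.sum
  linarith

theorem s1_free (hP : P.Ok) {n φ c : ℕ} {Φ Φ' n1 n2 : ℝ} (ih : IH P W n)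
    (hb : Bud P n φ Φ) (hc : c ≤ 4 * P.g) (a : v.Ok P) (hX : v.X.Nonempty) {A : Finset Y}
    (h : v.Hd P A n1 n2 Φ' Φ) (o : (v.Γ1 P).Good P.N1 A (n1 - 1)) : W (φ - c) v := by
  refine VS1Cx.fin ih hb hc a hX h (fun w hw => ?_)
  obtain ⟨u, hu, t, g2⟩ := h.tl w hw
  have e := h.o.2.2 u hu
  refine (t.head a (h.o.2.1 hu) e.subset h.n (e.symm ▸ o) (e.symm ▸ g2)).mono a a
    Vw.Mono.refl ?_
  have := h.sum
  linarith

end Pool.Agent.P.MP_f1a348_lc.GX
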