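import Pool.Agent.P.MP_f1a348_lc.GX.DefsV
import Pool.Agent.P.MP_f1a348_lc.GX.TSYS
import Pool.Agent.P.MP_f1a348_lc.GX.TGOOD
import Pool.Agent.P.MP_f1a348_lc.GX.THH
import Pool.Agent.P.MP_f1a348_lc.GX.TJOH
import Pool.Agent.P.MP_f1a348_lc.GX.TSTEP
import Pool.Agent.P.MP_f1a348_lc.GX.TWIEL
import Pool.Agent.P.MP_f1a348_lc.GX.TVORB
import Pool.Agent.P.MP_f1a348_lc.GX.TVCH
import Pool.Agent.P.MP_f1a348_lc.GX.TVUNI
import Pool.Agent.P.MP_f1a348_lc.GX.TVARI
import Pool.Agent.P.MP_f1a348_lc.GX.TVEQ1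
import Pool.Agent.P.MP_f1a348_lc.GX.TVS1
import Pool.Agent.P.MP_f1a348_lc.GX.TVS1B
import Pool.Agent.P.MP_f1a348_lc.GX.TVS1C
import Pool.Agent.P.MP_f1a348_lc.GX.TVGI

/-! Step VMAIN. -/

set_option autoImplicit false
set_option linter.unusedSectionVars false

namespace Pool.Agent.P.MP_f1a348_lc.GX

open Equiv Finset MulAction
open scoped Classical
variable {G Y : Type} [Group G] [MulAction G Y] [DecidableEq Y] {P : Pm} {H H' K K' : Subgroup G}
  {D D' : Finset Y} {Γ Γ' : Sy Y} {v v' : Vw G Y} {W : ℕ → Vw G Y → Prop}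

/- Induction on n. Empty X: leaf. Rule uni, uni_head, Sy.step for the orbit system; the last outcome gives MTr (Tr.anti, sys1_mtr), wielandt, gi. -/
theorem game (hP : P.Ok) (R : Rules P W) (n : ℕ) : IH P W n := by
  have leaf0 : ∀ φ (v : Vw G Y), v.Ok P → ¬ v.X.Nonempty → W φ v := fun φ v a h =>
    R.leaf φ v a fun _ _ x hx => absurd ⟨x, hx⟩ h
  induction n with
  | zero =>
    intro φ v Φ a h1 _ _ h
    refine leaf0 φ v a fun ⟨w, hw⟩ => ?_
    obtain ⟨k, hk, -⟩ := h w hw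
    exact absurd hk.nonneg (not_le.2 (by simpa using h1))
  | succ n ih =>
    intro φ v Φ a h1 h2 h3 h
    have hb : Bud P n φ Φ := ⟨by simpa using h1, h2, h3⟩
    by_cases hX : v.X.Nonempty
    swap
    · exact leaf0 φ v a hX
    have h0 : 0 ≤ Φ := by
      obtain ⟨w, hw⟩ := hX
      obtain ⟨k, hk, -⟩ := h w hw
      exact hk.nonneg
    have hg := Pm.g_le (P := P)
    refine R.uni φ v a (hb.cost (γ := 1) (by linarith) ?_) fun v' a' m ol c => ?_
    · rw [mul_one]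
      exact_mod_cast (by omega : P.g ≤ P.unit)
    obtain hi | ⟨w0, hw0, u0, hu0, n1, n2, Φ', c2, hd, g2, e1, e2⟩ :=
      Vw.uni_head hP a' ol c h2 fun w hw => (h w (m.x hw)).mono a a' m le_rfl
    · exact R.leaf _ v' a' hi
    have hX' : v'.X.Nonempty := ⟨w0, hw0⟩
    have hc : P.g ≤ 4 * P.g := by omega
    have hl : (v'.o u0).card ≤ 2 ^ P.lam := hd.n.trans hP.n1
    have hτ : 100 * (P.lam + 1) + 1 ≤ P.tau := by unfold Pm.tau Pm.t; omega
    have ht : 4 * P.tau ≤ P.t0 := Nat.le_add_right _ _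
    obtain o | o | o | o | o | o | ⟨o1, o2⟩ := Sy.step (Γ := v'.Γ1 P) (τ := P.tau) (t0 := P.t0)
      (Λ := P.lam) (Pm.LL_nonneg (P := P)) hP.m1 (by omega) ht
      (a'.cls_iff.2 hd.o) c2 hl hd.n hd.g1
    · exact s1_free hP ih hb hc a' hX' hd o
    · exact s1_pin hP R ih hb hc a' hX' hd o
    · exact s1_quo hP R ih hb hc a' hX' hd o
    · exact eq1 hP R ih hb h0 (by omega) a' hd.o o le_rfl hd.n hd.g1 hd.sum
        fun w hw => .inr (hd.tl w hw)
    · exact s1_kill hP R ih hb hc a' hX' hd c2 o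
    · exact s1_john hP ih hb hc a' hX' hd o
    · have := a'.fin
      exact gi hP R ih hb (by omega) a' hX' hd (wielandt v'.H _ (hd.o.inv a') hl (by omega)
        (sys1_mtr P.M a'.inv (o2.anti hτ (by omega)))) c2 (a'.xd hw0) (self_mem_orb hu0) g2 e1 e2

end Pool.Agent.P.MP_f1a348_lc.GX
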