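import Pool.Agent.P.MP_f1a348_lc.GX.DefsP
import Pool.Agent.P.MP_f1a348_lc.GX.LibInc
import Pool.Agent.P.MP_f1a348_lc.GX.LibF
import Pool.Agent.P.MP_f1a348_lc.GX.LibPar
import Pool.Agent.P.MP_f1a348_lc.GX.TPNUM
import Pool.Agent.P.MP_f1a348_lc.GX.TPST0

/-! Step PMAIN. -/

set_option autoImplicit false
set_option linter.unusedSectionVars false

namespace Pool.Agent.P.MP_f1a348_lc.GX

open Pool.Agent.Lib.Helper47 Pool.Agent.P.MP_f1a348_lc.GI Pool.Agent.P.MP_f1a348_lc.TO
variable {cx : Cx} {s s' s'' : Sta}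

namespace PMAINx

/-- a power of two that is cut by the budget -/
def p2 (pad : List Unit) (x : ℕ) : ℕ := 2 ^ (pad.take x).length

theorem p2_eq {pad : List Unit} {x : ℕ} (h : x ≤ pad.length) : p2 pad x = 2 ^ x := by
  rw [p2, List.length_take, min_eq_left h]

@[fun_prop] theorem pt_p2 {α : Type} [Enc α] {pad : α → List Unit} {x : α → ℕ} (h : PT pad)
    (h' : PT x) : PT (fun a => p2 (pad a) (x a)) := by
  have h1 : PT (fun a => (pad a).take (x a)) := by fun_prop
  exact PT.pow (PT.const 2) (PT.length h1) (h1.size_le.mono fun a => (length_lt_size _).le)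

/-- the parameter `lam` -/
def lamN (V : List ℕ) : ℕ := 400 * max 1 V.length.bits.length

/-- the fuel -/
def fu (p : Par) (V : List ℕ) : ℕ := 2 ^ 70 * (lamN V + 1) * p.2.length

/-- the context -/
def mkc (p : Par) (V : List ℕ) : Cx :=
  (p.1.take (p2 p.1 (fu p V + lamN V * p.2.length + 3)), V, p.1.take (p2 p.1 (lamN V)),
    p.1.take (lamN V), p.2, p.2.drop 6)

/-- the test of the context -/
def okB (cx : Cx) : Bool :=
  Nat.ble (cx.ul.length * (cx.uM.length + 1)) cx.pad.length &&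
    (cx.big.length == p2 cx.pad cx.ul.length) &&
    Nat.ble (208 * cx.ul.length + 222) cx.uM.length && Nat.ble (cx.um.length + 6) cx.uM.length &&
    Nat.ble 2 cx.um.length && Nat.ble 64 cx.ul.length &&
    Nat.ble cx.base.length (p2 cx.pad (cx.ul.length / 2)) &&
    Nat.ble (p2 cx.pad (cx.ul.length * cx.uM.length)) cx.pad.length

theorem pt_lamN : PT lamN :=
  PT.mul (PT.const 400) (PT.max (PT.const 1) (PT.length (PT.bits (PT.length PT.id))))

theorem pt_fu : PT (fun x : Par × List ℕ => fu x.1 x.2) := by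
  have := pt_lamN
  unfold fu; fun_prop

theorem pt_mk : PT (fun x : Par × List ℕ => mkc x.1 x.2) := by
  have := pt_lamN
  have := pt_fu
  unfold mkc; fun_prop

theorem pt_okB : PT okB := by unfold okB; fun_prop

theorem okB_iff (hb : cx.base = List.range cx.n) :
    okB cx = true ↔ cx.Ok ∧ cx.lam * (cx.uM.length + 1) ≤ cx.pd := by
  simp only [okB, Bool.and_eq_true, Nat.ble_eq, beq_iff_eq]
  constructor
  · rintro ⟨⟨⟨⟨⟨⟨⟨h0, h1⟩, h2⟩, h3⟩, h4⟩, h5⟩, h6⟩, h7⟩
    have a1 : cx.ul.length * cx.uM.length + cx.ul.length ≤ cx.pad.length := h0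
    rw [p2_eq (by omega)] at h1 h6 h7
    refine ⟨⟨hb, h1, ⟨?_, h3, h4, ?_⟩, h5, h6, h7⟩, h0⟩
    · simp only [Cx.P, Pm.tau, Pm.t, Pm.s, Cx.lam]; omega
    · exact h6.trans (Nat.pow_le_pow_right (by norm_num) (Nat.div_le_self _ _))
  · rintro ⟨⟨-, h1, ⟨h2, h3, h4, -⟩, h5, h6, h7⟩, h0⟩
    have a1 : cx.ul.length * cx.uM.length + cx.ul.length ≤ cx.pad.length := h0
    rw [p2_eq (by omega), p2_eq (by omega), p2_eq (by omega)]
    refine ⟨⟨⟨⟨⟨⟨⟨h0, h1⟩, ?_⟩, h3⟩, h4⟩, h5⟩, h6⟩, h7⟩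
    simp only [Cx.P, Pm.tau, Pm.t, Pm.s, Cx.lam] at h2; omega

/-- the test -/
def mn (run : List Unit × ℕ × Cx × Sta → Option Ans) (a : Par × Q) : Option Bool :=
  bif okB (mkc a.1 a.2.1) then
    (run (a.1.1, fu a.1 a.2.1, mkc a.1 a.2.1, st0 a.2.1 a.2.2.1 a.2.2.2.2)).map Option.isSome
  else none

theorem lamN_range (n : ℕ) : lamN (List.range n) = 400 * lgn n := by
  rw [lamN, List.length_range, Nat.size_eq_bits_len, lgn]
  rcases Nat.eq_zero_or_pos n with rfl | hn
  · simp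
  · have h1 : n.size ≤ Nat.log 2 n + 1 := Nat.size_le.2 (Nat.lt_pow_succ_log_self (by norm_num) n)
    have h2 : Nat.log 2 n < n.size := Nat.lt_size.2 (Nat.pow_log_le_self 2 hn.ne')
    omega

theorem flds (a : List Unit) (b : List ℕ) (c d e f : List Unit) :
    Cx.pad (a, b, c, d, e, f) = a ∧ Cx.base (a, b, c, d, e, f) = b ∧
    Cx.big (a, b, c, d, e, f) = c ∧ Cx.ul (a, b, c, d, e, f) = d ∧
    Cx.uM (a, b, c, d, e, f) = e ∧ Cx.um (a, b, c, d, e, f) = f :=
  ⟨rfl, rfl, rfl, rfl, rfl, rfl⟩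

theorem mkc_flds (p : Par) (V : List ℕ) :
    (mkc p V).pad = p.1.take (p2 p.1 (fu p V + lamN V * p.2.length + 3)) ∧ (mkc p V).base = V ∧
    (mkc p V).big = p.1.take (p2 p.1 (lamN V)) ∧ (mkc p V).ul = p.1.take (lamN V) ∧
    (mkc p V).uM = p.2 ∧ (mkc p V).um = p.2.drop 6 := by
  rw [mkc]; exact flds _ _ _ _ _ _

theorem lam_eq (n M : ℕ) : (pmOf n M).lam = 400 * lgn n := rfl

theorem fuel_eq (n M : ℕ) : fuel0 n M = 2 ^ 70 * (400 * lgn n + 1) * M := by
  rw [fuel0, Pm.unit, lam_eq]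

theorem ari (K l M : ℕ) : K * (l + 1) * M + l * M + 3 ≤ (K + 4) * (l + 1) * (M + 1) := by
  nlinarith [Nat.zero_le (K * l), Nat.zero_le (l * M)]

theorem budget (c n M : ℕ) : 2 ^ ((fuel0 n M + 400 * lgn n * M + 3) * (c + 1)) ≤
    (n + 2) ^ (802 * ((c + 1) * (2 ^ 70 + 4)) * (M + 1)) := by
  refine pow_budget _ n M _ ?_
  rw [fuel_eq, lam_eq]
  generalize 2 ^ 70 = K
  refine (Nat.mul_le_mul_right _ (ari K (400 * lgn n) M)).trans (le_of_eq ?_)
  ring

theorem lam_le (n M : ℕ) (h : 1 ≤ M) : 400 * lgn n ≤ fuel0 n M := by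
  rw [fuel_eq]
  refine le_trans ?_ (Nat.le_mul_of_pos_right _ h)
  exact (Nat.le_succ _).trans (Nat.le_mul_of_pos_left _ (Nat.two_pow_pos _))

end PMAINx

open PMAINx in
/- With L = Nat.log 2 n + 1 and lev = p.2.length: lam = 400 L, M = lev, mm = lev - 6. -/
theorem main_of {run : List Unit × ℕ × Cx × Sta → Option Ans} (h : EngSpec run) :
    ∃ c mn, GSpec (lvl c) mn := by
  refine ⟨cL, mn run, ?_, ?_, ?_⟩
  · have a1 := pt_mk.comp (g := fun a : Par × Q => (a.1, a.2.1)) (by fun_prop)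
    have a2 := pt_fu.comp (g := fun a : Par × Q => (a.1, a.2.1)) (by fun_prop)
    have a3 := pt_st0.comp (g := fun a : Par × Q => (a.2.1, a.2.2.1, a.2.2.2.2)) (by fun_prop)
    exact PT.cond (pt_okB.comp a1) (PT.optMap (h.pt.comp
      (g := fun a : Par × Q => (a.1.1, fu a.1 a.2.1, mkc a.1 a.2.1, st0 a.2.1 a.2.2.1 a.2.2.2.2))
      (PT.prodMk (by fun_prop) (a2.prodMk (a1.prodMk a3)))) (by fun_prop)) (PT.const _)
  · intro p n E F b hp e
    have hb : (mkc p (List.range n)).base = List.range (mkc p (List.range n)).n := by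
      simp [mkc, Cx.base, Cx.n]
    unfold mn at e
    cases ho : okB (mkc p (List.range n)) with
    | false => simp [ho] at e
    | true =>
      simp only [ho, cond_true] at e
      obtain ⟨a, ha, rfl⟩ := Option.map_eq_some_iff.1 e
      have ok := ((okB_iff hb).1 ho).1
      exact st0_post ok hp.se hp.sf (h.sound _ _ _ _ a ok (st0_wf ok hp.se hp.sf) ha)
  · obtain ⟨c, hc⟩ := h.halts
    refine ⟨802 * ((c + 1) * (2 ^ 70 + 4)), fun p n E F hp hl hpad => ?_⟩
    replace hl : p.2.length = lev0 n := hl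
    replace hpad : (n + 2) ^ (802 * ((c + 1) * (2 ^ 70 + 4)) * (lev0 n + 1)) ≤ p.1.length := hpad
    have hb : (mkc p (List.range n)).base = List.range (mkc p (List.range n)).n := by
      simp [mkc, Cx.base, Cx.n]
    have e1 := lamN_range n
    have e2 : fu p (List.range n) = fuel0 n (lev0 n) := by
      rw [fu, e1, hl, fuel_eq]
    obtain ⟨x, hx⟩ : ∃ x, x = fuel0 n (lev0 n) + 400 * lgn n * lev0 n + 3 := ⟨_, rfl⟩
    have b1 : 2 ^ (x * (c + 1)) ≤ p.1.length := by
      rw [hx]; exact (budget c n (lev0 n)).trans hpad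
    have b2 : 2 ^ x ≤ p.1.length :=
      (Nat.pow_le_pow_right (by norm_num) (Nat.le_mul_of_pos_right _ (Nat.succ_pos _))).trans b1
    have b3 : x < 2 ^ x := Nat.lt_two_pow_self
    have l1 := lgn_pos n
    have l2 : 1 ≤ lev0 n := by rw [lvl_eq]; omega
    have l3 : 400 * lgn n ≤ 400 * lgn n * lev0 n := Nat.le_mul_of_pos_right _ l2
    have b4 : 2 ^ (400 * lgn n) ≤ 2 ^ x := Nat.pow_le_pow_right (by norm_num) (by omega)
    obtain ⟨d1, d2, d3, d4, d5, d6⟩ := mkc_flds p (List.range n)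
    have c1 : (mkc p (List.range n)).pd = 2 ^ x := by
      rw [Cx.pd, d1, List.length_take, e2, e1, hl, ← hx, p2_eq (by omega), min_eq_left b2]
    have c2 : (mkc p (List.range n)).lam = 400 * lgn n := by
      rw [Cx.lam, d4, List.length_take, e1, min_eq_left (by omega)]
    have c3 : (mkc p (List.range n)).big.length = 2 ^ (400 * lgn n) := by
      rw [d3, List.length_take, e1, p2_eq (by omega), min_eq_left (by omega)]
    have c4 : (mkc p (List.range n)).n = n := by rw [Cx.n, d2, List.length_range]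
    have c5 : (mkc p (List.range n)).uM.length = lev0 n := by rw [d5, hl]
    have c6 : (mkc p (List.range n)).P = pmOf n (lev0 n) := by
      rw [Cx.P, c2, c4, c5, d6, List.length_drop, hl, pmOf]
    have c7 : (mkc p (List.range n)).b1 = 2 ^ (200 * lgn n) := by
      rw [Cx.b1, c2]; congr 1; omega
    have n1 := lt_pow_lgn n
    have f1 := fuel0_le n
    have g1 : 2 ^ (105 + 4 * lgn n) ≤ 2 ^ (200 * lgn n) :=
      Nat.pow_le_pow_right (by norm_num) (by omega)
    have g2 : 2 ^ (105 + 4 * lgn n) = 4 * (2 ^ lgn n * 2 ^ (103 + 3 * lgn n)) := by ring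
    have g3 : 2 ^ lgn n ≤ 2 ^ (103 + 3 * lgn n) := Nat.pow_le_pow_right (by norm_num) (by omega)
    have g4 : 2 ^ (103 + 3 * lgn n) ≤ 2 ^ lgn n * 2 ^ (103 + 3 * lgn n) :=
      Nat.le_mul_of_pos_left _ (Nat.two_pow_pos _)
    have g5 := Nat.mul_le_mul n1.le f1
    have g6 := Nat.mul_le_mul n1.le (n1.le.trans g3)
    have ok : (mkc p (List.range n)).Ok := by
      refine ⟨hb, by rw [c3, c2], by rw [c6]; exact pmOf_ok n, by omega, by omega, ?_⟩
      rw [c1, c2, c5]; exact Nat.pow_le_pow_right (by norm_num) (by omega)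
    have ho : okB (mkc p (List.range n)) = true := by
      refine (okB_iff hb).2 ⟨ok, ?_⟩
      have := lam_le n (lev0 n) l2
      rw [c1, c2, c5, Nat.mul_add]; omega
    have hr := hc p.1 (fuel0 n (lev0 n)) (mkc p (List.range n)) (st0 (List.range n) E F)
      (Phi0 (mkc p (List.range n)).P (mkc p (List.range n)).n) ok (st0_wf ok hp.se hp.sf)
      (st0_sz ok E F (by
        have : 2 ^ (fuel0 n (lev0 n) + 3) ≤ 2 ^ x := Nat.pow_le_pow_right (by norm_num) (by omega)
        rw [pow_add] at this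
        omega) (by rw [c4, c7]; omega) (by omega))
      (by
        rw [c1, ← pow_mul]
        exact (Nat.pow_le_pow_right (by norm_num) (Nat.mul_le_mul_left _ (Nat.le_succ _))).trans b1)
      (by rw [c6, c4]; exact phi0_le n) (by rw [c6, c4]; exact fuel0_ge n) (st0_pt ok hp.se)
    unfold mn
    simp only [ho, cond_true, e2]
    exact fun e => hr (Option.map_eq_none_iff.1 e)

end Pool.Agent.P.MP_f1a348_lc.GX
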