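import Pool.Agent.P.MP_f1a348_lc.GX.DefsV
import Pool.Agent.P.MP_f1a348_lc.GX.TSYS
import Pool.Agent.P.MP_f1a348_lc.GX.TGOOD
import Pool.Agent.P.MP_f1a348_lc.GX.THH
import Pool.Agent.P.MP_f1a348_lc.GX.TCONN
import Pool.Agent.P.MP_f1a348_lc.GX.TVORB
import Pool.Agent.P.MP_f1a348_lc.GX.TVGOOD
import Pool.Agent.P.MP_f1a348_lc.GX.TVCH
import Pool.Agent.P.MP_f1a348_lc.GX.TVSURG
import Pool.Agent.P.MP_f1a348_lc.GX.TVARI

/-! Step VEQ1. -/

set_option autoImplicit false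
set_option linter.unusedSectionVars false

namespace Pool.Agent.P.MP_f1a348_lc.GX

open Equiv Finset MulAction
open scoped Classical
variable {G Y : Type} [Group G] [MulAction G Y] [DecidableEq Y] {P : Pm} {H H' K K' : Subgroup G}
  {D D' : Finset Y} {Γ Γ' : Sy Y} {v v' : Vw G Y} {W : ℕ → Vw G Y → Prop}

/- Rule quo1 on A' with the pair of Equi, blks, Tl.split for the points with head in A', Pt.mono for the others, IH.use with γ = 1. -/
theorem eq1 (hP : P.Ok) (R : Rules P W) {n φ c : ℕ} {Φ Φ' n1 n2 : ℝ} (ih : IH P W n)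
    (hb : Bud P n φ Φ) (h0 : 0 ≤ Φ) (hc : c + 3 * P.g ≤ P.unit) (a : v.Ok P) {A : Finset Y}
    (hA : v.IsO A) (he : (v.Γ1 P).Equi A) {x : ℕ} (hx : A.card ≤ x) (hN : x ≤ P.N1)
    (g1 : (v.Γ1 P).Good P.N1 A n1) (hs : Φ' + HH P.LL x + n1 + n2 ≤ Φ)
    (h : ∀ w ∈ v.X, v.Pt P w (Φ - 1) ∨
      ∃ u ∈ A, v.Tl P w u Φ' ∧ v.Γ.Good P.N1 (A ∩ v.Γ.cls u) n2) : W (φ - c) v := by
  obtain ⟨z, hz, z', hz', hne, hn⟩ := he
  have hr : ((c + 3 * P.g : ℕ) : ℝ) ≤ P.unit * (1 : ℝ) := by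
    rw [mul_one]; exact_mod_cast hc
  have hcost : c + 3 * P.g ≤ φ := hb.cost (γ := 1) (by linarith) hr
  refine R.quo1 (φ - c) v A [(z, z')] a hA (hx.trans hN) ?_ ?_ ?_
  · intro q hq
    rw [List.mem_singleton] at hq
    subst hq
    exact ⟨hz, hz'⟩
  · simp only [List.length_singleton]
    omega
  · intro v' b a' m _ hb' hE
    have hM : 3 ≤ (v.Γ1 P).M := by
      have := hP.m1
      change 3 ≤ P.M
      omega
    obtain ⟨f, f1, f2, f3, f4⟩ := Sy.blks hM (a.cls_iff.2 hA) hz hz' hne hn hE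
    have e : φ - c - P.g * (2 * [(z, z')].length + 1) = φ - (c + 3 * P.g) := by
      simp only [List.length_singleton]
      omega
    rw [e]
    refine ih.use hb (γ := 1) le_rfl hr hcost a' fun w hw => ?_
    rcases h w (m.x hw) with h1 | ⟨u, hu, h1, h2⟩
    · exact h1.mono a a' m le_rfl
    · have g1' : (v'.Γ1 P).Good P.N1 A n1 := g1.mono subset_rfl (m.ref1 a a') le_rfl
      have g2' : v'.Γ.Good P.N1 (A ∩ v'.Γ.cls u) n2 := by
        refine h2.mono (fun y hy => ?_) m.ref le_rfl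
        rw [mem_inter] at hy ⊢
        exact ⟨hy.1, Sy.mem_cls.2 (m.ref.e1 (a.dd (hA.2.1 hu)) (Sy.mem_cls.1 hy.2))⟩
      have := Vw.Tl.split hP a' (h1.mono a a' m) (hA.2.1.trans m.d) hu hb' f1 f2
        (f3.le.trans hx) hN f4 g1' g2'
      exact this.mono a' a' Vw.Mono.refl (by linarith)

end Pool.Agent.P.MP_f1a348_lc.GX
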